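import Pool.Agent.Lib.MP_921642_ag.FI.Spec3

/-!
# MP_921642_ag, FI4: no bound on `n` (the case `n ≥ d^3`)

THEOREM FI4.  Let `n ≥ 2`, `1 ≤ m ≤ d`, `A = d + 1 - m`.  If `d^3 ≤ n` and
`10^9 (log d)^4 d^5 ≤ A^6`, then `dim L_{n,d}(m^s) ≥ ldim` for every number `s` of points.
(Together with FI3: for each `ρ < 1` there is `M₀(ρ)` such that the inequality holds for ALL
`n, d ≥ M₀`, `m ≤ ρ d`, `s`.)

Construction: `f_i = ∑_{t < r} ∑_{l ≤ L} X_{t,i,l}(x) y_{t,l}` (`q = b = 1`, `a = A - 1`, `D = e - 1`) with `r = e`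
groups and `L + 1 = n / (d e)` columns.  The load of a row is divided by the number of columns.
The many groups are handled by three phases of the game:
(PA) potential `∑ load^γ` down to `n3 ≈ 64 d log d / x^2`, `γ = n3 / (2 r D)`, cost `r^(1/γ)` (`x = A / d`);
(PB) between `n3` and `n4 = n3 - r`: all the active rows of the group with the smallest load are put into `T`,
until only `m` groups are alive; (PC) potential with `m` groups down to `n1`.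
At the leaves only the groups which are alive need a variable (BASE2).
`S` is always the set of the groups which may be alive: all rows of the groups outside `S` have degree `0` or
degree more than the current `D`.
-/

set_option autoImplicit false

namespace FrI

open MvPolynomial Pool.Agent.Lib.MP_921642_ag

/-! ### Base and rounding with a set of living groups -/

open Classical in
/-- the groups with active rows of positive degree -/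
noncomputable def live {r s : ℕ} (a : Fin r → Fin s → ℕ) (I : Fin r → Finset (Fin s)) (D : ℕ) :
    Finset (Fin r) :=
  Finset.univ.filter (fun t => ∃ i ∈ I t, 1 ≤ a t i ∧ a t i ≤ D)

/-- BASE2 (hypothesis SpecCNT).  As BASE (copy BASE.lean), but only the living groups need a variable:
`x : Fin r → Fin N` is any map which is injective on `live a I D`; `X_{t,i,l} = x_t^{a t i}` (`= 1` if `a t i = 0`)
if `i ∈ J_t` and `l = λ_t i`, and `0` otherwise.  For `ν` let `c p = a (u p) i` if there is `i ∈ I' (u p) ∩ J` with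
`λ i = ν p`, otherwise no condition (factor `1`, or `c p = D'+1`).  If some `c p = 0` the number of `α` is `0` and so is the
coefficient.  Otherwise all the slots with a condition belong to living groups; apply CNT to these slots
only (reindex `{p | c p ≤ D'}` by `Fin m`; the factors `1 - z^{D'+1}` of the others are `1` modulo `z^{D'+1}`). -/
def SpecBASE2 : Prop := ∀ (N L r s : ℕ) (a : Fin r → Fin s → ℕ) (I : Fin r → Finset (Fin s)) (D : ℕ),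
  1 ≤ N → (live a I D).card ≤ N →
  (∀ t, ((I t).filter (fun i => a t i ≤ D)).card ≤ L + 1) → Good N L a I D

/-- validity of a strategy in `N` variables, degree `D`, with the set `S` of living groups: in the trace
child a group may be removed from `S` if all its active rows of positive degree have been specialised -/
def Val2 {r : ℕ} : FT r → ℕ → ℕ → Finset (Fin r) → Prop
  | .leaf, N, D, S => 1 ≤ N ∧ (D = 0 ∨ S.card ≤ N)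
  | .node t0 p tr res, N, D, S => 2 ≤ N ∧ 1 ≤ D ∧ p 0 = 1 ∧ (∀ α, 0 ≤ p α ∧ p α ≤ 1) ∧
      (∃ S' : Finset (Fin r), (∀ t ∈ S, t ∉ S' → t = t0 ∧ ∀ α, 1 ≤ α → α ≤ D → p α = 0) ∧
        Val2 tr (N - 1) D S') ∧ Val2 res N (D - 1) S

/-- ROUND2 (hypotheses SpecHOR, SpecBASE2).  As ROUND (copy ROUND.lean).  Leaf: `live a I D ⊆ S`, and
`live a I 0 = ∅`.  Node: the invariant (rows of the groups outside `S` have degree `0` or more than `D`) holds for the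
children: degree `0` rows are never in `T` (`p 0 = 1`); a row of degree `> D` keeps degree `≥ D > D - 1` in the
residual child; if `t0 ∈ S`, `t0 ∉ S'`, all rows of degree `1..D` of the group `t0` are in `T` (the weight of `T` is
positive and `p = 0` there), so they are not in `I t0 \ T`. -/
def SpecROUND2 : Prop := ∀ (r L : ℕ) (τ : FT r) (N D s : ℕ) (a : Fin r → Fin s → ℕ)
  (I : Fin r → Finset (Fin s)) (S : Finset (Fin r)) (lam : ℝ), 1 ≤ lam → Val2 τ N D S →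
  (∀ t, t ∉ S → ∀ i ∈ I t, a t i = 0 ∨ D < a t i) →
  ((lv τ D).map (fun B => ∑ t, (lam ^ (L + 2))⁻¹ *
    ∏ i ∈ I t, (1 + (lam - 1) * B t (a t i)))).sum < 1 → Good N L a I D

/-! ### The game -/

/-- the trace move on the weights -/
noncomputable def trM {r : ℕ} (t0 : Fin r) (p : ℕ → ℝ) (μ : Fin r → ℕ → ℝ) : Fin r → ℕ → ℝ :=
  fun t α => if t = t0 then p α * μ t α else μ t α

/-- the residual move on the weights -/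
noncomputable def resM {r : ℕ} (t0 : Fin r) (p : ℕ → ℝ) (μ : Fin r → ℕ → ℝ) : Fin r → ℕ → ℝ :=
  fun t α => if t = t0 then p α * μ t α + (1 - p (α + 1)) * μ t (α + 1) else μ t α

/-- there is a valid strategy with at most `K` leaves such that at every leaf the expected number of
active rows of the group `t` is at most `μ t 0 + cap` -/
def Win {r : ℕ} (A n D : ℕ) (S : Finset (Fin r)) (μ : Fin r → ℕ → ℝ) (K : ℕ) (cap : ℝ) : Prop :=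
  ∃ τ : FT r, Val2 τ (n + 1) D S ∧ (lv τ D).length ≤ K ∧ ∀ B ∈ lv τ D, ∀ t, (∀ α, 0 ≤ B t α) ∧
    ∑ α ∈ Finset.range (A + 1), μ t α * B t α ≤ μ t 0 + cap

/-- NODE.  One move: the tree is `.node t0 p τ₁ τ₂`.  For a leaf function `B'` of a child and the corresponding `B`,
`∑ μ_t α B t α = ∑ (child μ)_t α B' t α` (see POTI.lean: `res_sum`), and `(resM) t0 0 = μ t0 0 + (1 - p 1) μ t0 1`. -/
def SpecNODE : Prop := ∀ (r A n D : ℕ) (S S' : Finset (Fin r)) (μ : Fin r → ℕ → ℝ) (t0 : Fin r)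
  (p : ℕ → ℝ) (K1 K2 : ℕ) (cap c0 : ℝ), 1 ≤ n → 1 ≤ D → p 0 = 1 → (∀ α, 0 ≤ p α ∧ p α ≤ 1) →
  (∀ t α, 0 ≤ μ t α) → (∀ t α, A < α → μ t α = 0) →
  (∀ t ∈ S, t ∉ S' → t = t0 ∧ ∀ α, 1 ≤ α → α ≤ D → p α = 0) →
  0 ≤ c0 → (1 - p 1) * μ t0 1 ≤ c0 →
  Win A (n - 1) D S' (trM t0 p μ) K1 (cap + c0) → Win A n (D - 1) S (resM t0 p μ) K2 cap →
  Win A n D S μ (K1 + K2) (cap + c0)

/-- LEAF (hypothesis SpecOM).  The leaf: `∑_{α ≤ D} μ_t α ≤ μ_t 0 + load · choose (n+D) n` (see POTI.lean: `leaf_bound`). -/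
def SpecLEAF : Prop := ∀ (r A n D : ℕ) (S : Finset (Fin r)) (μ : Fin r → ℕ → ℝ) (K : ℕ) (cap : ℝ),
  (D = 0 ∨ S.card ≤ n + 1) → 1 ≤ K → (∀ t α, 0 ≤ μ t α) → 
  (∀ t, load n D A (μ t) * ((n + D).choose n : ℝ) ≤ cap) → Win A n D S μ K cap

/-- STEP2 (hypothesis SpecSTEP).  SpecSTEP for the groups in `S` only: apply it with `r := S.card` and
`μ ∘ e`, `e : Fin S.card ≃ S` (`S.card ≤ m` gives `((S.card : ℝ) - 1) (R0^γ - 1) ≤ 1`). -/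
def SpecSTEP2 : Prop := ∀ (r m : ℕ) (S : Finset (Fin r)) (γ R0 : ℝ), S.Nonempty → S.card ≤ m → 0 < γ →
  γ ≤ 1 → 1 ≤ R0 → ((m : ℝ) - 1) * (R0 ^ γ - 1) ≤ 1 → ∀ (A n D : ℕ) (μ : Fin r → ℕ → ℝ), 1 ≤ n → 1 ≤ D →
  ((n + D : ℕ) : ℝ) ≤ R0 * n → (∀ t α, 0 ≤ μ t α) → (∀ t α, A < α → μ t α = 0) →
  ∃ t0 ∈ S, ∃ p : ℕ → ℝ, p 0 = 1 ∧ (∀ α, 0 ≤ p α ∧ p α ≤ 1) ∧
    (∑ t ∈ S, (load (n - 1) D A (trM t0 p μ t)) ^ γ ≤ ∑ t ∈ S, (load n D A (μ t)) ^ γ) ∧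
    (∑ t ∈ S, (load n (D - 1) A (resM t0 p μ t)) ^ γ ≤ ∑ t ∈ S, (load n D A (μ t)) ^ γ) ∧
    (1 - p 1) * μ t0 1 ≤ (∑ t ∈ S, (load n D A (μ t)) ^ γ) ^ (1 / γ)

/-- PC (hypotheses SpecOM, SpecSTEP2, SpecNODE, SpecLEAF).  Phase C: at most `m` living groups.  Induction on
`(n - n1) + D` (as POTI).  Leaf if `n = n1` or `D = 0` or `S = ∅` (LEAF: the load of a group outside `S` is `0`, that of a group
in `S` is `≤ g^{1/γ}`, and `choose (n+D) n ≤ Sm` in the first two cases).  Otherwise STEP2, NODE with `S' = S`,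
`c0 = g^{1/γ}`; number of leaves: Pascal. -/
def SpecPC : Prop := ∀ (r m n1 A : ℕ) (γ R0 Sm g : ℝ), 1 ≤ n1 → m ≤ n1 + 1 → 0 < γ → γ ≤ 1 → 1 ≤ R0 →
  ((m : ℝ) - 1) * (R0 ^ γ - 1) ≤ 1 → 1 ≤ Sm → 0 ≤ g →
  ∀ (n D : ℕ) (S : Finset (Fin r)) (μ : Fin r → ℕ → ℝ), n1 ≤ n → ((n1 + D : ℕ) : ℝ) ≤ R0 * n1 →
    ((n1 + D).choose n1 : ℝ) ≤ Sm → (∀ t α, 0 ≤ μ t α) → (∀ t α, A < α → μ t α = 0) → S.card ≤ m →
    (∀ t, t ∉ S → ∀ α, 1 ≤ α → α ≤ D → μ t α = 0) →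
    ∑ t ∈ S, (load n D A (μ t)) ^ γ ≤ g →
    Win A n D S μ ((n - n1 + D).choose D) (D * g ^ (1 / γ) + g ^ (1 / γ) * Sm)

/-- PBS (hypothesis SpecOM).  The move of phase B: `t0 ∈ S` with the smallest load, `p α = 0` for `1 ≤ α ≤ D`,
`p α = 1` otherwise.  Trace: `load = 0` for `t0`, and `om (n-1) D α = ((n+D)/(n+D-α)) om n D α ≤ RB om n D α`.
Residual: `resM t0 α = μ (α+1)` for `1 ≤ α < D`, `0` for `α = D`; `load n (D-1) (resM t0) = (1 + n/D) ∑_{2 ≤ β ≤ D} μ β om n D β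
≤ (1 + n/D) load`, the loads of the other groups do not increase; `n ≤ X |S|` and
`load t0 ≤ (∑ load)/|S|` give the factor `1 + X/D`.  Arrivals: `μ t0 1 = (1 + n/D) om n D 1 μ t0 1 ≤ (1 + n/D) load t0
≤ (1 + X/D) ∑ load`. -/
def SpecPBS : Prop := ∀ (r A n D X : ℕ) (S : Finset (Fin r)) (RB : ℝ) (μ : Fin r → ℕ → ℝ),
  S.Nonempty → 1 ≤ n → 1 ≤ D → n ≤ X * S.card → ((n + D : ℕ) : ℝ) ≤ RB * n → (∀ t α, 0 ≤ μ t α) →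
  (∀ t α, A < α → μ t α = 0) →
  ∃ t0 ∈ S, ∃ p : ℕ → ℝ, p 0 = 1 ∧ (∀ α, 0 ≤ p α ∧ p α ≤ 1) ∧ (∀ α, 1 ≤ α → α ≤ D → p α = 0) ∧
    (∑ t ∈ S.erase t0, load (n - 1) D A (trM t0 p μ t) ≤ RB * ∑ t ∈ S, load n D A (μ t)) ∧
    (∑ t ∈ S, load n (D - 1) A (resM t0 p μ t) ≤ (1 + (X : ℝ) / D) * ∑ t ∈ S, load n D A (μ t)) ∧
    (1 - p 1) * μ t0 1 ≤ (1 + (X : ℝ) / D) * ∑ t ∈ S, load n D A (μ t)

/-- PB (hypotheses SpecOM, SpecPC, SpecPBS, SpecNODE, SpecLEAF).  Phase B.  Put `c = (m h^γ)^{1/γ}`.  Induction on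
`|S| + D`.  If `|S| ≤ m`: PC with `g = m h^γ` (each load is `≤ h`, since `choose (X+D) D ≥ 1` and `RB ≥ 1`).  If `D = 0`: LEAF
(`load n 0 = 0`).  Otherwise PBS (`n ≤ n3 ≤ X m ≤ X |S|`; `n + D ≤ RB n` as `n ≥ n4`); the potential
`(∑_S load) choose (X+D) D RB^{|S|}` does not increase: trace with `S' = S.erase t0`; residual:
`choose (X+D) D = choose (X+D-1) (D-1) (X+D)/D`.  Arrivals `≤ h ≤ c` (`m ≥ 1`, `γ ≤ 1`).  NODE with `c0 = c`. -/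
def SpecPB : Prop := ∀ (r m n1 n3 n4 X A Dm : ℕ) (γ R0 Sm RB h : ℝ), 1 ≤ m → 1 ≤ n1 → m ≤ n1 + 1 →
  0 < γ → γ ≤ 1 → 1 ≤ R0 → ((m : ℝ) - 1) * (R0 ^ γ - 1) ≤ 1 → 1 ≤ Sm → 1 ≤ RB → 0 ≤ h →
  n1 ≤ n4 → n3 ≤ X * m → ((n4 + Dm : ℕ) : ℝ) ≤ RB * n4 → ((n1 + Dm : ℕ) : ℝ) ≤ R0 * n1 →
  ((n1 + Dm).choose n1 : ℝ) ≤ Sm →
  ∀ (n D : ℕ) (S : Finset (Fin r)) (μ : Fin r → ℕ → ℝ), D ≤ Dm → n ≤ n3 → n4 + S.card ≤ n →
    (∀ t α, 0 ≤ μ t α) → (∀ t α, A < α → μ t α = 0) →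
    (∀ t, t ∉ S → ∀ α, 1 ≤ α → α ≤ D → μ t α = 0) →
    (∑ t ∈ S, load n D A (μ t)) * ((X + D).choose D : ℝ) * RB ^ S.card ≤ h →
    Win A n D S μ ((n - n1 + D).choose D)
      (D * (m * h ^ γ) ^ (1 / γ) + (m * h ^ γ) ^ (1 / γ) * Sm)

/-- PA (hypotheses SpecOM, SpecSTEP2, SpecPB, SpecNODE, SpecLEAF).  Phase A: all groups, `S = univ`, potential
`∑ load^{γA} ≤ gA`, down to `n = n3`, where PB applies (`∑ load ≤ r gA^{1/γA}`).  Induction on `(n - n3) + D`; `D = 0`: LEAF.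
NODE with `c0 = (m h^γ)^{1/γ} ≥ h ≥ gA^{1/γA}` (`r ≥ 1`). -/
def SpecPA : Prop := ∀ (r m n1 n3 n4 X A Dm : ℕ) (γ R0 Sm RB h γA RA gA : ℝ), 1 ≤ r → 1 ≤ m → 1 ≤ n1 →
  m ≤ n1 + 1 → 0 < γ → γ ≤ 1 → 1 ≤ R0 → ((m : ℝ) - 1) * (R0 ^ γ - 1) ≤ 1 → 1 ≤ Sm → 1 ≤ RB → 0 ≤ h →
  n1 ≤ n4 → n3 ≤ X * m → ((n4 + Dm : ℕ) : ℝ) ≤ RB * n4 → ((n1 + Dm : ℕ) : ℝ) ≤ R0 * n1 →
  ((n1 + Dm).choose n1 : ℝ) ≤ Sm → n4 + r ≤ n3 → 0 < γA → γA ≤ 1 → 1 ≤ RA →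
  ((r : ℝ) - 1) * (RA ^ γA - 1) ≤ 1 → ((n3 + Dm : ℕ) : ℝ) ≤ RA * n3 → 0 ≤ gA →
  r * gA ^ (1 / γA) * ((X + Dm).choose Dm : ℝ) * RB ^ r ≤ h →
  ∀ (n D : ℕ) (μ : Fin r → ℕ → ℝ), D ≤ Dm → n3 ≤ n → (∀ t α, 0 ≤ μ t α) → (∀ t α, A < α → μ t α = 0) →
    ∑ t, (load n D A (μ t)) ^ γA ≤ gA →
    Win A n D Finset.univ μ ((n - n1 + D).choose D)
      (D * (m * h ^ γ) ^ (1 / γ) + (m * h ^ γ) ^ (1 / γ) * Sm)

/-- THAG4 (hypotheses SpecROUND2, SpecPA).  `Dm = D`, `A = a`, `μ_t` = `s` at `α = a`, else 0; `W = (L+1) exp(-G)` bounds its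
load; `γA = n3/(2 r D) ≤ 1`, `RA = 1 + D/n3`, `RA^{γA} ≤ exp (1/(2r)) ≤ 1 + 1/r`; `gA = r W^{γA}`,
`gA^{1/γA} = exp (2 r D log r / n3) W`.  `γ = 1/(2 m log R1)`, `R1^γ = exp (1/(2m)) ≤ 1 + 1/m`, `m^{1/γ} = exp (2 m log m log R1)`.
`Sm = choose (n1+D) n1 ≤ exp (n1 (1 + log R1))` (as in THAG).  `RB = 1 + D/n4`, `RB^r ≤ exp (r D/n4) ≤ exp (2 r D/n3)` (`n3 ≤ 2 n4`).
`h = r gA^{1/γA} choose (X+D) D RB^r`, `(m h^γ)^{1/γ} = m^{1/γ} h`.  So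
`s B t a ≤ (D + Sm) m^{1/γ} h ≤ (D+1) Sm m^{1/γ} h ≤ (L+1) exp (-G/2)` by the first log condition.
ROUND2 with `lam = exp (G/2)` (`G ≥ 0` by the first log condition): `∏ (1 + (lam-1) B) ≤ exp (lam s B) ≤ exp (L+1)`, and the sum is at
most `choose (n+D) D · r · exp (-(L+2) G/2) · exp (L+1) < 1`. -/
def SpecTHAG4 : Prop := ∀ (n n1 n3 n4 X D a s r m L : ℕ) (G R1 : ℝ), 1 ≤ r → 1 ≤ m → 1 ≤ n1 → m ≤ n1 + 1 →
  n1 ≤ n4 → n4 + r ≤ n3 → n3 ≤ n → n3 ≤ X * m → n3 ≤ 2 * n4 → n3 ≤ 2 * r * D → 1 ≤ a → a ≤ D →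
  Real.exp 1 ≤ R1 → ((n1 + D : ℕ) : ℝ) ≤ R1 * n1 →
  (s : ℝ) * ((n + D - a).choose n : ℝ) ≤ (L + 1) * Real.exp (-G) * ((n + D).choose n : ℝ) →
  Real.log ((D : ℝ) + 1) + n1 * (1 + Real.log R1) + 2 * m * Real.log m * Real.log R1 +
    (1 + 2 * r * D / n3) * Real.log r + Real.log ((X + D).choose D : ℝ) + 2 * r * D / n3 ≤ G / 2 →
  Real.log ((n + D).choose D : ℝ) + Real.log r + (L + 1) < (L + 2) * (G / 2) →
  Good (n + 1) L (r := r) (s := s) (fun _ _ => a) (fun _ => Finset.univ) D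

/-! ### Numbers -/

/-- CAPC.  `d = e + A`, `L + 1 = n / (d e)` (natural division), `n' = n - e (L+1) ≥ n (1 - 1/d)`, `L + 1 ≥ n / (2 d e)`.
The quotient of the two sides without `exp` is
`2 (n+d)/(d (L+1)) · ∏_{1 ≤ i < A} (e-A+i)/(e+i) · ∏_{1 ≤ i < A} (n+e+i)/(n'+e-A+i)`:
`choose (n+e+A) n / choose (n+e) n = ∏_{1 ≤ i ≤ A} (n+e+i)/(e+i)`, `choose (n'+e-1) n' / choose (n'+e-A) n' = ∏_{1 ≤ i < A} (n'+e-A+i)/(e-A+i)`.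
First factor `≤ 8 e`.  Second: `(1 - A/(e+i)) ≤ 1 - x ≤ exp (-x)`, `x = A/d`, so `≤ exp (-x (A-1)) ≤ exp (1 - x^2 d)`.  Third: every factor is
`≤ (n+d)/n' ≤ (1 + 1/d^2)/(1 - 1/d) ≤ 1 + 3/d ≤ exp (3/d)`, so `≤ exp 3`. -/
def SpecCAPC : Prop := ∀ n A e L n' s : ℕ, 2 ≤ A → A ≤ e → 4 ≤ e + A → (e + A) ^ 3 ≤ n →
  L + 1 = n / ((e + A) * e) → n' + e * (L + 1) = n →
  (s : ℝ) * ((n + e).choose n : ℝ) ≤ 2 * ((n + e + A).choose n : ℝ) →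
  (s : ℝ) * ((n' + (e - 1) - (A - 1)).choose n' : ℝ) ≤
    (L + 1) * (8 * e * Real.exp (4 - (A : ℝ) ^ 2 / ((e : ℝ) + A))) * ((n' + (e - 1)).choose n' : ℝ)

/-- NUMC2.  `x = A/d`, `lam = log d ≥ 30`, `x ≤ 1/2`, `x^6 d ≥ 10^9 lam^4`.
`n3 = ⌈64 d lam/x^2⌉ ≤ 65 d lam/x^2`, `n4 = n3 - e`, `X = ⌊x^2 d/(64 lam)⌋ ≥ x^2 d/(65 lam)`, `m = ⌈n3/X⌉ ≤ 4226 lam^2/x^4`,
`n1 = ⌊x^2 d/(128 lam)⌋`, `R1 = d`.
`m ≤ n1`: `4226 lam^2/x^4 ≤ x^2 d/(129 lam)`.  `e ≤ d ≤ n3/2`.  `n3 ≤ 2 e (e-1)` as `e ≥ d/2`.  `n3 ≤ d^3/2`.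
`n1 (1 + lam) ≤ x^2 d/64`.  `2 m log m lam ≤ 8452 lam^4/x^4 ≤ x^2 d/64` (`m ≤ d`).  `(1 + 2 e D/n3) log e ≤ lam + x^2 d/32`.
`log choose (X+D) D ≤ X log (X+D) ≤ X lam ≤ x^2 d/64` (`X + D ≤ d` as `X ≤ A`).  `2 e D/n3 ≤ x^2 d/(32 lam)`.  `log (D+1) ≤ lam`.
Sum `≤ 2 lam + x^2 d (3/64 + 1/32 + 1/900) ≤ x^2 d/8`. -/
def SpecNUMC2 : Prop := ∀ (d A e : ℕ), 30 ≤ Real.log d → d = e + A → A ≤ e →
  10 ^ 9 * (Real.log d) ^ 4 * (d : ℝ) ^ 5 ≤ (A : ℝ) ^ 6 →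
  ∃ (n1 n3 n4 X m : ℕ) (R1 : ℝ), 1 ≤ m ∧ 1 ≤ n1 ∧ m ≤ n1 + 1 ∧ n1 ≤ n4 ∧ n4 + e ≤ n3 ∧ 2 * n3 ≤ d ^ 3 ∧
    n3 ≤ X * m ∧ n3 ≤ 2 * n4 ∧ n3 ≤ 2 * e * (e - 1) ∧ Real.exp 1 ≤ R1 ∧
    ((n1 + (e - 1) : ℕ) : ℝ) ≤ R1 * n1 ∧
    Real.log (((e - 1 : ℕ) : ℝ) + 1) + n1 * (1 + Real.log R1) + 2 * m * Real.log m * Real.log R1 +
      (1 + 2 * e * (e - 1 : ℕ) / n3) * Real.log e + Real.log ((X + (e - 1)).choose (e - 1) : ℝ) +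
      2 * e * (e - 1 : ℕ) / n3 ≤ ((A : ℝ) ^ 2 / d) / 8

/-- NUMC3.  `lam = log d`, `y = n/d^3 ≥ 1`, `log (2n) = log (2 d^3) + log y ≤ y (4 lam)`; `log choose (n'+D) D ≤ D log (n'+D) ≤ d log (2 n)`;
`L + 1 ≥ n/(2 d^2)`; `(L+1)(x^2 d/8 - 1) ≥ (n/(2 d^2)) (x^2 d/9)`, and `n x^2/(18 d) > 4 n lam/d^2 + lam` since
`x^2 d ≥ 10^9 lam`. -/
def SpecNUMC3 : Prop := ∀ (n n' A e L : ℕ), 30 ≤ Real.log ((e : ℝ) + A) → A ≤ e → (e + A) ^ 3 ≤ n →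
  10 ^ 9 * (Real.log ((e : ℝ) + A)) ^ 4 * ((e : ℝ) + A) ^ 5 ≤ (A : ℝ) ^ 6 →
  L + 1 = n / ((e + A) * e) → n' ≤ n →
  Real.log ((n' + (e - 1)).choose (e - 1) : ℝ) + Real.log e + (L + 1) <
    (L + 2) * (((A : ℝ) ^ 2 / ((e : ℝ) + A)) / 8)

/-- NUMC (hypotheses SpecTHAG4, SpecCAPC, SpecNUMC2, SpecNUMC3).  `q = b = 1`, `a = A - 1`, `D = e - 1`, `r = e`,
`L + 1 = n/(d e)`, `n' = n - e (L+1) ≥ n/2 ≥ n3`, `G = x^2 d/4 = A^2/(4 d)`: `8 e exp (4 - x^2 d) ≤ exp (-x^2 d/4)`, as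
`3 x^2 d/4 ≥ lam + 7`. -/
def SpecNUMC : Prop := ∀ n A e s : ℕ, 30 ≤ Real.log ((e : ℝ) + A) → A ≤ e → (e + A) ^ 3 ≤ n →
  10 ^ 9 * (Real.log ((e : ℝ) + A)) ^ 4 * ((e : ℝ) + A) ^ 5 ≤ (A : ℝ) ^ 6 →
  (s : ℝ) * ((n + e).choose n : ℝ) ≤ 2 * ((n + e + A).choose n : ℝ) →
  ∃ n' L : ℕ, n' + e * (L + 1) = n ∧
    Good (n' + 1) L (r := e) (s := s) (fun _ _ => A - 1) (fun _ => Finset.univ) (e - 1)

/-- LAM4.  `(log d)^2 ≥ 0.48`, so `64 · 10^9 (log d)^4 ≥ 1.4 · 10^10`, `d ≥ 1.4·10^10`, `log d ≥ 1`, then SpecLAM. -/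
def SpecLAM4 : Prop := ∀ d : ℕ, 2 ≤ d → 64 * 10 ^ 9 * (Real.log d) ^ 4 ≤ d → 30 ≤ Real.log d

/-- MAIN4 (hypotheses SpecMAIN3, SpecEX, SpecNUMC, SpecSEMI, SpecNEGC, SpecNEGU, SpecLV, SpecFSR, SpecLAM4), as
MAIN3. -/
def SpecMAIN4 : Prop := ∀ n d m s : ℕ, 2 ≤ n → 1 ≤ m → m ≤ d →
  (10 ^ 9 * (Real.log n) ^ 2 * (d : ℝ) ^ 5 ≤ ((d + 1 - m : ℕ) : ℝ) ^ 5 * (min n d : ℕ) ∨
    (d ^ 3 ≤ n ∧ 10 ^ 9 * (Real.log d) ^ 4 * (d : ℝ) ^ 5 ≤ ((d + 1 - m : ℕ) : ℝ) ^ 6)) →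
  ∀ p : Fin s → Fin (n + 1) → ℂ,
    ldim n d s (fun _ => m) ≤ (Module.finrank ℂ (linSys n d s (fun _ => m) p) : ℤ)

end FrI
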