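import Pool.Agent.Lib.MP_921642_ag.FI.Spec3

/-! # Module CAPB: the product inequality, explicit form -/

set_option autoImplicit false

namespace FrI

namespace CAPBM

open Finset

/-- `X n m = (m+1)(m+2)...(m+n)`. -/
noncomputable def X (n m : ℕ) : ℝ := ∏ i ∈ range n, ((m : ℝ) + 1 + i)

lemma X_pos (n m : ℕ) : 0 < X n m := Finset.prod_pos (fun i _ => by positivity)

lemma X_choose (n m : ℕ) : X n m = (n.factorial : ℝ) * ((n + m).choose n : ℝ) := by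
  have h := Nat.ascFactorial_eq_factorial_mul_choose m n
  rw [Nat.ascFactorial_eq_prod_range] at h
  have h2 : (((∏ i ∈ range n, (m + 1 + i) : ℕ)) : ℝ) = ((n.factorial * (m + n).choose n : ℕ) : ℝ) := by
    rw [h]
  push_cast at h2
  rw [X, h2, add_comm n m]

/-- first product -/
lemma I1 (n A e : ℕ) (hA : 1 ≤ A) (hAe : A ≤ e) (h : e + A ≤ n) :
    X n (e + A) * X n (e - A) ≤ Real.exp (-((A : ℝ) ^ 2 / (4 * ((e : ℝ) + A)))) * (X n e) ^ 2 := by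
  have hsplit : n = (e + A) + (n - (e + A)) := by omega
  have hcast : ((e - A : ℕ) : ℝ) = (e : ℝ) - A := by push_cast [hAe]; ring
  have hA0 : (0 : ℝ) < A := by exact_mod_cast hA
  have he0 : (A : ℝ) ≤ e := by exact_mod_cast hAe
  have key : ∀ i : ℕ, (((e + A : ℕ) : ℝ) + 1 + i) * (((e - A : ℕ) : ℝ) + 1 + i) ≤
      ((e : ℝ) + 1 + i) ^ 2 := by
    intro i
    rw [hcast]
    push_cast
    nlinarith
  have key2 : ∀ i : ℕ, i < e + A → (((e + A : ℕ) : ℝ) + 1 + i) * (((e - A : ℕ) : ℝ) + 1 + i) ≤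
      Real.exp (-((A : ℝ) ^ 2 / (4 * ((e : ℝ) + A) ^ 2))) * ((e : ℝ) + 1 + i) ^ 2 := by
    intro i hi
    have hi' : (i : ℝ) + 1 ≤ e + A := by exact_mod_cast hi
    have h0 : (0 : ℝ) ≤ i := Nat.cast_nonneg i
    have hX : (0 : ℝ) < (e : ℝ) + 1 + i := by linarith
    have hle : (e : ℝ) + 1 + i ≤ 2 * (e + A) := by linarith
    have hexp : 1 - (A : ℝ) ^ 2 / (4 * ((e : ℝ) + A) ^ 2) ≤
        Real.exp (-((A : ℝ) ^ 2 / (4 * ((e : ℝ) + A) ^ 2))) := by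
      have := Real.add_one_le_exp (-((A : ℝ) ^ 2 / (4 * ((e : ℝ) + A) ^ 2)))
      linarith
    have hsq : ((e : ℝ) + 1 + i) ^ 2 ≤ 4 * ((e : ℝ) + A) ^ 2 := by nlinarith
    have hpos : (0 : ℝ) < 4 * ((e : ℝ) + A) ^ 2 := by positivity
    have hq : (A : ℝ) ^ 2 / (4 * ((e : ℝ) + A) ^ 2) * ((e : ℝ) + 1 + i) ^ 2 ≤ (A : ℝ) ^ 2 := by
      rw [div_mul_eq_mul_div, div_le_iff₀ hpos]
      exact mul_le_mul_of_nonneg_left hsq (by positivity)
    calc (((e + A : ℕ) : ℝ) + 1 + i) * (((e - A : ℕ) : ℝ) + 1 + i)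
        = ((e : ℝ) + 1 + i) ^ 2 - (A : ℝ) ^ 2 := by rw [hcast]; push_cast; ring
      _ ≤ ((e : ℝ) + 1 + i) ^ 2 - (A : ℝ) ^ 2 / (4 * ((e : ℝ) + A) ^ 2) * ((e : ℝ) + 1 + i) ^ 2 := by
          linarith
      _ = (1 - (A : ℝ) ^ 2 / (4 * ((e : ℝ) + A) ^ 2)) * ((e : ℝ) + 1 + i) ^ 2 := by ring
      _ ≤ _ := mul_le_mul_of_nonneg_right hexp (by positivity)
  have hnn : ∀ i : ℕ, (0 : ℝ) ≤ (((e + A : ℕ) : ℝ) + 1 + i) * (((e - A : ℕ) : ℝ) + 1 + i) := by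
    intro i; positivity
  unfold X
  rw [← Finset.prod_mul_distrib, ← Finset.prod_pow, hsplit, Finset.prod_range_add,
    Finset.prod_range_add (fun i : ℕ => ((e : ℝ) + 1 + (i : ℝ)) ^ 2), ← mul_assoc]
  have e1 : ∏ i ∈ range (e + A), (((e + A : ℕ) : ℝ) + 1 + i) * (((e - A : ℕ) : ℝ) + 1 + i) ≤
      ∏ i ∈ range (e + A), (Real.exp (-((A : ℝ) ^ 2 / (4 * ((e : ℝ) + A) ^ 2))) *
        ((e : ℝ) + 1 + i) ^ 2) :=
    Finset.prod_le_prod (fun i _ => hnn i) (fun i hi => key2 i (Finset.mem_range.mp hi))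
  have e0 : ∏ i ∈ range (e + A), (Real.exp (-((A : ℝ) ^ 2 / (4 * ((e : ℝ) + A) ^ 2))) *
        ((e : ℝ) + 1 + i) ^ 2) = Real.exp (((e + A : ℕ) : ℝ) * (-((A : ℝ) ^ 2 / (4 * ((e : ℝ) + A) ^ 2)))) *
        ∏ i ∈ range (e + A), ((e : ℝ) + 1 + i) ^ 2 := by
    rw [Finset.prod_mul_distrib, Finset.prod_const, Finset.card_range, ← Real.exp_nat_mul]
  rw [e0] at e1
  have harg : ((e + A : ℕ) : ℝ) * (-((A : ℝ) ^ 2 / (4 * ((e : ℝ) + A) ^ 2))) =
      -((A : ℝ) ^ 2 / (4 * ((e : ℝ) + A))) := by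
    have : (e : ℝ) + A ≠ 0 := by positivity
    push_cast
    field_simp
  rw [harg] at e1
  exact mul_le_mul e1 (Finset.prod_le_prod (fun i _ => hnn _) (fun i _ => key _))
    (Finset.prod_nonneg (fun i _ => hnn _)) (by positivity)

/-- second product -/
lemma I2 (n n' e b : ℕ) (hn : 3 ≤ n) (hn' : n' ≤ n) (hb : 2 * b ≤ e) :
    X n' e ≤ Real.exp (4 * b * Real.log n) * X n' (e - b) := by
  have hbe : b ≤ e := by omega
  have hcast : ((e - b : ℕ) : ℝ) = (e : ℝ) - b := by push_cast [hbe]; ring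
  have hb' : 2 * (b : ℝ) ≤ e := by exact_mod_cast hb
  have hb0 : (0 : ℝ) ≤ b := Nat.cast_nonneg b
  have key : ∀ i : ℕ, (e : ℝ) + 1 + i ≤
      Real.exp (2 * b * ((i : ℝ) + 1)⁻¹) * (((e - b : ℕ) : ℝ) + 1 + i) := by
    intro i
    have hi0 : (0 : ℝ) ≤ i := Nat.cast_nonneg i
    have hp : (0 : ℝ) < (i : ℝ) + 1 := by positivity
    have hexp := Real.add_one_le_exp (2 * (b : ℝ) * ((i : ℝ) + 1)⁻¹)
    have hinv : ((i : ℝ) + 1)⁻¹ * ((i : ℝ) + 1) = 1 := inv_mul_cancel₀ hp.ne'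
    have hge : ((i : ℝ) + 1) ≤ 2 * (((e - b : ℕ) : ℝ) + 1 + i) := by rw [hcast]; linarith
    have hY : (0 : ℝ) ≤ ((e - b : ℕ) : ℝ) + 1 + i := by positivity
    have hinv0 : (0 : ℝ) ≤ ((i : ℝ) + 1)⁻¹ := by positivity
    have h1 : (b : ℝ) ≤ 2 * b * ((i : ℝ) + 1)⁻¹ * (((e - b : ℕ) : ℝ) + 1 + i) := by
      have := mul_le_mul_of_nonneg_left hge (mul_nonneg hb0 hinv0)
      nlinarith
    calc (e : ℝ) + 1 + i = b + (((e - b : ℕ) : ℝ) + 1 + i) := by rw [hcast]; ring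
      _ ≤ 2 * b * ((i : ℝ) + 1)⁻¹ * (((e - b : ℕ) : ℝ) + 1 + i) + (((e - b : ℕ) : ℝ) + 1 + i) := by
          linarith
      _ = (2 * b * ((i : ℝ) + 1)⁻¹ + 1) * (((e - b : ℕ) : ℝ) + 1 + i) := by ring
      _ ≤ _ := mul_le_mul_of_nonneg_right hexp hY
  have h1 : X n' e ≤ ∏ i ∈ range n', (Real.exp (2 * b * ((i : ℝ) + 1)⁻¹) *
      (((e - b : ℕ) : ℝ) + 1 + i)) :=
    Finset.prod_le_prod (fun i _ => by positivity) (fun i _ => key i)
  rw [Finset.prod_mul_distrib, ← Real.exp_sum] at h1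
  refine h1.trans (mul_le_mul_of_nonneg_right (Real.exp_le_exp.mpr ?_) (X_pos _ _).le)
  rw [← Finset.mul_sum]
  have h2 : ∑ i ∈ range n', ((i : ℝ) + 1)⁻¹ ≤ ∑ i ∈ range n, ((i : ℝ) + 1)⁻¹ :=
    Finset.sum_le_sum_of_subset_of_nonneg (Finset.range_mono hn') (fun i _ _ => by positivity)
  have h3 : ∑ i ∈ range n, ((i : ℝ) + 1)⁻¹ ≤ 1 + Real.log n := by
    have := harmonic_le_one_add_log n
    simpa [harmonic] using this
  have h4 : 1 ≤ Real.log n := by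
    rw [Real.le_log_iff_exp_le (by positivity)]
    have : Real.exp 1 < 2.7182818286 := Real.exp_one_lt_d9
    have h5 : (3 : ℝ) ≤ n := by exact_mod_cast hn
    linarith
  have h5 : ∑ i ∈ range n', ((i : ℝ) + 1)⁻¹ ≤ 2 * Real.log n := by linarith
  calc 2 * (b : ℝ) * ∑ i ∈ range n', ((i : ℝ) + 1)⁻¹ ≤ 2 * b * (2 * Real.log n) :=
        mul_le_mul_of_nonneg_left h5 (by positivity)
    _ = 4 * b * Real.log n := by ring

/-- third product -/
lemma I3 (n n' A e : ℕ) (hn : 3 ≤ n) (hn' : n' ≤ n) (h2 : n ≤ 2 * n') (hAe : A ≤ e) :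
    ∏ i ∈ range (n - n'), ((e : ℝ) + 1 + ((n' + i : ℕ) : ℝ)) ≤
      Real.exp (2 * A * ((n : ℝ) - n') / n) *
        ∏ i ∈ range (n - n'), (((e - A : ℕ) : ℝ) + 1 + ((n' + i : ℕ) : ℝ)) := by
  have hcast : ((e - A : ℕ) : ℝ) = (e : ℝ) - A := by push_cast [hAe]; ring
  have hAe' : (A : ℝ) ≤ e := by exact_mod_cast hAe
  have hn0 : (0 : ℝ) < n := by exact_mod_cast (by omega : 0 < n)
  have h2' : (n : ℝ) ≤ 2 * n' := by exact_mod_cast h2
  have key : ∀ i : ℕ, (e : ℝ) + 1 + ((n' + i : ℕ) : ℝ) ≤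
      Real.exp (2 * A / n) * (((e - A : ℕ) : ℝ) + 1 + ((n' + i : ℕ) : ℝ)) := by
    intro i
    have hexp := Real.add_one_le_exp (2 * (A : ℝ) / n)
    have hi0 : (0 : ℝ) ≤ i := Nat.cast_nonneg i
    have hY : (n : ℝ) ≤ 2 * (((e - A : ℕ) : ℝ) + 1 + ((n' + i : ℕ) : ℝ)) := by
      rw [hcast]; push_cast; linarith
    have hY0 : (0 : ℝ) ≤ ((e - A : ℕ) : ℝ) + 1 + ((n' + i : ℕ) : ℝ) := by positivity
    have h1 : (A : ℝ) ≤ 2 * A / n * (((e - A : ℕ) : ℝ) + 1 + ((n' + i : ℕ) : ℝ)) := by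
      rw [div_mul_eq_mul_div, le_div_iff₀ hn0]
      have := mul_le_mul_of_nonneg_left hY (Nat.cast_nonneg (α := ℝ) A)
      linarith
    calc (e : ℝ) + 1 + ((n' + i : ℕ) : ℝ) = A + (((e - A : ℕ) : ℝ) + 1 + ((n' + i : ℕ) : ℝ)) := by
          rw [hcast]; ring
      _ ≤ (2 * A / n + 1) * (((e - A : ℕ) : ℝ) + 1 + ((n' + i : ℕ) : ℝ)) := by linarith
      _ ≤ _ := mul_le_mul_of_nonneg_right hexp hY0
  have h1 := Finset.prod_le_prod (s := range (n - n')) (fun i _ => (by positivity :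
    (0 : ℝ) ≤ (e : ℝ) + 1 + ((n' + i : ℕ) : ℝ))) (fun i _ => key i)
  rw [Finset.prod_mul_distrib, Finset.prod_const, Finset.card_range, ← Real.exp_nat_mul] at h1
  have harg : ((n - n' : ℕ) : ℝ) * (2 * A / n) = 2 * A * ((n : ℝ) - n') / n := by
    push_cast [hn']; ring
  rwa [harg] at h1

lemma X_split (n n' m : ℕ) (hn' : n' ≤ n) :
    X n m = X n' m * ∏ i ∈ range (n - n'), ((m : ℝ) + 1 + ((n' + i : ℕ) : ℝ)) := by
  have : n = n' + (n - n') := by omega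
  unfold X
  conv_lhs => rw [this]
  rw [Finset.prod_range_add]

theorem specCAPB : SpecCAPB := by
  intro n n' A e b hn hn' h2n hA hAe hbA hbe heA
  have hidx : n' + (e - b) - (A - b) = n' + (e - A) := by omega
  rw [hidx]
  obtain ⟨Y, hY⟩ : ∃ Y, Y = ∏ i ∈ range (n - n'), ((e : ℝ) + 1 + ((n' + i : ℕ) : ℝ)) := ⟨_, rfl⟩
  obtain ⟨Z, hZ⟩ : ∃ Z, Z = ∏ i ∈ range (n - n'), (((e - A : ℕ) : ℝ) + 1 + ((n' + i : ℕ) : ℝ)) :=
    ⟨_, rfl⟩
  have hZ0 : 0 < Z := by rw [hZ]; exact Finset.prod_pos (fun i _ => by positivity)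
  have hY0 : 0 < Y := by rw [hY]; exact Finset.prod_pos (fun i _ => by positivity)
  have i1 := I1 n A e hA hAe heA
  have i2 := I2 n n' e b hn hn' hbe
  have i3 := I3 n n' A e hn hn' h2n hAe
  rw [← hY, ← hZ] at i3
  have s1 := X_split n n' (e - A) hn'
  have s2 := X_split n n' e hn'
  rw [← hZ] at s1
  rw [← hY] at s2
  obtain ⟨E1, hE1⟩ : ∃ E1, E1 = Real.exp (-((A : ℝ) ^ 2 / (4 * ((e : ℝ) + A)))) := ⟨_, rfl⟩
  obtain ⟨E2, hE2⟩ : ∃ E2, E2 = Real.exp (4 * b * Real.log n) := ⟨_, rfl⟩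
  obtain ⟨E3, hE3⟩ : ∃ E3, E3 = Real.exp (2 * A * ((n : ℝ) - n') / n) := ⟨_, rfl⟩
  rw [← hE1] at i1
  rw [← hE2] at i2
  rw [← hE3] at i3
  have hE10 : 0 < E1 := by rw [hE1]; exact Real.exp_pos _
  have hE20 : 0 < E2 := by rw [hE2]; exact Real.exp_pos _
  have hE30 : 0 < E3 := by rw [hE3]; exact Real.exp_pos _
  have hE : Real.exp (-((A : ℝ) ^ 2 / (4 * ((e : ℝ) + A))) + 4 * b * Real.log n +
      2 * A * ((n : ℝ) - n') / n) = E1 * E2 * E3 := by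
    rw [hE1, hE2, hE3, ← Real.exp_add, ← Real.exp_add]
  rw [hE]
  -- the inequality for `X`
  have main : X n (e + A) * X n' (e - A) ≤ E1 * E2 * E3 * X n e * X n' (e - b) := by
    have p1 := X_pos n (e + A)
    have p2 := X_pos n' (e - A)
    have p3 := X_pos n e
    have p4 := X_pos n' e
    have p5 := X_pos n' (e - b)
    have t1 : X n (e + A) * X n' (e - A) * Z ≤ E1 * X n e * X n' e * Y := by
      calc X n (e + A) * X n' (e - A) * Z = X n (e + A) * X n (e - A) := by rw [s1]; ring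
        _ ≤ E1 * X n e ^ 2 := i1
        _ = E1 * X n e * X n' e * Y := by
            have : X n e ^ 2 = X n e * (X n' e * Y) := by rw [← s2]; ring
            rw [this]; ring
    have t2 : E1 * X n e * X n' e * Y ≤ E1 * X n e * (E2 * X n' (e - b)) * (E3 * Z) :=
      mul_le_mul (mul_le_mul_of_nonneg_left i2 (by positivity)) i3 hY0.le (by positivity)
    have t3 : X n (e + A) * X n' (e - A) * Z ≤ (E1 * E2 * E3 * X n e * X n' (e - b)) * Z := by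
      calc _ ≤ _ := t1.trans t2
        _ = _ := by ring
    exact le_of_mul_le_mul_right t3 hZ0
  rw [X_choose, X_choose, X_choose, X_choose] at main
  have f1 : (0 : ℝ) < n.factorial := by exact_mod_cast Nat.factorial_pos n
  have f2 : (0 : ℝ) < n'.factorial := by exact_mod_cast Nat.factorial_pos n'
  have hf : (0 : ℝ) < (n.factorial : ℝ) * n'.factorial := by positivity
  refine le_of_mul_le_mul_left ?_ hf
  have e1 : n + (e + A) = n + e + A := by omega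
  rw [e1] at main
  calc _ = (n.factorial : ℝ) * ((n + e + A).choose n : ℝ) * ((n'.factorial : ℝ) * ((n' + (e - A)).choose n' : ℝ)) := by
        ring
    _ ≤ _ := main
    _ = _ := by ring

end CAPBM

end FrI
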