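import Pool.Agent.Lib.MP_921642_ag.FI.Spec2

/-!
# Module HORW (MP_921642_ag, hive FI)

Algebra of the Horace step: the hyperplane section of the spaces of relations.
-/

set_option autoImplicit false

namespace FrI.HORWM

open MvPolynomial Pool.Agent.Lib.MP_921642_ag FrI

/-! ### Finite dimension -/

instance HS_fd (N : ℕ) (j : ℤ) : FiniteDimensional ℂ (HS N j) := by
  by_cases h : 0 ≤ j
  · have h1 : HS N j = V (Fin N) j.toNat := if_pos h
    rw [h1]
    infer_instance
  · have h1 : HS N j = ⊥ := if_neg h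
    rw [h1]
    infer_instance

lemma fd_pi {ι : Type} [Fintype ι] {E : ι → Type} [∀ i, AddCommGroup (E i)]
    [∀ i, Module ℂ (E i)] (p : ∀ i, Submodule ℂ (E i)) (h : ∀ i, FiniteDimensional ℂ (p i)) :
    FiniteDimensional ℂ (Submodule.pi Set.univ p) := by
  let f : Submodule.pi Set.univ p →ₗ[ℂ] (∀ i, p i) :=
    LinearMap.pi fun i => LinearMap.codRestrict (p i)
      ((LinearMap.proj i : (∀ i, E i) →ₗ[ℂ] E i) ∘ₗ (Submodule.pi Set.univ p).subtype)
      (fun x => x.2 i (Set.mem_univ i))
  have hf : Function.Injective f := by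
    intro x y hxy
    apply Subtype.ext
    funext i
    have := congrFun hxy i
    exact congrArg Subtype.val this
  exact FiniteDimensional.of_injective f hf

instance FH_fd (N L q : ℕ) (j : ℤ) : FiniteDimensional ℂ (FH N L q j) := by
  unfold FH
  exact fd_pi _ fun _ => inferInstance

instance Dom_fd (N L : ℕ) {r s q : ℕ} (a : Fin r → Fin s → ℕ) (u : Fin q → Fin r) (D : ℤ) :
    FiniteDimensional ℂ (Dom N L a u D) := by
  unfold Dom
  exact fd_pi _ fun _ => fd_pi _ fun _ => inferInstance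

instance WD_fd {N r s L q : ℕ} (X : Mat N r s L) (a : Fin r → Fin s → ℕ) (u : Fin q → Fin r)
    (I : Fin r → Finset (Fin s)) (D : ℤ) : FiniteDimensional ℂ (WD X a u I D) := by
  unfold WD
  infer_instance

/-! ### The maps -/

/-- multiplication by `x_0` -/
noncomputable def mulw (N L q : ℕ) : Fn (N + 1) L q →ₗ[ℂ] Fn (N + 1) L q where
  toFun G := fun ν => (X 0 : Po (N + 1)) * G ν
  map_add' G H := by funext ν; simp [mul_add]
  map_smul' c G := by funext ν; simp

/-- restriction to `x_0 = 0` -/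
noncomputable def rsF (N L q : ℕ) : Fn (N + 1) L q →ₗ[ℂ] Fn N L q where
  toFun G := fun ν => rs N (G ν)
  map_add' G H := by funext ν; simp
  map_smul' c G := by funext ν; simp

lemma mulw_injective (N L q : ℕ) : Function.Injective (mulw N L q) := by
  intro G H h
  funext ν
  have := congrFun h ν
  exact mul_left_cancel₀ (X_ne_zero 0) this

lemma rs_X0 (N : ℕ) : rs N (X 0) = 0 := by
  rw [rs, aeval_X, Fin.cons_zero]

lemma rsF_mulw (N L q : ℕ) (G : Fn (N + 1) L q) : rsF N L q (mulw N L q G) = 0 := by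
  funext ν
  show rs N ((X 0 : Po (N + 1)) * G ν) = 0
  rw [map_mul, rs_X0, zero_mul]

lemma rs_rename (N : ℕ) (f : Po N) : rs N (rename Fin.succ f) = f := by
  rw [rs, aeval_rename]
  have : (Fin.cons 0 X : Fin (N + 1) → Po N) ∘ Fin.succ = X := by
    funext i
    simp
  rw [this, aeval_X_left_apply]

lemma mem_HS {N : ℕ} {j : ℤ} {f : Po N} :
    f ∈ HS N j ↔ (0 ≤ j ∧ f ∈ V (Fin N) j.toNat) ∨ f = 0 := by
  unfold HS
  split_ifs with h
  · constructor
    · intro hf; exact Or.inl ⟨h, hf⟩
    · rintro (⟨_, hf⟩ | rfl)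
      · exact hf
      · exact Submodule.zero_mem _
  · constructor
    · intro hf; exact Or.inr ((Submodule.mem_bot ℂ).1 hf)
    · rintro (⟨h', _⟩ | rfl)
      · exact absurd h' h
      · exact Submodule.zero_mem _

lemma rename_mem_HS {N : ℕ} {j : ℤ} {f : Po N} (hf : f ∈ HS N j) :
    rename Fin.succ f ∈ HS (N + 1) j := by
  rcases mem_HS.1 hf with ⟨h, hf⟩ | rfl
  · exact mem_HS.2 (Or.inl ⟨h, (mem_homogeneousSubmodule _ _).2
      (((mem_homogeneousSubmodule _ _).1 hf).rename_isHomogeneous)⟩)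
  · rw [map_zero]; exact Submodule.zero_mem _

lemma X0_mul_mem_HS {N : ℕ} {j : ℤ} {f : Po (N + 1)} (hf : f ∈ HS (N + 1) j) :
    (X 0 : Po (N + 1)) * f ∈ HS (N + 1) (j + 1) := by
  rcases mem_HS.1 hf with ⟨h, hf⟩ | rfl
  · refine mem_HS.2 (Or.inl ⟨by omega, (mem_homogeneousSubmodule _ _).2 ?_⟩)
    have h1 := (isHomogeneous_X ℂ (0 : Fin (N + 1))).mul ((mem_homogeneousSubmodule _ _).1 hf)
    have h2 : 1 + j.toNat = (j + 1).toNat := by omega
    rwa [h2] at h1
  · rw [mul_zero]; exact Submodule.zero_mem _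

lemma mem_FH {N L q : ℕ} {j : ℤ} {G : Fn N L q} : G ∈ FH N L q j ↔ ∀ ν, G ν ∈ HS N j := by
  rw [FH, Submodule.mem_pi]
  exact ⟨fun h ν => h ν (Set.mem_univ ν), fun h ν _ => h ν⟩

lemma mem_Dom {N L r s q : ℕ} {a : Fin r → Fin s → ℕ} {u : Fin q → Fin r} {D : ℤ}
    {g : Fin q → Fin s → Fn N L q} :
    g ∈ Dom N L a u D ↔ ∀ p i, g p i ∈ FH N L q (D - a (u p) i) := by
  rw [Dom, Submodule.mem_pi]
  constructor
  · intro h p i
    exact (Submodule.mem_pi.1 (h p (Set.mem_univ p))) i (Set.mem_univ i)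
  · intro h p _
    exact Submodule.mem_pi.2 fun i _ => h p i

lemma Psi_apply {N r s L q : ℕ} (X : Mat N r s L) (u : Fin q → Fin r)
    (I : Fin r → Finset (Fin s)) (g : Fin q → Fin s → Fn N L q) (ν : Fin q → Fin (L + 1)) :
    Psi X u I g ν = ∑ p, ∑ i ∈ I (u p), X (u p) i (ν p) * g p i (Function.update ν p 0) := rfl

/-! ### The two inclusions -/

variable {N L r s q : ℕ}

/-- `x_0 W' ⊆ W` -/
lemma incl1 (a : Fin r → Fin s → ℕ) (u : Fin q → Fin r)
    (I : Fin r → Finset (Fin s)) (t0 : Fin r) (T : Finset (Fin s)) (M : Mat (N + 1) r s L)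
    (ha : ∀ i ∈ T, 1 ≤ a t0 i) (D : ℤ) :
    (WD M (resd a t0 T) u I D).map (mulw N L q) ≤ WD (wX M t0 T) a u I (D + 1) := by
  rintro _ ⟨G, ⟨g', hg', rfl⟩, rfl⟩
  refine ⟨fun p i => if u p = t0 ∧ i ∈ T then g' p i else mulw N L q (g' p i), ?_, ?_⟩
  · refine mem_Dom.2 fun p i => ?_
    have h1 := mem_Dom.1 hg' p i
    by_cases h : u p = t0 ∧ i ∈ T
    · rw [if_pos h]
      have h2 : (D : ℤ) - (resd a t0 T (u p) i : ℕ) = D + 1 - (a (u p) i : ℕ) := by
        have h3 := ha i h.2
        rw [resd, if_pos h, h.1]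
        push_cast [Nat.cast_sub h3]
        ring
      rw [h2] at h1
      exact h1
    · rw [if_neg h]
      refine mem_FH.2 fun ν => ?_
      have h3 := mem_FH.1 h1 ν
      have h4 : (D : ℤ) - (resd a t0 T (u p) i : ℕ) + 1 = D + 1 - (a (u p) i : ℕ) := by
        rw [resd, if_neg h]
        ring
      rw [← h4]
      exact X0_mul_mem_HS h3
  · funext ν
    rw [Psi_apply]
    show _ = (X 0 : Po (N + 1)) * Psi M u I g' ν
    rw [Psi_apply, Finset.mul_sum]
    apply Finset.sum_congr rfl
    intro p _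
    rw [Finset.mul_sum]
    apply Finset.sum_congr rfl
    intro i _
    by_cases h : u p = t0 ∧ i ∈ T
    · rw [if_pos h, wX, if_pos h, mul_assoc]
    · rw [if_neg h, wX, if_neg h]
      show M (u p) i (ν p) * ((X 0 : Po (N + 1)) * g' p i (Function.update ν p 0)) = _
      ring

/-- the restriction is onto -/
lemma incl2 (a : Fin r → Fin s → ℕ) (u : Fin q → Fin r)
    (I : Fin r → Finset (Fin s)) (t0 : Fin r) (T : Finset (Fin s)) (M : Mat (N + 1) r s L)
    (D : ℤ) :
    WD (barX M) a u (Function.update I t0 (I t0 \ T)) D ≤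
      (WD (wX M t0 T) a u I D).map (rsF N L q) := by
  rintro _ ⟨g, hg, rfl⟩
  refine ⟨_, ⟨fun p i => if u p = t0 ∧ i ∈ T then 0 else
    fun ν => rename Fin.succ (g p i ν), ?_, rfl⟩, ?_⟩
  · refine mem_Dom.2 fun p i => ?_
    have h1 := mem_Dom.1 hg p i
    by_cases h : u p = t0 ∧ i ∈ T
    · rw [if_pos h]
      exact Submodule.zero_mem _
    · rw [if_neg h]
      exact mem_FH.2 fun ν => rename_mem_HS (mem_FH.1 h1 ν)
  · funext ν
    show rs N (Psi (wX M t0 T) u I _ ν) = _
    rw [Psi_apply, Psi_apply, map_sum]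
    apply Finset.sum_congr rfl
    intro p _
    rw [map_sum]
    by_cases hp : u p = t0
    · rw [hp, Function.update_self, Finset.sdiff_eq_filter, Finset.sum_filter]
      apply Finset.sum_congr rfl
      intro i _
      by_cases hi : i ∈ T
      · rw [if_pos ⟨rfl, hi⟩, if_neg (fun h => h hi)]
        show rs N (_ * (0 : Po (N + 1))) = 0
        rw [mul_zero, map_zero]
      · rw [if_neg (fun h => hi h.2), if_pos hi, wX, if_neg (fun h => hi h.2), map_mul]
        show rs N (M t0 i (ν p)) * rs N (rename Fin.succ (g p i (Function.update ν p 0))) = _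
        rw [rs_rename]
        rfl
    · rw [Function.update_of_ne hp]
      apply Finset.sum_congr rfl
      intro i _
      rw [if_neg (fun h => hp h.1), wX, if_neg (fun h => hp h.1), map_mul]
      show rs N (M (u p) i (ν p)) * rs N (rename Fin.succ (g p i (Function.update ν p 0))) = _
      rw [rs_rename]
      rfl

theorem specHORW : SpecHORW := by
  intro N L r s q a u I t0 T M ha
  constructor
  · calc Module.finrank ℂ (WD (barX M) a u (Function.update I t0 (I t0 \ T)) 0)
        ≤ Module.finrank ℂ ((WD (wX M t0 T) a u I 0).map (rsF N L q)) :=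
          Submodule.finrank_mono (incl2 a u I t0 T M 0)
      _ ≤ Module.finrank ℂ (WD (wX M t0 T) a u I 0) := Submodule.finrank_map_le _ _
  · intro D
    set W := WD (wX M t0 T) a u I ((D + 1 : ℕ) : ℤ) with hW
    have h1 : (WD M (resd a t0 T) u I D).map (mulw N L q) ≤ W := by
      have := incl1 a u I t0 T M ha (D : ℤ)
      rw [hW]
      push_cast
      exact this
    have h2 : Module.finrank ℂ (WD (barX M) a u (Function.update I t0 (I t0 \ T)) (D + 1 : ℕ)) ≤
        Module.finrank ℂ (LinearMap.range ((rsF N L q).domRestrict W)) := by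
      rw [LinearMap.range_domRestrict]
      exact Submodule.finrank_mono (incl2 a u I t0 T M _)
    have h3 : Module.finrank ℂ (WD M (resd a t0 T) u I D) ≤
        Module.finrank ℂ (LinearMap.ker ((rsF N L q).domRestrict W)) := by
      let f : WD M (resd a t0 T) u I D →ₗ[ℂ] LinearMap.ker ((rsF N L q).domRestrict W) :=
        LinearMap.codRestrict _ (LinearMap.codRestrict W
          ((mulw N L q) ∘ₗ (WD M (resd a t0 T) u I D).subtype)
          (fun x => h1 ⟨x.1, x.2, rfl⟩)) (fun x => by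
            rw [LinearMap.mem_ker]
            exact rsF_mulw N L q x.1)
      apply LinearMap.finrank_le_finrank_of_injective (f := f)
      intro x y hxy
      apply Subtype.ext
      apply mulw_injective N L q
      exact congrArg (fun z => (z.1.1 : Fn (N + 1) L q)) hxy
    have h4 := LinearMap.finrank_range_add_finrank_ker ((rsF N L q).domRestrict W)
    omega

end FrI.HORWM
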