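import Pool.Agent.Lib.MP_921642_ag.FI.Spec2

/-!
# MP_921642_ag, FI3: the uniform and explicit theorem

THEOREM FI3.  Let `n ≥ 2`, `1 ≤ m ≤ d`, `A = d + 1 - m`.  If
`10^9 (log n)^2 d^5 ≤ A^5 min (n, d)`, then `dim L_{n,d}(m^s) ≥ ldim` for every number `s` of points.
(So for each `ρ < 1` all `m ≤ ρ d`, `n ≥ n₀(ρ)`, `d ≥ C(ρ) (log n)^2`, and even
`m ≤ d (1 - C ((log n)^2 / n)^{1/5})` for `n ≤ d`.)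

Notation in the docstrings: `d = e + A`, `x = A / d ≤ 1/2`, `lam = log n ≥ 30`.
Facts used everywhere: `log y ≤ √y` (`y > 0`), so `log (1/x) ≤ x^{-1/2}`; `x log (1/x) ≤ 1/2`;
`choose N k ≤ (exp 1 · N / k)^k` and `choose N k ≤ N^k`.
-/

set_option autoImplicit false

namespace FrI

open MvPolynomial Pool.Agent.Lib.MP_921642_ag

/-- POT2 (hypotheses SpecOM, SpecSTEP).  As SpecPOT; number of leaves at most `choose (n - n1 + D) D`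
(Pascal: `N(n, D) = N(n-1, D) + N(n, D-1)`). -/
def SpecPOT2 : Prop := ∀ (r n1 : ℕ) (γ R0 Sm : ℝ), 1 ≤ r → 1 ≤ n1 → r ≤ n1 + 1 → 0 < γ → γ ≤ 1 →
  1 ≤ R0 → ((r : ℝ) - 1) * (R0 ^ γ - 1) ≤ 1 → 1 ≤ Sm →
  ∀ (A n D : ℕ) (μ : Fin r → ℕ → ℝ) (g : ℝ), n1 ≤ n → ((n1 + D : ℕ) : ℝ) ≤ R0 * n1 →
    ((n1 + D).choose n1 : ℝ) ≤ Sm → (∀ t α, 0 ≤ μ t α) → (∀ t α, A < α → μ t α = 0) →
    ∑ t, (load n D A (μ t)) ^ γ ≤ g →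
    ∃ τ : FT r, Val τ (n + 1) D ∧ (lv τ D).length ≤ (n - n1 + D).choose D ∧
      ∀ B ∈ lv τ D, ∀ t, (∀ α, 0 ≤ B t α) ∧
        ∑ α ∈ Finset.range (A + 1), μ t α * B t α ≤
          μ t 0 + ((n - n1 + D + 1 : ℕ) : ℝ) * g ^ (1 / γ) * Sm

/-- THAG (hypotheses SpecROUND, SpecPOT2).  Explicit form of THA.  `γ = 1/(2 r log R0) ≤ 1/2`
(`log R0 ≥ 1`), `R0^γ = exp(1/(2r)) ≤ 1 + 1/r`, so `(r-1)(R0^γ - 1) ≤ 1`.  `G ≥ 0` by the first log condition.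
`Sm = choose (n1+D) n1 ≤ (exp 1 (n1+D)/n1)^{n1} ≤ exp (n1 (1 + log R0))`.  `μ_t` = `s` at `α = a`, else 0, `A = a`:
load `≤ exp(-G)`, `g = r exp(-G γ)`, `g^{1/γ} = r^{1/γ} exp(-G) = exp (2 r log R0 log r - G)`.  POT2: for every leaf
`s B t a ≤ (n - n1 + D + 1) g^{1/γ} Sm ≤ exp(-G/2) =: β`.  ROUND with `lam = 1/β ≥ 1`:
`sum ≤ choose (n+D) D · r · β^{L+2} · (1 + (lam-1) B)^s`, `(1 + (lam - 1) B)^s ≤ exp (lam s B) ≤ exp 1`; the sum is `< 1` by the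
second log condition. -/
def SpecTHAG : Prop := ∀ (n n1 D a s r L : ℕ) (G R0 : ℝ), 1 ≤ r → 1 ≤ n1 → r ≤ n1 + 1 → n1 ≤ n →
  1 ≤ a → a ≤ D → Real.exp 1 ≤ R0 → ((n1 + D : ℕ) : ℝ) ≤ R0 * n1 →
  (s : ℝ) * ((n + D - a).choose n : ℝ) ≤ Real.exp (-G) * ((n + D).choose n : ℝ) →
  Real.log ((n : ℝ) + D + 1) + 2 * r * Real.log r * Real.log R0 + n1 * (1 + Real.log R0) ≤ G / 2 →
  Real.log ((n + D).choose D : ℝ) + Real.log r + 1 < (L + 2) * (G / 2) →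
  Good (n + 1) L (r := r) (s := s) (fun _ _ => a) (fun _ => Finset.univ) D

/-- EX (hypotheses SpecBRI, SpecKOS, SpecTRANS, SpecFRV, SpecHILB, SpecREN): see `exists_forms` in MAIN.lean. -/
def SpecEX : Prop := ∀ (n A e s q b a D n' r L : ℕ), 1 ≤ q → 1 ≤ b → 1 ≤ a → a ≤ D → q * a + b = A →
  n' + r * (L + 1) = n → e < b * (r + 1) → e < b + q * (D + 1) →
  Good (n' + 1) L (r := r) (s := s) (fun _ _ => a) (fun _ => Finset.univ) D →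
  ∃ f : ℕ → MvPolynomial (Fin (n + 1)) ℂ, (∀ i, f i ∈ V (Fin (n + 1)) A) ∧
    ∀ j ≤ s, (Module.finrank ℂ (V (Fin (n + 1)) e) : ℤ) - (Module.finrank ℂ (Iq f A e j) : ℤ) ≤
      Fs n A e j

/-- the numerical conditions for the existence of the forms -/
def NumOK (n A e : ℕ) : Prop := ∃ (q b a D n' n1 r L : ℕ) (G R0 : ℝ),
  1 ≤ q ∧ 1 ≤ b ∧ 1 ≤ a ∧ a ≤ D ∧ q * a + b = A ∧ n' + r * (L + 1) = n ∧ e < b * (r + 1) ∧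
  e < b + q * (D + 1) ∧ 1 ≤ r ∧ 1 ≤ n1 ∧ r ≤ n1 + 1 ∧ n1 ≤ n' ∧ Real.exp 1 ≤ R0 ∧
  ((n1 + D : ℕ) : ℝ) ≤ R0 * n1 ∧
  Real.log ((n' : ℝ) + D + 1) + 2 * r * Real.log r * Real.log R0 + n1 * (1 + Real.log R0) ≤ G / 2 ∧
  Real.log ((n' + D).choose D : ℝ) + Real.log r + 1 < (L + 2) * (G / 2) ∧
  ∀ s : ℕ, (s : ℝ) * ((n + e).choose n : ℝ) ≤ 2 * ((n + e + A).choose n : ℝ) →
    (s : ℝ) * ((n' + D - a).choose n' : ℝ) ≤ Real.exp (-G) * ((n' + D).choose n' : ℝ)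

/-! ### The case `n ≤ d` -/

/-- CAPQ.  As SpecCAPP, with `1 + A/(e+k) ≤ 1 + A/e` for the factors `n' < k ≤ n`. -/
def SpecCAPQ : Prop := ∀ (C2 : ℝ) (n n' A e q b a D : ℕ), 2 ≤ C2 → 1 ≤ n → n' ≤ n → A ≤ e →
  ((e + n : ℕ) : ℝ) ≤ C2 * A → 1 ≤ a → a ≤ D → q * a + b = A → ((4 * b : ℕ) : ℝ) * C2 ≤ A →
  4 * q * n ≤ A + 4 * n → q * D + b ≤ e →
  (1 + 1 / (8 * C2 ^ 2)) ^ n' * ((n + e + A).choose n : ℝ) * ((n' + D - a).choose n' : ℝ) ≤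
    (1 + (A : ℝ) / e) ^ (n - n') * ((n + e).choose n : ℝ) * ((n' + D).choose n' : ℝ)

/-- NUMA1.  `q = A / (4 n) + 1`, `β0 = ⌈A^2/(16 (e+A))⌉`, `a = (A - β0) / q`, `b = A - q a`, `D = (e - b) / q`
(natural divisions).  `β0 ≤ b ≤ β0 + q - 1 ≤ A^2/(16 d) + q ≤ A^2/(16 d) + A^2/(32 d) + A^2/(64 d) ≤ A^2/(8 d)`. -/
def SpecNUMA1 : Prop := ∀ n A e : ℕ, 1 ≤ n → 1 ≤ A → A ≤ e → 8 * (e + A) ≤ n * A →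
  64 * (e + A) ≤ A ^ 2 → ∃ q b a D : ℕ, 1 ≤ q ∧ 1 ≤ b ∧ 1 ≤ a ∧ a ≤ D ∧ q * a + b = A ∧
    4 * q * n ≤ A + 4 * n ∧ A ^ 2 ≤ 16 * b * (e + A) ∧ 8 * b * (e + A) ≤ A ^ 2 ∧
    q * D + b ≤ e ∧ e < b + q * (D + 1) ∧ D * A ≤ 4 * n * (e + A)

/-- NUMA2.  `r = ⌈16/x^2⌉ ≤ 17/x^2`, `L = ⌈256 lam/x^2⌉`, `L + 1 ≤ 257 lam/x^2`,
`r (L+1) ≤ 4369 lam/x^4 ≤ x n/10^6`, `n' = n - r (L+1)`, `G = x^2 n/128`, `n1 = ⌈x^3 n/2^14⌉ ≤ x^3 n/2^13`, `R0 = 2^17/x^4`.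
`r ≤ n1`: `17/x^2 ≤ x^3 n/2^14`.  `n1 + D ≤ R0 n1`: `D ≤ 4 n/x ≤ (2^16/x^4) n1`.
`n1 (1 + log R0) ≤ (x^3 n/2^13)(12.8 + 4 log (1/x)) ≤ x^2 n/1000` (`x ≤ 1/2`, `x log (1/x) ≤ 0.37`).
`2 r log r log R0 ≤ (34/x^2)(5 x^{-1/2})(13 x^{-1/2}) = 2210/x^3 ≤ x^2 n/2048`
(`log (17/x^2) ≤ 2.84 + 2 x^{-1/2}`, `log (2^17/x^4) ≤ 11.8 + 4 x^{-1/2}`, `x^{-1/2} ≥ 1.41`).
`log (n' + D + 1) ≤ log (6 n/x) ≤ 3 lam ≤ x^2 n/2048` (`1/x ≤ n`).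
`(L+2) G/2 ≥ n lam`; `choose (n'+D) n' ≤ (exp 1 (1 + D/n'))^{n'}`, `D/n' ≤ 8/x`, so the log is
`≤ n (1 + log (9/x)) ≤ n (3.2 + lam/5)`; `log r + 1 ≤ n`; and `4.2 + lam/5 < lam`.
Last line: `log (1+2x) ≤ 2x`, `log (1+x^2/32) ≥ x^2/64`:
`log 2 + 2x · x n/10^6 + x^2 n/128 ≤ (x^2/64)(n - x n/10^6)`. -/
def SpecNUMA2 : Prop := ∀ (n D : ℕ) (x : ℝ), 0 < x → x ≤ 1 / 2 → 30 ≤ Real.log n →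
  10 ^ 9 * (Real.log n) ^ 2 ≤ x ^ 5 * n → (D : ℝ) * x ≤ 4 * n →
  ∃ (r L n' n1 : ℕ) (G R0 : ℝ), 16 ≤ x ^ 2 * ((r : ℝ) + 1) ∧ 1 ≤ r ∧ n' + r * (L + 1) = n ∧ 1 ≤ n1 ∧
    r ≤ n1 + 1 ∧ n1 ≤ n' ∧ Real.exp 1 ≤ R0 ∧ ((n1 + D : ℕ) : ℝ) ≤ R0 * n1 ∧
    Real.log ((n' : ℝ) + D + 1) + 2 * r * Real.log r * Real.log R0 + n1 * (1 + Real.log R0) ≤ G / 2 ∧
    Real.log ((n' + D).choose D : ℝ) + Real.log r + 1 < (L + 2) * (G / 2) ∧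
    2 * (1 + 2 * x) ^ (n - n') ≤ Real.exp (-G) * (1 + x ^ 2 / 32) ^ n'

/-- NUMA (hypotheses SpecCAPQ, SpecNUMA1, SpecNUMA2).  `x = A/d`, `d = e + A`, `x^5 n ≥ 10^9 lam^2`; `C2 = 2 d/A`,
so `1/(8 C2^2) = x^2/32`, `4 b C2 ≤ A` iff `8 b d ≤ A^2`, `e + n ≤ 2 d`; `A/e ≤ 2 x`; `D x ≤ 4 n`;
`b (r+1) ≥ (x^2 d/16)(16/x^2) = d > e`. -/
def SpecNUMA : Prop := ∀ n A e : ℕ, 30 ≤ Real.log n → 1 ≤ A → A ≤ e → n ≤ e + A →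
  10 ^ 9 * (Real.log n) ^ 2 * ((e : ℝ) + A) ^ 5 ≤ (A : ℝ) ^ 5 * n → NumOK n A e

/-! ### The case `d ≤ n` -/

/-- CAPB.  The quotient of the two sides without `exp` is
`∏_{k ≤ n} (e+A+k)(e-A+k)/(e+k)^2 · ∏_{k ≤ n'} (e+k)/(e-b+k) · ∏_{n' < k ≤ n} (e+k)/(e-A+k)`.
First product: all factors are `1 - A^2/(e+k)^2 ≤ 1`, and `≤ 1 - A^2/(2(e+A))^2` for `k ≤ e + A` (`≤ n`):
`≤ exp (-A^2/(4(e+A)))`.  Second: `1/(1-y) ≤ exp (2y)` for `y = b/(e+k) ≤ 1/2`, `∑_{k ≤ n} 1/(e+k) ≤ 1 + log n ≤ 2 log n`.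
Third: `1 + A/(e-A+k) ≤ 1 + 2A/n ≤ exp (2A/n)`, as `k > n' ≥ n/2`. -/
def SpecCAPB : Prop := ∀ n n' A e b : ℕ, 3 ≤ n → n' ≤ n → n ≤ 2 * n' → 1 ≤ A → A ≤ e → b ≤ A →
  2 * b ≤ e → e + A ≤ n →
  ((n + e + A).choose n : ℝ) * ((n' + (e - b) - (A - b)).choose n' : ℝ) ≤
    Real.exp (-((A : ℝ) ^ 2 / (4 * ((e : ℝ) + A))) + 4 * b * Real.log n +
      2 * A * ((n : ℝ) - n') / n) * ((n + e).choose n : ℝ) * ((n' + (e - b)).choose n' : ℝ)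

/-- NUMB2.  `r = ⌈256 lam/x^2⌉ ≤ 257 lam/x^2`, `L = ⌈64 lam/x^2⌉`, `L + 1 ≤ 65 lam/x^2`,
`r (L+1) ≤ 16705 lam^2/x^4 ≤ x d · 16705/10^9 ≤ x n/10^4`, `n' = n - r (L+1)`, `n1 = ⌈x^3 d/2^12⌉ ≤ x^3 d/2^11`, `R0 = 2^13/x^3`.
`r ≤ n1`: `257 lam/x^2 ≤ x^3 d/2^12`.  `n1 ≤ d/2 ≤ n'`.  `D ≤ d ≤ (2^12/x^3) n1`.
`n1 (1 + log R0) ≤ (x^3 d/2^11)(10.1 + 3 log (1/x)) ≤ x^2 d/300`.
`2 r log r log R0 ≤ (514 lam/x^2)(lam x^{-1/2})(10 x^{-1/2}) = 5140 lam^2/x^3 ≤ x^2 d/64`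
(`log (257 lam/x^2) = 5.55 + log lam + 2 log (1/x) ≤ lam/5 + lam/8 + (lam/15) x^{-1/2} ≤ lam x^{-1/2}`;
`log (2^13/x^3) ≤ 9.02 + 3 x^{-1/2} ≤ 10 x^{-1/2}`).
`log (n' + D + 1) ≤ log (2n+1) ≤ 2 lam ≤ x^2 d/64`.  Sum `≤ x^2 d/16`.
`log choose (n'+D) D ≤ D log (n'+D) ≤ d (lam + 0.7)`, `log r + 1 ≤ d`, and `(L+2) x^2 d/16 ≥ 4 d lam`. -/
def SpecNUMB2 : Prop := ∀ (n d : ℕ) (x : ℝ), 0 < x → x ≤ 1 / 2 → 30 ≤ Real.log n → d ≤ n →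
  10 ^ 9 * (Real.log n) ^ 2 ≤ x ^ 5 * d →
  ∃ (r L n' n1 : ℕ) (R0 : ℝ), 256 * Real.log n ≤ x ^ 2 * r ∧ 1 ≤ r ∧ n' + r * (L + 1) = n ∧
    n ≤ 2 * n' ∧ ((r * (L + 1) : ℕ) : ℝ) * 10 ^ 4 ≤ x * n ∧ 1 ≤ n1 ∧ r ≤ n1 + 1 ∧ n1 ≤ n' ∧
    Real.exp 1 ≤ R0 ∧ ∀ D : ℕ, D ≤ d → ((n1 + D : ℕ) : ℝ) ≤ R0 * n1 ∧
      Real.log ((n' : ℝ) + D + 1) + 2 * r * Real.log r * Real.log R0 + n1 * (1 + Real.log R0) ≤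
        x ^ 2 * d / 16 ∧
      Real.log ((n' + D).choose D : ℝ) + Real.log r + 1 < (L + 2) * (x ^ 2 * d / 16)

/-- NUMB (hypotheses SpecCAPB, SpecNUMB2).  `x = A/d`, `q = 1`, `b = ⌊x^2 d/(128 lam)⌋` (so
`x^2 d/(256 lam) ≤ b ≤ x^2 d/(128 lam)`, as `x^2 d ≥ 8·10^9 lam^2`), `a = A - b ≥ 1`, `D = e - b ≥ a`, `G = x^2 d/8`.
`b (r+1) > b r ≥ (x^2 d/(256 lam))(256 lam/x^2) = d > e`.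
CAPB: `s choose (n'+D-a) n' ≤ 2 exp (-x^2 d/4 + 4 b lam + 2 A (n-n')/n) choose (n'+D) n'`, and `4 b lam ≤ x^2 d/32`,
`2 A (n-n')/n ≤ 2 A x/10^4 ≤ x^2 d/32`, `2 ≤ exp (x^2 d/32)`; `-1/4 + 3/32 ≤ -1/8`. -/
def SpecNUMB : Prop := ∀ n A e : ℕ, 30 ≤ Real.log n → 1 ≤ A → A ≤ e → e + A ≤ n →
  10 ^ 9 * (Real.log n) ^ 2 * ((e : ℝ) + A) ^ 5 ≤ (A : ℝ) ^ 5 * ((e : ℝ) + A) → NumOK n A e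

/-! ### The rest -/

/-- NEGC.  The core of NEG: `ε = R_d R_{e-A}/R_e^2 ≤ 1/30`; sum over `i ≥ 2` at most
`R_d ∑_{i ≥ 2} (3^i/i!) ε^{i-1} < R_d`. -/
def SpecNEGC : Prop := ∀ n A e s : ℕ, 1 ≤ n → 1 ≤ A → A ≤ e →
  30 * ((n + e + A).choose n * (n + e - A).choose n) ≤ (n + e).choose n ^ 2 →
  2 * (n + e + A).choose n ≤ s * (n + e).choose n →
  s * (n + e).choose n ≤ 2 * (n + e + A).choose n + (n + e).choose n → Fs n A (e + A) s < 0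

/-- NEGU.  `∏_{k ≤ n} (1 - A^2/(e+k)^2) ≤ (1 - A^2/(4 d^2))^M ≤ exp (-A^2 M/(4 d^2)) ≤ exp (-7/2) ≤ 1/30`, where
`M = min n d`, `d = e + A`, `e + k ≤ 2 d` for `k ≤ M`. -/
def SpecNEGU : Prop := ∀ n A e : ℕ, A ≤ e → 14 * (e + A) ^ 2 ≤ A ^ 2 * min n (e + A) →
  30 * ((n + e + A).choose n * (n + e - A).choose n) ≤ (n + e).choose n ^ 2

/-- LAM.  `(log n)^2 ≥ 0.48`, so `n ≥ 1.5·10^10`, `log n ≥ 23`, `n ≥ 1.6·10^13`, `log n ≥ 30`. -/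
def SpecLAM : Prop := ∀ n : ℕ, 2 ≤ n → 32 * 10 ^ 9 * (Real.log n) ^ 2 ≤ n → 30 ≤ Real.log n

/-- MAIN3 (hypotheses SpecTHAG, SpecEX, SpecNUMA, SpecNUMB, SpecSEMI, SpecNEGC, SpecNEGU, SpecLV, SpecFSR,
SpecLAM), as MAIN. -/
def SpecMAIN3 : Prop := ∀ n d m s : ℕ, 2 ≤ n → 1 ≤ m → m ≤ d →
  10 ^ 9 * (Real.log n) ^ 2 * (d : ℝ) ^ 5 ≤ ((d + 1 - m : ℕ) : ℝ) ^ 5 * (min n d : ℕ) →
  ∀ p : Fin s → Fin (n + 1) → ℂ,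
    ldim n d s (fun _ => m) ≤ (Module.finrank ℂ (linSys n d s (fun _ => m) p) : ℤ)

end FrI
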