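import Pool.Agent.Lib.MP_921642_ag.FI.Spec2
import Pool.Agent.Lib.MP_921642_ag.FI.Spec3
import Pool.Agent.Lib.MP_921642_ag.FI.Spec4

section
/-!
# MP_921642_ag, FI: module ASF (multiplication by the forms on assembled polynomials)
-/
set_option autoImplicit false

namespace FrI

namespace ASFM

open MvPolynomial Pool.Agent.Lib.MP_921642_ag

variable {N r s L q b : ℕ}

lemma mem_Ms {μ : ℕ} {κ : Mo r L} : κ ∈ Ms r L μ ↔ tdeg κ = μ := by
  unfold Ms
  rw [Finset.mem_filter]
  refine ⟨fun h => h.2, fun h => ⟨?_, h⟩⟩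
  rw [Fintype.mem_piFinset]
  intro t
  rw [Fintype.mem_piFinset]
  intro l
  rw [Finset.mem_range, Nat.lt_succ_iff, ← h]
  calc κ t l ≤ dg t κ := Finset.single_le_sum (f := fun l => κ t l) (fun _ _ => Nat.zero_le _)
        (Finset.mem_univ l)
    _ ≤ tdeg κ := Finset.single_le_sum (f := fun t => dg t κ) (fun _ _ => Nat.zero_le _)
        (Finset.mem_univ t)

lemma dn_up (t : Fin r) (l : Fin (L + 1)) (κ : Mo r L) : dn t l (up t l κ) = κ := by
  funext t' l'
  unfold dn up
  by_cases ht : t' = t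
  · subst ht
    by_cases hl : l' = l
    · subst hl
      simp
    · simp
  · simp [Function.update_of_ne ht]

lemma up_dn (t : Fin r) (l : Fin (L + 1)) (κ : Mo r L) (h : κ t l ≠ 0) :
    up t l (dn t l κ) = κ := by
  funext t' l'
  unfold dn up
  by_cases ht : t' = t
  · subst ht
    by_cases hl : l' = l
    · subst hl
      simp only [Function.update_self]
      omega
    · simp [Function.update_of_ne hl]
  · simp [Function.update_of_ne ht]

lemma up_self (t : Fin r) (l : Fin (L + 1)) (κ : Mo r L) : up t l κ t l = κ t l + 1 := by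
  simp [up]

lemma up_apply (t : Fin r) (l : Fin (L + 1)) (κ : Mo r L) (t' : Fin r) (l' : Fin (L + 1)) :
    up t l κ t' l' = κ t' l' + (if t' = t ∧ l' = l then 1 else 0) := by
  unfold up
  by_cases ht : t' = t
  · subst ht
    by_cases hl : l' = l
    · subst hl
      simp
    · simp [hl]
  · simp [ht]

lemma tdeg_up (t : Fin r) (l : Fin (L + 1)) (κ : Mo r L) : tdeg (up t l κ) = tdeg κ + 1 := by
  unfold tdeg dg
  simp only [up_apply, Finset.sum_add_distrib]
  congr 1
  rw [Finset.sum_eq_single t, Finset.sum_eq_single l]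
  · simp
  · intro l' _ hne
    simp [hne]
  · intro h
    exact absurd (Finset.mem_univ _) h
  · intro t' _ hne
    refine Finset.sum_eq_zero (fun l' _ => ?_)
    simp [hne]
  · intro h
    exact absurd (Finset.mem_univ _) h

/-- the product of the powers of the variables `y` -/
noncomputable def Yp (N b : ℕ) (κ : Mo r L) : MvPolynomial (Fin N ⊕ (Fin r × Fin (L + 1))) ℂ :=
  ∏ t, ∏ l, (X (Sum.inr (t, l)) : MvPolynomial (Fin N ⊕ (Fin r × Fin (L + 1))) ℂ) ^ (b * κ t l)

lemma Yp_up (t : Fin r) (l : Fin (L + 1)) (κ : Mo r L) :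
    Yp N b (up t l κ) =
      (X (Sum.inr (t, l)) : MvPolynomial (Fin N ⊕ (Fin r × Fin (L + 1))) ℂ) ^ b * Yp N b κ := by
  unfold Yp
  simp only [up_apply, mul_add, pow_add, Finset.prod_mul_distrib]
  rw [mul_comm]
  congr 1
  rw [Finset.prod_eq_single t, Finset.prod_eq_single l]
  · simp
  · intro l' _ hne
    simp [hne]
  · intro h
    exact absurd (Finset.mem_univ _) h
  · intro t' _ hne
    refine Finset.prod_eq_one (fun l' _ => ?_)
    simp [hne]
  · intro h
    exact absurd (Finset.mem_univ _) h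

/-- change of the summation variable -/
lemma sum_up {R : Type} [AddCommMonoid R] (t : Fin r) (l : Fin (L + 1)) (μ : ℕ)
    (f : Mo r L → R) :
    ∑ κ ∈ Ms r L (μ + 1), (if κ t l ≠ 0 then f κ else 0) = ∑ κ ∈ Ms r L μ, f (up t l κ) := by
  rw [← Finset.sum_filter]
  refine (Finset.sum_nbij' (fun κ => up t l κ) (fun κ => dn t l κ) ?_ ?_ ?_ ?_ ?_).symm
  · intro κ hκ
    rw [Finset.mem_filter, mem_Ms, tdeg_up, mem_Ms.1 hκ, up_self]
    exact ⟨rfl, Nat.succ_ne_zero _⟩
  · intro κ hκ
    rw [Finset.mem_filter, mem_Ms] at hκ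
    rw [mem_Ms]
    have h1 := tdeg_up t l (dn t l κ)
    rw [up_dn t l κ hκ.2, hκ.1] at h1
    omega
  · intro κ _
    exact dn_up t l κ
  · intro κ hκ
    rw [Finset.mem_filter] at hκ
    exact up_dn t l κ hκ.2
  · intro κ _
    rfl

theorem specASF : SpecASF := by
  intro N r s L a q b k M hM hk i ρ μ G _
  have his : (i : ℕ) < s := lt_of_lt_of_le i.2 hk
  have hF : ∀ κ : Mo r L, F (PS N r k L a (fun t i l => M t (Fin.castLE hk i) l)
      (fun _ _ _ => hM _ _ _)) (List.finRange r) i G κ =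
      ∑ t, ∑ l, (if κ t l ≠ 0 then M t ⟨i, his⟩ l * G (dn t l κ) else 0 : Po N) := by
    intro κ
    unfold F
    refine Finset.sum_congr rfl (fun t _ => Finset.sum_congr rfl (fun l _ => ?_))
    by_cases h : κ t l ≠ 0
    · rw [if_pos ⟨List.mem_finRange t, h⟩, if_pos h]
      rfl
    · rw [if_neg (fun hh => h hh.2), if_neg h]
      rfl
  unfold asm fR
  rw [dif_pos his]
  rw [mul_left_comm]
  congr 1
  have h1 : ∀ κ : Mo r L, (rename Sum.inl (expand q (F (PS N r k L a
      (fun t i l => M t (Fin.castLE hk i) l) (fun _ _ _ => hM _ _ _)) (List.finRange r) i G κ)) :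
      MvPolynomial (Fin N ⊕ (Fin r × Fin (L + 1))) ℂ) *
      ∏ t, ∏ l, (X (Sum.inr (t, l)) : MvPolynomial (Fin N ⊕ (Fin r × Fin (L + 1))) ℂ) ^ (b * κ t l) =
      ∑ t, ∑ l, (if κ t l ≠ 0 then rename Sum.inl (expand q (M t ⟨i, his⟩ l)) *
        rename Sum.inl (expand q (G (dn t l κ))) * Yp N b κ else 0) := by
    intro κ
    rw [hF κ, map_sum, map_sum, Finset.sum_mul]
    refine Finset.sum_congr rfl (fun t _ => ?_)
    rw [map_sum, map_sum, Finset.sum_mul]
    refine Finset.sum_congr rfl (fun l _ => ?_)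
    by_cases h : κ t l ≠ 0
    · rw [if_pos h, if_pos h, map_mul, map_mul]
      rfl
    · rw [if_neg h, if_neg h]
      simp
  simp only [h1]
  have h2 : ∑ κ ∈ Ms r L (μ + 1), ∑ t, ∑ l, (if κ t l ≠ 0 then
      rename Sum.inl (expand q (M t ⟨i, his⟩ l)) *
        rename Sum.inl (expand q (G (dn t l κ))) * Yp N b κ else 0 :
          MvPolynomial (Fin N ⊕ (Fin r × Fin (L + 1))) ℂ) =
      ∑ t, ∑ l, ∑ κ ∈ Ms r L μ, rename Sum.inl (expand q (M t ⟨i, his⟩ l)) *
        rename Sum.inl (expand q (G κ)) * Yp N b (up t l κ) := by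
    rw [Finset.sum_comm]
    refine Finset.sum_congr rfl (fun t _ => ?_)
    rw [Finset.sum_comm]
    refine Finset.sum_congr rfl (fun l _ => ?_)
    rw [sum_up t l μ (fun κ => rename Sum.inl (expand q (M t ⟨i, his⟩ l)) *
        rename Sum.inl (expand q (G (dn t l κ))) * Yp N b κ)]
    refine Finset.sum_congr rfl (fun κ _ => ?_)
    rw [dn_up]
  refine Eq.trans ?_ h2.symm
  rw [Finset.sum_mul]
  refine Finset.sum_congr rfl (fun t _ => ?_)
  rw [Finset.sum_mul]
  refine Finset.sum_congr rfl (fun l _ => ?_)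
  rw [Finset.mul_sum]
  refine Finset.sum_congr rfl (fun κ _ => ?_)
  rw [Yp_up]
  unfold Yp
  ring

end ASFM

end FrI
end

section
/-!
# MP_921642_ag, FI: module ASM (division with remainder of the exponents)
-/
set_option autoImplicit false

namespace FrI

namespace ASMM

open MvPolynomial Pool.Agent.Lib.MP_921642_ag

variable {N r L q b : ℕ}

/-- a monomial in finitely many variables as a product over all the variables -/
lemma mono_fin {σ : Type} [Fintype σ] (m : σ →₀ ℕ) (c : ℂ) :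
    (monomial m c : MvPolynomial σ ℂ) = C c * ∏ i, X i ^ m i := by
  rw [monomial_eq, Finsupp.prod_fintype]
  intro i
  simp

/-- the exponent of `x^(qγ + ρ) y^(bκ + ρ)` -/
noncomputable def ex (ρ : Rem N r L q b) (κ : Mo r L) (γ : Fin N →₀ ℕ) :
    (Fin N ⊕ (Fin r × Fin (L + 1))) →₀ ℕ :=
  Finsupp.equivFunOnFinite.symm
    (Sum.elim (fun v => q * γ v + (ρ.1 v : ℕ)) (fun x => b * κ x.1 x.2 + (ρ.2 x : ℕ)))

@[simp] lemma ex_inl (ρ : Rem N r L q b) (κ : Mo r L) (γ : Fin N →₀ ℕ) (v : Fin N) :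
    ex ρ κ γ (Sum.inl v) = q * γ v + (ρ.1 v : ℕ) := rfl

@[simp] lemma ex_inr (ρ : Rem N r L q b) (κ : Mo r L) (γ : Fin N →₀ ℕ)
    (x : Fin r × Fin (L + 1)) : ex ρ κ γ (Sum.inr x) = b * κ x.1 x.2 + (ρ.2 x : ℕ) := rfl

lemma ex_inj {ρ ρ' : Rem N r L q b} {κ κ' : Mo r L} {γ γ' : Fin N →₀ ℕ}
    (h : ex ρ κ γ = ex ρ' κ' γ') : ρ = ρ' ∧ κ = κ' ∧ γ = γ' := by
  have h1 : ∀ v, q * γ v + (ρ.1 v : ℕ) = q * γ' v + (ρ'.1 v : ℕ) := by
    intro v
    have := congrArg (fun e => e (Sum.inl v)) h
    simpa using this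
  have h2 : ∀ x : Fin r × Fin (L + 1),
      b * κ x.1 x.2 + (ρ.2 x : ℕ) = b * κ' x.1 x.2 + (ρ'.2 x : ℕ) := by
    intro x
    have := congrArg (fun e => e (Sum.inr x)) h
    simpa using this
  have key : ∀ {c u w : ℕ} (s t : Fin c), c * u + (s : ℕ) = c * w + (t : ℕ) → s = t ∧ u = w := by
    intro c u w s t hh
    have hc : 0 < c := lt_of_le_of_lt (Nat.zero_le _) s.2
    have e1 : (s : ℕ) = (t : ℕ) := by
      have := congrArg (fun z => z % c) hh
      simpa [Nat.mul_add_mod, Nat.mod_eq_of_lt s.2, Nat.mod_eq_of_lt t.2] using this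
    refine ⟨Fin.ext e1, ?_⟩
    rw [e1] at hh
    exact Nat.eq_of_mul_eq_mul_left hc (Nat.add_right_cancel hh)
  refine ⟨?_, ?_, ?_⟩
  · refine Prod.ext (funext fun v => (key _ _ (h1 v)).1) (funext fun x => (key _ _ (h2 x)).1)
  · funext t l
    exact (key _ _ (h2 (t, l))).2
  · ext v
    exact (key _ _ (h1 v)).2

lemma mem_Ms {μ : ℕ} {κ : Mo r L} : κ ∈ Ms r L μ ↔ tdeg κ = μ := by
  unfold Ms
  rw [Finset.mem_filter]
  refine ⟨fun h => h.2, fun h => ⟨?_, h⟩⟩
  rw [Fintype.mem_piFinset]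
  intro t
  rw [Fintype.mem_piFinset]
  intro l
  rw [Finset.mem_range, Nat.lt_succ_iff, ← h]
  calc κ t l ≤ dg t κ := Finset.single_le_sum (f := fun l => κ t l) (fun _ _ => Nat.zero_le _)
        (Finset.mem_univ l)
    _ ≤ tdeg κ := Finset.single_le_sum (f := fun t => dg t κ) (fun _ _ => Nat.zero_le _)
        (Finset.mem_univ t)

lemma asm_sum {ι : Type} (s : Finset ι) (ρ : Rem N r L q b) (μ : ℕ)
    (G : ι → Mo r L → Po N) : asm ρ μ (∑ i ∈ s, G i) = ∑ i ∈ s, asm ρ μ (G i) := by
  unfold asm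
  rw [← Finset.mul_sum, Finset.sum_comm]
  congr 1
  refine Finset.sum_congr rfl (fun κ _ => ?_)
  rw [Finset.sum_apply, map_sum, map_sum, Finset.sum_mul]

lemma mono_ex (ρ : Rem N r L q b) (κ : Mo r L) (γ : Fin N →₀ ℕ) (c : ℂ) :
    (∏ v, (X (Sum.inl v) : MvPolynomial (Fin N ⊕ (Fin r × Fin (L + 1))) ℂ) ^ (ρ.1 v : ℕ)) *
    (∏ x, (X (Sum.inr x) : MvPolynomial (Fin N ⊕ (Fin r × Fin (L + 1))) ℂ) ^ (ρ.2 x : ℕ)) *
    (rename Sum.inl (expand q (monomial γ c)) *
      ∏ t, ∏ l, (X (Sum.inr (t, l)) : MvPolynomial (Fin N ⊕ (Fin r × Fin (L + 1))) ℂ) ^ (b * κ t l)) =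
    monomial (ex ρ κ γ) c := by
  rw [mono_fin, mono_fin, Fintype.prod_sum_type]
  simp only [ex_inl, ex_inr, pow_add, Finset.prod_mul_distrib, map_mul, map_prod, map_pow,
    expand_C, expand_X, rename_C, rename_X, ← pow_mul, Fintype.prod_prod_type]
  ring

lemma asm_single [DecidableEq (Mo r L)] (ρ : Rem N r L q b) (μ : ℕ) (κ : Mo r L)
    (γ : Fin N →₀ ℕ) (c : ℂ) (h : tdeg κ = μ) :
    asm ρ μ (Pi.single κ (monomial γ c)) = monomial (ex ρ κ γ) c := by
  unfold asm
  rw [Finset.sum_eq_single κ]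
  · rw [Pi.single_eq_same]
    exact mono_ex ρ κ γ c
  · intro κ' _ hne
    rw [Pi.single_eq_of_ne hne]
    simp
  · intro hn
    exact absurd (mem_Ms.2 h) hn

lemma asm_eq (ρ : Rem N r L q b) (μ : ℕ) (G : Mo r L → Po N) :
    asm ρ μ G = ∑ κ ∈ Ms r L μ, ∑ γ ∈ (G κ).support, monomial (ex ρ κ γ) (coeff γ (G κ)) := by
  unfold asm
  rw [Finset.mul_sum]
  refine Finset.sum_congr rfl (fun κ _ => ?_)
  conv_lhs => rw [← support_sum_monomial_coeff (G κ)]
  rw [map_sum, map_sum, Finset.sum_mul, Finset.mul_sum]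
  exact Finset.sum_congr rfl (fun γ _ => mono_ex ρ κ γ _)

lemma coeff_asm (ρ ρ0 : Rem N r L q b) (μ : ℕ) (κ0 : Mo r L) (γ0 : Fin N →₀ ℕ)
    (G : Mo r L → Po N) :
    coeff (ex ρ0 κ0 γ0) (asm ρ μ G) = if ρ = ρ0 ∧ tdeg κ0 = μ then coeff γ0 (G κ0) else 0 := by
  classical
  rw [asm_eq, coeff_sum]
  simp only [coeff_sum, coeff_monomial]
  by_cases h : ρ = ρ0 ∧ tdeg κ0 = μ
  · rw [if_pos h]
    obtain ⟨rfl, h⟩ := h
    rw [Finset.sum_eq_single κ0]
    · rw [Finset.sum_eq_single γ0]
      · rw [if_pos rfl]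
      · intro γ _ hne
        rw [if_neg]
        intro he
        exact hne (ex_inj he).2.2
      · intro hn
        rw [if_pos rfl]
        simpa using hn
    · intro κ _ hne
      refine Finset.sum_eq_zero (fun γ _ => ?_)
      rw [if_neg]
      intro he
      exact hne (ex_inj he).2.1
    · intro hn
      exact absurd (mem_Ms.2 h) hn
  · rw [if_neg h]
    refine Finset.sum_eq_zero (fun κ hκ => Finset.sum_eq_zero (fun γ _ => ?_))
    rw [if_neg]
    intro he
    obtain ⟨h1, h2, _⟩ := ex_inj he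
    exact h ⟨h1, by rw [← h2]; exact mem_Ms.1 hκ⟩

lemma deg_ex (ρ : Rem N r L q b) (κ : Mo r L) (γ : Fin N →₀ ℕ) :
    (ex ρ κ γ).degree = q * γ.degree + b * tdeg κ + ρ.deg := by
  rw [Finsupp.degree_eq_sum, Fintype.sum_sum_type, Finsupp.degree_eq_sum]
  simp only [ex_inl, ex_inr, Finset.sum_add_distrib, ← Finset.mul_sum, Rem.deg, tdeg, dg,
    Fintype.sum_prod_type]
  ring

/-- the data of an exponent -/
noncomputable def remOf (hq : 1 ≤ q) (hb : 1 ≤ b) (m : (Fin N ⊕ (Fin r × Fin (L + 1))) →₀ ℕ) :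
    Rem N r L q b :=
  (fun v => ⟨m (Sum.inl v) % q, Nat.mod_lt _ hq⟩, fun x => ⟨m (Sum.inr x) % b, Nat.mod_lt _ hb⟩)

def kapOf (b : ℕ) (m : (Fin N ⊕ (Fin r × Fin (L + 1))) →₀ ℕ) : Mo r L :=
  fun t l => m (Sum.inr (t, l)) / b

noncomputable def gamOf (q : ℕ) (m : (Fin N ⊕ (Fin r × Fin (L + 1))) →₀ ℕ) : Fin N →₀ ℕ :=
  Finsupp.equivFunOnFinite.symm (fun v => m (Sum.inl v) / q)

lemma ex_of (hq : 1 ≤ q) (hb : 1 ≤ b) (m : (Fin N ⊕ (Fin r × Fin (L + 1))) →₀ ℕ) :
    ex (remOf hq hb m) (kapOf b m) (gamOf q m) = m := by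
  ext i
  rcases i with v | x
  · rw [ex_inl]
    exact Nat.div_add_mod _ _
  · rw [ex_inr]
    exact Nat.div_add_mod _ _

theorem specASM : SpecASM where
  hom := by
    intro N r L q b ρ μ j G hG
    rw [asm_eq]
    refine Submodule.sum_mem _ (fun κ hκ => Submodule.sum_mem _ (fun γ hγ => ?_))
    rw [mem_homogeneousSubmodule]
    refine isHomogeneous_monomial _ ?_
    rw [deg_ex, mem_Ms.1 hκ]
    have h1 : γ.degree = j := by
      have h2 := (mem_homogeneousSubmodule _ _).1 (hG κ)
      have h3 := h2 (mem_support_iff.1 hγ)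
      rwa [Finsupp.degree_eq_weight_one]
    rw [h1]
  ex := by
    classical
    intro N r L q b hq hb k g hg
    have hdeg : ∀ m ∈ g.support, m.degree = k := by
      intro m hm
      have h2 := (mem_homogeneousSubmodule _ _).1 hg
      have h3 := h2 (mem_support_iff.1 hm)
      rwa [Finsupp.degree_eq_weight_one]
    let G : Rem N r L q b → ℕ → Mo r L → Po N := fun ρ μ => ∑ m ∈ g.support,
      if remOf hq hb m = ρ ∧ tdeg (kapOf b m) = μ then
        Pi.single (kapOf b m) (monomial (gamOf q m) (coeff m g)) else 0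
    have hdm : ∀ m ∈ g.support,
        q * (gamOf q m).degree + b * tdeg (kapOf b m) + (remOf hq hb m).deg = k := by
      intro m hm
      rw [← deg_ex, ex_of, hdeg m hm]
    refine ⟨G, ?_, ?_, ?_⟩
    · have h1 : ∀ ρ : Rem N r L q b, ∀ μ : ℕ, asm ρ μ (G ρ μ) = ∑ m ∈ g.support,
          if remOf hq hb m = ρ ∧ tdeg (kapOf b m) = μ then monomial m (coeff m g) else 0 := by
        intro ρ μ
        rw [asm_sum]
        refine Finset.sum_congr rfl (fun m _ => ?_)
        by_cases h : remOf hq hb m = ρ ∧ tdeg (kapOf b m) = μ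
        · rw [if_pos h, if_pos h, asm_single _ _ _ _ _ h.2, ← h.1, ex_of]
        · rw [if_neg h, if_neg h]
          simp [asm]
      simp only [h1]
      have h2 : ∀ ρ : Rem N r L q b, (∑ μ ∈ Finset.range (k + 1), ∑ m ∈ g.support,
          if remOf hq hb m = ρ ∧ tdeg (kapOf b m) = μ then
            (monomial m (coeff m g) : MvPolynomial (Fin N ⊕ (Fin r × Fin (L + 1))) ℂ) else 0) =
          ∑ m ∈ g.support, if remOf hq hb m = ρ then monomial m (coeff m g) else 0 := by
        intro ρ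
        rw [Finset.sum_comm]
        refine Finset.sum_congr rfl (fun m hm => ?_)
        by_cases h : remOf hq hb m = ρ
        · simp only [h, true_and, if_true]
          rw [Finset.sum_ite_eq, if_pos]
          rw [Finset.mem_range]
          have h3 := hdm m hm
          have h4 : tdeg (kapOf b m) ≤ b * tdeg (kapOf b m) := Nat.le_mul_of_pos_left _ hb
          omega
        · simp [h]
      simp only [h2]
      rw [Finset.sum_comm]
      conv_lhs => rw [← support_sum_monomial_coeff g]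
      refine Finset.sum_congr rfl (fun m _ => ?_)
      rw [Finset.sum_ite_eq, if_pos (Finset.mem_univ _)]
    · intro ρ μ κ hne
      have hne' : (∑ m ∈ g.support, (if remOf hq hb m = ρ ∧ tdeg (kapOf b m) = μ then
        (Pi.single (kapOf b m) (monomial (gamOf q m) (coeff m g)) : Mo r L → Po N) else 0)) κ ≠ 0 :=
        hne
      rw [Finset.sum_apply] at hne'
      obtain ⟨m, _, hm⟩ := Finset.exists_ne_zero_of_sum_ne_zero hne'
      by_cases h : remOf hq hb m = ρ ∧ tdeg (kapOf b m) = μ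
      · rw [if_pos h] at hm
        by_cases hk : κ = kapOf b m
        · rw [hk]
          exact h.2
        · rw [Pi.single_eq_of_ne hk] at hm
          exact absurd rfl hm
      · rw [if_neg h] at hm
        exact absurd rfl hm
    · intro ρ μ
      by_cases hex : ∃ m ∈ g.support, remOf hq hb m = ρ ∧ tdeg (kapOf b m) = μ
      · right
        obtain ⟨m0, hm0, hr0, ht0⟩ := hex
        refine ⟨(gamOf q m0).degree, ?_, ?_⟩
        · rw [← hr0, ← ht0]
          exact hdm m0 hm0
        · intro κ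
          change (∑ m ∈ g.support, (if remOf hq hb m = ρ ∧ tdeg (kapOf b m) = μ then
            (Pi.single (kapOf b m) (monomial (gamOf q m) (coeff m g)) : Mo r L → Po N) else 0)) κ ∈ _
          rw [Finset.sum_apply]
          refine Submodule.sum_mem _ (fun m hm => ?_)
          by_cases h : remOf hq hb m = ρ ∧ tdeg (kapOf b m) = μ
          · rw [if_pos h]
            by_cases hk : κ = kapOf b m
            · rw [hk, Pi.single_eq_same, mem_homogeneousSubmodule]
              refine isHomogeneous_monomial _ ?_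
              have e1 := hdm m hm
              have e2 := hdm m0 hm0
              rw [h.1, h.2] at e1
              rw [hr0, ht0] at e2
              have e3 : q * (gamOf q m).degree = q * (gamOf q m0).degree := by omega
              exact Nat.eq_of_mul_eq_mul_left hq e3
            · rw [Pi.single_eq_of_ne hk]
              exact Submodule.zero_mem _
          · rw [if_neg h]
            exact Submodule.zero_mem _
      · left
        refine Finset.sum_eq_zero (fun m hm => ?_)
        rw [if_neg]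
        intro h
        exact hex ⟨m, hm, h⟩
  un := by
    classical
    intro N r L q b hq hb k G hsum hG ρ0 μ0 hμ0
    funext κ0
    by_cases ht : tdeg κ0 = μ0
    · ext γ0
      have h1 := congrArg (coeff (ex ρ0 κ0 γ0)) hsum
      rw [coeff_sum] at h1
      simp only [coeff_sum, coeff_asm, coeff_zero] at h1
      rw [Finset.sum_eq_single ρ0] at h1
      · rw [Finset.sum_eq_single μ0] at h1
        · rw [if_pos ⟨rfl, ht⟩] at h1
          simpa using h1
        · intro μ _ hne
          rw [if_neg]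
          intro h
          exact hne (by rw [← h.2, ht])
        · intro hn
          exact absurd (Finset.mem_range.2 hμ0) hn
      · intro ρ _ hne
        refine Finset.sum_eq_zero (fun μ _ => ?_)
        rw [if_neg]
        intro h
        exact hne h.1
      · intro hn
        exact absurd (Finset.mem_univ _) hn
    · by_contra hne
      exact ht (hG ρ0 μ0 κ0 hne)

end ASMM

end FrI
end

section
/-!
# MP_921642_ag, FI: BASE, monomial matrices
-/
set_option autoImplicit false

namespace FrI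

open MvPolynomial Pool.Agent.Lib.MP_921642_ag

namespace BASEM

/-- a product of finite dimensional submodules is finite dimensional -/
lemma fd_pi {ι : Type} [Finite ι] {M : ι → Type} [∀ i, AddCommGroup (M i)] [∀ i, Module ℂ (M i)]
    (p : ∀ i, Submodule ℂ (M i)) (hp : ∀ i, FiniteDimensional ℂ (p i)) :
    FiniteDimensional ℂ (Submodule.pi Set.univ p) := by
  classical
  have : Fintype ι := Fintype.ofFinite ι
  let φ : (∀ i, p i) →ₗ[ℂ] (∀ i, M i) := LinearMap.pi (fun i => (p i).subtype ∘ₗ LinearMap.proj i)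
  have h : Submodule.pi Set.univ p = LinearMap.range φ := by
    ext x
    rw [Submodule.mem_pi, LinearMap.mem_range]
    constructor
    · intro hx
      exact ⟨fun i => ⟨x i, hx i trivial⟩, rfl⟩
    · rintro ⟨y, rfl⟩ i _
      exact (y i).2
  rw [h]
  exact LinearMap.finiteDimensional_range φ

lemma fd_HS (N : ℕ) (j : ℤ) : FiniteDimensional ℂ (HS N j) := by
  by_cases h : 0 ≤ j
  · have h1 : HS N j = V (Fin N) j.toNat := if_pos h
    rw [h1]
    infer_instance
  · have h1 : HS N j = ⊥ := if_neg h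
    rw [h1]
    infer_instance

lemma fd_WD {N r s L q : ℕ} (X : Mat N r s L) (a : Fin r → Fin s → ℕ) (u : Fin q → Fin r)
    (I : Fin r → Finset (Fin s)) (D : ℤ) : FiniteDimensional ℂ (WD X a u I D) := by
  have h1 : FiniteDimensional ℂ (Dom N L a u D) :=
    fd_pi _ (fun p => fd_pi _ (fun i => fd_pi _ (fun _ => fd_HS N _)))
  unfold WD
  infer_instance

lemma finrank_V_card (N e : ℕ) : Module.finrank ℂ (V (Fin N) e) =
    ((Finset.univ : Finset (Fin N)).finsuppAntidiag e).card := by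
  rw [finrank_V, Finset.card_finsuppAntidiag_nat_eq_choose]
  simp

/-- the injections -/
lemma exists_lam {s L : ℕ} (J : Finset (Fin s)) (h : J.card ≤ L + 1) :
    ∃ lam : Fin s → Fin (L + 1), Set.InjOn lam (J : Set (Fin s)) := by
  classical
  refine ⟨fun i => if hi : i ∈ J then Fin.castLE h (J.equivFin ⟨i, hi⟩) else 0, ?_⟩
  intro i hi j hj hij
  have hi' : i ∈ J := hi
  have hj' : j ∈ J := hj
  simp only [dif_pos hi', dif_pos hj'] at hij
  have h2 := J.equivFin.injective (Fin.castLE_injective h hij)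
  exact congrArg Subtype.val h2

/-- congruence modulo `X^(D+1)` -/
lemma coeff_congr {q : ℕ} (D : ℕ) (f g : Fin q → PowerSeries ℤ) (w : PowerSeries ℤ)
    (h : ∀ p, (PowerSeries.X : PowerSeries ℤ) ^ (D + 1) ∣ f p - g p) :
    PowerSeries.coeff D ((∏ p, f p) * w) = PowerSeries.coeff D ((∏ p, g p) * w) := by
  have h1 : ∀ p, Ideal.Quotient.mk (Ideal.span {(PowerSeries.X : PowerSeries ℤ) ^ (D + 1)}) (f p) =
      Ideal.Quotient.mk (Ideal.span {(PowerSeries.X : PowerSeries ℤ) ^ (D + 1)}) (g p) := by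
    intro p
    rw [Ideal.Quotient.eq, Ideal.mem_span_singleton]
    exact h p
  have h2 : Ideal.Quotient.mk (Ideal.span {(PowerSeries.X : PowerSeries ℤ) ^ (D + 1)})
      ((∏ p, f p) * w) =
      Ideal.Quotient.mk (Ideal.span {(PowerSeries.X : PowerSeries ℤ) ^ (D + 1)})
      ((∏ p, g p) * w) := by
    rw [map_mul, map_mul, map_prod, map_prod]
    simp_rw [h1]
  rw [Ideal.Quotient.eq, Ideal.mem_span_singleton, PowerSeries.X_pow_dvd_iff] at h2
  have h3 := h2 D (Nat.lt_succ_self D)
  rw [map_sub, sub_eq_zero] at h3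
  exact h3

/-- tensors with one monomial entry are linearly independent -/
lemma indep {N L q : ℕ} (B : Finset ((Fin q → Fin (L + 1)) × (Fin N →₀ ℕ)))
    (W : Submodule ℂ (Fn N L q)) [FiniteDimensional ℂ W]
    (hB : ∀ x ∈ B, (Pi.single x.1 (monomial x.2 (1 : ℂ)) : Fn N L q) ∈ W) :
    B.card ≤ Module.finrank ℂ W := by
  classical
  let v : B → W := fun x => ⟨Pi.single x.1.1 (monomial x.1.2 (1 : ℂ)), hB x.1 x.2⟩
  have hv : LinearIndependent ℂ v := by
    apply LinearIndependent.of_comp W.subtype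
    rw [linearIndependent_iff']
    intro S c hc x hx
    have h1 := congrFun hc x.1.1
    have h2 := congrArg (MvPolynomial.coeff x.1.2) h1
    rw [Finset.sum_apply, MvPolynomial.coeff_sum] at h2
    rw [Finset.sum_eq_single x] at h2
    · simpa [v] using h2
    · intro y hy hyx
      by_cases h3 : y.1.1 = x.1.1
      · have h4 : y.1.2 ≠ x.1.2 := fun h => hyx (Subtype.ext (Prod.ext h3 h))
        simp [v, h3, MvPolynomial.coeff_monomial, h4]
      · simp [v, Pi.single_apply, Ne.symm h3]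
    · intro h
      exact absurd hx h
  have := hv.fintype_card_le_finrank
  rwa [Fintype.card_coe] at this

end BASEM

open BASEM in
theorem BASEM.specBASE (hCNT : SpecCNT) : SpecBASE := by
  classical
  intro N L r s a I D hrN hcard
  set J : Fin r → Finset (Fin s) := fun t => (I t).filter (fun i => a t i ≤ D) with hJ
  choose lam hlam using fun t => exists_lam (J t) (hcard t)
  set x : Fin r → Fin N := fun t => Fin.castLE hrN t with hx
  have hxinj : Function.Injective x := Fin.castLE_injective hrN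
  let M : Mat N r s L := fun t i l => if i ∈ J t ∧ lam t i = l then (X (x t)) ^ (a t i) else 0
  refine ⟨M, ?_, ?_⟩
  · intro t i l
    simp only [M]
    split_ifs
    · rw [mem_homogeneousSubmodule]
      exact isHomogeneous_X_pow _ _
    · exact Submodule.zero_mem _
  · intro q u hu I' hI' D' hD'
    -- the bad pairs
    set An := (Finset.univ : Finset (Fin N)).finsuppAntidiag D' with hAn
    have hmemAn : ∀ α, α ∈ An ↔ ∑ v, α v = D' := by
      intro α
      rw [hAn, Finset.mem_finsuppAntidiag]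
      simp
    let bad : (Fin q → Fin (L + 1)) → (Fin N →₀ ℕ) → Prop := fun ν α =>
      ∃ p, ∃ i ∈ I' (u p), i ∈ J (u p) ∧ lam (u p) i = ν p ∧ a (u p) i ≤ α (x (u p))
    set B := ((Finset.univ : Finset (Fin q → Fin (L + 1))) ×ˢ An).filter
      (fun y => bad y.1 y.2) with hB
    have hfd := fd_WD M a u I' D'
    have h1 : B.card ≤ Module.finrank ℂ (WD M a u I' D') := by
      refine indep B _ ?_
      rintro ⟨ν, α⟩ hy
      rw [hB, Finset.mem_filter, Finset.mem_product] at hy
      obtain ⟨⟨-, hα⟩, p0, i0, hi0, hi0J, hlam0, ha0⟩ := hy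
      simp only at hα hlam0 ha0
      rw [hmemAn] at hα
      have hle : a (u p0) i0 ≤ D' := by
        refine le_trans ha0 ?_
        rw [← hα]
        exact Finset.single_le_sum (f := fun v => α v) (fun _ _ => Nat.zero_le _)
          (Finset.mem_univ _)
      set β : Fin N →₀ ℕ := α - Finsupp.single (x (u p0)) (a (u p0) i0) with hβ
      have hβα : Finsupp.single (x (u p0)) (a (u p0) i0) + β = α := by
        rw [hβ, add_tsub_cancel_of_le]
        rw [Finsupp.single_le_iff]
        exact ha0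
      let g : Fin q → Fin s → Fn N L q := fun p i ν' =>
        if p = p0 ∧ i = i0 ∧ ν' = Function.update ν p0 0 then monomial β (1 : ℂ) else 0
      refine Submodule.mem_map.2 ⟨g, ?_, ?_⟩
      · unfold Dom
        rw [Submodule.mem_pi]
        intro p _
        rw [Submodule.mem_pi]
        intro i _
        unfold FH
        rw [Submodule.mem_pi]
        intro ν' _
        by_cases hc : p = p0 ∧ i = i0 ∧ ν' = Function.update ν p0 0
        · simp only [g, if_pos hc]
          obtain ⟨rfl, rfl, -⟩ := hc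
          have h0 : (0 : ℤ) ≤ (D' : ℤ) - a (u p) i := by
            rw [sub_nonneg]
            exact_mod_cast hle
          unfold HS
          rw [if_pos h0, mem_homogeneousSubmodule]
          apply isHomogeneous_monomial
          have h5 : ((D' : ℤ) - a (u p) i).toNat = D' - a (u p) i := by omega
          rw [h5, Finsupp.degree_eq_sum]
          have h6 : ∑ v, α v = a (u p) i + ∑ v, β v := by
            rw [← hβα]
            simp only [Finsupp.add_apply, Finset.sum_add_distrib]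
            congr 1
            rw [Finset.sum_eq_single (x (u p))]
            · simp
            · intro b _ hb
              simp [Ne.symm hb]
            · intro h
              exact absurd (Finset.mem_univ _) h
          omega
        · simp only [g, if_neg hc]
          exact Submodule.zero_mem _
      · funext ν'
        change ∑ p, ∑ i ∈ I' (u p), M (u p) i (ν' p) * g p i (Function.update ν' p 0) = _
        rw [Finset.sum_eq_single p0, Finset.sum_eq_single i0]
        · simp only [M, g, true_and]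
          by_cases hν : ν' = ν
          · subst hν
            rw [if_pos ⟨hi0J, hlam0⟩, if_pos rfl, Pi.single_eq_same, X_pow_eq_monomial,
              monomial_mul, hβα, one_mul]
          · rw [Pi.single_eq_of_ne hν]
            by_cases h7 : lam (u p0) i0 = ν' p0
            · have h9 : ¬ (Function.update ν' p0 0 = Function.update ν p0 0) := by
                intro h8
                apply hν
                funext p
                by_cases hp : p = p0
                · subst hp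
                  rw [← h7, hlam0]
                · have := congrFun h8 p
                  rwa [Function.update_of_ne hp, Function.update_of_ne hp] at this
              rw [if_neg h9, mul_zero]
            · rw [if_neg (fun h => h7 h.2), zero_mul]
        · intro i _ hi
          simp only [g]
          rw [if_neg (fun h => hi h.2.1), mul_zero]
        · intro h
          exact absurd hi0 h
        · intro p _ hp
          refine Finset.sum_eq_zero (fun i _ => ?_)
          simp only [g]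
          rw [if_neg (fun h => hp h.1), mul_zero]
        · intro h
          exact absurd (Finset.mem_univ _) h
    -- counting
    set G := ((Finset.univ : Finset (Fin q → Fin (L + 1))) ×ˢ An).filter
      (fun y => ¬ bad y.1 y.2) with hG
    have h2 : B.card + G.card = (L + 1) ^ q * Module.finrank ℂ (V (Fin N) D') := by
      rw [hB, hG, Finset.card_filter_add_card_filter_not, Finset.card_product, finrank_V_card]
      simp [hAn]
    have h3 : (((L + 1) ^ q * Module.finrank ℂ (V (Fin N) D') : ℕ) : ℤ) -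
        (Module.finrank ℂ (WD M a u I' D') : ℤ) ≤ (G.card : ℤ) := by
      rw [← h2]
      push_cast
      have : (B.card : ℤ) ≤ Module.finrank ℂ (WD M a u I' D') := by exact_mod_cast h1
      linarith
    refine le_trans h3 (le_of_eq ?_)
    -- the bounds `c`
    have hc : ∀ ν : Fin q → Fin (L + 1), ∀ p, ∃ c : ℕ,
        (∀ α ∈ An, (α (x (u p)) < c ↔ ∀ i ∈ I' (u p), i ∈ J (u p) → lam (u p) i = ν p →
          α (x (u p)) < a (u p) i)) ∧
        (PowerSeries.X : PowerSeries ℤ) ^ (D' + 1) ∣ (1 - (PowerSeries.X : PowerSeries ℤ) ^ c) -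
          (1 - ∑ i ∈ ((I' (u p)).filter (fun i => i ∈ J (u p))).filter
            (fun i => lam (u p) i = ν p), (PowerSeries.X : PowerSeries ℤ) ^ (a (u p) i)) := by
      intro ν p
      by_cases h : ∃ i ∈ I' (u p), i ∈ J (u p) ∧ lam (u p) i = ν p
      · obtain ⟨i, hi1, hi2, hi3⟩ := h
        have huniq : ∀ i' ∈ I' (u p), i' ∈ J (u p) → lam (u p) i' = ν p → i' = i := by
          intro i' _ h2 h3
          exact hlam (u p) h2 hi2 (by rw [h3, hi3])
        refine ⟨a (u p) i, ?_, ?_⟩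
        · intro α _
          constructor
          · intro h i' h1 h2 h3
            rw [huniq i' h1 h2 h3]
            exact h
          · intro h
            exact h i hi1 hi2 hi3
        · have h4 : ((I' (u p)).filter (fun i => i ∈ J (u p))).filter
            (fun i => lam (u p) i = ν p) = {i} := by
            ext i'
            simp only [Finset.mem_filter, Finset.mem_singleton]
            constructor
            · rintro ⟨⟨h1, h2⟩, h3⟩
              exact huniq i' h1 h2 h3
            · rintro rfl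
              exact ⟨⟨hi1, hi2⟩, hi3⟩
          rw [h4, Finset.sum_singleton, sub_self]
          exact dvd_zero _
      · refine ⟨D' + 1, ?_, ?_⟩
        · intro α hα
          constructor
          · intro _ i' h1 h2 h3
            exact absurd ⟨i', h1, h2, h3⟩ h
          · intro _
            rw [hmemAn] at hα
            rw [← hα]
            exact Nat.lt_succ_of_le (Finset.single_le_sum (f := fun v => α v)
              (fun _ _ => Nat.zero_le _) (Finset.mem_univ _))
        · have h4 : ((I' (u p)).filter (fun i => i ∈ J (u p))).filter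
            (fun i => lam (u p) i = ν p) = ∅ := by
            ext i'
            simp only [Finset.mem_filter, Finset.notMem_empty, iff_false]
            rintro ⟨⟨h1, h2⟩, h3⟩
            exact h ⟨i', h1, h2, h3⟩
          rw [h4, Finset.sum_empty, sub_zero]
          exact ⟨-1, by ring⟩
    choose c hc1 hc2 using hc
    have h4 : G.card = ∑ ν : Fin q → Fin (L + 1),
        (An.filter (fun α => ∀ p, α ((x ∘ u) p) < c ν p)).card := by
      rw [hG, Finset.card_filter, Finset.sum_product]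
      refine Finset.sum_congr rfl (fun ν _ => ?_)
      rw [Finset.card_filter]
      refine Finset.sum_congr rfl (fun α hα => ?_)
      have h5 : (¬ bad ν α) ↔ ∀ p, α ((x ∘ u) p) < c ν p := by
        simp only [bad, not_exists, not_and, not_le, Function.comp_apply]
        constructor
        · intro h p
          exact (hc1 ν p α hα).2 (h p)
        · intro h p
          exact (hc1 ν p α hα).1 (h p)
      simp only [h5]
    rw [h4, Nat.cast_sum]
    have h5 : ∀ ν : Fin q → Fin (L + 1),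
        (((An.filter (fun α => ∀ p, α ((x ∘ u) p) < c ν p)).card : ℕ) : ℤ) =
        PowerSeries.coeff D' ((∏ p, (1 - ∑ i ∈ ((I' (u p)).filter (fun i => i ∈ J (u p))).filter
            (fun i => lam (u p) i = ν p), (PowerSeries.X : PowerSeries ℤ) ^ (a (u p) i))) *
          (PowerSeries.invOneSubPow ℤ N).val) := by
      intro ν
      rw [hAn, hCNT N q (x ∘ u) (hxinj.comp hu) (c ν) D']
      exact coeff_congr D' _ _ _ (hc2 ν)
    rw [Finset.sum_congr rfl (fun ν _ => h5 ν), ← map_sum, ← Finset.sum_mul]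
    have h6 : ∑ ν : Fin q → Fin (L + 1), ∏ p,
        (1 - ∑ i ∈ ((I' (u p)).filter (fun i => i ∈ J (u p))).filter
            (fun i => lam (u p) i = ν p), (PowerSeries.X : PowerSeries ℤ) ^ (a (u p) i)) =
        ∏ p, (((L + 1 : ℕ) : PowerSeries ℤ) -
          ∑ i ∈ (I' (u p)).filter (fun i => i ∈ J (u p)),
            (PowerSeries.X : PowerSeries ℤ) ^ (a (u p) i)) := by
      have h7 := Finset.prod_univ_sum (fun _ : Fin q => (Finset.univ : Finset (Fin (L + 1))))
        (fun p l => (1 - ∑ i ∈ ((I' (u p)).filter (fun i => i ∈ J (u p))).filter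
            (fun i => lam (u p) i = l), (PowerSeries.X : PowerSeries ℤ) ^ (a (u p) i)))
      rw [Fintype.piFinset_univ] at h7
      rw [← h7]
      refine Finset.prod_congr rfl (fun p _ => ?_)
      rw [Finset.sum_sub_distrib, Finset.sum_fiberwise]
      simp
    rw [h6]
    unfold expc
    apply coeff_congr
    intro p
    have h8 : ((L + 1 : ℕ) : PowerSeries ℤ) - ∑ i ∈ (I' (u p)).filter (fun i => i ∈ J (u p)),
            (PowerSeries.X : PowerSeries ℤ) ^ (a (u p) i) -
          (((L + 1 : ℕ) : PowerSeries ℤ) - ∑ i ∈ I' (u p), (PowerSeries.X : PowerSeries ℤ) ^ (a (u p) i)) =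
        ∑ i ∈ (I' (u p)).filter (fun i => ¬ i ∈ J (u p)),
            (PowerSeries.X : PowerSeries ℤ) ^ (a (u p) i) := by
      rw [← Finset.sum_filter_add_sum_filter_not (I' (u p)) (fun i => i ∈ J (u p))]
      ring
    rw [h8]
    refine Finset.dvd_sum (fun i hi => ?_)
    rw [Finset.mem_filter] at hi
    apply pow_dvd_pow
    have h9 : ¬ a (u p) i ≤ D := by
      intro h
      apply hi.2
      rw [hJ, Finset.mem_filter]
      exact ⟨hI' _ hi.1, h⟩
    omega

end FrI
end

section
/-!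
# MP_921642_ag, FI: module BRIG
-/
set_option autoImplicit false

namespace FrI.BRIGM

open MvPolynomial Pool.Agent.Lib.MP_921642_ag FrI

/-- expected dimension as a function of the number of slots -/
noncomputable def EE (N L k a q : ℕ) (j : ℤ) : ℤ :=
  if 0 ≤ j then PowerSeries.coeff j.toNat
    (((((L + 1 : ℕ) : PowerSeries ℤ) - (k : ℕ) • (PowerSeries.X : PowerSeries ℤ) ^ a) ^ q) *
      (PowerSeries.invOneSubPow ℤ N).val) else 0

lemma EE_neg (N L k a q : ℕ) (j : ℤ) (hj : j < 0) : EE N L k a q j = 0 :=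
  if_neg (by omega)

lemma EE_zero (N L k a : ℕ) (j : ℕ) :
    EE N L k a 0 j = Module.finrank ℂ (V (Fin N) j) := by
  unfold EE
  rw [if_pos (by positivity), finrank_V, Fintype.card_fin]
  simp only [pow_zero, one_mul, Int.toNat_natCast]
  rcases N with _ | N
  · rw [PowerSeries.invOneSubPow_zero]
    rcases j with _ | j
    · simp
    · simp [PowerSeries.coeff_one]
  · rw [PowerSeries.invOneSubPow_val_succ_eq_mk_add_choose, PowerSeries.coeff_mk]
    have h1 : N + 1 + j - 1 = N + j := by omega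
    rw [h1, Nat.choose_symm_add]

lemma EE_succ (N L k a q : ℕ) (j : ℤ) :
    EE N L k a (q + 1) j = ((L + 1 : ℕ) : ℤ) * EE N L k a q j - (k : ℤ) * EE N L k a q (j - a) := by
  unfold EE
  set P := (((L + 1 : ℕ) : PowerSeries ℤ) - (k : ℕ) • (PowerSeries.X : PowerSeries ℤ) ^ a) with hP
  set W := P ^ q * (PowerSeries.invOneSubPow ℤ N).val with hW
  have e : P ^ (q + 1) * (PowerSeries.invOneSubPow ℤ N).val =
      (L + 1 : ℕ) • W - (k : ℕ) • (PowerSeries.X ^ a * W) := by
    have : P ^ (q + 1) * (PowerSeries.invOneSubPow ℤ N).val = P * W := by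
      rw [hW, pow_succ]; ring
    rw [this, hP, sub_mul, nsmul_eq_mul, nsmul_eq_mul, nsmul_eq_mul]
    ring
  by_cases h1 : 0 ≤ j
  · obtain ⟨n, rfl⟩ := Int.eq_ofNat_of_zero_le h1
    rw [if_pos h1, if_pos h1, e, map_sub, map_nsmul, map_nsmul]
    simp only [nsmul_eq_mul, Int.toNat_natCast]
    rw [PowerSeries.coeff_X_pow_mul']
    by_cases h2 : a ≤ n
    · have h3 : (0 : ℤ) ≤ (n : ℤ) - a := by omega
      have h4 : ((n : ℤ) - a).toNat = n - a := by omega
      rw [if_pos h2, if_pos h3, h4]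
    · have h3 : ¬ (0 : ℤ) ≤ (n : ℤ) - a := by omega
      rw [if_neg h2, if_neg h3]
  · have h2 : ¬ 0 ≤ j - a := by omega
    rw [if_neg h1, if_neg h1, if_neg h2]
    ring

lemma card_filter (s k : ℕ) (hk : k ≤ s) :
    (Finset.univ.filter (fun i : Fin s => (i : ℕ) < k)).card = k := by
  have h : (Finset.univ.filter (fun i : Fin s => (i : ℕ) < k)) =
      (Finset.univ : Finset (Fin k)).map (Fin.castLEEmb hk) := by
    ext i
    simp only [Finset.mem_filter, Finset.mem_univ, true_and, Finset.mem_map, Fin.castLEEmb_apply]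
    constructor
    · intro hi
      exact ⟨⟨i, hi⟩, rfl⟩
    · rintro ⟨x, rfl⟩
      exact x.2
  rw [h, Finset.card_map, Finset.card_univ, Fintype.card_fin]

lemma expc_eq (N L a r s k q : ℕ) (hk : k ≤ s) (u : Fin q → Fin r) (D : ℕ) :
    expc N L (fun (_ : Fin r) (_ : Fin s) => a) u
      (fun _ => Finset.univ.filter (fun i : Fin s => (i : ℕ) < k)) D = EE N L k a q D := by
  unfold expc EE
  rw [if_pos (by positivity)]
  simp only [Finset.sum_const, card_filter s k hk, Finset.prod_const, Finset.card_univ,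
    Fintype.card_fin, Int.toNat_natCast]

theorem specBRIG (h1 : SpecBRK) (h2 : SpecBRT) : SpecBRIG := by
  intro N r s L a D M hM hG k hk Vs hVs
  set CC := PS N r k L a (fun t i l => M t (Fin.castLE hk i) l) (fun _ _ _ => hM _ _ _) with hCC
  -- finite dimensionality
  have hfd : ∀ (us : List (Fin r)) (j : ℤ), FiniteDimensional ℂ ((cokL CC us).gr j) := by
    intro us j
    rcases lt_or_ge j 0 with hj | hj
    · rw [(h1 N r s L a M hM k hk us).1 j hj]
      infer_instance
    · obtain ⟨n, rfl⟩ := Int.eq_ofNat_of_zero_le hj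
      exact ((h1 N r s L a M hM k hk us).2 n).1
  have hneg : ∀ (us : List (Fin r)) (j : ℤ), j < 0 →
      Module.finrank ℂ ((cokL CC us).gr j) = 0 := by
    intro us j hj
    rw [(h1 N r s L a M hM k hk us).1 j hj]
    exact finrank_bot ℂ _
  have hle : ∀ us : List (Fin r), us.Nodup → ∀ j : ℤ, j ≤ D →
      (Module.finrank ℂ ((cokL CC us).gr j) : ℤ) ≤ EE N L k a us.length j := by
    intro us hus j hj
    rcases lt_or_ge j 0 with hj0 | hj0
    · rw [hneg us j hj0, EE_neg _ _ _ _ _ _ hj0]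
      simp
    · obtain ⟨n, rfl⟩ := Int.eq_ofNat_of_zero_le hj0
      have h3 := ((h1 N r s L a M hM k hk us).2 n).2
      have h4 := hG us.length us.get (List.nodup_iff_injective_get.1 hus)
        (fun _ => Finset.univ.filter (fun i : Fin s => (i : ℕ) < k))
        (fun _ => Finset.filter_subset _ _) n (by exact_mod_cast hj)
      rw [expc_eq N L a r s k _ hk] at h4
      have h5 : ((Module.finrank ℂ ((cokL CC us).gr (n : ℤ)) : ℕ) : ℤ) +
          (Module.finrank ℂ (WD M (fun _ _ => a) us.get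
            (fun _ => Finset.univ.filter (fun i : Fin s => (i : ℕ) < k)) (n : ℤ)) : ℕ) =
          (((L + 1) ^ us.length * Module.finrank ℂ (V (Fin N) n) : ℕ) : ℤ) := by
        exact_mod_cast h3
      linarith
  -- equality of dimensions
  have heq : ∀ us : List (Fin r), us.Nodup → ∀ j : ℤ, j ≤ D →
      (Module.finrank ℂ ((cokL CC us).gr j) : ℤ) = EE N L k a us.length j := by
    intro us
    induction us with
    | nil =>
      intro _ j hj
      rcases lt_or_ge j 0 with hj0 | hj0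
      · rw [hneg [] j hj0, EE_neg _ _ _ _ _ _ hj0]
        simp
      · obtain ⟨n, rfl⟩ := Int.eq_ofNat_of_zero_le hj0
        have h3 := ((h1 N r s L a M hM k hk []).2 n).2
        have h4 : WD M (fun _ _ => a) (List.get ([] : List (Fin r)))
            (fun _ => Finset.univ.filter (fun i : Fin s => (i : ℕ) < k)) (n : ℤ) = ⊥ := by
          rw [eq_bot_iff]
          rintro _ ⟨g, _, rfl⟩
          rw [Submodule.mem_bot]
          funext ν
          simp [Psi]
        rw [h4, finrank_bot] at h3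
        simp only [add_zero, List.length_nil, pow_zero, one_mul] at h3
        rw [List.length_nil, EE_zero, ← h3]
    | cons t us ih =>
      intro hn j hj
      have hus : us.Nodup := (List.nodup_cons.1 hn).2
      refine le_antisymm (hle _ hn j hj) ?_
      have h3 := (h2 r k L a (cokL CC us) t (j - a) (hfd us _) (hfd us _)).2.1
      rw [sub_add_cancel] at h3
      have h4 := ih hus j hj
      have h5 := ih hus (j - a) (by omega)
      have h6 : (((L + 1 : ℕ) : ℤ)) * (Module.finrank ℂ ((cokL CC us).gr j) : ℤ) ≤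
          (k : ℤ) * (Module.finrank ℂ ((cokL CC us).gr (j - a)) : ℤ) +
            (Module.finrank ℂ (((cokL CC us).cok t).gr j) : ℤ) := by
        exact_mod_cast h3
      rw [h4, h5] at h6
      rw [List.length_cons, EE_succ]
      have h7 : cokL CC (t :: us) = (cokL CC us).cok t := rfl
      rw [h7]
      linarith
  -- injectivity
  have hinj : ∀ (t : Fin r) (us : List (Fin r)), (t :: us).Nodup → Inj (cokL CC us) t D := by
    intro t us hn j hj u hu1 hu2
    have hus : us.Nodup := (List.nodup_cons.1 hn).2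
    refine (h2 r k L a (cokL CC us) t j (hfd us _) (hfd us _)).2.2 ?_ u hu1 hu2
    have h4 := heq us hus (j + a) hj
    have h5 := heq us hus j (by omega)
    have h6 := heq (t :: us) hn (j + a) hj
    have h7 : cokL CC (t :: us) = (cokL CC us).cok t := rfl
    rw [h7, List.length_cons, EE_succ, add_sub_cancel_right, ← h4, ← h5] at h6
    have h8 : (k : ℤ) * (Module.finrank ℂ ((cokL CC us).gr j) : ℤ) +
        (Module.finrank ℂ (((cokL CC us).cok t).gr (j + a)) : ℤ) ≤
        (((L + 1 : ℕ) : ℤ)) * (Module.finrank ℂ ((cokL CC us).gr (j + a)) : ℤ) := by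
      linarith
    exact_mod_cast h8
  have hAC : ∀ (Vs us : List (Fin r)), (Vs ++ us).Nodup → AC Vs (cokL CC us) D := by
    intro Vs
    induction Vs with
    | nil => intro us _; trivial
    | cons t Vs ih =>
      intro us hn
      have hn' : (t :: (Vs ++ us)).Nodup := hn
      obtain ⟨ht, hn2⟩ := List.nodup_cons.1 hn'
      rw [List.mem_append, not_or] at ht
      have hus : us.Nodup := (List.nodup_append.1 hn2).2.1
      refine ⟨hinj t us (List.nodup_cons.2 ⟨ht.2, hus⟩), ih us hn2, ?_⟩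
      have h3 : (Vs ++ t :: us).Nodup := by
        rw [List.nodup_middle]
        exact hn'
      exact ih (t :: us) h3
  have h9 := hAC Vs [] (by simpa using hVs)
  exact h9

end FrI.BRIGM
end

section
/-!
# MP_921642_ag, FI: the iterated cokernels of the polynomial system
-/
set_option autoImplicit false

namespace FrI

open MvPolynomial Pool.Agent.Lib.MP_921642_ag

namespace BRKM

variable {N r k L a : ℕ}

/-- the presentation of the iterated cokernel -/
noncomputable def mk (M : Mat N r k L) (hM : ∀ t i l, M t i l ∈ V (Fin N) a) :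
    (us : List (Fin r)) → (Fn N L us.length →ₗ[ℂ] (cokL (PS N r k L a M hM) us).C)
  | [] => (LinearMap.proj (default : Fin 0 → Fin (L + 1)) : (Fn N L 0) →ₗ[ℂ] Po N)
  | t :: us => (LinearMap.range ((cokL (PS N r k L a M hM) us).rel t)).mkQ ∘ₗ
      LinearMap.pi (fun l => (mk M hM us) ∘ₗ
        (LinearMap.funLeft ℂ (Po N)
          (fun ν => (Fin.cons l ν : Fin (us.length + 1) → Fin (L + 1)))))

lemma mk_nil (M : Mat N r k L) (hM : ∀ t i l, M t i l ∈ V (Fin N) a) (G : Fn N L 0) :
    mk M hM [] G = G default := rfl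

lemma mk_cons (M : Mat N r k L) (hM : ∀ t i l, M t i l ∈ V (Fin N) a) (t : Fin r)
    (us : List (Fin r)) (G : Fn N L (us.length + 1)) :
    mk M hM (t :: us) G = (LinearMap.range ((cokL (PS N r k L a M hM) us).rel t)).mkQ
      (fun l => mk M hM us (fun ν => G (Fin.cons l ν))) := rfl

lemma mk_cons_eq_zero (M : Mat N r k L) (hM : ∀ t i l, M t i l ∈ V (Fin N) a) (t : Fin r)
    (us : List (Fin r)) (G : Fn N L (us.length + 1)) :
    mk M hM (t :: us) G = 0 ↔ ∃ u, (cokL (PS N r k L a M hM) us).rel t u =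
      (fun l => mk M hM us (fun ν => G (Fin.cons l ν))) :=
  (Submodule.Quotient.mk_eq_zero _).trans LinearMap.mem_range

lemma mk_surj (M : Mat N r k L) (hM : ∀ t i l, M t i l ∈ V (Fin N) a) (us : List (Fin r)) :
    Function.Surjective (mk M hM us) := by
  induction us with
  | nil =>
    intro c
    exact ⟨fun _ => c, rfl⟩
  | cons t us ih =>
    intro c
    obtain ⟨c, rfl⟩ := Submodule.mkQ_surjective _ c
    choose G hG using fun l => ih (c l)
    refine ⟨fun ν => G (ν 0) (Fin.tail ν), ?_⟩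
    rw [mk_cons]
    congr 1
    funext l
    rw [← hG l]
    congr 1

lemma mk_π (M : Mat N r k L) (hM : ∀ t i l, M t i l ∈ V (Fin N) a) (us : List (Fin r)) (j : ℤ)
    (G : Fn N L us.length) :
    (cokL (PS N r k L a M hM) us).π j (mk M hM us G) = mk M hM us (fun ν => prj N j (G ν)) := by
  induction us with
  | nil => rfl
  | cons t us ih =>
    rw [mk_cons, mk_cons]
    show Submodule.mapQ _ _ (coord (L + 1) ((cokL (PS N r k L a M hM) us).π j))
      ((cokL (PS N r k L a M hM) us).coordπ_mem t j) _ = _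
    rw [Submodule.mkQ_apply, Submodule.mapQ_apply, Submodule.mkQ_apply]
    congr 1
    funext l
    rw [coord_apply]
    exact ih _

lemma mk_X (M : Mat N r k L) (hM : ∀ t i l, M t i l ∈ V (Fin N) a) (us : List (Fin r))
    (t' : Fin r) (i : Fin k) (l' : Fin (L + 1)) (G : Fn N L us.length) :
    (cokL (PS N r k L a M hM) us).X t' i l' (mk M hM us G) =
      mk M hM us (fun ν => M t' i l' * G ν) := by
  induction us with
  | nil => rfl
  | cons t us ih =>
    rw [mk_cons, mk_cons]
    show Submodule.mapQ _ _ (coord (L + 1) ((cokL (PS N r k L a M hM) us).X t' i l'))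
      ((cokL (PS N r k L a M hM) us).coordX_mem t t' i l') _ = _
    rw [Submodule.mkQ_apply, Submodule.mapQ_apply, Submodule.mkQ_apply]
    congr 1
    funext l
    rw [coord_apply]
    exact ih _

/-- the relation map with all rows -/
lemma Psi_apply {q : ℕ} (M : Mat N r k L) (u : Fin q → Fin r) (g : Fin q → Fin k → Fn N L q)
    (ν : Fin q → Fin (L + 1)) : Psi M u (fun _ => Finset.univ) g ν =
      ∑ p, ∑ i, M (u p) i (ν p) * g p i (Function.update ν p 0) := rfl

lemma ker_mk (M : Mat N r k L) (hM : ∀ t i l, M t i l ∈ V (Fin N) a) (us : List (Fin r))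
    (G : Fn N L us.length) :
    mk M hM us G = 0 ↔ ∃ g, Psi M us.get (fun _ => Finset.univ) g = G := by
  induction us with
  | nil =>
    constructor
    · intro h
      refine ⟨fun p => p.elim0, ?_⟩
      funext ν
      rw [Psi_apply]
      have : ν = default := funext (fun p => p.elim0)
      rw [this]
      rw [mk_nil] at h
      rw [h]
      exact Finset.sum_eq_zero (fun p _ => p.elim0)
    · rintro ⟨g, rfl⟩
      rw [mk_nil, Psi_apply]
      exact Finset.sum_eq_zero (fun p _ => p.elim0)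
  | cons t us ih =>
    have hsum : ∀ (h : Fin k → Fn N L us.length) (l : Fin (L + 1)),
        ∑ i, (cokL (PS N r k L a M hM) us).X t i l (mk M hM us (h i)) =
          mk M hM us (fun ν => ∑ i, M t i l * h i ν) := by
      intro h l
      rw [Finset.sum_congr rfl (fun i _ => mk_X M hM us t i l (h i)), ← map_sum]
      congr 1
      funext ν
      rw [Finset.sum_apply]
    refine (mk_cons_eq_zero M hM t us G).trans ?_
    constructor
    · rintro ⟨u, hu⟩
      choose h hh using fun i => mk_surj M hM us (u i)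
      have h1 : ∀ l, ∃ g, Psi M us.get (fun _ => Finset.univ) g =
          (fun ν => G (Fin.cons l ν)) - (fun ν => ∑ i, M t i l * h i ν) := by
        intro l
        rw [← ih, map_sub, ← hsum h l, sub_eq_zero]
        have h2 := congrFun hu l
        rw [Sys.rel_apply] at h2
        rw [← h2]
        exact Finset.sum_congr rfl (fun i _ => by rw [hh])
      choose g hg using h1
      refine ⟨Fin.cons (fun i ν => h i (Fin.tail ν)) (fun p i ν => g (ν 0) p i (Fin.tail ν)), ?_⟩
      funext ν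
      have h3 := congrFun (hg (ν 0)) (Fin.tail ν)
      rw [Psi_apply, Pi.sub_apply, Fin.cons_self_tail] at h3
      rw [Psi_apply]
      erw [Fin.sum_univ_succ]
      simp only [Fin.cons_zero, Fin.cons_succ]
      have h4 : Fin.tail (Function.update ν 0 0) = Fin.tail ν := Fin.tail_update_zero _ _
      have h5 : ∀ p : Fin us.length, Fin.tail (Function.update ν p.succ 0) =
          Function.update (Fin.tail ν) p 0 := fun p => Fin.tail_update_succ _ _ _
      have h6 : ∀ p : Fin us.length, Function.update ν p.succ 0 0 = ν 0 := by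
        intro p
        rw [Function.update_of_ne]
        exact (Fin.succ_ne_zero p).symm
      simp only [h4, h5, h6]
      rw [eq_sub_iff_add_eq, add_comm] at h3
      exact h3
    · rintro ⟨g, rfl⟩
      refine ⟨fun i => mk M hM us (fun ν => g 0 i (Fin.cons 0 ν)), ?_⟩
      funext l
      rw [Sys.rel_apply, hsum (fun i ν => g 0 i (Fin.cons 0 ν)) l]
      have h1 : mk M hM us (Psi M us.get (fun _ => Finset.univ)
          (fun p i ν => g p.succ i (Fin.cons l ν))) = 0 := (ih _).2 ⟨_, rfl⟩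
      rw [← add_zero (mk M hM us _), ← h1, ← map_add]
      congr 1
      funext ν
      rw [Pi.add_apply, Psi_apply, Psi_apply]
      erw [Fin.sum_univ_succ]
      have h4 : Function.update (Fin.cons l ν : Fin (us.length + 1) → Fin (L + 1)) 0 0 =
          Fin.cons 0 ν := Fin.update_cons_zero _ _ _
      have h5 : ∀ p : Fin us.length, Function.update
          (Fin.cons l ν : Fin (us.length + 1) → Fin (L + 1)) p.succ 0 =
          Fin.cons l (Function.update ν p 0) := fun p => (Fin.cons_update _ _ _ _).symm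
      simp only [h4, h5, Fin.cons_zero, Fin.cons_succ]
      rfl

/-! ### degrees -/

lemma prj_mem (j : ℤ) (c : Po N) : prj N j c ∈ HS N j := by
  unfold prj HS
  split_ifs with h
  · exact (mem_homogeneousSubmodule _ _).2 (homogeneousComponent_isHomogeneous _ _)
  · simp

lemma prj_of_mem {j : ℤ} {c : Po N} (hc : c ∈ HS N j) : prj N j c = c := by
  unfold HS at hc
  unfold prj
  split_ifs with h
  · rw [if_pos h] at hc
    exact (homogeneousComponent_of_mem hc).trans (if_pos rfl)
  · rw [if_neg h, Submodule.mem_bot] at hc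
    rw [hc, map_zero]

lemma mem_FH {q : ℕ} {j : ℤ} {G : Fn N L q} : G ∈ FH N L q j ↔ ∀ ν, G ν ∈ HS N j := by
  unfold FH
  rw [Submodule.mem_pi]
  exact ⟨fun h ν => h ν (Set.mem_univ _), fun h ν _ => h ν⟩

lemma mem_Dom {q s : ℕ} {b : Fin r → Fin s → ℕ} {u : Fin q → Fin r} {D : ℤ}
    {g : Fin q → Fin s → Fn N L q} :
    g ∈ Dom N L b u D ↔ ∀ p i, g p i ∈ FH N L q (D - b (u p) i) := by
  unfold Dom
  rw [Submodule.mem_pi]
  constructor
  · intro h p i
    have h1 := h p (Set.mem_univ _)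
    rw [Submodule.mem_pi] at h1
    exact h1 i (Set.mem_univ _)
  · intro h p _
    rw [Submodule.mem_pi]
    exact fun i _ => h p i

lemma prj_Psi {q : ℕ} (M : Mat N r k L) (hM : ∀ t i l, M t i l ∈ V (Fin N) a)
    (u : Fin q → Fin r) (j : ℤ) (g : Fin q → Fin k → Fn N L q) :
    (fun ν => prj N j (Psi M u (fun _ => Finset.univ) g ν)) =
      Psi M u (fun _ => Finset.univ) (fun p i ν => prj N (j - a) (g p i ν)) := by
  funext ν
  rw [Psi_apply, Psi_apply, map_sum]
  refine Finset.sum_congr rfl (fun p _ => ?_)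
  rw [map_sum]
  refine Finset.sum_congr rfl (fun i _ => ?_)
  rw [← prj_mul N a _ (hM _ _ _), sub_add_cancel]

/-- the relations of degree `j` are the relations in the tensors of degree `j` -/
lemma mem_WD {q : ℕ} (M : Mat N r k L) (hM : ∀ t i l, M t i l ∈ V (Fin N) a)
    (u : Fin q → Fin r) (j : ℤ) (G : Fn N L q) :
    G ∈ WD M (fun _ _ => a) u (fun _ => Finset.univ) j ↔
      G ∈ FH N L q j ∧ ∃ g, Psi M u (fun _ => Finset.univ) g = G := by
  constructor
  · rintro ⟨g, hg, rfl⟩
    refine ⟨?_, g, rfl⟩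
    rw [SetLike.mem_coe, mem_Dom] at hg
    have h1 : (fun p i ν => prj N (j - a) (g p i ν)) = g := by
      funext p i ν
      exact prj_of_mem (mem_FH.1 (hg p i) ν)
    have h2 := prj_Psi M hM u j g
    rw [h1] at h2
    rw [mem_FH]
    intro ν
    rw [← congrFun h2 ν]
    exact prj_mem _ _
  · rintro ⟨hG, g, rfl⟩
    refine ⟨fun p i ν => prj N (j - a) (g p i ν), ?_, ?_⟩
    · rw [SetLike.mem_coe, mem_Dom]
      exact fun p i => mem_FH.2 (fun ν => prj_mem _ _)
    · rw [← prj_Psi M hM u j g]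
      funext ν
      exact prj_of_mem (mem_FH.1 hG ν)

lemma gr_eq (M : Mat N r k L) (hM : ∀ t i l, M t i l ∈ V (Fin N) a) (us : List (Fin r)) (j : ℤ) :
    (cokL (PS N r k L a M hM) us).gr j = (FH N L us.length j).map (mk M hM us) := by
  apply le_antisymm
  · rintro _ ⟨c, rfl⟩
    obtain ⟨G, rfl⟩ := mk_surj M hM us c
    refine ⟨fun ν => prj N j (G ν), mem_FH.2 (fun ν => prj_mem _ _), ?_⟩
    rw [mk_π]
  · rintro _ ⟨G, hG, rfl⟩
    refine ⟨mk M hM us G, ?_⟩
    rw [mk_π]
    congr 1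
    funext ν
    exact prj_of_mem (mem_FH.1 hG ν)

/-- tensors of degree `j` -/
noncomputable def eFH (N L q : ℕ) (j : ℤ) : FH N L q j ≃ₗ[ℂ] ((Fin q → Fin (L + 1)) → HS N j) where
  toFun G ν := ⟨G.1 ν, mem_FH.1 G.2 ν⟩
  invFun H := ⟨fun ν => (H ν).1, mem_FH.2 (fun ν => (H ν).2)⟩
  map_add' _ _ := rfl
  map_smul' _ _ := rfl
  left_inv _ := rfl
  right_inv _ := rfl

instance HS_fd (j : ℤ) : FiniteDimensional ℂ (HS N j) := by
  by_cases h : 0 ≤ j
  · have h1 : HS N j = V (Fin N) j.toNat := if_pos h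
    rw [h1]
    infer_instance
  · have h1 : HS N j = ⊥ := if_neg h
    rw [h1]
    infer_instance

instance FH_fd (q : ℕ) (j : ℤ) : FiniteDimensional ℂ (FH N L q j) :=
  (eFH N L q j).symm.finiteDimensional

lemma finrank_HS (j : ℕ) : Module.finrank ℂ (HS N (j : ℤ)) = Module.finrank ℂ (V (Fin N) j) := by
  unfold HS
  rw [if_pos (Int.natCast_nonneg j), Int.toNat_natCast]

lemma finrank_FH (q j : ℕ) : Module.finrank ℂ (FH N L q (j : ℤ)) =
    (L + 1) ^ q * Module.finrank ℂ (V (Fin N) j) := by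
  rw [(eFH N L q j).finrank_eq, Module.finrank_pi_fintype, Finset.sum_const, finrank_HS,
    Finset.card_univ, Fintype.card_fun, Fintype.card_fin, Fintype.card_fin, smul_eq_mul]

lemma dim_eq (M : Mat N r k L) (hM : ∀ t i l, M t i l ∈ V (Fin N) a) (us : List (Fin r)) (j : ℕ) :
    Module.finrank ℂ ((cokL (PS N r k L a M hM) us).gr j) +
      Module.finrank ℂ (WD M (fun _ _ => a) us.get (fun _ => Finset.univ) j) =
      (L + 1) ^ us.length * Module.finrank ℂ (V (Fin N) j) := by
  have h1 := LinearMap.finrank_range_add_finrank_ker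
    ((mk M hM us).domRestrict (FH N L us.length (j : ℤ)))
  have h2 : LinearMap.range ((mk M hM us).domRestrict (FH N L us.length (j : ℤ))) =
      (cokL (PS N r k L a M hM) us).gr j := by
    rw [gr_eq, LinearMap.domRestrict, LinearMap.range_comp, Submodule.range_subtype]
  have h3 : (LinearMap.ker ((mk M hM us).domRestrict (FH N L us.length (j : ℤ)))).map
      (FH N L us.length (j : ℤ)).subtype =
        WD M (fun _ _ => a) us.get (fun _ => Finset.univ) j := by
    ext G
    rw [mem_WD M hM]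
    constructor
    · rintro ⟨⟨G, hG⟩, hk, rfl⟩
      exact ⟨hG, (ker_mk M hM us G).1 hk⟩
    · rintro ⟨hG, hk⟩
      exact ⟨⟨G, hG⟩, (ker_mk M hM us G).2 hk, rfl⟩
  rw [h2, finrank_FH] at h1
  rw [← h3, Submodule.finrank_map_subtype_eq]
  exact h1

/-- the first `k` rows -/
lemma sum_rows {s : ℕ} (hk : k ≤ s) {A : Type*} [AddCommMonoid A] (f : Fin s → A) :
    ∑ i ∈ Finset.univ.filter (fun i : Fin s => (i : ℕ) < k), f i =
      ∑ i : Fin k, f (Fin.castLE hk i) := by
  symm
  apply Finset.sum_bij (fun (i : Fin k) _ => Fin.castLE hk i)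
  · intro i _
    rw [Finset.mem_filter]
    exact ⟨Finset.mem_univ _, i.2⟩
  · intro i _ i' _ h
    exact Fin.castLE_injective hk h
  · intro i hi
    rw [Finset.mem_filter] at hi
    exact ⟨⟨i, hi.2⟩, Finset.mem_univ _, rfl⟩
  · intro i _
    rfl

lemma WD_rows {s q : ℕ} (hk : k ≤ s) (M : Mat N r s L) (b : ℕ) (u : Fin q → Fin r) (j : ℤ) :
    WD M (fun _ _ => b) u (fun _ => Finset.univ.filter (fun i : Fin s => (i : ℕ) < k)) j =
      WD (fun t i l => M t (Fin.castLE hk i) l : Mat N r k L) (fun _ _ => b) u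
        (fun _ => Finset.univ) j := by
  apply le_antisymm
  · rintro _ ⟨g, hg, rfl⟩
    rw [SetLike.mem_coe, mem_Dom] at hg
    refine ⟨fun p i => g p (Fin.castLE hk i), ?_, ?_⟩
    · rw [SetLike.mem_coe, mem_Dom]
      exact fun p i => hg p _
    · funext ν
      show ∑ p : Fin q, ∑ i : Fin k, M (u p) (Fin.castLE hk i) (ν p) *
        g p (Fin.castLE hk i) (Function.update ν p 0) =
        ∑ p : Fin q, ∑ i ∈ Finset.univ.filter (fun i : Fin s => (i : ℕ) < k), M (u p) i (ν p) *
        g p i (Function.update ν p 0)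
      refine Finset.sum_congr rfl (fun p _ => ?_)
      rw [sum_rows hk]
  · rintro _ ⟨g, hg, rfl⟩
    rw [SetLike.mem_coe, mem_Dom] at hg
    refine ⟨fun p i => if h : (i : ℕ) < k then g p ⟨i, h⟩ else 0, ?_, ?_⟩
    · rw [SetLike.mem_coe, mem_Dom]
      intro p i
      split_ifs with h
      · exact hg p _
      · exact Submodule.zero_mem _
    · funext ν
      show ∑ p : Fin q, ∑ i ∈ Finset.univ.filter (fun i : Fin s => (i : ℕ) < k), M (u p) i (ν p) *
        (if h : (i : ℕ) < k then g p ⟨i, h⟩ else 0) (Function.update ν p 0) =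
        ∑ p : Fin q, ∑ i : Fin k, M (u p) (Fin.castLE hk i) (ν p) *
        g p i (Function.update ν p 0)
      refine Finset.sum_congr rfl (fun p _ => ?_)
      rw [sum_rows hk]
      refine Finset.sum_congr rfl (fun i _ => ?_)
      have hi : ((Fin.castLE hk i : Fin s) : ℕ) < k := i.2
      rw [dif_pos hi]
      rfl

end BRKM

open BRKM in
theorem BRKM.specBRK : SpecBRK := by
  intro N r s L a M hM k hk us
  refine ⟨?_, ?_⟩
  · intro j hj
    rw [gr_eq, eq_bot_iff]
    rintro _ ⟨G, hG, rfl⟩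
    have hG0 : G = 0 := by
      funext ν
      have h1 := mem_FH.1 hG ν
      unfold HS at h1
      rw [if_neg (by omega), Submodule.mem_bot] at h1
      exact h1
    rw [hG0, map_zero]
    exact Submodule.zero_mem _
  · intro j
    refine ⟨?_, ?_⟩
    · rw [gr_eq]
      infer_instance
    · rw [WD_rows hk M a us.get j]
      exact dim_eq _ _ us j

end FrI
end

section
set_option autoImplicit false

namespace FrI.BRTM

open FrI

variable {r k L : ℕ} {a : ℤ}

lemma mem_gr (𝒞 : Sys r k L a) (j : ℤ) (c : 𝒞.C) : c ∈ 𝒞.gr j ↔ 𝒞.π j c = c := by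
  constructor
  · rintro ⟨d, rfl⟩
    exact 𝒞.ππ j d
  · intro h
    exact ⟨c, h⟩

lemma X_mem (𝒞 : Sys r k L a) (t : Fin r) (i : Fin k) (l : Fin (L + 1)) (j : ℤ) {c : 𝒞.C}
    (hc : c ∈ 𝒞.gr j) : 𝒞.X t i l c ∈ 𝒞.gr (j + a) := by
  rw [mem_gr] at hc ⊢
  rw [𝒞.πX, hc]

/-- the map `Θ` -/
noncomputable def Theta (𝒞 : Sys r k L a) (t : Fin r) (j : ℤ) :
    (Fin k → 𝒞.gr j) →ₗ[ℂ] (Fin (L + 1) → 𝒞.gr (j + a)) where
  toFun u := fun l => ⟨∑ i, 𝒞.X t i l (u i : 𝒞.C),
    Submodule.sum_mem _ fun i _ => X_mem 𝒞 t i l j (u i).2⟩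
  map_add' u v := by
    funext l
    apply Subtype.ext
    simp [Finset.sum_add_distrib]
  map_smul' c u := by
    funext l
    apply Subtype.ext
    simp [Finset.smul_sum]

lemma Theta_coe (𝒞 : Sys r k L a) (t : Fin r) (j : ℤ) (u : Fin k → 𝒞.gr j) (l : Fin (L + 1)) :
    ((Theta 𝒞 t j u l : 𝒞.gr (j + a)) : 𝒞.C) = ∑ i, 𝒞.X t i l (u i : 𝒞.C) := rfl

/-- the projection to the cokernel -/
noncomputable def mk (𝒞 : Sys r k L a) (t : Fin r) : (Fin (L + 1) → 𝒞.C) →ₗ[ℂ] (𝒞.cok t).C where
  toFun w := (Submodule.mkQ (LinearMap.range (𝒞.rel t)) w :)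
  map_add' u v := map_add (Submodule.mkQ (LinearMap.range (𝒞.rel t))) u v
  map_smul' c u := map_smul (Submodule.mkQ (LinearMap.range (𝒞.rel t))) c u

lemma mk_surj (𝒞 : Sys r k L a) (t : Fin r) : Function.Surjective (mk 𝒞 t) := fun c =>
  Submodule.mkQ_surjective (LinearMap.range (𝒞.rel t)) c

lemma mk_eq_zero (𝒞 : Sys r k L a) (t : Fin r) (w : Fin (L + 1) → 𝒞.C) :
    mk 𝒞 t w = 0 ↔ w ∈ LinearMap.range (𝒞.rel t) :=
  Submodule.Quotient.mk_eq_zero (LinearMap.range (𝒞.rel t))

lemma mk_π (𝒞 : Sys r k L a) (t : Fin r) (j : ℤ) (w : Fin (L + 1) → 𝒞.C) :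
    (𝒞.cok t).π j (mk 𝒞 t w) = mk 𝒞 t (coord (L + 1) (𝒞.π j) w) := rfl

/-- entries -/
noncomputable def inc (𝒞 : Sys r k L a) (j : ℤ) : (Fin (L + 1) → 𝒞.gr j) →ₗ[ℂ] (Fin (L + 1) → 𝒞.C) where
  toFun w := fun l => (w l : 𝒞.C)
  map_add' _ _ := rfl
  map_smul' _ _ := rfl

/-- the second map -/
noncomputable def Psi2 (𝒞 : Sys r k L a) (t : Fin r) (j : ℤ) :
    (Fin (L + 1) → 𝒞.gr j) →ₗ[ℂ] (𝒞.cok t).gr j :=
  LinearMap.codRestrict _ (mk 𝒞 t ∘ₗ inc 𝒞 j) (by
    intro w
    rw [mem_gr]
    show (𝒞.cok t).π j (mk 𝒞 t (inc 𝒞 j w)) = mk 𝒞 t (inc 𝒞 j w)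
    rw [mk_π]
    congr 1
    funext l
    exact (mem_gr _ _ _).1 (w l).2)

lemma Psi2_coe (𝒞 : Sys r k L a) (t : Fin r) (j : ℤ) (w : Fin (L + 1) → 𝒞.gr j) :
    ((Psi2 𝒞 t j w : (𝒞.cok t).gr j) : (𝒞.cok t).C) = mk 𝒞 t (inc 𝒞 j w) := rfl

lemma Psi2_surj (𝒞 : Sys r k L a) (t : Fin r) (j : ℤ) : Function.Surjective (Psi2 𝒞 t j) := by
  rintro ⟨c, d, hd⟩
  obtain ⟨w, rfl⟩ := mk_surj 𝒞 t d
  refine ⟨fun l => ⟨𝒞.π j (w l), ⟨w l, rfl⟩⟩, ?_⟩
  apply Subtype.ext
  rw [Psi2_coe]
  show _ = c
  rw [← hd, mk_π]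
  rfl

lemma ker_Psi2 (𝒞 : Sys r k L a) (t : Fin r) (j : ℤ) :
    LinearMap.ker (Psi2 𝒞 t (j + a)) = LinearMap.range (Theta 𝒞 t j) := by
  ext w
  rw [LinearMap.mem_ker]
  constructor
  · intro h
    have h1 : mk 𝒞 t (inc 𝒞 (j + a) w) = 0 := by
      rw [← Psi2_coe, h]
      rfl
    rw [mk_eq_zero] at h1
    obtain ⟨u, hu⟩ := h1
    refine ⟨fun i => ⟨𝒞.π j (u i), ⟨u i, rfl⟩⟩, ?_⟩
    funext l
    apply Subtype.ext
    rw [Theta_coe]
    have h2 := congrFun hu l
    rw [Sys.rel_apply] at h2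
    have h3 : ((w l : 𝒞.gr (j + a)) : 𝒞.C) = 𝒞.π (j + a) (∑ i, 𝒞.X t i l (u i)) := by
      rw [h2]
      exact ((mem_gr _ _ _).1 (w l).2).symm
    rw [h3, map_sum]
    exact Finset.sum_congr rfl fun i _ => (𝒞.πX _ _ _ _ _).symm
  · rintro ⟨u, rfl⟩
    apply Subtype.ext
    rw [Psi2_coe]
    show mk 𝒞 t (inc 𝒞 (j + a) (Theta 𝒞 t j u)) = 0
    rw [mk_eq_zero]
    refine ⟨fun i => (u i : 𝒞.C), ?_⟩
    funext l
    rw [Sys.rel_apply]
    rfl

end FrI.BRTM

namespace FrI

open BRTM in
theorem BRTM.specBRT : SpecBRT := by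
  intro r k L a 𝒞 t j h1 h2
  have h3 : FiniteDimensional ℂ ((𝒞.cok t).gr (j + a)) :=
    Module.Finite.of_surjective _ (Psi2_surj 𝒞 t (j + a))
  have h4 := LinearMap.finrank_range_add_finrank_ker (Theta 𝒞 t j)
  have h5 := LinearMap.finrank_range_add_finrank_ker (Psi2 𝒞 t (j + a))
  rw [LinearMap.range_eq_top.2 (Psi2_surj 𝒞 t (j + a)), finrank_top, ker_Psi2] at h5
  rw [Module.finrank_pi_fintype, Finset.sum_const, Finset.card_univ, Fintype.card_fin,
    smul_eq_mul] at h4 h5
  refine ⟨h3, by omega, ?_⟩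
  intro h6 u hu hX
  have h7 : Module.finrank ℂ (LinearMap.ker (Theta 𝒞 t j)) = 0 := by omega
  rw [Submodule.finrank_eq_zero] at h7
  have h8 : (fun i => (⟨u i, (mem_gr _ _ _).2 (hu i)⟩ : 𝒞.gr j)) ∈ LinearMap.ker (Theta 𝒞 t j) := by
    rw [LinearMap.mem_ker]
    funext l
    apply Subtype.ext
    rw [Theta_coe]
    exact hX l
  rw [h7, Submodule.mem_bot] at h8
  funext i
  exact congrArg Subtype.val (congrFun h8 i)

end FrI
end

section
/-! # Module CAPP: the product inequality -/
set_option autoImplicit false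

namespace FrI

namespace CAPPM

/-- `choose (n + 1 + k) (n + 1) * (n + 1) = choose (n + k) n * (n + 1 + k)` -/
lemma ch_n (n k : ℕ) : ((n + 1 + k).choose (n + 1) : ℝ) * (n + 1) =
    ((n + k).choose n : ℝ) * (n + 1 + k) := by
  have h := Nat.add_one_mul_choose_eq (n + k) n
  have h2 : n + 1 + k = n + k + 1 := by omega
  rw [h2]
  have h3 : (((n + k + 1) * (n + k).choose n : ℕ) : ℝ) = (((n + k + 1).choose (n + 1) * (n + 1) : ℕ) : ℝ) := by
    exact_mod_cast h
  push_cast at h3 ⊢
  linarith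

lemma ch_pos (n D : ℕ) : (0 : ℝ) < ((n + D).choose n : ℝ) := by
  exact_mod_cast Nat.choose_pos (Nat.le_add_right n D)

lemma key (C2 A e q b a D k n : ℝ) (hC2 : 2 ≤ C2) (hA : 0 < A) (hk1 : 1 ≤ k) (hkn : k ≤ n)
    (hb0 : 0 ≤ b) (hen : e + n ≤ C2 * A) (hAe : A ≤ e) (haD : a ≤ D) (hqa : q * a + b = A)
    (hb : 4 * b * C2 ≤ A) (hq : 4 * q * n ≤ A + 4 * n) (hqD : q * D + b ≤ e) (hq1 : 1 ≤ q) :
    (1 + 1 / (8 * C2 ^ 2)) * (e + A + k) * (D - a + k) ≤ (e + k) * (D + k) := by
  have hC0 : 0 < C2 := by linarith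
  obtain ⟨X, hX⟩ : ∃ X, X = e + k := ⟨_, rfl⟩
  obtain ⟨y, hy⟩ : ∃ y, y = D - a + k := ⟨_, rfl⟩
  obtain ⟨δ, hδ⟩ : ∃ δ, δ = 1 / (8 * C2 ^ 2) := ⟨_, rfl⟩
  have hδ0 : 0 < δ := by rw [hδ]; positivity
  have hδ1 : δ * C2 ^ 2 = 1 / 8 := by
    rw [hδ]
    field_simp
  have hy0 : 0 < y := by rw [hy]; linarith
  have hXC : X ≤ C2 * A := by rw [hX]; linarith
  have hXA : A ≤ X := by rw [hX]; linarith
  have h0 : q * k ≤ A / 4 + k := by
    have : (q - 1) * k ≤ (q - 1) * n := mul_le_mul_of_nonneg_left hkn (by linarith)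
    linarith
  have h1 : q * y ≤ X - 3 / 4 * A := by
    rw [hX, hy]
    have : q * (D - a + k) = (q * D + b) - (q * a + b) + q * k := by ring
    rw [this, hqa]
    linarith
  have h2 : X * b ≤ A * (A / 4) := by
    have h3 : X * b ≤ C2 * A * b := mul_le_mul_of_nonneg_right hXC hb0
    have h4 : A * (4 * b * C2) ≤ A * A := mul_le_mul_of_nonneg_left hb hA.le
    linarith
  have h5 : δ * ((X - 3 / 4 * A) * (X + A)) ≤ A * A / 2 := by
    have h6 : (X - 3 / 4 * A) * (X + A) ≤ (C2 * A) * (3 / 2 * (C2 * A)) := by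
      apply mul_le_mul
      · linarith
      · have : A ≤ 1 / 2 * (C2 * A) := by
          have : 2 * A ≤ C2 * A := mul_le_mul_of_nonneg_right hC2 hA.le
          linarith
        linarith
      · linarith
      · positivity
    have h7 : δ * ((X - 3 / 4 * A) * (X + A)) ≤ δ * ((C2 * A) * (3 / 2 * (C2 * A))) :=
      mul_le_mul_of_nonneg_left h6 hδ0.le
    have h8 : δ * ((C2 * A) * (3 / 2 * (C2 * A))) = (δ * C2 ^ 2) * (3 / 2) * (A * A) := by ring
    rw [h8, hδ1] at h7
    have h9 : 0 ≤ A * A := by positivity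
    linarith
  have h10 : q * y * (A + δ * (X + A)) ≤ (X - 3 / 4 * A) * (A + δ * (X + A)) := by
    apply mul_le_mul_of_nonneg_right h1
    have : 0 ≤ δ * (X + A) := mul_nonneg hδ0.le (by linarith)
    linarith
  have h11 : q * ((1 + δ) * (X + A) * y) ≤ q * (X * (y + a)) := by
    have e1 : q * ((1 + δ) * (X + A) * y) = q * y * X + q * y * (A + δ * (X + A)) := by ring
    have e2 : q * (X * (y + a)) = q * y * X + X * (q * a) := by ring
    have e3 : q * a = A - b := by linarith
    rw [e1, e2, e3]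
    have e4 : (X - 3 / 4 * A) * (A + δ * (X + A)) =
        X * A - 3 / 4 * (A * A) + δ * ((X - 3 / 4 * A) * (X + A)) := by ring
    rw [e4] at h10
    linarith
  have h12 : (1 + δ) * (X + A) * y ≤ X * (y + a) := le_of_mul_le_mul_left h11 (by linarith)
  rw [← hδ, ← hy]
  have e5 : e + A + k = X + A := by rw [hX]; ring
  have e6 : D + k = y + a := by rw [hy]; ring
  rw [e5, e6, ← hX]
  exact h12

end CAPPM

open CAPPM in
theorem CAPPM.specCAPP : SpecCAPP := by
  intro C2 n n' A e q b a D hC2 hn hn' hAe hen ha haD hqa hb hq hqD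
  have hA : (0 : ℝ) < A := by
    rcases Nat.eq_zero_or_pos A with h | h
    · subst h
      have h1 : ((e + n : ℕ) : ℝ) ≤ 0 := by simpa using hen
      have h2 : (0 : ℝ) < ((e + n : ℕ) : ℝ) := by exact_mod_cast (by omega : 0 < e + n)
      linarith
    · exact_mod_cast h
  have hC0 : 0 < C2 := by linarith
  have hq1 : 1 ≤ q := by
    by_contra h
    have h0 : q = 0 := by omega
    subst h0
    rw [zero_mul, zero_add] at hqa
    subst hqa
    have h1 : ((4 * b : ℕ) : ℝ) * 2 ≤ ((4 * b : ℕ) : ℝ) * C2 :=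
      mul_le_mul_of_nonneg_left hC2 (Nat.cast_nonneg _)
    push_cast at h1 hb
    linarith
  have hq1' : (1 : ℝ) ≤ q := by exact_mod_cast hq1
  have hen' : (e : ℝ) + n ≤ C2 * A := by push_cast at hen; exact hen
  have hAe' : (A : ℝ) ≤ e := by exact_mod_cast hAe
  have haD' : (a : ℝ) ≤ D := by exact_mod_cast haD
  have hqa' : (q : ℝ) * a + b = A := by exact_mod_cast hqa
  have hb' : 4 * (b : ℝ) * C2 ≤ A := by push_cast at hb; exact hb
  have hq' : 4 * (q : ℝ) * n ≤ A + 4 * n := by exact_mod_cast hq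
  have hqD' : (q : ℝ) * D + b ≤ e := by exact_mod_cast hqD
  have hδ0 : (0 : ℝ) < 1 + 1 / (8 * C2 ^ 2) := by positivity
  -- the first `n'` factors
  have A1 : ∀ j : ℕ, j ≤ n → (1 + 1 / (8 * C2 ^ 2)) ^ j * ((j + (e + A)).choose j : ℝ) *
      ((j + (D - a)).choose j : ℝ) ≤ ((j + e).choose j : ℝ) * ((j + D).choose j : ℝ) := by
    intro j
    induction j with
    | zero => intro _; simp
    | succ j ih =>
      intro hj
      have h1 := ih (by omega)
      have hk := key C2 A e q b a D (j + 1) n hC2 hA (by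
        have : (0 : ℝ) ≤ j := Nat.cast_nonneg j
        linarith) (by exact_mod_cast hj) (Nat.cast_nonneg b) hen' hAe' haD' hqa' hb' hq' hqD' hq1'
      have g1 := ch_n j (e + A)
      have g2 := ch_n j (D - a)
      have g3 := ch_n j e
      have g4 := ch_n j D
      have c0 : (0 : ℝ) < ((j : ℝ) + 1) * (j + 1) := by positivity
      apply le_of_mul_le_mul_right _ c0
      have e1 : (1 + 1 / (8 * C2 ^ 2)) ^ (j + 1) * ((j + 1 + (e + A)).choose (j + 1) : ℝ) *
          ((j + 1 + (D - a)).choose (j + 1) : ℝ) * (((j : ℝ) + 1) * (j + 1)) =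
          ((1 + 1 / (8 * C2 ^ 2)) ^ j * ((j + (e + A)).choose j : ℝ) *
          ((j + (D - a)).choose j : ℝ)) * ((1 + 1 / (8 * C2 ^ 2)) * (j + 1 + ((e + A : ℕ) : ℝ)) *
            (j + 1 + ((D - a : ℕ) : ℝ))) := by
        rw [pow_succ]
        linear_combination (1 + 1 / (8 * C2 ^ 2)) ^ j * (1 + 1 / (8 * C2 ^ 2)) *
          (((j + 1 + (D - a)).choose (j + 1) : ℝ) * (j + 1)) * g1 +
          (1 + 1 / (8 * C2 ^ 2)) ^ j * (1 + 1 / (8 * C2 ^ 2)) *
          (((j + (e + A)).choose j : ℝ) * (j + 1 + ((e + A : ℕ) : ℝ))) * g2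
      have e2 : ((j + 1 + e).choose (j + 1) : ℝ) * ((j + 1 + D).choose (j + 1) : ℝ) *
          (((j : ℝ) + 1) * (j + 1)) = (((j + e).choose j : ℝ) * ((j + D).choose j : ℝ)) *
          ((j + 1 + e) * (j + 1 + D)) := by
        linear_combination (((j + 1 + D).choose (j + 1) : ℝ) * (j + 1)) * g3 +
          (((j + e).choose j : ℝ) * (j + 1 + e)) * g4
      rw [e1, e2]
      have hk' : (1 + 1 / (8 * C2 ^ 2)) * (j + 1 + ((e + A : ℕ) : ℝ)) *
            (j + 1 + ((D - a : ℕ) : ℝ)) ≤ (j + 1 + e) * (j + 1 + D) := by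
        rw [Nat.cast_sub haD]
        push_cast
        have e3 : (1 + 1 / (8 * C2 ^ 2)) * ((j : ℝ) + 1 + (e + A)) * (j + 1 + (D - a)) =
          (1 + 1 / (8 * C2 ^ 2)) * (e + A + (j + 1)) * (D - a + (j + 1)) := by ring
        have e4 : ((j : ℝ) + 1 + e) * (j + 1 + D) = (e + (j + 1)) * (D + (j + 1)) := by ring
        rw [e3, e4]
        exact hk
      apply mul_le_mul h1 hk'
      · positivity
      · positivity
  -- the other factors
  have A2 : ∀ N : ℕ, n' ≤ N → ((N + (e + A)).choose N : ℝ) * ((n' + e).choose n' : ℝ) ≤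
      2 ^ (N - n') * ((n' + (e + A)).choose n' : ℝ) * ((N + e).choose N : ℝ) := by
    intro N hN
    induction N, hN using Nat.le_induction with
    | base => rw [Nat.sub_self, pow_zero, one_mul]
    | succ N hN ih =>
      have g1 := ch_n N (e + A)
      have g3 := ch_n N e
      have c0 : (0 : ℝ) < (N : ℝ) + 1 := by positivity
      apply le_of_mul_le_mul_right _ c0
      have e1 : ((N + 1 + (e + A)).choose (N + 1) : ℝ) * ((n' + e).choose n' : ℝ) * ((N : ℝ) + 1) =
          (((N + (e + A)).choose N : ℝ) * ((n' + e).choose n' : ℝ)) * (N + 1 + ((e + A : ℕ) : ℝ)) := by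
        linear_combination ((n' + e).choose n' : ℝ) * g1
      have e2 : 2 ^ (N + 1 - n') * ((n' + (e + A)).choose n' : ℝ) * ((N + 1 + e).choose (N + 1) : ℝ) *
          ((N : ℝ) + 1) = (2 ^ (N - n') * ((n' + (e + A)).choose n' : ℝ) *
          ((N + e).choose N : ℝ)) * (2 * (N + 1 + e)) := by
        rw [show N + 1 - n' = (N - n') + 1 by omega, pow_succ]
        linear_combination 2 ^ (N - n') * 2 * ((n' + (e + A)).choose n' : ℝ) * g3
      rw [e1, e2]
      apply mul_le_mul ih
      · push_cast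
        have : (0 : ℝ) ≤ N := Nat.cast_nonneg N
        linarith
      · positivity
      · positivity
  have B1 := A1 n' hn'
  have B2 := A2 n hn'
  have p1 := ch_pos n' e
  have p2 := ch_pos n' (D - a)
  have p3 := ch_pos n e
  have e1 : n + e + A = n + (e + A) := by omega
  have e2 : n' + D - a = n' + (D - a) := by omega
  rw [e1, e2]
  apply le_of_mul_le_mul_right _ p1
  calc (1 + 1 / (8 * C2 ^ 2)) ^ n' * ((n + (e + A)).choose n : ℝ) * ((n' + (D - a)).choose n' : ℝ) *
        ((n' + e).choose n' : ℝ)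
      = ((1 + 1 / (8 * C2 ^ 2)) ^ n' * ((n' + (D - a)).choose n' : ℝ)) *
        (((n + (e + A)).choose n : ℝ) * ((n' + e).choose n' : ℝ)) := by ring
    _ ≤ ((1 + 1 / (8 * C2 ^ 2)) ^ n' * ((n' + (D - a)).choose n' : ℝ)) *
        (2 ^ (n - n') * ((n' + (e + A)).choose n' : ℝ) * ((n + e).choose n : ℝ)) :=
        mul_le_mul_of_nonneg_left B2 (by positivity)
    _ = (2 ^ (n - n') * ((n + e).choose n : ℝ)) *
        ((1 + 1 / (8 * C2 ^ 2)) ^ n' * ((n' + (e + A)).choose n' : ℝ) *
          ((n' + (D - a)).choose n' : ℝ)) := by ring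
    _ ≤ (2 ^ (n - n') * ((n + e).choose n : ℝ)) *
        (((n' + e).choose n' : ℝ) * ((n' + D).choose n' : ℝ)) :=
        mul_le_mul_of_nonneg_left B1 (by positivity)
    _ = _ := by ring

end FrI
end

section
/-! # Module CAPQ: the product inequality with the sharper constant for the last factors -/
set_option autoImplicit false

namespace FrI

open CAPPM in
theorem CAPQM.specCAPQ : SpecCAPQ := by
  intro C2 n n' A e q b a D hC2 hn hn' hAe hen ha haD hqa hb hq hqD
  have hA : (0 : ℝ) < A := by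
    rcases Nat.eq_zero_or_pos A with h | h
    · subst h
      have h1 : ((e + n : ℕ) : ℝ) ≤ 0 := by simpa using hen
      have h2 : (0 : ℝ) < ((e + n : ℕ) : ℝ) := by exact_mod_cast (by omega : 0 < e + n)
      linarith
    · exact_mod_cast h
  have hC0 : 0 < C2 := by linarith
  have hq1 : 1 ≤ q := by
    by_contra h
    have h0 : q = 0 := by omega
    subst h0
    rw [zero_mul, zero_add] at hqa
    subst hqa
    have h1 : ((4 * b : ℕ) : ℝ) * 2 ≤ ((4 * b : ℕ) : ℝ) * C2 :=
      mul_le_mul_of_nonneg_left hC2 (Nat.cast_nonneg _)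
    push_cast at h1 hb
    linarith
  have hq1' : (1 : ℝ) ≤ q := by exact_mod_cast hq1
  have hen' : (e : ℝ) + n ≤ C2 * A := by push_cast at hen; exact hen
  have hAe' : (A : ℝ) ≤ e := by exact_mod_cast hAe
  have haD' : (a : ℝ) ≤ D := by exact_mod_cast haD
  have hqa' : (q : ℝ) * a + b = A := by exact_mod_cast hqa
  have hb' : 4 * (b : ℝ) * C2 ≤ A := by push_cast at hb; exact hb
  have hq' : 4 * (q : ℝ) * n ≤ A + 4 * n := by exact_mod_cast hq
  have hqD' : (q : ℝ) * D + b ≤ e := by exact_mod_cast hqD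
  have hδ0 : (0 : ℝ) < 1 + 1 / (8 * C2 ^ 2) := by positivity
  -- the first `n'` factors
  have A1 : ∀ j : ℕ, j ≤ n → (1 + 1 / (8 * C2 ^ 2)) ^ j * ((j + (e + A)).choose j : ℝ) *
      ((j + (D - a)).choose j : ℝ) ≤ ((j + e).choose j : ℝ) * ((j + D).choose j : ℝ) := by
    intro j
    induction j with
    | zero => intro _; simp
    | succ j ih =>
      intro hj
      have h1 := ih (by omega)
      have hk := key C2 A e q b a D (j + 1) n hC2 hA (by
        have : (0 : ℝ) ≤ j := Nat.cast_nonneg j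
        linarith) (by exact_mod_cast hj) (Nat.cast_nonneg b) hen' hAe' haD' hqa' hb' hq' hqD' hq1'
      have g1 := ch_n j (e + A)
      have g2 := ch_n j (D - a)
      have g3 := ch_n j e
      have g4 := ch_n j D
      have c0 : (0 : ℝ) < ((j : ℝ) + 1) * (j + 1) := by positivity
      apply le_of_mul_le_mul_right _ c0
      have e1 : (1 + 1 / (8 * C2 ^ 2)) ^ (j + 1) * ((j + 1 + (e + A)).choose (j + 1) : ℝ) *
          ((j + 1 + (D - a)).choose (j + 1) : ℝ) * (((j : ℝ) + 1) * (j + 1)) =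
          ((1 + 1 / (8 * C2 ^ 2)) ^ j * ((j + (e + A)).choose j : ℝ) *
          ((j + (D - a)).choose j : ℝ)) * ((1 + 1 / (8 * C2 ^ 2)) * (j + 1 + ((e + A : ℕ) : ℝ)) *
            (j + 1 + ((D - a : ℕ) : ℝ))) := by
        rw [pow_succ]
        linear_combination (1 + 1 / (8 * C2 ^ 2)) ^ j * (1 + 1 / (8 * C2 ^ 2)) *
          (((j + 1 + (D - a)).choose (j + 1) : ℝ) * (j + 1)) * g1 +
          (1 + 1 / (8 * C2 ^ 2)) ^ j * (1 + 1 / (8 * C2 ^ 2)) *
          (((j + (e + A)).choose j : ℝ) * (j + 1 + ((e + A : ℕ) : ℝ))) * g2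
      have e2 : ((j + 1 + e).choose (j + 1) : ℝ) * ((j + 1 + D).choose (j + 1) : ℝ) *
          (((j : ℝ) + 1) * (j + 1)) = (((j + e).choose j : ℝ) * ((j + D).choose j : ℝ)) *
          ((j + 1 + e) * (j + 1 + D)) := by
        linear_combination (((j + 1 + D).choose (j + 1) : ℝ) * (j + 1)) * g3 +
          (((j + e).choose j : ℝ) * (j + 1 + e)) * g4
      rw [e1, e2]
      have hk' : (1 + 1 / (8 * C2 ^ 2)) * (j + 1 + ((e + A : ℕ) : ℝ)) *
            (j + 1 + ((D - a : ℕ) : ℝ)) ≤ (j + 1 + e) * (j + 1 + D) := by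
        rw [Nat.cast_sub haD]
        push_cast
        have e3 : (1 + 1 / (8 * C2 ^ 2)) * ((j : ℝ) + 1 + (e + A)) * (j + 1 + (D - a)) =
          (1 + 1 / (8 * C2 ^ 2)) * (e + A + (j + 1)) * (D - a + (j + 1)) := by ring
        have e4 : ((j : ℝ) + 1 + e) * (j + 1 + D) = (e + (j + 1)) * (D + (j + 1)) := by ring
        rw [e3, e4]
        exact hk
      apply mul_le_mul h1 hk'
      · positivity
      · positivity
  -- the other factors
  obtain ⟨c, hc⟩ : ∃ c, c = 1 + (A : ℝ) / e := ⟨_, rfl⟩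
  have he0 : (0 : ℝ) < e := lt_of_lt_of_le hA hAe'
  have hc0 : 0 < c := by rw [hc]; positivity
  have hcM : ∀ M : ℝ, (e : ℝ) ≤ M → M + A ≤ c * M := by
    intro M hM
    have h1 : (A : ℝ) ≤ (A : ℝ) / e * M := by
      rw [div_mul_eq_mul_div, le_div_iff₀ he0]
      exact mul_le_mul_of_nonneg_left hM hA.le
    rw [hc]
    linarith
  have A2 : ∀ N : ℕ, n' ≤ N → ((N + (e + A)).choose N : ℝ) * ((n' + e).choose n' : ℝ) ≤
      c ^ (N - n') * ((n' + (e + A)).choose n' : ℝ) * ((N + e).choose N : ℝ) := by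
    intro N hN
    induction N, hN using Nat.le_induction with
    | base => rw [Nat.sub_self, pow_zero, one_mul]
    | succ N hN ih =>
      have g1 := ch_n N (e + A)
      have g3 := ch_n N e
      have c0 : (0 : ℝ) < (N : ℝ) + 1 := by positivity
      apply le_of_mul_le_mul_right _ c0
      have e1 : ((N + 1 + (e + A)).choose (N + 1) : ℝ) * ((n' + e).choose n' : ℝ) * ((N : ℝ) + 1) =
          (((N + (e + A)).choose N : ℝ) * ((n' + e).choose n' : ℝ)) * (N + 1 + ((e + A : ℕ) : ℝ)) := by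
        linear_combination ((n' + e).choose n' : ℝ) * g1
      have e2 : c ^ (N + 1 - n') * ((n' + (e + A)).choose n' : ℝ) * ((N + 1 + e).choose (N + 1) : ℝ) *
          ((N : ℝ) + 1) = (c ^ (N - n') * ((n' + (e + A)).choose n' : ℝ) *
          ((N + e).choose N : ℝ)) * (c * (N + 1 + e)) := by
        rw [show N + 1 - n' = (N - n') + 1 by omega, pow_succ]
        linear_combination c ^ (N - n') * c * ((n' + (e + A)).choose n' : ℝ) * g3
      rw [e1, e2]
      apply mul_le_mul ih
      · have h0 : (0 : ℝ) ≤ N := Nat.cast_nonneg N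
        have h1 := hcM (N + 1 + e) (by linarith)
        push_cast
        linarith
      · positivity
      · positivity
  have B1 := A1 n' hn'
  have B2 := A2 n hn'
  have p1 := ch_pos n' e
  have p2 := ch_pos n' (D - a)
  have p3 := ch_pos n e
  have e1 : n + e + A = n + (e + A) := by omega
  have e2 : n' + D - a = n' + (D - a) := by omega
  rw [e1, e2, ← hc]
  apply le_of_mul_le_mul_right _ p1
  calc (1 + 1 / (8 * C2 ^ 2)) ^ n' * ((n + (e + A)).choose n : ℝ) * ((n' + (D - a)).choose n' : ℝ) *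
        ((n' + e).choose n' : ℝ)
      = ((1 + 1 / (8 * C2 ^ 2)) ^ n' * ((n' + (D - a)).choose n' : ℝ)) *
        (((n + (e + A)).choose n : ℝ) * ((n' + e).choose n' : ℝ)) := by ring
    _ ≤ ((1 + 1 / (8 * C2 ^ 2)) ^ n' * ((n' + (D - a)).choose n' : ℝ)) *
        (c ^ (n - n') * ((n' + (e + A)).choose n' : ℝ) * ((n + e).choose n : ℝ)) :=
        mul_le_mul_of_nonneg_left B2 (by positivity)
    _ = (c ^ (n - n') * ((n + e).choose n : ℝ)) *
        ((1 + 1 / (8 * C2 ^ 2)) ^ n' * ((n' + (e + A)).choose n' : ℝ) *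
          ((n' + (D - a)).choose n' : ℝ)) := by ring
    _ ≤ (c ^ (n - n') * ((n + e).choose n : ℝ)) *
        (((n' + e).choose n' : ℝ) * ((n' + D).choose n' : ℝ)) :=
        mul_le_mul_of_nonneg_left B1 (by positivity)
    _ = _ := by ring

end FrI
end

section
/-! # Module CNT: counting exponents -/
set_option autoImplicit false

namespace FrI

namespace CNTM

open Finset

/-- the exponents -/
noncomputable def Ex (N D : ℕ) {m : ℕ} (v : Fin m → Fin N) (c : Fin m → ℕ) : Finset (Fin N →₀ ℕ) :=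
  ((Finset.univ : Finset (Fin N)).finsuppAntidiag D).filter (fun α => ∀ p, α (v p) < c p)

lemma mem_Ex {N D m : ℕ} {v : Fin m → Fin N} {c : Fin m → ℕ} {α : Fin N →₀ ℕ} :
    α ∈ Ex N D v c ↔ ∑ i, α i = D ∧ ∀ p, α (v p) < c p := by
  rw [Ex, mem_filter, mem_finsuppAntidiag]
  simp

lemma base (N D : ℕ) : ((((Finset.univ : Finset (Fin N)).finsuppAntidiag D).card : ℕ) : ℤ) =
    PowerSeries.coeff D ((PowerSeries.invOneSubPow ℤ N).val) := by
  rw [Finset.card_finsuppAntidiag_nat_eq_choose, Finset.card_univ, Fintype.card_fin]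
  rcases N with _ | N
  · rw [PowerSeries.invOneSubPow_zero, Units.val_one, PowerSeries.coeff_one]
    rcases D with _ | D
    · simp
    · rw [if_neg (Nat.succ_ne_zero D)]
      simp [Nat.choose_eq_zero_of_lt]
  · rw [PowerSeries.invOneSubPow_val_succ_eq_mk_add_choose, PowerSeries.coeff_mk,
      show N + 1 + D - 1 = N + D by omega]
    norm_cast
    exact (Nat.choose_symm_add).symm

lemma card_succ (N D m : ℕ) (v : Fin (m + 1) → Fin N) (hv : Function.Injective v)
    (c : Fin (m + 1) → ℕ) :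
    (Ex N D (v ∘ Fin.castSucc) (c ∘ Fin.castSucc)).card = (Ex N D v c).card +
      if c (Fin.last m) ≤ D then
        (Ex N (D - c (Fin.last m)) (v ∘ Fin.castSucc) (c ∘ Fin.castSucc)).card else 0 := by
  classical
  set w := v (Fin.last m) with hw
  set k := c (Fin.last m) with hk
  have h1 : Ex N D v c = (Ex N D (v ∘ Fin.castSucc) (c ∘ Fin.castSucc)).filter (fun α => α w < k) := by
    ext α
    rw [mem_filter, mem_Ex, mem_Ex, Fin.forall_fin_succ']
    simp only [Function.comp_apply]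
    tauto
  rw [h1, ← card_filter_add_card_filter_not (s := Ex N D (v ∘ Fin.castSucc) (c ∘ Fin.castSucc))
    (fun α => α w < k)]
  congr 1
  split_ifs with h2
  · have hne : ∀ p : Fin m, v p.castSucc ≠ w := by
      intro p hp
      have := hv hp
      exact (Fin.castSucc_lt_last p).ne this
    symm
    apply card_bij (fun β _ => β + Finsupp.single w k)
    · intro β hβ
      rw [mem_Ex] at hβ
      rw [mem_filter, mem_Ex]
      refine ⟨⟨?_, fun p => ?_⟩, ?_⟩
      · simp only [Finsupp.add_apply, sum_add_distrib, hβ.1]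
        rw [Finset.sum_eq_single w (fun i _ hi => by rw [Finsupp.single_apply, if_neg (Ne.symm hi)])
          (fun h => absurd (mem_univ _) h), Finsupp.single_eq_same]
        omega
      · have := hβ.2 p
        simp only [Function.comp_apply, Finsupp.add_apply] at this ⊢
        rw [Finsupp.single_apply, if_neg (Ne.symm (hne p)), add_zero]
        exact this
      · rw [Finsupp.add_apply, Finsupp.single_eq_same]
        omega
    · intro β _ β' _ h
      exact add_right_cancel h
    · intro α hα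
      rw [mem_filter, mem_Ex] at hα
      have hle : Finsupp.single w k ≤ α := by
        rw [Finsupp.single_le_iff]
        omega
      refine ⟨α - Finsupp.single w k, ?_, tsub_add_cancel_of_le hle⟩
      rw [mem_Ex]
      refine ⟨?_, fun p => ?_⟩
      · have h3 : ∑ i, (α - Finsupp.single w k + Finsupp.single w k) i = D := by
          rw [tsub_add_cancel_of_le hle]
          exact hα.1.1
        simp only [Finsupp.add_apply, sum_add_distrib] at h3
        rw [Finset.sum_eq_single (f := fun i => (Finsupp.single w k) i) w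
          (fun i _ hi => by rw [Finsupp.single_apply, if_neg (Ne.symm hi)])
          (fun h => absurd (mem_univ _) h), Finsupp.single_eq_same] at h3
        omega
      · have := hα.1.2 p
        simp only [Function.comp_apply] at this ⊢
        rw [Finsupp.tsub_apply, Finsupp.single_apply, if_neg (Ne.symm (hne p))]
        omega
  · rw [card_eq_zero, filter_eq_empty_iff]
    intro α hα
    rw [mem_Ex] at hα
    have h3 : α w ≤ ∑ i, α i := single_le_sum (f := fun i => α i) (fun i _ => Nat.zero_le _) (mem_univ w)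
    omega

end CNTM

open CNTM in
theorem CNTM.specCNT : SpecCNT := by
  intro N m
  induction m with
  | zero =>
    intro v hv c D
    rw [Finset.prod_of_isEmpty, one_mul, ← base]
    congr 2
    rw [Finset.filter_true_of_mem]
    intro α _ p
    exact p.elim0
  | succ m ih =>
    intro v hv c D
    have h1 := card_succ N D m v hv c
    have hv' : Function.Injective (v ∘ Fin.castSucc) := hv.comp (Fin.castSucc_injective m)
    have h2 := ih (v ∘ Fin.castSucc) hv' (c ∘ Fin.castSucc) D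
    have h3 := ih (v ∘ Fin.castSucc) hv' (c ∘ Fin.castSucc) (D - c (Fin.last m))
    have e0 : (((Finset.univ : Finset (Fin N)).finsuppAntidiag D).filter
      (fun α => ∀ p, α (v p) < c p)) = Ex N D v c := rfl
    rw [e0]
    have e1 : ((Ex N D v c).card : ℤ) = ((Ex N D (v ∘ Fin.castSucc) (c ∘ Fin.castSucc)).card : ℤ) -
      if c (Fin.last m) ≤ D then
        ((Ex N (D - c (Fin.last m)) (v ∘ Fin.castSucc) (c ∘ Fin.castSucc)).card : ℤ) else 0 := by
      rw [h1]
      split_ifs <;> push_cast <;> ring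
    rw [e1, Fin.prod_univ_castSucc]
    have e2 : ((∏ i : Fin m, (1 - (PowerSeries.X : PowerSeries ℤ) ^ c i.castSucc)) *
        (1 - PowerSeries.X ^ c (Fin.last m))) * (PowerSeries.invOneSubPow ℤ N).val =
        (∏ i : Fin m, (1 - (PowerSeries.X : PowerSeries ℤ) ^ c i.castSucc)) *
          (PowerSeries.invOneSubPow ℤ N).val - PowerSeries.X ^ c (Fin.last m) *
          ((∏ i : Fin m, (1 - (PowerSeries.X : PowerSeries ℤ) ^ c i.castSucc)) *
          (PowerSeries.invOneSubPow ℤ N).val) := by ring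
    rw [e2, map_sub, PowerSeries.coeff_X_pow_mul']
    have h2' : ((Ex N D (v ∘ Fin.castSucc) (c ∘ Fin.castSucc)).card : ℤ) = _ := h2
    have h3' : ((Ex N (D - c (Fin.last m)) (v ∘ Fin.castSucc) (c ∘ Fin.castSucc)).card : ℤ) = _ := h3
    rw [h2', h3']
    rfl

end FrI
end

section
set_option autoImplicit false

namespace FrI.EXM

open MvPolynomial Pool.Agent.Lib.MP_921642_ag FrI

theorem specEX (hBRI : SpecBRI) (hKOS : SpecKOS) (hTRANS : SpecTRANS)
    (hFRV : SpecFRV) (hHILB : SpecHILB) (hREN : SpecREN) : SpecEX := by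
  intro n A e s q b a D n' r L hq hb ha haD hqab hn' he1 he2 hG
  obtain ⟨M, hM, hgood⟩ := hG
  have hreg : Reg (fR M q b) (q * a + b) e s := by
    refine hTRANS (n' + 1) r s L a D q b e M hM hq hb ha he1 he2 (fun k hk μ j hμ hj => ?_)
    refine hKOS r k L a _ (List.finRange r) D (List.nodup_finRange r) ?_ μ j ?_ hj
    · exact hBRI (n' + 1) r s L a D M hM hgood k hk (List.finRange r) (List.nodup_finRange r)
    · simpa using hμ
  rw [hqab] at hreg
  have hfV : ∀ i, fR M q b i ∈ V (Fin (n' + 1) ⊕ (Fin r × Fin (L + 1))) A := by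
    intro i
    have := hFRV (n' + 1) r s L a q b M hM i
    rwa [hqab] at this
  have hcard : Fintype.card (Fin (n' + 1) ⊕ (Fin r × Fin (L + 1))) = n + 1 := by
    simp only [Fintype.card_sum, Fintype.card_fin, Fintype.card_prod]
    omega
  have hA : 1 ≤ A := by omega
  have hh := hHILB _ n A e s (fR M q b) hcard hA hfV hreg
  let ε : (Fin (n' + 1) ⊕ (Fin r × Fin (L + 1))) ≃ Fin (n + 1) := Fintype.equivFinOfCardEq hcard
  refine ⟨fun i => rename ε (fR M q b i), fun i => ?_, fun j hj => ?_⟩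
  · exact (mem_homogeneousSubmodule _ _).2
      (IsHomogeneous.rename_isHomogeneous ((mem_homogeneousSubmodule _ _).1 (hfV i)))
  · rw [hREN _ _ ε (fR M q b) A e j, ← hh j hj e le_rfl]
    have h1 : Module.finrank ℂ (V (Fin (n + 1)) e) =
        Module.finrank ℂ (V (Fin (n' + 1) ⊕ (Fin r × Fin (L + 1))) e) := by
      rw [finrank_V, finrank_V, hcard, Fintype.card_fin]
    rw [h1]

end FrI.EXM
end

section
set_option autoImplicit false

namespace FrI

namespace FBM

variable {r k L : ℕ} {a : ℤ}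

lemma dn_apply (t : Fin r) (l : Fin (L + 1)) (κ : Mo r L) (t' : Fin r) (l' : Fin (L + 1)) :
    dn t l κ t' l' = if t' = t ∧ l' = l then κ t l - 1 else κ t' l' := by
  unfold dn
  by_cases h1 : t' = t
  · subst h1
    rw [Function.update_self]
    by_cases h2 : l' = l
    · subst h2
      rw [Function.update_self, if_pos ⟨rfl, rfl⟩]
    · rw [Function.update_of_ne h2, if_neg (fun h => h2 h.2)]
  · rw [Function.update_of_ne h1, if_neg (fun h => h1 h.1)]

lemma dn_comm (t t' : Fin r) (l l' : Fin (L + 1)) (κ : Mo r L) :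
    dn t l (dn t' l' κ) = dn t' l' (dn t l κ) := by
  funext s m
  simp only [dn_apply]
  by_cases h1 : s = t ∧ m = l
  · obtain ⟨rfl, rfl⟩ := h1
    by_cases h2 : s = t' ∧ m = l'
    · obtain ⟨rfl, rfl⟩ := h2
      simp
    · simp [h2]
  · by_cases h2 : s = t' ∧ m = l'
    · obtain ⟨rfl, rfl⟩ := h2
      have h3 : ¬ (t = s ∧ l = m) := fun h => h1 ⟨h.1.symm, h.2.symm⟩
      simp [h1]
    · simp [h1, h2]

lemma cond_iff (t t' : Fin r) (l l' : Fin (L + 1)) (κ : Mo r L) :
    (κ t l ≠ 0 ∧ dn t l κ t' l' ≠ 0) ↔ (κ t' l' ≠ 0 ∧ dn t' l' κ t l ≠ 0) := by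
  rw [dn_apply, dn_apply]
  by_cases h : t' = t ∧ l' = l
  · obtain ⟨rfl, rfl⟩ := h
    exact Iff.rfl
  · have h' : ¬ (t = t' ∧ l = l') := fun h2 => h ⟨h2.1.symm, h2.2.symm⟩
    rw [if_neg h, if_neg h']
    exact and_comm

lemma F_add (𝒞 : Sys r k L a) (Vs : List (Fin r)) (i : Fin k) (g h : Mo r L → 𝒞.C) :
    F 𝒞 Vs i (g + h) = F 𝒞 Vs i g + F 𝒞 Vs i h := by
  classical
  funext κ
  simp only [F, Pi.add_apply, ← Finset.sum_add_distrib]
  refine Finset.sum_congr rfl fun t _ => Finset.sum_congr rfl fun l _ => ?_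
  split_ifs
  · rw [map_add]
  · rw [add_zero]

lemma F_smul (𝒞 : Sys r k L a) (Vs : List (Fin r)) (i : Fin k) (c : ℂ) (g : Mo r L → 𝒞.C) :
    F 𝒞 Vs i (c • g) = c • F 𝒞 Vs i g := by
  classical
  funext κ
  simp only [F, Pi.smul_apply, Finset.smul_sum]
  refine Finset.sum_congr rfl fun t _ => Finset.sum_congr rfl fun l _ => ?_
  split_ifs
  · rw [map_smul]
  · rw [smul_zero]

/-- `F` as a linear map -/
noncomputable def FL (𝒞 : Sys r k L a) (Vs : List (Fin r)) (i : Fin k) :
    (Mo r L → 𝒞.C) →ₗ[ℂ] (Mo r L → 𝒞.C) where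
  toFun := F 𝒞 Vs i
  map_add' := F_add 𝒞 Vs i
  map_smul' := F_smul 𝒞 Vs i

lemma F_sum (𝒞 : Sys r k L a) (Vs : List (Fin r)) (i : Fin k) {ι : Type} (s : Finset ι)
    (g : ι → Mo r L → 𝒞.C) : F 𝒞 Vs i (∑ x ∈ s, g x) = ∑ x ∈ s, F 𝒞 Vs i (g x) :=
  map_sum (FL 𝒞 Vs i) g s

lemma F_neg (𝒞 : Sys r k L a) (Vs : List (Fin r)) (i : Fin k) (g : Mo r L → 𝒞.C) :
    F 𝒞 Vs i (-g) = - F 𝒞 Vs i g := map_neg (FL 𝒞 Vs i) g

open Classical in
lemma F_F_apply (𝒞 : Sys r k L a) (Vs : List (Fin r)) (i m : Fin k) (g : Mo r L → 𝒞.C)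
    (κ : Mo r L) : F 𝒞 Vs i (F 𝒞 Vs m g) κ =
      ∑ t, ∑ l, ∑ t', ∑ l', if (t ∈ Vs ∧ t' ∈ Vs) ∧ (κ t l ≠ 0 ∧ dn t l κ t' l' ≠ 0) then
        𝒞.X t i l (𝒞.X t' m l' (g (dn t' l' (dn t l κ)))) else 0 := by
  unfold F
  refine Finset.sum_congr rfl fun t _ => Finset.sum_congr rfl fun l _ => ?_
  by_cases h : t ∈ Vs ∧ κ t l ≠ 0
  · rw [if_pos h, map_sum]
    refine Finset.sum_congr rfl fun t' _ => ?_
    rw [map_sum]
    refine Finset.sum_congr rfl fun l' _ => ?_
    by_cases h' : t' ∈ Vs ∧ dn t l κ t' l' ≠ 0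
    · rw [if_pos h', if_pos ⟨⟨h.1, h'.1⟩, h.2, h'.2⟩]
    · rw [if_neg h', if_neg (fun h2 => h' ⟨h2.1.2, h2.2.2⟩), map_zero]
  · rw [if_neg h]
    symm
    refine Finset.sum_eq_zero fun t' _ => Finset.sum_eq_zero fun l' _ => ?_
    rw [if_neg (fun h2 => h ⟨h2.1.1, h2.2.1⟩)]

lemma F_comm (𝒞 : Sys r k L a) (Vs : List (Fin r)) (i m : Fin k) (g : Mo r L → 𝒞.C) :
    F 𝒞 Vs i (F 𝒞 Vs m g) = F 𝒞 Vs m (F 𝒞 Vs i g) := by
  classical
  funext κ
  rw [F_F_apply, F_F_apply]
  have h1 : ∀ f : Fin r → Fin (L + 1) → Fin r → Fin (L + 1) → 𝒞.C,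
      ∑ t, ∑ l, ∑ t', ∑ l', f t l t' l' = ∑ t, ∑ l, ∑ t', ∑ l', f t' l' t l := by
    intro f
    have h2 : ∀ f : Fin r → Fin (L + 1) → Fin r → Fin (L + 1) → 𝒞.C,
        ∑ t, ∑ l, ∑ t', ∑ l', f t l t' l' =
          ∑ x : Fin r × Fin (L + 1), ∑ y : Fin r × Fin (L + 1), f x.1 x.2 y.1 y.2 := by
      intro f
      rw [Fintype.sum_prod_type]
      refine Finset.sum_congr rfl fun t _ => Finset.sum_congr rfl fun l _ => ?_
      rw [Fintype.sum_prod_type]
    rw [h2, h2, Finset.sum_comm]
  rw [h1]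
  refine Finset.sum_congr rfl fun t _ => Finset.sum_congr rfl fun l _ =>
    Finset.sum_congr rfl fun t' _ => Finset.sum_congr rfl fun l' _ => ?_
  have h3 : ((t' ∈ Vs ∧ t ∈ Vs) ∧ κ t' l' ≠ 0 ∧ dn t' l' κ t l ≠ 0) ↔
      ((t ∈ Vs ∧ t' ∈ Vs) ∧ κ t l ≠ 0 ∧ dn t l κ t' l' ≠ 0) := by
    rw [cond_iff t' t l' l κ, and_comm (a := t' ∈ Vs)]
  by_cases h : (t ∈ Vs ∧ t' ∈ Vs) ∧ κ t l ≠ 0 ∧ dn t l κ t' l' ≠ 0
  · rw [if_pos h, if_pos (h3.2 h), 𝒞.comm, dn_comm]
  · rw [if_neg h, if_neg (fun h4 => h (h3.1 h4))]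

lemma F_X (𝒞 : Sys r k L a) (Vs : List (Fin r)) (m : Fin k) (t : Fin r)
    (i : Fin k) (l : Fin (L + 1)) (g : Mo r L → 𝒞.C) :
    F 𝒞 Vs m (fun κ => 𝒞.X t i l (g κ)) = fun κ => 𝒞.X t i l (F 𝒞 Vs m g κ) := by
  classical
  funext κ
  unfold F
  rw [map_sum]
  refine Finset.sum_congr rfl fun t' _ => ?_
  rw [map_sum]
  refine Finset.sum_congr rfl fun l' _ => ?_
  split_ifs
  · rw [𝒞.comm]
  · rw [map_zero]

lemma F_anti (𝒞 : Sys r k L a) (Vs : List (Fin r))
    (c : Fin k → Fin k → (Mo r L → 𝒞.C)) (hc : ∀ i m, c i m = - c m i) :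
    ∑ m, F 𝒞 Vs m (∑ n, F 𝒞 Vs n (c m n)) = 0 := by
  have h1 : ∑ m, F 𝒞 Vs m (∑ n, F 𝒞 Vs n (c m n)) =
      - ∑ m, F 𝒞 Vs m (∑ n, F 𝒞 Vs n (c m n)) := by
    have h2 : ∀ m, F 𝒞 Vs m (∑ n, F 𝒞 Vs n (c m n)) =
        ∑ n, F 𝒞 Vs m (F 𝒞 Vs n (c m n)) := fun m => F_sum 𝒞 Vs m _ _
    simp only [h2]
    conv_lhs => rw [Finset.sum_comm]
    rw [← Finset.sum_neg_distrib]
    refine Finset.sum_congr rfl fun m _ => ?_
    rw [← Finset.sum_neg_distrib]
    refine Finset.sum_congr rfl fun n _ => ?_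
    rw [hc n m, F_neg, F_neg, F_comm]
  have h3 : (2 : ℂ) • ∑ m, F 𝒞 Vs m (∑ n, F 𝒞 Vs n (c m n)) = 0 := by
    rw [two_smul]
    nth_rewrite 1 [h1]
    rw [neg_add_cancel]
  exact (smul_eq_zero.1 h3).resolve_left two_ne_zero

lemma F_cons (𝒞 : Sys r k L a) (t : Fin r) (Vs : List (Fin r)) (i : Fin k)
    (g : Mo r L → 𝒞.C) (κ : Mo r L) (ht : t ∉ Vs) :
    F 𝒞 (t :: Vs) i g κ = (∑ l, if κ t l ≠ 0 then 𝒞.X t i l (g (dn t l κ)) else 0) +
      F 𝒞 Vs i g κ := by
  classical
  unfold F
  have h1 : ∀ t', (∑ l, if t' ∈ t :: Vs ∧ κ t' l ≠ 0 then 𝒞.X t' i l (g (dn t' l κ)) else 0) =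
      (if t' = t then ∑ l, (if κ t' l ≠ 0 then 𝒞.X t' i l (g (dn t' l κ)) else 0) else 0) +
      ∑ l, if t' ∈ Vs ∧ κ t' l ≠ 0 then 𝒞.X t' i l (g (dn t' l κ)) else 0 := by
    intro t'
    by_cases h : t' = t
    · subst h
      rw [if_pos rfl]
      have h2 : (∑ l, if t' ∈ Vs ∧ κ t' l ≠ 0 then 𝒞.X t' i l (g (dn t' l κ)) else 0) = 0 :=
        Finset.sum_eq_zero fun l _ => if_neg (fun h3 => ht h3.1)
      rw [h2, add_zero]
      refine Finset.sum_congr rfl fun l _ => ?_
      simp
    · rw [if_neg h, zero_add]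
      refine Finset.sum_congr rfl fun l _ => ?_
      simp [h]
  rw [Finset.sum_congr rfl fun t' _ => h1 t', Finset.sum_add_distrib, Finset.sum_ite_eq']
  simp

lemma tdeg_dn (t : Fin r) (l : Fin (L + 1)) (κ : Mo r L) (h : κ t l ≠ 0) :
    tdeg (dn t l κ) + 1 = tdeg κ := by
  classical
  have h1 : ∀ t' l', dn t l κ t' l' + (if t' = t ∧ l' = l then 1 else 0) = κ t' l' := by
    intro t' l'
    rw [dn_apply]
    by_cases h2 : t' = t ∧ l' = l
    · obtain ⟨rfl, rfl⟩ := h2
      simp only [and_self, if_true]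
      omega
    · rw [if_neg h2, if_neg h2, add_zero]
  have h2 : ∑ t' : Fin r, ∑ l' : Fin (L + 1), (if t' = t ∧ l' = l then 1 else 0) = 1 := by
    rw [Finset.sum_eq_single t, Finset.sum_eq_single l]
    · simp
    · intro l' _ hl
      simp [hl]
    · simp
    · intro t' _ ht
      simp [ht]
    · simp
  have h3 : ∑ t' : Fin r, ∑ l' : Fin (L + 1), κ t' l' = ∑ t' : Fin r, ∑ l' : Fin (L + 1),
      dn t l κ t' l' + ∑ t' : Fin r, ∑ l' : Fin (L + 1), (if t' = t ∧ l' = l then 1 else 0) := by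
    rw [← Finset.sum_add_distrib]
    refine Finset.sum_congr rfl fun t' _ => ?_
    rw [← Finset.sum_add_distrib]
    exact Finset.sum_congr rfl fun l' _ => (h1 t' l').symm
  unfold tdeg dg
  rw [h3, h2]

lemma exists_of_F_ne {𝒞 : Sys r k L a} {Vs : List (Fin r)} {m : Fin k} {g : Mo r L → 𝒞.C}
    {κ : Mo r L} (h : F 𝒞 Vs m g κ ≠ 0) :
    ∃ t l, t ∈ Vs ∧ κ t l ≠ 0 ∧ g (dn t l κ) ≠ 0 := by
  classical
  unfold F at h
  obtain ⟨t, _, h1⟩ := Finset.exists_ne_zero_of_sum_ne_zero h
  obtain ⟨l, _, h2⟩ := Finset.exists_ne_zero_of_sum_ne_zero h1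
  by_cases h3 : t ∈ Vs ∧ κ t l ≠ 0
  · refine ⟨t, l, h3.1, h3.2, fun h4 => h2 ?_⟩
    rw [if_pos h3, h4, map_zero]
  · exact absurd (if_neg h3) h2

lemma InE_F (𝒞 : Sys r k L a) (Vs : List (Fin r)) (μ j : ℤ) (m : Fin k)
    (g : Mo r L → 𝒞.C) (hg : InE 𝒞 Vs μ j g) : InE 𝒞 Vs (μ + 1) (j + a) (F 𝒞 Vs m g) := by
  classical
  refine ⟨fun κ h => ?_, fun κ h t' ht' l' => ?_, fun κ => ?_⟩
  · obtain ⟨t, l, _, h2, h3⟩ := exists_of_F_ne h
    have h4 := hg.deg _ h3
    have h5 := tdeg_dn t l κ h2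
    omega
  · obtain ⟨t, l, h1, _, h3⟩ := exists_of_F_ne h
    have h4 := hg.sup _ h3 t' ht' l'
    have h5 : ¬ (t' = t ∧ l' = l) := fun h6 => ht' (h6.1 ▸ h1)
    rw [dn_apply, if_neg h5] at h4
    exact h4
  · unfold F
    rw [map_sum]
    refine Finset.sum_congr rfl fun t _ => ?_
    rw [map_sum]
    refine Finset.sum_congr rfl fun l _ => ?_
    split_ifs
    · rw [𝒞.πX, hg.hom]
    · rw [map_zero]

theorem specFB : SpecFB where
  F_add := F_add
  F_smul := F_smul
  F_comm := F_comm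
  F_X := F_X
  F_anti := F_anti
  F_cons := F_cons
  InE_zero := fun 𝒞 Vs μ j => ⟨fun κ h => absurd rfl h, fun κ h => absurd rfl h,
    fun κ => map_zero _⟩
  InE_add := fun 𝒞 Vs μ j g h hg hh => by
    have h1 : ∀ κ, (g + h) κ ≠ 0 → g κ ≠ 0 ∨ h κ ≠ 0 := by
      intro κ h2
      by_contra h3
      push Not at h3
      exact h2 (by rw [Pi.add_apply, h3.1, h3.2, add_zero])
    refine ⟨fun κ h2 => ?_, fun κ h2 => ?_, fun κ => ?_⟩
    · rcases h1 κ h2 with h3 | h3
      · exact hg.deg κ h3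
      · exact hh.deg κ h3
    · rcases h1 κ h2 with h3 | h3
      · exact hg.sup κ h3
      · exact hh.sup κ h3
    · rw [Pi.add_apply, map_add, hg.hom, hh.hom]
  InE_smul := fun 𝒞 Vs μ j c g hg => by
    have h1 : ∀ κ, (c • g) κ ≠ 0 → g κ ≠ 0 := by
      intro κ h2 h3
      exact h2 (by rw [Pi.smul_apply, h3, smul_zero])
    exact ⟨fun κ h2 => hg.deg κ (h1 κ h2), fun κ h2 => hg.sup κ (h1 κ h2),
      fun κ => by rw [Pi.smul_apply, map_smul, hg.hom]⟩
  InE_F := InE_F
  InE_X := fun 𝒞 Vs μ j t i l g hg => by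
    have h1 : ∀ κ, 𝒞.X t i l (g κ) ≠ 0 → g κ ≠ 0 := by
      intro κ h2 h3
      exact h2 (by rw [h3, map_zero])
    exact ⟨fun κ h2 => hg.deg κ (h1 κ h2), fun κ h2 => hg.sup κ (h1 κ h2),
      fun κ => by rw [𝒞.πX, hg.hom]⟩
  InE_neg_deg := fun 𝒞 Vs μ j g hμ hg => by
    funext κ
    by_contra h
    have h1 := hg.deg κ h
    omega

end FBM

end FrI
end

section
set_option autoImplicit false

namespace FrI

namespace FSRM

lemma Fs_eq (n A e s N : ℕ) (hA : 1 ≤ A) (hN : e + 1 ≤ N) :
    Fs n A e s = ∑ i ∈ Finset.range N, if i * A ≤ e then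
      (-1) ^ i * (s.choose i : ℤ) * ((n + e - i * A).choose n : ℤ) else 0 := by
  rw [Fs, Finset.sum_filter]
  apply Finset.sum_subset (Finset.range_mono hN)
  intro i _ hi
  rw [if_neg]
  rw [Finset.mem_range, not_lt] at hi
  have h1 : i * 1 ≤ i * A := Nat.mul_le_mul_left i hA
  omega

theorem specFSR : SpecFSR := by
  refine ⟨?_, ?_, ?_⟩
  · intro n A e
    rw [Fs, Finset.sum_eq_single 0]
    · simp
    · intro i _ hi
      rw [Nat.choose_eq_zero_of_lt (Nat.pos_of_ne_zero hi)]
      simp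
    · intro h
      exact absurd (by simp) h
  · intro n A e j hA he
    rw [Fs, Finset.sum_eq_single 0]
    · simp
    · intro i hi hi0
      rw [Finset.mem_filter] at hi
      have h1 : 1 * A ≤ i * A := Nat.mul_le_mul_right A (Nat.pos_of_ne_zero hi0)
      omega
    · intro h
      exact absurd (by simp) h
  · intro n A e j hA
    rw [Fs_eq n A (e + A) (j + 1) (e + A + 1) hA le_rfl, Fs_eq n A (e + A) j (e + A + 1) hA le_rfl,
      Fs_eq n A e j (e + A) hA (by omega), Finset.sum_range_succ', Finset.sum_range_succ' _ (e + A)]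
    have h0 : (if 0 * A ≤ e + A then (-1) ^ 0 * ((j + 1).choose 0 : ℤ) *
        ((n + (e + A) - 0 * A).choose n : ℤ) else 0) =
      (if 0 * A ≤ e + A then (-1) ^ 0 * (j.choose 0 : ℤ) *
        ((n + (e + A) - 0 * A).choose n : ℤ) else 0) := by simp
    rw [h0, add_sub_right_comm, ← Finset.sum_sub_distrib]
    congr 1
    apply Finset.sum_congr rfl
    intro i _
    have h1 : ((i + 1) * A ≤ e + A) ↔ (i * A ≤ e) := by
      rw [Nat.succ_mul]
      omega
    by_cases h2 : i * A ≤ e
    · rw [if_pos (h1.2 h2), if_pos (h1.2 h2), if_pos h2]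
      have h3 : n + (e + A) - (i + 1) * A = n + e - i * A := by
        rw [Nat.succ_mul]
        omega
      rw [h3, Nat.choose_succ_succ]
      push_cast
      ring
    · rw [if_neg (fun h => h2 (h1.1 h)), if_neg (fun h => h2 (h1.1 h)), if_neg h2]
      simp

end FSRM

end FrI
end

section
/-!
# MP_921642_ag, FI: the Hilbert function of a regular sequence (module HILB)
-/
set_option autoImplicit false

namespace FrI.HILBM

open MvPolynomial Pool.Agent.Lib.MP_921642_ag

/-- rank and nullity for the map `(p, g) ↦ p + L g` -/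
theorem dim_key {E : Type} [AddCommGroup E] [Module ℂ E] (L : E →ₗ[ℂ] E) (P W W' : Submodule ℂ E)
    [FiniteDimensional ℂ P] [FiniteDimensional ℂ W] (hW : W' ≤ W)
    (hk : ∀ g ∈ W, L g ∈ P ↔ g ∈ W') :
    Module.finrank ℂ (P ⊔ W.map L : Submodule ℂ E) + Module.finrank ℂ W' =
      Module.finrank ℂ P + Module.finrank ℂ W := by
  set Θ : (P × W) →ₗ[ℂ] E := P.subtype.coprod (L ∘ₗ W.subtype) with hΘ
  have happ : ∀ z : P × W, Θ z = (z.1 : E) + L (z.2 : E) := by
    intro z
    rw [hΘ, LinearMap.coprod_apply]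
    rfl
  have hr : LinearMap.range Θ = P ⊔ W.map L := by
    rw [hΘ, LinearMap.range_coprod, Submodule.range_subtype, LinearMap.range_comp,
      Submodule.range_subtype]
  have e : LinearMap.ker Θ ≃ₗ[ℂ] W' :=
    { toFun := fun z => ⟨(z.1.2 : E), by
        have h1 := (LinearMap.mem_ker.1 z.2)
        rw [happ] at h1
        refine (hk _ z.1.2.2).1 ?_
        rw [eq_neg_of_add_eq_zero_right h1]
        exact P.neg_mem z.1.1.2⟩
      invFun := fun g => ⟨(⟨-L g, P.neg_mem ((hk _ (hW g.2)).2 g.2)⟩, ⟨g, hW g.2⟩), by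
        rw [LinearMap.mem_ker, happ]
        simp⟩
      map_add' := fun _ _ => rfl
      map_smul' := fun _ _ => rfl
      left_inv := by
        intro z
        have h1 := (LinearMap.mem_ker.1 z.2)
        rw [happ] at h1
        apply Subtype.ext
        apply Prod.ext
        · apply Subtype.ext
          exact (eq_neg_of_add_eq_zero_left h1).symm
        · rfl
      right_inv := fun _ => rfl }
  have h1 := LinearMap.finrank_range_add_finrank_ker Θ
  rw [hr, e.finrank_eq, Module.finrank_prod] at h1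
  exact h1

section

variable {σ : Type} [Fintype σ] {f : ℕ → MvPolynomial σ ℂ} {A : ℕ}

omit [Fintype σ] in
theorem mul_mem_V {a b : ℕ} {p q : MvPolynomial σ ℂ} (hp : p ∈ V σ a) (hq : q ∈ V σ b) :
    p * q ∈ V σ (a + b) :=
  (mem_homogeneousSubmodule _ _).2
    (((mem_homogeneousSubmodule _ _).1 hp).mul ((mem_homogeneousSubmodule _ _).1 hq))

omit [Fintype σ] in
theorem Iq_zero (e : ℕ) : Iq f A e 0 = ⊥ := by
  rw [Iq]
  split
  · rw [iSup_of_empty]
  · rfl

omit [Fintype σ] in
theorem Iq_lt {e j : ℕ} (h : e < A) : Iq f A e j = ⊥ := by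
  rw [Iq, if_neg (by omega)]

omit [Fintype σ] in
theorem Iq_succ {e j : ℕ} (h : A ≤ e) :
    Iq f A e (j + 1) = Iq f A e j ⊔ (V σ (e - A)).map (LinearMap.mulLeft ℂ (f j)) := by
  rw [Iq, Iq, if_pos h, if_pos h]
  apply le_antisymm
  · refine iSup_le fun i => ?_
    by_cases hi : (i : ℕ) < j
    · exact le_sup_of_le_left (le_iSup (fun i : Fin j =>
        (V σ (e - A)).map (LinearMap.mulLeft ℂ (f i))) ⟨i, hi⟩)
    · have h1 : (i : ℕ) = j := by omega
      rw [h1]
      exact le_sup_right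
  · apply sup_le
    · refine iSup_le fun i => ?_
      exact le_iSup (fun i : Fin (j + 1) =>
        (V σ (e - A)).map (LinearMap.mulLeft ℂ (f i))) ⟨i, by omega⟩
    · exact le_iSup (fun i : Fin (j + 1) =>
        (V σ (e - A)).map (LinearMap.mulLeft ℂ (f i))) ⟨j, by omega⟩

omit [Fintype σ] in
theorem Iq_le_V (hf : ∀ i, f i ∈ V σ A) (e j : ℕ) : Iq f A e j ≤ V σ e := by
  rw [Iq]
  split
  · rename_i h
    refine iSup_le fun i => ?_
    rintro _ ⟨g, hg, rfl⟩
    rw [LinearMap.mulLeft_apply]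
    have h1 := mul_mem_V (hf i) hg
    rwa [Nat.add_sub_cancel' h] at h1
  · exact bot_le

theorem Iq_fd (hf : ∀ i, f i ∈ V σ A) (e j : ℕ) : FiniteDimensional ℂ (Iq f A e j) :=
  Submodule.finiteDimensional_of_le (Iq_le_V hf e j)

omit [Fintype σ] in
theorem mul_Iq (hf : ∀ i, f i ∈ V σ A) {e j k : ℕ} (h : A ≤ e) {g : MvPolynomial σ ℂ}
    (hg : g ∈ Iq f A (e - A) j) : f k * g ∈ Iq f A e j := by
  have h1 : Iq f A (e - A) j ≤ (Iq f A e j).comap (LinearMap.mulLeft ℂ (f k)) := by
    rw [Iq]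
    split
    · rename_i h2
      refine iSup_le fun i => ?_
      rintro _ ⟨g, hg, rfl⟩
      rw [Submodule.mem_comap, LinearMap.mulLeft_apply, LinearMap.mulLeft_apply, Iq, if_pos h]
      have h3 := mul_mem_V (hf k) hg
      rw [Nat.add_sub_cancel' h2] at h3
      have h4 : f k * (f i * g) = LinearMap.mulLeft ℂ (f i) (f k * g) := by
        rw [LinearMap.mulLeft_apply]
        ring
      rw [h4]
      exact (le_iSup (fun i : Fin j => (V σ (e - A)).map (LinearMap.mulLeft ℂ (f i))) i)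
        (Submodule.mem_map_of_mem h3)
    · exact bot_le
  exact h1 hg

end

theorem specHILB (h1 : SpecFSR) : SpecHILB := by
  intro σ _ n A e s f hσ hA hf hR
  have hV : ∀ e', (Module.finrank ℂ (V σ e') : ℤ) = ((n + e').choose n : ℤ) := by
    intro e'
    rw [finrank_V, hσ]
    have : n + 1 + e' - 1 = n + e' := by omega
    rw [this, Nat.choose_symm_add]
  intro j
  induction j with
  | zero =>
    intro _ e' _
    rw [Iq_zero, finrank_bot, hV, h1.1]
    simp
  | succ j ih =>
    intro hj e' he'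
    by_cases h : e' < A
    · rw [Iq_lt h, finrank_bot, hV, h1.2.1 n A e' (j + 1) hA h]
      simp
    · have hAe : A ≤ e' := not_lt.1 h
      have i1 := ih (by omega) e' he'
      have i2 := ih (by omega) (e' - A) (by omega)
      haveI := Iq_fd hf e' j
      have k1 := dim_key (LinearMap.mulLeft ℂ (f j)) (Iq f A e' j) (V σ (e' - A))
        (Iq f A (e' - A) j) (Iq_le_V hf _ _) (fun g hg => by
          rw [LinearMap.mulLeft_apply]
          exact ⟨fun h2 => hR j (by omega) e' he' hAe g hg h2, fun h2 => mul_Iq hf hAe h2⟩)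
      rw [← Iq_succ hAe] at k1
      have r1 := h1.2.2 n A (e' - A) j hA
      rw [Nat.sub_add_cancel hAe] at r1
      have k2 : (Module.finrank ℂ (Iq f A e' (j + 1)) : ℤ)
          + (Module.finrank ℂ (Iq f A (e' - A) j) : ℤ) =
          (Module.finrank ℂ (Iq f A e' j) : ℤ) + (Module.finrank ℂ (V σ (e' - A)) : ℤ) := by
        exact_mod_cast k1
      linarith

end FrI.HILBM
end

section
/-!
# MP_921642_ag, FI4: the logarithm is large
-/
set_option autoImplicit false

namespace FrI.LAM4M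

open FrI

theorem specLAM4 (hLAM : SpecLAM) : SpecLAM4 := by
  intro d hd h
  apply hLAM d hd
  have hdr : (2 : ℝ) ≤ d := by exact_mod_cast hd
  have h2 : (0.69 : ℝ) ≤ Real.log d := by
    have h1 : Real.log 2 ≤ Real.log d := Real.log_le_log (by norm_num) hdr
    have := Real.log_two_gt_d9
    linarith
  have h4 : (0.2 : ℝ) ≤ (Real.log d) ^ 4 := by
    have h5 := pow_le_pow_left₀ (by norm_num : (0 : ℝ) ≤ 0.69) h2 4
    refine le_trans ?_ h5
    norm_num
  have hbig : (10 : ℝ) ^ 9 ≤ d := by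
    refine le_trans ?_ h
    nlinarith
  have h1 : (1 : ℝ) ≤ Real.log d := by
    rw [Real.le_log_iff_exp_le (by linarith)]
    have := Real.exp_one_lt_d9
    norm_num at hbig
    linarith
  have h3 : (Real.log d) ^ 2 ≤ (Real.log d) ^ 4 := pow_le_pow_right₀ h1 (by norm_num)
  nlinarith [sq_nonneg (Real.log d)]

end FrI.LAM4M
end

section
/-!
# MP_921642_ag, FI4: the leaf of the game
-/
set_option autoImplicit false

namespace FrI.LEAFM

open FrI

theorem sum_range_split (A : ℕ) (f : ℕ → ℝ) :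
    ∑ α ∈ Finset.range (A + 1), f α = f 0 + ∑ α ∈ Finset.Icc 1 A, f α := by
  rw [Finset.range_eq_Ico, Finset.sum_eq_sum_Ico_succ_bot (Nat.succ_pos A)]
  rfl

theorem leaf_bound (h : SpecOM) (n D A : ℕ) (μ : ℕ → ℝ) (hμ : ∀ α, 0 ≤ μ α) :
    ∑ α ∈ Finset.range (A + 1), μ α * (if α ≤ D then (1 : ℝ) else 0) ≤
      μ 0 + load n D A μ * ((n + D).choose n : ℝ) := by
  rw [sum_range_split, if_pos (Nat.zero_le _), mul_one]
  refine add_le_add le_rfl ?_
  unfold load
  rw [Finset.sum_mul]
  refine Finset.sum_le_sum fun α _ => ?_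
  rw [mul_assoc]
  refine mul_le_mul_of_nonneg_left ?_ (hμ α)
  split
  · next hα =>
    have := h.low n D α hα
    rwa [mul_comm] at this
  · exact mul_nonneg (h.nonneg n D α) (Nat.cast_nonneg _)

theorem specLEAF (hOM : SpecOM) : SpecLEAF := by
  intro r A n D S μ K cap hS hK hμ hcap
  refine ⟨.leaf, ⟨by omega, hS⟩, ?_, ?_⟩
  · rw [lv, List.length_singleton]
    exact hK
  · intro B hB t
    have hB' : B = fun _ α => if α ≤ D then 1 else 0 := List.mem_singleton.1 hB
    subst hB'
    refine ⟨fun α => by dsimp only; split <;> norm_num, ?_⟩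
    exact (leaf_bound hOM n D A (μ t) (hμ t)).trans (add_le_add le_rfl (hcap t))

end FrI.LEAFM
end
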