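import Pool.Agent.Lib.MP_921642_ag.FI.Spec2
import Pool.Agent.Lib.MP_921642_ag.FI.Spec3
import Pool.Agent.Lib.MP_921642_ag.FI.Spec4
import Pool.Agent.Lib.MP_921642_ag.FI.LEAF

section
/-!
# MP_921642_ag, FI: the induction of the fractional game (module POTI)
-/
set_option autoImplicit false

namespace FrI.POTIM

open FrI

theorem load_nonneg (h : SpecOM) (n D A : ℕ) (μ : ℕ → ℝ) (hμ : ∀ α, 0 ≤ μ α) :
    0 ≤ load n D A μ :=
  Finset.sum_nonneg fun α _ => mul_nonneg (hμ α) (h.nonneg n D α)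

/-- Sum over `0, ..., A`. -/
theorem sum_range_split (A : ℕ) (f : ℕ → ℝ) :
    ∑ α ∈ Finset.range (A + 1), f α = f 0 + ∑ α ∈ Finset.Icc 1 A, f α := by
  rw [Finset.range_eq_Ico, Finset.sum_eq_sum_Ico_succ_bot (Nat.succ_pos A)]
  rfl

/-- The leaf. -/
theorem leaf_bound (h : SpecOM) (n D A : ℕ) (μ : ℕ → ℝ) (hμ : ∀ α, 0 ≤ μ α) :
    ∑ α ∈ Finset.range (A + 1), μ α * (if α ≤ D then (1 : ℝ) else 0) ≤
      μ 0 + load n D A μ * ((n + D).choose n : ℝ) := by
  rw [sum_range_split, if_pos (Nat.zero_le _), mul_one]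
  refine add_le_add le_rfl ?_
  unfold load
  rw [Finset.sum_mul]
  refine Finset.sum_le_sum fun α _ => ?_
  rw [mul_assoc]
  refine mul_le_mul_of_nonneg_left ?_ (hμ α)
  split
  · next hα =>
    have := h.low n D α hα
    rwa [mul_comm] at this
  · exact mul_nonneg (h.nonneg n D α) (Nat.cast_nonneg _)

theorem load_le {r : ℕ} (h : SpecOM) (n D A : ℕ) (μ : Fin r → ℕ → ℝ) (γ g : ℝ) (hγ : 0 < γ)
    (hμ : ∀ t α, 0 ≤ μ t α) (hg : ∑ t, (load n D A (μ t)) ^ γ ≤ g) (t : Fin r) :
    load n D A (μ t) ≤ g ^ (1 / γ) := by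
  have h0 : ∀ t, 0 ≤ load n D A (μ t) := fun t => load_nonneg h n D A _ (hμ t)
  have h1 : (load n D A (μ t)) ^ γ ≤ g :=
    (Finset.single_le_sum (f := fun t => (load n D A (μ t)) ^ γ)
      (fun t _ => Real.rpow_nonneg (h0 t) _) (Finset.mem_univ t)).trans hg
  have h2 := Real.rpow_le_rpow (Real.rpow_nonneg (h0 t) _) h1 (z := 1 / γ) (by positivity)
  rwa [← Real.rpow_mul (h0 t), mul_one_div_cancel hγ.ne', Real.rpow_one] at h2

theorem res_sum (A : ℕ) (μ p B : ℕ → ℝ) (hp : p 0 = 1) (hA : μ (A + 1) = 0) :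
    ∑ α ∈ Finset.range (A + 1), μ α * (p α * B α + (1 - p α) * B (α - 1)) =
      ∑ α ∈ Finset.range (A + 1), (p α * μ α + (1 - p (α + 1)) * μ (α + 1)) * B α := by
  have e1 : ∑ α ∈ Finset.range (A + 1), μ α * (p α * B α + (1 - p α) * B (α - 1)) =
      ∑ α ∈ Finset.range (A + 1), p α * μ α * B α +
        ∑ α ∈ Finset.range (A + 1), (1 - p α) * μ α * B (α - 1) := by
    rw [← Finset.sum_add_distrib]
    exact Finset.sum_congr rfl fun α _ => by ring
  have e2 : ∑ α ∈ Finset.range (A + 1), (p α * μ α + (1 - p (α + 1)) * μ (α + 1)) * B α =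
      ∑ α ∈ Finset.range (A + 1), p α * μ α * B α +
        ∑ α ∈ Finset.range (A + 1), (1 - p (α + 1)) * μ (α + 1) * B α := by
    rw [← Finset.sum_add_distrib]
    exact Finset.sum_congr rfl fun α _ => by ring
  rw [e1, e2]
  congr 1
  rw [Finset.sum_range_succ', Finset.sum_range_succ, hp, hA]
  simp

theorem leaf_case (hOM : SpecOM) (r n1 : ℕ) (γ Sm : ℝ) (hrn : r ≤ n1 + 1) (hγ : 0 < γ)
    (hSm : 1 ≤ Sm) (A : ℕ) (g : ℝ) (k n D : ℕ) (μ : Fin r → ℕ → ℝ) (hn : n1 ≤ n)
    (hc : ((n1 + D).choose n1 : ℝ) ≤ Sm) (hμ : ∀ t α, 0 ≤ μ t α)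
    (hg : ∑ t, (load n D A (μ t)) ^ γ ≤ g) (hend : n = n1 ∨ D = 0) :
    ∃ τ : FT r, Val τ (n + 1) D ∧ (lv τ D).length ≤ (n - n1 + D).choose D ∧
      ∀ B ∈ lv τ D, ∀ t, (∀ α, 0 ≤ B t α) ∧
        ∑ α ∈ Finset.range (A + 1), μ t α * B t α ≤
          μ t 0 + ((k + 1 : ℕ) : ℝ) * g ^ (1 / γ) * Sm := by
  refine ⟨.leaf, by show r ≤ n + 1; omega, Nat.choose_pos (Nat.le_add_left _ _), ?_⟩
  intro B hB t
  have hB' : B = fun _ α => if α ≤ D then 1 else 0 := List.mem_singleton.1 hB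
  subst hB'
  refine ⟨fun α => by dsimp only; split <;> norm_num, ?_⟩
  refine (leaf_bound hOM n D A (μ t) (hμ t)).trans ?_
  refine add_le_add le_rfl ?_
  have h0 := load_nonneg hOM n D A (μ t) (hμ t)
  have h1 := load_le hOM n D A μ γ g hγ hμ hg t
  have h2 : ((n + D).choose n : ℝ) ≤ Sm := by
    rcases hend with rfl | rfl
    · exact hc
    · rw [Nat.add_zero, Nat.choose_self, Nat.cast_one]
      exact hSm
  have h3 : (0 : ℝ) ≤ g ^ (1 / γ) := h0.trans h1
  have h4 : load n D A (μ t) * ((n + D).choose n : ℝ) ≤ g ^ (1 / γ) * Sm :=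
    mul_le_mul h1 h2 (Nat.cast_nonneg _) h3
  refine h4.trans (mul_le_mul_of_nonneg_right ?_ (by linarith))
  refine le_mul_of_one_le_left h3 ?_
  push_cast
  have : (0 : ℝ) ≤ k := Nat.cast_nonneg k
  linarith

theorem pot (hOM : SpecOM) (hSTEP : SpecSTEP) (r n1 : ℕ) (γ R0 Sm : ℝ) (hr : 1 ≤ r)
    (hn1 : 1 ≤ n1) (hrn : r ≤ n1 + 1) (hγ : 0 < γ) (hγ1 : γ ≤ 1) (hR : 1 ≤ R0)
    (hR2 : ((r : ℝ) - 1) * (R0 ^ γ - 1) ≤ 1) (hSm : 1 ≤ Sm) (A : ℕ) (g : ℝ) (k : ℕ) :
    ∀ (n D : ℕ) (μ : Fin r → ℕ → ℝ), n - n1 + D = k → n1 ≤ n →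
    ((n1 + D : ℕ) : ℝ) ≤ R0 * n1 →
    ((n1 + D).choose n1 : ℝ) ≤ Sm → (∀ t α, 0 ≤ μ t α) → (∀ t α, A < α → μ t α = 0) →
    ∑ t, (load n D A (μ t)) ^ γ ≤ g →
    ∃ τ : FT r, Val τ (n + 1) D ∧ (lv τ D).length ≤ (n - n1 + D).choose D ∧
      ∀ B ∈ lv τ D, ∀ t, (∀ α, 0 ≤ B t α) ∧
        ∑ α ∈ Finset.range (A + 1), μ t α * B t α ≤
          μ t 0 + ((k + 1 : ℕ) : ℝ) * g ^ (1 / γ) * Sm := by
  induction k with
  | zero =>
    intro n D μ hk hn _ hc hμ _ hg
    exact leaf_case hOM r n1 γ Sm hrn hγ hSm A g 0 n D μ hn hc hμ hg (Or.inl (by omega))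
  | succ k ih =>
    intro n D μ hk hn hD hc hμ hA hg
    by_cases hend : n = n1 ∨ D = 0
    · exact leaf_case hOM r n1 γ Sm hrn hγ hSm A g (k + 1) n D μ hn hc hμ hg hend
    push Not at hend
    obtain ⟨hnn, hD0⟩ := hend
    have hD1 : 1 ≤ D := by omega
    have hnR : ((n + D : ℕ) : ℝ) ≤ R0 * n := by
      have h1 : (n1 : ℝ) ≤ n := by exact_mod_cast hn
      push_cast at hD ⊢
      nlinarith
    obtain ⟨t0, p, hp0, hp, htr, hres, hmass⟩ := hSTEP r γ R0 hr hγ hγ1 hR hR2 A n D μ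
      (by omega) hD1 hnR hμ hA
    -- the children
    obtain ⟨τ₁, v₁, l₁, b₁⟩ := ih (n - 1) D (fun t α => if t = t0 then p α * μ t α else μ t α)
      (by omega) (by omega) hD hc
      (fun t α => by
        split
        · exact mul_nonneg (hp α).1 (hμ t α)
        · exact hμ t α)
      (fun t α hα => by
        rw [hA t α hα, mul_zero, ite_self])
      (htr.trans hg)
    have hD' : ((n1 + (D - 1) : ℕ) : ℝ) ≤ R0 * n1 := by
      refine le_trans ?_ hD
      exact_mod_cast (by omega : n1 + (D - 1) ≤ n1 + D)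
    have hc' : ((n1 + (D - 1)).choose n1 : ℝ) ≤ Sm := by
      refine le_trans ?_ hc
      exact_mod_cast Nat.choose_le_choose n1 (by omega : n1 + (D - 1) ≤ n1 + D)
    obtain ⟨τ₂, v₂, l₂, b₂⟩ := ih n (D - 1)
      (fun t α => if t = t0 then p α * μ t α + (1 - p (α + 1)) * μ t (α + 1) else μ t α)
      (by omega) hn hD' hc'
      (fun t α => by
        split
        · exact add_nonneg (mul_nonneg (hp α).1 (hμ t α))
            (mul_nonneg (by linarith [(hp (α + 1)).2]) (hμ t (α + 1)))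
        · exact hμ t α)
      (fun t α hα => by
        rw [hA t α hα, hA t (α + 1) (by omega), mul_zero, mul_zero, add_zero, ite_self])
      (hres.trans hg)
    have hgpos : (0 : ℝ) ≤ g ^ (1 / γ) :=
      (load_nonneg hOM n D A (μ t0) (hμ t0)).trans (load_le hOM n D A μ γ g hγ hμ hg t0)
    have hGpos : (0 : ℝ) ≤ ∑ t, (load n D A (μ t)) ^ γ :=
      Finset.sum_nonneg fun t _ => Real.rpow_nonneg (load_nonneg hOM n D A _ (hμ t)) _
    have hmass' : (1 - p 1) * μ t0 1 ≤ g ^ (1 / γ) :=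
      hmass.trans (Real.rpow_le_rpow hGpos hg (by positivity))
    have hgS : g ^ (1 / γ) ≤ g ^ (1 / γ) * Sm := le_mul_of_one_le_right hgpos hSm
    have hgS0 : 0 ≤ g ^ (1 / γ) * Sm := hgpos.trans hgS
    refine ⟨.node t0 p τ₁ τ₂, ⟨by omega, hD1, hp0, hp, ?_, v₂⟩, ?_, ?_⟩
    · have e : n + 1 - 1 = n - 1 + 1 := by omega
      rw [e]
      exact v₁
    · rw [lv, List.length_append, List.length_map, List.length_map]
      obtain ⟨b, rfl⟩ : ∃ b, D = b + 1 := ⟨D - 1, by omega⟩
      obtain ⟨a, ha⟩ : ∃ a, n - n1 = a + 1 := ⟨n - n1 - 1, by omega⟩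
      have ha' : n - 1 - n1 = a := by omega
      rw [ha'] at l₁
      rw [ha, Nat.add_sub_cancel] at l₂
      rw [ha, Nat.add_sub_cancel]
      have e1 : a + (b + 1) = a + 1 + b := by ring
      have e2 : a + 1 + (b + 1) = a + 1 + b + 1 := by ring
      rw [e1] at l₁
      rw [e2, Nat.choose_succ_succ']
      omega
    · intro B hB t
      rw [lv] at hB
      rcases List.mem_append.1 hB with hB | hB
      · obtain ⟨B', hB', rfl⟩ := List.mem_map.1 hB
        obtain ⟨c1, c2⟩ := b₁ B' hB' t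
        refine ⟨fun α => ?_, ?_⟩
        · dsimp only
          split
          · exact mul_nonneg (hp α).1 (c1 α)
          · exact c1 α
        · have e : ∑ α ∈ Finset.range (A + 1),
              μ t α * (if t = t0 then p α * B' t α else B' t α) =
              ∑ α ∈ Finset.range (A + 1), (if t = t0 then p α * μ t α else μ t α) * B' t α := by
            refine Finset.sum_congr rfl fun α _ => ?_
            split
            · ring
            · rfl
          have e0 : (if t = t0 then p 0 * μ t 0 else μ t 0) = μ t 0 := by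
            rw [hp0, one_mul, ite_self]
          dsimp only at c2 ⊢
          rw [e]
          rw [e0] at c2
          refine c2.trans ?_
          push_cast
          nlinarith
      · obtain ⟨B', hB', rfl⟩ := List.mem_map.1 hB
        obtain ⟨c1, c2⟩ := b₂ B' hB' t
        refine ⟨fun α => ?_, ?_⟩
        · dsimp only
          split
          · exact add_nonneg (mul_nonneg (hp α).1 (c1 α))
              (mul_nonneg (by linarith [(hp α).2]) (c1 (α - 1)))
          · exact c1 α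
        · dsimp only at c2 ⊢
          by_cases ht : t = t0
          · subst ht
            simp only [if_true] at c2 ⊢
            rw [res_sum A (μ t) p (B' t) hp0 (hA t (A + 1) (by omega))]
            refine c2.trans ?_
            rw [hp0, one_mul]
            push_cast
            nlinarith
          · simp only [ht, if_false] at c2 ⊢
            refine c2.trans ?_
            push_cast
            nlinarith

/-- The induction with the sharp number of leaves (the statement of SpecPOT with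
`(n - n1 + D).choose D` instead of `2 ^ (n - n1 + D)`). -/
theorem pot2 (hOM : SpecOM) (hSTEP : SpecSTEP) :
    ∀ (r n1 : ℕ) (γ R0 Sm : ℝ), 1 ≤ r → 1 ≤ n1 → r ≤ n1 + 1 → 0 < γ → γ ≤ 1 →
    1 ≤ R0 → ((r : ℝ) - 1) * (R0 ^ γ - 1) ≤ 1 → 1 ≤ Sm →
    ∀ (A n D : ℕ) (μ : Fin r → ℕ → ℝ) (g : ℝ), n1 ≤ n → ((n1 + D : ℕ) : ℝ) ≤ R0 * n1 →
      ((n1 + D).choose n1 : ℝ) ≤ Sm → (∀ t α, 0 ≤ μ t α) → (∀ t α, A < α → μ t α = 0) →
      ∑ t, (load n D A (μ t)) ^ γ ≤ g →
      ∃ τ : FT r, Val τ (n + 1) D ∧ (lv τ D).length ≤ (n - n1 + D).choose D ∧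
        ∀ B ∈ lv τ D, ∀ t, (∀ α, 0 ≤ B t α) ∧
          ∑ α ∈ Finset.range (A + 1), μ t α * B t α ≤
            μ t 0 + ((n - n1 + D + 1 : ℕ) : ℝ) * g ^ (1 / γ) * Sm := by
  intro r n1 γ R0 Sm hr hn1 hrn hγ hγ1 hR hR2 hSm A n D μ g hn hD hc hμ hA hg
  exact pot hOM hSTEP r n1 γ R0 Sm hr hn1 hrn hγ hγ1 hR hR2 hSm A g _ n D μ rfl hn hD hc hμ hA hg

theorem specPOTI (hOM : SpecOM) (hSTEP : SpecSTEP) : SpecPOTI := by
  intro r n1 γ R0 Sm hr hn1 hrn hγ hγ1 hR hR2 hSm A n D μ g hn hD hc hμ hA hg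
  obtain ⟨τ, h1, h2, h3⟩ := pot2 hOM hSTEP r n1 γ R0 Sm hr hn1 hrn hγ hγ1 hR hR2 hSm A n D μ g
    hn hD hc hμ hA hg
  exact ⟨τ, h1, h2.trans (Nat.choose_le_two_pow _ _), h3⟩

end FrI.POTIM
end

section
/-!
# MP_921642_ag, FI3: module POT2
-/
set_option autoImplicit false

namespace FrI.POT2M

open FrI

/-- **POT2.** -/
theorem specPOT2 (hOM : SpecOM) (hSTEP : SpecSTEP) : SpecPOT2 :=
  FrI.POTIM.pot2 hOM hSTEP

end FrI.POT2M
end

section
/-!
# MP_921642_ag, FI, module REN: renaming of variables, and FRV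
-/
set_option autoImplicit false

namespace FrI

open MvPolynomial Pool.Agent.Lib.MP_921642_ag

namespace RENM

lemma map_V {σ τ : Type} (ε : σ ≃ τ) (k : ℕ) :
    (V σ k).map (renameEquiv ℂ ε).toLinearEquiv.toLinearMap = V τ k := by
  ext g
  rw [Submodule.mem_map]
  constructor
  · rintro ⟨h, hh, rfl⟩
    exact (mem_homogeneousSubmodule _ _).2
      (IsHomogeneous.rename_isHomogeneous ((mem_homogeneousSubmodule _ _).1 hh))
  · intro hg
    refine ⟨rename ε.symm g, ?_, ?_⟩
    · exact (mem_homogeneousSubmodule _ _).2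
        (IsHomogeneous.rename_isHomogeneous ((mem_homogeneousSubmodule _ _).1 hg))
    · show rename ε (rename ε.symm g) = g
      rw [rename_rename]
      simp

lemma map_map {σ τ : Type} (ε : σ ≃ τ) (k : ℕ) (f : MvPolynomial σ ℂ) :
    ((V σ k).map (LinearMap.mulLeft ℂ f)).map (renameEquiv ℂ ε).toLinearEquiv.toLinearMap =
      (V τ k).map (LinearMap.mulLeft ℂ (rename ε f)) := by
  rw [← map_V ε k, ← Submodule.map_comp, ← Submodule.map_comp]
  congr 1
  apply LinearMap.ext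
  intro g
  show rename ε (f * g) = rename ε f * rename ε g
  rw [map_mul]

lemma map_Iq {σ τ : Type} (ε : σ ≃ τ) (f : ℕ → MvPolynomial σ ℂ) (A e j : ℕ) :
    Iq (fun i => rename ε (f i)) A e j =
      (Iq f A e j).map (renameEquiv ℂ ε).toLinearEquiv.toLinearMap := by
  unfold Iq
  split_ifs with h
  · rw [Submodule.map_iSup]
    exact iSup_congr fun i => (map_map ε (e - A) (f i)).symm
  · rw [Submodule.map_bot]

theorem specREN : SpecREN := by
  intro σ τ _ _ ε f A e j
  rw [map_Iq]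
  exact LinearEquiv.finrank_map_eq _ _

theorem specFRV : SpecFRV := by
  intro N r s L a q b M hM i
  unfold fR
  split_ifs with h
  · refine Submodule.sum_mem _ fun t _ => Submodule.sum_mem _ fun l _ => ?_
    rw [mem_homogeneousSubmodule]
    have h1 : (expand q (M t ⟨i, h⟩ l)).IsHomogeneous (q * a) := by
      have h2 := ((mem_homogeneousSubmodule _ _).1 (hM t ⟨i, h⟩ l)).aeval
        (fun i => (X i : Po N) ^ q) (n := q) (fun i => by
          have h3 := (isHomogeneous_X ℂ i).pow q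
          rwa [one_mul] at h3)
      exact h2
    have h2 : ((X (Sum.inr (t, l)) : MvPolynomial (Fin N ⊕ (Fin r × Fin (L + 1))) ℂ) ^ b).IsHomogeneous
        b := by
      have h3 := (isHomogeneous_X ℂ (Sum.inr (t, l) : Fin N ⊕ (Fin r × Fin (L + 1)))).pow b
      rwa [one_mul] at h3
    exact h1.rename_isHomogeneous.mul h2
  · exact Submodule.zero_mem _

end RENM

end FrI
end

section
/-!
# MP_921642_ag, FI, module SEMB: one more form
-/
set_option autoImplicit false

namespace FrI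

open MvPolynomial Pool.Agent.Lib.MP_921642_ag

namespace SEMBM

variable {σ : Type} [Fintype σ]

omit [Fintype σ] in
lemma Iq_le_V (A e j : ℕ) (f : ℕ → MvPolynomial σ ℂ) (hf : ∀ i, f i ∈ V σ A) :
    Iq f A e j ≤ V σ e := by
  unfold Iq
  split_ifs with h
  · refine iSup_le fun i => ?_
    rintro _ ⟨g, hg, rfl⟩
    have h1 := ((mem_homogeneousSubmodule _ _).1 (hf i)).mul ((mem_homogeneousSubmodule _ _).1 hg)
    rw [Nat.add_sub_cancel' h] at h1
    exact (mem_homogeneousSubmodule _ _).2 h1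
  · exact bot_le

omit [Fintype σ] in
lemma Iq_succ (A e j : ℕ) (f : ℕ → MvPolynomial σ ℂ) (h : A ≤ e) :
    Iq f A e (j + 1) = Iq f A e j ⊔ (V σ (e - A)).map (LinearMap.mulLeft ℂ (f j)) := by
  unfold Iq
  rw [if_pos h, if_pos h]
  apply le_antisymm
  · refine iSup_le fun i => ?_
    rcases Nat.lt_or_ge (i : ℕ) j with hi | hi
    · exact le_sup_of_le_left
        (le_iSup (fun i : Fin j => (V σ (e - A)).map (LinearMap.mulLeft ℂ (f i))) ⟨i, hi⟩)
    · have hij : (i : ℕ) = j := by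
        have := i.2
        omega
      rw [hij]
      exact le_sup_right
  · refine sup_le (iSup_le fun i => ?_) ?_
    · exact le_iSup (fun i : Fin (j + 1) => (V σ (e - A)).map (LinearMap.mulLeft ℂ (f i)))
        (Fin.castSucc i)
    · exact le_iSup (fun i : Fin (j + 1) => (V σ (e - A)).map (LinearMap.mulLeft ℂ (f i)))
        (Fin.last j)

omit [Fintype σ] in
lemma mul_Iq (A e j : ℕ) (f : ℕ → MvPolynomial σ ℂ) (hf : ∀ i, f i ∈ V σ A) (m : ℕ) :
    (Iq f A e j).map (LinearMap.mulLeft ℂ (f m)) ≤ Iq f A (e + A) j := by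
  unfold Iq
  rw [if_pos (Nat.le_add_left A e)]
  split_ifs with h
  · rw [Submodule.map_iSup]
    refine iSup_le fun i => ?_
    refine le_trans ?_
      (le_iSup (fun i : Fin j => (V σ (e + A - A)).map (LinearMap.mulLeft ℂ (f i))) i)
    rintro _ ⟨_, ⟨g, hg, rfl⟩, rfl⟩
    refine ⟨f m * g, ?_, ?_⟩
    · have h1 := ((mem_homogeneousSubmodule _ _).1 (hf m)).mul
        ((mem_homogeneousSubmodule _ _).1 hg)
      rw [Nat.add_sub_cancel' h] at h1
      rw [Nat.add_sub_cancel]
      exact (mem_homogeneousSubmodule _ _).2 h1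
    · simp only [LinearMap.mulLeft_apply]
      ring
  · rw [Submodule.map_bot]
    exact bot_le

theorem specSEMB : SpecSEMB := by
  intro σ _ A e j f hf
  have hfin : ∀ k j, FiniteDimensional ℂ (Iq f A k j) := fun k j =>
    Submodule.finiteDimensional_of_le (Iq_le_V A k j f hf)
  have := hfin (e + A) j
  have := hfin e j
  have := hfin (e + A) (j + 1)
  have h1 := Iq_succ A (e + A) j f (Nat.le_add_left A e)
  rw [Nat.add_sub_cancel] at h1
  rw [h1]
  have hle : Module.finrank ℂ (Iq f A e j) ≤ Module.finrank ℂ (V σ e) :=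
    Submodule.finrank_mono (Iq_le_V A e j f hf)
  by_cases h0 : f j = 0
  · have h2 : (V σ e).map (LinearMap.mulLeft ℂ (f j)) = ⊥ := by
      rw [h0]
      apply le_bot_iff.1
      rintro _ ⟨g, _, rfl⟩
      simp
    rw [h2, sup_bot_eq]
    omega
  · have hinj : Function.Injective (LinearMap.mulLeft ℂ (f j)) := by
      intro g h hgh
      simp only [LinearMap.mulLeft_apply] at hgh
      exact mul_left_cancel₀ h0 hgh
    have h2 := Submodule.finrank_sup_add_finrank_inf_eq (Iq f A (e + A) j)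
      ((V σ e).map (LinearMap.mulLeft ℂ (f j)))
    have h3 : Module.finrank ℂ ((V σ e).map (LinearMap.mulLeft ℂ (f j))) ≤
        Module.finrank ℂ (V σ e) := Submodule.finrank_map_le _ _
    have h4 : (Iq f A e j).map (LinearMap.mulLeft ℂ (f j)) ≤
        Iq f A (e + A) j ⊓ (V σ e).map (LinearMap.mulLeft ℂ (f j)) :=
      le_inf (mul_Iq A e j f hf j) (Submodule.map_mono (Iq_le_V A e j f hf))
    have h5 := Submodule.finrank_mono h4
    have h6 : Module.finrank ℂ ((Iq f A e j).map (LinearMap.mulLeft ℂ (f j))) =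
        Module.finrank ℂ (Iq f A e j) := (Submodule.equivMapOfInjective _ hinj (Iq f A e j)).finrank_eq.symm
    omega

end SEMBM

end FrI
end

section
/-!
# Module ST1 (MP_921642_ag, hive FI)

The first step of the proof that Tor-independence implies Koszul exactness.
-/
set_option autoImplicit false

namespace FrI.ST1M

open MvPolynomial Pool.Agent.Lib.MP_921642_ag FrI

variable {r k L : ℕ} {a : ℤ}

/-- `F` as an additive map -/
noncomputable def FA (hFB : SpecFB) (𝒞 : Sys r k L a) (Vs : List (Fin r)) (i : Fin k) :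
    (Mo r L → 𝒞.C) →+ (Mo r L → 𝒞.C) :=
  AddMonoidHom.mk' (F 𝒞 Vs i) (hFB.F_add 𝒞 Vs i)

lemma F_sum (hFB : SpecFB) (𝒞 : Sys r k L a) (Vs : List (Fin r)) (i : Fin k) {ι : Type}
    (s : Finset ι) (g : ι → (Mo r L → 𝒞.C)) :
    F 𝒞 Vs i (∑ x ∈ s, g x) = ∑ x ∈ s, F 𝒞 Vs i (g x) :=
  map_sum (FA hFB 𝒞 Vs i) g s

lemma F_sub (hFB : SpecFB) (𝒞 : Sys r k L a) (Vs : List (Fin r)) (i : Fin k)
    (g h : Mo r L → 𝒞.C) : F 𝒞 Vs i (g - h) = F 𝒞 Vs i g - F 𝒞 Vs i h :=
  map_sub (FA hFB 𝒞 Vs i) g h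

lemma InE_neg (hFB : SpecFB) {𝒞 : Sys r k L a} {Vs : List (Fin r)} {μ j : ℤ}
    {g : Mo r L → 𝒞.C} (hg : InE 𝒞 Vs μ j g) : InE 𝒞 Vs μ j (-g) := by
  have := hFB.InE_smul 𝒞 Vs μ j (-1) g hg
  rwa [neg_one_smul] at this

lemma InE_sub (hFB : SpecFB) {𝒞 : Sys r k L a} {Vs : List (Fin r)} {μ j : ℤ}
    {g h : Mo r L → 𝒞.C} (hg : InE 𝒞 Vs μ j g) (hh : InE 𝒞 Vs μ j h) :
    InE 𝒞 Vs μ j (g - h) := by
  rw [sub_eq_add_neg]
  exact hFB.InE_add 𝒞 Vs μ j _ _ hg (InE_neg hFB hh)

lemma InE_sum (hFB : SpecFB) {𝒞 : Sys r k L a} {Vs : List (Fin r)} {μ j : ℤ} {ι : Type}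
    (s : Finset ι) (g : ι → (Mo r L → 𝒞.C)) (hg : ∀ x ∈ s, InE 𝒞 Vs μ j (g x)) :
    InE 𝒞 Vs μ j (∑ x ∈ s, g x) := by
  classical
  induction s using Finset.induction_on with
  | empty => rw [Finset.sum_empty]; exact hFB.InE_zero 𝒞 Vs μ j
  | insert x s hx ih =>
    rw [Finset.sum_insert hx]
    exact hFB.InE_add 𝒞 Vs μ j _ _ (hg x (Finset.mem_insert_self x s))
      (ih fun y hy => hg y (Finset.mem_insert_of_mem hy))

/-- the class of a vector -/
noncomputable def mk (𝒞 : Sys r k L a) (t : Fin r) : (Fin (L + 1) → 𝒞.C) →ₗ[ℂ] (𝒞.cok t).C :=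
  (LinearMap.range (𝒞.rel t)).mkQ

lemma mk_surj (𝒞 : Sys r k L a) (t : Fin r) : Function.Surjective (mk 𝒞 t) :=
  Submodule.mkQ_surjective _

lemma mk_eq_zero (𝒞 : Sys r k L a) (t : Fin r) (w : Fin (L + 1) → 𝒞.C) :
    mk 𝒞 t w = 0 ↔ ∃ β : Fin k → 𝒞.C, 𝒞.rel t β = w :=
  Submodule.Quotient.mk_eq_zero _

lemma mk_X (𝒞 : Sys r k L a) (t t' : Fin r) (i : Fin k) (l : Fin (L + 1))
    (w : Fin (L + 1) → 𝒞.C) :
    (𝒞.cok t).X t' i l (mk 𝒞 t w) = mk 𝒞 t (fun l' => 𝒞.X t' i l (w l')) := rfl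

lemma mk_π (𝒞 : Sys r k L a) (t : Fin r) (j : ℤ) (w : Fin (L + 1) → 𝒞.C) :
    (𝒞.cok t).π j (mk 𝒞 t w) = mk 𝒞 t (fun l' => 𝒞.π j (w l')) := rfl

lemma F_mk (𝒞 : Sys r k L a) (t : Fin r) (Vs : List (Fin r)) (i : Fin k)
    (w : Fin (L + 1) → (Mo r L → 𝒞.C)) (κ : Mo r L) :
    F (𝒞.cok t) Vs i (fun κ' => mk 𝒞 t (fun l => w l κ')) κ =
      mk 𝒞 t (fun l => F 𝒞 Vs i (w l) κ) := by
  have h1 : (fun l => F 𝒞 Vs i (w l) κ) = ∑ t', ∑ l', (fun l => if t' ∈ Vs ∧ κ t' l' ≠ 0 then
      𝒞.X t' i l' (w l (dn t' l' κ)) else 0) := by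
    funext l
    rw [Finset.sum_apply]
    simp only [Finset.sum_apply]
    rfl
  rw [h1, map_sum]
  show (∑ t', ∑ l', _) = _
  apply Finset.sum_congr rfl
  intro t' _
  rw [map_sum]
  apply Finset.sum_congr rfl
  intro l' _
  by_cases h : t' ∈ Vs ∧ κ t' l' ≠ 0
  · simp only [if_pos h]
    rfl
  · simp only [if_neg h]
    exact (map_zero (mk 𝒞 t)).symm

theorem specST1 (hFB : SpecFB) : SpecST1 := by
  intro r k L a 𝒞 t Vs D hinj hkos μ j hμ hj u v hu hv huv
  -- the classes
  have hvb : ∀ m, InE (𝒞.cok t) Vs (μ - 1) j (fun κ => mk 𝒞 t (fun l => v l m κ)) := by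
    intro m
    have hne : ∀ κ, mk 𝒞 t (fun l => v l m κ) ≠ 0 → ∃ l, v l m κ ≠ 0 := by
      intro κ h
      by_contra h2
      push Not at h2
      apply h
      rw [show (fun l => v l m κ) = 0 from funext h2, map_zero]
    refine ⟨?_, ?_, ?_⟩
    · intro κ h
      obtain ⟨l, hl⟩ := hne κ h
      exact (hv l m).deg κ hl
    · intro κ h
      obtain ⟨l, hl⟩ := hne κ h
      exact (hv l m).sup κ hl
    · intro κ
      rw [mk_π]
      congr 1
      funext l
      exact (hv l m).hom κ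
  have hsum : ∑ m, F (𝒞.cok t) Vs m (fun κ => mk 𝒞 t (fun l => v l m κ)) = 0 := by
    funext κ
    rw [Finset.sum_apply]
    have h1 : ∀ m, F (𝒞.cok t) Vs m (fun κ => mk 𝒞 t (fun l => v l m κ)) κ =
        mk 𝒞 t (fun l => F 𝒞 Vs m (v l m) κ) := fun m => F_mk 𝒞 t Vs m (fun l => v l m) κ
    simp only [h1]
    rw [← map_sum]
    apply (mk_eq_zero 𝒞 t _).2
    refine ⟨fun i => u i κ, ?_⟩
    funext l
    rw [Sys.rel_apply, huv l κ, Finset.sum_apply, Finset.sum_apply]
  obtain ⟨cb, hcb, hanti, hvcb⟩ := hkos (μ - 1) j (by omega) hj _ hvb hsum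
  -- lifts
  classical
  have hσ : ∀ x : (𝒞.cok t).C, ∃ w : Fin (L + 1) → 𝒞.C, mk 𝒞 t w = x ∧ (x = 0 → w = 0) := by
    intro x
    by_cases hx : x = 0
    · exact ⟨0, by rw [map_zero, hx], fun _ => rfl⟩
    · obtain ⟨w, hw⟩ := mk_surj 𝒞 t x
      exact ⟨w, hw, fun h => absurd h hx⟩
  choose σ hσ1 hσ2 using hσ
  -- the antisymmetric lifts
  let c : Fin (L + 1) → Fin k → Fin k → (Mo r L → 𝒞.C) := fun l m n κ =>
    (2⁻¹ : ℂ) • (𝒞.π (j - a) (σ (cb m n κ) l) - 𝒞.π (j - a) (σ (cb n m κ) l))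
  have hcne : ∀ l m n κ, c l m n κ ≠ 0 → cb m n κ ≠ 0 ∨ cb n m κ ≠ 0 := by
    intro l m n κ h
    by_contra h2
    push Not at h2
    apply h
    show (2⁻¹ : ℂ) • (𝒞.π (j - a) (σ (cb m n κ) l) - 𝒞.π (j - a) (σ (cb n m κ) l)) = 0
    rw [hσ2 _ h2.1, hσ2 _ h2.2, sub_self, smul_zero]
  have hc : ∀ l m n, InE 𝒞 Vs (μ - 1 - 1) (j - a) (c l m n) := by
    intro l m n
    refine ⟨?_, ?_, ?_⟩
    · intro κ h
      rcases hcne l m n κ h with h | h
      · exact (hcb m n).deg κ h
      · exact (hcb n m).deg κ h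
    · intro κ h
      rcases hcne l m n κ h with h | h
      · exact (hcb m n).sup κ h
      · exact (hcb n m).sup κ h
    · intro κ
      show 𝒞.π (j - a) ((2⁻¹ : ℂ) • _) = (2⁻¹ : ℂ) • _
      rw [map_smul, map_sub, 𝒞.ππ, 𝒞.ππ]
  have hcanti : ∀ l m n, c l m n = - c l n m := by
    intro l m n
    funext κ
    show (2⁻¹ : ℂ) • _ = -((2⁻¹ : ℂ) • _)
    rw [← smul_neg, neg_sub]
  have hcmk : ∀ m n κ, mk 𝒞 t (fun l => c l m n κ) = cb m n κ := by
    intro m n κ
    have h1 : (fun l => c l m n κ) = (2⁻¹ : ℂ) • ((fun l => 𝒞.π (j - a) (σ (cb m n κ) l)) -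
        (fun l => 𝒞.π (j - a) (σ (cb n m κ) l))) := rfl
    rw [h1, map_smul, map_sub, ← mk_π, ← mk_π, hσ1, hσ1, (hcb m n).hom κ, (hcb n m).hom κ]
    have h2 : cb n m κ = - cb m n κ := by
      rw [hanti n m]; rfl
    rw [h2, sub_neg_eq_add, ← two_smul ℂ, smul_smul, inv_mul_cancel₀ (two_ne_zero' ℂ), one_smul]
  -- the differences
  let E : Fin (L + 1) → Fin k → (Mo r L → 𝒞.C) := fun l m =>
    v l m - ∑ n, F 𝒞 Vs n (c l m n)
  have hE : ∀ l m, InE 𝒞 Vs (μ - 1) j (E l m) := by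
    intro l m
    apply InE_sub hFB (hv l m)
    apply InE_sum hFB
    intro n _
    have := hFB.InE_F 𝒞 Vs (μ - 1 - 1) (j - a) n _ (hc l m n)
    rwa [sub_add_cancel, sub_add_cancel] at this
  have hEr : ∀ m κ, ∃ β : Fin k → 𝒞.C, 𝒞.rel t β = (fun l => E l m κ) ∧
      ((fun l => E l m κ) = 0 → β = 0) := by
    intro m κ
    by_cases h0 : (fun l => E l m κ) = 0
    · exact ⟨0, by rw [map_zero, h0], fun _ => rfl⟩
    · have h1 : mk 𝒞 t (fun l => E l m κ) = 0 := by
        have h2 : (fun l => E l m κ) = (fun l => v l m κ) -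
            ∑ n, (fun l => F 𝒞 Vs n (c l m n) κ) := by
          funext l
          show (v l m - ∑ n, F 𝒞 Vs n (c l m n)) κ = _
          rw [Pi.sub_apply, Finset.sum_apply, Pi.sub_apply, Finset.sum_apply]
        rw [h2, map_sub, map_sum, sub_eq_zero]
        have h3 := congrFun (hvcb m) κ
        rw [Finset.sum_apply] at h3
        refine h3.trans ?_
        apply Finset.sum_congr rfl
        intro n _
        rw [← F_mk 𝒞 t Vs n (fun l => c l m n) κ]
        congr 1
        funext κ'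
        exact (hcmk m n κ').symm
      obtain ⟨β, hβ⟩ := (mk_eq_zero 𝒞 t _).1 h1
      exact ⟨β, hβ, fun h => absurd h h0⟩
  choose β hβ1 hβ2 using hEr
  let d : Fin k → Fin k → (Mo r L → 𝒞.C) := fun i m κ => 𝒞.π (j - a) (β m κ i)
  have hd : ∀ i m, InE 𝒞 Vs (μ - 1) (j - a) (d i m) := by
    intro i m
    have hne : ∀ κ, d i m κ ≠ 0 → ∃ l, E l m κ ≠ 0 := by
      intro κ h
      by_contra h2
      push Not at h2
      apply h
      show 𝒞.π (j - a) (β m κ i) = 0
      rw [hβ2 m κ (funext h2)]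
      exact map_zero _
    refine ⟨?_, ?_, ?_⟩
    · intro κ h
      obtain ⟨l, hl⟩ := hne κ h
      exact (hE l m).deg κ hl
    · intro κ h
      obtain ⟨l, hl⟩ := hne κ h
      exact (hE l m).sup κ hl
    · intro κ
      exact 𝒞.ππ _ _
  have hXd : ∀ l m, E l m = ∑ i, fun κ => 𝒞.X t i l (d i m κ) := by
    intro l m
    funext κ
    rw [Finset.sum_apply]
    have h1 := congrFun (hβ1 m κ) l
    rw [Sys.rel_apply] at h1
    have h2 := (hE l m).hom κ
    rw [← h2, ← h1, map_sum]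
    apply Finset.sum_congr rfl
    intro i _
    have h3 := 𝒞.πX (j - a) t i l (β m κ i)
    rw [sub_add_cancel] at h3
    rw [h3]
  refine ⟨d, hd, ?_⟩
  -- the final step
  have hFv : ∀ l, ∑ m, F 𝒞 Vs m (v l m) =
      ∑ i, fun κ => 𝒞.X t i l ((∑ m, F 𝒞 Vs m (d i m)) κ) := by
    intro l
    have h1 : ∑ m, F 𝒞 Vs m (v l m) = ∑ m, F 𝒞 Vs m (E l m) := by
      have h2 := hFB.F_anti 𝒞 Vs (c l) (hcanti l)
      have h3 : ∀ m, F 𝒞 Vs m (E l m) = F 𝒞 Vs m (v l m) -
          F 𝒞 Vs m (∑ n, F 𝒞 Vs n (c l m n)) := fun m => F_sub hFB 𝒞 Vs m _ _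
      simp only [h3]
      rw [Finset.sum_sub_distrib, h2, sub_zero]
    rw [h1]
    have h4 : ∀ m, F 𝒞 Vs m (E l m) = ∑ i, fun κ => 𝒞.X t i l (F 𝒞 Vs m (d i m) κ) := by
      intro m
      rw [hXd l m, F_sum hFB]
      apply Finset.sum_congr rfl
      intro i _
      exact hFB.F_X 𝒞 Vs m t i l (d i m)
    simp only [h4]
    rw [Finset.sum_comm]
    apply Finset.sum_congr rfl
    intro i _
    funext κ
    rw [Finset.sum_apply, Finset.sum_apply, map_sum]
  have hfin : ∀ κ, (fun i => u i κ - (∑ m, F 𝒞 Vs m (d i m)) κ) = 0 := by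
    intro κ
    apply hinj j hj
    · intro i
      rw [map_sub, (hu i).hom κ]
      congr 1
      have h1 : InE 𝒞 Vs μ j (∑ m, F 𝒞 Vs m (d i m)) := by
        apply InE_sum hFB
        intro m _
        have := hFB.InE_F 𝒞 Vs (μ - 1) (j - a) m _ (hd i m)
        rwa [sub_add_cancel, sub_add_cancel] at this
      exact h1.hom κ
    · intro l
      simp only [map_sub]
      rw [Finset.sum_sub_distrib, huv l κ, hFv l, Finset.sum_apply, sub_self]
  intro i
  funext κ
  exact sub_eq_zero.1 (congrFun (hfin κ) i)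

end FrI.ST1M
end

section
/-!
# FI, module ST3: from the groups `Vs` to `t :: Vs`
-/
set_option autoImplicit false

namespace FrI.ST3M

variable {r k L : ℕ} {a : ℤ}

/-! ### Monomials -/

theorem dg_update_self (t : Fin r) (κ : Mo r L) (ρ : Fin (L + 1) → ℕ) :
    dg t (Function.update κ t ρ) = ∑ l, ρ l := by
  simp [dg]

theorem dg_update_ne {t t' : Fin r} (h : t' ≠ t) (κ : Mo r L) (ρ : Fin (L + 1) → ℕ) :
    dg t' (Function.update κ t ρ) = dg t' κ := by
  simp [dg, Function.update_of_ne h]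

theorem tdeg_update (t : Fin r) (κ : Mo r L) (ρ : Fin (L + 1) → ℕ) :
    tdeg (Function.update κ t ρ) + dg t κ = tdeg κ + ∑ l, ρ l := by
  classical
  unfold tdeg
  rw [← Finset.add_sum_erase Finset.univ (fun t' => dg t' (Function.update κ t ρ))
    (Finset.mem_univ t), ← Finset.add_sum_erase Finset.univ (fun t' => dg t' κ)
    (Finset.mem_univ t)]
  have h : ∑ t' ∈ Finset.univ.erase t, dg t' (Function.update κ t ρ)
      = ∑ t' ∈ Finset.univ.erase t, dg t' κ :=
    Finset.sum_congr rfl fun t' ht' => dg_update_ne (Finset.ne_of_mem_erase ht') κ ρ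
  rw [h, dg_update_self]
  ring

theorem dg_le_tdeg (t : Fin r) (κ : Mo r L) : dg t κ ≤ tdeg κ :=
  Finset.single_le_sum (f := fun t => dg t κ) (fun _ _ => Nat.zero_le _) (Finset.mem_univ t)

theorem dn_ne {t t' : Fin r} (h : t ≠ t') (l : Fin (L + 1)) (κ : Mo r L) : dn t' l κ t = κ t := by
  unfold dn
  rw [Function.update_of_ne h]

theorem dg_dn_ne {t t' : Fin r} (h : t ≠ t') (l : Fin (L + 1)) (κ : Mo r L) :
    dg t (dn t' l κ) = dg t κ := by
  unfold dg
  rw [dn_ne h]

theorem dg_dn_self (t : Fin r) (l : Fin (L + 1)) (κ : Mo r L) (h : κ t l ≠ 0) :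
    dg t (dn t l κ) + 1 = dg t κ := by
  unfold dn
  rw [dg_update_self]
  unfold dg
  rw [← Finset.add_sum_erase Finset.univ (fun l' => κ t l') (Finset.mem_univ l),
    ← Finset.add_sum_erase Finset.univ (fun l' => Function.update (κ t) l (κ t l - 1) l')
    (Finset.mem_univ l)]
  have h2 : ∑ l' ∈ Finset.univ.erase l, Function.update (κ t) l (κ t l - 1) l'
      = ∑ l' ∈ Finset.univ.erase l, κ t l' :=
    Finset.sum_congr rfl fun l' hl' => Function.update_of_ne (Finset.ne_of_mem_erase hl') _ _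
  rw [h2, Function.update_self]
  omega

theorem dn_update {t t' : Fin r} (h : t' ≠ t) (l : Fin (L + 1)) (κ : Mo r L)
    (ρ : Fin (L + 1) → ℕ) :
    dn t' l (Function.update κ t ρ) = Function.update (dn t' l κ) t ρ := by
  unfold dn
  rw [Function.update_of_ne h, Function.update_comm h]

/-! ### Locality of `F` -/

theorem F_congr (𝒞 : Sys r k L a) {t : Fin r} {Vs : List (Fin r)} (ht : t ∉ Vs) (m : Fin k)
    {g h : Mo r L → 𝒞.C} {κ : Mo r L} (hgh : ∀ κ1 : Mo r L, κ1 t = κ t → g κ1 = h κ1) :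
    F 𝒞 Vs m g κ = F 𝒞 Vs m h κ := by
  unfold F
  refine Finset.sum_congr rfl fun t' _ => Finset.sum_congr rfl fun l _ => ?_
  by_cases hc : t' ∈ Vs ∧ κ t' l ≠ 0
  · rw [if_pos hc, if_pos hc, hgh]
    exact dn_ne (fun h => ht (by rw [h]; exact hc.1)) l κ
  · rw [if_neg hc, if_neg hc]

theorem F_update (𝒞 : Sys r k L a) {t : Fin r} {Vs : List (Fin r)} (ht : t ∉ Vs) (m : Fin k)
    (g : Mo r L → 𝒞.C) (κ : Mo r L) (ρ : Fin (L + 1) → ℕ) :
    F 𝒞 Vs m g (Function.update κ t ρ) = F 𝒞 Vs m (fun κ => g (Function.update κ t ρ)) κ := by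
  unfold F
  refine Finset.sum_congr rfl fun t' _ => Finset.sum_congr rfl fun l _ => ?_
  by_cases h1 : t' ∈ Vs
  · have hne : t' ≠ t := fun h => ht (h ▸ h1)
    rw [Function.update_of_ne hne, dn_update hne]
  · rw [if_neg fun h => h1 h.1, if_neg fun h => h1 h.1]

/-- `F` as a linear map. -/
noncomputable def Fl (h : SpecFB) (𝒞 : Sys r k L a) (Vs : List (Fin r)) (m : Fin k) :
    (Mo r L → 𝒞.C) →ₗ[ℂ] (Mo r L → 𝒞.C) where
  toFun := F 𝒞 Vs m
  map_add' := h.F_add 𝒞 Vs m
  map_smul' := h.F_smul 𝒞 Vs m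

theorem F_zero (h : SpecFB) (𝒞 : Sys r k L a) (Vs : List (Fin r)) (m : Fin k) :
    F 𝒞 Vs m 0 = 0 := map_zero (Fl h 𝒞 Vs m)

theorem F_sub (h : SpecFB) (𝒞 : Sys r k L a) (Vs : List (Fin r)) (m : Fin k)
    (g g' : Mo r L → 𝒞.C) : F 𝒞 Vs m (g - g') = F 𝒞 Vs m g - F 𝒞 Vs m g' :=
  map_sub (Fl h 𝒞 Vs m) g g'

theorem F_sum (h : SpecFB) (𝒞 : Sys r k L a) (Vs : List (Fin r)) (m : Fin k) {ι : Type}
    (s : Finset ι) (g : ι → Mo r L → 𝒞.C) :
    F 𝒞 Vs m (∑ i ∈ s, g i) = ∑ i ∈ s, F 𝒞 Vs m (g i) :=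
  map_sum (Fl h 𝒞 Vs m) g s

theorem InE_sub (h : SpecFB) {𝒞 : Sys r k L a} {Vs : List (Fin r)} {μ j : ℤ}
    {g g' : Mo r L → 𝒞.C} (hg : InE 𝒞 Vs μ j g) (hg' : InE 𝒞 Vs μ j g') :
    InE 𝒞 Vs μ j (g - g') := by
  have h1 := h.InE_add 𝒞 Vs μ j g ((-1 : ℂ) • g') hg (h.InE_smul 𝒞 Vs μ j (-1) g' hg')
  rwa [neg_one_smul, ← sub_eq_add_neg] at h1

theorem InE_sum (h : SpecFB) {𝒞 : Sys r k L a} {Vs : List (Fin r)} {μ j : ℤ} {ι : Type}
    (s : Finset ι) (g : ι → Mo r L → 𝒞.C) (hg : ∀ i ∈ s, InE 𝒞 Vs μ j (g i)) :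
    InE 𝒞 Vs μ j (∑ i ∈ s, g i) := by
  classical
  induction s using Finset.induction_on with
  | empty => rw [Finset.sum_empty]; exact h.InE_zero 𝒞 Vs μ j
  | insert i s hi ih =>
    rw [Finset.sum_insert hi]
    exact h.InE_add 𝒞 Vs μ j _ _ (hg i (Finset.mem_insert_self i s))
      (ih fun i' hi' => hg i' (Finset.mem_insert_of_mem hi'))

/-! ### Slices -/

open Classical in
/-- the coefficient of the monomial `ρ` in the group `t` -/
noncomputable def sl (𝒞 : Sys r k L a) (t : Fin r) (ρ : Fin (L + 1) → ℕ) (g : Mo r L → 𝒞.C) :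
    Mo r L → 𝒞.C :=
  fun κ => if κ t = 0 then g (Function.update κ t ρ) else 0

theorem InE_sl {𝒞 : Sys r k L a} {t : Fin r} {Vs : List (Fin r)} {μ j : ℤ}
    {g : Mo r L → 𝒞.C} (hg : InE 𝒞 (t :: Vs) μ j g) (ρ : Fin (L + 1) → ℕ) {n : ℕ}
    (hρ : ∑ l, ρ l = n) : InE 𝒞 Vs (μ - n) j (sl 𝒞 t ρ g) := by
  refine ⟨fun κ hκ => ?_, fun κ hκ t' ht' l => ?_, fun κ => ?_⟩
  · unfold sl at hκ
    by_cases h0 : κ t = 0
    · rw [if_pos h0] at hκ
      have h1 := hg.deg _ hκ
      have h2 := tdeg_update t κ ρ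
      have h3 : dg t κ = 0 := by simp [dg, h0]
      rw [hρ, h3] at h2
      omega
    · rw [if_neg h0] at hκ
      exact absurd rfl hκ
  · unfold sl at hκ
    by_cases h0 : κ t = 0
    · rw [if_pos h0] at hκ
      by_cases htt : t' = t
      · rw [htt, h0]
        rfl
      · have h1 := hg.sup _ hκ t' (by simp [htt, ht']) l
        rwa [Function.update_of_ne htt] at h1
    · rw [if_neg h0] at hκ
      exact absurd rfl hκ
  · unfold sl
    split_ifs
    · exact hg.hom _
    · exact map_zero _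

theorem F_sl (h : SpecFB) (𝒞 : Sys r k L a) {t : Fin r} {Vs : List (Fin r)} (ht : t ∉ Vs)
    (m : Fin k) (ρ : Fin (L + 1) → ℕ) (g : Mo r L → 𝒞.C) (κ : Mo r L) :
    F 𝒞 Vs m (sl 𝒞 t ρ g) κ = sl 𝒞 t ρ (F 𝒞 Vs m g) κ := by
  by_cases h0 : κ t = 0
  · have h1 : F 𝒞 Vs m (sl 𝒞 t ρ g) κ = F 𝒞 Vs m (fun κ => g (Function.update κ t ρ)) κ :=
      F_congr 𝒞 ht m fun κ1 h1 => by
        unfold sl
        rw [if_pos (h1.trans h0)]
    rw [h1, ← F_update 𝒞 ht]
    unfold sl
    rw [if_pos h0]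
  · have h1 : F 𝒞 Vs m (sl 𝒞 t ρ g) κ = F 𝒞 Vs m 0 κ :=
      F_congr 𝒞 ht m fun κ1 h1 => by
        unfold sl
        rw [if_neg (by rw [h1]; exact h0)]
        rfl
    rw [h1, F_zero h]
    unfold sl
    rw [if_neg h0]
    rfl

/-! ### Assembling -/

open Classical in
/-- a series in the group `t`, homogeneous of degree `n`, from its coefficients -/
noncomputable def asm (𝒞 : Sys r k L a) (t : Fin r) (n : ℕ)
    (d : (Fin (L + 1) → ℕ) → Mo r L → 𝒞.C) : Mo r L → 𝒞.C :=
  fun κ => if ∑ l, κ t l = n then d (κ t) (Function.update κ t 0) else 0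

theorem InE_asm {𝒞 : Sys r k L a} {t : Fin r} {Vs : List (Fin r)} {μ j : ℤ} {n : ℕ}
    {d : (Fin (L + 1) → ℕ) → Mo r L → 𝒞.C}
    (hd : ∀ ρ : Fin (L + 1) → ℕ, ∑ l, ρ l = n → InE 𝒞 Vs (μ - n) j (d ρ)) :
    InE 𝒞 (t :: Vs) μ j (asm 𝒞 t n d) := by
  refine ⟨fun κ hκ => ?_, fun κ hκ t' ht' l => ?_, fun κ => ?_⟩
  · unfold asm at hκ
    by_cases h0 : ∑ l, κ t l = n
    · rw [if_pos h0] at hκ
      have h1 := (hd _ h0).deg _ hκ
      have h2 := tdeg_update t κ (0 : Fin (L + 1) → ℕ)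
      have h3 : dg t κ = n := h0
      have h4 : ∑ l, (0 : Fin (L + 1) → ℕ) l = 0 := by simp
      rw [h4, h3] at h2
      omega
    · rw [if_neg h0] at hκ
      exact absurd rfl hκ
  · unfold asm at hκ
    by_cases h0 : ∑ l, κ t l = n
    · rw [if_pos h0] at hκ
      simp only [List.mem_cons, not_or] at ht'
      have h1 := (hd _ h0).sup _ hκ t' ht'.2 l
      rwa [Function.update_of_ne ht'.1] at h1
    · rw [if_neg h0] at hκ
      exact absurd rfl hκ
  · unfold asm
    by_cases h0 : ∑ l, κ t l = n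
    · rw [if_pos h0]
      exact (hd _ h0).hom _
    · rw [if_neg h0]
      exact map_zero _

theorem asm_ne (𝒞 : Sys r k L a) (t : Fin r) (n : ℕ)
    (d : (Fin (L + 1) → ℕ) → Mo r L → 𝒞.C) (κ : Mo r L) (h : dg t κ ≠ n) :
    asm 𝒞 t n d κ = 0 := if_neg h

theorem F_asm_lt (h : SpecFB) (𝒞 : Sys r k L a) {t : Fin r} {Vs : List (Fin r)} (ht : t ∉ Vs)
    (m : Fin k) (n : ℕ) (d : (Fin (L + 1) → ℕ) → Mo r L → 𝒞.C) (κ : Mo r L)
    (hκ : dg t κ < n) : F 𝒞 (t :: Vs) m (asm 𝒞 t n d) κ = 0 := by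
  rw [h.F_cons 𝒞 t Vs m _ κ ht]
  have h1 : F 𝒞 Vs m (asm 𝒞 t n d) κ = F 𝒞 Vs m 0 κ :=
    F_congr 𝒞 ht m fun κ1 h1 => asm_ne 𝒞 t n d κ1 (by unfold dg at hκ ⊢; rw [h1]; omega)
  rw [h1, F_zero h, Pi.zero_apply, add_zero]
  refine Finset.sum_eq_zero fun l _ => ?_
  by_cases hl : κ t l ≠ 0
  · rw [if_pos hl, asm_ne, map_zero]
    have := dg_dn_self t l κ hl
    omega
  · rw [if_neg hl]

theorem F_asm_eq (h : SpecFB) (𝒞 : Sys r k L a) {t : Fin r} {Vs : List (Fin r)} (ht : t ∉ Vs)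
    (m : Fin k) (n : ℕ) (d : (Fin (L + 1) → ℕ) → Mo r L → 𝒞.C) (κ : Mo r L)
    (hκ : dg t κ = n) :
    F 𝒞 (t :: Vs) m (asm 𝒞 t n d) κ = F 𝒞 Vs m (d (κ t)) (Function.update κ t 0) := by
  rw [h.F_cons 𝒞 t Vs m _ κ ht, F_update 𝒞 ht]
  have h1 : F 𝒞 Vs m (asm 𝒞 t n d) κ
      = F 𝒞 Vs m (fun κ1 => d (κ t) (Function.update κ1 t 0)) κ :=
    F_congr 𝒞 ht m fun κ1 h1 => by
      unfold asm
      rw [h1]
      exact if_pos hκ
  rw [h1]
  have h2 : (∑ l, if κ t l ≠ 0 then 𝒞.X t m l (asm 𝒞 t n d (dn t l κ)) else 0) = 0 := by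
    refine Finset.sum_eq_zero fun l _ => ?_
    by_cases hl : κ t l ≠ 0
    · rw [if_pos hl, asm_ne, map_zero]
      have := dg_dn_self t l κ hl
      omega
    · rw [if_neg hl]
  rw [h2, zero_add]

/-! ### The induction -/

theorem specST3 (hFB : SpecFB) (hST1 : SpecST1) (hST2 : SpecST2) : SpecST3 := by
  classical
  intro r k L a 𝒞 t Vs D ht hI hK hKc μ j hμ hj
  -- induction on the order in the group `t`
  have key : ∀ (N n : ℕ), μ < n + N → ∀ (u : Fin k → (Mo r L → 𝒞.C))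
      (v : Fin (L + 1) → Fin k → (Mo r L → 𝒞.C)),
      (∀ i, InE 𝒞 (t :: Vs) μ j (u i)) → (∀ l m, InE 𝒞 (t :: Vs) (μ - 1) j (v l m)) →
      (∀ l κ, ∑ i, 𝒞.X t i l (u i κ) = (∑ m, F 𝒞 (t :: Vs) m (v l m)) κ) →
      (∀ i (κ : Mo r L), dg t κ < n → u i κ = 0) →
      ∃ d : Fin k → Fin k → (Mo r L → 𝒞.C),
        (∀ i m, InE 𝒞 (t :: Vs) (μ - 1) (j - a) (d i m)) ∧
        ∀ i, u i = ∑ m, F 𝒞 (t :: Vs) m (d i m) := by
    intro N
    induction N with
    | zero =>
      intro n hn u v hu _ _ ho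
      refine ⟨fun _ _ => 0, fun _ _ => hFB.InE_zero _ _ _ _, fun i => ?_⟩
      have h0 : ∀ m : Fin k, F 𝒞 (t :: Vs) m 0 = 0 := fun m => F_zero hFB _ _ _
      simp only [h0, Finset.sum_const_zero]
      funext κ
      by_contra hne
      have h1 := (hu i).deg κ hne
      have h2 := dg_le_tdeg t κ
      have h3 : ¬ dg t κ < n := fun h => hne (ho i κ h)
      push_cast at hn
      omega
    | succ N ih =>
      intro n hn u v hu hv hrel ho
      -- the `v l` may be taken of order `≥ n`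
      have hv' : ∀ l, ∃ v' : Fin k → (Mo r L → 𝒞.C),
          (∀ m, InE 𝒞 (t :: Vs) (μ - 1) j (v' m)) ∧
          (∀ m (κ : Mo r L), dg t κ < n → v' m κ = 0) ∧
          ∑ m, F 𝒞 (t :: Vs) m (v' m) = ∑ m, F 𝒞 (t :: Vs) m (v l m) := by
        intro l
        have h1 := hST2 r k L a 𝒞 t Vs D ht hK μ (j + a) hμ hj (v l) n
        rw [add_sub_cancel_right] at h1
        refine h1 (hv l) fun κ hκ => ?_
        rw [← hrel l κ]
        exact Finset.sum_eq_zero fun i _ => by rw [ho i κ hκ, map_zero]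
      choose w hw1 hw2 hw3 using hv'
      have hrel' : ∀ l κ, ∑ i, 𝒞.X t i l (u i κ) = (∑ m, F 𝒞 (t :: Vs) m (w l m)) κ :=
        fun l κ => by rw [hw3 l]; exact hrel l κ
      -- slices
      have hslrel : ∀ ρ : Fin (L + 1) → ℕ, ∑ l, ρ l = n → ∀ l κ,
          ∑ i, 𝒞.X t i l (sl 𝒞 t ρ (u i) κ) = (∑ m, F 𝒞 Vs m (sl 𝒞 t ρ (w l m))) κ := by
        intro ρ hρ l κ
        rw [Finset.sum_apply]
        simp only [F_sl hFB 𝒞 ht]
        by_cases h0 : κ t = 0
        · simp only [sl, if_pos h0]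
          rw [hrel' l, Finset.sum_apply]
          refine Finset.sum_congr rfl fun m _ => ?_
          rw [hFB.F_cons 𝒞 t Vs m _ _ ht]
          have h2 : (∑ l', if (Function.update κ t ρ) t l' ≠ 0 then
              𝒞.X t m l' (w l m (dn t l' (Function.update κ t ρ))) else 0) = 0 := by
            refine Finset.sum_eq_zero fun l' _ => ?_
            by_cases hl : (Function.update κ t ρ) t l' ≠ 0
            · rw [if_pos hl, hw2, map_zero]
              have h3 := dg_dn_self t l' _ hl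
              rw [dg_update_self, hρ] at h3
              omega
            · rw [if_neg hl]
          rw [h2, zero_add]
        · simp only [sl, if_neg h0, map_zero, Finset.sum_const_zero]
      have hdd : ∀ ρ : Fin (L + 1) → ℕ, ∃ d : Fin k → Fin k → (Mo r L → 𝒞.C),
          ∑ l, ρ l = n → (∀ i m, InE 𝒞 Vs (μ - n - 1) (j - a) (d i m)) ∧
            ∀ i, sl 𝒞 t ρ (u i) = ∑ m, F 𝒞 Vs m (d i m) := by
        intro ρ
        by_cases hρ : ∑ l, ρ l = n
        · obtain ⟨d, hd⟩ := hST1 r k L a 𝒞 t Vs D hI hKc (μ - n) j (by omega) hj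
            (fun i => sl 𝒞 t ρ (u i)) (fun l m => sl 𝒞 t ρ (w l m))
            (fun i => InE_sl (hu i) ρ hρ)
            (fun l m => by
              have := InE_sl (hw1 l m) ρ hρ
              rwa [show μ - 1 - (n : ℤ) = μ - n - 1 by ring] at this)
            (hslrel ρ hρ)
          exact ⟨d, fun _ => hd⟩
        · exact ⟨fun _ _ => 0, fun h => absurd h hρ⟩
      choose dd hdd using hdd
      -- the correction
      let d : Fin k → Fin k → (Mo r L → 𝒞.C) := fun i m => asm 𝒞 t n fun ρ => dd ρ i m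
      have hd : ∀ i m, InE 𝒞 (t :: Vs) (μ - 1) (j - a) (d i m) := fun i m =>
        InE_asm fun ρ hρ => by
          have := (hdd ρ hρ).1 i m
          rwa [show μ - (n : ℤ) - 1 = μ - 1 - n by ring] at this
      have hFd : ∀ i m, InE 𝒞 (t :: Vs) μ j (F 𝒞 (t :: Vs) m (d i m)) := fun i m => by
        have := hFB.InE_F 𝒞 (t :: Vs) (μ - 1) (j - a) m _ (hd i m)
        rwa [sub_add_cancel, sub_add_cancel] at this
      have hXd : ∀ i m l, InE 𝒞 (t :: Vs) (μ - 1) j (fun κ => 𝒞.X t i l (d i m κ)) :=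
        fun i m l => by
          have := hFB.InE_X 𝒞 (t :: Vs) (μ - 1) (j - a) t i l _ (hd i m)
          rwa [sub_add_cancel] at this
      obtain ⟨d', hd', hu'⟩ := ih (n + 1) (by push_cast at hn ⊢; linarith)
        (fun i => u i - ∑ m, F 𝒞 (t :: Vs) m (d i m))
        (fun l m => w l m - ∑ i, fun κ => 𝒞.X t i l (d i m κ))
        (fun i => InE_sub hFB (hu i) (InE_sum hFB _ _ fun m _ => hFd i m))
        (fun l m => InE_sub hFB (hw1 l m) (InE_sum hFB _ _ fun i _ => hXd i m l))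
        (by
          intro l κ
          have h1 : ∀ m, F 𝒞 (t :: Vs) m (w l m - ∑ i, fun κ => 𝒞.X t i l (d i m κ))
              = F 𝒞 (t :: Vs) m (w l m)
                - ∑ i, fun κ => 𝒞.X t i l (F 𝒞 (t :: Vs) m (d i m) κ) := by
            intro m
            rw [F_sub hFB, F_sum hFB]
            simp only [hFB.F_X]
          simp only [h1, Finset.sum_sub_distrib, Pi.sub_apply, map_sub, hrel' l]
          congr 1
          simp only [Finset.sum_apply, map_sum]
          rw [Finset.sum_comm])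
        (by
          intro i κ hκ
          rw [Pi.sub_apply, Finset.sum_apply]
          rcases Nat.lt_or_eq_of_le (Nat.lt_succ_iff.1 hκ) with hlt | heq
          · rw [ho i κ hlt, zero_sub, neg_eq_zero]
            exact Finset.sum_eq_zero fun m _ => F_asm_lt hFB 𝒞 ht m n _ κ hlt
          · have h1 : ∑ m, F 𝒞 (t :: Vs) m (d i m) κ
                = (∑ m, F 𝒞 Vs m (dd (κ t) i m)) (Function.update κ t 0) := by
              rw [Finset.sum_apply]
              exact Finset.sum_congr rfl fun m _ => F_asm_eq hFB 𝒞 ht m n _ κ heq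
            rw [h1, ← (hdd (κ t) heq).2 i]
            unfold sl
            rw [if_pos (Function.update_self _ _ _), Function.update_idem,
              Function.update_eq_self, sub_self])
      refine ⟨fun i m => d i m + d' i m, fun i m => hFB.InE_add _ _ _ _ _ _ (hd i m) (hd' i m),
        fun i => ?_⟩
      have h2 := hu' i
      rw [sub_eq_iff_eq_add] at h2
      rw [h2, ← Finset.sum_add_distrib]
      refine Finset.sum_congr rfl fun m _ => ?_
      rw [hFB.F_add, add_comm]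
  intro u v hu hv hrel
  exact key (μ + 1).toNat 0 (by push_cast; have := Int.self_le_toNat (μ + 1); omega) u v hu hv
    hrel fun i κ h => absurd h (Nat.not_lt_zero _)

end FrI.ST3M
end

section
/-!
# MP_921642_ag, FI: STEP, one move of the fractional game
-/
set_option autoImplicit false

namespace FrI

namespace STEPM

open Finset

/-- Bernoulli for a scaled argument -/
lemma bern {γ W x : ℝ} (hγ : 0 < γ) (hγ1 : γ ≤ 1) (hW : 0 ≤ W) (hx : -1 ≤ x) :
    (W * (1 + x)) ^ γ ≤ W ^ γ * (1 + γ * x) := by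
  rw [Real.mul_rpow hW (by linarith)]
  exact mul_le_mul_of_nonneg_left (rpow_one_add_le_one_add_mul_self hx hγ.le hγ1)
    (Real.rpow_nonneg hW γ)

/-- growth of the trace -/
lemma gr1 {γ W T R0 : ℝ} (hγ : 0 < γ) (hγ1 : γ ≤ 1) (hW : 0 ≤ W) (h1 : W ≤ T)
    (h2 : T ≤ R0 * W) : T ^ γ ≤ W ^ γ + γ * (W ^ γ * (T / W - 1)) := by
  rcases hW.eq_or_lt with h | h
  · subst h
    have hT : T = 0 := by linarith
    subst hT
    simp [Real.zero_rpow hγ.ne']
  · have e : T = W * (1 + (T / W - 1)) := by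
      field_simp
      ring
    have hx : (-1 : ℝ) ≤ T / W - 1 := by
      have : 0 ≤ T / W := div_nonneg (by linarith) hW
      linarith
    have := bern hγ hγ1 hW hx
    rw [← e] at this
    linarith

/-- decrease of the residual -/
lemma gr2 {γ W T R0 κ : ℝ} (hγ : 0 < γ) (hγ1 : γ ≤ 1) (hW : 0 ≤ W) (h1 : W ≤ T)
    (h2 : T ≤ R0 * W) (h3 : κ * (T - W) ≤ W) :
    (W - κ * (T - W)) ^ γ ≤ W ^ γ - γ * κ * (W ^ γ * (T / W - 1)) := by
  rcases hW.eq_or_lt with h | h
  · subst h
    have hT : T = 0 := by linarith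
    subst hT
    simp [Real.zero_rpow hγ.ne']
  · have e : W - κ * (T - W) = W * (1 + (-κ * (T / W - 1))) := by
      field_simp
      ring
    have hx : (-1 : ℝ) ≤ -κ * (T / W - 1) := by
      have e2 : -κ * (T / W - 1) = -(κ * (T - W) / W) := by
        field_simp
      rw [e2]
      have : κ * (T - W) / W ≤ 1 := by
        rw [div_le_one h]
        exact h3
      linarith
    have := bern hγ hγ1 hW hx
    rw [← e] at this
    linarith

/-- The inequalities. -/
lemma core {r : ℕ} {γ R0 κ : ℝ} (hγ : 0 < γ) (hγ1 : γ ≤ 1) (hR : 1 ≤ R0)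
    (hr : ((r : ℝ) - 1) * (R0 ^ γ - 1) ≤ 1) (hκ : 0 ≤ κ) (W T : Fin r → ℝ)
    (hW : ∀ t, 0 ≤ W t) (h1 : ∀ t, W t ≤ T t) (h2 : ∀ t, T t ≤ R0 * W t)
    (h3 : ∀ t, κ * (T t - W t) ≤ W t) (t0 : Fin r) (hmax : ∀ t, W t ≤ W t0) (hpos : 0 < W t0) :
    ∃ z : ℝ, 0 ≤ z ∧ z ≤ 1 ∧
      (z * W t0) ^ γ + ∑ t ∈ univ.erase t0, T t ^ γ ≤ ∑ t, W t ^ γ ∧
      (W t0 * (1 + κ * (1 - z))) ^ γ + ∑ t ∈ univ.erase t0, (W t - κ * (T t - W t)) ^ γ ≤
        ∑ t, W t ^ γ := by
  have hw : 0 < W t0 ^ γ := Real.rpow_pos_of_pos hpos γ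
  have hsum : ∑ t, W t ^ γ = W t0 ^ γ + ∑ t ∈ univ.erase t0, W t ^ γ :=
    (Finset.add_sum_erase univ _ (mem_univ t0)).symm
  have hQ : ∀ t, 0 ≤ W t ^ γ * (T t / W t - 1) := by
    intro t
    rcases (hW t).eq_or_lt with h | h
    · rw [← h, Real.zero_rpow hγ.ne', zero_mul]
    · apply mul_nonneg (Real.rpow_nonneg (hW t) γ)
      have : 1 ≤ T t / W t := by
        rw [one_le_div h]
        exact h1 t
      linarith
  set Q : ℝ := ∑ t ∈ univ.erase t0, W t ^ γ * (T t / W t - 1) with hQdef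
  have hQ0 : 0 ≤ Q := Finset.sum_nonneg fun t _ => hQ t
  obtain ⟨σ, hσ⟩ : ∃ σ, σ = Q / W t0 ^ γ := ⟨_, rfl⟩
  have hσ0 : 0 ≤ σ := by
    rw [hσ]
    exact div_nonneg hQ0 hw.le
  have hσQ : σ * W t0 ^ γ = Q := by
    rw [hσ]
    field_simp
  refine ⟨max 0 (1 - σ), le_max_left _ _, max_le zero_le_one (by linarith), ?_, ?_⟩
  · rw [hsum]
    rcases le_or_gt σ 1 with hs | hs
    · rw [max_eq_right (by linarith)]
      have e1 : ((1 - σ) * W t0) ^ γ ≤ W t0 ^ γ * (1 + γ * (-σ)) := by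
        have := bern (x := -σ) hγ hγ1 hpos.le (by linarith)
        rw [show W t0 * (1 + -σ) = (1 - σ) * W t0 by ring] at this
        exact this
      have e2 : ∑ t ∈ univ.erase t0, T t ^ γ ≤ ∑ t ∈ univ.erase t0, W t ^ γ + γ * Q := by
        rw [hQdef, Finset.mul_sum, ← Finset.sum_add_distrib]
        exact Finset.sum_le_sum fun t _ => gr1 hγ hγ1 (hW t) (h1 t) (h2 t)
      have e3 : W t0 ^ γ * (1 + γ * (-σ)) = W t0 ^ γ - γ * Q := by
        rw [← hσQ]
        ring
      linarith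
    · rw [max_eq_left (by linarith), zero_mul, Real.zero_rpow hγ.ne', zero_add]
      have e1 : ∑ t ∈ univ.erase t0, T t ^ γ ≤ R0 ^ γ * ∑ t ∈ univ.erase t0, W t ^ γ := by
        rw [Finset.mul_sum]
        refine Finset.sum_le_sum fun t _ => ?_
        rw [← Real.mul_rpow (by linarith) (hW t)]
        exact Real.rpow_le_rpow (by linarith [hW t, h1 t]) (h2 t) hγ.le
      have e2 : ∑ t ∈ univ.erase t0, W t ^ γ ≤ ((r : ℝ) - 1) * W t0 ^ γ := by
        have e3 : ∑ t ∈ univ.erase t0, W t ^ γ ≤ ∑ _t ∈ univ.erase t0, W t0 ^ γ :=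
          Finset.sum_le_sum fun t _ => Real.rpow_le_rpow (hW t) (hmax t) hγ.le
        rw [Finset.sum_const, Finset.card_erase_of_mem (mem_univ t0), Finset.card_univ,
          Fintype.card_fin, nsmul_eq_mul] at e3
        have hr1 : 1 ≤ r := by
          have := t0.2
          omega
        rw [Nat.cast_sub hr1, Nat.cast_one] at e3
        exact e3
      have hR1 : 0 ≤ R0 ^ γ - 1 := by
        have := Real.one_le_rpow hR hγ.le
        linarith
      have e4 : (R0 ^ γ - 1) * ∑ t ∈ univ.erase t0, W t ^ γ ≤ W t0 ^ γ := by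
        calc (R0 ^ γ - 1) * ∑ t ∈ univ.erase t0, W t ^ γ
            ≤ (R0 ^ γ - 1) * (((r : ℝ) - 1) * W t0 ^ γ) := mul_le_mul_of_nonneg_left e2 hR1
          _ = (((r : ℝ) - 1) * (R0 ^ γ - 1)) * W t0 ^ γ := by ring
          _ ≤ 1 * W t0 ^ γ := mul_le_mul_of_nonneg_right hr hw.le
          _ = W t0 ^ γ := one_mul _
      linarith
  · rw [hsum]
    set z := max 0 (1 - σ) with hz
    have hz1 : z ≤ 1 := max_le zero_le_one (by linarith)
    have hzσ : 1 - z ≤ σ := by
      have : 1 - σ ≤ z := le_max_right _ _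
      linarith
    have e1 := bern (x := κ * (1 - z)) hγ hγ1 hpos.le
      (by have : 0 ≤ κ * (1 - z) := mul_nonneg hκ (by linarith)
          linarith)
    have e2 : ∑ t ∈ univ.erase t0, (W t - κ * (T t - W t)) ^ γ ≤
        ∑ t ∈ univ.erase t0, W t ^ γ - γ * κ * Q := by
      rw [hQdef, Finset.mul_sum, ← Finset.sum_sub_distrib]
      exact Finset.sum_le_sum fun t _ => gr2 hγ hγ1 (hW t) (h1 t) (h2 t) (h3 t)
    have e3 : γ * κ * (W t0 ^ γ * (1 - z)) ≤ γ * κ * Q := by
      apply mul_le_mul_of_nonneg_left _ (mul_nonneg hγ.le hκ)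
      rw [← hσQ, mul_comm]
      exact mul_le_mul_of_nonneg_right hzσ hw.le
    have e4 : W t0 ^ γ * (1 + γ * (κ * (1 - z))) =
        W t0 ^ γ + γ * κ * (W t0 ^ γ * (1 - z)) := by ring
    linarith

lemma sum_Icc (g : ℕ → ℝ) (A : ℕ) : ∑ α ∈ Icc 1 A, g α = ∑ i ∈ range A, g (i + 1) := by
  induction A with
  | zero => simp
  | succ A ih => rw [Finset.sum_Icc_succ_top (by omega), ih, Finset.sum_range_succ]

/-- shift of the summation index -/
lemma shift (f : ℕ → ℝ) (A : ℕ) (h : f (A + 1) = 0) :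
    ∑ α ∈ Icc 1 A, f (α + 1) + f 1 = ∑ α ∈ Icc 1 A, f α := by
  rw [sum_Icc, sum_Icc]
  have h1 := Finset.sum_range_succ' (fun i => f (i + 1)) A
  have h2 := Finset.sum_range_succ (fun i => f (i + 1)) A
  rw [h2] at h1
  simp only [zero_add] at h1
  linarith

theorem specSTEP (hO : SpecOM) : SpecSTEP := by
  intro r γ R0 hr1 hγ hγ1 hR hr A n D μ hn hD hnD hμ hμA
  have hn0 : (0 : ℝ) < n := by exact_mod_cast hn
  have hD0 : (0 : ℝ) < D := by exact_mod_cast hD
  obtain ⟨κ, hκd⟩ : ∃ κ : ℝ, κ = (n : ℝ) / D := ⟨_, rfl⟩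
  have hκ : 0 ≤ κ := by
    rw [hκd]
    positivity
  obtain ⟨ρ, hρd⟩ : ∃ ρ : ℕ → ℝ, ρ = fun α : ℕ => ((n : ℝ) + D) / ((n : ℝ) + D - (α : ℝ)) := ⟨_, rfl⟩
  have o1 : ∀ α, om (n - 1) D α = ρ α * om n D α := by
    intro α
    rcases le_or_gt α D with h | h
    · rw [hρd]
      exact hO.tr n D α hn hD h
    · rw [hO.big _ _ _ h, hO.big _ _ _ h, mul_zero]
  have o2 : ∀ α, om n (D - 1) α = (1 - κ * (ρ α - 1)) * om n D α := by
    intro α
    rcases le_or_gt α D with h | h
    · rw [hρd, hκd]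
      exact hO.res n D α hn hD h
    · rw [hO.big _ _ _ (by omega : D - 1 < α), hO.big _ _ _ h, mul_zero]
  have o3 : ∀ α, om n (D - 1) α = (1 + κ) * om n D (α + 1) := by
    intro α
    rcases le_or_gt (α + 1) D with h | h
    · rw [hκd]
      have := hO.res1 n D (α + 1) hn hD (by omega) h
      rwa [Nat.add_sub_cancel] at this
    · rw [hO.big _ _ _ (by omega : D - 1 < α), hO.big _ _ _ h, mul_zero]
  have ρ1 : ∀ α ≤ D, 1 ≤ ρ α ∧ ρ α ≤ R0 := by
    intro α hα
    have hα' : (α : ℝ) ≤ D := by exact_mod_cast hα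
    have hden : (0 : ℝ) < (n : ℝ) + D - α := by linarith
    rw [hρd]
    constructor
    · show 1 ≤ ((n : ℝ) + D) / ((n : ℝ) + D - α)
      rw [one_le_div hden]
      have : (0 : ℝ) ≤ α := by positivity
      linarith
    · show ((n : ℝ) + D) / ((n : ℝ) + D - α) ≤ R0
      rw [div_le_iff₀ hden]
      push_cast at hnD
      have : R0 * n ≤ R0 * ((n : ℝ) + D - α) :=
        mul_le_mul_of_nonneg_left (by linarith) (by linarith)
      linarith
  have hom0 : ∀ α, 0 ≤ om n D α := hO.nonneg n D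
  -- general facts on loads
  have lT : ∀ m : ℕ → ℝ, load (n - 1) D A m = ∑ α ∈ Icc 1 A, m α * (ρ α * om n D α) := by
    intro m
    unfold load
    exact Finset.sum_congr rfl fun α _ => by rw [o1]
  have lR : ∀ m : ℕ → ℝ, load n (D - 1) A m =
      load n D A m - κ * (load (n - 1) D A m - load n D A m) := by
    intro m
    rw [lT]
    unfold load
    rw [← Finset.sum_sub_distrib, Finset.mul_sum, ← Finset.sum_sub_distrib]
    exact Finset.sum_congr rfl fun α _ => by rw [o2]; ring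
  have l0 : ∀ (k E : ℕ) (m : ℕ → ℝ), (∀ α, 0 ≤ m α) → 0 ≤ load k E A m := by
    intro k E m hm
    exact Finset.sum_nonneg fun α _ => mul_nonneg (hm α) (hO.nonneg k E α)
  have lle : ∀ m : ℕ → ℝ, (∀ α, 0 ≤ m α) → load n D A m ≤ load (n - 1) D A m ∧
      load (n - 1) D A m ≤ R0 * load n D A m := by
    intro m hm
    rw [lT]
    unfold load
    rw [Finset.mul_sum]
    constructor
    · refine Finset.sum_le_sum fun α _ => ?_
      rcases le_or_gt α D with h | h
      · apply mul_le_mul_of_nonneg_left _ (hm α)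
        have := mul_le_mul_of_nonneg_right (ρ1 α h).1 (hom0 α)
        linarith
      · rw [hO.big _ _ _ h]
        simp
    · refine Finset.sum_le_sum fun α _ => ?_
      rcases le_or_gt α D with h | h
      · have := mul_le_mul_of_nonneg_right (ρ1 α h).2 (hom0 α)
        have := mul_le_mul_of_nonneg_left this (hm α)
        linarith
      · rw [hO.big _ _ _ h]
        simp
  obtain ⟨W, hWd⟩ : ∃ W : Fin r → ℝ, W = fun t => load n D A (μ t) := ⟨_, rfl⟩
  obtain ⟨T, hTd⟩ : ∃ T : Fin r → ℝ, T = fun t => load (n - 1) D A (μ t) := ⟨_, rfl⟩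
  have hWt : ∀ t, load n D A (μ t) = W t := fun t => by rw [hWd]
  have hTt : ∀ t, load (n - 1) D A (μ t) = T t := fun t => by rw [hTd]
  have hRt : ∀ t, load n (D - 1) A (μ t) = W t - κ * (T t - W t) := fun t => by
    rw [lR, hWt, hTt]
  have hW : ∀ t, 0 ≤ W t := fun t => by rw [← hWt]; exact l0 _ _ _ (hμ t)
  have h1 : ∀ t, W t ≤ T t := fun t => by rw [← hWt, ← hTt]; exact (lle _ (hμ t)).1
  have h2 : ∀ t, T t ≤ R0 * W t := fun t => by rw [← hWt, ← hTt]; exact (lle _ (hμ t)).2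
  have h3 : ∀ t, κ * (T t - W t) ≤ W t := fun t => by
    have := l0 n (D - 1) (μ t) (hμ t)
    rw [hRt] at this
    linarith
  have hG0 : 0 ≤ ∑ t, W t ^ γ := Finset.sum_nonneg fun t _ => Real.rpow_nonneg (hW t) γ
  have hGe : ∑ t, load n D A (μ t) ^ γ = ∑ t, W t ^ γ :=
    Finset.sum_congr rfl fun t _ => by rw [hWt]
  rw [hGe]
  have : Nonempty (Fin r) := ⟨⟨0, by omega⟩⟩
  obtain ⟨t0, hmax⟩ := Finite.exists_max W
  rcases (hW t0).eq_or_lt with hz | hpos
  · -- all loads are zero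
    have hW0 : ∀ t, W t = 0 := fun t => le_antisymm (by rw [hz]; exact hmax t) (hW t)
    have hT0 : ∀ t, T t = 0 := fun t => by
      have a1 := h1 t
      have a2 := h2 t
      rw [hW0] at a1 a2
      linarith
    have hS0 : ∑ t, W t ^ γ = 0 := Finset.sum_eq_zero fun t _ => by
      rw [hW0, Real.zero_rpow hγ.ne']
    refine ⟨t0, fun _ => 1, rfl, fun _ => ⟨zero_le_one, le_rfl⟩, ?_, ?_, ?_⟩
    · rw [hS0]
      apply le_of_eq
      apply Finset.sum_eq_zero
      intro t _
      have : (fun α => if t = t0 then (1 : ℝ) * μ t α else μ t α) = μ t := by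
        funext α
        split_ifs <;> simp
      rw [this, hTt, hT0, Real.zero_rpow hγ.ne']
    · rw [hS0]
      apply le_of_eq
      apply Finset.sum_eq_zero
      intro t _
      have : (fun α => if t = t0 then (1 : ℝ) * μ t α + (1 - 1) * μ t (α + 1) else μ t α)
          = μ t := by
        funext α
        split_ifs <;> simp
      rw [this, hRt, hT0, hW0]
      simp [Real.zero_rpow hγ.ne']
    · rw [sub_self, zero_mul]
      exact Real.rpow_nonneg hG0 _
  · obtain ⟨z, hz0, hz1, htr, hre⟩ :=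
      core hγ hγ1 hR hr hκ W T hW h1 h2 h3 t0 hmax hpos
    obtain ⟨p, hpd⟩ : ∃ p : ℕ → ℝ, p = fun α => if 1 ≤ α ∧ α ≤ D then z / ρ α else 1 := ⟨_, rfl⟩
    have p01 : ∀ α, 0 ≤ p α ∧ p α ≤ 1 := by
      intro α
      rw [hpd]
      show 0 ≤ (if 1 ≤ α ∧ α ≤ D then z / ρ α else 1) ∧
        (if 1 ≤ α ∧ α ≤ D then z / ρ α else 1) ≤ 1
      split_ifs with h
      · have hρ := ρ1 α h.2
        have hρ0 : 0 < ρ α := by linarith [hρ.1]
        constructor
        · exact div_nonneg hz0 hρ0.le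
        · rw [div_le_one hρ0]
          linarith [hρ.1]
      · exact ⟨zero_le_one, le_rfl⟩
    have pρ : ∀ α, 1 ≤ α → p α * (ρ α * om n D α) = z * om n D α := by
      intro α hα
      rcases le_or_gt α D with h | h
      · have hρ := ρ1 α h
        have hρ0 : ρ α ≠ 0 := by linarith [hρ.1]
        rw [hpd]
        show (if 1 ≤ α ∧ α ≤ D then z / ρ α else 1) * _ = _
        rw [if_pos ⟨hα, h⟩]
        field_simp
      · rw [hO.big _ _ _ h]
        simp
    have ltr : load (n - 1) D A (fun α => p α * μ t0 α) = z * W t0 := by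
      rw [lT, ← hWt]
      unfold load
      rw [Finset.mul_sum]
      refine Finset.sum_congr rfl fun α hα => ?_
      have := pρ α (Finset.mem_Icc.1 hα).1
      linear_combination (μ t0 α) * this
    have lre : load n (D - 1) A (fun α => p α * μ t0 α + (1 - p (α + 1)) * μ t0 (α + 1)) +
        (1 - p 1) * μ t0 1 = W t0 * (1 + κ * (1 - z)) := by
      have e1 : load n (D - 1) A (fun α => p α * μ t0 α + (1 - p (α + 1)) * μ t0 (α + 1)) =
          ∑ α ∈ Icc 1 A, p α * μ t0 α * om n (D - 1) α +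
            ∑ α ∈ Icc 1 A, (1 - p (α + 1)) * μ t0 (α + 1) * om n (D - 1) α := by
        unfold load
        rw [← Finset.sum_add_distrib]
        exact Finset.sum_congr rfl fun α _ => by ring
      have e2 := shift (fun β => (1 - p β) * μ t0 β * om n (D - 1) (β - 1)) A
        (by
          show (1 - p (A + 1)) * μ t0 (A + 1) * om n (D - 1) (A + 1 - 1) = 0
          rw [hμA t0 (A + 1) (by omega)]
          ring)
      have e3 : ∑ α ∈ Icc 1 A, (1 - p (α + 1)) * μ t0 (α + 1) * om n (D - 1) α =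
          ∑ α ∈ Icc 1 A, (fun β => (1 - p β) * μ t0 β * om n (D - 1) (β - 1)) (α + 1) :=
        Finset.sum_congr rfl fun α _ => by
          show _ = (1 - p (α + 1)) * μ t0 (α + 1) * om n (D - 1) (α + 1 - 1)
          rw [Nat.add_sub_cancel]
      have e4 : (1 - p 1) * μ t0 1 =
          (fun β => (1 - p β) * μ t0 β * om n (D - 1) (β - 1)) 1 := by
        show _ = (1 - p 1) * μ t0 1 * om n (D - 1) (1 - 1)
        rw [hO.zero]
        ring
      rw [e1, e3, add_assoc, e4, e2, ← Finset.sum_add_distrib, ← hWt]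
      unfold load
      rw [Finset.sum_mul]
      refine Finset.sum_congr rfl fun α hα => ?_
      have hα1 := (Finset.mem_Icc.1 hα).1
      have e5 := pρ α hα1
      have e6 : om n (D - 1) (α - 1) = (1 + κ) * om n D α := by
        have := o3 (α - 1)
        rwa [Nat.sub_add_cancel hα1] at this
      show p α * μ t0 α * om n (D - 1) α + (1 - p α) * μ t0 α * om n (D - 1) (α - 1) = _
      rw [o2, e6]
      linear_combination (-κ * μ t0 α) * e5
    have hx0 : 0 ≤ (1 - p 1) * μ t0 1 := mul_nonneg (by linarith [(p01 1).2]) (hμ t0 1)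
    have hl0 : 0 ≤ load n (D - 1) A (fun α => p α * μ t0 α + (1 - p (α + 1)) * μ t0 (α + 1)) := by
      apply l0
      intro α
      exact add_nonneg (mul_nonneg (p01 α).1 (hμ t0 α))
        (mul_nonneg (by linarith [(p01 (α + 1)).2]) (hμ t0 (α + 1)))
    refine ⟨t0, p, ?_, p01, ?_, ?_, ?_⟩
    · rw [hpd]
      simp
    · rw [← Finset.add_sum_erase univ _ (mem_univ t0)]
      have e1 : (fun α => if t0 = t0 then p α * μ t0 α else μ t0 α) =
          fun α => p α * μ t0 α := by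
        funext α
        rw [if_pos rfl]
      rw [e1, ltr]
      refine le_trans (le_of_eq ?_) htr
      congr 1
      refine Finset.sum_congr rfl fun t ht => ?_
      have hne : t ≠ t0 := (Finset.mem_erase.1 ht).1
      have e2 : (fun α => if t = t0 then p α * μ t α else μ t α) = μ t := by
        funext α
        rw [if_neg hne]
      rw [e2, hTt]
    · rw [← Finset.add_sum_erase univ _ (mem_univ t0)]
      have e1 : (fun α => if t0 = t0 then p α * μ t0 α + (1 - p (α + 1)) * μ t0 (α + 1)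
          else μ t0 α) = fun α => p α * μ t0 α + (1 - p (α + 1)) * μ t0 (α + 1) := by
        funext α
        rw [if_pos rfl]
      rw [e1]
      refine le_trans (add_le_add (Real.rpow_le_rpow hl0 (by linarith : _ ≤
        W t0 * (1 + κ * (1 - z))) hγ.le) (le_of_eq ?_)) hre
      refine Finset.sum_congr rfl fun t ht => ?_
      have hne : t ≠ t0 := (Finset.mem_erase.1 ht).1
      have e2 : (fun α => if t = t0 then p α * μ t α + (1 - p (α + 1)) * μ t (α + 1)
          else μ t α) = μ t := by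
        funext α
        rw [if_neg hne]
      rw [e2, hRt]
    · have e1 : ((1 - p 1) * μ t0 1) ^ γ ≤ ∑ t, W t ^ γ := by
        refine le_trans (Real.rpow_le_rpow hx0 (by linarith : _ ≤
          W t0 * (1 + κ * (1 - z))) hγ.le) (le_trans ?_ hre)
        have : 0 ≤ ∑ t ∈ univ.erase t0, (W t - κ * (T t - W t)) ^ γ :=
          Finset.sum_nonneg fun t _ => Real.rpow_nonneg (by linarith [h3 t]) γ
        linarith
      have e2 := Real.rpow_le_rpow (Real.rpow_nonneg hx0 γ) e1 (by positivity : 0 ≤ 1 / γ)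
      rw [← Real.rpow_mul hx0, mul_one_div_cancel hγ.ne', Real.rpow_one] at e2
      exact e2

end STEPM

end FrI
end

section
/-!
# MP_921642_ag, FI, module TRANG: the division with remainder argument

Koszul exactness of the polynomial system gives the regular sequence (docstring of SpecTRANS).
-/
set_option autoImplicit false

namespace FrI.TRANGM

open MvPolynomial Pool.Agent.Lib.MP_921642_ag

variable {N r L q b : ℕ}

lemma asm_zero (ρ : Rem N r L q b) (μ : ℕ) : asm ρ μ (0 : Mo r L → Po N) = 0 := by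
  unfold asm
  simp

lemma asm_add (ρ : Rem N r L q b) (μ : ℕ) (G H : Mo r L → Po N) :
    asm ρ μ (G + H) = asm ρ μ G + asm ρ μ H := by
  unfold asm
  rw [← mul_add, ← Finset.sum_add_distrib]
  congr 1
  refine Finset.sum_congr rfl (fun κ _ => ?_)
  rw [Pi.add_apply, map_add, map_add, add_mul]

lemma asm_sum {ι : Type} (s : Finset ι) (ρ : Rem N r L q b) (μ : ℕ) (G : ι → Mo r L → Po N) :
    asm ρ μ (∑ i ∈ s, G i) = ∑ i ∈ s, asm ρ μ (G i) := by
  classical
  induction s using Finset.induction_on with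
  | empty => simp [asm_zero]
  | insert i s hi ih => rw [Finset.sum_insert hi, Finset.sum_insert hi, asm_add, ih]

lemma tdeg_dn (κ : Mo r L) (t : Fin r) (l : Fin (L + 1)) (h : κ t l ≠ 0) :
    tdeg (dn t l κ) + 1 = tdeg κ := by
  unfold tdeg
  rw [← Finset.add_sum_erase _ _ (Finset.mem_univ t), ← Finset.add_sum_erase _ _ (Finset.mem_univ t)]
  have h1 : ∑ x ∈ Finset.univ.erase t, dg x (dn t l κ) = ∑ x ∈ Finset.univ.erase t, dg x κ := by
    refine Finset.sum_congr rfl (fun x hx => ?_)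
    unfold dg dn
    rw [Function.update_of_ne (Finset.ne_of_mem_erase hx)]
  have h2 : dg t (dn t l κ) + 1 = dg t κ := by
    unfold dg dn
    rw [Function.update_self, ← Finset.add_sum_erase _ _ (Finset.mem_univ l),
      ← Finset.add_sum_erase _ (κ t) (Finset.mem_univ l), Function.update_self]
    have h3 : ∑ x ∈ Finset.univ.erase l, Function.update (κ t) l (κ t l - 1) x =
        ∑ x ∈ Finset.univ.erase l, κ t x := by
      refine Finset.sum_congr rfl (fun x hx => ?_)
      rw [Function.update_of_ne (Finset.ne_of_mem_erase hx)]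
    rw [h3]
    omega
  omega

lemma F_supp {r k L : ℕ} {a : ℤ} (𝒞 : Sys r k L a) (Vs : List (Fin r)) (i : Fin k)
    (g : Mo r L → 𝒞.C) (μ : ℕ) (hg : ∀ κ, g κ ≠ 0 → tdeg κ = μ) :
    ∀ κ, F 𝒞 Vs i g κ ≠ 0 → tdeg κ = μ + 1 := by
  intro κ hκ
  by_contra hne
  apply hκ
  unfold F
  refine Finset.sum_eq_zero (fun t _ => Finset.sum_eq_zero (fun l _ => ?_))
  split_ifs with h
  · have h0 : g (dn t l κ) = 0 := by
      by_contra h0
      have h1 := hg _ h0
      have h2 := tdeg_dn κ t l h.2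
      omega
    rw [h0, map_zero]
  · rfl

lemma F_zero {r k L : ℕ} {a : ℤ} (𝒞 : Sys r k L a) (Vs : List (Fin r)) (i : Fin k) :
    F 𝒞 Vs i (0 : Mo r L → 𝒞.C) = 0 := by
  funext κ
  unfold F
  simp

/-- elements of a finite supremum of images -/
lemma mem_Iq {σ : Type} (f : ℕ → MvPolynomial σ ℂ) (A e j : ℕ) (hAe : A ≤ e) (x : MvPolynomial σ ℂ)
    (hx : x ∈ Iq f A e j) :
    ∃ h : Fin j → MvPolynomial σ ℂ, (∀ i, h i ∈ V σ (e - A)) ∧ x = ∑ i : Fin j, f i * h i := by
  unfold Iq at hx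
  rw [if_pos hAe] at hx
  rw [Submodule.mem_iSup_iff_exists_finsupp] at hx
  obtain ⟨g, hg, hx⟩ := hx
  have h1 : ∀ i : Fin j, ∃ y ∈ V σ (e - A), LinearMap.mulLeft ℂ (f i) y = g i := by
    intro i
    exact (Submodule.mem_map).1 (hg i)
  choose h hh hgh using h1
  refine ⟨h, hh, ?_⟩
  rw [← hx, Finsupp.sum_fintype _ _ (fun _ => rfl)]
  refine Finset.sum_congr rfl (fun i _ => ?_)
  rw [← hgh i, LinearMap.mulLeft_apply]

lemma Iq_mem {σ : Type} (f : ℕ → MvPolynomial σ ℂ) (A e j : ℕ) (hAe : A ≤ e) (i : ℕ) (hi : i < j)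
    (h : MvPolynomial σ ℂ) (hh : h ∈ V σ (e - A)) : f i * h ∈ Iq f A e j := by
  unfold Iq
  rw [if_pos hAe]
  exact Submodule.mem_iSup_of_mem (⟨i, hi⟩ : Fin j) (Submodule.mem_map.2 ⟨h, hh, by
    rw [LinearMap.mulLeft_apply]⟩)

lemma prj_of_mem (N j : ℕ) (c : Po N) (hc : c ∈ V (Fin N) j) : prj N (j : ℤ) c = c := by
  unfold prj
  rw [if_pos (by omega), Int.toNat_natCast, homogeneousComponent_of_mem hc, if_pos rfl]

lemma mem_of_prj (N j : ℕ) (c : Po N) (hc : prj N (j : ℤ) c = c) : c ∈ V (Fin N) j := by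
  rw [← hc]
  unfold prj
  rw [if_pos (by omega), Int.toNat_natCast]
  exact (mem_homogeneousSubmodule _ _).2 (homogeneousComponent_isHomogeneous _ _)

lemma prj_neg (N : ℕ) (j : ℤ) (hj : j < 0) (c : Po N) (hc : prj N j c = c) : c = 0 := by
  rw [← hc]
  unfold prj
  rw [if_neg (by omega)]
  rfl

theorem specTRANG (hASM : SpecASM) (hASF : SpecASF) : SpecTRANS := by
  intro N r s L a D q b e M hM hq hb ha her heD hK k hk e' he' hAe' g hg hfg
  set A := q * a + b with hA
  set k0 := e' - A with hk0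
  obtain ⟨h, hh, hsum⟩ := mem_Iq _ A e' k hAe' _ hfg
  -- the syzygy
  let gg : Fin (k + 1) → MvPolynomial (Fin N ⊕ (Fin r × Fin (L + 1))) ℂ :=
    Fin.snoc (fun i => - h i) g
  have hgg : ∀ i, gg i ∈ V (Fin N ⊕ (Fin r × Fin (L + 1))) k0 := by
    intro i
    refine Fin.lastCases ?_ (fun i => ?_) i
    · simpa [gg] using hg
    · simpa [gg] using (hh i)
  have hsyz : ∑ i : Fin (k + 1), fR M q b i * gg i = 0 := by
    rw [Fin.sum_univ_castSucc]
    simp only [gg, Fin.snoc_castSucc, Fin.snoc_last, Fin.val_castSucc, Fin.val_last, mul_neg,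
      Finset.sum_neg_distrib]
    rw [hsum]
    simp
  have hk1 : k + 1 ≤ s := hk
  -- the decompositions
  choose G hG1 hG2 hG3 using fun i => hASM.ex N r L q b hq hb k0 (gg i) (hgg i)
  set 𝒞 := PS N r (k + 1) L a (fun t i l => M t (Fin.castLE hk1 i) l) (fun _ _ _ => hM _ _ _) with h𝒞
  obtain ⟨FF, hFF⟩ : ∃ FF : Fin (k + 1) → (Mo r L → Po N) → (Mo r L → Po N),
      ∀ i g, FF i g = F 𝒞 (List.finRange r) i g := ⟨fun i g => F 𝒞 (List.finRange r) i g, fun _ _ => rfl⟩
  have hFs : ∀ (i : Fin (k + 1)) (g : Mo r L → Po N) (μ : ℕ), (∀ κ, g κ ≠ 0 → tdeg κ = μ) →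
      ∀ κ, FF i g κ ≠ 0 → tdeg κ = μ + 1 := by
    intro i g μ hg κ hκ
    rw [hFF] at hκ
    exact F_supp 𝒞 (List.finRange r) i g μ hg κ hκ
  have hF0 : ∀ i : Fin (k + 1), FF i 0 = 0 := fun i => (hFF i 0).trans (F_zero 𝒞 _ i)
  have hfA : ∀ (i : Fin (k + 1)) (ρ : Rem N r L q b) (μ : ℕ) (g : Mo r L → Po N),
      (∀ κ, g κ ≠ 0 → tdeg κ = μ) → fR M q b i * asm ρ μ g = asm ρ (μ + 1) (FF i g) := by
    intro i ρ μ g hg
    rw [hFF]
    exact hASF N r s L a q b (k + 1) M hM hk1 i ρ μ g hg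
  have hS : ∀ ρ, ∀ μ < k0 + 1, ∑ i, FF i (G i ρ μ) = 0 := by
    have h1 : ∑ ρ, ∑ μ ∈ Finset.range (k0 + 2),
        asm (N := N) (r := r) (L := L) (q := q) (b := b) ρ μ
          (if μ = 0 then (0 : Mo r L → Po N) else ∑ i, FF i (G i ρ (μ - 1))) = 0 := by
      rw [← hsyz]
      have h2 : ∀ i : Fin (k + 1), fR M q b i * gg i =
          ∑ ρ, ∑ μ ∈ Finset.range (k0 + 1), asm ρ (μ + 1) (FF i (G i ρ μ)) := by
        intro i
        conv_lhs => rw [hG1 i]
        rw [Finset.mul_sum]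
        refine Finset.sum_congr rfl (fun ρ _ => ?_)
        rw [Finset.mul_sum]
        refine Finset.sum_congr rfl (fun μ _ => ?_)
        exact hfA i ρ μ (G i ρ μ) (fun κ hκ => hG2 i ρ μ κ hκ)
      rw [Finset.sum_congr rfl (fun i _ => h2 i)]
      conv_rhs => rw [Finset.sum_comm]
      refine Finset.sum_congr rfl (fun ρ _ => ?_)
      conv_rhs => rw [Finset.sum_comm]
      rw [Finset.sum_range_succ']
      rw [if_pos rfl, asm_zero, add_zero]
      refine Finset.sum_congr rfl (fun μ _ => ?_)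
      rw [if_neg (Nat.succ_ne_zero μ), Nat.add_sub_cancel]
      exact asm_sum _ _ _ _
    have h3 := hASM.un N r L q b hq hb (k0 + 2) (fun ρ μ => if μ = 0 then (0 : Mo r L → Po N) else
            ∑ i, FF i (G i ρ (μ - 1))) h1 (by
      intro ρ μ κ hκ
      by_cases hμ : μ = 0
      · exact absurd (by rw [if_pos hμ]; rfl) hκ
      · by_contra hne
        apply hκ
        rw [if_neg hμ, Finset.sum_apply]
        refine Finset.sum_eq_zero (fun i _ => ?_)
        by_contra h0
        have := hFs i (G i ρ (μ - 1)) (μ - 1) (fun κ hκ => hG2 i ρ (μ - 1) κ hκ) κ h0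
        omega)
    intro ρ μ hμ
    have h4 := h3 ρ (μ + 1) (by omega)
    simp only [Nat.succ_ne_zero, if_false, Nat.add_sub_cancel] at h4
    exact h4
  -- the conclusion
  have hmain : ∀ ρ, ∀ μ < k0 + 1, asm ρ μ (G (Fin.last k) ρ μ) ∈ Iq (fR M q b) A k0 k := by
    intro ρ μ hμ
    by_cases hz : ∃ j : ℕ, q * j + b * μ + ρ.deg = k0
    swap
    · rcases hG3 (Fin.last k) ρ μ with h0 | ⟨j, hj, _⟩
      · rw [h0, asm_zero]
        exact Submodule.zero_mem _
      · exact absurd ⟨j, hj⟩ hz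
    obtain ⟨j, hj⟩ := hz
    have hGV : ∀ i κ, G i ρ μ κ ∈ V (Fin N) j := by
      intro i κ
      rcases hG3 i ρ μ with h0 | ⟨j', hj', h1⟩
      · rw [h0]
        exact Submodule.zero_mem _
      · have : j' = j := by
          have : q * j' = q * j := by omega
          exact Nat.eq_of_mul_eq_mul_left hq this
        rw [← this]
        exact h1 κ
    have hk0e : k0 + A ≤ e := by omega
    have hμr : μ + 1 ≤ r := by
      by_contra hcon
      have h1 : b * r ≤ b * μ := Nat.mul_le_mul_left _ (by omega)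
      have h2 : b * (r + 1) = b * r + b := by ring
      omega
    have hjD : j + a ≤ D := by
      by_contra hcon
      have h1 : q * (D + 1) ≤ q * (j + a) := Nat.mul_le_mul_left _ (by omega)
      have h2 : q * (j + a) = q * j + q * a := by ring
      omega
    obtain ⟨c, hc1, hc2, hc3⟩ := hK (k + 1) hk1 (μ : ℤ) (j : ℤ) (by exact_mod_cast hμr)
      (by exact_mod_cast hjD) (fun i => G i ρ μ) (fun i =>
        { deg := fun κ hκ => by exact_mod_cast hG2 i ρ μ κ hκ
          sup := fun κ _ t ht => absurd (List.mem_finRange t) ht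
          hom := fun κ => prj_of_mem N j _ (hGV i κ) }) (by
            refine Eq.trans ?_ (hS ρ μ hμ)
            exact Finset.sum_congr rfl (fun i _ => (hFF i (G i ρ μ)).symm))
    obtain ⟨cc, hcc⟩ : ∃ cc : Fin (k + 1) → (Mo r L → Po N), ∀ m, cc m = c (Fin.last k) m :=
      ⟨fun m => c (Fin.last k) m, fun _ => rfl⟩
    have hkk : cc (Fin.last k) = 0 := by
      have h1 : cc (Fin.last k) = - cc (Fin.last k) := by
        rw [hcc]
        exact hc2 (Fin.last k) (Fin.last k)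
      have h2 : (2 : ℂ) • cc (Fin.last k) = 0 := by
        rw [two_smul]
        nth_rewrite 1 [h1]
        exact neg_add_cancel _
      exact (smul_eq_zero.1 h2).resolve_left two_ne_zero
    have hGc : G (Fin.last k) ρ μ = ∑ m, FF m (cc m) := by
      refine (hc3 (Fin.last k)).trans ?_
      refine Finset.sum_congr rfl (fun m _ => ?_)
      rw [hFF, hcc]
    have hcd : ∀ m κ, cc m κ ≠ 0 → (tdeg κ : ℤ) = μ - 1 := by
      intro m κ hκ
      rw [hcc] at hκ
      exact (hc1 (Fin.last k) m).deg κ hκ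
    have hch : ∀ m κ, prj N ((j : ℤ) - a) (cc m κ) = cc m κ := by
      intro m κ
      rw [hcc]
      exact (hc1 (Fin.last k) m).hom κ
    rw [hGc, asm_sum]
    by_cases hpos : 1 ≤ μ ∧ a ≤ j
    · obtain ⟨hμ1, haj⟩ := hpos
      have h1 : q * (j - a) + q * a = q * j := by
        rw [← mul_add, Nat.sub_add_cancel haj]
      have h2 : b * (μ - 1) + b = b * μ := by
        conv_rhs => rw [← Nat.sub_add_cancel hμ1]
        ring
      have hexp : q * (j - a) + b * (μ - 1) + ρ.deg = k0 - A := by omega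
      have hAk0 : A ≤ k0 := by omega
      refine Submodule.sum_mem _ (fun m _ => ?_)
      have hcs : ∀ κ, cc m κ ≠ 0 → tdeg κ = μ - 1 := by
        intro κ hκ
        have := hcd m κ hκ
        omega
      have h6 := hfA m ρ (μ - 1) (cc m) hcs
      rw [Nat.sub_add_cancel hμ1] at h6
      rw [← h6]
      by_cases hm : m = Fin.last k
      · rw [hm, hkk, asm_zero, mul_zero]
        exact Submodule.zero_mem _
      · have hmk : (m : ℕ) < k := by
          have := m.isLt
          have h9 : (m : ℕ) ≠ k := fun h => hm (Fin.ext h)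
          omega
        refine Iq_mem _ A k0 k hAk0 _ hmk _ ?_
        rw [← hexp]
        refine hASM.hom N r L q b ρ (μ - 1) (j - a) _ (fun κ => ?_)
        refine mem_of_prj N (j - a) _ ?_
        rw [Nat.cast_sub haj]
        exact hch m κ
    · refine Submodule.sum_mem _ (fun m _ => ?_)
      have hc0 : cc m = 0 := by
        funext κ
        by_contra hne
        apply hpos
        constructor
        · have := hcd m κ hne
          omega
        · by_contra haj
          exact hne (prj_neg N ((j : ℤ) - a) (by omega) _ (hch m κ))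
      rw [hc0, hF0, asm_zero]
      exact Submodule.zero_mem _
  have hlast : g = gg (Fin.last k) := by simp [gg]
  rw [hlast, hG1 (Fin.last k)]
  exact Submodule.sum_mem _ (fun ρ _ => Submodule.sum_mem _ (fun μ hμ =>
    hmain ρ μ (Finset.mem_range.1 hμ)))

end FrI.TRANGM
end

section
/-!
# MP_921642_ag, FI4: BASE2, monomial matrices, only the living groups need a variable
-/
set_option autoImplicit false

namespace FrI

open MvPolynomial Pool.Agent.Lib.MP_921642_ag

namespace BASE2M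

/-- CNT when `v` is injective only on `S` and the conditions outside `S` are impossible or empty -/
lemma cnt2 (hCNT : SpecCNT) (N m : ℕ) (v : Fin m → Fin N) (S : Finset (Fin m))
    (hS : Set.InjOn v (S : Set (Fin m))) (c : Fin m → ℕ) (D : ℕ)
    (hc : ∀ p, p ∉ S → c p = 0 ∨ c p = D + 1) :
    (((((Finset.univ : Finset (Fin N)).finsuppAntidiag D).filter
      (fun α => ∀ p, α (v p) < c p)).card : ℕ) : ℤ) =
    PowerSeries.coeff D ((∏ p, (1 - (PowerSeries.X : PowerSeries ℤ) ^ (c p))) *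
      (PowerSeries.invOneSubPow ℤ N).val) := by
  classical
  by_cases h0 : ∃ p, c p = 0
  · obtain ⟨p, hp⟩ := h0
    have h1 : ((Finset.univ : Finset (Fin N)).finsuppAntidiag D).filter
      (fun α => ∀ p, α (v p) < c p) = ∅ := by
      rw [Finset.filter_eq_empty_iff]
      intro α _ h
      have := h p
      rw [hp] at this
      exact absurd this (Nat.not_lt_zero _)
    have h2 : (∏ p, (1 - (PowerSeries.X : PowerSeries ℤ) ^ (c p))) = 0 :=
      Finset.prod_eq_zero (Finset.mem_univ p) (by rw [hp, pow_zero, sub_self])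
    rw [h1, h2]
    simp
  · have hc' : ∀ p, p ∉ S → c p = D + 1 := fun p hp =>
      (hc p hp).resolve_left (fun h => h0 ⟨p, h⟩)
    let e := S.equivFin
    have hinj : Function.Injective (fun j : Fin S.card => v (e.symm j).1) := by
      intro j k hjk
      have h1 := hS (e.symm j).2 (e.symm k).2 hjk
      exact e.symm.injective (Subtype.ext h1)
    have h1 := hCNT N S.card (fun j => v (e.symm j).1) hinj (fun j => c (e.symm j).1) D
    have h2 : ((Finset.univ : Finset (Fin N)).finsuppAntidiag D).filter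
        (fun α => ∀ p, α (v p) < c p) =
        ((Finset.univ : Finset (Fin N)).finsuppAntidiag D).filter
        (fun α => ∀ j : Fin S.card, α (v (e.symm j).1) < c (e.symm j).1) := by
      apply Finset.filter_congr
      intro α hα
      constructor
      · intro h j
        exact h _
      · intro h p
        by_cases hp : p ∈ S
        · have := h (e ⟨p, hp⟩)
          rwa [Equiv.symm_apply_apply] at this
        · rw [hc' p hp]
          rw [Finset.mem_finsuppAntidiag] at hα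
          have h3 : α (v p) ≤ D := by
            rw [← hα.1]
            exact Finset.single_le_sum (f := fun v => α v) (fun _ _ => Nat.zero_le _)
              (Finset.mem_univ _)
          omega
    rw [h2, h1]
    have h3 : (∏ j : Fin S.card, (1 - (PowerSeries.X : PowerSeries ℤ) ^ (c (e.symm j).1))) =
        ∏ p, (if p ∈ S then (1 - (PowerSeries.X : PowerSeries ℤ) ^ (c p)) else 1) := by
      rw [Finset.prod_ite_mem, Finset.univ_inter]
      rw [← Finset.prod_coe_sort S (fun p => (1 - (PowerSeries.X : PowerSeries ℤ) ^ (c p)))]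
      exact Equiv.prod_comp e.symm (fun p : S => (1 - (PowerSeries.X : PowerSeries ℤ) ^ (c p.1)))
    rw [h3]
    apply BASEM.coeff_congr
    intro p
    by_cases hp : p ∈ S
    · rw [if_pos hp, sub_self]
      exact dvd_zero _
    · rw [if_neg hp, hc' p hp]
      exact ⟨1, by ring⟩

end BASE2M

open BASEM in
theorem BASE2M.specBASE2 (hCNT : SpecCNT) : SpecBASE2 := by
  classical
  intro N L r s a I D hN1 hrN hcard
  set J : Fin r → Finset (Fin s) := fun t => (I t).filter (fun i => a t i ≤ D) with hJ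
  choose lam hlam using fun t => exists_lam (J t) (hcard t)
  obtain ⟨x, hxinj⟩ : ∃ x : Fin r → Fin N, Set.InjOn x (live a I D : Set (Fin r)) := by
    obtain ⟨N', rfl⟩ : ∃ N', N = N' + 1 := ⟨N - 1, by omega⟩
    exact exists_lam (live a I D) hrN
  let M : Mat N r s L := fun t i l => if i ∈ J t ∧ lam t i = l then (X (x t)) ^ (a t i) else 0
  refine ⟨M, ?_, ?_⟩
  · intro t i l
    simp only [M]
    split_ifs
    · rw [mem_homogeneousSubmodule]
      exact isHomogeneous_X_pow _ _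
    · exact Submodule.zero_mem _
  · intro q u hu I' hI' D' hD'
    -- the bad pairs
    set An := (Finset.univ : Finset (Fin N)).finsuppAntidiag D' with hAn
    have hmemAn : ∀ α, α ∈ An ↔ ∑ v, α v = D' := by
      intro α
      rw [hAn, Finset.mem_finsuppAntidiag]
      simp
    let bad : (Fin q → Fin (L + 1)) → (Fin N →₀ ℕ) → Prop := fun ν α =>
      ∃ p, ∃ i ∈ I' (u p), i ∈ J (u p) ∧ lam (u p) i = ν p ∧ a (u p) i ≤ α (x (u p))
    set B := ((Finset.univ : Finset (Fin q → Fin (L + 1))) ×ˢ An).filter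
      (fun y => bad y.1 y.2) with hB
    have hfd := fd_WD M a u I' D'
    have h1 : B.card ≤ Module.finrank ℂ (WD M a u I' D') := by
      refine indep B _ ?_
      rintro ⟨ν, α⟩ hy
      rw [hB, Finset.mem_filter, Finset.mem_product] at hy
      obtain ⟨⟨-, hα⟩, p0, i0, hi0, hi0J, hlam0, ha0⟩ := hy
      simp only at hα hlam0 ha0
      rw [hmemAn] at hα
      have hle : a (u p0) i0 ≤ D' := by
        refine le_trans ha0 ?_
        rw [← hα]
        exact Finset.single_le_sum (f := fun v => α v) (fun _ _ => Nat.zero_le _)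
          (Finset.mem_univ _)
      set β : Fin N →₀ ℕ := α - Finsupp.single (x (u p0)) (a (u p0) i0) with hβ
      have hβα : Finsupp.single (x (u p0)) (a (u p0) i0) + β = α := by
        rw [hβ, add_tsub_cancel_of_le]
        rw [Finsupp.single_le_iff]
        exact ha0
      let g : Fin q → Fin s → Fn N L q := fun p i ν' =>
        if p = p0 ∧ i = i0 ∧ ν' = Function.update ν p0 0 then monomial β (1 : ℂ) else 0
      refine Submodule.mem_map.2 ⟨g, ?_, ?_⟩
      · unfold Dom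
        rw [Submodule.mem_pi]
        intro p _
        rw [Submodule.mem_pi]
        intro i _
        unfold FH
        rw [Submodule.mem_pi]
        intro ν' _
        by_cases hc : p = p0 ∧ i = i0 ∧ ν' = Function.update ν p0 0
        · simp only [g, if_pos hc]
          obtain ⟨rfl, rfl, -⟩ := hc
          have h0 : (0 : ℤ) ≤ (D' : ℤ) - a (u p) i := by
            rw [sub_nonneg]
            exact_mod_cast hle
          unfold HS
          rw [if_pos h0, mem_homogeneousSubmodule]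
          apply isHomogeneous_monomial
          have h5 : ((D' : ℤ) - a (u p) i).toNat = D' - a (u p) i := by omega
          rw [h5, Finsupp.degree_eq_sum]
          have h6 : ∑ v, α v = a (u p) i + ∑ v, β v := by
            rw [← hβα]
            simp only [Finsupp.add_apply, Finset.sum_add_distrib]
            congr 1
            rw [Finset.sum_eq_single (x (u p))]
            · simp
            · intro b _ hb
              simp [Ne.symm hb]
            · intro h
              exact absurd (Finset.mem_univ _) h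
          omega
        · simp only [g, if_neg hc]
          exact Submodule.zero_mem _
      · funext ν'
        change ∑ p, ∑ i ∈ I' (u p), M (u p) i (ν' p) * g p i (Function.update ν' p 0) = _
        rw [Finset.sum_eq_single p0, Finset.sum_eq_single i0]
        · simp only [M, g, true_and]
          by_cases hν : ν' = ν
          · subst hν
            rw [if_pos ⟨hi0J, hlam0⟩, if_pos rfl, Pi.single_eq_same, X_pow_eq_monomial,
              monomial_mul, hβα, one_mul]
          · rw [Pi.single_eq_of_ne hν]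
            by_cases h7 : lam (u p0) i0 = ν' p0
            · have h9 : ¬ (Function.update ν' p0 0 = Function.update ν p0 0) := by
                intro h8
                apply hν
                funext p
                by_cases hp : p = p0
                · subst hp
                  rw [← h7, hlam0]
                · have := congrFun h8 p
                  rwa [Function.update_of_ne hp, Function.update_of_ne hp] at this
              rw [if_neg h9, mul_zero]
            · rw [if_neg (fun h => h7 h.2), zero_mul]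
        · intro i _ hi
          simp only [g]
          rw [if_neg (fun h => hi h.2.1), mul_zero]
        · intro h
          exact absurd hi0 h
        · intro p _ hp
          refine Finset.sum_eq_zero (fun i _ => ?_)
          simp only [g]
          rw [if_neg (fun h => hp h.1), mul_zero]
        · intro h
          exact absurd (Finset.mem_univ _) h
    -- counting
    set G := ((Finset.univ : Finset (Fin q → Fin (L + 1))) ×ˢ An).filter
      (fun y => ¬ bad y.1 y.2) with hG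
    have h2 : B.card + G.card = (L + 1) ^ q * Module.finrank ℂ (V (Fin N) D') := by
      rw [hB, hG, Finset.card_filter_add_card_filter_not, Finset.card_product, finrank_V_card]
      simp [hAn]
    have h3 : (((L + 1) ^ q * Module.finrank ℂ (V (Fin N) D') : ℕ) : ℤ) -
        (Module.finrank ℂ (WD M a u I' D') : ℤ) ≤ (G.card : ℤ) := by
      rw [← h2]
      push_cast
      have : (B.card : ℤ) ≤ Module.finrank ℂ (WD M a u I' D') := by exact_mod_cast h1
      linarith
    refine le_trans h3 (le_of_eq ?_)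
    -- the bounds `c`
    have hc : ∀ ν : Fin q → Fin (L + 1), ∀ p, ∃ c : ℕ,
        (∀ α ∈ An, (α (x (u p)) < c ↔ ∀ i ∈ I' (u p), i ∈ J (u p) → lam (u p) i = ν p →
          α (x (u p)) < a (u p) i)) ∧
        (PowerSeries.X : PowerSeries ℤ) ^ (D' + 1) ∣ (1 - (PowerSeries.X : PowerSeries ℤ) ^ c) -
          (1 - ∑ i ∈ ((I' (u p)).filter (fun i => i ∈ J (u p))).filter
            (fun i => lam (u p) i = ν p), (PowerSeries.X : PowerSeries ℤ) ^ (a (u p) i)) ∧
        (u p ∉ live a I D → c = 0 ∨ c = D' + 1) := by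
      intro ν p
      by_cases h : ∃ i ∈ I' (u p), i ∈ J (u p) ∧ lam (u p) i = ν p
      · obtain ⟨i, hi1, hi2, hi3⟩ := h
        have huniq : ∀ i' ∈ I' (u p), i' ∈ J (u p) → lam (u p) i' = ν p → i' = i := by
          intro i' _ h2 h3
          exact hlam (u p) h2 hi2 (by rw [h3, hi3])
        refine ⟨a (u p) i, ?_, ?_, ?_⟩
        · intro α _
          constructor
          · intro h i' h1 h2 h3
            rw [huniq i' h1 h2 h3]
            exact h
          · intro h
            exact h i hi1 hi2 hi3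
        · have h4 : ((I' (u p)).filter (fun i => i ∈ J (u p))).filter
            (fun i => lam (u p) i = ν p) = {i} := by
            ext i'
            simp only [Finset.mem_filter, Finset.mem_singleton]
            constructor
            · rintro ⟨⟨h1, h2⟩, h3⟩
              exact huniq i' h1 h2 h3
            · rintro rfl
              exact ⟨⟨hi1, hi2⟩, hi3⟩
          rw [h4, Finset.sum_singleton, sub_self]
          exact dvd_zero _
        · intro hl
          left
          by_contra h0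
          apply hl
          unfold live
          rw [Finset.mem_filter]
          rw [hJ, Finset.mem_filter] at hi2
          exact ⟨Finset.mem_univ _, i, hi2.1, Nat.one_le_iff_ne_zero.2 h0, hi2.2⟩
      · refine ⟨D' + 1, ?_, ?_, fun _ => Or.inr rfl⟩
        · intro α hα
          constructor
          · intro _ i' h1 h2 h3
            exact absurd ⟨i', h1, h2, h3⟩ h
          · intro _
            rw [hmemAn] at hα
            rw [← hα]
            exact Nat.lt_succ_of_le (Finset.single_le_sum (f := fun v => α v)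
              (fun _ _ => Nat.zero_le _) (Finset.mem_univ _))
        · have h4 : ((I' (u p)).filter (fun i => i ∈ J (u p))).filter
            (fun i => lam (u p) i = ν p) = ∅ := by
            ext i'
            simp only [Finset.mem_filter, Finset.notMem_empty, iff_false]
            rintro ⟨⟨h1, h2⟩, h3⟩
            exact h ⟨i', h1, h2, h3⟩
          rw [h4, Finset.sum_empty, sub_zero]
          exact ⟨-1, by ring⟩
    choose c hc1 hc2 hc3 using hc
    have h4 : G.card = ∑ ν : Fin q → Fin (L + 1),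
        (An.filter (fun α => ∀ p, α ((x ∘ u) p) < c ν p)).card := by
      rw [hG, Finset.card_filter, Finset.sum_product]
      refine Finset.sum_congr rfl (fun ν _ => ?_)
      rw [Finset.card_filter]
      refine Finset.sum_congr rfl (fun α hα => ?_)
      have h5 : (¬ bad ν α) ↔ ∀ p, α ((x ∘ u) p) < c ν p := by
        simp only [bad, not_exists, not_and, not_le, Function.comp_apply]
        constructor
        · intro h p
          exact (hc1 ν p α hα).2 (h p)
        · intro h p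
          exact (hc1 ν p α hα).1 (h p)
      simp only [h5]
    rw [h4, Nat.cast_sum]
    have h5 : ∀ ν : Fin q → Fin (L + 1),
        (((An.filter (fun α => ∀ p, α ((x ∘ u) p) < c ν p)).card : ℕ) : ℤ) =
        PowerSeries.coeff D' ((∏ p, (1 - ∑ i ∈ ((I' (u p)).filter (fun i => i ∈ J (u p))).filter
            (fun i => lam (u p) i = ν p), (PowerSeries.X : PowerSeries ℤ) ^ (a (u p) i))) *
          (PowerSeries.invOneSubPow ℤ N).val) := by
      intro ν
      rw [hAn, BASE2M.cnt2 hCNT N q (x ∘ u) (Finset.univ.filter (fun p => u p ∈ live a I D))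
        (fun p hp p' hp' h => by
          have h1 : u p ∈ live a I D := (Finset.mem_filter.1 (Finset.mem_coe.1 hp)).2
          have h2 : u p' ∈ live a I D := (Finset.mem_filter.1 (Finset.mem_coe.1 hp')).2
          exact hu (hxinj h1 h2 h)) (c ν) D'
        (fun p hp => hc3 ν p (fun h => hp (Finset.mem_filter.2 ⟨Finset.mem_univ _, h⟩)))]
      exact coeff_congr D' _ _ _ (hc2 ν)
    rw [Finset.sum_congr rfl (fun ν _ => h5 ν), ← map_sum, ← Finset.sum_mul]
    have h6 : ∑ ν : Fin q → Fin (L + 1), ∏ p,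
        (1 - ∑ i ∈ ((I' (u p)).filter (fun i => i ∈ J (u p))).filter
            (fun i => lam (u p) i = ν p), (PowerSeries.X : PowerSeries ℤ) ^ (a (u p) i)) =
        ∏ p, (((L + 1 : ℕ) : PowerSeries ℤ) -
          ∑ i ∈ (I' (u p)).filter (fun i => i ∈ J (u p)),
            (PowerSeries.X : PowerSeries ℤ) ^ (a (u p) i)) := by
      have h7 := Finset.prod_univ_sum (fun _ : Fin q => (Finset.univ : Finset (Fin (L + 1))))
        (fun p l => (1 - ∑ i ∈ ((I' (u p)).filter (fun i => i ∈ J (u p))).filter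
            (fun i => lam (u p) i = l), (PowerSeries.X : PowerSeries ℤ) ^ (a (u p) i)))
      rw [Fintype.piFinset_univ] at h7
      rw [← h7]
      refine Finset.prod_congr rfl (fun p _ => ?_)
      rw [Finset.sum_sub_distrib, Finset.sum_fiberwise]
      simp
    rw [h6]
    unfold expc
    apply coeff_congr
    intro p
    have h8 : ((L + 1 : ℕ) : PowerSeries ℤ) - ∑ i ∈ (I' (u p)).filter (fun i => i ∈ J (u p)),
            (PowerSeries.X : PowerSeries ℤ) ^ (a (u p) i) -
          (((L + 1 : ℕ) : PowerSeries ℤ) - ∑ i ∈ I' (u p), (PowerSeries.X : PowerSeries ℤ) ^ (a (u p) i)) =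
        ∑ i ∈ (I' (u p)).filter (fun i => ¬ i ∈ J (u p)),
            (PowerSeries.X : PowerSeries ℤ) ^ (a (u p) i) := by
      rw [← Finset.sum_filter_add_sum_filter_not (I' (u p)) (fun i => i ∈ J (u p))]
      ring
    rw [h8]
    refine Finset.dvd_sum (fun i hi => ?_)
    rw [Finset.mem_filter] at hi
    apply pow_dvd_pow
    have h9 : ¬ a (u p) i ≤ D := by
      intro h
      apply hi.2
      rw [hJ, Finset.mem_filter]
      exact ⟨hI' _ hi.1, h⟩
    omega

end FrI
end

section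
/-!
# MP_921642_ag, FI4: the capacity inequality for `n ≥ d^3` (module CAPC)
-/
set_option autoImplicit false

namespace FrI.CAPCM

open FrI

theorem choose_step (N m : ℕ) :
    ((N + (m + 1)).choose N : ℝ) * ((m : ℝ) + 1) = ((N + m).choose N : ℝ) * ((N : ℝ) + m + 1) := by
  have h := Nat.choose_mul_succ_eq (N + m) N
  have e : N + m + 1 - N = m + 1 := by omega
  rw [e] at h
  have h' : ((N + m).choose N : ℝ) * ((N + m + 1 : ℕ) : ℝ) =
      ((N + m + 1).choose N : ℝ) * ((m + 1 : ℕ) : ℝ) := by exact_mod_cast h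
  push_cast at h'
  rw [← Nat.add_assoc]
  linarith

/-- one factor -/
theorem factor (n n' d e A i : ℝ) (hd : 4 ≤ d) (hde : d = e + A) (hA : 2 ≤ A) (hAe : A ≤ e)
    (hi : 1 ≤ i) (hiA : i ≤ A) (hn : d ^ 3 ≤ n) (hn' : d * (n - n') ≤ n) :
    (n + e + i) * (e - A + i) ≤
      ((1 + 3 / d) * (1 - A / d)) * ((n' + (e - A) + i) * (e + i)) := by
  have hd0 : 0 < d := by linarith
  have h1 : e - A + i ≤ (1 - A / d) * (e + i) := by
    have : A / d * (e + i) ≤ A := by
      rw [div_mul_eq_mul_div, div_le_iff₀ hd0]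
      exact mul_le_mul_of_nonneg_left (by linarith) (by linarith)
    nlinarith
  have h2 : n + e + i ≤ (1 + 3 / d) * (n' + (e - A) + i) := by
    have a1 : n + e + i ≤ n + d := by linarith
    have a2 : (1 + 3 / d) * n' ≤ (1 + 3 / d) * (n' + (e - A) + i) :=
      mul_le_mul_of_nonneg_left (by linarith) (by positivity)
    have a3 : n + d ≤ (1 + 3 / d) * n' := by
      have b1 : (1 + 3 / d) * n' = (d + 3) * n' / d := by
        field_simp
      rw [b1, le_div_iff₀ hd0]
      have b2 : d * n - n ≤ d * n' := by nlinarith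
      -- (n + d) d ≤ (d + 3) n'
      have b3 : (n + d) * d * d ≤ (d + 3) * (d * n') := by
        have c1 : (d + 3) * (d * n - n) ≤ (d + 3) * (d * n') :=
          mul_le_mul_of_nonneg_left b2 (by linarith)
        have c2 : (n + d) * d * d ≤ (d + 3) * (d * n - n) := by
          have hn0 : 0 ≤ n := le_trans (by positivity) hn
          have q1 : n * 1 ≤ n * (2 * d - 3) := mul_le_mul_of_nonneg_left (by linarith) hn0
          have q2 : (d + 3) * (d * n - n) = n * d ^ 2 + n * (2 * d - 3) := by ring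
          have q3 : (n + d) * d * d = n * d ^ 2 + d ^ 3 := by ring
          rw [q2, q3]
          linarith
        exact c2.trans c1
      nlinarith
    linarith
  have h3 : 0 ≤ e - A + i := by linarith
  have h4 : 0 ≤ (1 + 3 / d) * (n' + (e - A) + i) := by
    refine le_trans ?_ h2
    have : 0 ≤ n := le_trans (by positivity) hn
    linarith
  calc (n + e + i) * (e - A + i) ≤
      ((1 + 3 / d) * (n' + (e - A) + i)) * ((1 - A / d) * (e + i)) := mul_le_mul h2 h1 h3 h4
    _ = _ := by ring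

theorem ratio (n n' e A : ℕ) (β : ℝ) (hβ : 0 ≤ β) (hAe : A ≤ e)
    (hf : ∀ i : ℕ, 1 ≤ i → i ≤ A → ((n : ℝ) + e + i) * ((e : ℝ) - A + i) ≤
      β * (((n' : ℝ) + ((e : ℝ) - A) + i) * ((e : ℝ) + i))) :
    ∀ j : ℕ, j ≤ A → ((n + (e + j)).choose n : ℝ) * ((n' + (e - A)).choose n' : ℝ) ≤
      β ^ j * (((n + e).choose n : ℝ) * ((n' + (e - A + j)).choose n' : ℝ)) := by
  intro j
  induction j with
  | zero =>
    intro _
    simp
  | succ j ih =>
    intro hj
    have hj' := ih (by omega)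
    have s1 := choose_step n (e + j)
    have s2 := choose_step n' (e - A + j)
    have hsub : ((e - A : ℕ) : ℝ) = (e : ℝ) - A := Nat.cast_sub hAe
    have f := hf (j + 1) (by omega) hj
    rw [show e + (j + 1) = e + j + 1 from rfl, show e - A + (j + 1) = e - A + j + 1 from rfl]
    set C1 : ℝ := ((n + (e + j)).choose n : ℝ) with hC1
    set C1' : ℝ := ((n + (e + j + 1)).choose n : ℝ) with hC1'
    set C2 : ℝ := ((n' + (e - A + j)).choose n' : ℝ) with hC2
    set C2' : ℝ := ((n' + (e - A + j + 1)).choose n' : ℝ) with hC2'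
    set P : ℝ := ((n' + (e - A)).choose n' : ℝ) with hP
    set Q : ℝ := ((n + e).choose n : ℝ) with hQ
    have hP0 : 0 ≤ P := Nat.cast_nonneg _
    have hQ0 : 0 ≤ Q := Nat.cast_nonneg _
    have hC10 : 0 ≤ C1 := Nat.cast_nonneg _
    have hC20 : 0 ≤ C2 := Nat.cast_nonneg _
    push_cast at s1 s2 f
    rw [hsub] at s2
    have he : (A : ℝ) ≤ e := by exact_mod_cast hAe
    have hj0 : (0 : ℝ) ≤ j := Nat.cast_nonneg j
    have p1 : (0 : ℝ) < (e : ℝ) + j + 1 := by positivity
    have p2 : (0 : ℝ) < (e : ℝ) - A + j + 1 := by linarith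
    have hn0 : (0 : ℝ) ≤ n := Nat.cast_nonneg n
    have hn0' : (0 : ℝ) ≤ n' := Nat.cast_nonneg n'
    -- multiply by the two denominators
    have key : (C1' * P) * (((e : ℝ) + j + 1) * ((e : ℝ) - A + j + 1)) ≤
        (β ^ (j + 1) * (Q * C2')) * (((e : ℝ) + j + 1) * ((e : ℝ) - A + j + 1)) := by
      calc (C1' * P) * (((e : ℝ) + j + 1) * ((e : ℝ) - A + j + 1))
          = (C1' * ((e : ℝ) + j + 1)) * P * ((e : ℝ) - A + j + 1) := by ring
        _ = (C1 * ((n : ℝ) + (e + j) + 1)) * P * ((e : ℝ) - A + j + 1) := by rw [s1]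
        _ = (C1 * P) * (((n : ℝ) + e + (j + 1)) * ((e : ℝ) - A + (j + 1))) := by ring
        _ ≤ (C1 * P) * (β * (((n' : ℝ) + ((e : ℝ) - A) + (j + 1)) * ((e : ℝ) + (j + 1)))) :=
            mul_le_mul_of_nonneg_left f (mul_nonneg hC10 hP0)
        _ ≤ (β ^ j * (Q * C2)) * (β * (((n' : ℝ) + ((e : ℝ) - A) + (j + 1)) *
              ((e : ℝ) + (j + 1)))) := by
            refine mul_le_mul_of_nonneg_right hj' (mul_nonneg hβ ?_)
            refine mul_nonneg ?_ ?_ <;> linarith
        _ = β ^ (j + 1) * Q * (C2 * ((n' : ℝ) + ((e : ℝ) - A + j) + 1)) *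
              ((e : ℝ) + j + 1) := by ring
        _ = β ^ (j + 1) * Q * (C2' * ((e : ℝ) - A + j + 1)) * ((e : ℝ) + j + 1) := by rw [s2]
        _ = (β ^ (j + 1) * (Q * C2')) * (((e : ℝ) + j + 1) * ((e : ℝ) - A + j + 1)) := by ring
    exact le_of_mul_le_mul_right key (mul_pos p1 p2)

theorem specCAPC : SpecCAPC := by
  intro n A e L n' s hA hAe hd4 hn3 hL hn' hs
  obtain ⟨d, hd⟩ : ∃ d, d = e + A := ⟨_, rfl⟩
  rw [← hd] at hd4 hn3 hL
  have he0 : 0 < e := by omega
  have hdR : (d : ℝ) = e + A := by exact_mod_cast hd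
  have hdiv := Nat.div_add_mod n (d * e)
  have hmod := Nat.mod_lt n (Nat.mul_pos (by omega : 0 < d) he0)
  rw [← hL] at hdiv
  have hd4R : (4 : ℝ) ≤ d := by exact_mod_cast hd4
  have hd0 : (0 : ℝ) < d := by linarith
  have hA2R : (2 : ℝ) ≤ A := by exact_mod_cast hA
  have hAeR : (A : ℝ) ≤ e := by exact_mod_cast hAe
  have he0R : (0 : ℝ) < e := by exact_mod_cast he0
  have hn3R : (d : ℝ) ^ 3 ≤ n := by exact_mod_cast hn3
  have hn'R : (n' : ℝ) + e * ((L : ℝ) + 1) = n := by exact_mod_cast hn'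
  have hlow : (d : ℝ) * ((n : ℝ) - n') ≤ n := by
    have h1 : d * e * (L + 1) ≤ n := by omega
    have h2 : (d : ℝ) * e * ((L : ℝ) + 1) ≤ n := by exact_mod_cast h1
    have h3 : (n : ℝ) - n' = e * ((L : ℝ) + 1) := by linarith
    rw [h3]
    linarith
  have hupp : (n : ℝ) ≤ 2 * ((d : ℝ) * e) * ((L : ℝ) + 1) := by
    have h1 : n ≤ 2 * (d * e) * (L + 1) := by
      have h2 : d * e * 1 ≤ d * e * (L + 1) := Nat.mul_le_mul_left _ (by omega)
      have h3 : 2 * (d * e) * (L + 1) = d * e * (L + 1) + d * e * (L + 1) := by ring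
      omega
    exact_mod_cast h1
  -- the factor
  obtain ⟨β, hβ⟩ : ∃ β : ℝ, β = (1 + 3 / (d : ℝ)) * (1 - (A : ℝ) / d) := ⟨_, rfl⟩
  have hxd : (A : ℝ) / d ≤ 1 := by
    rw [div_le_one hd0, hdR]
    linarith
  have hβ0 : 0 ≤ β := by
    rw [hβ]
    exact mul_nonneg (by positivity) (by linarith)
  have hrat := ratio n n' e A β hβ0 hAe (fun i hi hiA => by
    rw [hβ]
    exact factor n n' d e A i hd4R hdR hA2R hAeR (by exact_mod_cast hi) (by exact_mod_cast hiA)
      hn3R hlow) (A - 1) (by omega)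
  have hβexp : β ≤ Real.exp ((3 - (A : ℝ)) / d) := by
    have h1 : 1 + 3 / (d : ℝ) ≤ Real.exp (3 / d) := by
      have := Real.add_one_le_exp (3 / (d : ℝ))
      linarith
    have h2 : 1 - (A : ℝ) / d ≤ Real.exp (-((A : ℝ) / d)) := by
      have := Real.add_one_le_exp (-((A : ℝ) / d))
      linarith
    rw [hβ]
    calc (1 + 3 / (d : ℝ)) * (1 - (A : ℝ) / d) ≤ Real.exp (3 / d) * Real.exp (-((A : ℝ) / d)) :=
          mul_le_mul h1 h2 (by linarith) (Real.exp_pos _).le
      _ = _ := by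
          rw [← Real.exp_add]
          congr 1
          ring
  have hpow : β ^ (A - 1) ≤ Real.exp (4 - (A : ℝ) ^ 2 / ((e : ℝ) + A)) := by
    calc β ^ (A - 1) ≤ (Real.exp ((3 - (A : ℝ)) / d)) ^ (A - 1) := pow_le_pow_left₀ hβ0 hβexp _
      _ = Real.exp (((A - 1 : ℕ) : ℝ) * ((3 - (A : ℝ)) / d)) := by rw [← Real.exp_nat_mul]
      _ ≤ _ := by
          rw [Real.exp_le_exp, Nat.cast_sub (by omega : 1 ≤ A), Nat.cast_one, ← hdR]
          rw [mul_div_assoc', div_le_iff₀ hd0]
          have : (4 - (A : ℝ) ^ 2 / d) * d = 4 * d - (A : ℝ) ^ 2 := by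
            field_simp
          rw [this]
          nlinarith
  -- assembly
  have e1 : n' + (e - 1) - (A - 1) = n' + (e - A) := by omega
  have e2 : n' + (e - 1) = n' + (e - A + (A - 1)) := by omega
  rw [e1, e2]
  set P : ℝ := ((n' + (e - A)).choose n' : ℝ) with hP
  set Q : ℝ := ((n + e).choose n : ℝ) with hQ
  set R : ℝ := ((n' + (e - A + (A - 1))).choose n' : ℝ) with hR
  have hP0 : 0 ≤ P := Nat.cast_nonneg _
  have hQ0 : 0 < Q := by
    rw [hQ]
    exact_mod_cast Nat.choose_pos (Nat.le_add_right n e)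
  have hR0 : 0 ≤ R := Nat.cast_nonneg _
  have hstep := choose_step n (e + (A - 1))
  have e3 : n + (e + (A - 1) + 1) = n + e + A := by omega
  rw [e3] at hstep
  have e4 : (((e + (A - 1) : ℕ) : ℝ)) + 1 = d := by
    have : e + (A - 1) + 1 = d := by omega
    exact_mod_cast this
  have e5 : (n : ℝ) + ((e + (A - 1) : ℕ) : ℝ) + 1 = n + d := by linarith
  rw [e4, e5] at hstep
  set T : ℝ := ((n + e + A).choose n : ℝ) with hT
  set U : ℝ := ((n + (e + (A - 1))).choose n : ℝ) with hU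
  -- T d = U (n + d),  U P ≤ β^(A-1) Q R,  s Q ≤ 2 T
  have hL0 : (0 : ℝ) ≤ (L : ℝ) + 1 := by positivity
  have hfin : (s : ℝ) * P * (Q * d) ≤
      (((L : ℝ) + 1) * (8 * e * Real.exp (4 - (A : ℝ) ^ 2 / ((e : ℝ) + A))) * R) * (Q * d) := by
    have hE0 : 0 ≤ Real.exp (4 - (A : ℝ) ^ 2 / ((e : ℝ) + A)) := (Real.exp_pos _).le
    calc (s : ℝ) * P * (Q * d) = ((s : ℝ) * Q) * (P * d) := by ring
      _ ≤ (2 * T) * (P * d) := mul_le_mul_of_nonneg_right hs (mul_nonneg hP0 hd0.le)
      _ = 2 * (T * d) * P := by ring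
      _ = 2 * (U * ((n : ℝ) + d)) * P := by rw [hstep]
      _ = 2 * ((n : ℝ) + d) * (U * P) := by ring
      _ ≤ 2 * ((n : ℝ) + d) * (β ^ (A - 1) * (Q * R)) :=
          mul_le_mul_of_nonneg_left hrat (by positivity)
      _ ≤ 2 * ((n : ℝ) + d) *
          (Real.exp (4 - (A : ℝ) ^ 2 / ((e : ℝ) + A)) * (Q * R)) := by
          refine mul_le_mul_of_nonneg_left ?_ (by positivity)
          exact mul_le_mul_of_nonneg_right hpow (mul_nonneg hQ0.le hR0)
      _ ≤ (8 * e * ((L : ℝ) + 1) * d) *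
          (Real.exp (4 - (A : ℝ) ^ 2 / ((e : ℝ) + A)) * (Q * R)) := by
          refine mul_le_mul_of_nonneg_right ?_ (mul_nonneg hE0 (mul_nonneg hQ0.le hR0))
          have h1 : (d : ℝ) ≤ n := by
            refine le_trans ?_ hn3R
            nlinarith [sq_nonneg ((d : ℝ) - 1)]
          nlinarith
      _ = _ := by ring
  exact le_of_mul_le_mul_right hfin (mul_pos hQ0 hd0)

end FrI.CAPCM
end

section
/-!
# COR4: every ratio `m / d < 1`, for all large `n` and `d`
-/
set_option autoImplicit false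

namespace FrI.COR4M

open Pool.Agent.Lib.MP_921642_ag Filter

theorem thresholds (δ : ℝ) (hδ : 0 < δ) : ∃ M : ℕ, 2 ≤ M ∧ ∀ x : ℕ, M ≤ x →
    10 ^ 9 * (9 * (Real.log x) ^ 2) ≤ δ ^ 5 * x ∧ 10 ^ 9 * (Real.log x) ^ 4 ≤ δ ^ 6 * x := by
  have h1 : ∀ᶠ x : ℝ in atTop, ‖Real.log x ^ 2‖ ≤ (δ ^ 5 / (10 ^ 9 * 9)) * ‖id x‖ :=
    (Real.isLittleO_pow_log_id_atTop (n := 2)).def (by positivity)
  have h2 : ∀ᶠ x : ℝ in atTop, ‖Real.log x ^ 4‖ ≤ (δ ^ 6 / 10 ^ 9) * ‖id x‖ :=
    (Real.isLittleO_pow_log_id_atTop (n := 4)).def (by positivity)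
  have h3 : ∀ᶠ x : ℕ in atTop, ‖Real.log (x : ℝ) ^ 2‖ ≤ (δ ^ 5 / (10 ^ 9 * 9)) * ‖(x : ℝ)‖ ∧
      ‖Real.log (x : ℝ) ^ 4‖ ≤ (δ ^ 6 / 10 ^ 9) * ‖(x : ℝ)‖ :=
    tendsto_natCast_atTop_atTop.eventually (h1.and h2)
  obtain ⟨M, hM⟩ := eventually_atTop.1 h3
  refine ⟨max M 2, le_max_right _ _, fun x hx => ?_⟩
  obtain ⟨h4, h5⟩ := hM x ((le_max_left _ _).trans hx)
  have hx0 : (0 : ℝ) ≤ (x : ℝ) := Nat.cast_nonneg x
  rw [Real.norm_of_nonneg (by positivity), Real.norm_of_nonneg hx0] at h4 h5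
  constructor
  · calc 10 ^ 9 * (9 * (Real.log x) ^ 2) = (10 ^ 9 * 9) * (Real.log x) ^ 2 := by ring
      _ ≤ (10 ^ 9 * 9) * ((δ ^ 5 / (10 ^ 9 * 9)) * x) := by
          apply mul_le_mul_of_nonneg_left h4 (by norm_num)
      _ = δ ^ 5 * x := by field_simp
  · calc 10 ^ 9 * (Real.log x) ^ 4 ≤ 10 ^ 9 * ((δ ^ 6 / 10 ^ 9) * x) := by
          apply mul_le_mul_of_nonneg_left h5 (by norm_num)
      _ = δ ^ 6 * x := by field_simp

/-- For every `ρ < 1` the inequality holds for all `m ≤ ρ d` once `n` and `d` are large. -/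
theorem cor4 (hMAIN : SpecMAIN4) (ρ : ℝ) (hρ : ρ < 1) : ∃ M : ℕ, ∀ n d m s : ℕ, M ≤ n → M ≤ d →
    1 ≤ m → (m : ℝ) ≤ ρ * d → ∀ p : Fin s → Fin (n + 1) → ℂ,
    ldim n d s (fun _ => m) ≤ (Module.finrank ℂ (linSys n d s (fun _ => m) p) : ℤ) := by
  obtain ⟨M, hM2, hM⟩ := thresholds (1 - ρ) (by linarith)
  refine ⟨M, fun n d m s hn hd hm hmd p => ?_⟩
  have hδ : 0 < 1 - ρ := by linarith
  have hd0 : (0 : ℝ) ≤ (d : ℝ) := Nat.cast_nonneg d
  have hd1 : (0 : ℝ) < (d : ℝ) := by
    have : 0 < d := by omega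
    exact_mod_cast this
  have hmd' : m ≤ d := by
    have : (m : ℝ) ≤ d := hmd.trans (by nlinarith)
    exact_mod_cast this
  have hA : ((d + 1 - m : ℕ) : ℝ) = d + 1 - m := by
    rw [Nat.cast_sub (by omega)]; push_cast; ring
  have hAd : (1 - ρ) * d ≤ ((d + 1 - m : ℕ) : ℝ) := by rw [hA]; nlinarith
  have hA5 : (1 - ρ) ^ 5 * (d : ℝ) ^ 5 ≤ ((d + 1 - m : ℕ) : ℝ) ^ 5 := by
    rw [← mul_pow]; exact pow_le_pow_left₀ (by positivity) hAd 5
  have hA6 : (1 - ρ) ^ 6 * (d : ℝ) ^ 6 ≤ ((d + 1 - m : ℕ) : ℝ) ^ 6 := by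
    rw [← mul_pow]; exact pow_le_pow_left₀ (by positivity) hAd 6
  obtain ⟨n1, -⟩ := hM n hn
  obtain ⟨d1, d2⟩ := hM d hd
  refine hMAIN n d m s (by omega) hm hmd' ?_ p
  have key : ∀ x : ℕ, 10 ^ 9 * (Real.log n) ^ 2 ≤ (1 - ρ) ^ 5 * x →
      10 ^ 9 * (Real.log n) ^ 2 * (d : ℝ) ^ 5 ≤ ((d + 1 - m : ℕ) : ℝ) ^ 5 * x := fun x hx => by
    calc 10 ^ 9 * (Real.log n) ^ 2 * (d : ℝ) ^ 5 ≤ (1 - ρ) ^ 5 * x * (d : ℝ) ^ 5 :=
          mul_le_mul_of_nonneg_right hx (by positivity)
      _ = (1 - ρ) ^ 5 * (d : ℝ) ^ 5 * x := by ring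
      _ ≤ _ := mul_le_mul_of_nonneg_right hA5 (Nat.cast_nonneg x)
  rcases le_or_gt n d with hnd | hnd
  · left
    rw [min_eq_left hnd]
    exact key n (by nlinarith [sq_nonneg (Real.log n)])
  · rcases lt_or_ge n (d ^ 3) with h3 | h3
    · left
      rw [min_eq_right hnd.le]
      refine key d ?_
      have hn0 : (0 : ℝ) < n := by
        have : 0 < n := by omega
        exact_mod_cast this
      have hlog : Real.log n ≤ 3 * Real.log d := by
        have : Real.log n ≤ Real.log ((d : ℝ) ^ 3) :=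
          Real.log_le_log hn0 (by exact_mod_cast h3.le)
        rwa [Real.log_pow] at this
      have hlog0 : 0 ≤ Real.log n := Real.log_natCast_nonneg n
      have : (Real.log n) ^ 2 ≤ (3 * Real.log d) ^ 2 := pow_le_pow_left₀ hlog0 hlog 2
      nlinarith
    · right
      refine ⟨h3, ?_⟩
      calc 10 ^ 9 * (Real.log d) ^ 4 * (d : ℝ) ^ 5 ≤ (1 - ρ) ^ 6 * d * (d : ℝ) ^ 5 :=
            mul_le_mul_of_nonneg_right d2 (by positivity)
        _ = (1 - ρ) ^ 6 * (d : ℝ) ^ 6 := by ring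
        _ ≤ _ := hA6

end FrI.COR4M
end

section
/-!
# MP_921642_ag, FI4, module NODE: one move of the game
-/
set_option autoImplicit false

namespace FrI.NODEM

open FrI

theorem specNODE : SpecNODE := by
  intro r A n D S S' μ t0 p K1 K2 cap c0 hn hD hp0 hp _hμ hA hS hc0 hmass hW1 hW2
  obtain ⟨τ₁, v₁, l₁, b₁⟩ := hW1
  obtain ⟨τ₂, v₂, l₂, b₂⟩ := hW2
  refine ⟨.node t0 p τ₁ τ₂, ⟨by omega, hD, hp0, hp, ⟨S', hS, ?_⟩, v₂⟩, ?_, ?_⟩
  · have e : n + 1 - 1 = n - 1 + 1 := by omega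
    rw [e]
    exact v₁
  · rw [lv, List.length_append, List.length_map, List.length_map]
    exact add_le_add l₁ l₂
  · intro B hB t
    rw [lv] at hB
    rcases List.mem_append.1 hB with hB | hB
    · obtain ⟨B', hB', rfl⟩ := List.mem_map.1 hB
      obtain ⟨c1, c2⟩ := b₁ B' hB' t
      refine ⟨fun α => ?_, ?_⟩
      · dsimp only
        split
        · exact mul_nonneg (hp α).1 (c1 α)
        · exact c1 α
      · have e : ∑ α ∈ Finset.range (A + 1),
            μ t α * (if t = t0 then p α * B' t α else B' t α) =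
            ∑ α ∈ Finset.range (A + 1), (if t = t0 then p α * μ t α else μ t α) * B' t α := by
          refine Finset.sum_congr rfl fun α _ => ?_
          split
          · ring
          · rfl
        have e0 : (if t = t0 then p 0 * μ t 0 else μ t 0) = μ t 0 := by
          rw [hp0, one_mul, ite_self]
        simp only [trM] at c2
        dsimp only
        rw [e]
        rw [e0] at c2
        exact c2
    · obtain ⟨B', hB', rfl⟩ := List.mem_map.1 hB
      obtain ⟨c1, c2⟩ := b₂ B' hB' t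
      refine ⟨fun α => ?_, ?_⟩
      · dsimp only
        split
        · exact add_nonneg (mul_nonneg (hp α).1 (c1 α))
            (mul_nonneg (by linarith [(hp α).2]) (c1 (α - 1)))
        · exact c1 α
      · simp only [resM] at c2
        dsimp only
        by_cases ht : t = t0
        · subst ht
          simp only [if_true] at c2 ⊢
          rw [FrI.POTIM.res_sum A (μ t) p (B' t) hp0 (hA t (A + 1) (by omega))]
          refine c2.trans ?_
          rw [hp0, one_mul, zero_add]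
          linarith
        · simp only [ht, if_false] at c2 ⊢
          refine c2.trans ?_
          linarith

end FrI.NODEM
end
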