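import Pool.Agent.Lib.MP_921642_ag.FI.Spec2
import Pool.Agent.Lib.MP_921642_ag.FI.Spec3

section
/-! # Module HORE: the power series identity of the Horace step, dimensions of forms -/
set_option autoImplicit false

namespace FrI

namespace HOREM

open Finset PowerSeries

/-- the factor of a slot -/
noncomputable def fac (L : ℕ) {s : ℕ} (b : Fin s → ℕ) (J : Finset (Fin s)) : PowerSeries ℤ :=
  ((L + 1 : ℕ) : PowerSeries ℤ) - ∑ i ∈ J, (PowerSeries.X : PowerSeries ℤ) ^ (b i)

lemma expc_eq (N L : ℕ) {r s q : ℕ} (a : Fin r → Fin s → ℕ) (u : Fin q → Fin r)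
    (I : Fin r → Finset (Fin s)) (D : ℕ) : expc N L a u I D =
      coeff D ((∏ p, fac L (a (u p)) (I (u p))) * (invOneSubPow ℤ N).val) := rfl

/-- the identity for one factor -/
lemma fac_split (L : ℕ) {s : ℕ} (b : Fin s → ℕ) (J T : Finset (Fin s)) (hb : ∀ i ∈ T, 1 ≤ b i) :
    fac L b J = X * fac L (fun i => if i ∈ T then b i - 1 else b i) J +
      (1 - X) * fac L b (J \ T) := by
  have h1 : ∑ i ∈ J, (X : PowerSeries ℤ) ^ (b i) =
      ∑ i ∈ J ∩ T, (X : PowerSeries ℤ) ^ (b i) + ∑ i ∈ J \ T, (X : PowerSeries ℤ) ^ (b i) := by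
    rw [← sum_union (disjoint_sdiff_inter J T).symm, inter_comm, union_comm]
    congr 1
    rw [inter_comm, sdiff_union_inter]
  have h2 : ∑ i ∈ J, (X : PowerSeries ℤ) ^ (if i ∈ T then b i - 1 else b i) =
      ∑ i ∈ J ∩ T, (X : PowerSeries ℤ) ^ (b i - 1) + ∑ i ∈ J \ T, (X : PowerSeries ℤ) ^ (b i) := by
    rw [← sum_congr rfl (fun i (hi : i ∈ J ∩ T) => by rw [if_pos (mem_inter.1 hi).2] :
      ∀ i ∈ J ∩ T, (X : PowerSeries ℤ) ^ (if i ∈ T then b i - 1 else b i) = X ^ (b i - 1)),
      ← sum_congr rfl (fun i (hi : i ∈ J \ T) => by rw [if_neg (mem_sdiff.1 hi).2] :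
      ∀ i ∈ J \ T, (X : PowerSeries ℤ) ^ (if i ∈ T then b i - 1 else b i) = X ^ (b i)),
      ← sum_union (disjoint_sdiff_inter J T).symm]
    congr 1
    rw [union_comm, sdiff_union_inter]
  have h3 : X * ∑ i ∈ J ∩ T, (X : PowerSeries ℤ) ^ (b i - 1) =
      ∑ i ∈ J ∩ T, (X : PowerSeries ℤ) ^ (b i) := by
    rw [mul_sum]
    refine sum_congr rfl fun i hi => ?_
    have := hb i (mem_inter.1 hi).2
    rw [← pow_succ']
    congr 1
    omega
  rw [fac, fac, fac, h1, h2]
  linear_combination h3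

/-- the identity for the products -/
lemma prod_split (L : ℕ) {r s q : ℕ} (a : Fin r → Fin s → ℕ) (u : Fin q → Fin r)
    (I : Fin r → Finset (Fin s)) (t0 : Fin r) (T : Finset (Fin s)) (hu : Function.Injective u)
    (hT : ∀ i ∈ T, 1 ≤ a t0 i) :
    (∏ p, fac L (a (u p)) (I (u p))) =
      X * (∏ p, fac L (resd a t0 T (u p)) (I (u p))) +
      (1 - X) * ∏ p, fac L (a (u p)) (Function.update I t0 (I t0 \ T) (u p)) := by
  by_cases h : ∃ p0, u p0 = t0
  · obtain ⟨p0, h0⟩ := h
    have hne : ∀ p ∈ Finset.univ.erase p0, u p ≠ t0 := by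
      intro p hp h1
      exact (mem_erase.1 hp).1 (hu (h1.trans h0.symm))
    rw [← mul_prod_erase _ _ (mem_univ p0),
      ← mul_prod_erase (f := fun p => fac L (resd a t0 T (u p)) (I (u p))) _ (mem_univ p0),
      ← mul_prod_erase (f := fun p => fac L (a (u p)) (Function.update I t0 (I t0 \ T) (u p))) _
        (mem_univ p0)]
    have e1 : ∏ p ∈ Finset.univ.erase p0, fac L (resd a t0 T (u p)) (I (u p)) =
        ∏ p ∈ Finset.univ.erase p0, fac L (a (u p)) (I (u p)) := by
      refine prod_congr rfl fun p hp => ?_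
      have : resd a t0 T (u p) = a (u p) := by
        funext i
        rw [resd, if_neg (fun h => hne p hp h.1)]
      rw [this]
    have e2 : ∏ p ∈ Finset.univ.erase p0, fac L (a (u p)) (Function.update I t0 (I t0 \ T) (u p)) =
        ∏ p ∈ Finset.univ.erase p0, fac L (a (u p)) (I (u p)) := by
      refine prod_congr rfl fun p hp => ?_
      rw [Function.update_of_ne (hne p hp)]
    rw [e1, e2, h0, Function.update_self]
    have e3 : resd a t0 T t0 = fun i => if i ∈ T then a t0 i - 1 else a t0 i := by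
      funext i
      rw [resd]
      by_cases hi : i ∈ T
      · rw [if_pos ⟨rfl, hi⟩, if_pos hi]
      · rw [if_neg (fun h => hi h.2), if_neg hi]
    rw [e3, fac_split L (a t0) (I t0) T hT]
    ring
  · push Not at h
    have e1 : ∏ p, fac L (resd a t0 T (u p)) (I (u p)) = ∏ p, fac L (a (u p)) (I (u p)) := by
      refine prod_congr rfl fun p _ => ?_
      have : resd a t0 T (u p) = a (u p) := by
        funext i
        rw [resd, if_neg (fun h' => h p h'.1)]
      rw [this]
    have e2 : ∏ p, fac L (a (u p)) (Function.update I t0 (I t0 \ T) (u p)) =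
        ∏ p, fac L (a (u p)) (I (u p)) := by
      refine prod_congr rfl fun p _ => ?_
      rw [Function.update_of_ne (h p)]
    rw [e1, e2]
    ring

lemma main (N L : ℕ) {r s q : ℕ} (a : Fin r → Fin s → ℕ) (u : Fin q → Fin r)
    (I : Fin r → Finset (Fin s)) (t0 : Fin r) (T : Finset (Fin s)) (hu : Function.Injective u)
    (hT : ∀ i ∈ T, 1 ≤ a t0 i) :
    (∏ p, fac L (a (u p)) (I (u p))) * (invOneSubPow ℤ (N + 1)).val =
      X * ((∏ p, fac L (resd a t0 T (u p)) (I (u p))) * (invOneSubPow ℤ (N + 1)).val) +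
      (∏ p, fac L (a (u p)) (Function.update I t0 (I t0 \ T) (u p))) * (invOneSubPow ℤ N).val := by
  have h1 : (invOneSubPow ℤ N).val = (1 - X) * (invOneSubPow ℤ (N + 1)).val := by
    rw [← one_sub_pow_mul_invOneSubPow_val_add_eq_invOneSubPow_val ℤ (d := N) 1, pow_one]
  rw [h1, prod_split L a u I t0 T hu hT]
  ring

lemma fin0 : Module.finrank ℂ (Pool.Agent.Lib.MP_921642_ag.V (Fin 0) 0) = 1 := by
  rw [Pool.Agent.Lib.MP_921642_ag.finrank_V]
  simp

end HOREM

open HOREM in
theorem HOREM.specHORE : SpecHORE := by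
  refine ⟨fun N L r s q a u I t0 T hu hT => ⟨?_, fun D => ?_⟩, fun N => ?_, fun N D => ?_⟩
  · rw [expc_eq, expc_eq, main N L a u I t0 T hu hT, map_add, PowerSeries.coeff_zero_X_mul, zero_add]
  · rw [expc_eq, expc_eq, expc_eq, main N L a u I t0 T hu hT, map_add, PowerSeries.coeff_succ_X_mul]
  · rw [Pool.Agent.Lib.MP_921642_ag.finrank_V, Pool.Agent.Lib.MP_921642_ag.finrank_V]
    simp
  · rw [Pool.Agent.Lib.MP_921642_ag.finrank_V, Pool.Agent.Lib.MP_921642_ag.finrank_V,
      Pool.Agent.Lib.MP_921642_ag.finrank_V, Fintype.card_fin, Fintype.card_fin,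
      show N + 1 + (D + 1) - 1 = (N + D) + 1 by omega, show N + 1 + D - 1 = N + D by omega,
      show N + (D + 1) - 1 = N + D by omega]
    exact Nat.choose_succ_succ _ _

end FrI
end

section
/-!
# MP_921642_ag, FI, module HORG: the generic choice in the Horace step, and the Horace step
-/
set_option autoImplicit false

namespace FrI

open MvPolynomial Pool.Agent.Lib.MP_921642_ag

namespace HORGM

lemma pi_fd {ι : Type} [Finite ι] {M : ι → Type} [∀ i, AddCommGroup (M i)] [∀ i, Module ℂ (M i)]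
    (S : ∀ i, Submodule ℂ (M i)) (hS : ∀ i, FiniteDimensional ℂ (S i)) :
    FiniteDimensional ℂ (Submodule.pi Set.univ S) := by
  have h : Submodule.pi Set.univ S = LinearMap.range
      (LinearMap.pi (fun i => (S i).subtype ∘ₗ LinearMap.proj i) :
        (∀ i, S i) →ₗ[ℂ] (∀ i, M i)) := by
    ext x
    simp only [Submodule.mem_pi, LinearMap.mem_range]
    constructor
    · intro hx
      exact ⟨fun i => ⟨x i, hx i (Set.mem_univ i)⟩, rfl⟩
    · rintro ⟨y, rfl⟩ i _
      exact (y i).2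
  rw [h]
  infer_instance

lemma HS_fd (N : ℕ) (j : ℤ) : FiniteDimensional ℂ (HS N j) := by
  by_cases h : 0 ≤ j
  · rw [HS, if_pos h]
    infer_instance
  · rw [HS, if_neg h]
    infer_instance

lemma FH_fd (N L q : ℕ) (j : ℤ) : FiniteDimensional ℂ (FH N L q j) :=
  pi_fd _ (fun _ => HS_fd N j)

lemma Dom_fd (N L : ℕ) {r s q : ℕ} (a : Fin r → Fin s → ℕ) (u : Fin q → Fin r) (D : ℤ) :
    FiniteDimensional ℂ (Dom N L a u D) :=
  pi_fd _ (fun _ => pi_fd _ (fun _ => FH_fd N L q _))

lemma Psi_lin {N r s L q : ℕ} (X Z : Mat N r s L) (τ : ℂ) (u : Fin q → Fin r)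
    (I : Fin r → Finset (Fin s)) :
    Psi (X + τ • Z) u I = Psi X u I + τ • Psi Z u I := by
  refine LinearMap.ext (fun g => ?_)
  funext ν
  simp only [Psi, LinearMap.coe_mk, AddHom.coe_mk, LinearMap.add_apply, LinearMap.smul_apply,
    Pi.add_apply, Pi.smul_apply, Finset.smul_sum, ← Finset.sum_add_distrib, add_mul,
    smul_mul_assoc]

lemma WD_range {N r s L q : ℕ} (X : Mat N r s L) (a : Fin r → Fin s → ℕ) (u : Fin q → Fin r)
    (I : Fin r → Finset (Fin s)) (D : ℤ) :
    WD X a u I D = LinearMap.range ((Psi X u I).domRestrict (Dom N L a u D)) := by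
  rw [LinearMap.range_domRestrict]
  rfl

lemma WD_semicont {N r s L q : ℕ} (X Z : Mat N r s L) (a : Fin r → Fin s → ℕ)
    (u : Fin q → Fin r) (I : Fin r → Finset (Fin s)) (D : ℤ) (τ0 : ℂ) :
    {τ : ℂ | Module.finrank ℂ (WD (X + τ • Z) a u I D) <
      Module.finrank ℂ (WD (X + τ0 • Z) a u I D)}.Finite := by
  have := Dom_fd N L a u D
  have h := rank_semicont 2
    (fun i => if i = 0 then (Psi X u I).domRestrict (Dom N L a u D)
      else (Psi Z u I).domRestrict (Dom N L a u D))
    (fun τ => (Psi (X + τ • Z) u I).domRestrict (Dom N L a u D))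
    (by
      intro t
      rw [Finset.sum_range_succ, Finset.sum_range_succ, Finset.sum_range_zero, zero_add]
      simp only [pow_zero, one_smul, pow_one, if_true, one_ne_zero, if_false]
      rw [Psi_lin]
      rfl) τ0
  have hr : ∀ τ : ℂ, Module.finrank ℂ (WD (X + τ • Z) a u I D) = Module.finrank ℂ
      (LinearMap.range ((Psi (X + τ • Z) u I).domRestrict (Dom N L a u D))) :=
    fun τ => by rw [WD_range]
  simp only [hr]
  exact h

/-- only the rows in `I` matter -/
lemma WD_congr {N r s L q : ℕ} (X Y : Mat N r s L) (a : Fin r → Fin s → ℕ)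
    (u : Fin q → Fin r) (I : Fin r → Finset (Fin s)) (D : ℤ)
    (h : ∀ t, ∀ i ∈ I t, X t i = Y t i) : WD X a u I D = WD Y a u I D := by
  have h1 : Psi X u I = Psi Y u I := by
    refine LinearMap.ext (fun g => ?_)
    funext ν
    simp only [Psi, LinearMap.coe_mk, AddHom.coe_mk]
    exact Finset.sum_congr rfl (fun p _ => Finset.sum_congr rfl (fun i hi => by
      rw [h (u p) i hi]))
  rw [WD, WD, h1]

lemma bad_finite {N r s L : ℕ} (X Z : Mat N r s L) (a : Fin r → Fin s → ℕ) (D : ℕ) (τ0 : ℂ)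
    (φ : (Fin r → Finset (Fin s)) → (Fin r → Finset (Fin s))) :
    {τ : ℂ | ∃ (q : ℕ) (u : Fin q → Fin r) (_ : Function.Injective u)
      (I : Fin r → Finset (Fin s)) (D' : ℕ), D' ≤ D ∧
      Module.finrank ℂ (WD (X + τ • Z) a u (φ I) D') <
      Module.finrank ℂ (WD (X + τ0 • Z) a u (φ I) D')}.Finite := by
  have h : (⋃ (q : Fin (r + 1)), ⋃ (u : Fin q → Fin r), ⋃ (I : Fin r → Finset (Fin s)),
      ⋃ (D' : Fin (D + 1)), {τ : ℂ | Module.finrank ℂ (WD (X + τ • Z) a u (φ I) ((D' : ℕ) : ℤ)) <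
      Module.finrank ℂ (WD (X + τ0 • Z) a u (φ I) ((D' : ℕ) : ℤ))}).Finite :=
    Set.finite_iUnion (fun q => Set.finite_iUnion (fun u => Set.finite_iUnion (fun I =>
      Set.finite_iUnion (fun D' => WD_semicont X Z a u (φ I) _ τ0))))
  refine h.subset ?_
  rintro τ ⟨q, u, hu, I, D', hD', hlt⟩
  have hq : q ≤ r := by
    have := Fintype.card_le_of_injective u hu
    simpa using this
  simp only [Set.mem_iUnion]
  exact ⟨⟨q, by omega⟩, u, I, ⟨D', by omega⟩, hlt⟩

lemma rs_lift (N : ℕ) (f : Po N) : rs N (rename Fin.succ f) = f := by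
  unfold rs
  rw [aeval_rename]
  have h : (Fin.cons 0 X : Fin (N + 1) → Po N) ∘ Fin.succ = X := by
    funext i
    simp
  rw [h, aeval_X_left_apply]

/-- the direction of the family -/
noncomputable def Zf {N r s L : ℕ} (X' : Mat (N + 1) r s L) (Y : Mat N r s L) (t0 : Fin r)
    (T : Finset (Fin s)) : Mat (N + 1) r s L :=
  fun t i l => if t = t0 ∧ i ∈ T then 0 else rename Fin.succ (Y t i l) - X' t i l

lemma barX_lin {N r s L : ℕ} (X Z : Mat (N + 1) r s L) (τ : ℂ) :
    barX (X + τ • Z) = barX X + τ • barX Z := by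
  funext t i l
  simp [barX]

theorem specHORG (h1 : SpecHORW) (h2 : SpecHORE) : SpecHOR := by
  intro N L r s a I D t0 T hT ha hbar hres
  obtain ⟨Y, hY, hYg⟩ := hbar
  obtain ⟨X', hX', hXg⟩ := hres
  set Z : Mat (N + 1) r s L := Zf X' Y t0 T with hZ
  -- a good parameter
  have hB1 := bad_finite X' Z (resd a t0 T) D 0 (fun I => I)
  have hB2 := bad_finite (barX X') (barX Z) a (D + 1) 1
    (fun I => Function.update I t0 (I t0 \ T))
  obtain ⟨τ, hτ⟩ := ((hB1.union hB2).infinite_compl).nonempty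
  rw [Set.mem_compl_iff, Set.mem_union, not_or] at hτ
  obtain ⟨hτ1, hτ2⟩ := hτ
  set M : Mat (N + 1) r s L := X' + τ • Z with hM
  -- residual
  have g1 : ∀ (q : ℕ) (u : Fin q → Fin r), Function.Injective u →
      ∀ I' : Fin r → Finset (Fin s), (∀ t, I' t ⊆ I t) → ∀ D' : ℕ, D' ≤ D →
      (((L + 1) ^ q * Module.finrank ℂ (V (Fin (N + 1)) D') : ℕ) : ℤ) -
        (Module.finrank ℂ (WD M (resd a t0 T) u I' D') : ℤ) ≤
          expc (N + 1) L (resd a t0 T) u I' D' := by
    intro q u hu I' hI' D' hD'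
    have e1 := hXg q u hu I' hI' D' hD'
    have e2 : Module.finrank ℂ (WD (X' + (0 : ℂ) • Z) (resd a t0 T) u I' D') ≤
        Module.finrank ℂ (WD M (resd a t0 T) u I' D') := by
      by_contra hc
      exact hτ1 ⟨q, u, hu, I', D', hD', not_le.1 hc⟩
    rw [zero_smul, add_zero] at e2
    have e3 : (Module.finrank ℂ (WD X' (resd a t0 T) u I' D') : ℤ) ≤
        Module.finrank ℂ (WD M (resd a t0 T) u I' D') := by exact_mod_cast e2
    have e4 : (((L + 1) ^ q * Module.finrank ℂ (V (Fin (N + 1)) D') : ℕ) : ℤ) -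
        (Module.finrank ℂ (WD X' (resd a t0 T) u I' D') : ℤ) ≤
          expc (N + 1) L (resd a t0 T) u I' D' := e1
    linarith
  -- trace
  have g2 : ∀ (q : ℕ) (u : Fin q → Fin r), Function.Injective u →
      ∀ I' : Fin r → Finset (Fin s), (∀ t, I' t ⊆ I t) → ∀ D' : ℕ, D' ≤ D + 1 →
      (((L + 1) ^ q * Module.finrank ℂ (V (Fin N) D') : ℕ) : ℤ) -
        (Module.finrank ℂ (WD (barX M) a u (Function.update I' t0 (I' t0 \ T)) D') : ℤ) ≤
          expc N L a u (Function.update I' t0 (I' t0 \ T)) D' := by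
    intro q u hu I' hI' D' hD'
    have hsub : ∀ t, Function.update I' t0 (I' t0 \ T) t ⊆
        Function.update I t0 (I t0 \ T) t := by
      intro t
      by_cases ht : t = t0
      · subst ht
        simp only [Function.update_self]
        exact Finset.sdiff_subset_sdiff (hI' t) (Finset.Subset.refl _)
      · rw [Function.update_of_ne ht, Function.update_of_ne ht]
        exact hI' t
    have e1 := hYg q u hu (Function.update I' t0 (I' t0 \ T)) hsub D' hD'
    have e2 : Module.finrank ℂ (WD (barX X' + (1 : ℂ) • barX Z) a u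
        (Function.update I' t0 (I' t0 \ T)) D') ≤
        Module.finrank ℂ (WD (barX X' + τ • barX Z) a u
          (Function.update I' t0 (I' t0 \ T)) D') := by
      by_contra hc
      exact hτ2 ⟨q, u, hu, I', D', hD', not_le.1 hc⟩
    rw [← barX_lin, ← barX_lin, ← hM] at e2
    have e5 : WD (barX (X' + (1 : ℂ) • Z)) a u (Function.update I' t0 (I' t0 \ T)) D' =
        WD Y a u (Function.update I' t0 (I' t0 \ T)) D' := by
      apply WD_congr
      intro t i hi
      funext l
      have hnot : ¬ (t = t0 ∧ i ∈ T) := by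
        rintro ⟨rfl, hiT⟩
        rw [Function.update_self, Finset.mem_sdiff] at hi
        exact hi.2 hiT
      simp only [barX, one_smul, Pi.add_apply, hZ, Zf, if_neg hnot, add_sub_cancel, rs_lift]
    rw [e5] at e2
    have e3 : (Module.finrank ℂ (WD Y a u (Function.update I' t0 (I' t0 \ T)) D') : ℤ) ≤
        Module.finrank ℂ (WD (barX M) a u (Function.update I' t0 (I' t0 \ T)) D') := by
      exact_mod_cast e2
    linarith
  refine ⟨wX M t0 T, ?_, ?_⟩
  · -- degrees
    intro t i l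
    have hMd : ∀ t i l, M t i l ∈ V (Fin (N + 1)) (resd a t0 T t i) := by
      intro t i l
      have e0 : X' t i l ∈ V (Fin (N + 1)) (resd a t0 T t i) := hX' t i l
      simp only [hM, Pi.add_apply, Pi.smul_apply, hZ, Zf]
      refine Submodule.add_mem _ e0 (Submodule.smul_mem _ _ ?_)
      split_ifs with hc
      · exact Submodule.zero_mem _
      · refine Submodule.sub_mem _ ?_ e0
        have e6 : resd a t0 T t i = a t i := by rw [resd, if_neg hc]
        rw [e6]
        have e7 := hY t i l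
        rw [mem_homogeneousSubmodule] at e7 ⊢
        exact e7.rename_isHomogeneous
    by_cases hc : t = t0 ∧ i ∈ T
    · have e1 := hMd t i l
      have e2 : resd a t0 T t i = a t i - 1 := by rw [resd, if_pos hc]
      rw [e2, mem_homogeneousSubmodule] at e1
      have e3 : wX M t0 T t i l = (X 0 : Po (N + 1)) * M t i l := by
        simp only [wX, if_pos hc]
      have e4 : 1 ≤ a t i := by rw [hc.1]; exact ha i hc.2
      rw [e3, mem_homogeneousSubmodule]
      have e5 := (isHomogeneous_X ℂ (0 : Fin (N + 1))).mul e1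
      have e6 : 1 + (a t i - 1) = a t i := by omega
      rw [e6] at e5
      exact e5
    · have e1 := hMd t i l
      have e2 : resd a t0 T t i = a t i := by rw [resd, if_neg hc]
      rw [e2] at e1
      have e3 : wX M t0 T t i l = M t i l := by simp only [wX, if_neg hc]
      rw [e3]
      exact e1
  · intro q u hu I' hI' D' hD'
    have hw := h1 N L r s q a u I' t0 T M ha
    have he := h2.1 N L r s q a u I' t0 T hu ha
    rcases Nat.eq_zero_or_pos D' with hD0 | hDpos
    · subst hD0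
      have e1 := g2 q u hu I' hI' 0 (Nat.zero_le _)
      have e2 : (Module.finrank ℂ (WD (barX M) a u (Function.update I' t0 (I' t0 \ T)) 0) : ℤ) ≤
        Module.finrank ℂ (WD (wX M t0 T) a u I' 0) := by exact_mod_cast hw.1
      rw [h2.2.1 N, he.1]
      rw [Nat.cast_zero] at e1 ⊢
      linarith
    · obtain ⟨k, rfl⟩ : ∃ k, D' = k + 1 := ⟨D' - 1, by omega⟩
      have e1 := g2 q u hu I' hI' (k + 1) hD'
      have e0 := g1 q u hu I' hI' k (by omega)
      have e2 := hw.2 k
      have e3 : (Module.finrank ℂ (WD M (resd a t0 T) u I' k) : ℤ) +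
        Module.finrank ℂ (WD (barX M) a u (Function.update I' t0 (I' t0 \ T)) (k + 1 : ℕ)) ≤
        Module.finrank ℂ (WD (wX M t0 T) a u I' (k + 1 : ℕ)) := by exact_mod_cast e2
      have e4 := he.2 k
      have e5 : expc (N + 1) L a u I' (k + 1) = expc (N + 1) L (resd a t0 T) u I' k +
        expc N L a u (Function.update I' t0 (I' t0 \ T)) (k + 1) := e4
      rw [h2.2.2 N k, e5]
      push_cast at e0 e1 e3 ⊢
      linarith

end HORGM

end FrI
end

section
set_option autoImplicit false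

namespace FrI

namespace KOSM

theorem specKOS (h1 : SpecFB) (h2 : SpecST3) (h3 : SpecST4) : SpecKOS := by
  intro r k L a 𝒞 Vs D hV hAC
  induction Vs generalizing 𝒞 with
  | nil =>
    intro μ j hμ _ g hg _
    have hμ' : μ < 0 := by
      simp only [List.length_nil, Nat.cast_zero] at hμ
      omega
    refine ⟨fun _ _ => 0, fun _ _ => h1.InE_zero 𝒞 _ _ _, fun _ _ => by simp, fun i => ?_⟩
    rw [h1.InE_neg_deg 𝒞 _ μ j (g i) hμ' (hg i)]
    symm
    refine Finset.sum_eq_zero fun m _ => ?_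
    have h4 := h1.F_smul 𝒞 ([] : List (Fin r)) m 0 (0 : Mo r L → 𝒞.C)
    rwa [zero_smul, zero_smul] at h4
  | cons t Vs ih =>
    obtain ⟨hI, hA, hC⟩ := hAC
    rw [List.nodup_cons] at hV
    have ih1 := ih 𝒞 hV.2 hA
    have ih2 := ih (𝒞.cok t) hV.2 hC
    refine h3 r k L a 𝒞 (t :: Vs) D ?_
    intro μ j hμ hj u hu hv
    choose v hv1 hv2 using fun l => hv t List.mem_cons_self l
    refine h2 r k L a 𝒞 t Vs D hV.1 hI ih1 ih2 μ j ?_ hj u v hu hv1 hv2
    rw [List.length_cons] at hμ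
    push_cast at hμ
    omega

end KOSM

end FrI
end

section
/-!
# MP_921642_ag, FI3: module LAM
-/
set_option autoImplicit false

namespace FrI.LAMM

open FrI

lemma exp_nat_lt (k : ℕ) (hk : k ≠ 0) : Real.exp (k : ℝ) < (2.7182818286 : ℝ) ^ k := by
  have h1 : Real.exp (k : ℝ) = Real.exp 1 ^ k := by
    rw [← Real.exp_nat_mul, mul_one]
  rw [h1]
  exact pow_lt_pow_left₀ Real.exp_one_lt_d9 (Real.exp_pos 1).le hk

theorem specLAM : SpecLAM := by
  intro n hn h
  have hn0 : (0 : ℝ) < n := by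
    have : 0 < n := by omega
    exact_mod_cast this
  have h2 : (2 : ℝ) ≤ n := by exact_mod_cast hn
  have hl1 : (0.69 : ℝ) ≤ Real.log n := by
    have h3 : Real.log 2 ≤ Real.log n := Real.log_le_log (by norm_num) h2
    have h4 := Real.log_two_gt_d9
    linarith
  have hn1 : (15000000000 : ℝ) ≤ n := by
    nlinarith
  have hl2 : (23 : ℝ) ≤ Real.log n := by
    rw [Real.le_log_iff_exp_le hn0]
    have h3 := exp_nat_lt 23 (by norm_num)
    have h4 : (2.7182818286 : ℝ) ^ 23 ≤ 15000000000 := by norm_num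
    have h5 : ((23 : ℕ) : ℝ) = 23 := by norm_num
    rw [h5] at h3
    linarith
  have hn2 : (16000000000000 : ℝ) ≤ n := by
    nlinarith
  rw [Real.le_log_iff_exp_le hn0]
  have h3 := exp_nat_lt 30 (by norm_num)
  have h4 : (2.7182818286 : ℝ) ^ 30 ≤ 16000000000000 := by norm_num
  have h5 : ((30 : ℕ) : ℝ) = 30 := by norm_num
  rw [h5] at h3
  linarith

end FrI.LAMM
end

section
/-! # Module LV: the linear virtual dimension for equal multiplicities -/
set_option autoImplicit false

namespace FrI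

open Pool.Agent.Lib.MP_921642_ag

theorem LVM.specLV : SpecLV := by
  intro n d s m A hA hn hm hmd hd
  classical
  have hA1 : 1 ≤ A := by omega
  let f : ℕ → ℤ := fun j => if j ≤ n then
    (-1) ^ j * ((n + (if j = 0 then d else j * m - (j - 1) * d) - j).choose n : ℤ) else 0
  let g : ℕ → ℤ := fun j => if j * A ≤ d then
    (-1) ^ j * (s.choose j : ℤ) * ((n + d - j * A).choose n : ℤ) else 0
  have h1 : lvdim n d s (fun _ => m) = ∑ I ∈ (Finset.univ : Finset (Fin s)).powerset, f I.card := by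
    unfold lvdim
    rw [Finset.sum_filter]
    refine Finset.sum_congr rfl (fun I _ => ?_)
    have hI : I.card ≤ s := by simpa using Finset.card_le_univ I
    by_cases hIn : I.card ≤ n
    · rw [if_pos (le_min hIn hI)]
      simp only [f, if_pos hIn]
      congr 3
      unfold kI
      by_cases hI0 : I = ∅
      · subst hI0; simp
      · have : I.card ≠ 0 := by rwa [Ne, Finset.card_eq_zero]
        rw [if_neg hI0, if_neg this]
        simp
    · rw [if_neg (fun h => hIn (le_trans h (min_le_left _ _)))]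
      simp only [f, if_neg hIn]
  have hfg : ∀ j, s.choose j • f j = g j := by
    intro j
    simp only [f, g]
    rcases Nat.eq_zero_or_pos j with hj | hj
    · subst hj
      simp
    · obtain ⟨i, rfl⟩ : ∃ i, j = i + 1 := ⟨j - 1, by omega⟩
      have e1 : (i + 1) * m + (i + 1) * A = (i + 1) * d + (i + 1) := by
        have : (i + 1) * (A + m) = (i + 1) * (d + 1) := by rw [hA]
        nlinarith
      have e2 : (i + 1) * d = i * d + d := by ring
      rw [Nat.add_sub_cancel]
      by_cases h2 : (i + 1) * A ≤ d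
      · have h3 : i + 1 ≤ n := by
          by_contra h4
          have h5 : (n + 1) * A ≤ (i + 1) * A := Nat.mul_le_mul_right _ (by omega)
          omega
        rw [if_pos h3, if_neg (by omega), if_pos h2,
          show n + ((i + 1) * m - i * d) - (i + 1) = n + d - (i + 1) * A by omega, nsmul_eq_mul]
        ring
      · rw [if_neg h2]
        by_cases h3 : i + 1 ≤ n
        · rw [if_pos h3, if_neg (Nat.succ_ne_zero i), Nat.choose_eq_zero_of_lt
            (show n + ((i + 1) * m - i * d) - (i + 1) < n by omega)]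
          simp
        · rw [if_neg h3]
          simp
  have h5 : lvdim n d s (fun _ => m) = ∑ j ∈ Finset.range (s + 1), g j := by
    rw [h1, Finset.sum_powerset_apply_card, Finset.card_univ, Fintype.card_fin]
    exact Finset.sum_congr rfl fun j _ => hfg j
  have h6 : Fs n A d s = ∑ j ∈ Finset.range (d + 1), g j := by
    rw [Fs, Finset.sum_filter]
  have h7 : ∀ M : ℕ, s ≤ M → ∑ j ∈ Finset.range (s + 1), g j = ∑ j ∈ Finset.range (M + 1), g j := by
    intro M hM
    apply Finset.sum_subset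
    · intro j hj
      rw [Finset.mem_range] at hj ⊢
      omega
    · intro j _ hj
      rw [Finset.mem_range] at hj
      simp only [g]
      rw [Nat.choose_eq_zero_of_lt (show s < j by omega)]
      simp
  have h8 : ∀ M : ℕ, d ≤ M → ∑ j ∈ Finset.range (d + 1), g j = ∑ j ∈ Finset.range (M + 1), g j := by
    intro M hM
    apply Finset.sum_subset
    · intro j hj
      rw [Finset.mem_range] at hj ⊢
      omega
    · intro j _ hj
      rw [Finset.mem_range] at hj
      simp only [g]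
      rw [if_neg]
      intro h9
      have : j * 1 ≤ j * A := Nat.mul_le_mul_left _ hA1
      omega
  rw [h5, h6, h7 (max s d) (le_max_left _ _), h8 (max s d) (le_max_right _ _)]

end FrI
end

section
/-!
# MP_921642_ag, FI: module NEG (the expected dimension is negative for many points)
-/
set_option autoImplicit false

namespace FrI

namespace NEGM

/-- the product formula for the binomial coefficient -/
lemma choose_mul_factorial (n x : ℕ) :
    ((n + x).choose n : ℝ) * (n.factorial : ℝ) = ∏ k ∈ Finset.range n, ((x : ℝ) + 1 + k) := by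
  have h1 : (x + 1).ascFactorial n = n.factorial * (x + n).choose n :=
    Nat.ascFactorial_eq_factorial_mul_choose x n
  have h2 : ((x + 1).ascFactorial n : ℝ) = ∏ k ∈ Finset.range n, ((x : ℝ) + 1 + k) := by
    rw [Nat.ascFactorial_eq_prod_range]
    push_cast
    rfl
  rw [← h2, h1, Nat.add_comm n x]
  push_cast
  ring

/-- the main inequality -/
lemma key {C2 : ℝ} (hC : 2 ≤ C2) {n A e y : ℕ} (hAy : A ≤ y) (hy : y ≤ e)
    (hle : ((e + n : ℕ) : ℝ) ≤ C2 * A) :
    ((n + (y - A)).choose n : ℝ) * ((n + (e + A)).choose n : ℝ) ≤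
      (1 - 1 / C2 ^ 2) ^ n * (((n + e).choose n : ℝ) * ((n + y).choose n : ℝ)) := by
  have hf : (0 : ℝ) < (n.factorial : ℝ) := by exact_mod_cast Nat.factorial_pos n
  have hC0 : 0 < C2 := by linarith
  have h1 : (((n + (y - A)).choose n : ℝ) * (n.factorial : ℝ)) *
      (((n + (e + A)).choose n : ℝ) * (n.factorial : ℝ)) ≤
      (1 - 1 / C2 ^ 2) ^ n * ((((n + e).choose n : ℝ) * (n.factorial : ℝ)) *
        (((n + y).choose n : ℝ) * (n.factorial : ℝ))) := by
    rw [choose_mul_factorial, choose_mul_factorial, choose_mul_factorial, choose_mul_factorial,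
      ← Finset.prod_mul_distrib, ← Finset.prod_mul_distrib]
    have h2 : (1 - 1 / C2 ^ 2) ^ n = ∏ _k ∈ Finset.range n, (1 - 1 / C2 ^ 2) := by
      rw [Finset.prod_const, Finset.card_range]
    rw [h2, ← Finset.prod_mul_distrib]
    apply Finset.prod_le_prod
    · intro k _
      positivity
    · intro k hk
      have hk' : k < n := Finset.mem_range.1 hk
      have hA : (0 : ℝ) ≤ A := Nat.cast_nonneg A
      have hyA : ((y - A : ℕ) : ℝ) = (y : ℝ) - A := by
        rw [Nat.cast_sub hAy]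
      have hye : (y : ℝ) ≤ e := by exact_mod_cast hy
      have hAy' : (A : ℝ) ≤ y := by exact_mod_cast hAy
      have hk1 : (0 : ℝ) ≤ k := Nat.cast_nonneg k
      have he : (e : ℝ) + 1 + k ≤ C2 * A := by
        have : (e : ℝ) + 1 + k ≤ ((e + n : ℕ) : ℝ) := by
          have : (k : ℝ) + 1 ≤ n := by exact_mod_cast hk'
          push_cast
          linarith
        linarith
      set E : ℝ := (e : ℝ) + 1 + k with hE
      set Y : ℝ := (y : ℝ) + 1 + k with hY
      have hE0 : 0 < E := by rw [hE]; linarith [Nat.cast_nonneg (α := ℝ) e]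
      have hY0 : 0 < Y := by rw [hY]; linarith [Nat.cast_nonneg (α := ℝ) y]
      have hYE : Y ≤ E := by rw [hY, hE]; linarith
      rw [hyA]
      push_cast
      have e1 : (y : ℝ) - A + 1 + k = Y - A := by rw [hY]; ring
      have e2 : (e : ℝ) + A + 1 + k = E + A := by rw [hE]; ring
      rw [e1, e2]
      -- (Y - A) (E + A) ≤ (1 - 1 / C2²) E Y
      have h3 : (Y - A) * (E + A) ≤ E * Y - A ^ 2 * (Y / E) := by
        have h4 : A ^ 2 * (Y / E) ≤ (A : ℝ) ^ 2 + A * (E - Y) := by
          have h5 : Y / E ≤ 1 := (div_le_one hE0).2 hYE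
          have h6 : 0 ≤ (A : ℝ) * (E - Y) := mul_nonneg hA (by linarith)
          nlinarith [sq_nonneg (A : ℝ)]
        nlinarith
      have h7 : E * Y / C2 ^ 2 ≤ A ^ 2 * (Y / E) := by
        rw [div_le_iff₀ (by positivity)]
        have h8 : E ^ 2 ≤ (C2 * A) ^ 2 := pow_le_pow_left₀ hE0.le he 2
        have h9 : (A : ℝ) ^ 2 * (Y / E) * C2 ^ 2 = (C2 * A) ^ 2 * (Y / E) := by ring
        rw [h9]
        calc E * Y = E ^ 2 * (Y / E) := by field_simp
          _ ≤ (C2 * A) ^ 2 * (Y / E) := by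
            apply mul_le_mul_of_nonneg_right h8 (by positivity)
      have h10 : (1 - 1 / C2 ^ 2) * (E * Y) = E * Y - E * Y / C2 ^ 2 := by ring
      rw [h10]
      linarith
  have h11 : (((n + (y - A)).choose n : ℝ) * ((n + (e + A)).choose n : ℝ)) *
      ((n.factorial : ℝ) * n.factorial) ≤
      ((1 - 1 / C2 ^ 2) ^ n * (((n + e).choose n : ℝ) * ((n + y).choose n : ℝ))) *
      ((n.factorial : ℝ) * n.factorial) := by
    calc _ = (((n + (y - A)).choose n : ℝ) * (n.factorial : ℝ)) *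
      (((n + (e + A)).choose n : ℝ) * (n.factorial : ℝ)) := by ring
      _ ≤ _ := h1
      _ = _ := by ring
  exact le_of_mul_le_mul_right h11 (by positivity)

/-- monotonicity of the quotient of two binomial coefficients -/
lemma mono {n A e y : ℕ} (hAy : A ≤ y) (hy : y ≤ e) :
    ((n + (y - A)).choose n : ℝ) * ((n + e).choose n : ℝ) ≤
      ((n + (e - A)).choose n : ℝ) * ((n + y).choose n : ℝ) := by
  have hf : (0 : ℝ) < (n.factorial : ℝ) := by exact_mod_cast Nat.factorial_pos n
  have h1 : (((n + (y - A)).choose n : ℝ) * (n.factorial : ℝ)) *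
      (((n + e).choose n : ℝ) * (n.factorial : ℝ)) ≤
      (((n + (e - A)).choose n : ℝ) * (n.factorial : ℝ)) *
        (((n + y).choose n : ℝ) * (n.factorial : ℝ)) := by
    rw [choose_mul_factorial, choose_mul_factorial, choose_mul_factorial, choose_mul_factorial,
      ← Finset.prod_mul_distrib, ← Finset.prod_mul_distrib]
    apply Finset.prod_le_prod
    · intro k _
      positivity
    · intro k _
      have hA : (0 : ℝ) ≤ A := Nat.cast_nonneg A
      have hye : (y : ℝ) ≤ e := by exact_mod_cast hy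
      have hk1 : (0 : ℝ) ≤ k := Nat.cast_nonneg k
      rw [Nat.cast_sub hAy, Nat.cast_sub (le_trans hAy hy)]
      nlinarith
  have h11 : (((n + (y - A)).choose n : ℝ) * ((n + e).choose n : ℝ)) *
      ((n.factorial : ℝ) * n.factorial) ≤
      (((n + (e - A)).choose n : ℝ) * ((n + y).choose n : ℝ)) *
      ((n.factorial : ℝ) * n.factorial) := by
    calc _ = (((n + (y - A)).choose n : ℝ) * (n.factorial : ℝ)) *
      (((n + e).choose n : ℝ) * (n.factorial : ℝ)) := by ring
      _ ≤ _ := h1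
      _ = _ := by ring
  exact le_of_mul_le_mul_right h11 (by positivity)

lemma exp_three_lt : Real.exp 3 < 30 := by
  have h1 := Real.exp_one_lt_d9
  have h2 : Real.exp 3 = Real.exp 1 ^ 3 := by
    rw [← Real.exp_nat_mul]
    norm_num
  rw [h2]
  have h3 : Real.exp 1 ^ 3 < 3 ^ 3 := pow_lt_pow_left₀ (by linarith) (Real.exp_pos 1).le (by norm_num)
  linarith

/-- The core of NEG: the expected dimension is negative if the binomial coefficients are strictly
log-concave with a factor `30` at `e`. -/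
lemma core {n A e s : ℕ} (hA : 1 ≤ A) (hAe : A ≤ e)
    (h30 : 30 * ((n + e + A).choose n * (n + e - A).choose n) ≤ (n + e).choose n ^ 2)
    (h2 : 2 * (n + e + A).choose n ≤ s * (n + e).choose n)
    (h3 : s * (n + e).choose n ≤ 2 * (n + e + A).choose n + (n + e).choose n) :
    Fs n A (e + A) s < 0 := by
  set ε : ℝ := 1 / 30 with hε
  have hε0 : 0 ≤ ε := by rw [hε]; norm_num
  have hε2 : ε ≤ 1 := by rw [hε]; norm_num
  -- the numbers
  set a : ℕ → ℝ := fun i => ((n + (e + A - i * A)).choose n : ℝ) with ha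
  have ha0 : a 0 = ((n + (e + A)).choose n : ℝ) := by simp [ha]
  have ha1 : a 1 = ((n + e).choose n : ℝ) := by simp [ha]
  have hpos : ∀ i, 0 < a i := by
    intro i
    show (0 : ℝ) < ((n + (e + A - i * A)).choose n : ℝ)
    exact_mod_cast Nat.choose_pos (by omega)
  set c : ℝ := ((n + (e - A)).choose n : ℝ) with hc
  have hc0 : 0 ≤ c := Nat.cast_nonneg _
  have hca : c * a 0 ≤ ε * (a 1 * a 1) := by
    have h4 : (30 : ℝ) * (((n + e + A).choose n : ℝ) * ((n + e - A).choose n : ℝ)) ≤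
        ((n + e).choose n : ℝ) ^ 2 := by exact_mod_cast h30
    have h5 : n + e - A = n + (e - A) := by omega
    rw [h5, Nat.add_assoc] at h4
    rw [hc, ha0, ha1, hε]
    linarith
  have hstep : ∀ i, 1 ≤ i → (i + 1) * A ≤ e + A → a (i + 1) * a 0 ≤ ε * (a 1 * a i) := by
    intro i hi hiA
    have h4 : e + A - (i + 1) * A = (e + A - i * A) - A := by
      rw [Nat.succ_mul]
      omega
    have h5 : A ≤ e + A - i * A := by
      rw [Nat.succ_mul] at hiA
      omega
    have h6 : e + A - i * A ≤ e := by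
      have : A ≤ i * A := Nat.le_mul_of_pos_left A hi
      omega
    have h7 : a (i + 1) * a 1 ≤ c * a i := by
      have h8 := mono (n := n) h5 h6
      rw [ha1, hc]
      show ((n + (e + A - (i + 1) * A)).choose n : ℝ) * _ ≤ _
      rw [h4]
      exact h8
    have h9 : (a (i + 1) * a 0) * a 1 ≤ (ε * (a 1 * a i)) * a 1 := by
      calc (a (i + 1) * a 0) * a 1 = (a (i + 1) * a 1) * a 0 := by ring
        _ ≤ (c * a i) * a 0 := mul_le_mul_of_nonneg_right h7 (hpos 0).le
        _ = (c * a 0) * a i := by ring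
        _ ≤ (ε * (a 1 * a 1)) * a i := mul_le_mul_of_nonneg_right hca (hpos i).le
        _ = (ε * (a 1 * a i)) * a 1 := by ring
    exact le_of_mul_le_mul_right h9 (hpos 1)
  set r : ℝ := a 1 / a 0 with hr
  have hr0 : 0 ≤ r := (div_pos (hpos 1) (hpos 0)).le
  have hbound : ∀ i, (i + 2) * A ≤ e + A → a (i + 2) ≤ a 0 * r ^ (i + 2) * ε := by
    intro i
    induction i with
    | zero =>
      intro h
      have h4 := hstep 1 le_rfl (by simpa using h)
      have h5 : a 2 ≤ ε * (a 1 * a 1) / a 0 := by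
        rw [le_div_iff₀ (hpos 0)]
        exact h4
      refine le_trans h5 (le_of_eq ?_)
      have := (hpos 0).ne'
      rw [hr, zero_add, div_pow]
      field_simp
    | succ j ih =>
      intro h
      have h4 : (j + 2) * A ≤ e + A := by
        have : (j + 2) * A ≤ (j + 1 + 2) * A := Nat.mul_le_mul_right A (by omega)
        omega
      have h5 := ih h4
      have h6 := hstep (j + 2) (by omega) h
      have h7 : a (j + 2 + 1) ≤ ε * r * a (j + 2) := by
        have h8 : a (j + 2 + 1) ≤ ε * (a 1 * a (j + 2)) / a 0 := by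
          rw [le_div_iff₀ (hpos 0)]
          exact h6
        refine le_trans h8 (le_of_eq ?_)
        have := (hpos 0).ne'
        rw [hr]
        field_simp
      calc a (j + 1 + 2) = a (j + 2 + 1) := by ring_nf
        _ ≤ ε * r * a (j + 2) := h7
        _ ≤ 1 * r * a (j + 2) := by
          have := hpos (j + 2)
          gcongr
        _ ≤ 1 * r * (a 0 * r ^ (j + 2) * ε) := by gcongr
        _ = a 0 * r ^ (j + 1 + 2) * ε := by ring
  -- the number of points
  have hR : a 1 ≤ a 0 := by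
    rw [ha0, ha1]
    exact_mod_cast Nat.choose_le_choose n (by omega)
  have h2' : 2 * a 0 ≤ s * a 1 := by
    rw [ha0, ha1, ← Nat.add_assoc]
    exact_mod_cast h2
  have h3' : s * a 1 ≤ 3 * a 0 := by
    have : (s : ℝ) * a 1 ≤ 2 * a 0 + a 1 := by
      rw [ha0, ha1, ← Nat.add_assoc]
      exact_mod_cast h3
    linarith
  have hsr : (s : ℝ) * r ≤ 3 := by
    rw [hr, ← mul_div_assoc, div_le_iff₀ (hpos 0)]
    exact h3'
  have hterm : ∀ i, 2 ≤ i → i * A ≤ e + A →
      (s.choose i : ℝ) * a i ≤ a 0 * ε * (3 ^ i / (i.factorial : ℝ)) := by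
    intro i hi hiA
    obtain ⟨j, rfl⟩ := Nat.exists_eq_add_of_le' hi
    have h4 := hbound j hiA
    have h5 : (s.choose (j + 2) : ℝ) ≤ (s : ℝ) ^ (j + 2) / ((j + 2).factorial : ℝ) :=
      Nat.choose_le_pow_div (j + 2) s
    have hf : (0 : ℝ) < ((j + 2).factorial : ℝ) := by exact_mod_cast Nat.factorial_pos _
    have hpa := hpos 0
    calc (s.choose (j + 2) : ℝ) * a (j + 2)
        ≤ ((s : ℝ) ^ (j + 2) / ((j + 2).factorial : ℝ)) * (a 0 * r ^ (j + 2) * ε) := by
          apply mul_le_mul h5 h4 (hpos _).le (by positivity)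
      _ = a 0 * ε * (((s : ℝ) * r) ^ (j + 2) / ((j + 2).factorial : ℝ)) := by
          rw [mul_pow]
          ring
      _ ≤ a 0 * ε * (3 ^ (j + 2) / ((j + 2).factorial : ℝ)) := by
          have : 0 ≤ (s : ℝ) * r := mul_nonneg (Nat.cast_nonneg s) hr0
          gcongr
  -- the sum
  have hcast : ((Fs n A (e + A) s : ℤ) : ℝ) < 0 := by
    have h4 : ((Fs n A (e + A) s : ℤ) : ℝ) =
        ∑ i ∈ (Finset.range (e + A + 1)).filter (fun i => i * A ≤ e + A),
          (-1) ^ i * (s.choose i : ℝ) * a i := by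
      rw [Fs]
      push_cast
      apply Finset.sum_congr rfl
      intro i hi
      have h5 : i * A ≤ e + A := (Finset.mem_filter.1 hi).2
      have h6 : n + (e + A) - i * A = n + (e + A - i * A) := by omega
      rw [h6]
    set S := (Finset.range (e + A + 1)).filter (fun i => i * A ≤ e + A) with hS
    have h0S : 0 ∈ S := by
      rw [hS, Finset.mem_filter, Finset.mem_range]
      omega
    have h1S : 1 ∈ S.erase 0 := by
      rw [Finset.mem_erase, hS, Finset.mem_filter, Finset.mem_range]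
      omega
    rw [h4, ← Finset.add_sum_erase S _ h0S, ← Finset.add_sum_erase _ _ h1S]
    have h5 : ∑ i ∈ (S.erase 0).erase 1, (-1) ^ i * (s.choose i : ℝ) * a i ≤
        ∑ i ∈ (S.erase 0).erase 1, a 0 * ε * (3 ^ i / (i.factorial : ℝ)) := by
      apply Finset.sum_le_sum
      intro i hi
      rw [Finset.mem_erase, Finset.mem_erase, hS, Finset.mem_filter] at hi
      have h6 : 2 ≤ i := by omega
      have h7 := hterm i h6 hi.2.2.2
      have h8 : (-1 : ℝ) ^ i * (s.choose i : ℝ) * a i ≤ (s.choose i : ℝ) * a i := by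
        have h9 : (-1 : ℝ) ^ i ≤ 1 := by
          rcases neg_one_pow_eq_or ℝ i with h | h
          · rw [h]
          · rw [h]
            norm_num
        have h10 : 0 ≤ (s.choose i : ℝ) * a i := mul_nonneg (Nat.cast_nonneg _) (hpos i).le
        calc (-1 : ℝ) ^ i * (s.choose i : ℝ) * a i = (-1 : ℝ) ^ i * ((s.choose i : ℝ) * a i) := by
              ring
          _ ≤ 1 * ((s.choose i : ℝ) * a i) := mul_le_mul_of_nonneg_right h9 h10
          _ = _ := one_mul _
      exact le_trans h8 h7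
    have h6 : ∑ i ∈ (S.erase 0).erase 1, a 0 * ε * (3 ^ i / (i.factorial : ℝ)) ≤
        a 0 * ε * Real.exp 3 := by
      rw [← Finset.mul_sum]
      have hpa := hpos 0
      apply mul_le_mul_of_nonneg_left _ (by positivity)
      refine le_trans ?_ (Real.sum_le_exp_of_nonneg (show (0 : ℝ) ≤ 3 by norm_num) (e + A + 1))
      apply Finset.sum_le_sum_of_subset_of_nonneg
      · intro i hi
        rw [Finset.mem_erase, Finset.mem_erase, hS, Finset.mem_filter] at hi
        exact hi.2.2.1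
      · intro i _ _
        positivity
    have h7 : a 0 * ε * Real.exp 3 < a 0 := by
      have h8 : ε * Real.exp 3 < 1 := by
        have := exp_three_lt
        rw [hε]
        linarith
      have hpa := hpos 0
      nlinarith
    have h10 := lt_of_le_of_lt (le_trans h5 h6) h7
    simp only [pow_zero, Nat.choose_zero_right, Nat.cast_one, pow_one, Nat.choose_one_right]
    linarith
  exact_mod_cast hcast

end NEGM

open NEGM in
theorem NEGM.specNEG : SpecNEG := by
  intro C2 hC
  have hC0 : 0 < C2 := by linarith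
  have hq0 : (0 : ℝ) ≤ 1 - 1 / C2 ^ 2 := by
    have : 1 / C2 ^ 2 ≤ 1 := by
      rw [div_le_one (by positivity)]
      nlinarith
    linarith
  have hq1 : 1 - 1 / C2 ^ 2 < 1 := by
    have : 0 < 1 / C2 ^ 2 := by positivity
    linarith
  obtain ⟨n0, hn0⟩ := exists_pow_lt_of_lt_one (show (0 : ℝ) < 1 / 30 by norm_num) hq1
  refine ⟨max n0 1, ?_⟩
  intro n hn A e s hAe hle h2 h3
  have hn1 : 1 ≤ n := le_trans (le_max_right _ _) hn
  have hnn : n0 ≤ n := le_trans (le_max_left _ _) hn
  have hA : 1 ≤ A := by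
    rcases Nat.eq_zero_or_pos A with h | h
    · exfalso
      subst h
      have : (1 : ℝ) ≤ ((e + n : ℕ) : ℝ) := by exact_mod_cast (by omega : 1 ≤ e + n)
      simp at hle
      push_cast at this
      linarith
    · exact h
  apply core hA hAe _ h2 h3
  have h4 := key hC hAe le_rfl hle
  have h5 : (1 - 1 / C2 ^ 2) ^ n ≤ 1 / 30 :=
    (lt_of_le_of_lt (pow_le_pow_of_le_one hq0 hq1.le hnn) hn0).le
  have h6 : n + e - A = n + (e - A) := by omega
  rw [h6, Nat.add_assoc]
  have h7 : (30 : ℝ) * (((n + (e + A)).choose n : ℝ) * ((n + (e - A)).choose n : ℝ)) ≤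
      ((n + e).choose n : ℝ) ^ 2 := by
    have h8 : (0 : ℝ) ≤ ((n + e).choose n : ℝ) * ((n + e).choose n : ℝ) := by positivity
    nlinarith
  exact_mod_cast h7

end FrI
end

section
/-!
# MP_921642_ag, FI: a sharper estimate for the strict log-concavity of the binomial coefficients
-/
set_option autoImplicit false

namespace FrI

namespace NEG2M

open NEGM

/-- `∑_{k=1}^n 1/(e+k)^2 ≥ n / ((e+1)(e+n+1))` -/
lemma sum_ge (n e : ℕ) :
    (n : ℝ) / (((e : ℝ) + 1) * (e + n + 1)) ≤
      ∑ k ∈ Finset.range n, 1 / ((e : ℝ) + 1 + k) ^ 2 := by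
  induction n with
  | zero => simp
  | succ n ih =>
    rw [Finset.sum_range_succ]
    have he : (0 : ℝ) ≤ e := Nat.cast_nonneg e
    have hn : (0 : ℝ) ≤ n := Nat.cast_nonneg n
    have h1 : (((n + 1 : ℕ) : ℝ)) / (((e : ℝ) + 1) * (e + ((n + 1 : ℕ) : ℝ) + 1)) =
        (n : ℝ) / (((e : ℝ) + 1) * (e + n + 1)) + 1 / (((e : ℝ) + 1 + n) * (e + n + 2)) := by
      push_cast
      field_simp
      ring
    rw [h1]
    have h2 : 1 / (((e : ℝ) + 1 + n) * (e + n + 2)) ≤ 1 / ((e : ℝ) + 1 + n) ^ 2 := by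
      apply one_div_le_one_div_of_le (by positivity)
      nlinarith
    linarith

/-- the product formula for the defect of log-concavity -/
lemma ratio_le {n A e : ℕ} (hAe : A ≤ e) :
    ((n + (e + A)).choose n : ℝ) * ((n + (e - A)).choose n : ℝ) ≤
      Real.exp (-((A : ℝ) ^ 2 * n / (((e : ℝ) + 1) * (e + n + 1)))) *
        ((n + e).choose n : ℝ) ^ 2 := by
  have hf : (0 : ℝ) < (n.factorial : ℝ) := by exact_mod_cast Nat.factorial_pos n
  have he : (0 : ℝ) ≤ e := Nat.cast_nonneg e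
  have hA : (0 : ℝ) ≤ A := Nat.cast_nonneg A
  have hAe' : (A : ℝ) ≤ e := by exact_mod_cast hAe
  have h1 : (((n + (e + A)).choose n : ℝ) * (n.factorial : ℝ)) *
      (((n + (e - A)).choose n : ℝ) * (n.factorial : ℝ)) ≤
      Real.exp (-((A : ℝ) ^ 2 * n / (((e : ℝ) + 1) * (e + n + 1)))) *
        ((((n + e).choose n : ℝ) * (n.factorial : ℝ)) *
        (((n + e).choose n : ℝ) * (n.factorial : ℝ))) := by
    rw [choose_mul_factorial, choose_mul_factorial, choose_mul_factorial,
      ← Finset.prod_mul_distrib, ← Finset.prod_mul_distrib]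
    calc ∏ k ∈ Finset.range n, (((e + A : ℕ) : ℝ) + 1 + k) * (((e - A : ℕ) : ℝ) + 1 + k)
        ≤ ∏ k ∈ Finset.range n, Real.exp (-((A : ℝ) ^ 2 * (1 / ((e : ℝ) + 1 + k) ^ 2))) *
          (((e : ℝ) + 1 + k) * ((e : ℝ) + 1 + k)) := by
          apply Finset.prod_le_prod
          · intro k _
            positivity
          · intro k _
            have hk : (0 : ℝ) ≤ k := Nat.cast_nonneg k
            rw [Nat.cast_sub hAe]
            push_cast
            set E : ℝ := (e : ℝ) + 1 + k with hE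
            have hE0 : 0 < E := by rw [hE]; linarith
            have h2 : ((e : ℝ) + A + 1 + k) * ((e : ℝ) - A + 1 + k) =
                (1 - (A : ℝ) ^ 2 * (1 / E ^ 2)) * (E * E) := by
              have e1 : ((e : ℝ) + A + 1 + k) * ((e : ℝ) - A + 1 + k) = E * E - A ^ 2 := by
                rw [hE]; ring
              rw [e1]
              field_simp
            rw [h2]
            apply mul_le_mul_of_nonneg_right _ (by positivity)
            exact Real.one_sub_le_exp_neg _
      _ = Real.exp (-((A : ℝ) ^ 2 * ∑ k ∈ Finset.range n, 1 / ((e : ℝ) + 1 + k) ^ 2)) *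
          ∏ k ∈ Finset.range n, (((e : ℝ) + 1 + k) * ((e : ℝ) + 1 + k)) := by
          rw [Finset.prod_mul_distrib, ← Real.exp_sum, Finset.sum_neg_distrib, Finset.mul_sum]
      _ ≤ _ := by
          apply mul_le_mul_of_nonneg_right _ (Finset.prod_nonneg fun k _ => by positivity)
          apply Real.exp_le_exp.2
          have h3 := sum_ge n e
          have h4 : (A : ℝ) ^ 2 * n / (((e : ℝ) + 1) * (e + n + 1)) =
              (A : ℝ) ^ 2 * (n / (((e : ℝ) + 1) * (e + n + 1))) := by ring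
          rw [h4]
          have h5 := mul_le_mul_of_nonneg_left h3 (sq_nonneg (A : ℝ))
          linarith
  have h11 : (((n + (e + A)).choose n : ℝ) * ((n + (e - A)).choose n : ℝ)) *
      ((n.factorial : ℝ) * n.factorial) ≤
      (Real.exp (-((A : ℝ) ^ 2 * n / (((e : ℝ) + 1) * (e + n + 1)))) *
        ((n + e).choose n : ℝ) ^ 2) * ((n.factorial : ℝ) * n.factorial) := by
    calc _ = (((n + (e + A)).choose n : ℝ) * (n.factorial : ℝ)) *
      (((n + (e - A)).choose n : ℝ) * (n.factorial : ℝ)) := by ring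
      _ ≤ _ := h1
      _ = _ := by ring
  exact le_of_mul_le_mul_right h11 (by positivity)

/-- strict log-concavity with a factor `30` -/
lemma thirty {n A e : ℕ} (hAe : A ≤ e) (h : 4 * ((e + 1) * (e + n + 1)) ≤ A ^ 2 * n) :
    30 * ((n + e + A).choose n * (n + e - A).choose n) ≤ (n + e).choose n ^ 2 := by
  have h1 := ratio_le (n := n) hAe
  have h2 : (4 : ℝ) ≤ (A : ℝ) ^ 2 * n / (((e : ℝ) + 1) * (e + n + 1)) := by
    rw [le_div_iff₀ (by positivity)]
    exact_mod_cast h
  have h3 : (30 : ℝ) ≤ Real.exp 4 := by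
    have h4 : Real.exp 4 = Real.exp 1 ^ 4 := by
      rw [← Real.exp_nat_mul]
      norm_num
    have h5 : (2.7 : ℝ) ^ 4 ≤ Real.exp 1 ^ 4 :=
      pow_le_pow_left₀ (by norm_num) (by linarith [Real.exp_one_gt_d9]) 4
    rw [h4]
    norm_num at h5 ⊢
    linarith
  have h6 : Real.exp (-((A : ℝ) ^ 2 * n / (((e : ℝ) + 1) * (e + n + 1)))) ≤ 1 / 30 := by
    calc Real.exp (-((A : ℝ) ^ 2 * n / (((e : ℝ) + 1) * (e + n + 1)))) ≤ Real.exp (-4) := by
          apply Real.exp_le_exp.2
          linarith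
      _ = (Real.exp 4)⁻¹ := Real.exp_neg 4
      _ ≤ 30⁻¹ := inv_anti₀ (by norm_num) h3
      _ = 1 / 30 := by norm_num
  have h7 : n + e - A = n + (e - A) := by omega
  rw [h7, Nat.add_assoc]
  have h8 : (30 : ℝ) * (((n + (e + A)).choose n : ℝ) * ((n + (e - A)).choose n : ℝ)) ≤
      ((n + e).choose n : ℝ) ^ 2 := by
    have h9 : (0 : ℝ) ≤ ((n + e).choose n : ℝ) ^ 2 := by positivity
    nlinarith
  exact_mod_cast h8

/-- the expected dimension is negative for many points -/
lemma fs_neg {n A e s : ℕ} (hA : 1 ≤ A) (hAe : A ≤ e)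
    (h : 4 * ((e + 1) * (e + n + 1)) ≤ A ^ 2 * n)
    (h2 : 2 * (n + e + A).choose n ≤ s * (n + e).choose n)
    (h3 : s * (n + e).choose n ≤ 2 * (n + e + A).choose n + (n + e).choose n) :
    Fs n A (e + A) s < 0 :=
  core hA hAe (thirty hAe h) h2 h3

end NEG2M

end FrI
end

section
/-!
# MP_921642_ag, FI: module NEGU
-/
set_option autoImplicit false

namespace FrI

/-- strict log-concavity with a factor `30` -/
theorem NEGUM.negU (n A e : ℕ) (hA : 1 ≤ A) (hAe : A ≤ e)
    (h : 14 * (e + A) ^ 2 ≤ A ^ 2 * min n (e + A)) :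
    30 * ((n + e + A).choose n * (n + e - A).choose n) ≤ (n + e).choose n ^ 2 := by
  apply NEG2M.thirty hAe
  have hd : e + 1 ≤ e + A := by omega
  rcases le_total n (e + A) with hn | hn
  · rw [min_eq_left hn] at h
    calc 4 * ((e + 1) * (e + n + 1)) ≤ 4 * ((e + A) * (2 * (e + A))) := by
          apply Nat.mul_le_mul_left
          apply Nat.mul_le_mul hd
          omega
      _ = 8 * (e + A) ^ 2 := by ring
      _ ≤ 14 * (e + A) ^ 2 := Nat.mul_le_mul_right _ (by norm_num)
      _ ≤ A ^ 2 * n := h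
  · rw [min_eq_right hn] at h
    have hpos : 0 < e + A := by omega
    have h1 : 14 * (e + A) ≤ A ^ 2 := by
      have h2 : (14 * (e + A)) * (e + A) ≤ A ^ 2 * (e + A) := by
        calc (14 * (e + A)) * (e + A) = 14 * (e + A) ^ 2 := by ring
          _ ≤ _ := h
      exact Nat.le_of_mul_le_mul_right h2 hpos
    calc 4 * ((e + 1) * (e + n + 1)) ≤ 4 * ((e + A) * (2 * n)) := by
          apply Nat.mul_le_mul_left
          apply Nat.mul_le_mul hd
          omega
      _ = (8 * (e + A)) * n := by ring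
      _ ≤ (14 * (e + A)) * n := by
          apply Nat.mul_le_mul_right
          omega
      _ ≤ A ^ 2 * n := Nat.mul_le_mul_right n h1

end FrI
end

section
set_option autoImplicit false

namespace FrI.MAIN3M

open MvPolynomial Pool.Agent.Lib.MP_921642_ag FrI

theorem specMAIN3 (hTHAG : SpecTHAG) (hEX : SpecEX) (hNUMA : SpecNUMA) (hNUMB : SpecNUMB)
    (hSEMI : SpecSEMI) (hNEGC : SpecNEGC) (hLV : SpecLV) (hFSR : SpecFSR)
    (hLAM : SpecLAM) : SpecMAIN3 := by
  intro n d m s hn2 hm hmd hcond p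
  have hx : (0 : ℤ) ≤ Module.finrank ℂ (linSys n d s (fun _ => m) p) := by positivity
  obtain ⟨A, hA⟩ : ∃ A, A + m = d + 1 := ⟨d + 1 - m, by omega⟩
  obtain ⟨e, he⟩ : ∃ e, e + 1 = m := ⟨m - 1, by omega⟩
  have hd : d = e + A := by omega
  have hA1 : 1 ≤ A := by omega
  have hAd : d + 1 - m = A := by omega
  rw [hAd] at hcond
  have hn1 : 1 ≤ n := by omega
  have hK := finrank_K_le (n := n) (s := s) hA p
  by_cases hcase : A ≤ e
  · -- the main case
    have hd2 : 2 * A ≤ d := by omega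
    have hAr : (0 : ℝ) < A := by exact_mod_cast hA1
    have hdr : (0 : ℝ) < d := by
      have : 0 < d := by omega
      exact_mod_cast this
    set M : ℕ := min n d with hM
    have hMn : M ≤ n := min_le_left _ _
    have hMd : M ≤ d := min_le_right _ _
    have hlam : 0 ≤ (Real.log n) ^ 2 := sq_nonneg _
    -- the ratio y = d / A
    set y : ℝ := (d : ℝ) / A with hy
    have hy2 : 2 ≤ y := by
      rw [hy, le_div_iff₀ hAr]
      exact_mod_cast hd2
    have hcond2 : 10 ^ 9 * (Real.log n) ^ 2 * y ^ 5 ≤ (M : ℝ) := by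
      have hA5 : (0 : ℝ) < (A : ℝ) ^ 5 := by positivity
      rw [hy, div_pow, ← mul_div_assoc, div_le_iff₀ hA5]
      linarith
    have hlog2 : (1 / 2 : ℝ) ≤ Real.log n := by
      have h1 : Real.log 2 ≤ Real.log n :=
        Real.log_le_log (by norm_num) (by exact_mod_cast hn2)
      have := Real.log_two_gt_d9
      linarith
    have hlogsq : (1 / 4 : ℝ) ≤ (Real.log n) ^ 2 := by nlinarith
    have hy5 : 16 * y ≤ y ^ 5 := by
      have h4 : (16 : ℝ) ≤ y ^ 4 := by
        have h1 : (4 : ℝ) ≤ y ^ 2 := by nlinarith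
        have h2 : y ^ 4 = y ^ 2 * y ^ 2 := by ring
        rw [h2]
        nlinarith
      have h5 : y ^ 5 = y ^ 4 * y := by ring
      rw [h5]
      nlinarith
    have hMy : 10 ^ 9 * y ≤ (M : ℝ) := by
      have h1 : 10 ^ 9 * (1 / 4) * y ^ 5 ≤ 10 ^ 9 * (Real.log n) ^ 2 * y ^ 5 := by
        apply mul_le_mul_of_nonneg_right
        · linarith
        · positivity
      nlinarith
    have hMy2 : 14 * y ^ 2 ≤ (M : ℝ) := by
      have h1 : 10 ^ 9 * (1 / 4) * y ^ 5 ≤ 10 ^ 9 * (Real.log n) ^ 2 * y ^ 5 := by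
        apply mul_le_mul_of_nonneg_right
        · linarith
        · positivity
      have h2 : y ^ 2 ≤ y ^ 5 := pow_le_pow_right₀ (by linarith) (by norm_num)
      have h3 : 0 ≤ y ^ 2 := by positivity
      nlinarith
    have hlam30 : 30 ≤ Real.log n := by
      apply hLAM n hn2
      have h32 : (32 : ℝ) ≤ y ^ 5 := by
        have := pow_le_pow_left₀ (by norm_num : (0 : ℝ) ≤ 2) hy2 5
        norm_num at this
        exact this
      have hMn' : (M : ℝ) ≤ n := by exact_mod_cast hMn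
      nlinarith
    have hyd : (d : ℝ) = y * A := by
      rw [hy]; field_simp
    have hnA : d < (n + 1) * A := by
      have h1 : (d : ℝ) < ((n : ℝ) + 1) * A := by
        rw [hyd]
        apply mul_lt_mul_of_pos_right _ hAr
        have hMn' : (M : ℝ) ≤ n := by exact_mod_cast hMn
        nlinarith
      exact_mod_cast h1
    have hlv := hLV n d s m A hA hn1 hm hmd hnA
    have hnum : NumOK n A e := by
      by_cases hnd : n ≤ d
      · have hM' : M = n := min_eq_left hnd
        rw [hM'] at hcond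
        apply hNUMA n A e hlam30 hA1 hcase (by omega)
        have : ((e : ℝ) + A) = d := by
          rw [hd]; push_cast; ring
        rw [this]
        exact hcond
      · have hM' : M = d := min_eq_right (by omega)
        rw [hM'] at hcond
        apply hNUMB n A e hlam30 hA1 hcase (by omega)
        have : ((e : ℝ) + A) = d := by
          rw [hd]; push_cast; ring
        rw [this]
        exact hcond
    by_cases hs : (s : ℝ) * ((n + e).choose n : ℝ) ≤ 2 * ((n + e + A).choose n : ℝ)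
    · -- few points
      obtain ⟨q, b, a, D, n', n1, r, L, G, R0, hq, hb, ha, haD, hqab, hn', he1, he2, hr, hn1', hrn, hnn,
        hR0, hR0', hT1, hT2, hsb⟩ := hnum
      have hgood := hTHAG n' n1 D a s r L G R0 hr hn1' hrn hnn ha haD hR0 hR0' (hsb s hs) hT1 hT2
      obtain ⟨f, hfV, hf⟩ := hEX n A e s q b a D n' r L hq hb ha haD hqab hn' he1 he2 hgood
      have h1 := hSEMI n A e s f hA1 hfV hf (extPts p)
      rw [← hd] at h1
      apply ldim_le_of_le hx
      rw [hlv]
      exact le_trans h1 hK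
    · -- many points: the expected dimension is zero
      push Not at hs
      apply ldim_le_of_neg hx
      have hRe : 0 < (n + e).choose n := Nat.choose_pos (by omega)
      set s' : ℕ := (2 * (n + e + A).choose n + (n + e).choose n - 1) / (n + e).choose n with hs'
      have hsN : 2 * (n + e + A).choose n < s * (n + e).choose n := by exact_mod_cast hs
      have h1 : 2 * (n + e + A).choose n ≤ s' * (n + e).choose n := by
        have h2 := Nat.div_add_mod (2 * (n + e + A).choose n + (n + e).choose n - 1) ((n + e).choose n)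
        have h3 := Nat.mod_lt (2 * (n + e + A).choose n + (n + e).choose n - 1) hRe
        rw [← hs'] at h2
        rw [mul_comm] at h2
        omega
      have h2 : s' * (n + e).choose n ≤ 2 * (n + e + A).choose n + (n + e).choose n := by
        have h3 := Nat.div_mul_le_self (2 * (n + e + A).choose n + (n + e).choose n - 1) ((n + e).choose n)
        rw [← hs'] at h3
        omega
      have h3 : s' ≤ s := by
        by_contra hcon
        have h4 : s + 1 ≤ s' := by omega
        have h5 : (s + 1) * (n + e).choose n ≤ s' * (n + e).choose n := Nat.mul_le_mul_right _ h4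
        have h6 := Nat.div_mul_le_self (2 * (n + e + A).choose n + (n + e).choose n - 1) ((n + e).choose n)
        rw [← hs'] at h6
        have h7 : (s + 1) * (n + e).choose n = s * (n + e).choose n + (n + e).choose n := by ring
        omega
      have heps : 30 * ((n + e + A).choose n * (n + e - A).choose n) ≤ (n + e).choose n ^ 2 := by
        apply NEGUM.negU n A e hA1 hcase
        rw [← hd]
        have h8 : (14 : ℝ) * (d : ℝ) ^ 2 ≤ (A : ℝ) ^ 2 * M := by
          rw [hyd]
          have h9 : (14 : ℝ) * (y * A) ^ 2 = 14 * y ^ 2 * (A : ℝ) ^ 2 := by ring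
          rw [h9, mul_comm ((A : ℝ) ^ 2)]
          exact mul_le_mul_of_nonneg_right hMy2 (by positivity)
        exact_mod_cast h8
      have hneg := hNEGC n A e s' hn1 hA1 hcase heps h1 h2
      have hlv' := hLV n d s' m A hA hn1 hm hmd hnA
      refine ⟨fun i => if h : (i : ℕ) < s' then (fun _ : Fin s' => m) ⟨i, h⟩ else 0, fun i => ?_, ?_⟩
      · simp only
        split_ifs <;> omega
      · rw [lvdim_extend n d s s' h3 (fun _ => m) (fun _ => hmd), hlv', hd]
        exact hneg
  · -- trivial case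
    push Not at hcase
    have hnA : d < (n + 1) * A := by
      have h1 : 2 * A ≤ (n + 1) * A := Nat.mul_le_mul_right _ (by omega)
      omega
    have hlv := hLV n d s m A hA hn1 hm hmd hnA
    have h1 := finrank_K_trivial (extPts p) A e s
    rw [← hd] at h1
    apply ldim_le_of_le hx
    rw [hlv]
    refine le_trans ?_ (le_trans h1 hK)
    rw [finrank_V', finrank_V']
    -- compute Fs
    have key : ∀ j : ℕ, Fs n A (e + A) j = ((n + (e + A)).choose n : ℤ) - j * ((n + e).choose n : ℤ) := by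
      intro j
      induction j with
      | zero => rw [hFSR.1]; simp
      | succ j ih =>
        rw [hFSR.2.2 n A e j hA1, ih, hFSR.2.1 n A e j hA1 hcase]
        push_cast
        ring
    have key2 := key s
    rw [← hd] at key2
    rw [key2]

end FrI.MAIN3M
end

section
/-!
# MP_921642_ag, FI: module NEGC
-/
set_option autoImplicit false

namespace FrI

theorem NEGCM.specNEGC : SpecNEGC := fun _ _ _ _ _ hA hAe h30 h2 h3 =>
  NEGM.core hA hAe h30 h2 h3

end FrI
end

section
/-!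
# MP_921642_ag, FI3: module NUMA

Assembly of the numerical conditions in the case `n ≤ d`.
-/
set_option autoImplicit false

namespace FrI

namespace NUMAM

/-- the cancellation at the end -/
lemma cancel {s C0 C1 E F P T X : ℝ} (hC0 : 0 ≤ C0) (hE : 0 < E) (hF : 0 ≤ F) (hP : 0 < P)
    (h1 : P * C1 * C0 ≤ T * E * F) (h2 : 2 * T ≤ X * P) (h3 : s * E ≤ 2 * C1) :
    s * C0 ≤ X * F := by
  have hEP : 0 < E * P := mul_pos hE hP
  have ha : s * E * (C0 * P) ≤ 2 * C1 * (C0 * P) :=
    mul_le_mul_of_nonneg_right h3 (mul_nonneg hC0 hP.le)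
  have hb : 2 * T * (E * F) ≤ X * P * (E * F) :=
    mul_le_mul_of_nonneg_right h2 (mul_nonneg hE.le hF)
  have hc : (s * C0) * (E * P) ≤ (X * F) * (E * P) := by nlinarith
  exact le_of_mul_le_mul_right hc hEP

theorem specNUMA (hq : SpecCAPQ) (h1 : SpecNUMA1) (h2 : SpecNUMA2) : SpecNUMA := by
  intro n A e hlog hA hAe hnd hmain
  set lam : ℝ := Real.log n with hlam
  have hn1 : 1 ≤ n := by
    rcases Nat.eq_zero_or_pos n with h | h
    · subst h
      simp [hlam] at hlog
      linarith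
    · exact h
  have hAr : (1 : ℝ) ≤ A := by exact_mod_cast hA
  have hAer : (A : ℝ) ≤ e := by exact_mod_cast hAe
  have hnr : (1 : ℝ) ≤ n := by exact_mod_cast hn1
  have hndr : (n : ℝ) ≤ e + A := by exact_mod_cast hnd
  set d : ℝ := (e : ℝ) + A with hd
  have hd0 : 0 < d := by linarith
  set x : ℝ := (A : ℝ) / d with hx
  have hx0 : 0 < x := div_pos (by linarith) hd0
  have hxd : x * d = A := by rw [hx]; field_simp
  have hxhalf : x ≤ 1 / 2 := by
    rw [hx, div_le_iff₀ hd0]; linarith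
  have hx5 : 10 ^ 9 * lam ^ 2 ≤ x ^ 5 * n := by
    have h5 : 0 < d ^ 5 := by positivity
    have : 10 ^ 9 * lam ^ 2 * d ^ 5 ≤ (x ^ 5 * n) * d ^ 5 := by
      calc 10 ^ 9 * lam ^ 2 * d ^ 5 ≤ (A : ℝ) ^ 5 * n := hmain
        _ = (x * d) ^ 5 * n := by rw [hxd]
        _ = (x ^ 5 * n) * d ^ 5 := by ring
    exact le_of_mul_le_mul_right this h5
  have hlam2 : (900 : ℝ) ≤ lam ^ 2 := by nlinarith
  have hbig : (900 * 10 ^ 9 : ℝ) ≤ x ^ 5 * n := by nlinarith
  have hx1 : x ≤ 1 := by linarith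
  have hx5x : x ^ 5 ≤ x := by
    calc x ^ 5 = x * x ^ 4 := by ring
      _ ≤ x * 1 := mul_le_mul_of_nonneg_left (pow_le_one₀ hx0.le hx1) hx0.le
      _ = x := by ring
  have hx5x2 : x ^ 5 ≤ x ^ 2 := by
    calc x ^ 5 = x ^ 2 * x ^ 3 := by ring
      _ ≤ x ^ 2 * 1 := mul_le_mul_of_nonneg_left (pow_le_one₀ hx0.le hx1) (by positivity)
      _ = x ^ 2 := by ring
  have hxn : (8 : ℝ) ≤ x * n := by
    have : x ^ 5 * n ≤ x * n := mul_le_mul_of_nonneg_right hx5x (by linarith)
    linarith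
  have hx2d : (64 : ℝ) ≤ x ^ 2 * d := by
    have h1 : x ^ 5 * n ≤ x ^ 2 * d :=
      mul_le_mul hx5x2 hndr (by linarith) (by positivity)
    linarith
  have hc1 : 8 * (e + A) ≤ n * A := by
    have : (8 : ℝ) * ((e : ℝ) + A) ≤ n * A := by
      calc (8 : ℝ) * ((e : ℝ) + A) = 8 * d := by rw [hd]
        _ ≤ (x * n) * d := mul_le_mul_of_nonneg_right hxn hd0.le
        _ = n * (x * d) := by ring
        _ = n * A := by rw [hxd]
    exact_mod_cast this
  have hc2 : 64 * (e + A) ≤ A ^ 2 := by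
    have : (64 : ℝ) * ((e : ℝ) + A) ≤ (A : ℝ) ^ 2 := by
      calc (64 : ℝ) * ((e : ℝ) + A) = 64 * d := by rw [hd]
        _ ≤ (x ^ 2 * d) * d := mul_le_mul_of_nonneg_right hx2d hd0.le
        _ = (x * d) ^ 2 := by ring
        _ = (A : ℝ) ^ 2 := by rw [hxd]
    exact_mod_cast this
  obtain ⟨q, b, a, D, hq1, hb1, ha1, haD, hqab, hqn, hAb, hbA, hqD, heD, hDA⟩ :=
    h1 n A e hn1 hA hAe hc1 hc2
  have hDx : (D : ℝ) * x ≤ 4 * n := by
    have hDA' : (D : ℝ) * A ≤ 4 * n * ((e : ℝ) + A) := by exact_mod_cast hDA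
    have : (D : ℝ) * x * d ≤ 4 * n * d := by
      calc (D : ℝ) * x * d = D * (x * d) := by ring
        _ = D * A := by rw [hxd]
        _ ≤ 4 * n * ((e : ℝ) + A) := hDA'
        _ = 4 * n * d := by rw [hd]
    exact le_of_mul_le_mul_right this hd0
  obtain ⟨r, L, n', n1, G, R0, hr16, hr1, hnn', hn11, hrn1, hn1n', hR0, hn1D, hlog1, hlog2, hfin⟩ :=
    h2 n D x hx0 hxhalf hlog hx5 hDx
  have hn'n : n' ≤ n := by omega
  refine ⟨q, b, a, D, n', n1, r, L, G, R0, hq1, hb1, ha1, haD, hqab, hnn', ?_, heD, hr1, hn11, hrn1,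
    hn1n', hR0, hn1D, hlog1, hlog2, ?_⟩
  · have hAb' : (A : ℝ) ^ 2 ≤ 16 * b * ((e : ℝ) + A) := by exact_mod_cast hAb
    have : d ≤ b * ((r : ℝ) + 1) := by
      have hk : 16 * d * d ≤ 16 * d * (b * ((r : ℝ) + 1)) := by
        calc 16 * d * d = 16 * d ^ 2 := by ring
          _ ≤ (x ^ 2 * ((r : ℝ) + 1)) * d ^ 2 := mul_le_mul_of_nonneg_right hr16 (by positivity)
          _ = (x * d) ^ 2 * ((r : ℝ) + 1) := by ring
          _ = (A : ℝ) ^ 2 * ((r : ℝ) + 1) := by rw [hxd]
          _ ≤ (16 * b * ((e : ℝ) + A)) * ((r : ℝ) + 1) :=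
            mul_le_mul_of_nonneg_right hAb' (by positivity)
          _ = 16 * d * (b * ((r : ℝ) + 1)) := by rw [hd]; ring
      exact le_of_mul_le_mul_left hk (by positivity)
    have : (e : ℝ) < b * ((r : ℝ) + 1) := by linarith
    exact_mod_cast this
  · intro s hs
    have hC2 : (2 : ℝ) ≤ 2 * d / A := by
      rw [le_div_iff₀ (by linarith)]; nlinarith
    have hk1 : ((e + n : ℕ) : ℝ) ≤ (2 * d / A) * A := by
      have : (2 * d / A) * A = 2 * d := by field_simp
      rw [this]; push_cast; linarith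
    have hk2 : ((4 * b : ℕ) : ℝ) * (2 * d / A) ≤ A := by
      have hbA' : 8 * (b : ℝ) * ((e : ℝ) + A) ≤ (A : ℝ) ^ 2 := by exact_mod_cast hbA
      have hAA : (0 : ℝ) < A := by linarith
      have : ((4 * b : ℕ) : ℝ) * (2 * d / A) = (8 * b * d) / A := by push_cast; ring
      rw [this, div_le_iff₀ hAA]
      calc 8 * (b : ℝ) * d = 8 * (b : ℝ) * ((e : ℝ) + A) := by rw [hd]
        _ ≤ (A : ℝ) ^ 2 := hbA'
        _ = A * A := by ring
    have hcap := hq (2 * d / A) n n' A e q b a D hC2 hn1 hn'n hAe hk1 ha1 haD hqab hk2 hqn hqD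
    have he0 : (0 : ℝ) < e := by linarith
    have hval : (1 : ℝ) / (8 * (2 * d / A) ^ 2) = x ^ 2 / 32 := by
      have hAA : (A : ℝ) ≠ 0 := by linarith
      rw [hx]; field_simp; ring
    rw [hval] at hcap
    have hAe2 : (1 : ℝ) + (A : ℝ) / e ≤ 1 + 2 * x := by
      have : (A : ℝ) / e ≤ 2 * x := by
        rw [div_le_iff₀ he0]
        have : d ≤ 2 * e := by linarith
        nlinarith
      linarith
    have hpow : ((1 : ℝ) + (A : ℝ) / e) ^ (n - n') ≤ (1 + 2 * x) ^ (n - n') :=
      pow_le_pow_left₀ (by positivity) hAe2 _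
    have hP : (0 : ℝ) < (1 + x ^ 2 / 32) ^ n' := by positivity
    have hE : (0 : ℝ) < ((n + e).choose n : ℝ) := by
      exact_mod_cast Nat.choose_pos (Nat.le_add_right n e)
    have hcap2 : (1 + x ^ 2 / 32) ^ n' * ((n + e + A).choose n : ℝ) *
        ((n' + D - a).choose n' : ℝ) ≤
        (1 + 2 * x) ^ (n - n') * ((n + e).choose n : ℝ) * ((n' + D).choose n' : ℝ) := by
      refine hcap.trans ?_
      have := mul_le_mul_of_nonneg_right hpow hE.le
      exact mul_le_mul_of_nonneg_right this (Nat.cast_nonneg _)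
    exact cancel (Nat.cast_nonneg _) hE (Nat.cast_nonneg _) hP hcap2 hfin hs

end NUMAM

end FrI
end

section
/-!
# MP_921642_ag, FI3: module NUMA1
-/
set_option autoImplicit false

namespace FrI.NUMA1M

open FrI

theorem specNUMA1 : SpecNUMA1 := by
  intro n A e hn hA hAe h8 h64
  obtain ⟨d, hd⟩ : ∃ d, d = e + A := ⟨_, rfl⟩
  rw [← hd] at h8 h64 ⊢
  have hd1 : 1 ≤ d := by omega
  have h2A : 2 * A ≤ d := by omega
  -- q
  obtain ⟨q, hq⟩ : ∃ q, q = A / (4 * n) + 1 := ⟨_, rfl⟩
  have hq1 : 4 * q * n ≤ A + 4 * n := by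
    have h1 : A / (4 * n) * (4 * n) ≤ A := Nat.div_mul_le_self A (4 * n)
    have h2 : 4 * q * n = A / (4 * n) * (4 * n) + 4 * n := by rw [hq]; ring
    omega
  have hq2 : A < 4 * n * q := by
    have h1 : A < 4 * n * (A / (4 * n) + 1) := Nat.lt_mul_div_succ A (by omega)
    rw [hq]
    exact h1
  have hq0 : 1 ≤ q := by rw [hq]; exact Nat.le_add_left 1 _
  have hq3 : 64 * (d * q) ≤ 3 * A ^ 2 := by
    have h1 : n * (64 * (d * q)) ≤ n * (3 * A ^ 2) := by
      calc n * (64 * (d * q)) = 16 * d * (4 * q * n) := by ring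
        _ ≤ 16 * d * (A + 4 * n) := Nat.mul_le_mul_left _ hq1
        _ = 2 * A * (8 * d) + n * (64 * d) := by ring
        _ ≤ 2 * A * (n * A) + n * A ^ 2 :=
            Nat.add_le_add (Nat.mul_le_mul_left _ h8) (Nat.mul_le_mul_left _ h64)
        _ = n * (3 * A ^ 2) := by ring
    exact Nat.le_of_mul_le_mul_left h1 (by omega)
  -- beta
  obtain ⟨β, hβ1, hβ2⟩ : ∃ β, A ^ 2 ≤ 16 * (d * β) ∧ 16 * (d * β) < A ^ 2 + 16 * d := by
    refine ⟨(A ^ 2 + 16 * d - 1) / (16 * d), ?_, ?_⟩
    · have h1 : A ^ 2 + 16 * d - 1 < 16 * d * ((A ^ 2 + 16 * d - 1) / (16 * d) + 1) :=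
        Nat.lt_mul_div_succ _ (by omega)
      have h2 : 16 * d * ((A ^ 2 + 16 * d - 1) / (16 * d) + 1) =
          16 * (d * ((A ^ 2 + 16 * d - 1) / (16 * d))) + 16 * d := by ring
      omega
    · have h1 : (A ^ 2 + 16 * d - 1) / (16 * d) * (16 * d) ≤ A ^ 2 + 16 * d - 1 :=
        Nat.div_mul_le_self _ _
      have h2 : 16 * (d * ((A ^ 2 + 16 * d - 1) / (16 * d))) =
          (A ^ 2 + 16 * d - 1) / (16 * d) * (16 * d) := by ring
      omega
  have hA2 : 1 ≤ A ^ 2 := Nat.one_le_pow _ _ hA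
  have hβ0 : 1 ≤ β := by
    rcases Nat.eq_zero_or_pos β with h | h
    · rw [h] at hβ1
      simp at hβ1
      omega
    · exact h
  have hAd : 2 * A ^ 2 ≤ d * A := by
    calc 2 * A ^ 2 = (2 * A) * A := by ring
      _ ≤ d * A := Nat.mul_le_mul_right _ h2A
  -- beta + q ≤ A
  have hβq : β + q ≤ A := by
    have h1 : d * (β + q) ≤ d * A := by
      have h2 : 16 * (d * (β + q)) = 16 * (d * β) + 16 * (d * q) := by ring
      omega
    exact Nat.le_of_mul_le_mul_left h1 (by omega)
  -- a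
  obtain ⟨a, ha⟩ : ∃ a, a = (A - β) / q := ⟨_, rfl⟩
  have ha1 : q * a ≤ A - β := by rw [ha]; exact Nat.mul_div_le _ _
  have ha2 : A - β < q * a + q := by
    have h1 : A - β < q * ((A - β) / q + 1) := Nat.lt_mul_div_succ _ (by omega)
    rw [ha]
    linarith
  have ha0 : 1 ≤ a := by
    rcases Nat.eq_zero_or_pos a with h | h
    · rw [h] at ha2
      simp at ha2
      omega
    · exact h
  -- b
  obtain ⟨b, hb⟩ : ∃ b, b = A - q * a := ⟨_, rfl⟩
  have hb1 : q * a + b = A := by omega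
  have hb2 : β ≤ b := by omega
  have hb3 : b + 1 ≤ β + q := by omega
  have hb4 : b ≤ A := by omega
  -- D
  obtain ⟨D, hD⟩ : ∃ D, D = (e - b) / q := ⟨_, rfl⟩
  have hD1 : q * D ≤ e - b := by rw [hD]; exact Nat.mul_div_le _ _
  have hD2 : e - b < q * (D + 1) := by
    rw [hD]
    exact Nat.lt_mul_div_succ _ (by omega)
  refine ⟨q, b, a, D, hq0, by omega, ha0, ?_, hb1, hq1, ?_, ?_, by omega, by omega, ?_⟩
  · rw [hD, Nat.le_div_iff_mul_le (by omega)]
    have h1 : a * q = q * a := Nat.mul_comm _ _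
    omega
  · calc A ^ 2 ≤ 16 * (d * β) := hβ1
      _ ≤ 16 * (d * b) := Nat.mul_le_mul_left _ (Nat.mul_le_mul_left _ hb2)
      _ = 16 * b * d := by ring
  · have h1 : d * (b + 1) ≤ d * (β + q) := Nat.mul_le_mul_left _ hb3
    have h2 : d * (b + 1) = d * b + d := by ring
    have h3 : d * (β + q) = d * β + d * q := by ring
    have h4 : 8 * b * d = 8 * (d * b) := by ring
    omega
  · calc D * A ≤ D * (4 * n * q) := Nat.mul_le_mul_left _ hq2.le
      _ = 4 * n * (q * D) := by ring
      _ ≤ 4 * n * d := Nat.mul_le_mul_left _ (by omega)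

end FrI.NUMA1M
end

section
/-! # Module NUMA2: explicit real inequalities, case `n ≤ d` -/
set_option autoImplicit false

namespace FrI

namespace NUMA2M

/-- `log (choose N k) ≤ k (1 + log (N/k))` -/
lemma log_choose (N k : ℕ) (hk : 1 ≤ k) (hkN : k ≤ N) :
    Real.log (N.choose k : ℝ) ≤ k * (1 + Real.log ((N : ℝ) / k)) := by
  have hk0 : (0 : ℝ) < k := by exact_mod_cast hk
  have hN0 : (0 : ℝ) < N := lt_of_lt_of_le hk0 (by exact_mod_cast hkN)
  have h1 : (N.choose k : ℝ) ≤ (N : ℝ) ^ k / (k.factorial : ℝ) := Nat.choose_le_pow_div k N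
  have h2 : (k : ℝ) ^ k / (k.factorial : ℝ) ≤ Real.exp k :=
    Real.pow_div_factorial_le_exp (k : ℝ) hk0.le k
  have h3 : (N : ℝ) ^ k / (k.factorial : ℝ) = ((N : ℝ) / k) ^ k * ((k : ℝ) ^ k / (k.factorial : ℝ)) := by
    rw [div_pow]
    field_simp
  have h4 : (N.choose k : ℝ) ≤ ((N : ℝ) / k) ^ k * Real.exp k := by
    rw [h3] at h1
    exact h1.trans (mul_le_mul_of_nonneg_left h2 (by positivity))
  have h5 : (0 : ℝ) < (N.choose k : ℝ) := by exact_mod_cast Nat.choose_pos hkN
  have h6 := Real.log_le_log h5 h4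
  rw [Real.log_mul (by positivity) (Real.exp_ne_zero _), Real.log_pow, Real.log_exp] at h6
  linarith

/-- `exp (y/2) ≤ 1 + y` for `0 ≤ y ≤ 1` -/
lemma exp_half (y : ℝ) (h0 : 0 ≤ y) (h1 : y ≤ 1) : Real.exp (y / 2) ≤ 1 + y := by
  have h2 : 1 - y / 2 ≤ Real.exp (-(y / 2)) := Real.one_sub_le_exp_neg _
  have h3 : Real.exp (y / 2) * Real.exp (-(y / 2)) = 1 := by
    rw [← Real.exp_add]; simp
  have h4 : 0 < Real.exp (y / 2) := Real.exp_pos _
  have h5 : Real.exp (y / 2) * (1 - y / 2) ≤ 1 := by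
    calc Real.exp (y / 2) * (1 - y / 2) ≤ Real.exp (y / 2) * Real.exp (-(y / 2)) :=
          mul_le_mul_of_nonneg_left h2 h4.le
      _ = 1 := h3
  have h6 : 1 ≤ (1 + y) * (1 - y / 2) := by nlinarith
  have h7 : Real.exp (y / 2) * (1 - y / 2) ≤ (1 + y) * (1 - y / 2) := h5.trans h6
  exact le_of_mul_le_mul_right h7 (by linarith)

end NUMA2M

open NUMA2M in
theorem NUMA2M.specNUMA2 : SpecNUMA2 := by
  intro n D x hx0 hx hlam hK hD
  obtain ⟨lam, hl⟩ : ∃ l, l = Real.log n := ⟨_, rfl⟩
  rw [← hl] at hlam hK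
  -- the number n
  have hn0 : (0 : ℝ) < n := by
    rcases Nat.eq_zero_or_pos n with h | h
    · subst h
      rw [Nat.cast_zero, Real.log_zero] at hl
      linarith
    · exact_mod_cast h
  -- u = x^(-1/2)
  obtain ⟨u, hu0, hxu⟩ : ∃ u : ℝ, 0 < u ∧ x * u ^ 2 = 1 := by
    refine ⟨(Real.sqrt x)⁻¹, inv_pos.2 (Real.sqrt_pos.2 hx0), ?_⟩
    rw [inv_pow, Real.sq_sqrt hx0.le]
    exact mul_inv_cancel₀ hx0.ne'
  have hu2 : 2 ≤ u ^ 2 := by
    have : 0 < u ^ 2 := by positivity
    nlinarith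
  have hu1 : 1.41 ≤ u := by
    by_contra h
    have h2 : u < 1.41 := not_le.1 h
    nlinarith
  -- basic size
  have hK1 : 9 * 10 ^ 11 ≤ x ^ 5 * n := by nlinarith
  have hK2 : 3 * 10 ^ 10 * lam ≤ x ^ 5 * n := by nlinarith
  have hx2 : x ^ 2 ≤ 1 / 4 := by nlinarith
  have hx3 : x ^ 3 ≤ 1 / 8 := by
    have : x ^ 3 = x ^ 2 * x := by ring
    rw [this]
    nlinarith
  have hq2 : 8 * (x ^ 5 * n) ≤ x ^ 2 * n := by
    have h1 : x ^ 5 * n = x ^ 3 * (x ^ 2 * n) := by ring
    have h2 : 0 ≤ x ^ 2 * n := by positivity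
    rw [h1]
    nlinarith
  have hq3 : 4 * (x ^ 5 * n) ≤ x ^ 3 * n := by
    have h1 : x ^ 5 * n = x ^ 2 * (x ^ 3 * n) := by ring
    have h2 : 0 ≤ x ^ 3 * n := by positivity
    rw [h1]
    nlinarith
  have hx4 : x ^ 4 ≤ 1 := pow_le_one₀ hx0.le (by linarith)
  have hq1 : x ^ 5 * n ≤ x * n := by
    have h1 : x ^ 5 * n = x ^ 4 * (x * n) := by ring
    have h2 : 0 ≤ x * n := by positivity
    rw [h1]
    nlinarith
  have hnu : 9 * 10 ^ 11 * u ^ 2 ≤ n := by
    have h1 : (n : ℝ) = (x * n) * u ^ 2 := by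
      calc (n : ℝ) = (x * u ^ 2) * n := by rw [hxu, one_mul]
        _ = _ := by ring
    rw [h1]
    exact mul_le_mul_of_nonneg_right (hK1.trans hq1) (by positivity)
  have hn1 : (1 : ℝ) ≤ n := by nlinarith
  have hlogu : Real.log u ≤ u - 1 := Real.log_le_sub_one_of_pos hu0
  have hlogu0 : 0 ≤ Real.log u := Real.log_nonneg (by linarith)
  have hlogu10 : 10 * Real.log u ≤ lam := by
    have h1 : u ^ 10 ≤ n := by
      have h2 : (n : ℝ) = (x ^ 5 * n) * u ^ 10 := by
        calc (n : ℝ) = (x * u ^ 2) ^ 5 * n := by rw [hxu, one_pow, one_mul]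
          _ = _ := by ring
      have h3 : (0 : ℝ) < u ^ 10 := by positivity
      rw [h2]
      nlinarith
    have h4 := Real.log_le_log (by positivity : (0 : ℝ) < u ^ 10) h1
    rw [Real.log_pow, ← hl] at h4
    push_cast at h4
    exact h4
  have hlog2 : Real.log 2 < 0.6931471808 := Real.log_two_lt_d9
  have hlog2' : 0 < Real.log 2 := Real.log_pos (by norm_num)
  -- r
  obtain ⟨r, hr⟩ : ∃ r : ℕ, r = ⌈16 / x ^ 2⌉₊ := ⟨_, rfl⟩
  have hr1 : 16 ≤ x ^ 2 * r := by
    have h1 : 16 / x ^ 2 ≤ r := by rw [hr]; exact Nat.le_ceil _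
    rw [div_le_iff₀ (by positivity)] at h1
    linarith
  have hr2 : x ^ 2 * r ≤ 17 := by
    have h1 : (r : ℝ) < 16 / x ^ 2 + 1 := by
      rw [hr]; exact Nat.ceil_lt_add_one (by positivity)
    have h2 : x ^ 2 * r ≤ x ^ 2 * (16 / x ^ 2 + 1) :=
      mul_le_mul_of_nonneg_left h1.le (by positivity)
    have h3 : x ^ 2 * (16 / x ^ 2 + 1) = 16 + x ^ 2 := by field_simp
    linarith
  have hr3 : 1 ≤ r := by
    rcases Nat.eq_zero_or_pos r with h | h
    · rw [h, Nat.cast_zero, mul_zero] at hr1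
      linarith
    · exact h
  have hr3' : (1 : ℝ) ≤ r := by exact_mod_cast hr3
  have hr4 : (r : ℝ) ≤ 17 * u ^ 4 := by
    have h1 : (r : ℝ) = (x ^ 2 * r) * u ^ 4 := by
      calc (r : ℝ) = (x * u ^ 2) ^ 2 * r := by rw [hxu, one_pow, one_mul]
        _ = _ := by ring
    rw [h1]
    exact mul_le_mul_of_nonneg_right hr2 (by positivity)
  have hlogr0 : 0 ≤ Real.log r := Real.log_nonneg hr3'
  have hlogr : Real.log r ≤ 4 * u := by
    have h1 : (r : ℝ) ≤ 2 ^ 5 * u ^ 4 := by
      have : (0 : ℝ) ≤ u ^ 4 := by positivity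
      nlinarith
    have h2 := Real.log_le_log (by linarith) h1
    rw [Real.log_mul (by positivity) (by positivity), Real.log_pow, Real.log_pow] at h2
    push_cast at h2
    linarith
  -- L
  obtain ⟨L, hL⟩ : ∃ L : ℕ, L = ⌈256 * lam / x ^ 2⌉₊ := ⟨_, rfl⟩
  have hL1 : 256 * lam ≤ x ^ 2 * L := by
    have h1 : 256 * lam / x ^ 2 ≤ L := by rw [hL]; exact Nat.le_ceil _
    rw [div_le_iff₀ (by positivity)] at h1
    linarith
  have hL2 : x ^ 2 * ((L : ℝ) + 1) ≤ 257 * lam := by
    have h1 : (L : ℝ) < 256 * lam / x ^ 2 + 1 := by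
      rw [hL]; exact Nat.ceil_lt_add_one (by positivity)
    have h2 : x ^ 2 * ((L : ℝ) + 1) ≤ x ^ 2 * (256 * lam / x ^ 2 + 2) :=
      mul_le_mul_of_nonneg_left (by linarith) (by positivity)
    have h3 : x ^ 2 * (256 * lam / x ^ 2 + 2) = 256 * lam + 2 * x ^ 2 := by field_simp
    linarith
  -- R = r (L + 1)
  have hR : ((r * (L + 1) : ℕ) : ℝ) * 10 ^ 6 ≤ x * n := by
    push_cast
    have h1 : (x ^ 2 * r) * (x ^ 2 * ((L : ℝ) + 1)) ≤ 17 * (257 * lam) :=
      mul_le_mul hr2 hL2 (by positivity) (by norm_num)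
    have h2 : x ^ 4 * ((r : ℝ) * ((L : ℝ) + 1) * 10 ^ 6) ≤ x ^ 4 * (x * n) := by
      have h3 : x ^ 4 * ((r : ℝ) * ((L : ℝ) + 1) * 10 ^ 6) =
        (x ^ 2 * r) * (x ^ 2 * ((L : ℝ) + 1)) * 10 ^ 6 := by ring
      have h4 : x ^ 4 * (x * n) = x ^ 5 * n := by ring
      rw [h3, h4]
      linarith
    exact le_of_mul_le_mul_left h2 (by positivity)
  have hRn : r * (L + 1) ≤ n := by
    have h1 : ((r * (L + 1) : ℕ) : ℝ) ≤ n := by
      have h2 : x * n ≤ n := by nlinarith
      have h3 : (0 : ℝ) ≤ ((r * (L + 1) : ℕ) : ℝ) := Nat.cast_nonneg _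
      linarith
    exact_mod_cast h1
  obtain ⟨n', hn'⟩ : ∃ n', n' + r * (L + 1) = n := ⟨n - r * (L + 1), Nat.sub_add_cancel hRn⟩
  have hn'c : (n' : ℝ) = n - ((r * (L + 1) : ℕ) : ℝ) := by
    rw [← hn']; push_cast; ring
  have hR6 : ((r * (L + 1) : ℕ) : ℝ) * 10 ^ 6 ≤ n := by
    have : x * n ≤ n := by nlinarith
    linarith
  have hR0' : (0 : ℝ) ≤ ((r * (L + 1) : ℕ) : ℝ) := Nat.cast_nonneg _
  have hn'1 : 0.999999 * (n : ℝ) ≤ n' := by rw [hn'c]; linarith
  have hn'2 : (n' : ℝ) ≤ n := by rw [hn'c]; linarith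
  -- n1
  obtain ⟨n1, hn1d⟩ : ∃ n1 : ℕ, n1 = ⌈x ^ 3 * n / 2 ^ 14⌉₊ := ⟨_, rfl⟩
  have hn11 : x ^ 3 * n ≤ 2 ^ 14 * n1 := by
    have h1 : x ^ 3 * n / 2 ^ 14 ≤ n1 := by rw [hn1d]; exact Nat.le_ceil _
    rw [div_le_iff₀ (by positivity)] at h1
    linarith
  have hn12 : 2 ^ 13 * (n1 : ℝ) ≤ x ^ 3 * n := by
    have h1 : (n1 : ℝ) < x ^ 3 * n / 2 ^ 14 + 1 := by
      rw [hn1d]; exact Nat.ceil_lt_add_one (by positivity)
    have h2 : x ^ 3 * n / 2 ^ 14 * 2 ^ 14 = x ^ 3 * n := by field_simp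
    nlinarith
  have hn13 : 1 ≤ n1 := by
    rcases Nat.eq_zero_or_pos n1 with h | h
    · rw [h, Nat.cast_zero, mul_zero] at hn11
      nlinarith
    · exact h
  have hn1r : (r : ℝ) ≤ n1 := by
    -- 17 u^4 ≤ x^3 n / 2^14
    have h1 : x ^ 3 * n = (x ^ 5 * n) * u ^ 4 := by
      calc x ^ 3 * n = (x * u ^ 2) ^ 2 * (x ^ 3 * n) := by rw [hxu, one_pow, one_mul]
        _ = _ := by ring
    have h2 : (0 : ℝ) ≤ u ^ 4 := by positivity
    have h3 : 9 * 10 ^ 11 * u ^ 4 ≤ x ^ 3 * n := by
      rw [h1]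
      exact mul_le_mul_of_nonneg_right hK1 h2
    nlinarith
  have hn1n' : (n1 : ℝ) ≤ n' := by
    have h1 : x ^ 3 * n ≤ 1 / 8 * n := mul_le_mul_of_nonneg_right hx3 hn0.le
    nlinarith
  -- logs of R0
  have hlogR0 : Real.log (2 ^ 17 * u ^ 8) ≤ 8 * u + 3.8 := by
    rw [Real.log_mul (by positivity) (by positivity), Real.log_pow, Real.log_pow]
    push_cast
    linarith
  have hlogR1 : 0 ≤ Real.log (2 ^ 17 * u ^ 8) := by
    rw [Real.log_mul (by positivity) (by positivity), Real.log_pow, Real.log_pow]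
    push_cast
    linarith
  have hDu : (D : ℝ) ≤ 4 * n * u ^ 2 := by
    have h1 : (D : ℝ) = (D * x) * u ^ 2 := by
      calc (D : ℝ) = D * (x * u ^ 2) := by rw [hxu, mul_one]
        _ = _ := by ring
    rw [h1]
    exact mul_le_mul_of_nonneg_right hD (by positivity)
  have hD0 : (0 : ℝ) ≤ D := Nat.cast_nonneg D
  refine ⟨r, L, n', n1, x ^ 2 * n / 128, 2 ^ 17 * u ^ 8, ?_, hr3, hn', hn13, ?_, ?_, ?_, ?_, ?_, ?_, ?_⟩
  · have : 0 ≤ x ^ 2 := by positivity
    linarith
  · have h1 : r ≤ n1 := by exact_mod_cast hn1r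
    omega
  · exact_mod_cast hn1n'
  · -- exp 1 ≤ R0
    have h1 : Real.exp 1 < 2.7182818286 := Real.exp_one_lt_d9
    have h2 : (1 : ℝ) ≤ u ^ 8 := one_le_pow₀ (by linarith)
    nlinarith
  · -- n1 + D ≤ R0 n1
    push_cast
    have h1 : (1 : ℝ) ≤ u ^ 8 := one_le_pow₀ (by linarith)
    have h2 : 4 * n * u ^ 2 = 4 * (x ^ 3 * n) * u ^ 8 := by
      calc 4 * n * u ^ 2 = 4 * n * u ^ 2 * (x * u ^ 2) ^ 3 := by rw [hxu]; ring
        _ = _ := by ring
    have h3 : 4 * (x ^ 3 * n) * u ^ 8 ≤ 4 * (2 ^ 14 * n1) * u ^ 8 :=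
      mul_le_mul_of_nonneg_right (by linarith) (by positivity)
    have h4 : (n1 : ℝ) ≤ n1 * u ^ 8 := by
      have : (0 : ℝ) ≤ n1 := Nat.cast_nonneg _
      nlinarith
    have h5 : (0 : ℝ) ≤ n1 * u ^ 8 := by positivity
    linarith only [h2, h3, h4, h5, hDu]
  · -- the first log condition
    have hA : Real.log ((n' : ℝ) + D + 1) ≤ 2 * lam := by
      have h1 : (n' : ℝ) + D + 1 ≤ n ^ 2 := by
        have h2 : (n : ℝ) * u ^ 2 * (9 * 10 ^ 11) ≤ n * n := by nlinarith
        have h3 : (n : ℝ) ≤ n * u ^ 2 := by nlinarith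
        nlinarith
      have h4 := Real.log_le_log (by positivity : (0 : ℝ) < (n' : ℝ) + D + 1) h1
      rw [Real.log_pow, ← hl] at h4
      push_cast at h4
      exact h4
    have hB : 2 * (r : ℝ) * Real.log r * Real.log (2 ^ 17 * u ^ 8) ≤ 1700 * u ^ 6 := by
      have h1 : Real.log (2 ^ 17 * u ^ 8) ≤ 12 * u := by
        refine hlogR0.trans ?_
        linarith only [hu1]
      have h2 : 2 * (r : ℝ) * Real.log r ≤ (2 * (17 * u ^ 4)) * (4 * u) :=
        mul_le_mul (by linarith) hlogr hlogr0 (by positivity)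
      have h3 : 2 * (r : ℝ) * Real.log r * Real.log (2 ^ 17 * u ^ 8) ≤
          ((2 * (17 * u ^ 4)) * (4 * u)) * (12 * u) :=
        mul_le_mul h2 h1 hlogR1 (by positivity)
      have h4 : ((2 * (17 * u ^ 4)) * (4 * u)) * (12 * u) = 1632 * u ^ 6 := by ring
      have h5 : (0 : ℝ) ≤ u ^ 6 := by positivity
      linarith
    have hB' : 9 * 10 ^ 11 * u ^ 6 ≤ x ^ 2 * n := by
      have h1 : x ^ 2 * n = (x ^ 5 * n) * u ^ 6 := by
        calc x ^ 2 * n = (x * u ^ 2) ^ 3 * (x ^ 2 * n) := by rw [hxu, one_pow, one_mul]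
          _ = _ := by ring
      rw [h1]
      exact mul_le_mul_of_nonneg_right hK1 (by positivity)
    have hC : (n1 : ℝ) * (1 + Real.log (2 ^ 17 * u ^ 8)) ≤ x ^ 2 * n / 1000 := by
      have h1 : (n1 : ℝ) * (1 + Real.log (2 ^ 17 * u ^ 8)) ≤ n1 * (8 * u + 4.8) :=
        mul_le_mul_of_nonneg_left (by linarith) (Nat.cast_nonneg _)
      have h2 : 2 ^ 13 * (n1 : ℝ) * (8 * u + 4.8) ≤ x ^ 3 * n * (8 * u + 4.8) :=
        mul_le_mul_of_nonneg_right hn12 (by positivity)
      have h3 : x * (8 * u + 4.8) ≤ 8.1 := by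
        have h4 : x * u * 1.41 ≤ 1 := by
          have : x * u * 1.41 ≤ x * u * u := mul_le_mul_of_nonneg_left hu1 (by positivity)
          have h5 : x * u * u = x * u ^ 2 := by ring
          linarith
        nlinarith
      have h6 : x ^ 3 * n * (8 * u + 4.8) = x ^ 2 * n * (x * (8 * u + 4.8)) := by ring
      have h7 : x ^ 2 * n * (x * (8 * u + 4.8)) ≤ x ^ 2 * n * 8.1 :=
        mul_le_mul_of_nonneg_left h3 (by positivity)
      have h8 : 0 ≤ x ^ 2 * n := by positivity
      linarith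
    have h9 : (0 : ℝ) ≤ u ^ 6 := by positivity
    refine (add_le_add (add_le_add hA hB) hC).trans ?_
    linarith only [h9, hB', hK2, hq2, hlam]
  · -- the second log condition
    have hn'p : 1 ≤ n' := by
      have : (0 : ℝ) < n' := by linarith
      exact_mod_cast this
    have hA := log_choose (n' + D) n' hn'p (Nat.le_add_right _ _)
    rw [Nat.choose_symm_add] at hA
    have hn'0 : (0 : ℝ) < n' := by exact_mod_cast hn'p
    have hratio : (((n' + D : ℕ) : ℝ)) / n' ≤ 2 ^ 3 * u ^ 2 := by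
      rw [div_le_iff₀ hn'0]
      push_cast
      have h3 : (n : ℝ) ≤ n * u ^ 2 := by nlinarith
      have h4 : 0.999999 * (n : ℝ) * u ^ 2 ≤ n' * u ^ 2 :=
        mul_le_mul_of_nonneg_right hn'1 (by positivity)
      linarith only [h3, h4, hDu, hn'2, hn'0]
    have hlogratio : Real.log ((((n' + D : ℕ) : ℝ)) / n') ≤ 2.1 + lam / 5 := by
      have h1 := Real.log_le_log (by positivity) hratio
      rw [Real.log_mul (by positivity) (by positivity), Real.log_pow, Real.log_pow] at h1
      push_cast at h1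
      push_cast
      linarith
    have hB : Real.log ((n' + D).choose D : ℝ) ≤ n * (3.1 + lam / 5) := by
      have h1 : (n' : ℝ) * (1 + Real.log ((((n' + D : ℕ) : ℝ)) / n')) ≤ n' * (3.1 + lam / 5) :=
        mul_le_mul_of_nonneg_left (by linarith) hn'0.le
      have h2 : (n' : ℝ) * (3.1 + lam / 5) ≤ n * (3.1 + lam / 5) :=
        mul_le_mul_of_nonneg_right hn'2 (by linarith)
      linarith
    have hC : Real.log r + 1 ≤ n := by
      have hu2' : u ≤ u ^ 2 := by nlinarith only [hu1]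
      linarith only [hlogr, hnu, hu2', hu2]
    have hE : n * lam ≤ (L + 2) * (x ^ 2 * n / 128 / 2) := by
      have h1 : 256 * lam * n ≤ x ^ 2 * L * n := mul_le_mul_of_nonneg_right hL1 hn0.le
      have h2 : 0 ≤ x ^ 2 * n := by positivity
      linarith only [h1, h2]
    have hF : n * (3.1 + lam / 5) + n < n * lam := by
      have h1 : (3.1 + lam / 5) + 1 < lam := by linarith only [hlam]
      have h2 := mul_lt_mul_of_pos_left h1 hn0
      linarith only [h2]
    linarith
  · -- the last condition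
    have hsub : n - n' = r * (L + 1) := by omega
    rw [hsub]
    have h1 : (1 + 2 * x) ^ (r * (L + 1)) ≤ Real.exp (2 * x * ((r * (L + 1) : ℕ) : ℝ)) := by
      have h2 : 1 + 2 * x ≤ Real.exp (2 * x) := by
        have := Real.add_one_le_exp (2 * x)
        linarith
      calc (1 + 2 * x) ^ (r * (L + 1)) ≤ (Real.exp (2 * x)) ^ (r * (L + 1)) :=
            pow_le_pow_left₀ (by positivity) h2 _
        _ = _ := by rw [← Real.exp_nat_mul]; congr 1; ring
    have h3 : Real.exp (x ^ 2 / 64 * n') ≤ (1 + x ^ 2 / 32) ^ n' := by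
      have h4 : Real.exp (x ^ 2 / 32 / 2) ≤ 1 + x ^ 2 / 32 :=
        exp_half _ (by positivity) (by linarith)
      calc Real.exp (x ^ 2 / 64 * n') = (Real.exp (x ^ 2 / 32 / 2)) ^ n' := by
            rw [← Real.exp_nat_mul]; congr 1; ring
        _ ≤ _ := pow_le_pow_left₀ (Real.exp_pos _).le h4 _
    have h5 : (2 : ℝ) ≤ Real.exp 1 := by
      have := Real.add_one_le_exp (1 : ℝ)
      linarith
    have h6 : 1 + 2 * x * ((r * (L + 1) : ℕ) : ℝ) + x ^ 2 * n / 128 ≤ x ^ 2 / 64 * n' := by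
      have h7 : 2 * x * (((r * (L + 1) : ℕ) : ℝ) * 10 ^ 6) ≤ 2 * x * (x * n) :=
        mul_le_mul_of_nonneg_left hR (by positivity)
      have h8 : x ^ 2 * (0.999999 * (n : ℝ)) ≤ x ^ 2 * n' :=
        mul_le_mul_of_nonneg_left hn'1 (by positivity)
      have h9 : 2 * x * (x * n) = 2 * (x ^ 2 * n) := by ring
      rw [h9] at h7
      have h10 : x ^ 2 * (0.999999 * (n : ℝ)) = 0.999999 * (x ^ 2 * n) := by ring
      rw [h10] at h8
      linarith
    calc 2 * (1 + 2 * x) ^ (r * (L + 1))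
        ≤ Real.exp 1 * Real.exp (2 * x * ((r * (L + 1) : ℕ) : ℝ)) :=
          mul_le_mul h5 h1 (by positivity) (Real.exp_pos _).le
      _ = Real.exp (1 + 2 * x * ((r * (L + 1) : ℕ) : ℝ)) := by rw [← Real.exp_add]
      _ ≤ Real.exp (-(x ^ 2 * n / 128) + x ^ 2 / 64 * n') :=
          Real.exp_le_exp.2 (by linarith)
      _ = Real.exp (-(x ^ 2 * n / 128)) * Real.exp (x ^ 2 / 64 * n') := by rw [Real.exp_add]
      _ ≤ _ := mul_le_mul_of_nonneg_left h3 (Real.exp_pos _).le

end FrI
end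

section
/-!
# MP_921642_ag, FI3: module NUMB

Assembly of the numerical conditions in the case `d ≤ n`.
-/
set_option autoImplicit false

namespace FrI

namespace NUMBM

theorem specNUMB (hc : SpecCAPB) (h2 : SpecNUMB2) : SpecNUMB := by
  intro n A e hlog hA hAe hdn hmain
  set lam : ℝ := Real.log n with hlam
  have hn2 : 2 ≤ n := by omega
  have hn3 : 3 ≤ n := by
    by_contra hcon
    have hn : n = 2 := by omega
    have h1 : Real.log (2 : ℝ) ≤ 1 := by
      have := Real.log_le_sub_one_of_pos (show (0 : ℝ) < 2 by norm_num)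
      linarith
    have h3 : lam = Real.log 2 := by rw [hlam, hn]; norm_num
    rw [h3] at hlog
    linarith
  have hAr : (1 : ℝ) ≤ A := by exact_mod_cast hA
  have hAer : (A : ℝ) ≤ e := by exact_mod_cast hAe
  have hnr : (1 : ℝ) ≤ n := by exact_mod_cast (by omega : 1 ≤ n)
  have hn0 : (0 : ℝ) < n := by linarith
  set d : ℝ := (e : ℝ) + A with hd
  have hd0 : 0 < d := by linarith
  have hdcast : ((e + A : ℕ) : ℝ) = d := by push_cast; rfl
  set x : ℝ := (A : ℝ) / d with hx
  have hx0 : 0 < x := div_pos (by linarith) hd0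
  have hxd : x * d = A := by rw [hx]; field_simp
  have hxhalf : x ≤ 1 / 2 := by
    rw [hx, div_le_iff₀ hd0]; linarith
  have hx5 : 10 ^ 9 * lam ^ 2 ≤ x ^ 5 * d := by
    have h5 : 0 < d ^ 5 := by positivity
    have : 10 ^ 9 * lam ^ 2 * d ^ 5 ≤ (x ^ 5 * d) * d ^ 5 := by
      calc 10 ^ 9 * lam ^ 2 * d ^ 5 ≤ (A : ℝ) ^ 5 * ((e : ℝ) + A) := hmain
        _ = (x * d) ^ 5 * d := by rw [hxd]
        _ = (x ^ 5 * d) * d ^ 5 := by ring
    exact le_of_mul_le_mul_right this h5
  have hlam0 : 0 < lam := by linarith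
  have hx1 : x ≤ 1 := by linarith
  have hx5x2 : x ^ 5 ≤ x ^ 2 := by
    calc x ^ 5 = x ^ 2 * x ^ 3 := by ring
      _ ≤ x ^ 2 * 1 := mul_le_mul_of_nonneg_left (pow_le_one₀ hx0.le hx1) (by positivity)
      _ = x ^ 2 := by ring
  have hx2d : 10 ^ 9 * lam ^ 2 ≤ x ^ 2 * d := by
    have h1 : x ^ 5 * d ≤ x ^ 2 * d := mul_le_mul_of_nonneg_right hx5x2 hd0.le
    linarith
  have hx2dbig : (32 : ℝ) ≤ x ^ 2 * d := by nlinarith
  -- the number b
  set y : ℝ := x ^ 2 * d / (128 * lam) with hy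
  have hy128 : y * (128 * lam) = x ^ 2 * d := by
    rw [hy]; field_simp
  have hy1 : 1 ≤ y := by
    rw [hy, le_div_iff₀ (by positivity)]
    nlinarith
  set b : ℕ := ⌊y⌋₊ with hb
  have hb1 : 1 ≤ b := by
    rw [hb]; exact (Nat.one_le_floor_iff y).2 hy1
  have hby : (b : ℝ) ≤ y := Nat.floor_le (by linarith)
  have hyb : y < b + 1 := Nat.lt_floor_add_one y
  have hb1r : (1 : ℝ) ≤ b := by exact_mod_cast hb1
  have hy2b : y ≤ 2 * b := by linarith
  have hyA : y ≤ A / 2 := by
    have : y * (128 * lam) ≤ (A / 2) * (128 * lam) := by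
      rw [hy128]
      have : x ^ 2 * d = x * A := by
        calc x ^ 2 * d = x * (x * d) := by ring
          _ = x * A := by rw [hxd]
      rw [this]
      nlinarith
    exact le_of_mul_le_mul_right this (by positivity)
  have hbA2 : 2 * b ≤ A := by
    have : (2 : ℝ) * b ≤ A := by linarith
    exact_mod_cast this
  obtain ⟨r, L, n', n1, R0, hr256, hr1, hnn', hn2n', hrL, hn11, hrn1, hn1n', hR0, hrest⟩ :=
    h2 n (e + A) x hx0 hxhalf hlog hdn (by rw [hdcast]; exact hx5)
  have hDle : e - b ≤ e + A := by omega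
  obtain ⟨hn1D, hlog1, hlog2⟩ := hrest (e - b) hDle
  rw [hdcast] at hlog1 hlog2
  have hn'n : n' ≤ n := by omega
  refine ⟨1, b, A - b, e - b, n', n1, r, L, x ^ 2 * d / 8, R0, le_refl _, hb1, by omega, by omega,
    by omega, hnn', ?_, by omega, hr1, hn11, hrn1, hn1n', hR0, hn1D, ?_, ?_, ?_⟩
  · have h1 : d ≤ b * (r : ℝ) := by
      have hk : d * (256 * lam) ≤ (b * (r : ℝ)) * (256 * lam) := by
        calc d * (256 * lam) ≤ d * (x ^ 2 * r) := mul_le_mul_of_nonneg_left hr256 hd0.le
          _ = (x ^ 2 * d) * r := by ring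
          _ = (y * (128 * lam)) * r := by rw [hy128]
          _ ≤ ((2 * b) * (128 * lam)) * r := by
              apply mul_le_mul_of_nonneg_right _ (Nat.cast_nonneg _)
              exact mul_le_mul_of_nonneg_right hy2b (by positivity)
          _ = (b * (r : ℝ)) * (256 * lam) := by ring
      exact le_of_mul_le_mul_right hk (by positivity)
    have h3 : (e : ℝ) < b * ((r : ℝ) + 1) := by nlinarith
    exact_mod_cast h3
  · have : x ^ 2 * d / 8 / 2 = x ^ 2 * d / 16 := by ring
    rw [this]; exact hlog1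
  · have : x ^ 2 * d / 8 / 2 = x ^ 2 * d / 16 := by ring
    rw [this]; exact hlog2
  · intro s hs
    have hcap := hc n n' A e b hn3 hn'n hn2n' hA hAe (by omega) (by omega) hdn
    set W : ℝ := -((A : ℝ) ^ 2 / (4 * ((e : ℝ) + A))) + 4 * b * Real.log n +
      2 * A * ((n : ℝ) - n') / n with hW
    have hdiv : (A : ℝ) ^ 2 / (4 * ((e : ℝ) + A)) = x ^ 2 * d / 4 := by
      rw [← hd, div_eq_iff (by positivity), ← hxd]
      ring
    have hb4 : 4 * (b : ℝ) * lam ≤ x ^ 2 * d / 32 := by
      have : (b : ℝ) * (128 * lam) ≤ x ^ 2 * d := by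
        rw [← hy128]; exact mul_le_mul_of_nonneg_right hby (by positivity)
      linarith
    have hsub : (n : ℝ) - n' = ((r * (L + 1) : ℕ) : ℝ) := by
      have : (n : ℝ) = n' + ((r * (L + 1) : ℕ) : ℝ) := by exact_mod_cast hnn'.symm
      linarith
    have h2A : 2 * (A : ℝ) * ((n : ℝ) - n') / n ≤ x ^ 2 * d / 32 := by
      rw [div_le_iff₀ hn0, hsub]
      have h1 : ((r * (L + 1) : ℕ) : ℝ) ≤ x * n / 10 ^ 4 := by
        rw [le_div_iff₀ (by norm_num)]; exact hrL
      calc 2 * (A : ℝ) * ((r * (L + 1) : ℕ) : ℝ) ≤ 2 * (A : ℝ) * (x * n / 10 ^ 4) :=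
            mul_le_mul_of_nonneg_left h1 (by positivity)
        _ = (2 * (x * (A : ℝ)) / 10 ^ 4) * n := by ring
        _ ≤ (x ^ 2 * d / 32) * n := by
            apply mul_le_mul_of_nonneg_right _ hn0.le
            have : x ^ 2 * d = x * A := by
              calc x ^ 2 * d = x * (x * d) := by ring
                _ = x * A := by rw [hxd]
            rw [this]
            have : 0 ≤ x * (A : ℝ) := by positivity
            linarith
    have hlog22 : Real.log 2 ≤ x ^ 2 * d / 32 := by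
      have h1 : Real.log (2 : ℝ) ≤ 1 := by
        have := Real.log_le_sub_one_of_pos (show (0 : ℝ) < 2 by norm_num)
        linarith
      linarith
    have h2W : 2 * Real.exp W ≤ Real.exp (-(x ^ 2 * d / 8)) := by
      have h2e : (2 : ℝ) = Real.exp (Real.log 2) := (Real.exp_log (by norm_num)).symm
      have : 2 * Real.exp W = Real.exp (Real.log 2 + W) := by
        rw [Real.exp_add (Real.log 2) W, Real.exp_log (by norm_num)]
      rw [this]
      apply Real.exp_le_exp.2
      rw [hW, hdiv]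
      have hpos : 0 ≤ x ^ 2 * d := by positivity
      have : 4 * (b : ℝ) * Real.log n ≤ x ^ 2 * d / 32 := hb4
      linarith
    have hE : (0 : ℝ) < ((n + e).choose n : ℝ) := by
      exact_mod_cast Nat.choose_pos (Nat.le_add_right n e)
    have hidx : n' + (e - b) - (A - b) = n' + (e - b) - (A - b) := rfl
    set C1 : ℝ := ((n + e + A).choose n : ℝ) with hC1
    set C0 : ℝ := ((n' + (e - b) - (A - b)).choose n' : ℝ) with hC0
    set E : ℝ := ((n + e).choose n : ℝ) with hEdef
    set F : ℝ := ((n' + (e - b)).choose n' : ℝ) with hF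
    have hC0n : 0 ≤ C0 := Nat.cast_nonneg _
    have hFn : 0 ≤ F := Nat.cast_nonneg _
    have ha : (s * E) * C0 ≤ (2 * C1) * C0 := mul_le_mul_of_nonneg_right hs hC0n
    have hb' : 2 * (C1 * C0) ≤ 2 * (Real.exp W * E * F) := by linarith
    have hEF : 0 ≤ E * F := mul_nonneg hE.le hFn
    have hcc : (2 * Real.exp W) * (E * F) ≤ Real.exp (-(x ^ 2 * d / 8)) * (E * F) :=
      mul_le_mul_of_nonneg_right h2W hEF
    have : (s * C0) * E ≤ (Real.exp (-(x ^ 2 * d / 8)) * F) * E := by nlinarith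
    exact le_of_mul_le_mul_right this hE

end NUMBM

end FrI
end

section
/-!
# MP_921642_ag, FI3: NUMB2, explicit real inequalities (case `d ≤ n`)
-/
set_option autoImplicit false

namespace FrI

theorem NUMB2M.specNUMB2 : SpecNUMB2 := by
  intro n d x hx hx2 hlam hdn hmain
  set lam := Real.log n with hlamdef
  have hlam0 : 0 < lam := by linarith
  have hn0 : (0 : ℝ) < n := by
    by_contra h
    have h1 : (n : ℝ) = 0 := le_antisymm (not_lt.1 h) (Nat.cast_nonneg n)
    rw [hlamdef, h1, Real.log_zero] at hlam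
    linarith
  -- `t = 1/x`
  set t := 1 / x with ht
  have htx : t * x = 1 := by rw [ht]; field_simp
  have ht2 : 2 ≤ t := by
    rw [ht, le_div_iff₀ hx]
    linarith
  have ht0 : 0 < t := by linarith
  -- the logarithm of `t`
  set l := Real.log t with hl
  have hl0 : 0 ≤ l := Real.log_nonneg (by linarith)
  have hlt : l ≤ t := by
    have := Real.log_le_sub_one_of_pos ht0
    linarith
  have hl2 : l ^ 2 ≤ 4 * t := by
    have h1 : Real.log (Real.sqrt t) ≤ Real.sqrt t := by
      have := Real.log_le_sub_one_of_pos (Real.sqrt_pos.2 ht0)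
      linarith
    rw [Real.log_sqrt ht0.le] at h1
    have h2 : l ≤ 2 * Real.sqrt t := by linarith
    have h3 : Real.sqrt t ^ 2 = t := Real.sq_sqrt ht0.le
    have h4 : 0 ≤ Real.sqrt t := Real.sqrt_nonneg t
    nlinarith only [h2, h3, h4, hl0]
  -- `d` is large
  have hd : 10 ^ 9 * lam ^ 2 * t ^ 5 ≤ d := by
    have h1 : t ^ 5 * (x ^ 5 * d) = d := by
      rw [← mul_assoc, ← mul_pow, htx, one_pow, one_mul]
    calc 10 ^ 9 * lam ^ 2 * t ^ 5 = t ^ 5 * (10 ^ 9 * lam ^ 2) := by ring
      _ ≤ t ^ 5 * (x ^ 5 * d) := by gcongr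
      _ = d := h1
  have hx2t : x ^ 2 * t ^ 2 = 1 := by rw [← mul_pow, mul_comm, htx, one_pow]
  have hx3t : x ^ 3 * t ^ 3 = 1 := by rw [← mul_pow, mul_comm, htx, one_pow]
  have hdn' : (d : ℝ) ≤ n := by exact_mod_cast hdn
  have hdpos : (0 : ℝ) < d := lt_of_lt_of_le (by positivity) hd
  -- `x^2 d` and `x^3 d`
  have hx2d : 10 ^ 9 * lam ^ 2 * t ^ 3 ≤ x ^ 2 * d := by
    calc 10 ^ 9 * lam ^ 2 * t ^ 3 = x ^ 2 * (10 ^ 9 * lam ^ 2 * t ^ 5) := by
          have : x ^ 2 * (10 ^ 9 * lam ^ 2 * t ^ 5) = (x ^ 2 * t ^ 2) * (10 ^ 9 * lam ^ 2 * t ^ 3) := by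
            ring
          rw [this, hx2t, one_mul]
      _ ≤ x ^ 2 * d := by gcongr
  have hx3d : 10 ^ 9 * lam ^ 2 * t ^ 2 ≤ x ^ 3 * d := by
    calc 10 ^ 9 * lam ^ 2 * t ^ 2 = x ^ 3 * (10 ^ 9 * lam ^ 2 * t ^ 5) := by
          have : x ^ 3 * (10 ^ 9 * lam ^ 2 * t ^ 5) = (x ^ 3 * t ^ 3) * (10 ^ 9 * lam ^ 2 * t ^ 2) := by
            ring
          rw [this, hx3t, one_mul]
      _ ≤ x ^ 3 * d := by gcongr
  have hlt1 : 30 * 4 ≤ lam * t ^ 2 := by
    have : (4 : ℝ) ≤ t ^ 2 := by nlinarith only [ht2]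
    nlinarith only [this, hlam]
  -- the numbers
  set r := ⌈256 * lam * t ^ 2⌉₊ with hr
  set L := ⌈64 * lam * t ^ 2⌉₊ with hL
  set n1 := ⌈x ^ 3 * d / 2 ^ 12⌉₊ with hn1
  have hr1 : 256 * lam * t ^ 2 ≤ r := Nat.le_ceil _
  have hr2 : (r : ℝ) ≤ 257 * lam * t ^ 2 := by
    have := Nat.ceil_lt_add_one (show 0 ≤ 256 * lam * t ^ 2 by positivity)
    linarith
  have hL1 : 64 * lam * t ^ 2 ≤ L := Nat.le_ceil _
  have hL2 : (L : ℝ) + 1 ≤ 65 * lam * t ^ 2 := by
    have := Nat.ceil_lt_add_one (show 0 ≤ 64 * lam * t ^ 2 by positivity)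
    linarith
  have hn11 : x ^ 3 * d / 2 ^ 12 ≤ n1 := Nat.le_ceil _
  have hbig : (2 : ℝ) ^ 12 ≤ x ^ 3 * d := by
    refine le_trans ?_ hx3d
    nlinarith only [hlt1, hlam]
  have hn12 : (n1 : ℝ) ≤ x ^ 3 * d / 2 ^ 11 := by
    have := Nat.ceil_lt_add_one (show 0 ≤ x ^ 3 * d / 2 ^ 12 by positivity)
    rw [← hn1] at this
    have h2 : x ^ 3 * d / 2 ^ 12 + 1 ≤ x ^ 3 * d / 2 ^ 11 := by
      rw [div_add_one (by norm_num), div_le_div_iff₀ (by norm_num) (by norm_num)]
      nlinarith only [hbig]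
    linarith
  have hr0 : (1 : ℝ) ≤ r := by linarith
  have hr0' : 1 ≤ r := by exact_mod_cast hr0
  have hrL : ((r * (L + 1) : ℕ) : ℝ) * 10 ^ 4 ≤ x * n := by
    have h1 : ((r * (L + 1) : ℕ) : ℝ) ≤ (257 * lam * t ^ 2) * (65 * lam * t ^ 2) := by
      push_cast
      gcongr
    have h2 : 10 ^ 9 * lam ^ 2 * t ^ 4 ≤ x * n := by
      calc 10 ^ 9 * lam ^ 2 * t ^ 4 = x * (10 ^ 9 * lam ^ 2 * t ^ 5) := by
            have : x * (10 ^ 9 * lam ^ 2 * t ^ 5) = (t * x) * (10 ^ 9 * lam ^ 2 * t ^ 4) := by ring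
            rw [this, htx, one_mul]
        _ ≤ x * n := by
            gcongr
            exact hd.trans hdn'
    have h3 : (257 * lam * t ^ 2) * (65 * lam * t ^ 2) * 10 ^ 4 ≤ 10 ^ 9 * lam ^ 2 * t ^ 4 := by
      have : 0 ≤ lam ^ 2 * t ^ 4 := by positivity
      nlinarith only [this]
    calc ((r * (L + 1) : ℕ) : ℝ) * 10 ^ 4 ≤ (257 * lam * t ^ 2) * (65 * lam * t ^ 2) * 10 ^ 4 := by
          gcongr
      _ ≤ _ := h3
      _ ≤ _ := h2
  have hrLn : 2 * (r * (L + 1)) ≤ n := by
    have h1 : ((2 * (r * (L + 1)) : ℕ) : ℝ) ≤ n := by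
      push_cast at hrL ⊢
      nlinarith only [hrL, hx2, hn0, show (0 : ℝ) ≤ r * (L + 1) by positivity]
    exact_mod_cast h1
  obtain ⟨n', hn'⟩ : ∃ n', n' + r * (L + 1) = n := ⟨n - r * (L + 1), by omega⟩
  have hnn' : n ≤ 2 * n' := by omega
  have hn'n : n' ≤ n := by omega
  have hn1pos : 1 ≤ n1 := by
    have : (0 : ℝ) < n1 := lt_of_lt_of_le (by positivity) hn11
    exact_mod_cast this
  have hrn1 : (r : ℝ) ≤ n1 := by
    refine hr2.trans (le_trans ?_ hn11)
    rw [le_div_iff₀ (by norm_num)]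
    refine le_trans ?_ hx3d
    have : 0 ≤ lam * t ^ 2 := by positivity
    nlinarith only [this, hlam]
  have hn1d : (n1 : ℝ) ≤ d / 2 := by
    refine hn12.trans ?_
    have h1 : x ^ 3 ≤ 1 := pow_le_one₀ hx.le (by linarith)
    nlinarith only [h1, hdpos]
  have hn1n' : n1 ≤ n' := by
    have h1 : (n1 : ℝ) ≤ n' := by
      have h2 : (n : ℝ) ≤ 2 * n' := by exact_mod_cast hnn'
      linarith
    exact_mod_cast h1
  have hR0 : Real.exp 1 ≤ 2 ^ 13 * t ^ 3 := by
    have h1 := Real.exp_one_lt_d9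
    have h2 : (8 : ℝ) ≤ t ^ 3 := by
      calc (8 : ℝ) = 2 ^ 3 := by norm_num
        _ ≤ t ^ 3 := by gcongr
    linarith
  have hlog2 := Real.log_two_lt_d9
  have hlog2' := Real.log_two_gt_d9
  have hlogR0 : Real.log (2 ^ 13 * t ^ 3) ≤ 10 + 3 * l := by
    rw [Real.log_mul (by positivity) (by positivity), Real.log_pow, Real.log_pow]
    push_cast
    linarith
  have hlogR00 : 0 ≤ Real.log (2 ^ 13 * t ^ 3) := by
    apply Real.log_nonneg
    have := Real.add_one_le_exp (1 : ℝ)
    linarith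
  have hlogr : Real.log r ≤ 6 + lam + 2 * l := by
    have h1 : Real.log r ≤ Real.log (257 * lam * t ^ 2) :=
      Real.log_le_log (by linarith) hr2
    rw [Real.log_mul (by positivity) (by positivity), Real.log_mul (by norm_num) (by positivity),
      Real.log_pow] at h1
    have h2 : Real.log 257 ≤ 6 := by
      have h3 : Real.log 257 ≤ Real.log (2 ^ 9) := Real.log_le_log (by norm_num) (by norm_num)
      rw [Real.log_pow] at h3
      have : Real.log 257 ≤ 6.24 := by
        push_cast at h3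
        linarith
      have h4 : Real.log 257 = Real.log 256 + Real.log (257 / 256) := by
        rw [← Real.log_mul (by norm_num) (by norm_num)]
        norm_num
      have h5 : Real.log (257 / 256) ≤ 257 / 256 - 1 := Real.log_le_sub_one_of_pos (by norm_num)
      have h6 : Real.log 256 = 8 * Real.log 2 := by
        rw [show (256 : ℝ) = 2 ^ 8 by norm_num, Real.log_pow]
        norm_num
      rw [h4, h6]
      linarith
    have h3 : Real.log lam ≤ lam := by
      have := Real.log_le_sub_one_of_pos hlam0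
      linarith
    push_cast at h1
    linarith
  have hlogr0 : 0 ≤ Real.log r := Real.log_nonneg hr0
  -- the product of the logarithms
  have hprod : Real.log r * Real.log (2 ^ 13 * t ^ 3) ≤ 100 * (lam * t) := by
    have h1 : Real.log r * Real.log (2 ^ 13 * t ^ 3) ≤ (6 + lam + 2 * l) * (10 + 3 * l) := by
      gcongr
    refine h1.trans ?_
    have h2 : l * lam ≤ t * lam := by gcongr
    have h3 : 60 ≤ lam * t := by nlinarith only [hlam, ht2]
    have h4 : t ≤ lam * t := by nlinarith only [hlam, ht2]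
    have h5 : lam ≤ lam * t := by nlinarith only [hlam, ht2]
    nlinarith only [h2, h3, h4, h5, hlt, hl2]
  refine ⟨r, L, n', n1, 2 ^ 13 * t ^ 3, ?_, hr0', hn', hnn', hrL, hn1pos, ?_, hn1n', hR0, ?_⟩
  · calc 256 * lam = x ^ 2 * (256 * lam * t ^ 2) := by
          have : x ^ 2 * (256 * lam * t ^ 2) = (x ^ 2 * t ^ 2) * (256 * lam) := by ring
          rw [this, hx2t, one_mul]
      _ ≤ x ^ 2 * r := by gcongr
  · have : r ≤ n1 := by exact_mod_cast hrn1
    omega
  · intro D hD
    have hD' : (D : ℝ) ≤ d := by exact_mod_cast hD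
    refine ⟨?_, ?_, ?_⟩
    · -- n1 + D ≤ R0 n1
      have h1 : (d : ℝ) ≤ 2 ^ 12 * t ^ 3 * n1 := by
        have h2 : x ^ 3 * d ≤ 2 ^ 12 * n1 := by
          rw [div_le_iff₀ (by norm_num)] at hn11
          linarith
        calc (d : ℝ) = t ^ 3 * (x ^ 3 * d) := by
              rw [← mul_assoc, mul_comm (t ^ 3), hx3t, one_mul]
          _ ≤ t ^ 3 * (2 ^ 12 * n1) := by gcongr
          _ = _ := by ring
      have h3 : (n1 : ℝ) ≤ 2 ^ 12 * t ^ 3 * n1 := by
        have h4 : (1 : ℝ) ≤ 2 ^ 12 * t ^ 3 := by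
          have : (1 : ℝ) ≤ t ^ 3 := one_le_pow₀ (by linarith)
          linarith
        have h5 : (0 : ℝ) ≤ n1 := Nat.cast_nonneg _
        nlinarith only [h4, h5]
      push_cast
      nlinarith only [h1, h3, hD']
    · -- the first sum
      have ha : Real.log ((n' : ℝ) + D + 1) ≤ x ^ 2 * d / 64 := by
        have h1 : (n' : ℝ) + D + 1 ≤ (n : ℝ) ^ 2 := by
          have h2 : (n' : ℝ) ≤ n := by exact_mod_cast hn'n
          have h3 : (3 : ℝ) ≤ n := by
            have : 10 ^ 9 * lam ^ 2 * t ^ 5 ≤ n := hd.trans hdn'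
            refine le_trans ?_ this
            have h4 : (1 : ℝ) ≤ t ^ 5 := one_le_pow₀ (by linarith)
            nlinarith only [h4, hlam, mul_le_mul hlam hlam (by norm_num) hlam0.le]
          nlinarith only [h2, h3, hD', hdn']
        have h2 : Real.log ((n' : ℝ) + D + 1) ≤ 2 * lam := by
          have h3 : Real.log ((n' : ℝ) + D + 1) ≤ Real.log ((n : ℝ) ^ 2) :=
            Real.log_le_log (by positivity) h1
          rw [Real.log_pow] at h3
          push_cast at h3
          exact h3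
        refine h2.trans ?_
        rw [le_div_iff₀ (by norm_num)]
        refine le_trans ?_ hx2d
        have h4 : (1 : ℝ) ≤ t ^ 3 := one_le_pow₀ (by linarith)
        have h5 : lam ≤ lam ^ 2 * t ^ 3 := by
          have : lam ≤ lam ^ 2 := by nlinarith only [hlam]
          have h6 : 0 ≤ lam ^ 2 := by positivity
          nlinarith only [this, h6, h4]
        nlinarith only [h5, hlam0]
      have hb : 2 * r * Real.log r * Real.log (2 ^ 13 * t ^ 3) ≤ x ^ 2 * d / 64 := by
        have h1 : 2 * r * Real.log r * Real.log (2 ^ 13 * t ^ 3) ≤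
            2 * (257 * lam * t ^ 2) * (100 * (lam * t)) := by
          calc 2 * r * Real.log r * Real.log (2 ^ 13 * t ^ 3) =
              2 * r * (Real.log r * Real.log (2 ^ 13 * t ^ 3)) := by ring
            _ ≤ 2 * (257 * lam * t ^ 2) * (100 * (lam * t)) := by
                gcongr
        refine h1.trans ?_
        rw [le_div_iff₀ (by norm_num)]
        refine le_trans ?_ hx2d
        have : 0 ≤ lam ^ 2 * t ^ 3 := by positivity
        nlinarith only [this]
      have hc : n1 * (1 + Real.log (2 ^ 13 * t ^ 3)) ≤ x ^ 2 * d / 64 := by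
        have h1 : n1 * (1 + Real.log (2 ^ 13 * t ^ 3)) ≤ (x ^ 3 * d / 2 ^ 11) * (11 + 3 * l) := by
          have h0 : 1 + Real.log (2 ^ 13 * t ^ 3) ≤ 11 + 3 * l := by linarith
          exact mul_le_mul hn12 h0 (by linarith) (by positivity)
        refine h1.trans ?_
        have h2 : x * (11 + 3 * l) ≤ 9 := by
          have : x * l ≤ x * t := by gcongr
          rw [mul_comm x t, htx] at this
          nlinarith only [this, hx2]
        calc (x ^ 3 * d / 2 ^ 11) * (11 + 3 * l) = (x ^ 2 * d / 2 ^ 11) * (x * (11 + 3 * l)) := by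
              ring
          _ ≤ (x ^ 2 * d / 2 ^ 11) * 9 := by gcongr
          _ ≤ x ^ 2 * d / 64 := by
              have : 0 ≤ x ^ 2 * d := by positivity
              linarith
      have hpos : 0 ≤ x ^ 2 * d := by positivity
      linarith
    · -- the second sum
      have h1 : Real.log ((n' + D).choose D : ℝ) ≤ d * (lam + 1) := by
        have h2 : ((n' + D).choose D : ℝ) ≤ ((2 * n : ℕ) : ℝ) ^ D := by
          have h3 : (n' + D).choose D ≤ (n' + D) ^ D := Nat.choose_le_pow _ _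
          have h4 : (n' + D) ^ D ≤ (2 * n) ^ D := Nat.pow_le_pow_left (by omega) _
          exact_mod_cast h3.trans h4
        have h5 : (0 : ℝ) < ((n' + D).choose D : ℝ) := by
          exact_mod_cast Nat.choose_pos (Nat.le_add_left _ _)
        have h6 := Real.log_le_log h5 h2
        rw [Real.log_pow] at h6
        have h7 : Real.log ((2 * n : ℕ) : ℝ) ≤ lam + 1 := by
          push_cast
          rw [Real.log_mul (by norm_num) hn0.ne']
          linarith
        have h8 : (0 : ℝ) ≤ lam + 1 := by linarith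
        calc Real.log ((n' + D).choose D : ℝ) ≤ D * Real.log ((2 * n : ℕ) : ℝ) := h6
          _ ≤ D * (lam + 1) := by gcongr
          _ ≤ d * (lam + 1) := by gcongr
      have h2 : Real.log r + 1 ≤ d := by
        have h3 := Real.log_le_sub_one_of_pos (show (0 : ℝ) < r by linarith)
        linarith
      have h3 : 4 * lam * d ≤ (L + 2) * (x ^ 2 * d / 16) := by
        calc 4 * lam * d = (64 * lam * t ^ 2) * (x ^ 2 * d / 16) := by
              have : (64 * lam * t ^ 2) * (x ^ 2 * d / 16) = (x ^ 2 * t ^ 2) * (4 * lam * d) := by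
                ring
              rw [this, hx2t, one_mul]
          _ ≤ (L + 2) * (x ^ 2 * d / 16) := by
              gcongr
              linarith
      refine lt_of_lt_of_le ?_ h3
      nlinarith only [h1, h2, hdpos, hlam, mul_le_mul_of_nonneg_right hlam hdpos.le]

end FrI
end

section
/-! # Module OM: the weights -/
set_option autoImplicit false

namespace FrI

namespace OMM

lemma ch_pos (n D : ℕ) : (0 : ℝ) < ((n + D).choose n : ℝ) := by
  exact_mod_cast Nat.choose_pos (Nat.le_add_right n D)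

lemma eq_of_le {n D α : ℕ} (h : α ≤ D) :
    om n D α = ((n + (D - α)).choose n : ℝ) / ((n + D).choose n : ℝ) := by
  rw [om, if_pos h, Nat.add_sub_assoc h]

/-- `choose (n + 1 + k) (n + 1) * (n + 1) = choose (n + k) n * (n + 1 + k)` -/
lemma ch_n (n k : ℕ) : ((n + 1 + k).choose (n + 1) : ℝ) * (n + 1) =
    ((n + k).choose n : ℝ) * (n + 1 + k) := by
  have h := Nat.add_one_mul_choose_eq (n + k) n
  have h2 : n + 1 + k = n + k + 1 := by omega
  rw [h2]
  have h3 : (((n + k + 1) * (n + k).choose n : ℕ) : ℝ) = (((n + k + 1).choose (n + 1) * (n + 1) : ℕ) : ℝ) := by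
    exact_mod_cast h
  push_cast at h3 ⊢
  linarith

/-- `choose (n + k + 1) n * (k + 1) = choose (n + k) n * (n + k + 1)` -/
lemma ch_k (n k : ℕ) : ((n + (k + 1)).choose n : ℝ) * (k + 1) =
    ((n + k).choose n : ℝ) * (n + k + 1) := by
  have h := Nat.add_one_mul_choose_eq (n + k) k
  have h1 : (n + k).choose k = (n + k).choose n := by
    rw [add_comm n k]
    exact Nat.choose_symm_add
  have h2 : (n + k + 1).choose (k + 1) = (n + k + 1).choose n := by
    have := Nat.choose_symm_add (a := k + 1) (b := n)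
    rw [show n + k + 1 = k + 1 + n by omega]
    exact this
  rw [h1, h2] at h
  have h3 : (((n + k + 1) * (n + k).choose n : ℕ) : ℝ) = (((n + k + 1).choose n * (k + 1) : ℕ) : ℝ) := by
    exact_mod_cast h
  rw [show n + (k + 1) = n + k + 1 by omega]
  push_cast at h3 ⊢
  linarith

end OMM

open OMM in
theorem OMM.specOM : SpecOM where
  nonneg n D α := by
    rw [om]
    split_ifs
    · positivity
    · exact le_rfl
  le_one n D α := by
    by_cases h : α ≤ D
    · rw [eq_of_le h, div_le_one (ch_pos n D)]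
      exact_mod_cast Nat.choose_le_choose n (by omega)
    · rw [om, if_neg h]
      exact zero_le_one
  zero n D := by
    rw [eq_of_le (Nat.zero_le D), Nat.sub_zero, div_self (ch_pos n D).ne']
  big n D α h := by rw [om, if_neg (by omega)]
  low n D α h := by
    rw [eq_of_le h, mul_div_cancel₀ _ (ch_pos n D).ne']
    exact_mod_cast Nat.choose_pos (Nat.le_add_right n (D - α))
  tr n D α hn hD h := by
    obtain ⟨n, rfl⟩ : ∃ k, n = k + 1 := ⟨n - 1, by omega⟩
    obtain ⟨e, rfl⟩ : ∃ e, D = α + e := ⟨D - α, by omega⟩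
    rw [eq_of_le h, eq_of_le h, Nat.add_sub_cancel, Nat.add_sub_cancel_left]
    have h1 := ch_n n e
    have h2 := ch_n n (α + e)
    have p1 := ch_pos n e
    have p2 := ch_pos n (α + e)
    have p3 := ch_pos (n + 1) e
    have p4 := ch_pos (n + 1) (α + e)
    have hn0 : (0 : ℝ) ≤ n := Nat.cast_nonneg n
    have he0 : (0 : ℝ) ≤ e := Nat.cast_nonneg e
    have q1 : ((n : ℝ) + 1 + (α + e) - α) ≠ 0 := by
      have : ((n : ℝ) + 1 + (α + e) - α) = n + 1 + e := by ring
      rw [this]
      positivity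
    push_cast at h1 h2 q1 ⊢
    rw [div_mul_div_comm, div_eq_div_iff p2.ne' (mul_ne_zero q1 p4.ne')]
    have e1 : ((n : ℝ) + 1 + (α + e) - α) = n + 1 + e := by ring
    rw [e1]
    have hn1 : ((n : ℝ) + 1) ≠ 0 := by positivity
    apply mul_left_cancel₀ hn1
    have e2 : ((n : ℝ) + 1) * (((n + e).choose n : ℝ) * ((n + 1 + e) * ((n + 1 + (α + e)).choose (n + 1) : ℝ))) =
        (((n + e).choose n : ℝ) * (n + 1 + e)) * (((n + 1 + (α + e)).choose (n + 1) : ℝ) * (n + 1)) := by ring
    rw [e2, ← h1, h2]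
    ring
  res n D α hn hD h := by
    obtain ⟨D, rfl⟩ : ∃ k, D = k + 1 := ⟨D - 1, by omega⟩
    rw [Nat.add_sub_cancel]
    have hn0 : (0 : ℝ) < n := by exact_mod_cast hn
    rcases Nat.lt_or_ge D α with h1 | h1
    · have h2 : α = D + 1 := by omega
      subst h2
      rw [om, if_neg (by omega)]
      have : (1 - (n : ℝ) / ((D + 1 : ℕ) : ℝ) * (((n : ℝ) + ((D + 1 : ℕ) : ℝ)) /
          ((n : ℝ) + ((D + 1 : ℕ) : ℝ) - ((D + 1 : ℕ) : ℝ)) - 1)) = 0 := by
        have h3 : ((D + 1 : ℕ) : ℝ) ≠ 0 := by positivity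
        rw [add_sub_cancel_right]
        field_simp
        ring
      rw [this, zero_mul]
    · obtain ⟨e, rfl⟩ : ∃ e, D = α + e := ⟨D - α, by omega⟩
      rw [eq_of_le h1, eq_of_le h, Nat.add_sub_cancel_left, show α + e + 1 - α = e + 1 by omega]
      have g1 := ch_k n e
      have g2 := ch_k n (α + e)
      have p1 := ch_pos n e
      have p2 := ch_pos n (α + e)
      have p3 := ch_pos n (e + 1)
      have p4 := ch_pos n (α + e + 1)
      have he0 : (0 : ℝ) ≤ e := Nat.cast_nonneg e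
      have ha0 : (0 : ℝ) ≤ α := Nat.cast_nonneg α
      have e0 : ((n : ℝ) + ((α + e + 1 : ℕ) : ℝ) - α) = n + e + 1 := by push_cast; ring
      rw [e0]
      have e1 : (1 - (n : ℝ) / ((α + e + 1 : ℕ) : ℝ) * (((n : ℝ) + ((α + e + 1 : ℕ) : ℝ)) /
          (n + e + 1) - 1)) = ((e + 1) * (n + α + e + 1)) / ((α + e + 1) * (n + e + 1)) := by
        have h3 : ((α : ℝ) + e + 1) ≠ 0 := by positivity
        have h4 : ((n : ℝ) + e + 1) ≠ 0 := by positivity
        push_cast
        field_simp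
        ring
      rw [e1]
      have e2 : ((n + (e + 1)).choose n : ℝ) = ((n + e).choose n : ℝ) * (n + e + 1) / (e + 1) := by
        rw [eq_div_iff (by positivity)]
        exact g1
      have e3 : ((n + (α + e + 1)).choose n : ℝ) =
          ((n + (α + e)).choose n : ℝ) * (n + α + e + 1) / (α + e + 1) := by
        rw [eq_div_iff (by positivity)]
        push_cast at g2
        linarith
      rw [e2, e3]
      have h3 : ((α : ℝ) + e + 1) ≠ 0 := by positivity
      have h4 : ((n : ℝ) + e + 1) ≠ 0 := by positivity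
      have h5 : ((n : ℝ) + α + e + 1) ≠ 0 := by positivity
      have h6 : ((e : ℝ) + 1) ≠ 0 := by positivity
      have h7 := p2.ne'
      have h8 := p1.ne'
      field_simp
  res1 n D α hn hD hα h := by
    obtain ⟨D, rfl⟩ : ∃ k, D = k + 1 := ⟨D - 1, by omega⟩
    obtain ⟨α, rfl⟩ : ∃ k, α = k + 1 := ⟨α - 1, by omega⟩
    rw [Nat.add_sub_cancel, Nat.add_sub_cancel, eq_of_le h, eq_of_le (by omega : α ≤ D),
      show D + 1 - (α + 1) = D - α by omega]
    have g1 := ch_k n D
    have p1 := ch_pos n D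
    have p2 := ch_pos n (D + 1)
    have hn0 : (0 : ℝ) < n := by exact_mod_cast hn
    have h3 : ((D : ℝ) + 1) ≠ 0 := by positivity
    have e3 : ((n + (D + 1)).choose n : ℝ) = ((n + D).choose n : ℝ) * (n + D + 1) / (D + 1) := by
      rw [eq_div_iff (by positivity)]
      exact g1
    rw [e3]
    have h7 := p1.ne'
    have h8 : ((n : ℝ) + D + 1) ≠ 0 := by positivity
    push_cast
    field_simp
    ring

end FrI
end
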