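import Pool.Agent.Lib.MP_921642_ag.FI.Spec

/-!
# MP_921642_ag, FI: sub-specifications

Smaller modules used in the proofs of HOR, POT, BRI, TRANS, SEMI, CAP and of ST1-ST4.
-/

set_option autoImplicit false

namespace FrI

open MvPolynomial Pool.Agent.Lib.MP_921642_ag

/-! ### HOR = HORW + HORE + genericity -/

/-- setting `x_0 = 0` -/
noncomputable def rs (N : ℕ) : Po (N + 1) →ₐ[ℂ] Po N := aeval (Fin.cons 0 X)

/-- restricted matrices -/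
noncomputable def barX {N r s L : ℕ} (M : Mat (N + 1) r s L) : Mat N r s L :=
  fun t i l => rs N (M t i l)

/-- multiply the rows `T` of the group `t0` by `x_0` -/
noncomputable def wX {N r s L : ℕ} (M : Mat (N + 1) r s L) (t0 : Fin r) (T : Finset (Fin s)) :
    Mat (N + 1) r s L :=
  fun t i l => if t = t0 ∧ i ∈ T then (X 0 : Po (N + 1)) * M t i l else M t i l

/-- residual degrees -/
def resd {r s : ℕ} (a : Fin r → Fin s → ℕ) (t0 : Fin r) (T : Finset (Fin s)) : Fin r → Fin s → ℕ :=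
  fun t i => if t = t0 ∧ i ∈ T then a t i - 1 else a t i

/-- HORW: part (1) of HOR (see the docstring of SpecHOR).  No homogeneity of `M` is needed. -/
def SpecHORW : Prop := ∀ (N L r s q : ℕ) (a : Fin r → Fin s → ℕ) (u : Fin q → Fin r)
  (I : Fin r → Finset (Fin s)) (t0 : Fin r) (T : Finset (Fin s)) (M : Mat (N + 1) r s L),
  (∀ i ∈ T, 1 ≤ a t0 i) →
  (Module.finrank ℂ (WD (barX M) a u (Function.update I t0 (I t0 \ T)) 0) ≤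
    Module.finrank ℂ (WD (wX M t0 T) a u I 0)) ∧
  ∀ D : ℕ, Module.finrank ℂ (WD M (resd a t0 T) u I D) +
    Module.finrank ℂ (WD (barX M) a u (Function.update I t0 (I t0 \ T)) (D + 1 : ℕ)) ≤
      Module.finrank ℂ (WD (wX M t0 T) a u I (D + 1 : ℕ))

/-- HORE: part (2) of HOR (see the docstring of SpecHOR), and the same for the forms. -/
def SpecHORE : Prop := (∀ (N L r s q : ℕ) (a : Fin r → Fin s → ℕ) (u : Fin q → Fin r)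
  (I : Fin r → Finset (Fin s)) (t0 : Fin r) (T : Finset (Fin s)), Function.Injective u →
  (∀ i ∈ T, 1 ≤ a t0 i) →
  (expc (N + 1) L a u I 0 = expc N L a u (Function.update I t0 (I t0 \ T)) 0) ∧
  ∀ D : ℕ, expc (N + 1) L a u I (D + 1) = expc (N + 1) L (resd a t0 T) u I D +
    expc N L a u (Function.update I t0 (I t0 \ T)) (D + 1)) ∧
  (∀ N : ℕ, Module.finrank ℂ (V (Fin (N + 1)) 0) = Module.finrank ℂ (V (Fin N) 0)) ∧
  (∀ N D : ℕ, Module.finrank ℂ (V (Fin (N + 1)) (D + 1)) =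
    Module.finrank ℂ (V (Fin (N + 1)) D) + Module.finrank ℂ (V (Fin N) (D + 1)))

/-- HORG (hypotheses SpecHORW, SpecHORE): part (3) of HOR, the generic choice, and HOR itself. -/
def SpecHORG : Prop := SpecHOR

/-! ### POT = OM + STEP + induction -/

/-- OM.  Identities and bounds for the weights (see the docstring of SpecPOT). -/
structure SpecOM : Prop where
  nonneg : ∀ n D α : ℕ, 0 ≤ om n D α
  le_one : ∀ n D α : ℕ, om n D α ≤ 1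
  zero : ∀ n D : ℕ, om n D 0 = 1
  big : ∀ n D α : ℕ, D < α → om n D α = 0
  low : ∀ n D α : ℕ, α ≤ D → 1 ≤ ((n + D).choose n : ℝ) * om n D α
  tr : ∀ n D α : ℕ, 1 ≤ n → 1 ≤ D → α ≤ D →
    om (n - 1) D α = (((n : ℝ) + D) / ((n : ℝ) + D - α)) * om n D α
  res : ∀ n D α : ℕ, 1 ≤ n → 1 ≤ D → α ≤ D →
    om n (D - 1) α = (1 - ((n : ℝ) / D) * (((n : ℝ) + D) / ((n : ℝ) + D - α) - 1)) * om n D α
  res1 : ∀ n D α : ℕ, 1 ≤ n → 1 ≤ D → 1 ≤ α → α ≤ D →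
    om n (D - 1) (α - 1) = (1 + (n : ℝ) / D) * om n D α

/-- STEP (hypothesis SpecOM).  One move of the fractional game: STEP in the docstring of SpecPOT. -/
def SpecSTEP : Prop := ∀ (r : ℕ) (γ R0 : ℝ), 1 ≤ r → 0 < γ → γ ≤ 1 → 1 ≤ R0 →
  ((r : ℝ) - 1) * (R0 ^ γ - 1) ≤ 1 → ∀ (A n D : ℕ) (μ : Fin r → ℕ → ℝ), 1 ≤ n → 1 ≤ D →
  ((n + D : ℕ) : ℝ) ≤ R0 * n → (∀ t α, 0 ≤ μ t α) → (∀ t α, A < α → μ t α = 0) →
  ∃ (t0 : Fin r) (p : ℕ → ℝ), p 0 = 1 ∧ (∀ α, 0 ≤ p α ∧ p α ≤ 1) ∧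
    (∑ t, (load (n - 1) D A (fun α => if t = t0 then p α * μ t α else μ t α)) ^ γ ≤
      ∑ t, (load n D A (μ t)) ^ γ) ∧
    (∑ t, (load n (D - 1) A (fun α => if t = t0 then p α * μ t α + (1 - p (α + 1)) * μ t (α + 1)
        else μ t α)) ^ γ ≤ ∑ t, (load n D A (μ t)) ^ γ) ∧
    (1 - p 1) * μ t0 1 ≤ (∑ t, (load n D A (μ t)) ^ γ) ^ (1 / γ)

/-- POTI (hypotheses SpecOM, SpecSTEP): the induction in the docstring of SpecPOT. -/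
def SpecPOTI : Prop := SpecPOT

/-! ### Common facts for ST1-ST4 (all of them routine) -/

/-- FB.  Linearity and commutation. -/
structure SpecFB : Prop where
  F_add : ∀ {r k L : ℕ} {a : ℤ} (𝒞 : Sys r k L a) (Vs : List (Fin r)) (i : Fin k)
    (g h : Mo r L → 𝒞.C), F 𝒞 Vs i (g + h) = F 𝒞 Vs i g + F 𝒞 Vs i h
  F_smul : ∀ {r k L : ℕ} {a : ℤ} (𝒞 : Sys r k L a) (Vs : List (Fin r)) (i : Fin k) (c : ℂ)
    (g : Mo r L → 𝒞.C), F 𝒞 Vs i (c • g) = c • F 𝒞 Vs i g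
  F_comm : ∀ {r k L : ℕ} {a : ℤ} (𝒞 : Sys r k L a) (Vs : List (Fin r)) (i m : Fin k)
    (g : Mo r L → 𝒞.C), F 𝒞 Vs i (F 𝒞 Vs m g) = F 𝒞 Vs m (F 𝒞 Vs i g)
  F_X : ∀ {r k L : ℕ} {a : ℤ} (𝒞 : Sys r k L a) (Vs : List (Fin r)) (m : Fin k) (t : Fin r)
    (i : Fin k) (l : Fin (L + 1)) (g : Mo r L → 𝒞.C),
    F 𝒞 Vs m (fun κ => 𝒞.X t i l (g κ)) = fun κ => 𝒞.X t i l (F 𝒞 Vs m g κ)
  /-- Koszul relations: antisymmetric combinations vanish -/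
  F_anti : ∀ {r k L : ℕ} {a : ℤ} (𝒞 : Sys r k L a) (Vs : List (Fin r))
    (c : Fin k → Fin k → (Mo r L → 𝒞.C)), (∀ i m, c i m = - c m i) →
    ∑ m, F 𝒞 Vs m (∑ n, F 𝒞 Vs n (c m n)) = 0
  /-- splitting off the group `t` -/
  F_cons : ∀ {r k L : ℕ} {a : ℤ} (𝒞 : Sys r k L a) (t : Fin r) (Vs : List (Fin r)) (i : Fin k)
    (g : Mo r L → 𝒞.C) (κ : Mo r L), t ∉ Vs →
    F 𝒞 (t :: Vs) i g κ = (∑ l, if κ t l ≠ 0 then 𝒞.X t i l (g (dn t l κ)) else 0) + F 𝒞 Vs i g κ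
  InE_zero : ∀ {r k L : ℕ} {a : ℤ} (𝒞 : Sys r k L a) (Vs : List (Fin r)) (μ j : ℤ),
    InE 𝒞 Vs μ j 0
  InE_add : ∀ {r k L : ℕ} {a : ℤ} (𝒞 : Sys r k L a) (Vs : List (Fin r)) (μ j : ℤ)
    (g h : Mo r L → 𝒞.C), InE 𝒞 Vs μ j g → InE 𝒞 Vs μ j h → InE 𝒞 Vs μ j (g + h)
  InE_smul : ∀ {r k L : ℕ} {a : ℤ} (𝒞 : Sys r k L a) (Vs : List (Fin r)) (μ j : ℤ) (c : ℂ)
    (g : Mo r L → 𝒞.C), InE 𝒞 Vs μ j g → InE 𝒞 Vs μ j (c • g)
  InE_F : ∀ {r k L : ℕ} {a : ℤ} (𝒞 : Sys r k L a) (Vs : List (Fin r)) (μ j : ℤ) (m : Fin k)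
    (g : Mo r L → 𝒞.C), InE 𝒞 Vs μ j g → InE 𝒞 Vs (μ + 1) (j + a) (F 𝒞 Vs m g)
  InE_X : ∀ {r k L : ℕ} {a : ℤ} (𝒞 : Sys r k L a) (Vs : List (Fin r)) (μ j : ℤ) (t : Fin r)
    (i : Fin k) (l : Fin (L + 1)) (g : Mo r L → 𝒞.C), InE 𝒞 Vs μ j g →
    InE 𝒞 Vs μ (j + a) (fun κ => 𝒞.X t i l (g κ))
  InE_neg_deg : ∀ {r k L : ℕ} {a : ℤ} (𝒞 : Sys r k L a) (Vs : List (Fin r)) (μ j : ℤ)
    (g : Mo r L → 𝒞.C), μ < 0 → InE 𝒞 Vs μ j g → g = 0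

/-! ### BRI = BRK + BRT + induction -/

/-- the part of degree `j` -/
noncomputable def Sys.gr {r k L : ℕ} {a : ℤ} (𝒞 : Sys r k L a) (j : ℤ) : Submodule ℂ 𝒞.C :=
  LinearMap.range (𝒞.π j)

/-- iterated cokernels -/
noncomputable def cokL {r k L : ℕ} {a : ℤ} (𝒞 : Sys r k L a) : List (Fin r) → Sys r k L a
  | [] => 𝒞
  | t :: us => (cokL 𝒞 us).cok t

/-- BRK.  First part of the docstring of SpecBRI: `mk_us`, its kernel, and the dimension of the degree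
`j` part of the iterated cokernels. -/
def SpecBRK : Prop := ∀ (N r s L a : ℕ) (M : Mat N r s L) (hM : ∀ t i l, M t i l ∈ V (Fin N) a)
  (k : ℕ) (hk : k ≤ s) (us : List (Fin r)),
  (∀ j : ℤ, j < 0 → (cokL (PS N r k L a (fun t i l => M t (Fin.castLE hk i) l)
    (fun _ _ _ => hM _ _ _)) us).gr j = ⊥) ∧
  ∀ j : ℕ, FiniteDimensional ℂ ((cokL (PS N r k L a (fun t i l => M t (Fin.castLE hk i) l)
    (fun _ _ _ => hM _ _ _)) us).gr j) ∧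
    Module.finrank ℂ ((cokL (PS N r k L a (fun t i l => M t (Fin.castLE hk i) l)
      (fun _ _ _ => hM _ _ _)) us).gr j) +
    Module.finrank ℂ (WD M (fun _ _ => a) us.get
      (fun _ => Finset.univ.filter (fun i : Fin s => (i : ℕ) < k)) j) =
    (L + 1) ^ us.length * Module.finrank ℂ (V (Fin N) j)

/-- BRT.  `Θ : (gr j)^k → (gr (j+a))^{L+1}`, `u ↦ (∑_i X t i l u_i)_l`; the degree `j + a` part of the cokernel
`𝒞.cok t` is `(gr (j+a))^{L+1} / range Θ` (an element of `range (rel t)` whose entries have degree `j + a`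
is `Θ` of the degree `j` parts).  So `dim ker Θ + (L+1) dim gr (j+a) = k dim gr j + dim gr' (j+a)`. -/
def SpecBRT : Prop := ∀ (r k L : ℕ) (a : ℤ) (𝒞 : Sys r k L a) (t : Fin r) (j : ℤ),
  FiniteDimensional ℂ (𝒞.gr j) → FiniteDimensional ℂ (𝒞.gr (j + a)) →
  FiniteDimensional ℂ ((𝒞.cok t).gr (j + a)) ∧
  (L + 1) * Module.finrank ℂ (𝒞.gr (j + a)) ≤
    k * Module.finrank ℂ (𝒞.gr j) + Module.finrank ℂ ((𝒞.cok t).gr (j + a)) ∧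
  (k * Module.finrank ℂ (𝒞.gr j) + Module.finrank ℂ ((𝒞.cok t).gr (j + a)) ≤
    (L + 1) * Module.finrank ℂ (𝒞.gr (j + a)) →
    ∀ u : Fin k → 𝒞.C, (∀ i, 𝒞.π j (u i) = u i) → (∀ l, ∑ i, 𝒞.X t i l (u i) = 0) → u = 0)

/-- BRIG (hypotheses SpecBRK, SpecBRT): the end of the docstring of SpecBRI. -/
def SpecBRIG : Prop := SpecBRI

/-! ### TRANS = ASM + ASF + assembly -/

/-- remainders of the exponents -/
abbrev Rem (N r L q b : ℕ) : Type := (Fin N → Fin q) × (Fin r × Fin (L + 1) → Fin b)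

/-- sum of the remainders -/
def Rem.deg {N r L q b : ℕ} (ρ : Rem N r L q b) : ℕ := ∑ v, (ρ.1 v : ℕ) + ∑ x, (ρ.2 x : ℕ)

/-- the monomials of degree `μ` in the variables `Y t l` -/
def Ms (r L μ : ℕ) : Finset (Mo r L) :=
  (Fintype.piFinset (fun _ => Fintype.piFinset (fun _ => Finset.range (μ + 1)))).filter
    (fun κ => tdeg κ = μ)

/-- `x^ρ y^ρ ∑_κ G(κ)(x^q) y^{b κ}`, the sum over `|κ| = μ` -/
noncomputable def asm {N r L q b : ℕ} (ρ : Rem N r L q b) (μ : ℕ) (G : Mo r L → Po N) :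
    MvPolynomial (Fin N ⊕ (Fin r × Fin (L + 1))) ℂ :=
  (∏ v, (X (Sum.inl v) : MvPolynomial (Fin N ⊕ (Fin r × Fin (L + 1))) ℂ) ^ (ρ.1 v : ℕ)) *
  (∏ x, (X (Sum.inr x) : MvPolynomial (Fin N ⊕ (Fin r × Fin (L + 1))) ℂ) ^ (ρ.2 x : ℕ)) *
  ∑ κ ∈ Ms r L μ, rename Sum.inl (expand q (G κ)) *
    ∏ t, ∏ l, (X (Sum.inr (t, l)) : MvPolynomial (Fin N ⊕ (Fin r × Fin (L + 1))) ℂ) ^ (b * κ t l)

/-- ASM.  Division with remainder of the exponents.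
(hom) is clear.  (ex) `G ρ μ κ = ∑_γ coeff_{(qγ + ρ.1, bκ + ρ.2)}(g) x^γ` if `tdeg κ = μ`, and `0` otherwise; all the monomials
occurring have `q |γ| + b μ + deg ρ = k`.  (un) compare the coefficients of `x^{qγ + ρ.1} y^{bκ + ρ.2}`: different
`(ρ, κ, γ)` give different exponents. -/
structure SpecASM : Prop where
  hom : ∀ (N r L q b : ℕ) (ρ : Rem N r L q b) (μ j : ℕ) (G : Mo r L → Po N), 
    (∀ κ, G κ ∈ V (Fin N) j) →
    asm ρ μ G ∈ V (Fin N ⊕ (Fin r × Fin (L + 1))) (q * j + b * μ + ρ.deg)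
  ex : ∀ (N r L q b : ℕ), 1 ≤ q → 1 ≤ b → ∀ (k : ℕ),
    ∀ g ∈ V (Fin N ⊕ (Fin r × Fin (L + 1))) k,
    ∃ G : Rem N r L q b → ℕ → Mo r L → Po N,
      g = ∑ ρ, ∑ μ ∈ Finset.range (k + 1), asm ρ μ (G ρ μ) ∧
      (∀ ρ μ κ, G ρ μ κ ≠ 0 → tdeg κ = μ) ∧
      ∀ ρ μ, G ρ μ = 0 ∨ ∃ j : ℕ, q * j + b * μ + ρ.deg = k ∧ ∀ κ, G ρ μ κ ∈ V (Fin N) j
  un : ∀ (N r L q b : ℕ), 1 ≤ q → 1 ≤ b → ∀ (k : ℕ) (G : Rem N r L q b → ℕ → Mo r L → Po N),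
    ∑ ρ, ∑ μ ∈ Finset.range k, asm ρ μ (G ρ μ) = 0 →
    (∀ ρ μ κ, G ρ μ κ ≠ 0 → tdeg κ = μ) → ∀ ρ, ∀ μ < k, G ρ μ = 0

/-- ASF.  `f_i · asm = asm (F_i ·)`: for `G` with `tdeg κ = μ` on its support,
`∑_κ M_{t,i,l}(x^q) y_{tl}^b G(κ)(x^q) y^{bκ} = ∑_{κ' , κ' t l ≠ 0} (M_{t,i,l} G (dn t l κ'))(x^q) y^{bκ'}` (`κ' = up t l κ`). -/
def SpecASF : Prop := ∀ (N r s L a q b k : ℕ) (M : Mat N r s L) (hM : ∀ t i l, M t i l ∈ V (Fin N) a)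
  (hk : k ≤ s) (i : Fin k) (ρ : Rem N r L q b) (μ : ℕ) (G : Mo r L → Po N),
  (∀ κ, G κ ≠ 0 → tdeg κ = μ) →
  fR M q b i * asm ρ μ G = asm ρ (μ + 1)
    (F (PS N r k L a (fun t i l => M t (Fin.castLE hk i) l) (fun _ _ _ => hM _ _ _))
      (List.finRange r) i G)

/-- TRANG (hypotheses SpecASM, SpecASF): the rest of TRANS (see the docstring of SpecTRANS). -/
def SpecTRANG : Prop := SpecTRANS

/-! ### HILB and SEMI -/

/-- FSR.  The recursion for `Fs` (Pascal). -/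
def SpecFSR : Prop := (∀ n A e : ℕ, Fs n A e 0 = ((n + e).choose n : ℤ)) ∧
  (∀ n A e j : ℕ, 1 ≤ A → e < A → Fs n A e j = ((n + e).choose n : ℤ)) ∧
  ∀ n A e j : ℕ, 1 ≤ A → Fs n A (e + A) (j + 1) = Fs n A (e + A) j - Fs n A e j

/-- SEMA: part (1) of SEMI (apolarity). -/
def SpecSEMA : Prop := ∀ (n A e s : ℕ) (p : ℕ → Fin (n + 1) → ℂ),
  Module.finrank ℂ (V (Fin (n + 1)) (e + A)) ≤ Module.finrank ℂ (K p A (e + A) s) +
    Module.finrank ℂ (Iq (fun i => (∑ v, C (p i v) * (X v : MvPolynomial (Fin (n + 1)) ℂ)) ^ A)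
      A (e + A) s)

/-- SEMB: the inequality of part (3) of SEMI. -/
def SpecSEMB : Prop := ∀ (σ : Type) [Fintype σ] (A e j : ℕ) (f : ℕ → MvPolynomial σ ℂ),
  (∀ i, f i ∈ V σ A) →
  Module.finrank ℂ (Iq f A (e + A) (j + 1)) + Module.finrank ℂ (Iq f A e j) ≤
    Module.finrank ℂ (Iq f A (e + A) j) + Module.finrank ℂ (V σ e)

/-- SEMG (hypotheses SpecFSR, SpecSEMA, SpecSEMB): SEMI by parts (2) and (3).
HILB has the hypothesis SpecFSR. -/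
def SpecSEMG : Prop := SpecSEMI

/-! ### CAP -/

/-- CAPP.  The product inequality of CAP. -/
def SpecCAPP : Prop := ∀ (C2 : ℝ) (n n' A e q b a D : ℕ), 2 ≤ C2 → 1 ≤ n → n' ≤ n → A ≤ e →
  ((e + n : ℕ) : ℝ) ≤ C2 * A → 1 ≤ a → a ≤ D → q * a + b = A → ((4 * b : ℕ) : ℝ) * C2 ≤ A →
  4 * q * n ≤ A + 4 * n → q * D + b ≤ e →
  (1 + 1 / (8 * C2 ^ 2)) ^ n' * ((n + e + A).choose n : ℝ) * ((n' + D - a).choose n' : ℝ) ≤
    2 ^ (n - n') * ((n + e).choose n : ℝ) * ((n' + D).choose n' : ℝ)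

/-- CAPG (hypothesis SpecCAPP): the choice of the numbers, CAP. -/
def SpecCAPG : Prop := SpecCAP

end FrI
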