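import Pool.Agent.Lib.MP_921642_ag.FI.Spec
import Pool.Agent.Lib.MP_921642_ag.FI.Spec2
import Pool.Agent.Lib.MP_921642_ag.FI.Spec3
import Pool.Agent.Lib.MP_921642_ag.FI.HORW
import Pool.Agent.Lib.MP_921642_ag.FI.OM
import Pool.Agent.Lib.MP_921642_ag.FI.LEAF
import Pool.Agent.Lib.MP_921642_ag.FI.NODE
import Pool.Agent.Lib.MP_921642_ag.FI.CAPB
import Pool.Agent.Lib.MP_921642_ag.FI.Spec4

section
/-!
# MP_921642_ag, FI, module ROUND: derandomised rounding over the tree of the game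
-/
set_option autoImplicit false

namespace FrI.ROUNDM

open Finset

/-- The sum over the groups. -/
noncomputable def E {r s : ℕ} (L : ℕ) (lam : ℝ) (B : Fin r → ℕ → ℝ) (a : Fin r → Fin s → ℕ)
    (I : Fin r → Finset (Fin s)) : ℝ :=
  ∑ t, (lam ^ (L + 2))⁻¹ * ∏ i ∈ I t, (1 + (lam - 1) * B t (a t i))

theorem E_nonneg {r s : ℕ} (L : ℕ) {lam : ℝ} (hlam : 1 ≤ lam) {B : Fin r → ℕ → ℝ}
    (hB : ∀ t α, 0 ≤ B t α) (a : Fin r → Fin s → ℕ) (I : Fin r → Finset (Fin s)) :
    0 ≤ E L lam B a I := by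
  refine Finset.sum_nonneg fun t _ => mul_nonneg (by positivity) ?_
  refine Finset.prod_nonneg fun i _ => ?_
  have h1 : 0 ≤ (lam - 1) * B t (a t i) := mul_nonneg (by linarith) (hB _ _)
  linarith

theorem lv_nonneg {r : ℕ} (τ : FT r) : ∀ (N D : ℕ), Val τ N D →
    ∀ B ∈ lv τ D, ∀ t α, 0 ≤ B t α := by
  induction τ with
  | leaf =>
    intro N D _ B hB t α
    rw [lv, List.mem_singleton] at hB
    rw [hB]
    dsimp only
    split_ifs <;> norm_num
  | node t0 p tr res ih1 ih2 =>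
    intro N D hV B hB t α
    obtain ⟨_, _, _, hp, h1, h2⟩ := hV
    rw [lv, List.mem_append] at hB
    rcases hB with hB | hB
    · obtain ⟨B', hB', rfl⟩ := List.mem_map.1 hB
      have h3 := ih1 _ _ h1 B' hB'
      dsimp only
      split_ifs
      · exact mul_nonneg (hp α).1 (h3 _ _)
      · exact h3 _ _
    · obtain ⟨B', hB', rfl⟩ := List.mem_map.1 hB
      have h3 := ih2 _ _ h2 B' hB'
      dsimp only
      split_ifs
      · exact add_nonneg (mul_nonneg (hp α).1 (h3 _ _))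
          (mul_nonneg (by linarith [(hp α).2]) (h3 _ _))
      · exact h3 _ _

/-- The weight of a set of rows. -/
noncomputable def wt {s : ℕ} (q : Fin s → ℝ) (J T : Finset (Fin s)) : ℝ :=
  (∏ i ∈ T, (1 - q i)) * ∏ i ∈ J \ T, q i

theorem wt_sum {s : ℕ} (q x y : Fin s → ℝ) (J : Finset (Fin s)) :
    ∑ T ∈ J.powerset, wt q J T * ((∏ i ∈ T, x i) * ∏ i ∈ J \ T, y i)
      = ∏ i ∈ J, ((1 - q i) * x i + q i * y i) := by
  rw [Finset.prod_add]
  refine Finset.sum_congr rfl fun T _ => ?_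
  rw [wt, Finset.prod_mul_distrib, Finset.prod_mul_distrib]
  ring

theorem wt_sum_one {s : ℕ} (q : Fin s → ℝ) (J : Finset (Fin s)) :
    ∑ T ∈ J.powerset, wt q J T = 1 := by
  have h := wt_sum q (fun _ => 1) (fun _ => 1) J
  simp only [Finset.prod_const_one, mul_one] at h
  rw [h]
  simp

theorem wt_nonneg {s : ℕ} {q : Fin s → ℝ} (hq : ∀ i, 0 ≤ q i ∧ q i ≤ 1)
    (J T : Finset (Fin s)) : 0 ≤ wt q J T :=
  mul_nonneg (Finset.prod_nonneg fun i _ => by linarith [(hq i).2])
    (Finset.prod_nonneg fun i _ => (hq i).1)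

/-- The trace child. -/
theorem E_tr {r s : ℕ} (L : ℕ) (lam : ℝ) (B : Fin r → ℕ → ℝ) (a : Fin r → Fin s → ℕ)
    (I : Fin r → Finset (Fin s)) (t0 : Fin r) (p : ℕ → ℝ) :
    ∑ T ∈ (I t0).powerset, wt (fun i => p (a t0 i)) (I t0) T *
        E L lam B a (Function.update I t0 (I t0 \ T))
      = E L lam (fun t α => if t = t0 then p α * B t α else B t α) a I := by
  unfold E
  simp only [Finset.mul_sum]
  rw [Finset.sum_comm]
  refine Finset.sum_congr rfl fun t _ => ?_
  by_cases ht : t = t0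
  · subst ht
    have h := wt_sum (fun i => p (a t i)) (fun _ => 1)
      (fun i => 1 + (lam - 1) * B t (a t i)) (I t)
    simp only [Finset.prod_const_one, one_mul, mul_one] at h
    have e1 : ∀ T ∈ (I t).powerset, wt (fun i => p (a t i)) (I t) T * ((lam ^ (L + 2))⁻¹ *
        ∏ i ∈ Function.update I t (I t \ T) t, (1 + (lam - 1) * B t (a t i)))
        = (lam ^ (L + 2))⁻¹ * (wt (fun i => p (a t i)) (I t) T *
          ∏ i ∈ I t \ T, (1 + (lam - 1) * B t (a t i))) := by
      intro T _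
      rw [Function.update_self]
      ring
    rw [Finset.sum_congr rfl e1, ← Finset.mul_sum, h]
    congr 1
    refine Finset.prod_congr rfl fun i _ => ?_
    rw [if_pos rfl]
    ring
  · have e1 : ∀ T ∈ (I t0).powerset, wt (fun i => p (a t0 i)) (I t0) T * ((lam ^ (L + 2))⁻¹ *
        ∏ i ∈ Function.update I t0 (I t0 \ T) t, (1 + (lam - 1) * B t (a t i)))
        = wt (fun i => p (a t0 i)) (I t0) T * ((lam ^ (L + 2))⁻¹ *
          ∏ i ∈ I t, (1 + (lam - 1) * B t (a t i))) := by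
      intro T _
      rw [Function.update_of_ne ht]
    rw [Finset.sum_congr rfl e1, ← Finset.sum_mul, wt_sum_one, one_mul]
    congr 1
    refine Finset.prod_congr rfl fun i _ => ?_
    rw [if_neg ht]

/-- The residual child. -/
theorem E_res {r s : ℕ} (L : ℕ) (lam : ℝ) (B : Fin r → ℕ → ℝ) (a : Fin r → Fin s → ℕ)
    (I : Fin r → Finset (Fin s)) (t0 : Fin r) (p : ℕ → ℝ) :
    ∑ T ∈ (I t0).powerset, wt (fun i => p (a t0 i)) (I t0) T *
        E L lam B (fun t i => if t = t0 ∧ i ∈ T then a t i - 1 else a t i) I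
      = E L lam (fun t α => if t = t0 then p α * B t α + (1 - p α) * B t (α - 1) else B t α)
          a I := by
  unfold E
  simp only [Finset.mul_sum]
  rw [Finset.sum_comm]
  refine Finset.sum_congr rfl fun t _ => ?_
  by_cases ht : t = t0
  · subst ht
    have h := wt_sum (fun i => p (a t i)) (fun i => 1 + (lam - 1) * B t (a t i - 1))
      (fun i => 1 + (lam - 1) * B t (a t i)) (I t)
    have e1 : ∀ T ∈ (I t).powerset, wt (fun i => p (a t i)) (I t) T * ((lam ^ (L + 2))⁻¹ *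
        ∏ i ∈ I t, (1 + (lam - 1) * B t (if t = t ∧ i ∈ T then a t i - 1 else a t i)))
        = (lam ^ (L + 2))⁻¹ * (wt (fun i => p (a t i)) (I t) T *
          ((∏ i ∈ T, (1 + (lam - 1) * B t (a t i - 1))) *
            ∏ i ∈ I t \ T, (1 + (lam - 1) * B t (a t i)))) := by
      intro T hT
      rw [← Finset.prod_sdiff (Finset.mem_powerset.1 hT)]
      have e2 : ∏ i ∈ I t \ T, (1 + (lam - 1) * B t (if t = t ∧ i ∈ T then a t i - 1 else a t i))
          = ∏ i ∈ I t \ T, (1 + (lam - 1) * B t (a t i)) := by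
        refine Finset.prod_congr rfl fun i hi => ?_
        rw [if_neg (fun h => (Finset.mem_sdiff.1 hi).2 h.2)]
      have e3 : ∏ i ∈ T, (1 + (lam - 1) * B t (if t = t ∧ i ∈ T then a t i - 1 else a t i))
          = ∏ i ∈ T, (1 + (lam - 1) * B t (a t i - 1)) := by
        refine Finset.prod_congr rfl fun i hi => ?_
        rw [if_pos ⟨rfl, hi⟩]
      rw [e2, e3]
      ring
    rw [Finset.sum_congr rfl e1, ← Finset.mul_sum, h]
    congr 1
    refine Finset.prod_congr rfl fun i _ => ?_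
    rw [if_pos rfl]
    ring
  · have e1 : ∀ T ∈ (I t0).powerset, wt (fun i => p (a t0 i)) (I t0) T * ((lam ^ (L + 2))⁻¹ *
        ∏ i ∈ I t, (1 + (lam - 1) * B t (if t = t0 ∧ i ∈ T then a t i - 1 else a t i)))
        = wt (fun i => p (a t0 i)) (I t0) T * ((lam ^ (L + 2))⁻¹ *
          ∏ i ∈ I t, (1 + (lam - 1) * B t (a t i))) := by
      intro T _
      simp only [ht, false_and, if_false]
    rw [Finset.sum_congr rfl e1, ← Finset.sum_mul, wt_sum_one, one_mul]
    congr 1
    refine Finset.prod_congr rfl fun i _ => ?_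
    rw [if_neg ht]

theorem list_sum {β ι : Type} (l : List β) (S : Finset ι) (w : ι → ℝ) (F : ι → β → ℝ) :
    (l.map fun b => ∑ T ∈ S, w T * F T b).sum = ∑ T ∈ S, w T * (l.map (F T)).sum := by
  induction l with
  | nil => simp
  | cons b l ih =>
    simp only [List.map_cons, List.sum_cons, mul_add, Finset.sum_add_distrib]
    rw [ih]

theorem list_nonneg {β : Type} (l : List β) (F : β → ℝ) (h : ∀ b ∈ l, 0 ≤ F b) :
    0 ≤ (l.map F).sum :=
  List.sum_nonneg fun x hx => by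
    obtain ⟨b, hb, rfl⟩ := List.mem_map.1 hx
    exact h b hb

/-- Module ROUND. -/
theorem specROUND (hHOR : SpecHOR) (hBASE : SpecBASE) : SpecROUND := by
  intro r L τ
  induction τ with
  | leaf =>
    intro N D s a I lam hlam hV hsum
    refine hBASE N L r s a I D hV fun t => ?_
    rw [lv, List.map_cons, List.map_nil, List.sum_cons, List.sum_nil, add_zero] at hsum
    have h0 : 0 < lam := by linarith
    have h1 : (lam ^ (L + 2))⁻¹ * ∏ i ∈ I t, (1 + (lam - 1) * (if a t i ≤ D then 1 else 0)) < 1 := by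
      refine lt_of_le_of_lt ?_ hsum
      refine Finset.single_le_sum (f := fun t => (lam ^ (L + 2))⁻¹ *
        ∏ i ∈ I t, (1 + (lam - 1) * (if a t i ≤ D then (1 : ℝ) else 0))) ?_ (Finset.mem_univ t)
      intro t _
      refine mul_nonneg (by positivity) (Finset.prod_nonneg fun i _ => ?_)
      split_ifs <;> linarith
    have h2 : ∏ i ∈ I t, (1 + (lam - 1) * (if a t i ≤ D then (1 : ℝ) else 0))
        = lam ^ ((I t).filter fun i => a t i ≤ D).card := by
      rw [← Finset.prod_const, Finset.prod_filter]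
      refine Finset.prod_congr rfl fun i _ => ?_
      split_ifs <;> ring
    rw [h2] at h1
    by_contra hcon
    have h3 : L + 2 ≤ ((I t).filter fun i => a t i ≤ D).card := by omega
    have h4 : lam ^ (L + 2) ≤ lam ^ ((I t).filter fun i => a t i ≤ D).card :=
      pow_le_pow_right₀ hlam h3
    have h5 : 0 < lam ^ (L + 2) := by positivity
    have h6 : 1 ≤ (lam ^ (L + 2))⁻¹ * lam ^ ((I t).filter fun i => a t i ≤ D).card := by
      rw [← inv_mul_cancel₀ h5.ne']
      exact mul_le_mul_of_nonneg_left h4 (by positivity)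
    linarith
  | node t0 p tr res ih1 ih2 =>
    intro N D s a I lam hlam hV hsum
    obtain ⟨hN, hD, hp0, hp, hV1, hV2⟩ := hV
    obtain ⟨N, rfl⟩ : ∃ N', N = N' + 1 := ⟨N - 1, by omega⟩
    obtain ⟨D, rfl⟩ : ∃ D', D = D' + 1 := ⟨D - 1, by omega⟩
    simp only [Nat.add_sub_cancel] at hV1 hV2
    have key : ∑ T ∈ (I t0).powerset, wt (fun i => p (a t0 i)) (I t0) T *
        (((lv tr (D + 1)).map fun B => E L lam B a (Function.update I t0 (I t0 \ T))).sum +
         ((lv res D).map fun B =>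
          E L lam B (fun t i => if t = t0 ∧ i ∈ T then a t i - 1 else a t i) I).sum) < 1 := by
      refine lt_of_eq_of_lt ?_ hsum
      simp only [mul_add, Finset.sum_add_distrib]
      rw [← list_sum, ← list_sum, lv, List.map_append, List.sum_append, List.map_map,
        List.map_map, Nat.add_sub_cancel]
      congr 2
      · refine List.map_congr_left fun B _ => ?_
        rw [E_tr]
        rfl
      · refine List.map_congr_left fun B _ => ?_
        rw [E_res]
        rfl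
    have hw := wt_sum_one (fun i => p (a t0 i)) (I t0)
    have hwn : ∀ T, 0 ≤ wt (fun i => p (a t0 i)) (I t0) T :=
      fun T => wt_nonneg (fun i => hp _) _ _
    obtain ⟨T, hT, hwT, hlt⟩ : ∃ T ∈ (I t0).powerset, 0 < wt (fun i => p (a t0 i)) (I t0) T ∧
        ((lv tr (D + 1)).map fun B => E L lam B a (Function.update I t0 (I t0 \ T))).sum +
         ((lv res D).map fun B =>
          E L lam B (fun t i => if t = t0 ∧ i ∈ T then a t i - 1 else a t i) I).sum < 1 := by
      by_contra hcon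
      push Not at hcon
      have h1 : ∑ T ∈ (I t0).powerset, wt (fun i => p (a t0 i)) (I t0) T * 1 ≤
        ∑ T ∈ (I t0).powerset, wt (fun i => p (a t0 i)) (I t0) T *
        (((lv tr (D + 1)).map fun B => E L lam B a (Function.update I t0 (I t0 \ T))).sum +
         ((lv res D).map fun B =>
          E L lam B (fun t i => if t = t0 ∧ i ∈ T then a t i - 1 else a t i) I).sum) := by
        refine Finset.sum_le_sum fun T hT => ?_
        rcases (hwn T).lt_or_eq with h | h
        · exact mul_le_mul_of_nonneg_left (hcon T hT h) h.le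
        · rw [← h, zero_mul, zero_mul]
      rw [Finset.sum_congr rfl fun T _ => mul_one _, hw] at h1
      linarith
    have n1 : 0 ≤ ((lv tr (D + 1)).map
        fun B => E L lam B a (Function.update I t0 (I t0 \ T))).sum :=
      list_nonneg _ _ fun B hB => E_nonneg L hlam (lv_nonneg tr _ _ hV1 B hB) _ _
    have n2 : 0 ≤ ((lv res D).map fun B =>
          E L lam B (fun t i => if t = t0 ∧ i ∈ T then a t i - 1 else a t i) I).sum :=
      list_nonneg _ _ fun B hB => E_nonneg L hlam (lv_nonneg res _ _ hV2 B hB) _ _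
    refine hHOR N L r s a I D t0 T (Finset.mem_powerset.1 hT) ?_ ?_ ?_
    · intro i hi
      by_contra hcon
      have h0 : a t0 i = 0 := by omega
      have : wt (fun i => p (a t0 i)) (I t0) T = 0 := by
        rw [wt, Finset.prod_eq_zero hi (by rw [h0, hp0, sub_self]), zero_mul]
      linarith
    · exact ih1 N (D + 1) s a (Function.update I t0 (I t0 \ T)) lam hlam hV1
        (lt_of_le_of_lt (le_add_of_nonneg_right n2) hlt)
    · exact ih2 (N + 1) D s _ I lam hlam hV2
        (lt_of_le_of_lt (le_add_of_nonneg_left n1) hlt)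

end FrI.ROUNDM
end

section
/-!
# MP_921642_ag, FI, module SEMA: apolarity
-/
set_option autoImplicit false

namespace FrI

open MvPolynomial Pool.Agent.Lib.MP_921642_ag

namespace SEMAM

variable {n : ℕ}

/-- `α!` -/
noncomputable def fa (α : Fin (n + 1) →₀ ℕ) : ℂ := ∏ v, ((α v).factorial : ℂ)

lemma fa_ne_zero (α : Fin (n + 1) →₀ ℕ) : fa α ≠ 0 :=
  Finset.prod_ne_zero_iff.2 fun v _ => Nat.cast_ne_zero.2 (Nat.factorial_ne_zero _)

lemma fa_add (α : Fin (n + 1) →₀ ℕ) (v : Fin (n + 1)) :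
    fa (α + Finsupp.single v 1) = ((α v : ℂ) + 1) * fa α := by
  unfold fa
  rw [← Finset.mul_prod_erase _ _ (Finset.mem_univ v),
    ← Finset.mul_prod_erase _ (fun w => ((α w).factorial : ℂ)) (Finset.mem_univ v), ← mul_assoc]
  congr 1
  · rw [Finsupp.add_apply, Finsupp.single_eq_same, Nat.factorial_succ]
    push_cast
    ring
  · refine Finset.prod_congr rfl fun w hw => ?_
    rw [Finsupp.add_apply, Finsupp.single_eq_of_ne (Finset.ne_of_mem_erase hw), add_zero]

/-- the weighted coefficients -/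
noncomputable def wc : Po (n + 1) →ₗ[ℂ] ((Fin (n + 1) →₀ ℕ) → ℂ) :=
  LinearMap.pi fun α => fa α • lcoeff ℂ α

lemma wc_apply (F : Po (n + 1)) (α : Fin (n + 1) →₀ ℕ) : wc F α = fa α * coeff α F := rfl

/-- the pairing `⟨G, F⟩ = ∑ α! G_α F_α`, written `pr F G` -/
noncomputable def pr : Po (n + 1) →ₗ[ℂ] (Po (n + 1) →ₗ[ℂ] ℂ) :=
  ((basisMonomials (Fin (n + 1)) ℂ).constr ℂ).toLinearMap ∘ₗ wc

lemma pr_monomial (F : Po (n + 1)) (α : Fin (n + 1) →₀ ℕ) (c : ℂ) :
    pr F (monomial α c) = c * (fa α * coeff α F) := by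
  have h1 : (monomial α c : Po (n + 1)) = c • basisMonomials (Fin (n + 1)) ℂ α := by
    rw [coe_basisMonomials, smul_monomial, smul_eq_mul, mul_one]
  rw [h1, map_smul, smul_eq_mul]
  congr 1
  show (basisMonomials (Fin (n + 1)) ℂ).constr ℂ (wc F) _ = _
  rw [Module.Basis.constr_basis]
  rfl

/-- the linear form of the point -/
noncomputable def ell (p : Fin (n + 1) → ℂ) : Po (n + 1) := ∑ v, C (p v) * (X v : Po (n + 1))

lemma adj (p : Fin (n + 1) → ℂ) (F G : Po (n + 1)) : pr F (ell p * G) = pr (Dl p F) G := by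
  induction G using MvPolynomial.induction_on' with
  | add G H hG hH => rw [mul_add, map_add, map_add, hG, hH]
  | monomial α c =>
    rw [pr_monomial, ell, Finset.sum_mul, map_sum, Dl_apply, D_eq_sum, coeff_sum, Finset.mul_sum,
      Finset.mul_sum]
    refine Finset.sum_congr rfl fun v _ => ?_
    have h1 : C (p v) * (X v : Po (n + 1)) * monomial α c =
        monomial (α + Finsupp.single v 1) (p v * c) := by
      rw [X, mul_assoc, monomial_mul, C_mul_monomial, add_comm (Finsupp.single v 1) α, one_mul]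
    rw [h1, pr_monomial, fa_add, coeff_C_mul, coeff_pderiv]
    ring

lemma adj_pow (p : Fin (n + 1) → ℂ) (A : ℕ) (F G : Po (n + 1)) :
    pr F (ell p ^ A * G) = pr (((Dl p) ^ A) F) G := by
  induction A generalizing F G with
  | zero => simp
  | succ A ih =>
    rw [pow_succ, mul_assoc, ih, adj, pow_succ', Module.End.mul_apply]

lemma nondeg {e : ℕ} {F : Po (n + 1)} (hF : F ∈ V (Fin (n + 1)) e)
    (h : ∀ G ∈ V (Fin (n + 1)) e, pr F G = 0) : F = 0 := by
  ext α
  rw [coeff_zero]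
  by_contra hne
  have hα : Finsupp.degree α = e := by
    have h1 := (mem_homogeneousSubmodule _ _).1 hF hne
    rw [← h1, Finsupp.degree_eq_weight_one]
    rfl
  have h2 := h (monomial α 1) ((mem_homogeneousSubmodule _ _).2 (isHomogeneous_monomial _ hα))
  rw [pr_monomial, one_mul] at h2
  exact hne ((mul_eq_zero.1 h2).resolve_left (fa_ne_zero α))

theorem specSEMA : SpecSEMA := by
  intro n A e s p
  set ℓ : ℕ → Po (n + 1) := fun i => (∑ v, C (p i v) * (X v : Po (n + 1))) ^ A with hℓ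
  set I := Iq ℓ A (e + A) s with hI
  have hIle : I ≤ V (Fin (n + 1)) (e + A) := by
    rw [hI]
    unfold Iq
    rw [if_pos (Nat.le_add_left A e)]
    refine iSup_le fun i => ?_
    rintro _ ⟨g, hg, rfl⟩
    rw [Nat.add_sub_cancel] at hg
    have h1 : (∑ v, C (p i v) * (X v : Po (n + 1))).IsHomogeneous 1 :=
      IsHomogeneous.sum _ _ _ fun v _ => isHomogeneous_C_mul_X _ _
    have h2 := (h1.pow A).mul ((mem_homogeneousSubmodule _ _).1 hg)
    rw [one_mul, add_comm A e] at h2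
    exact (mem_homogeneousSubmodule _ _).2 h2
  have : FiniteDimensional ℂ I := Submodule.finiteDimensional_of_le hIle
  -- restriction of the pairing
  let Θ : V (Fin (n + 1)) (e + A) →ₗ[ℂ] Module.Dual ℂ I :=
    (LinearMap.lcomp ℂ ℂ I.subtype) ∘ₗ pr ∘ₗ (V (Fin (n + 1)) (e + A)).subtype
  have h1 := LinearMap.finrank_range_add_finrank_ker Θ
  have h2 : Module.finrank ℂ (LinearMap.range Θ) ≤ Module.finrank ℂ I := by
    rw [← Subspace.dual_finrank_eq (K := ℂ) (V := I)]
    exact Submodule.finrank_le _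
  have h3 : (LinearMap.ker Θ).map (V (Fin (n + 1)) (e + A)).subtype ≤ K p A (e + A) s := by
    rintro _ ⟨F, hF, rfl⟩
    have hF' : ∀ g ∈ I, pr (F : Po (n + 1)) g = 0 := fun g hg =>
      LinearMap.congr_fun (LinearMap.mem_ker.1 hF) (⟨g, hg⟩ : I)
    rw [mem_K]
    refine ⟨F.2, fun i hi => ?_⟩
    refine nondeg (Dl_pow_mem (p i) A F.2) fun G hG => ?_
    rw [← adj_pow]
    apply hF'
    rw [hI]
    unfold Iq
    rw [if_pos (Nat.le_add_left A e)]
    refine Submodule.mem_iSup_of_mem (⟨i, hi⟩ : Fin s) ⟨G, ?_, rfl⟩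
    rw [Nat.add_sub_cancel]
    exact hG
  have h4 := Submodule.finrank_mono h3
  have h5 : Module.finrank ℂ ((LinearMap.ker Θ).map (V (Fin (n + 1)) (e + A)).subtype) =
      Module.finrank ℂ (LinearMap.ker Θ) :=
    (Submodule.equivMapOfInjective _ (Submodule.injective_subtype _) _).finrank_eq.symm
  omega

end SEMAM

end FrI
end

section
/-!
# MP_921642_ag, FI, module SEMG: semicontinuity and apolarity
-/
set_option autoImplicit false

namespace FrI

open MvPolynomial Pool.Agent.Lib.MP_921642_ag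

namespace SEMGM

variable {σ : Type} [Fintype σ]

/-- `(h_i) ↦ ∑ F_i h_i` -/
noncomputable def Mp (F : ℕ → MvPolynomial σ ℂ) (k j : ℕ) :
    (Fin j → V σ k) →ₗ[ℂ] MvPolynomial σ ℂ :=
  ∑ i : Fin j, (LinearMap.mulLeft ℂ (F i)) ∘ₗ (V σ k).subtype ∘ₗ LinearMap.proj i

omit [Fintype σ] in
lemma Mp_apply (F : ℕ → MvPolynomial σ ℂ) (k j : ℕ) (h : Fin j → V σ k) :
    Mp F k j h = ∑ i : Fin j, F i * (h i : MvPolynomial σ ℂ) := by
  rw [Mp, LinearMap.sum_apply]
  rfl

omit [Fintype σ] in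
lemma range_Mp (F : ℕ → MvPolynomial σ ℂ) (k j : ℕ) :
    LinearMap.range (Mp F k j) = ⨆ i : Fin j, (V σ k).map (LinearMap.mulLeft ℂ (F i)) := by
  classical
  apply le_antisymm
  · rintro _ ⟨h, rfl⟩
    rw [Mp_apply]
    refine Submodule.sum_mem _ fun i _ => ?_
    exact Submodule.mem_iSup_of_mem i ⟨h i, (h i).2, rfl⟩
  · refine iSup_le fun i => ?_
    rintro _ ⟨g, hg, rfl⟩
    refine ⟨Pi.single i ⟨g, hg⟩, ?_⟩
    rw [Mp_apply, Finset.sum_eq_single i]
    · rw [Pi.single_eq_same]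
      rfl
    · intro b _ hb
      rw [Pi.single_eq_of_ne hb]
      simp
    · simp

omit [Fintype σ] in
lemma Mp_add_smul (F G : ℕ → MvPolynomial σ ℂ) (τ : ℂ) (k j : ℕ) :
    Mp (fun i => F i + τ • G i) k j = Mp F k j + τ • Mp G k j := by
  apply LinearMap.ext
  intro h
  rw [LinearMap.add_apply, LinearMap.smul_apply, Mp_apply, Mp_apply, Mp_apply, Finset.smul_sum,
    ← Finset.sum_add_distrib]
  refine Finset.sum_congr rfl fun i _ => ?_
  rw [add_mul, smul_mul_assoc]

lemma semicont (F G : ℕ → MvPolynomial σ ℂ) (A k j : ℕ) (τ₀ : ℂ) :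
    {τ : ℂ | Module.finrank ℂ (Iq (fun i => F i + τ • G i) A k j) <
      Module.finrank ℂ (Iq (fun i => F i + τ₀ • G i) A k j)}.Finite := by
  by_cases h : A ≤ k
  · have h1 : ∀ τ : ℂ, Iq (fun i => F i + τ • G i) A k j =
        LinearMap.range (Mp (fun i => F i + τ • G i) (k - A) j) := by
      intro τ
      rw [range_Mp]
      unfold Iq
      rw [if_pos h]
    have h2 : ∀ τ : ℂ, Module.finrank ℂ (Iq (fun i => F i + τ • G i) A k j) =
        Module.finrank ℂ (LinearMap.range (Mp (fun i => F i + τ • G i) (k - A) j)) := by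
      intro τ
      rw [h1]
    simp only [h2]
    exact rank_semicont 2 (fun i => if i = 0 then Mp F (k - A) j else Mp G (k - A) j)
      (fun τ => Mp (fun i => F i + τ • G i) (k - A) j) (fun τ => by
        rw [Mp_add_smul, Finset.sum_range_succ, Finset.sum_range_one]
        simp) τ₀
  · have h1 : ∀ τ : ℂ, Iq (fun i => F i + τ • G i) A k j = ⊥ := by
      intro τ
      unfold Iq
      rw [if_neg h]
    have h2 : ∀ τ : ℂ, Module.finrank ℂ (Iq (fun i => F i + τ • G i) A k j) = 0 := by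
      intro τ
      rw [h1, finrank_bot]
    simp only [h2, lt_self_iff_false]
    exact Set.finite_empty

theorem specSEMG (h1 : SpecFSR) (h2 : SpecSEMA) (h3 : SpecSEMB) : SpecSEMG := by
  intro n A e s f hA hf hH p
  set ℓ : ℕ → MvPolynomial (Fin (n + 1)) ℂ :=
    fun i => (∑ v, C (p i v) * (X v : MvPolynomial (Fin (n + 1)) ℂ)) ^ A with hℓ
  have hℓV : ∀ i, ℓ i ∈ V (Fin (n + 1)) A := by
    intro i
    have h4 : (∑ v, C (p i v) * (X v : Po (n + 1))).IsHomogeneous 1 :=
      IsHomogeneous.sum _ _ _ fun v _ => isHomogeneous_C_mul_X _ _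
    have h5 := h4.pow A
    rw [one_mul] at h5
    exact (mem_homogeneousSubmodule _ _).2 h5
  set g : ℂ → ℕ → MvPolynomial (Fin (n + 1)) ℂ := fun τ i => ℓ i + τ • (f i - ℓ i) with hg
  have hgV : ∀ τ i, g τ i ∈ V (Fin (n + 1)) A := fun τ i =>
    Submodule.add_mem _ (hℓV i) (Submodule.smul_mem _ _ (Submodule.sub_mem _ (hf i) (hℓV i)))
  have hg0 : g 0 = ℓ := by
    funext i
    simp [hg]
  have hg1 : g 1 = f := by
    funext i
    simp [hg]
  have hfin : ({τ : ℂ | Module.finrank ℂ (Iq (g τ) A (e + A) s) <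
      Module.finrank ℂ (Iq (g 0) A (e + A) s)} ∪
      ⋃ j ∈ Finset.range (s + 1), {τ : ℂ | Module.finrank ℂ (Iq (g τ) A e j) <
        Module.finrank ℂ (Iq (g 1) A e j)}).Finite :=
    (semicont ℓ (fun i => f i - ℓ i) A (e + A) s 0).union
      (Set.Finite.biUnion (Finset.finite_toSet _)
        fun j _ => semicont ℓ (fun i => f i - ℓ i) A e j 1)
  obtain ⟨τ, hτ⟩ := hfin.exists_notMem
  rw [Set.mem_union, not_or, Set.mem_iUnion₂, Set.mem_ofPred_eq, not_lt] at hτ
  obtain ⟨hτ0, hτ1⟩ := hτ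
  have hτ2 : ∀ j ≤ s, Module.finrank ℂ (Iq f A e j) ≤ Module.finrank ℂ (Iq (g τ) A e j) := by
    intro j hj
    by_contra hcon
    rw [not_le] at hcon
    refine hτ1 ⟨j, Finset.mem_range.2 (by omega), ?_⟩
    rw [Set.mem_ofPred_eq, hg1]
    exact hcon
  have key : ∀ j ≤ s, Fs n A (e + A) j ≤ (Module.finrank ℂ (V (Fin (n + 1)) (e + A)) : ℤ) -
      (Module.finrank ℂ (Iq (g τ) A (e + A) j) : ℤ) := by
    intro j
    induction j with
    | zero =>
      intro _
      have h4 : Iq (g τ) A (e + A) 0 = ⊥ := by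
        unfold Iq
        rw [if_pos (Nat.le_add_left A e)]
        exact iSup_of_empty _
      rw [h4, finrank_bot, h1.1, finrank_V']
      simp
    | succ j ih =>
      intro hj
      have h4 := ih (by omega)
      have h5 := h3 (Fin (n + 1)) A e j (g τ) (hgV τ)
      have h6 := h1.2.2 n A e j hA
      have h7 := hH j (by omega)
      have h8 := hτ2 j (by omega)
      rw [h6]
      zify at h5 h8
      linarith
  have h4 := key s le_rfl
  have h5 := h2 n A e s p
  rw [hg0] at hτ0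
  zify at h5 hτ0
  linarith

end SEMGM

end FrI
end

section
set_option autoImplicit false

namespace FrI

namespace ST2M

variable {r k L : ℕ} {a : ℤ}

lemma dn_apply (t : Fin r) (l : Fin (L + 1)) (κ : Mo r L) (t' : Fin r) (l' : Fin (L + 1)) :
    dn t l κ t' l' = if t' = t ∧ l' = l then κ t l - 1 else κ t' l' := by
  unfold dn
  by_cases h1 : t' = t
  · subst h1
    rw [Function.update_self]
    by_cases h2 : l' = l
    · subst h2
      rw [Function.update_self, if_pos ⟨rfl, rfl⟩]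
    · rw [Function.update_of_ne h2, if_neg (fun h => h2 h.2)]
  · rw [Function.update_of_ne h1, if_neg (fun h => h1 h.1)]

lemma dn_at_ne {t t' : Fin r} (h : t' ≠ t) (l : Fin (L + 1)) (κ : Mo r L) : dn t' l κ t = κ t := by
  unfold dn
  rw [Function.update_of_ne (Ne.symm h)]

lemma dn_update {t t' : Fin r} (h : t' ≠ t) (l : Fin (L + 1)) (κ : Mo r L)
    (ρ : Fin (L + 1) → ℕ) :
    dn t' l (Function.update κ t ρ) = Function.update (dn t' l κ) t ρ := by
  unfold dn
  rw [Function.update_of_ne h, Function.update_comm h]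

lemma dg_dn (t : Fin r) (l : Fin (L + 1)) (κ : Mo r L) (h : κ t l ≠ 0) :
    dg t (dn t l κ) + 1 = dg t κ := by
  have h1 : ∀ l', dn t l κ t l' + (if l' = l then 1 else 0) = κ t l' := by
    intro l'
    rw [dn_apply]
    by_cases h2 : l' = l
    · subst h2
      simp only [and_self, if_true]
      omega
    · rw [if_neg (fun h3 => h2 h3.2), if_neg h2, add_zero]
  have h3 : ∑ l' : Fin (L + 1), κ t l' = ∑ l' : Fin (L + 1), dn t l κ t l' +
      ∑ l' : Fin (L + 1), (if l' = l then 1 else 0) := by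
    rw [← Finset.sum_add_distrib]
    exact Finset.sum_congr rfl fun l' _ => (h1 l').symm
  unfold dg
  rw [h3, Finset.sum_ite_eq' Finset.univ l, if_pos (Finset.mem_univ l)]

lemma dg_update_self (t : Fin r) (κ : Mo r L) (ρ : Fin (L + 1) → ℕ) :
    dg t (Function.update κ t ρ) = ∑ l, ρ l := by
  unfold dg
  rw [Function.update_self]

lemma dg_update_ne {t s : Fin r} (h : s ≠ t) (κ : Mo r L) (ρ : Fin (L + 1) → ℕ) :
    dg s (Function.update κ t ρ) = dg s κ := by
  unfold dg
  rw [Function.update_of_ne h]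

lemma tdeg_update (t : Fin r) (κ : Mo r L) (ρ : Fin (L + 1) → ℕ) :
    tdeg (Function.update κ t ρ) + dg t κ = tdeg κ + ∑ l, ρ l := by
  unfold tdeg
  rw [← Finset.add_sum_erase _ _ (Finset.mem_univ t),
    ← Finset.add_sum_erase (s := Finset.univ) (f := fun s => dg s κ) (Finset.mem_univ t),
    dg_update_self]
  have h1 : ∑ s ∈ Finset.univ.erase t, dg s (Function.update κ t ρ) =
      ∑ s ∈ Finset.univ.erase t, dg s κ := by
    refine Finset.sum_congr rfl fun s hs => dg_update_ne (Finset.ne_of_mem_erase hs) κ ρ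
  rw [h1]
  ring

lemma F_congr (𝒞 : Sys r k L a) (Vs : List (Fin r)) (i : Fin k) (g g' : Mo r L → 𝒞.C)
    (κ κ' : Mo r L) (h1 : ∀ t' ∈ Vs, ∀ l, κ t' l = κ' t' l)
    (h2 : ∀ t' ∈ Vs, ∀ l, κ t' l ≠ 0 → g (dn t' l κ) = g' (dn t' l κ')) :
    F 𝒞 Vs i g κ = F 𝒞 Vs i g' κ' := by
  classical
  unfold F
  refine Finset.sum_congr rfl fun t' _ => Finset.sum_congr rfl fun l _ => ?_
  by_cases h3 : t' ∈ Vs ∧ κ t' l ≠ 0
  · rw [if_pos h3, if_pos ⟨h3.1, (h1 t' h3.1 l) ▸ h3.2⟩, h2 t' h3.1 l h3.2]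
  · rw [if_neg h3, if_neg]
    exact fun h4 => h3 ⟨h4.1, (h1 t' h4.1 l) ▸ h4.2⟩

lemma F_zero_of (𝒞 : Sys r k L a) (Vs : List (Fin r)) (i : Fin k) (g : Mo r L → 𝒞.C)
    (κ : Mo r L) (h2 : ∀ t' ∈ Vs, ∀ l, κ t' l ≠ 0 → g (dn t' l κ) = 0) :
    F 𝒞 Vs i g κ = 0 := by
  classical
  unfold F
  refine Finset.sum_eq_zero fun t' _ => Finset.sum_eq_zero fun l _ => ?_
  split_ifs with h3
  · rw [h2 t' h3.1 l h3.2, map_zero]
  · rfl

section

variable (h : SpecFB) (𝒞 : Sys r k L a)
include h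

lemma F_neg (Vs : List (Fin r)) (i : Fin k) (g : Mo r L → 𝒞.C) :
    F 𝒞 Vs i (-g) = - F 𝒞 Vs i g := by
  have h1 := h.F_smul 𝒞 Vs i (-1) g
  rwa [neg_one_smul, neg_one_smul] at h1

lemma F_sub (Vs : List (Fin r)) (i : Fin k) (g g' : Mo r L → 𝒞.C) :
    F 𝒞 Vs i (g - g') = F 𝒞 Vs i g - F 𝒞 Vs i g' := by
  rw [sub_eq_add_neg, h.F_add, F_neg h, sub_eq_add_neg]

lemma InE_sub (Vs : List (Fin r)) (μ j : ℤ) (g g' : Mo r L → 𝒞.C) (hg : InE 𝒞 Vs μ j g)
    (hg' : InE 𝒞 Vs μ j g') : InE 𝒞 Vs μ j (g - g') := by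
  have h1 := h.InE_add 𝒞 Vs μ j g ((-1 : ℂ) • g') hg (h.InE_smul 𝒞 Vs μ j (-1) g' hg')
  rwa [neg_one_smul, ← sub_eq_add_neg] at h1

lemma InE_sum (Vs : List (Fin r)) (μ j : ℤ) {ι : Type} (s : Finset ι) (g : ι → Mo r L → 𝒞.C)
    (hg : ∀ x, InE 𝒞 Vs μ j (g x)) : InE 𝒞 Vs μ j (∑ x ∈ s, g x) := by
  classical
  induction s using Finset.induction_on with
  | empty =>
    rw [Finset.sum_empty]
    exact h.InE_zero 𝒞 Vs μ j
  | insert x s hx ih =>
    rw [Finset.sum_insert hx]
    exact h.InE_add 𝒞 Vs μ j _ _ (hg x) ih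

lemma step (t : Fin r) (Vs : List (Fin r)) (D : ℤ) (ht : t ∉ Vs)
    (hK : ∀ μ j : ℤ, μ + 1 ≤ Vs.length → j + a ≤ D → Kos 𝒞 Vs μ j)
    (μ j : ℤ) (hμ : μ ≤ Vs.length) (hj : j ≤ D) (n : ℕ) (v : Fin k → (Mo r L → 𝒞.C))
    (hv : ∀ m, InE 𝒞 (t :: Vs) (μ - 1) (j - a) (v m))
    (hn : ∀ m (κ : Mo r L), dg t κ < n → v m κ = 0)
    (hs : ∀ κ : Mo r L, dg t κ < n + 1 → (∑ m, F 𝒞 (t :: Vs) m (v m)) κ = 0) :
    ∃ v' : Fin k → (Mo r L → 𝒞.C), (∀ m, InE 𝒞 (t :: Vs) (μ - 1) (j - a) (v' m)) ∧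
      (∀ m (κ : Mo r L), dg t κ < n + 1 → v' m κ = 0) ∧
      ∑ m, F 𝒞 (t :: Vs) m (v' m) = ∑ m, F 𝒞 (t :: Vs) m (v m) := by
  classical
  -- the slices
  obtain ⟨sl, hsl0, hsl1⟩ : ∃ sl : (Fin (L + 1) → ℕ) → Fin k → (Mo r L → 𝒞.C),
      (∀ ρ i (κ : Mo r L), κ t = 0 → sl ρ i κ = v i (Function.update κ t ρ)) ∧
      (∀ ρ i (κ : Mo r L), κ t ≠ 0 → sl ρ i κ = 0) :=
    ⟨fun ρ i κ => if κ t = 0 then v i (Function.update κ t ρ) else 0,
      fun ρ i κ hκ => if_pos hκ, fun ρ i κ hκ => if_neg hκ⟩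
  have key : ∀ ρ : Fin (L + 1) → ℕ, ∃ c : Fin k → Fin k → (Mo r L → 𝒞.C),
      (∀ i m, InE 𝒞 Vs (μ - 1 - n - 1) (j - a - a) (c i m)) ∧ (∀ i m, c i m = - c m i) ∧
      (∑ l, ρ l = n → ∀ i, sl ρ i = ∑ m, F 𝒞 Vs m (c i m)) := by
    intro ρ
    by_cases hρ : ∑ l, ρ l = n
    · have hE : ∀ i, InE 𝒞 Vs (μ - 1 - n) (j - a) (sl ρ i) := by
        intro i
        refine ⟨fun κ hκ => ?_, fun κ hκ => ?_, fun κ => ?_⟩
        · by_cases h1 : κ t = 0
          · rw [hsl0 ρ i κ h1] at hκ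
            have h2 := (hv i).deg _ hκ
            have h3 := tdeg_update t κ ρ
            have h4 : dg t κ = 0 := by
              unfold dg
              simp [h1]
            omega
          · exact absurd (hsl1 ρ i κ h1) hκ
        · by_cases h1 : κ t = 0
          · rw [hsl0 ρ i κ h1] at hκ
            intro t' ht' l
            by_cases h2 : t' = t
            · subst h2
              rw [h1]
              rfl
            · have h3 := (hv i).sup _ hκ t' (by
                rw [List.mem_cons, not_or]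
                exact ⟨h2, ht'⟩) l
              rwa [Function.update_of_ne h2] at h3
          · exact absurd (hsl1 ρ i κ h1) hκ
        · by_cases h1 : κ t = 0
          · rw [hsl0 ρ i κ h1, (hv i).hom]
          · rw [hsl1 ρ i κ h1, map_zero]
      have hsum : ∑ i, F 𝒞 Vs i (sl ρ i) = 0 := by
        funext κ
        rw [Finset.sum_apply, Pi.zero_apply]
        by_cases h1 : κ t = 0
        · have h2 := hs (Function.update κ t ρ) (by rw [dg_update_self, hρ]; omega)
          rw [Finset.sum_apply] at h2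
          refine Eq.trans (Finset.sum_congr rfl fun m _ => ?_) h2
          rw [h.F_cons 𝒞 t Vs m (v m) (Function.update κ t ρ) ht]
          have h3 : (∑ l, if Function.update κ t ρ t l ≠ 0 then
              𝒞.X t m l (v m (dn t l (Function.update κ t ρ))) else 0) = 0 := by
            refine Finset.sum_eq_zero fun l _ => ?_
            split_ifs with h4
            · have h5 := dg_dn t l _ h4
              rw [dg_update_self, hρ] at h5
              rw [hn m _ (by omega), map_zero]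
            · rfl
          rw [h3, zero_add]
          refine F_congr 𝒞 Vs m _ _ _ _ ?_ ?_
          · intro t' ht' l
            have h4 : t' ≠ t := fun h5 => ht (h5 ▸ ht')
            rw [Function.update_of_ne h4]
          · intro t' ht' l _
            have h4 : t' ≠ t := fun h5 => ht (h5 ▸ ht')
            rw [hsl0 ρ m _ (by rw [dn_at_ne h4]; exact h1), dn_update h4]
        · refine Finset.sum_eq_zero fun m _ => F_zero_of 𝒞 Vs m _ _ ?_
          intro t' ht' l _
          have h4 : t' ≠ t := fun h5 => ht (h5 ▸ ht')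
          exact hsl1 ρ m _ (by rw [dn_at_ne h4]; exact h1)
      obtain ⟨c, hc1, hc2, hc3⟩ := hK (μ - 1 - n) (j - a) (by omega) (by omega) _ hE hsum
      exact ⟨c, hc1, hc2, fun _ => hc3⟩
    · exact ⟨fun _ _ => 0, fun _ _ => h.InE_zero 𝒞 _ _ _, fun _ _ => by simp,
        fun h1 => absurd h1 hρ⟩
  choose c hc1 hc2 hc3 using key
  -- assemble
  set C : Fin k → Fin k → (Mo r L → 𝒞.C) := fun i m κ =>
    if dg t κ = n then c (κ t) i m (Function.update κ t 0) else 0 with hC
  have hC1 : ∀ i m, InE 𝒞 (t :: Vs) (μ - 1 - 1) (j - a - a) (C i m) := by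
    intro i m
    refine ⟨fun κ hκ => ?_, fun κ hκ => ?_, fun κ => ?_⟩
    · by_cases h1 : dg t κ = n
      · simp only [hC, h1, if_true] at hκ
        have h2 := (hc1 (κ t) i m).deg _ hκ
        have h3 := tdeg_update t κ 0
        simp only [Pi.zero_apply, Finset.sum_const_zero] at h3
        omega
      · simp only [hC, h1, if_false, ne_eq, not_true_eq_false] at hκ
    · by_cases h1 : dg t κ = n
      · simp only [hC, h1, if_true] at hκ
        intro t' ht' l
        rw [List.mem_cons, not_or] at ht'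
        have h3 := (hc1 (κ t) i m).sup _ hκ t' ht'.2 l
        rwa [Function.update_of_ne ht'.1] at h3
      · simp only [hC, h1, if_false, ne_eq, not_true_eq_false] at hκ
    · show 𝒞.π (j - a - a) (if dg t κ = n then c (κ t) i m (Function.update κ t 0) else 0) = _
      split_ifs with h1
      · rw [(hc1 (κ t) i m).hom]
        simp only [hC, h1, if_true]
      · rw [map_zero]
        simp only [hC, h1, if_false]
  have hC2 : ∀ i m, C i m = - C m i := by
    intro i m
    funext κ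
    rw [Pi.neg_apply]
    simp only [hC]
    split_ifs
    · rw [hc2 (κ t) i m, Pi.neg_apply]
    · rw [neg_zero]
  refine ⟨fun m => v m - ∑ n', F 𝒞 (t :: Vs) n' (C m n'), fun m => ?_, fun m κ hκ => ?_, ?_⟩
  · refine InE_sub h 𝒞 _ _ _ _ _ (hv m) (InE_sum h 𝒞 _ _ _ _ _ fun n' => ?_)
    have h1 := h.InE_F 𝒞 (t :: Vs) (μ - 1 - 1) (j - a - a) n' (C m n') (hC1 m n')
    rwa [sub_add_cancel, sub_add_cancel] at h1
  · show (v m - ∑ n', F 𝒞 (t :: Vs) n' (C m n')) κ = 0
    rw [Pi.sub_apply, Finset.sum_apply]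
    have h1 : ∀ n' : Fin k, F 𝒞 (t :: Vs) n' (C m n') κ = F 𝒞 Vs n' (C m n') κ := by
      intro n'
      rw [h.F_cons 𝒞 t Vs n' (C m n') κ ht]
      have h3 : (∑ l, if κ t l ≠ 0 then 𝒞.X t n' l (C m n' (dn t l κ)) else 0) = 0 := by
        refine Finset.sum_eq_zero fun l _ => ?_
        split_ifs with h4
        · have h5 := dg_dn t l κ h4
          have h6 : ¬ dg t (dn t l κ) = n := by omega
          simp only [hC, h6, if_false, map_zero]
        · rfl
      rw [h3, zero_add]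
    rw [Finset.sum_congr rfl fun n' _ => h1 n']
    by_cases h2 : dg t κ = n
    · have h3 : ∀ n' : Fin k, F 𝒞 Vs n' (C m n') κ =
          F 𝒞 Vs n' (c (κ t) m n') (Function.update κ t 0) := by
        intro n'
        refine F_congr 𝒞 Vs n' _ _ _ _ ?_ ?_
        · intro t' ht' l
          have h4 : t' ≠ t := fun h5 => ht (h5 ▸ ht')
          rw [Function.update_of_ne h4]
        · intro t' ht' l _
          have h4 : t' ≠ t := fun h5 => ht (h5 ▸ ht')
          have h5 : dg t (dn t' l κ) = n := by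
            unfold dg
            rw [dn_at_ne h4]
            exact h2
          simp only [hC, h5, if_true]
          rw [dn_at_ne h4, dn_update h4]
      rw [Finset.sum_congr rfl fun n' _ => h3 n']
      have h4 := congrFun (hc3 (κ t) h2 m) (Function.update κ t 0)
      rw [Finset.sum_apply, hsl0 (κ t) m _ (Function.update_self t 0 κ), Function.update_idem,
        Function.update_eq_self] at h4
      rw [← h4, sub_self]
    · have h3 : dg t κ < n := by omega
      rw [hn m κ h3, zero_sub, neg_eq_zero]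
      refine Finset.sum_eq_zero fun n' _ => F_zero_of 𝒞 Vs n' _ _ ?_
      intro t' ht' l _
      have h4 : t' ≠ t := fun h5 => ht (h5 ▸ ht')
      have h5 : ¬ dg t (dn t' l κ) = n := by
        unfold dg
        rw [dn_at_ne h4]
        exact h2
      simp only [hC, h5, if_false]
  · have h1 := h.F_anti 𝒞 (t :: Vs) C hC2
    have h2 : ∀ m : Fin k, F 𝒞 (t :: Vs) m (v m - ∑ n', F 𝒞 (t :: Vs) n' (C m n')) =
        F 𝒞 (t :: Vs) m (v m) - F 𝒞 (t :: Vs) m (∑ n', F 𝒞 (t :: Vs) n' (C m n')) :=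
      fun m => F_sub h 𝒞 _ _ _ _
    rw [Finset.sum_congr rfl fun m _ => h2 m, Finset.sum_sub_distrib, h1, sub_zero]

end

theorem specST2 (h : SpecFB) : SpecST2 := by
  intro r k L a 𝒞 t Vs D ht hK μ j hμ hj v κ0 hv hs
  have main : ∀ n : ℕ, n ≤ κ0 → ∃ v' : Fin k → (Mo r L → 𝒞.C),
      (∀ m, InE 𝒞 (t :: Vs) (μ - 1) (j - a) (v' m)) ∧
      (∀ m (κ : Mo r L), dg t κ < n → v' m κ = 0) ∧
      ∑ m, F 𝒞 (t :: Vs) m (v' m) = ∑ m, F 𝒞 (t :: Vs) m (v m) := by
    intro n
    induction n with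
    | zero =>
      intro _
      exact ⟨v, hv, fun m κ h1 => absurd h1 (Nat.not_lt_zero _), rfl⟩
    | succ n ih =>
      intro hn
      obtain ⟨w, hw1, hw2, hw3⟩ := ih (by omega)
      obtain ⟨w', hw1', hw2', hw3'⟩ := step h 𝒞 t Vs D ht hK μ j hμ hj n w hw1 hw2 (by
        intro κ hκ
        rw [hw3]
        exact hs κ (by omega))
      exact ⟨w', hw1', hw2', hw3'.trans hw3⟩
  exact main κ0 le_rfl

end ST2M

end FrI
end

section
/-!
# MP_921642_ag, FI: ST4, the Euler argument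
-/
set_option autoImplicit false

namespace FrI

namespace ST4M

variable {r k L : ℕ} {a : ℤ}

lemma up_apply (t : Fin r) (l : Fin (L + 1)) (κ : Mo r L) (t' : Fin r) (l' : Fin (L + 1)) :
    up t l κ t' l' = if t' = t ∧ l' = l then κ t' l' + 1 else κ t' l' := by
  unfold up
  by_cases h : t' = t
  · subst h
    by_cases h2 : l' = l
    · subst h2; simp
    · simp [h2]
  · simp [h]

lemma dn_apply (t : Fin r) (l : Fin (L + 1)) (κ : Mo r L) (t' : Fin r) (l' : Fin (L + 1)) :
    dn t l κ t' l' = if t' = t ∧ l' = l then κ t' l' - 1 else κ t' l' := by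
  unfold dn
  by_cases h : t' = t
  · subst h
    by_cases h2 : l' = l
    · subst h2; simp
    · simp [h2]
  · simp [h]

lemma dn_up (t : Fin r) (l : Fin (L + 1)) (κ : Mo r L) : dn t l (up t l κ) = κ := by
  funext t' l'
  rw [dn_apply, up_apply]
  split_ifs <;> simp_all

lemma up_dn (t : Fin r) (l : Fin (L + 1)) (κ : Mo r L) (h : κ t l ≠ 0) :
    up t l (dn t l κ) = κ := by
  funext t' l'
  rw [up_apply, dn_apply]
  split_ifs with h1
  · obtain ⟨rfl, rfl⟩ := h1
    omega
  · rfl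

lemma dn_up_comm (t : Fin r) (l : Fin (L + 1)) (t' : Fin r) (l' : Fin (L + 1)) (κ : Mo r L)
    (h : ¬ (t' = t ∧ l' = l)) : dn t' l' (up t l κ) = up t l (dn t' l' κ) := by
  funext s m
  simp only [up_apply, dn_apply]
  by_cases h1 : s = t' ∧ m = l'
  · obtain ⟨rfl, rfl⟩ := h1
    simp [h]
  · simp [h1]

lemma dn_dn_comm (t : Fin r) (l : Fin (L + 1)) (t' : Fin r) (l' : Fin (L + 1)) (κ : Mo r L) :
    dn t' l' (dn t l κ) = dn t l (dn t' l' κ) := by
  funext s m
  simp only [dn_apply]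
  split_ifs <;> rfl

lemma tdeg_up (t : Fin r) (l : Fin (L + 1)) (κ : Mo r L) : tdeg (up t l κ) = tdeg κ + 1 := by
  unfold tdeg dg
  have h1 : ∀ t' : Fin r, ∀ l' : Fin (L + 1), up t l κ t' l' =
      κ t' l' + if t' = t then (if l' = l then 1 else 0) else 0 := by
    intro t' l'
    rw [up_apply]
    by_cases h : t' = t <;> by_cases h2 : l' = l <;> simp [h, h2]
  simp_rw [h1, Finset.sum_add_distrib]
  congr 1
  rw [Finset.sum_eq_single t]
  · simp
  · intro b _ hb
    simp [hb]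
  · intro h
    exact absurd (Finset.mem_univ t) h

/-- multiplication by `Y t l` -/
noncomputable def Yl (𝒞 : Sys r k L a) (t : Fin r) (l : Fin (L + 1)) (g : Mo r L → 𝒞.C) :
    Mo r L → 𝒞.C :=
  fun κ => if κ t l ≠ 0 then g (dn t l κ) else 0

/-- the derivative -/
noncomputable def dl (𝒞 : Sys r k L a) (t : Fin r) (l : Fin (L + 1)) (g : Mo r L → 𝒞.C) :
    Mo r L → 𝒞.C :=
  fun κ => ((κ t l + 1 : ℕ) : ℂ) • g (up t l κ)

open Classical in
lemma F_eq (𝒞 : Sys r k L a) (Vs : List (Fin r)) (i : Fin k) (g : Mo r L → 𝒞.C) (κ : Mo r L) :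
    F 𝒞 Vs i g κ = ∑ t, ∑ l, if t ∈ Vs then 𝒞.X t i l (Yl 𝒞 t l g κ) else 0 := by
  unfold F Yl
  refine Finset.sum_congr rfl (fun t _ => Finset.sum_congr rfl (fun l _ => ?_))
  by_cases h : t ∈ Vs <;> by_cases h2 : κ t l = 0 <;> simp [h, h2]

lemma F_eq' (𝒞 : Sys r k L a) (Vs : List (Fin r)) (i : Fin k) (g : Mo r L → 𝒞.C)
    [DecidablePred (fun t => t ∈ Vs)] :
    F 𝒞 Vs i g = ∑ t, ∑ l, if t ∈ Vs then Yl 𝒞 t l (fun κ => 𝒞.X t i l (g κ)) else 0 := by
  funext κ
  rw [F_eq, Finset.sum_apply]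
  refine Finset.sum_congr rfl (fun t _ => ?_)
  rw [Finset.sum_apply]
  refine Finset.sum_congr rfl (fun l _ => ?_)
  by_cases h : t ∈ Vs
  · rw [if_pos h, if_pos h]
    unfold Yl
    by_cases h2 : κ t l = 0 <;> simp [h2]
  · rw [if_neg h, if_neg h]
    rfl

lemma Yl_add (𝒞 : Sys r k L a) (t : Fin r) (l : Fin (L + 1)) (g h : Mo r L → 𝒞.C) :
    Yl 𝒞 t l (g + h) = Yl 𝒞 t l g + Yl 𝒞 t l h := by
  funext κ
  simp only [Yl, Pi.add_apply]
  split_ifs <;> simp

lemma Yl_zero (𝒞 : Sys r k L a) (t : Fin r) (l : Fin (L + 1)) :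
    Yl 𝒞 t l 0 = 0 := by
  funext κ
  simp [Yl]

lemma Yl_neg (𝒞 : Sys r k L a) (t : Fin r) (l : Fin (L + 1)) (g : Mo r L → 𝒞.C) :
    Yl 𝒞 t l (-g) = - Yl 𝒞 t l g := by
  funext κ
  simp only [Yl, Pi.neg_apply]
  split_ifs <;> simp

lemma Yl_sum {ι : Type*} (𝒞 : Sys r k L a) (t : Fin r) (l : Fin (L + 1)) (s : Finset ι)
    (g : ι → Mo r L → 𝒞.C) :
    Yl 𝒞 t l (∑ x ∈ s, g x) = ∑ x ∈ s, Yl 𝒞 t l (g x) := by
  classical
  induction s using Finset.induction_on with
  | empty => simp [Yl_zero]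
  | insert x s hx ih => rw [Finset.sum_insert hx, Finset.sum_insert hx, Yl_add, ih]

lemma dl_add (𝒞 : Sys r k L a) (t : Fin r) (l : Fin (L + 1)) (g h : Mo r L → 𝒞.C) :
    dl 𝒞 t l (g + h) = dl 𝒞 t l g + dl 𝒞 t l h := by
  funext κ
  simp [dl]

lemma dl_zero (𝒞 : Sys r k L a) (t : Fin r) (l : Fin (L + 1)) :
    dl 𝒞 t l 0 = 0 := by
  funext κ
  simp [dl]

lemma dl_sum {ι : Type*} (𝒞 : Sys r k L a) (t : Fin r) (l : Fin (L + 1)) (s : Finset ι)
    (g : ι → Mo r L → 𝒞.C) :
    dl 𝒞 t l (∑ x ∈ s, g x) = ∑ x ∈ s, dl 𝒞 t l (g x) := by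
  classical
  induction s using Finset.induction_on with
  | empty => simp [dl_zero]
  | insert x s hx ih => rw [Finset.sum_insert hx, Finset.sum_insert hx, dl_add, ih]

/-- the derivative of `F_i g` -/
lemma dl_F (𝒞 : Sys r k L a) (Vs : List (Fin r)) (i : Fin k) (t : Fin r) (ht : t ∈ Vs)
    (l : Fin (L + 1)) (g : Mo r L → 𝒞.C) :
    dl 𝒞 t l (F 𝒞 Vs i g) = F 𝒞 Vs i (dl 𝒞 t l g) + fun κ => 𝒞.X t i l (g κ) := by
  classical
  funext κ
  have h0 : (𝒞.X t i l (g κ)) = ∑ t', ∑ l', if t' = t then (if l' = l then 𝒞.X t i l (g κ) else 0) else 0 := by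
    rw [Finset.sum_eq_single t]
    · simp
    · intro b _ hb
      simp [hb]
    · intro h
      exact absurd (Finset.mem_univ t) h
  rw [Pi.add_apply, F_eq, h0, ← Finset.sum_add_distrib]
  change ((κ t l + 1 : ℕ) : ℂ) • F 𝒞 Vs i g (up t l κ) = _
  rw [F_eq, Finset.smul_sum]
  refine Finset.sum_congr rfl (fun t' _ => ?_)
  rw [Finset.smul_sum, ← Finset.sum_add_distrib]
  refine Finset.sum_congr rfl (fun l' _ => ?_)
  by_cases hv : t' ∈ Vs
  · rw [if_pos hv, if_pos hv]
    unfold Yl dl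
    by_cases h : t' = t ∧ l' = l
    · obtain ⟨rfl, rfl⟩ := h
      have hu : up t' l' κ t' l' = κ t' l' + 1 := by rw [up_apply, if_pos ⟨rfl, rfl⟩]
      rw [dn_up, hu, if_pos (Nat.succ_ne_zero _), if_pos rfl, if_pos rfl]
      by_cases hk : κ t' l' = 0
      · simp [hk]
      · rw [if_pos hk, up_dn _ _ _ hk, dn_apply, if_pos ⟨rfl, rfl⟩, Nat.sub_add_cancel (by omega),
          LinearMap.map_smul]
        push_cast
        rw [add_smul, one_smul]
    · have h3 : (if t' = t then (if l' = l then 𝒞.X t i l (g κ) else 0) else 0) = 0 := by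
        by_cases h1 : t' = t
        · rw [if_pos h1, if_neg (fun h2 => h ⟨h1, h2⟩)]
        · rw [if_neg h1]
      have h' : ¬ (t = t' ∧ l = l') := fun h2 => h ⟨h2.1.symm, h2.2.symm⟩
      rw [h3, add_zero, up_apply, if_neg h, dn_up_comm _ _ _ _ _ h, dn_apply, if_neg h']
      by_cases hk : κ t' l' = 0
      · simp [hk]
      · rw [if_pos hk, if_pos hk, LinearMap.map_smul]
  · have h3 : (if t' = t then (if l' = l then 𝒞.X t i l (g κ) else 0) else 0) = 0 := by
      rw [if_neg]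
      rintro rfl
      exact hv ht
    rw [if_neg hv, if_neg hv, h3, smul_zero, zero_add]

lemma Yl_F (𝒞 : Sys r k L a) (Vs : List (Fin r)) (i : Fin k) (t : Fin r)
    (l : Fin (L + 1)) (g : Mo r L → 𝒞.C) :
    Yl 𝒞 t l (F 𝒞 Vs i g) = F 𝒞 Vs i (Yl 𝒞 t l g) := by
  classical
  funext κ
  rw [F_eq]
  by_cases hk : κ t l = 0
  · rw [Yl, if_neg (by simpa using hk)]
    symm
    refine Finset.sum_eq_zero (fun t' _ => Finset.sum_eq_zero (fun l' _ => ?_))
    split_ifs with hv
    · have : Yl 𝒞 t' l' (Yl 𝒞 t l g) κ = 0 := by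
        unfold Yl
        have h2 : dn t' l' κ t l = 0 := by
          rw [dn_apply]
          split_ifs <;> omega
        simp [h2]
      rw [this, map_zero]
    · rfl
  · rw [Yl, if_pos hk, F_eq]
    refine Finset.sum_congr rfl (fun t' _ => Finset.sum_congr rfl (fun l' _ => ?_))
    by_cases hv : t' ∈ Vs
    · rw [if_pos hv, if_pos hv]
      congr 1
      unfold Yl
      rw [dn_dn_comm]
      by_cases h : t' = t ∧ l' = l
      · obtain ⟨rfl, rfl⟩ := h
        have hu : dn t' l' κ t' l' = κ t' l' - 1 := by rw [dn_apply, if_pos ⟨rfl, rfl⟩]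
        rw [hu, if_pos hk]
      · have h' : ¬ (t = t' ∧ l = l') := fun h2 => h ⟨h2.1.symm, h2.2.symm⟩
        rw [dn_apply, if_neg h, dn_apply, if_neg h', if_pos hk]
    · rw [if_neg hv, if_neg hv]

lemma InE_dl (𝒞 : Sys r k L a) (Vs : List (Fin r)) (μ j : ℤ) (t : Fin r) (l : Fin (L + 1))
    (g : Mo r L → 𝒞.C) (hg : InE 𝒞 Vs μ j g) : InE 𝒞 Vs (μ - 1) j (dl 𝒞 t l g) := by
  have hne : ∀ κ, dl 𝒞 t l g κ ≠ 0 → g (up t l κ) ≠ 0 := by
    intro κ hκ h0
    exact hκ (by simp [dl, h0])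
  refine ⟨?_, ?_, ?_⟩
  · intro κ hκ
    have := hg.deg _ (hne κ hκ)
    rw [tdeg_up] at this
    push_cast at this
    omega
  · intro κ hκ t' ht' l'
    have := hg.sup _ (hne κ hκ) t' ht' l'
    rw [up_apply] at this
    split_ifs at this
    exact this
  · intro κ
    simp only [dl, LinearMap.map_smul, hg.hom]

lemma InE_Yl (𝒞 : Sys r k L a) (Vs : List (Fin r)) (μ j : ℤ) (t : Fin r) (ht : t ∈ Vs)
    (l : Fin (L + 1)) (g : Mo r L → 𝒞.C) (hg : InE 𝒞 Vs μ j g) :
    InE 𝒞 Vs (μ + 1) j (Yl 𝒞 t l g) := by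
  have hne : ∀ κ, Yl 𝒞 t l g κ ≠ 0 → κ t l ≠ 0 ∧ g (dn t l κ) ≠ 0 := by
    intro κ hκ
    unfold Yl at hκ
    by_cases h : κ t l = 0
    · simp [h] at hκ
    · rw [if_pos h] at hκ
      exact ⟨h, hκ⟩
  refine ⟨?_, ?_, ?_⟩
  · intro κ hκ
    obtain ⟨h1, h2⟩ := hne κ hκ
    have := hg.deg _ h2
    rw [← up_dn t l κ h1, tdeg_up]
    push_cast
    omega
  · intro κ hκ t' ht' l'
    obtain ⟨h1, h2⟩ := hne κ hκ
    have := hg.sup _ h2 t' ht' l'
    have hx : ¬ (t' = t ∧ l' = l) := by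
      rintro ⟨rfl, rfl⟩
      exact ht' ht
    rw [dn_apply, if_neg hx] at this
    exact this
  · intro κ
    unfold Yl
    split_ifs
    · exact hg.hom _
    · simp

/-- Euler's formula -/
lemma euler (𝒞 : Sys r k L a) (Vs : List (Fin r)) (μ j : ℤ)
    (g : Mo r L → 𝒞.C) (hg : InE 𝒞 Vs μ j g) [DecidablePred (fun t => t ∈ Vs)] :
    (∑ t, ∑ l, if t ∈ Vs then Yl 𝒞 t l (dl 𝒞 t l g) else 0) = (μ : ℂ) • g := by
  funext κ
  rw [Finset.sum_apply, Pi.smul_apply]
  have h1 : ∀ t l, (if t ∈ Vs then Yl 𝒞 t l (dl 𝒞 t l g) else 0) κ = ((κ t l : ℕ) : ℂ) • g κ := by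
    intro t l
    by_cases hv : t ∈ Vs
    · rw [if_pos hv]
      unfold Yl dl
      by_cases hk : κ t l = 0
      · simp [hk]
      · rw [if_pos hk, up_dn _ _ _ hk, dn_apply, if_pos ⟨rfl, rfl⟩, Nat.sub_add_cancel (by omega)]
    · rw [if_neg hv]
      by_cases h0 : g κ = 0
      · rw [h0, smul_zero]; rfl
      · rw [hg.sup κ h0 t hv l]
        simp
  have h2 : (∑ t, (∑ l, if t ∈ Vs then Yl 𝒞 t l (dl 𝒞 t l g) else 0) κ) =
      ((tdeg κ : ℕ) : ℂ) • g κ := by
    unfold tdeg dg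
    rw [Nat.cast_sum, Finset.sum_smul]
    refine Finset.sum_congr rfl (fun t _ => ?_)
    rw [Nat.cast_sum, Finset.sum_smul, Finset.sum_apply]
    exact Finset.sum_congr rfl (fun l _ => h1 t l)
  rw [h2]
  by_cases h0 : g κ = 0
  · rw [h0, smul_zero, smul_zero]
  · congr 1
    have := hg.deg κ h0
    rw [← this]
    push_cast
    rfl

end ST4M

open ST4M in
theorem ST4M.specST4 (hFB : SpecFB) : SpecST4 := by
  classical
  intro r k L a 𝒞 Vs D hST3
  have F_zero : ∀ m : Fin k, F 𝒞 Vs m 0 = 0 := by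
    intro m
    have := hFB.F_smul 𝒞 Vs m 0 0
    simpa using this
  have F_neg : ∀ (m : Fin k) (g : Mo r L → 𝒞.C), F 𝒞 Vs m (-g) = - F 𝒞 Vs m g := by
    intro m g
    have := hFB.F_smul 𝒞 Vs m (-1) g
    simpa using this
  have F_sum : ∀ {ι : Type} (s : Finset ι) (m : Fin k) (g : ι → Mo r L → 𝒞.C),
      F 𝒞 Vs m (∑ x ∈ s, g x) = ∑ x ∈ s, F 𝒞 Vs m (g x) := by
    intro ι s m g
    induction s using Finset.induction_on with
    | empty => simp [F_zero]
    | insert x s hx ih => rw [Finset.sum_insert hx, Finset.sum_insert hx, hFB.F_add, ih]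
  have InE_neg : ∀ (μ j : ℤ) (g : Mo r L → 𝒞.C), InE 𝒞 Vs μ j g → InE 𝒞 Vs μ j (-g) := by
    intro μ j g hg
    have := hFB.InE_smul 𝒞 Vs μ j (-1) g hg
    simpa using this
  have InE_sum : ∀ {ι : Type} (s : Finset ι) (μ j : ℤ) (g : ι → Mo r L → 𝒞.C),
      (∀ x ∈ s, InE 𝒞 Vs μ j (g x)) → InE 𝒞 Vs μ j (∑ x ∈ s, g x) := by
    intro ι s μ j g
    induction s using Finset.induction_on with
    | empty => intro _; simpa using hFB.InE_zero 𝒞 Vs μ j
    | insert x s hx ih =>
      intro h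
      rw [Finset.sum_insert hx]
      exact hFB.InE_add _ _ _ _ _ _ (h x (Finset.mem_insert_self _ _))
        (ih (fun y hy => h y (Finset.mem_insert_of_mem hy)))
  have key : ∀ n : ℕ, ∀ μ j : ℤ, μ < n → μ + 1 ≤ Vs.length → j + a ≤ D → Kos 𝒞 Vs μ j := by
    intro n
    induction n with
    | zero =>
      intro μ j hμ _ _ g hg _
      refine ⟨fun _ _ => 0, fun _ _ => hFB.InE_zero _ _ _ _, fun _ _ => by simp, fun i => ?_⟩
      rw [hFB.InE_neg_deg 𝒞 Vs μ j (g i) (by simpa using hμ) (hg i)]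
      simp [F_zero]
    | succ n ih =>
      intro μ j hμ hlen hD g hg hsum
      by_cases hneg : μ < 0
      · refine ⟨fun _ _ => 0, fun _ _ => hFB.InE_zero _ _ _ _, fun _ _ => by simp, fun i => ?_⟩
        rw [hFB.InE_neg_deg 𝒞 Vs μ j (g i) hneg (hg i)]
        simp [F_zero]
      · rw [not_lt] at hneg
        -- the derivative of the relation
        have hder : ∀ t ∈ Vs, ∀ l, (∑ i, fun κ => 𝒞.X t i l (g i κ)) =
            - ∑ m, F 𝒞 Vs m (dl 𝒞 t l (g m)) := by
          intro t ht l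
          have h1 : dl 𝒞 t l (∑ i, F 𝒞 Vs i (g i)) = 0 := by rw [hsum, dl_zero]
          rw [dl_sum] at h1
          simp_rw [dl_F 𝒞 Vs _ t ht l, Finset.sum_add_distrib] at h1
          exact (neg_eq_of_add_eq_zero_right h1).symm
        obtain ⟨d, hd, hgd⟩ := hST3 μ j hlen hD g hg (by
          intro t ht l
          refine ⟨fun m => - dl 𝒞 t l (g m), fun m => InE_neg _ _ _ (InE_dl _ _ _ _ _ _ _ (hg m)), ?_⟩
          intro κ
          have h1 := congrFun (hder t ht l) κ
          rw [Finset.sum_apply] at h1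
          rw [h1]
          simp_rw [F_neg, Finset.sum_neg_distrib])
        -- the new syzygies
        have hX : ∀ (t : Fin r) (l : Fin (L + 1)) (i m : Fin k),
            F 𝒞 Vs m (fun κ => 𝒞.X t i l (d i m κ)) = fun κ => 𝒞.X t i l (F 𝒞 Vs m (d i m) κ) :=
          fun t l i m => hFB.F_X 𝒞 Vs m t i l (d i m)
        have hE : ∀ t ∈ Vs, ∀ l, ∃ e : Fin k → Fin k → (Mo r L → 𝒞.C),
            (∀ i m, InE 𝒞 Vs (μ - 1 - 1) (j - a) (e i m)) ∧ (∀ i m, e i m = - e m i) ∧
            ∀ m, dl 𝒞 t l (g m) + ∑ i, (fun κ => 𝒞.X t i l (d i m κ)) =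
              ∑ n, F 𝒞 Vs n (e m n) := by
          intro t ht l
          refine ih (μ - 1) j (by push_cast at hμ; omega) (by omega) hD
            (fun m => dl 𝒞 t l (g m) + ∑ i, (fun κ => 𝒞.X t i l (d i m κ))) ?_ ?_
          · intro m
            refine hFB.InE_add _ _ _ _ _ _ (InE_dl _ _ _ _ _ _ _ (hg m)) ?_
            refine InE_sum _ _ _ _ (fun i _ => ?_)
            have := hFB.InE_X 𝒞 Vs (μ - 1) (j - a) t i l (d i m) (hd i m)
            rwa [sub_add_cancel] at this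
          · simp_rw [hFB.F_add, F_sum, hX]
            rw [Finset.sum_add_distrib, Finset.sum_comm]
            have h2 : ∀ i, (∑ m, fun κ => 𝒞.X t i l (F 𝒞 Vs m (d i m) κ)) =
                fun κ => 𝒞.X t i l (g i κ) := by
              intro i
              funext κ
              rw [Finset.sum_apply, ← map_sum]
              congr 1
              rw [hgd i, Finset.sum_apply]
            simp_rw [h2]
            rw [hder t ht l, add_neg_cancel]
        choose! e he1 he2 he3 using hE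
        -- the final formula
        set E : Fin k → Fin k → (Mo r L → 𝒞.C) := fun m n =>
          ∑ t, ∑ l, if t ∈ Vs then Yl 𝒞 t l (e t l m n) else 0 with hEdef
        have hEin : ∀ m n, InE 𝒞 Vs (μ - 1) (j - a) (E m n) := by
          intro m n
          refine InE_sum _ _ _ _ (fun t _ => InE_sum _ _ _ _ (fun l _ => ?_))
          split_ifs with ht
          · have := InE_Yl 𝒞 Vs (μ - 1 - 1) (j - a) t ht l _ (he1 t ht l m n)
            rwa [sub_add_cancel] at this
          · exact hFB.InE_zero _ _ _ _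
        have hEanti : ∀ m n, E m n = - E n m := by
          intro m n
          simp only [hEdef]
          rw [← Finset.sum_neg_distrib]
          refine Finset.sum_congr rfl (fun t _ => ?_)
          rw [← Finset.sum_neg_distrib]
          refine Finset.sum_congr rfl (fun l _ => ?_)
          split_ifs with ht
          · rw [he2 t ht l m n, Yl_neg]
          · simp
        have hmu : ∀ m, (μ : ℂ) • g m = (∑ n, F 𝒞 Vs n (E m n)) - ∑ i, F 𝒞 Vs i (d i m) := by
          intro m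
          rw [← euler 𝒞 Vs μ j (g m) (hg m)]
          have h3 : ∀ t l, (if t ∈ Vs then Yl 𝒞 t l (dl 𝒞 t l (g m)) else 0) =
              (∑ n, F 𝒞 Vs n (if t ∈ Vs then Yl 𝒞 t l (e t l m n) else 0)) -
                ∑ i, (if t ∈ Vs then Yl 𝒞 t l (fun κ => 𝒞.X t i l (d i m κ)) else 0) := by
            intro t l
            split_ifs with ht
            · have h4 : dl 𝒞 t l (g m) = (∑ n, F 𝒞 Vs n (e t l m n)) -
                  ∑ i, (fun κ => 𝒞.X t i l (d i m κ)) := by
                rw [← he3 t ht l m, add_sub_cancel_right]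
              rw [h4, sub_eq_add_neg, Yl_add, Yl_neg, Yl_sum, Yl_sum, ← sub_eq_add_neg]
              simp_rw [Yl_F]
            · simp [F_zero]
          simp_rw [h3, Finset.sum_sub_distrib]
          congr 1
          · simp only [hEdef]
            simp_rw [F_sum]
            symm
            rw [Finset.sum_comm]
            refine Finset.sum_congr rfl (fun t _ => ?_)
            rw [Finset.sum_comm]
          · simp_rw [F_eq']
            symm
            rw [Finset.sum_comm]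
            refine Finset.sum_congr rfl (fun t _ => ?_)
            rw [Finset.sum_comm]
        have hne : (μ : ℂ) + 1 ≠ 0 := by
          have : ((μ + 1 : ℤ) : ℂ) ≠ 0 := by
            rw [Int.cast_ne_zero]
            omega
          push_cast at this
          exact this
        refine ⟨fun m n => ((μ : ℂ) + 1)⁻¹ • (E m n + d m n + - d n m), ?_, ?_, ?_⟩
        · intro m n
          exact hFB.InE_smul _ _ _ _ _ _ (hFB.InE_add _ _ _ _ _ _
            (hFB.InE_add _ _ _ _ _ _ (hEin m n) (hd m n)) (InE_neg _ _ _ (hd n m)))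
        · intro m n
          show ((μ : ℂ) + 1)⁻¹ • (E m n + d m n + - d n m) =
            - (((μ : ℂ) + 1)⁻¹ • (E n m + d n m + - d m n))
          rw [← smul_neg, hEanti m n]
          congr 1
          abel
        · intro m
          simp_rw [hFB.F_smul, hFB.F_add, F_neg]
          rw [← Finset.smul_sum, Finset.sum_add_distrib, Finset.sum_add_distrib,
            Finset.sum_neg_distrib, ← hgd m]
          have h5 : ∑ n, F 𝒞 Vs n (E m n) + g m + -∑ n, F 𝒞 Vs n (d n m) =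
              ((μ : ℂ) + 1) • g m := by
            rw [add_smul, one_smul, hmu m]
            abel
          rw [h5, smul_smul, inv_mul_cancel₀ hne, one_smul]
  intro μ j hlen hD
  exact key (μ.toNat + 1) μ j (by push_cast; omega) hlen hD

end FrI
end

section
/-!
# THAG (MP_921642_ag, FI3): explicit existence of Tor-independent matrices
-/
set_option autoImplicit false

namespace FrI.THAGM

theorem choose_bound (n1 D : ℕ) (R0 : ℝ) (hR : Real.exp 1 ≤ R0)
    (h : ((n1 + D : ℕ) : ℝ) ≤ R0 * n1) :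
    ((n1 + D).choose n1 : ℝ) ≤ Real.exp (n1 * (1 + Real.log R0)) := by
  have hR0 : 0 < R0 := (Real.exp_pos 1).trans_le hR
  have h1 : ((n1 + D).choose n1 : ℝ) ≤ ((n1 + D : ℕ) : ℝ) ^ n1 / (n1.factorial : ℝ) :=
    Nat.choose_le_pow_div n1 (n1 + D)
  have h2 : (n1 : ℝ) ^ n1 / (n1.factorial : ℝ) ≤ Real.exp n1 :=
    Real.pow_div_factorial_le_exp _ (Nat.cast_nonneg _) _
  have h3 : (0 : ℝ) < (n1.factorial : ℝ) := by exact_mod_cast n1.factorial_pos
  have h4 : ((n1 + D : ℕ) : ℝ) ^ n1 ≤ (R0 * n1) ^ n1 :=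
    pow_le_pow_left₀ (Nat.cast_nonneg _) h n1
  calc ((n1 + D).choose n1 : ℝ) ≤ ((n1 + D : ℕ) : ℝ) ^ n1 / (n1.factorial : ℝ) := h1
    _ ≤ (R0 * n1) ^ n1 / (n1.factorial : ℝ) := div_le_div_of_nonneg_right h4 h3.le
    _ = R0 ^ n1 * ((n1 : ℝ) ^ n1 / (n1.factorial : ℝ)) := by rw [mul_pow]; ring
    _ ≤ R0 ^ n1 * Real.exp n1 := mul_le_mul_of_nonneg_left h2 (pow_nonneg hR0.le n1)
    _ = Real.exp (n1 * (1 + Real.log R0)) := by
        rw [mul_add, mul_one, Real.exp_add, Real.exp_nat_mul (Real.log R0), Real.exp_log hR0,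
          mul_comm]

theorem exp_half (r : ℕ) (hr : 1 ≤ r) :
    ((r : ℝ) - 1) * (Real.exp (1 / (2 * r)) - 1) ≤ 1 := by
  have hr' : (1 : ℝ) ≤ r := by exact_mod_cast hr
  obtain ⟨x, hx⟩ : ∃ x, x = 1 / (2 * (r : ℝ)) := ⟨_, rfl⟩
  have hx0 : 0 ≤ x := by rw [hx]; positivity
  have hxr : 2 * r * x = 1 := by rw [hx]; field_simp
  have hx1 : x ≤ 1 / 2 := by nlinarith
  have h1 : Real.exp x ≤ 1 + 2 * x := by
    have h2 : 1 - x ≤ Real.exp (-x) := by
      have := Real.add_one_le_exp (-x)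
      linarith
    have h3 : Real.exp x * Real.exp (-x) = 1 := by rw [← Real.exp_add]; simp
    have h4 : 0 < Real.exp x := Real.exp_pos x
    have h5 : Real.exp x * (1 - x) ≤ 1 :=
      (mul_le_mul_of_nonneg_left h2 h4.le).trans h3.le
    by_contra hc
    rw [not_le] at hc
    have h6 : (1 + 2 * x) * (1 - x) < Real.exp x * (1 - x) :=
      mul_lt_mul_of_pos_right hc (by linarith)
    nlinarith
  rw [← hx]
  have h7 : ((r : ℝ) - 1) * (Real.exp x - 1) ≤ ((r : ℝ) - 1) * (2 * x) :=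
    mul_le_mul_of_nonneg_left (by linarith) (by linarith)
  have h8 : ((r : ℝ) - 1) * (2 * x) = 1 - 2 * x := by linear_combination hxr
  linarith

theorem sum_le_length (l : List ℝ) (c : ℝ) (h : ∀ x ∈ l, x ≤ c) : l.sum ≤ l.length * c := by
  have := List.sum_le_card_nsmul l c h
  rwa [nsmul_eq_mul] at this

theorem specTHAG (hROUND : SpecROUND) (hPOT : SpecPOT2) : SpecTHAG := by
  intro n n1 D a s r L G R0 hr hn1 hrn hn ha haD hR hD hload hG hL
  have hr' : (1 : ℝ) ≤ r := by exact_mod_cast hr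
  have hr0 : (0 : ℝ) < r := by linarith
  have hR0 : 0 < R0 := (Real.exp_pos 1).trans_le hR
  have hlR : 1 ≤ Real.log R0 := by
    rw [Real.le_log_iff_exp_le hR0]
    exact hR
  have hlr : 0 ≤ Real.log r := Real.log_nonneg hr'
  have hn1' : (0 : ℝ) ≤ n1 := Nat.cast_nonneg _
  have hND : (1 : ℝ) ≤ (n : ℝ) + D + 1 := by
    have h1 : (0 : ℝ) ≤ n := Nat.cast_nonneg _
    have h2 : (0 : ℝ) ≤ D := Nat.cast_nonneg _
    linarith
  have hlN : 0 ≤ Real.log ((n : ℝ) + D + 1) := Real.log_nonneg hND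
  have hp1 : 0 ≤ 2 * r * Real.log r * Real.log R0 := by positivity
  have hp2 : 0 ≤ (n1 : ℝ) * (1 + Real.log R0) := by positivity
  have hG0 : 0 ≤ G := by linarith
  -- the exponent
  obtain ⟨γ, hγ⟩ : ∃ γ, γ = 1 / (2 * (r : ℝ) * Real.log R0) := ⟨_, rfl⟩
  have hden : 0 < 2 * (r : ℝ) * Real.log R0 := by positivity
  have hγ0 : 0 < γ := by rw [hγ]; positivity
  have hγm : γ * (2 * (r : ℝ) * Real.log R0) = 1 := by rw [hγ]; field_simp
  have hγ1 : γ ≤ 1 := by
    rw [hγ, div_le_one hden]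
    nlinarith
  have hRγ : R0 ^ γ = Real.exp (1 / (2 * r)) := by
    rw [Real.rpow_def_of_pos hR0, hγ]
    congr 1
    field_simp
  have hcond : ((r : ℝ) - 1) * (R0 ^ γ - 1) ≤ 1 := by
    rw [hRγ]
    exact exp_half r hr
  obtain ⟨Sm, hSm⟩ : ∃ Sm, Sm = Real.exp (n1 * (1 + Real.log R0)) := ⟨_, rfl⟩
  have hSm1 : 1 ≤ Sm := by
    rw [hSm]
    exact Real.one_le_exp hp2
  have hSmc : ((n1 + D).choose n1 : ℝ) ≤ Sm := by
    rw [hSm]
    exact choose_bound n1 D R0 hR hD
  have hR1 : 1 ≤ R0 := by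
    have : (1 : ℝ) ≤ Real.exp 1 := Real.one_le_exp zero_le_one
    linarith
  -- the load
  obtain ⟨μ, hμ⟩ : ∃ μ : Fin r → ℕ → ℝ, μ = fun _ α => if α = a then (s : ℝ) else 0 := ⟨_, rfl⟩
  have hμ0 : ∀ t α, 0 ≤ μ t α := by
    intro t α
    rw [hμ]
    show (0 : ℝ) ≤ if α = a then (s : ℝ) else 0
    split_ifs
    · exact Nat.cast_nonneg _
    · exact le_rfl
  have hμA : ∀ t α, a < α → μ t α = 0 := by
    intro t α hα
    rw [hμ]
    exact if_neg (by omega)
  have hμz : ∀ t, μ t 0 = 0 := by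
    intro t
    rw [hμ]
    exact if_neg (by omega)
  have hμa : ∀ t, μ t a = s := by
    intro t
    rw [hμ]
    exact if_pos rfl
  have hch : (0 : ℝ) < ((n + D).choose n : ℝ) := by
    exact_mod_cast Nat.choose_pos (by omega)
  have hloadle : ∀ t, load n D a (μ t) ≤ Real.exp (-G) := by
    intro t
    have e1 : load n D a (μ t) = (s : ℝ) * om n D a := by
      unfold load
      rw [Finset.sum_eq_single a]
      · rw [hμa]
      · intro α _ hne
        have : μ t α = 0 := by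
          rw [hμ]
          exact if_neg hne
        rw [this, zero_mul]
      · intro h
        exact absurd (Finset.mem_Icc.2 ⟨ha, le_rfl⟩) h
    rw [e1, om, if_pos haD, ← mul_div_assoc, div_le_iff₀ hch]
    exact hload
  have hload0 : ∀ t, 0 ≤ load n D a (μ t) := by
    intro t
    unfold load
    refine Finset.sum_nonneg fun α _ => mul_nonneg (hμ0 t α) ?_
    unfold om
    split_ifs
    · positivity
    · exact le_rfl
  obtain ⟨g, hg⟩ : ∃ g, g = (r : ℝ) * Real.exp (-(G * γ)) := ⟨_, rfl⟩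
  have hg0 : 0 < g := by rw [hg]; positivity
  have hsum : ∑ t, (load n D a (μ t)) ^ γ ≤ g := by
    have h1 : ∀ t ∈ (Finset.univ : Finset (Fin r)), (load n D a (μ t)) ^ γ ≤
        Real.exp (-(G * γ)) := by
      intro t _
      have h2 := Real.rpow_le_rpow (hload0 t) (hloadle t) hγ0.le
      refine h2.trans (le_of_eq ?_)
      rw [← Real.exp_mul]
      congr 1
      ring
    refine (Finset.sum_le_card_nsmul _ _ _ h1).trans (le_of_eq ?_)
    rw [Finset.card_univ, Fintype.card_fin, nsmul_eq_mul, hg]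
  have hgp : g ^ (1 / γ) = Real.exp (2 * r * Real.log r * Real.log R0 - G) := by
    rw [Real.rpow_def_of_pos hg0, hg, Real.log_mul hr0.ne' (Real.exp_pos _).ne', Real.log_exp]
    congr 1
    have h1 : 1 / γ = 2 * (r : ℝ) * Real.log R0 := by
      rw [hγ, one_div_one_div]
    rw [h1]
    linear_combination (-G) * hγm
  obtain ⟨τ, hval, hlen, hB⟩ := hPOT r n1 γ R0 Sm hr hn1 hrn hγ0 hγ1 hR1 hcond hSm1 a n D μ g hn hD
    hSmc hμ0 hμA hsum
  -- the bound at the leaves
  obtain ⟨lam, hlam⟩ : ∃ lam, lam = Real.exp (G / 2) := ⟨_, rfl⟩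
  have hlam1 : 1 ≤ lam := by
    rw [hlam]
    exact Real.one_le_exp (by linarith)
  have hlam0 : 0 < lam := by linarith
  have hleaf : ∀ B ∈ lv τ D, ∀ t, 0 ≤ B t a ∧ lam * ((s : ℝ) * B t a) ≤ 1 := by
    intro B hBm t
    obtain ⟨h1, h2⟩ := hB B hBm t
    refine ⟨h1 a, ?_⟩
    have e1 : ∑ α ∈ Finset.range (a + 1), μ t α * B t α = (s : ℝ) * B t a := by
      rw [Finset.sum_eq_single a]
      · rw [hμa]
      · intro α _ hne
        have : μ t α = 0 := by
          rw [hμ]
          exact if_neg hne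
        rw [this, zero_mul]
      · intro h
        exact absurd (Finset.mem_range.2 (Nat.lt_succ_self a)) h
    rw [e1, hμz, zero_add, hgp, hSm] at h2
    have h3 : ((n - n1 + D + 1 : ℕ) : ℝ) ≤ Real.exp (Real.log ((n : ℝ) + D + 1)) := by
      rw [Real.exp_log (by linarith)]
      have : ((n - n1 + D + 1 : ℕ) : ℝ) ≤ ((n + D + 1 : ℕ) : ℝ) := by
        exact_mod_cast (by omega : n - n1 + D + 1 ≤ n + D + 1)
      push_cast at this ⊢
      linarith
    have h4 : (s : ℝ) * B t a ≤ Real.exp (-(G / 2)) := by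
      calc (s : ℝ) * B t a ≤ ((n - n1 + D + 1 : ℕ) : ℝ) *
            Real.exp (2 * r * Real.log r * Real.log R0 - G) *
            Real.exp (n1 * (1 + Real.log R0)) := h2
        _ ≤ Real.exp (Real.log ((n : ℝ) + D + 1)) *
            Real.exp (2 * r * Real.log r * Real.log R0 - G) *
            Real.exp (n1 * (1 + Real.log R0)) := by
              refine mul_le_mul_of_nonneg_right ?_ (Real.exp_pos _).le
              exact mul_le_mul_of_nonneg_right h3 (Real.exp_pos _).le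
        _ = Real.exp (Real.log ((n : ℝ) + D + 1) + (2 * r * Real.log r * Real.log R0 - G) +
            n1 * (1 + Real.log R0)) := by rw [Real.exp_add, Real.exp_add]
        _ ≤ Real.exp (-(G / 2)) := Real.exp_le_exp.2 (by linarith)
    calc lam * ((s : ℝ) * B t a) ≤ lam * Real.exp (-(G / 2)) :=
          mul_le_mul_of_nonneg_left h4 hlam0.le
      _ = 1 := by rw [hlam, ← Real.exp_add]; simp
  have hterm : ∀ B ∈ lv τ D, ∑ t : Fin r, (lam ^ (L + 2))⁻¹ *
      ∏ _i : Fin s, (1 + (lam - 1) * B t a) ≤ (r : ℝ) * ((lam ^ (L + 2))⁻¹ * Real.exp 1) := by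
    intro B hBm
    have h1 : ∀ t ∈ (Finset.univ : Finset (Fin r)), (lam ^ (L + 2))⁻¹ *
        ∏ _i : Fin s, (1 + (lam - 1) * B t a) ≤ (lam ^ (L + 2))⁻¹ * Real.exp 1 := by
      intro t _
      obtain ⟨h2, h3⟩ := hleaf B hBm t
      refine mul_le_mul_of_nonneg_left ?_ (by positivity)
      rw [Finset.prod_const, Finset.card_univ, Fintype.card_fin]
      have h4 : 0 ≤ (lam - 1) * B t a := mul_nonneg (by linarith) h2
      have h5 : 1 + (lam - 1) * B t a ≤ Real.exp ((lam - 1) * B t a) := by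
        have := Real.add_one_le_exp ((lam - 1) * B t a)
        linarith
      calc (1 + (lam - 1) * B t a) ^ s ≤ Real.exp ((lam - 1) * B t a) ^ s :=
            pow_le_pow_left₀ (by linarith) h5 s
        _ = Real.exp (s * ((lam - 1) * B t a)) := by rw [Real.exp_nat_mul]
        _ ≤ Real.exp 1 := by
            refine Real.exp_le_exp.2 ?_
            have h6 : 0 ≤ (s : ℝ) * B t a := mul_nonneg (Nat.cast_nonneg _) h2
            calc (s : ℝ) * ((lam - 1) * B t a) = lam * ((s : ℝ) * B t a) - (s : ℝ) * B t a := by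
                  ring
              _ ≤ 1 := by linarith
    refine (Finset.sum_le_card_nsmul _ _ _ h1).trans (le_of_eq ?_)
    rw [Finset.card_univ, Fintype.card_fin, nsmul_eq_mul]
  refine hROUND r L τ (n + 1) D s (fun _ _ => a) (fun _ => Finset.univ) lam hlam1 hval ?_
  have hfin := sum_le_length ((lv τ D).map (fun B => ∑ t : Fin r, (lam ^ (L + 2))⁻¹ *
      ∏ _i : Fin s, (1 + (lam - 1) * B t a))) ((r : ℝ) * ((lam ^ (L + 2))⁻¹ * Real.exp 1))
    (by
      intro x hx
      obtain ⟨B, hBm, rfl⟩ := List.mem_map.1 hx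
      exact hterm B hBm)
  rw [List.length_map] at hfin
  refine hfin.trans_lt ?_
  have hc1 : (((n - n1 + D).choose D : ℕ) : ℝ) ≤ ((n + D).choose D : ℝ) := by
    exact_mod_cast Nat.choose_le_choose D (by omega)
  have hc2 : (((lv τ D).length : ℕ) : ℝ) ≤ ((n + D).choose D : ℝ) :=
    (by exact_mod_cast hlen : (((lv τ D).length : ℕ) : ℝ) ≤ (((n - n1 + D).choose D : ℕ) : ℝ)).trans
      hc1
  have hc3 : (0 : ℝ) < ((n + D).choose D : ℝ) := by
    exact_mod_cast Nat.choose_pos (by omega)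
  have hlp : (lam ^ (L + 2))⁻¹ = Real.exp (-((L + 2) * (G / 2))) := by
    rw [Real.exp_neg, hlam, ← Real.exp_nat_mul]
    push_cast
    rfl
  calc (((lv τ D).length : ℕ) : ℝ) * ((r : ℝ) * ((lam ^ (L + 2))⁻¹ * Real.exp 1))
      ≤ ((n + D).choose D : ℝ) * ((r : ℝ) * ((lam ^ (L + 2))⁻¹ * Real.exp 1)) :=
        mul_le_mul_of_nonneg_right hc2 (by positivity)
    _ = Real.exp (Real.log ((n + D).choose D : ℝ) + Real.log r + 1 - (L + 2) * (G / 2)) := by
        rw [hlp, sub_eq_add_neg, Real.exp_add, Real.exp_add, Real.exp_add, Real.exp_log hc3,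
          Real.exp_log hr0]
        ring
    _ < 1 := by
        rw [Real.exp_lt_one_iff]
        linarith

end FrI.THAGM
end

section
set_option autoImplicit false

namespace FrI

theorem hHOR : SpecHOR := HORGM.specHORG HORWM.specHORW HOREM.specHORE
theorem hBASE : SpecBASE := BASEM.specBASE CNTM.specCNT
theorem hROUND : SpecROUND := ROUNDM.specROUND hHOR hBASE
theorem hOM : SpecOM := OMM.specOM
theorem hSTEP : SpecSTEP := STEPM.specSTEP hOM
theorem hPOT2 : SpecPOT2 := POT2M.specPOT2 hOM hSTEP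
theorem hTHAG : SpecTHAG := THAGM.specTHAG hROUND hPOT2
theorem hFB : SpecFB := FBM.specFB
theorem hST1 : SpecST1 := ST1M.specST1 hFB
theorem hST2 : SpecST2 := ST2M.specST2 hFB
theorem hST3 : SpecST3 := ST3M.specST3 hFB hST1 hST2
theorem hST4 : SpecST4 := ST4M.specST4 hFB
theorem hKOS : SpecKOS := KOSM.specKOS hFB hST3 hST4
theorem hBRI : SpecBRI := BRIGM.specBRIG BRKM.specBRK BRTM.specBRT
theorem hTRANS : SpecTRANS := TRANGM.specTRANG ASMM.specASM ASFM.specASF
theorem hREN : SpecREN := RENM.specREN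
theorem hFRV : SpecFRV := RENM.specFRV
theorem hFSR : SpecFSR := FSRM.specFSR
theorem hHILB : SpecHILB := HILBM.specHILB hFSR
theorem hSEMI : SpecSEMI := SEMGM.specSEMG hFSR SEMAM.specSEMA SEMBM.specSEMB
theorem hNUMA : SpecNUMA := NUMAM.specNUMA CAPQM.specCAPQ NUMA1M.specNUMA1 NUMA2M.specNUMA2
theorem hNUMB : SpecNUMB := NUMBM.specNUMB CAPBM.specCAPB NUMB2M.specNUMB2
theorem hNEGC : SpecNEGC := NEGCM.specNEGC
theorem hLV : SpecLV := LVM.specLV
theorem hLAM : SpecLAM := LAMM.specLAM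
theorem hEX : SpecEX := EXM.specEX hBRI hKOS hTRANS hFRV hHILB hREN
theorem hMAIN3 : SpecMAIN3 :=
  MAIN3M.specMAIN3 hTHAG hEX hNUMA hNUMB hSEMI hNEGC hLV hFSR hLAM

end FrI
end

section
/-!
# THAG4 (MP_921642_ag, FI4): existence of Tor-independent matrices, many columns
-/
set_option autoImplicit false

namespace FrI.THAG4M

open FrI.THAGM

/-- powers of sums of powers -/
theorem rpow_mul_rpow (c h γ : ℝ) (hc : 0 < c) (hh : 0 < h) (hγ : 0 < γ) :
    (c * h ^ γ) ^ (1 / γ) = Real.exp (1 / γ * Real.log c) * h := by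
  rw [Real.mul_rpow hc.le (Real.rpow_nonneg hh.le γ), ← Real.rpow_mul hh.le, mul_one_div_cancel hγ.ne',
    Real.rpow_one, Real.rpow_def_of_pos hc, mul_comm (Real.log c)]

theorem one_add_pow_le (x : ℝ) (hx : 0 ≤ x) (k : ℕ) : (1 + x) ^ k ≤ Real.exp (k * x) := by
  rw [Real.exp_nat_mul]
  refine pow_le_pow_left₀ (by linarith) ?_ k
  have := Real.add_one_le_exp x
  linarith

theorem specTHAG4 (hROUND : SpecROUND2) (hPA : SpecPA) : SpecTHAG4 := by
  intro n n1 n3 n4 X D a s r m L G R1 hr hm hn1 hmn hn14 hn43 hn3 hXm hn34 hnD ha haD hR hD hload hG hL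
  have hr' : (1 : ℝ) ≤ r := by exact_mod_cast hr
  have hr0 : (0 : ℝ) < r := by linarith
  have hm' : (1 : ℝ) ≤ m := by exact_mod_cast hm
  have hm0 : (0 : ℝ) < m := by linarith
  have hR0 : 0 < R1 := (Real.exp_pos 1).trans_le hR
  have hD1 : (1 : ℝ) ≤ D := by exact_mod_cast ha.trans haD
  have hD0 : (0 : ℝ) < D := by linarith
  have hn4' : (1 : ℝ) ≤ n4 := by exact_mod_cast hn1.trans hn14
  have hn4p : (0 : ℝ) < n4 := by linarith
  have hn3' : (1 : ℝ) ≤ n3 := by exact_mod_cast (by omega : 1 ≤ n3)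
  have hn3p : (0 : ℝ) < n3 := by linarith
  have hn34' : (n3 : ℝ) ≤ 2 * n4 := by exact_mod_cast hn34
  have hnD' : (n3 : ℝ) ≤ 2 * r * D := by exact_mod_cast hnD
  have hlR : 1 ≤ Real.log R1 := by
    rw [Real.le_log_iff_exp_le hR0]
    exact hR
  have hlr : 0 ≤ Real.log r := Real.log_nonneg hr'
  have hlm : 0 ≤ Real.log m := Real.log_nonneg hm'
  have hn1' : (0 : ℝ) ≤ n1 := Nat.cast_nonneg _
  have hL0 : (0 : ℝ) ≤ L := Nat.cast_nonneg _
  have hchX : (1 : ℝ) ≤ ((X + D).choose D : ℝ) := by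
    exact_mod_cast Nat.choose_pos (by omega)
  have hlX : 0 ≤ Real.log ((X + D).choose D : ℝ) := Real.log_nonneg hchX
  have hlD : 0 ≤ Real.log ((D : ℝ) + 1) := Real.log_nonneg (by linarith)
  have hp1 : 0 ≤ 2 * m * Real.log m * Real.log R1 := by positivity
  have hp2 : 0 ≤ (n1 : ℝ) * (1 + Real.log R1) := by positivity
  have hp3 : 0 ≤ 2 * (r : ℝ) * D / n3 := by positivity
  have hp4 : 0 ≤ (1 + 2 * (r : ℝ) * D / n3) * Real.log r := by positivity
  have hG0 : 0 ≤ G := by linarith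
  -- the exponent of phase C
  obtain ⟨γ, hγ⟩ : ∃ γ, γ = 1 / (2 * (m : ℝ) * Real.log R1) := ⟨_, rfl⟩
  have hden : 0 < 2 * (m : ℝ) * Real.log R1 := by positivity
  have hγ0 : 0 < γ := by rw [hγ]; positivity
  have hγ1 : γ ≤ 1 := by
    rw [hγ, div_le_one hden]
    nlinarith
  have hγi : 1 / γ = 2 * (m : ℝ) * Real.log R1 := by rw [hγ, one_div_one_div]
  have hRγ : R1 ^ γ = Real.exp (1 / (2 * m)) := by
    rw [Real.rpow_def_of_pos hR0, hγ]
    congr 1
    field_simp
  have hcond : ((m : ℝ) - 1) * (R1 ^ γ - 1) ≤ 1 := by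
    rw [hRγ]
    exact exp_half m hm
  obtain ⟨Sm, hSm⟩ : ∃ Sm, Sm = Real.exp (n1 * (1 + Real.log R1)) := ⟨_, rfl⟩
  have hSm1 : 1 ≤ Sm := by
    rw [hSm]
    exact Real.one_le_exp hp2
  have hSmc : ((n1 + D).choose n1 : ℝ) ≤ Sm := by
    rw [hSm]
    exact choose_bound n1 D R1 hR hD
  have hR1 : 1 ≤ R1 := by
    have : (1 : ℝ) ≤ Real.exp 1 := Real.one_le_exp zero_le_one
    linarith
  -- the ratio of phase B
  obtain ⟨RB, hRB⟩ : ∃ RB, RB = 1 + (D : ℝ) / n4 := ⟨_, rfl⟩
  have hRB1 : 1 ≤ RB := by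
    rw [hRB]
    have : 0 ≤ (D : ℝ) / n4 := by positivity
    linarith
  have hRBn : ((n4 + D : ℕ) : ℝ) ≤ RB * n4 := by
    rw [hRB]
    push_cast
    rw [add_mul, one_mul, div_mul_cancel₀ _ hn4p.ne']
  have hRBr : RB ^ r ≤ Real.exp (2 * r * D / n3) := by
    rw [hRB]
    refine (one_add_pow_le _ (by positivity) r).trans (Real.exp_le_exp.2 ?_)
    rw [← mul_div_assoc, div_le_div_iff₀ hn4p hn3p]
    have h1 : (r : ℝ) * D * n3 ≤ r * D * (2 * n4) := mul_le_mul_of_nonneg_left hn34' (by positivity)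
    linarith
  -- the exponent of phase A
  obtain ⟨γA, hγA⟩ : ∃ γA, γA = (n3 : ℝ) / (2 * r * D) := ⟨_, rfl⟩
  have hγA0 : 0 < γA := by rw [hγA]; positivity
  have hγA1 : γA ≤ 1 := by
    rw [hγA, div_le_one (by positivity)]
    exact hnD'
  have hγAi : 1 / γA = 2 * r * D / n3 := by rw [hγA, one_div_div]
  obtain ⟨RA, hRA⟩ : ∃ RA, RA = 1 + (D : ℝ) / n3 := ⟨_, rfl⟩
  have hRA1 : 1 ≤ RA := by
    rw [hRA]
    have : 0 ≤ (D : ℝ) / n3 := by positivity
    linarith
  have hRAn : ((n3 + D : ℕ) : ℝ) ≤ RA * n3 := by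
    rw [hRA]
    push_cast
    rw [add_mul, one_mul, div_mul_cancel₀ _ hn3p.ne']
  have hcondA : ((r : ℝ) - 1) * (RA ^ γA - 1) ≤ 1 := by
    have h1 : RA ≤ Real.exp ((D : ℝ) / n3) := by
      rw [hRA]
      have := Real.add_one_le_exp ((D : ℝ) / n3)
      linarith
    have h2 : RA ^ γA ≤ Real.exp (1 / (2 * r)) := by
      refine (Real.rpow_le_rpow (by linarith) h1 hγA0.le).trans (le_of_eq ?_)
      rw [← Real.exp_mul, hγA]
      congr 1
      field_simp
    have h3 := exp_half r hr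
    have h4 : ((r : ℝ) - 1) * (RA ^ γA - 1) ≤ ((r : ℝ) - 1) * (Real.exp (1 / (2 * r)) - 1) :=
      mul_le_mul_of_nonneg_left (by linarith) (by linarith)
    linarith
  -- the load
  obtain ⟨μ, hμ⟩ : ∃ μ : Fin r → ℕ → ℝ, μ = fun _ α => if α = a then (s : ℝ) else 0 := ⟨_, rfl⟩
  have hμ0 : ∀ t α, 0 ≤ μ t α := by
    intro t α
    rw [hμ]
    show (0 : ℝ) ≤ if α = a then (s : ℝ) else 0
    split_ifs
    · exact Nat.cast_nonneg _
    · exact le_rfl
  have hμA : ∀ t α, a < α → μ t α = 0 := by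
    intro t α hα
    rw [hμ]
    exact if_neg (by omega)
  have hμz : ∀ t, μ t 0 = 0 := by
    intro t
    rw [hμ]
    exact if_neg (by omega)
  have hμa : ∀ t, μ t a = s := by
    intro t
    rw [hμ]
    exact if_pos rfl
  have hch : (0 : ℝ) < ((n + D).choose n : ℝ) := by
    exact_mod_cast Nat.choose_pos (by omega)
  obtain ⟨W, hW⟩ : ∃ W, W = ((L : ℝ) + 1) * Real.exp (-G) := ⟨_, rfl⟩
  have hW0 : 0 < W := by rw [hW]; positivity
  have hloadle : ∀ t, load n D a (μ t) ≤ W := by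
    intro t
    have e1 : load n D a (μ t) = (s : ℝ) * om n D a := by
      unfold load
      rw [Finset.sum_eq_single a]
      · rw [hμa]
      · intro α _ hne
        have : μ t α = 0 := by
          rw [hμ]
          exact if_neg hne
        rw [this, zero_mul]
      · intro h
        exact absurd (Finset.mem_Icc.2 ⟨ha, le_rfl⟩) h
    rw [e1, om, if_pos haD, ← mul_div_assoc, div_le_iff₀ hch, hW]
    exact hload
  have hload0 : ∀ t, 0 ≤ load n D a (μ t) := by
    intro t
    unfold load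
    refine Finset.sum_nonneg fun α _ => mul_nonneg (hμ0 t α) ?_
    unfold om
    split_ifs
    · positivity
    · exact le_rfl
  obtain ⟨gA, hgA⟩ : ∃ gA, gA = (r : ℝ) * W ^ γA := ⟨_, rfl⟩
  have hWγ : 0 < W ^ γA := Real.rpow_pos_of_pos hW0 γA
  have hgA0 : 0 < gA := by rw [hgA]; positivity
  have hsum : ∑ t, (load n D a (μ t)) ^ γA ≤ gA := by
    have h1 : ∀ t ∈ (Finset.univ : Finset (Fin r)), (load n D a (μ t)) ^ γA ≤ W ^ γA := fun t _ =>
      Real.rpow_le_rpow (hload0 t) (hloadle t) hγA0.le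
    refine (Finset.sum_le_card_nsmul _ _ _ h1).trans (le_of_eq ?_)
    rw [Finset.card_univ, Fintype.card_fin, nsmul_eq_mul, hgA]
  have hgAp : gA ^ (1 / γA) = Real.exp (2 * r * D / n3 * Real.log r) * W := by
    rw [hgA, rpow_mul_rpow _ _ _ hr0 hW0 hγA0, hγAi]
  obtain ⟨h, hh⟩ : ∃ h, h = (r : ℝ) * gA ^ (1 / γA) * ((X + D).choose D : ℝ) * RB ^ r := ⟨_, rfl⟩
  have hRBp : 0 < RB ^ r := by positivity
  have hh0 : 0 < h := by
    rw [hh, hgAp]
    positivity
  have hhle : h ≤ Real.exp (Real.log r + 2 * r * D / n3 * Real.log r + Real.log ((X + D).choose D : ℝ) +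
      2 * r * D / n3) * W := by
    rw [hh, hgAp, Real.exp_add, Real.exp_add, Real.exp_add, Real.exp_log hr0,
      Real.exp_log (by linarith : (0 : ℝ) < ((X + D).choose D : ℝ))]
    have h1 : (r : ℝ) * (Real.exp (2 * r * D / n3 * Real.log r) * W) * ((X + D).choose D : ℝ) * RB ^ r ≤
        (r : ℝ) * (Real.exp (2 * r * D / n3 * Real.log r) * W) * ((X + D).choose D : ℝ) *
          Real.exp (2 * r * D / n3) := mul_le_mul_of_nonneg_left hRBr (by positivity)
    refine h1.trans (le_of_eq ?_)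
    ring
  have hmh : ((m : ℝ) * h ^ γ) ^ (1 / γ) = Real.exp (2 * m * Real.log m * Real.log R1) * h := by
    rw [rpow_mul_rpow _ _ _ hm0 hh0 hγ0, hγi]
    congr 2
    ring
  -- the strategy
  obtain ⟨τ, hval, hlen, hB⟩ := hPA r m n1 n3 n4 X a D γ R1 Sm RB h γA RA gA hr hm hn1 hmn hγ0 hγ1 hR1
    hcond hSm1 hRB1 hh0.le hn14 hXm hRBn hD hSmc hn43 hγA0 hγA1 hRA1 hcondA hRAn hgA0.le hh.ge n D μ
    le_rfl hn3 hμ0 hμA hsum
  -- the bound at the leaves
  obtain ⟨lam, hlam⟩ : ∃ lam, lam = Real.exp (G / 2) := ⟨_, rfl⟩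
  have hlam1 : 1 ≤ lam := by
    rw [hlam]
    exact Real.one_le_exp (by linarith)
  have hlam0 : 0 < lam := by linarith
  have hcap : D * ((m : ℝ) * h ^ γ) ^ (1 / γ) + ((m : ℝ) * h ^ γ) ^ (1 / γ) * Sm ≤
      ((L : ℝ) + 1) * Real.exp (-(G / 2)) := by
    rw [hmh]
    have hE : 0 < Real.exp (2 * m * Real.log m * Real.log R1) * h := by positivity
    have h1 : D * (Real.exp (2 * m * Real.log m * Real.log R1) * h) +
        Real.exp (2 * m * Real.log m * Real.log R1) * h * Sm ≤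
        (((D : ℝ) + 1) * Sm) * (Real.exp (2 * m * Real.log m * Real.log R1) * h) := by
      have h2 : (D : ℝ) ≤ D * Sm := le_mul_of_one_le_right hD0.le hSm1
      have h3 : (D : ℝ) * (Real.exp (2 * m * Real.log m * Real.log R1) * h) ≤
          (D * Sm) * (Real.exp (2 * m * Real.log m * Real.log R1) * h) :=
        mul_le_mul_of_nonneg_right h2 hE.le
      linarith
    refine h1.trans ?_
    have h4 : (((D : ℝ) + 1) * Sm) * (Real.exp (2 * m * Real.log m * Real.log R1) * h) ≤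
        (((D : ℝ) + 1) * Sm) * (Real.exp (2 * m * Real.log m * Real.log R1) *
          (Real.exp (Real.log r + 2 * r * D / n3 * Real.log r + Real.log ((X + D).choose D : ℝ) +
            2 * r * D / n3) * W)) := by
      refine mul_le_mul_of_nonneg_left ?_ (by positivity)
      exact mul_le_mul_of_nonneg_left hhle (Real.exp_pos _).le
    refine h4.trans ?_
    have h5 : (((D : ℝ) + 1) * Sm) * (Real.exp (2 * m * Real.log m * Real.log R1) *
          (Real.exp (Real.log r + 2 * r * D / n3 * Real.log r + Real.log ((X + D).choose D : ℝ) +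
            2 * r * D / n3) * W)) = ((L : ℝ) + 1) * Real.exp (Real.log ((D : ℝ) + 1) +
          n1 * (1 + Real.log R1) + 2 * m * Real.log m * Real.log R1 + (Real.log r +
          2 * r * D / n3 * Real.log r + Real.log ((X + D).choose D : ℝ) + 2 * r * D / n3) + -G) := by
      rw [hSm, hW, Real.exp_add (_ + _ + _ + _) (-G), Real.exp_add (_ + _ + _) (_ + _ + _ + _),
        Real.exp_add (_ + _) (2 * _ * _ * _), Real.exp_add (Real.log ((D : ℝ) + 1)),
        Real.exp_log (by linarith : (0 : ℝ) < (D : ℝ) + 1)]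
      ring
    rw [h5]
    refine mul_le_mul_of_nonneg_left (Real.exp_le_exp.2 ?_) (by positivity)
    linarith
  have hleaf : ∀ B ∈ lv τ D, ∀ t, 0 ≤ B t a ∧ lam * ((s : ℝ) * B t a) ≤ L + 1 := by
    intro B hBm t
    obtain ⟨h1, h2⟩ := hB B hBm t
    refine ⟨h1 a, ?_⟩
    have e1 : ∑ α ∈ Finset.range (a + 1), μ t α * B t α = (s : ℝ) * B t a := by
      rw [Finset.sum_eq_single a]
      · rw [hμa]
      · intro α _ hne
        have : μ t α = 0 := by
          rw [hμ]
          exact if_neg hne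
        rw [this, zero_mul]
      · intro h
        exact absurd (Finset.mem_range.2 (Nat.lt_succ_self a)) h
    rw [e1, hμz, zero_add] at h2
    have h4 : (s : ℝ) * B t a ≤ ((L : ℝ) + 1) * Real.exp (-(G / 2)) := h2.trans hcap
    calc lam * ((s : ℝ) * B t a) ≤ lam * (((L : ℝ) + 1) * Real.exp (-(G / 2))) :=
          mul_le_mul_of_nonneg_left h4 hlam0.le
      _ = ((L : ℝ) + 1) * (lam * Real.exp (-(G / 2))) := by ring
      _ = L + 1 := by rw [hlam, ← Real.exp_add]; simp
  have hterm : ∀ B ∈ lv τ D, ∑ t : Fin r, (lam ^ (L + 2))⁻¹ *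
      ∏ _i : Fin s, (1 + (lam - 1) * B t a) ≤ (r : ℝ) * ((lam ^ (L + 2))⁻¹ * Real.exp (L + 1)) := by
    intro B hBm
    have h1 : ∀ t ∈ (Finset.univ : Finset (Fin r)), (lam ^ (L + 2))⁻¹ *
        ∏ _i : Fin s, (1 + (lam - 1) * B t a) ≤ (lam ^ (L + 2))⁻¹ * Real.exp (L + 1) := by
      intro t _
      obtain ⟨h2, h3⟩ := hleaf B hBm t
      refine mul_le_mul_of_nonneg_left ?_ (by positivity)
      rw [Finset.prod_const, Finset.card_univ, Fintype.card_fin]
      have h4 : 0 ≤ (lam - 1) * B t a := mul_nonneg (by linarith) h2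
      refine (one_add_pow_le _ h4 s).trans (Real.exp_le_exp.2 ?_)
      have h6 : 0 ≤ (s : ℝ) * B t a := mul_nonneg (Nat.cast_nonneg _) h2
      calc (s : ℝ) * ((lam - 1) * B t a) = lam * ((s : ℝ) * B t a) - (s : ℝ) * B t a := by
            ring
        _ ≤ L + 1 := by linarith
    refine (Finset.sum_le_card_nsmul _ _ _ h1).trans (le_of_eq ?_)
    rw [Finset.card_univ, Fintype.card_fin, nsmul_eq_mul]
  refine hROUND r L τ (n + 1) D s (fun _ _ => a) (fun _ => Finset.univ) Finset.univ lam hlam1 hval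
    (fun t ht => absurd (Finset.mem_univ t) ht) ?_
  have hfin := sum_le_length ((lv τ D).map (fun B => ∑ t : Fin r, (lam ^ (L + 2))⁻¹ *
      ∏ _i : Fin s, (1 + (lam - 1) * B t a))) ((r : ℝ) * ((lam ^ (L + 2))⁻¹ * Real.exp (L + 1)))
    (by
      intro x hx
      obtain ⟨B, hBm, rfl⟩ := List.mem_map.1 hx
      exact hterm B hBm)
  rw [List.length_map] at hfin
  refine hfin.trans_lt ?_
  have hc1 : (((n - n1 + D).choose D : ℕ) : ℝ) ≤ ((n + D).choose D : ℝ) := by
    exact_mod_cast Nat.choose_le_choose D (by omega)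
  have hc2 : (((lv τ D).length : ℕ) : ℝ) ≤ ((n + D).choose D : ℝ) :=
    (by exact_mod_cast hlen : (((lv τ D).length : ℕ) : ℝ) ≤ (((n - n1 + D).choose D : ℕ) : ℝ)).trans
      hc1
  have hc3 : (0 : ℝ) < ((n + D).choose D : ℝ) := by
    exact_mod_cast Nat.choose_pos (by omega)
  have hlp : (lam ^ (L + 2))⁻¹ = Real.exp (-((L + 2) * (G / 2))) := by
    rw [Real.exp_neg, hlam, ← Real.exp_nat_mul]
    push_cast
    rfl
  calc (((lv τ D).length : ℕ) : ℝ) * ((r : ℝ) * ((lam ^ (L + 2))⁻¹ * Real.exp (L + 1)))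
      ≤ ((n + D).choose D : ℝ) * ((r : ℝ) * ((lam ^ (L + 2))⁻¹ * Real.exp (L + 1))) :=
        mul_le_mul_of_nonneg_right hc2 (by positivity)
    _ = Real.exp (Real.log ((n + D).choose D : ℝ) + Real.log r + (L + 1) - (L + 2) * (G / 2)) := by
        rw [hlp, sub_eq_add_neg, Real.exp_add (_ + _ + _), Real.exp_add (_ + _) (_ + _),
          Real.exp_add (Real.log ((n + D).choose D : ℝ)), Real.exp_log hc3, Real.exp_log hr0]
        ring
    _ < 1 := by
        rw [Real.exp_lt_one_iff]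
        linarith

end FrI.THAG4M
end
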