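import Pool.Agent.Lib.MP_921642_ag.FI.Spec4

section
/-! # FI/NUMC (helper29): assembly of the numbers, `n ≥ d^3` -/
set_option autoImplicit false

namespace FrI

open MvPolynomial Pool.Agent.Lib.MP_921642_ag

namespace NUMCM

theorem expb {A e : ℕ} (he : 1 ≤ e) (hlog : 30 ≤ Real.log ((e : ℝ) + A)) (hAe : A ≤ e)
    (hbig : 10 ^ 9 * (Real.log ((e : ℝ) + A)) ^ 4 * ((e : ℝ) + A) ^ 5 ≤ (A : ℝ) ^ 6) :
    8 * (e : ℝ) * Real.exp (4 - (A : ℝ) ^ 2 / ((e : ℝ) + A)) ≤
      Real.exp (-((A : ℝ) ^ 2 / (4 * ((e : ℝ) + A)))) := by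
  set lam := Real.log ((e : ℝ) + A) with hlam
  have he0 : (1 : ℝ) ≤ e := by exact_mod_cast he
  have hA0 : (0 : ℝ) ≤ A := Nat.cast_nonneg A
  have hAe' : (A : ℝ) ≤ e := by exact_mod_cast hAe
  set d : ℝ := (e : ℝ) + A with hd
  have hd0 : 0 < d := by linarith
  have hAd : (A : ℝ) ≤ d := by linarith
  have h1 : 10 ^ 9 * lam ^ 4 ≤ (A : ℝ) ^ 2 / d := by
    rw [le_div_iff₀ hd0]
    have h2 : (A : ℝ) ^ 6 ≤ (A : ℝ) ^ 2 * d ^ 4 := by
      have : (A : ℝ) ^ 6 = (A : ℝ) ^ 2 * (A : ℝ) ^ 4 := by ring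
      rw [this]
      exact mul_le_mul_of_nonneg_left (pow_le_pow_left₀ hA0 hAd 4) (by positivity)
    have h3 : (10 ^ 9 * lam ^ 4 * d) * d ^ 4 ≤ (A : ℝ) ^ 2 * d ^ 4 := by
      calc (10 ^ 9 * lam ^ 4 * d) * d ^ 4 = 10 ^ 9 * lam ^ 4 * d ^ 5 := by ring
        _ ≤ (A : ℝ) ^ 6 := hbig
        _ ≤ (A : ℝ) ^ 2 * d ^ 4 := h2
    exact le_of_mul_le_mul_right h3 (by positivity)
  have h2 : 2 * lam + 8 ≤ 10 ^ 9 * lam ^ 4 := by
    have h4 : 27000 ≤ lam ^ 3 := by
      have := pow_le_pow_left₀ (by norm_num : (0 : ℝ) ≤ 30) hlog 3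
      norm_num at this
      exact this
    have h5 : 27000 * lam ≤ lam ^ 4 := by
      have : lam ^ 4 = lam ^ 3 * lam := by ring
      rw [this]
      exact mul_le_mul_of_nonneg_right h4 (by linarith)
    nlinarith
  have hlog8 : Real.log 8 ≤ 3 := by
    have h8 : (8 : ℝ) ≤ Real.exp 3 := by
      have h := Real.add_one_le_exp (1 : ℝ)
      have h2 : Real.exp 3 = Real.exp 1 ^ 3 := by
        rw [← Real.exp_nat_mul]; norm_num
      rw [h2]
      have h3 : (2 : ℝ) ≤ Real.exp 1 := by linarith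
      have := pow_le_pow_left₀ (by norm_num : (0 : ℝ) ≤ 2) h3 3
      norm_num at this
      linarith
    rw [Real.log_le_iff_le_exp (by norm_num)]
    exact h8
  have hloge : Real.log e ≤ lam := by
    rw [hlam]
    exact Real.log_le_log (by linarith) (by linarith)
  have h8e : 8 * (e : ℝ) = Real.exp (Real.log 8 + Real.log e) := by
    rw [Real.exp_add, Real.exp_log (by norm_num), Real.exp_log (by linarith)]
  rw [h8e, ← Real.exp_add]
  apply Real.exp_le_exp.2
  have h4 : (A : ℝ) ^ 2 / (4 * d) = ((A : ℝ) ^ 2 / d) / 4 := by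
    rw [mul_comm, div_mul_eq_div_div]
  rw [h4]
  have h6 := h2.trans h1
  linarith

theorem specNUMC (h1 : SpecTHAG4) (h2 : SpecCAPC) (h3 : SpecNUMC2) (h4 : SpecNUMC3) :
    SpecNUMC := by
  intro n A e s hlog hAe hn hbig hs
  have hd30 : (30 : ℝ) ≤ (e : ℝ) + A := by
    have h := Real.add_one_le_exp (30 : ℝ)
    have hpos : (0 : ℝ) < (e : ℝ) + A := by
      by_contra hc
      have h0 : (e : ℝ) + A = 0 := le_antisymm (not_lt.1 hc) (by positivity)
      rw [h0, Real.log_zero] at hlog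
      linarith
    have h5 : Real.exp 30 ≤ (e : ℝ) + A := by
      rw [← Real.le_log_iff_exp_le hpos]
      exact hlog
    linarith
  have hdn : 30 ≤ e + A := by exact_mod_cast hd30
  have he1 : 15 ≤ e := by omega
  have hA2 : 2 ≤ A := by
    by_contra hc
    have hA1 : A ≤ 1 := by omega
    have hA1' : (A : ℝ) ≤ 1 := by exact_mod_cast hA1
    have h6 : (A : ℝ) ^ 6 ≤ 1 := pow_le_one₀ (Nat.cast_nonneg A) hA1'
    have h7 : (1 : ℝ) ≤ (Real.log ((e : ℝ) + A)) ^ 4 := one_le_pow₀ (by linarith)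
    have h8 : (1 : ℝ) ≤ ((e : ℝ) + A) ^ 5 := one_le_pow₀ (by linarith)
    have h9 : (10 : ℝ) ^ 9 ≤ 10 ^ 9 * (Real.log ((e : ℝ) + A)) ^ 4 * ((e : ℝ) + A) ^ 5 := by
      have : (1 : ℝ) ≤ (Real.log ((e : ℝ) + A)) ^ 4 * ((e : ℝ) + A) ^ 5 := one_le_mul_of_one_le_of_one_le h7 h8
      nlinarith
    have : (10 : ℝ) ^ 9 ≤ 1 := h9.trans (hbig.trans h6)
    norm_num at this
  -- the number of columns
  have hde : 0 < (e + A) * e := Nat.mul_pos (by omega) (by omega)
  have hcub : (e + A) * e ≤ n := by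
    have h5 : (e + A) * e ≤ (e + A) ^ 3 := by
      calc (e + A) * e ≤ (e + A) * (e + A) := Nat.mul_le_mul_left _ (by omega)
        _ = (e + A) * (e + A) * 1 := by ring
        _ ≤ (e + A) * (e + A) * (e + A) := Nat.mul_le_mul_left _ (by omega)
        _ = (e + A) ^ 3 := by ring
    omega
  have hq1 : 1 ≤ n / ((e + A) * e) := (Nat.one_le_div_iff hde).2 hcub
  obtain ⟨L, hL⟩ : ∃ L, L + 1 = n / ((e + A) * e) := ⟨n / ((e + A) * e) - 1, by omega⟩
  have hmul : (e + A) * (e * (L + 1)) ≤ n := by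
    have h5 := Nat.div_mul_le_self n ((e + A) * e)
    rw [← hL] at h5
    calc (e + A) * (e * (L + 1)) = (L + 1) * ((e + A) * e) := by ring
      _ ≤ n := h5
  have h2n : 2 * (e * (L + 1)) ≤ n := by
    have h5 : 2 * (e * (L + 1)) ≤ (e + A) * (e * (L + 1)) := Nat.mul_le_mul_right _ (by omega)
    omega
  obtain ⟨n', hn'⟩ : ∃ n', n' + e * (L + 1) = n := ⟨n - e * (L + 1), by omega⟩
  have hnn' : n ≤ 2 * n' := by omega
  -- inequalities
  have hC := h2 n A e L n' s hA2 hAe (by omega) hn hL hn' hs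
  have hcast : ((e + A : ℕ) : ℝ) = (e : ℝ) + A := by push_cast; ring
  obtain ⟨n1, n3, n4, X, m, R1, c1, c2, c3, c4, c5, c6, c7, c8, c9, c10, c11, c12⟩ :=
    h3 (e + A) A e (by rw [hcast]; exact hlog) rfl hAe (by rw [hcast]; exact hbig)
  have hN3 := h4 n n' A e L hlog hAe hn hbig hL (by omega)
  rw [hcast] at c12
  have hexp := expb (by omega : 1 ≤ e) hlog hAe hbig
  have hG2 : (A : ℝ) ^ 2 / (4 * ((e : ℝ) + A)) / 2 = ((A : ℝ) ^ 2 / ((e : ℝ) + A)) / 8 := by
    have : (0 : ℝ) < (e : ℝ) + A := by linarith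
    field_simp
    norm_num
  refine ⟨n', L, hn', h1 n' n1 n3 n4 X (e - 1) (A - 1) s e m L
    ((A : ℝ) ^ 2 / (4 * ((e : ℝ) + A))) R1 (by omega) c1 c2 c3 c4 c5 (by omega) c7 c8 c9
    (by omega) (by omega) c10 c11 ?_ ?_ ?_⟩
  · refine hC.trans ?_
    have hbin : (0 : ℝ) ≤ ((n' + (e - 1)).choose n' : ℝ) := Nat.cast_nonneg _
    apply mul_le_mul_of_nonneg_right _ hbin
    apply mul_le_mul_of_nonneg_left hexp
    positivity
  · rw [hG2]
    exact c12
  · rw [hG2]
    exact hN3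

end NUMCM

end FrI
end

section
/-!
# MP_921642_ag, FI4: the choice of the numbers (module NUMC2)
-/
set_option autoImplicit false

namespace FrI.NUMC2M

open FrI

theorem sq_ge (s : ℝ) (h : 120 ≤ s) : 14400 ≤ s ^ 2 := by nlinarith

theorem two_sq (Q s : ℝ) (hQ : 0 < Q) (h : 120 ≤ s) : 2 * (Q * s) ≤ 64 * Q * s ^ 2 := by
  have h1 : 2 * s ≤ 64 * s ^ 2 := by nlinarith
  have h2 := mul_le_mul_of_nonneg_left h1 hQ.le
  linarith

theorem m_bound (Q s : ℝ) (hQ : (10 : ℝ) ^ 14 ≤ Q) :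
    64 * Q * s ^ 2 + 1 ≤ (4160 * s ^ 2 + 1) * (Q / 65) := by
  have h : (4160 * s ^ 2 + 1) * (Q / 65) = 64 * Q * s ^ 2 + Q / 65 := by ring
  rw [h]
  linarith

theorem cube_bound (Q s : ℝ) (hQ : (10 : ℝ) ^ 14 ≤ Q) (hs : 120 ≤ s) :
    2 * (64 * Q * s ^ 2 + 1) ≤ (Q * s) ^ 3 := by
  have hQ0 : 0 < Q := by linarith
  have hs0 : 0 < s := by linarith
  have h0 : (14400 : ℝ) ≤ s ^ 2 := sq_ge s hs
  have h2 : (1 : ℝ) ≤ Q * s ^ 2 := by
    have : (1 : ℝ) * 1 ≤ Q * s ^ 2 := mul_le_mul (by linarith) (by linarith) (by norm_num) hQ0.le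
    linarith
  have h3 : 130 * (Q * s ^ 2) ≤ (Q * s) ^ 3 := by
    have h4 : (130 : ℝ) ≤ Q ^ 2 * s := by
      have h5 : (2 : ℝ) ^ 2 ≤ Q ^ 2 := pow_le_pow_left₀ (by norm_num) (by linarith) 2
      have h6 : (2 : ℝ) ^ 2 * 120 ≤ Q ^ 2 * s := mul_le_mul h5 hs (by norm_num) (by positivity)
      linarith
    have h5 : (Q * s) ^ 3 = (Q ^ 2 * s) * (Q * s ^ 2) := by ring
    rw [h5]
    exact mul_le_mul_of_nonneg_right h4 (by positivity)
  linarith

theorem prod_bound (Q s : ℝ) (hQ : (10 : ℝ) ^ 14 ≤ Q) (hs : 120 ≤ s) :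
    64 * Q * s ^ 2 + 1 ≤ 2 * (Q * s / 2) * (Q * s / 4) := by
  have hQ0 : 0 < Q := by linarith
  have h0 : (14400 : ℝ) ≤ s ^ 2 := sq_ge s hs
  have h4 : 2 * (Q * s / 2) * (Q * s / 4) = Q / 4 * (Q * s ^ 2) := by ring
  rw [h4]
  have h5 : (1 : ℝ) ≤ Q * s ^ 2 := by
    have : (1 : ℝ) * 1 ≤ Q * s ^ 2 := mul_le_mul (by linarith) (by linarith) (by norm_num) hQ0.le
    linarith
  have h6 : 65 * (Q * s ^ 2) ≤ Q / 4 * (Q * s ^ 2) := by
    refine mul_le_mul_of_nonneg_right ?_ (by positivity)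
    linarith
  linarith

/-- The numbers, in terms of `Q = d / s`, `s = lam / x^2`. -/
theorem core (d A e : ℕ) (lam Q s : ℝ) (hlam : 30 ≤ lam) (hlog : Real.log d = lam)
    (hd : d = e + A) (hAe : A ≤ e) (hs : 4 * lam ≤ s) (hQ : 10 ^ 9 * lam * s ^ 2 ≤ Q)
    (hQs : Q * s = d) (hu : Q * lam ≤ A) (hu2 : (A : ℝ) ^ 2 / d = Q * lam) :
    ∃ (n1 n3 n4 X m : ℕ) (R1 : ℝ), 1 ≤ m ∧ 1 ≤ n1 ∧ m ≤ n1 + 1 ∧ n1 ≤ n4 ∧ n4 + e ≤ n3 ∧
    2 * n3 ≤ d ^ 3 ∧
    n3 ≤ X * m ∧ n3 ≤ 2 * n4 ∧ n3 ≤ 2 * e * (e - 1) ∧ Real.exp 1 ≤ R1 ∧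
    ((n1 + (e - 1) : ℕ) : ℝ) ≤ R1 * n1 ∧
    Real.log (((e - 1 : ℕ) : ℝ) + 1) + n1 * (1 + Real.log R1) + 2 * m * Real.log m * Real.log R1 +
      (1 + 2 * e * (e - 1 : ℕ) / n3) * Real.log e + Real.log ((X + (e - 1)).choose (e - 1) : ℝ) +
      2 * e * (e - 1 : ℕ) / n3 ≤ ((A : ℝ) ^ 2 / d) / 8 := by
  have hs120 : 120 ≤ s := by linarith
  have hs2 : 14400 ≤ s ^ 2 := sq_ge s hs120
  have hls : 432000 ≤ lam * s ^ 2 := by
    have : (30 : ℝ) * 14400 ≤ lam * s ^ 2 := mul_le_mul hlam hs2 (by norm_num) (by linarith)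
    linarith
  have hQbig : (10 : ℝ) ^ 14 ≤ Q := by linarith
  have hQ0 : 0 < Q := by linarith
  have hs0 : 0 < s := by linarith
  have hl0 : 0 < lam := by linarith
  have hlsQ : 10 ^ 9 * (lam * s ^ 2) ≤ Q := by linarith
  have hs2Q : 10 ^ 9 * (30 * s ^ 2) ≤ Q := by
    have : 30 * s ^ 2 ≤ lam * s ^ 2 := mul_le_mul_of_nonneg_right hlam (by positivity)
    linarith
  have hdR : (d : ℝ) = e + A := by rw [hd]; push_cast; ring
  have hAeR : (A : ℝ) ≤ e := by exact_mod_cast hAe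
  have hd0 : (0 : ℝ) < d := by rw [← hQs]; positivity
  have hQd : Q ≤ d := by rw [← hQs]; exact le_mul_of_one_le_right hQ0.le (by linarith)
  have he2 : (d : ℝ) ≤ 2 * e := by linarith
  have hA0 : (0 : ℝ) ≤ A := Nat.cast_nonneg _
  have hed : (e : ℝ) ≤ d := by linarith
  have hebig : (10 : ℝ) ^ 14 / 2 ≤ e := by linarith
  have he1 : 1 ≤ e := by
    by_contra h
    have : e = 0 := by omega
    rw [this] at hebig
    norm_num at hebig
  have hee : ((e - 1 : ℕ) : ℝ) = (e : ℝ) - 1 := by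
    rw [Nat.cast_sub he1, Nat.cast_one]
  -- the numbers
  set P : ℝ := 64 * Q * s ^ 2 with hP
  have hP0 : 0 < P := by positivity
  set n3 : ℕ := ⌈P⌉₊ with hn3
  have n3l : P ≤ n3 := Nat.le_ceil _
  have n3u : (n3 : ℝ) ≤ P + 1 := (Nat.ceil_lt_add_one hP0.le).le
  set X : ℕ := ⌊Q / 64⌋₊ with hX
  have Xu : (X : ℝ) ≤ Q / 64 := Nat.floor_le (by positivity)
  have Xl : Q / 64 ≤ (X : ℝ) + 1 := (Nat.lt_floor_add_one _).le
  have Xl2 : Q / 65 ≤ (X : ℝ) := by
    have : (1 : ℝ) ≤ Q / 64 - Q / 65 := by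
      have : (10 : ℝ) ^ 14 / 4160 ≤ Q / 4160 := by gcongr
      have e1 : Q / 64 - Q / 65 = Q / 4160 := by ring
      rw [e1]
      refine le_trans ?_ this
      norm_num
    linarith
  have hX0 : (0 : ℝ) < X := lt_of_lt_of_le (by positivity) Xl2
  set n1 : ℕ := ⌊Q / 128⌋₊ with hn1
  have n1u : (n1 : ℝ) ≤ Q / 128 := Nat.floor_le (by positivity)
  have n1l : Q / 128 ≤ (n1 : ℝ) + 1 := (Nat.lt_floor_add_one _).le
  set m : ℕ := ⌈(n3 : ℝ) / X⌉₊ with hm
  have hn3pos : (0 : ℝ) < n3 := lt_of_lt_of_le hP0 n3l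
  have ml : (n3 : ℝ) / X ≤ m := Nat.le_ceil _
  have mu : (m : ℝ) ≤ (n3 : ℝ) / X + 1 :=
    (Nat.ceil_lt_add_one (div_nonneg hn3pos.le hX0.le)).le
  have mu2 : (m : ℝ) ≤ 4161 * s ^ 2 := by
    have h1 : (n3 : ℝ) / X ≤ 4160 * s ^ 2 + 1 := by
      rw [div_le_iff₀ hX0]
      have h2 : (4160 * s ^ 2 + 1) * (Q / 65) ≤ (4160 * s ^ 2 + 1) * X := by gcongr
      exact le_trans n3u (le_trans (m_bound Q s hQbig) h2)
    linarith
  have hn1pos : 1 ≤ n1 := by
    rw [hn1]
    refine Nat.le_floor ?_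
    rw [Nat.cast_one]
    linarith
  have hmn1 : (m : ℝ) ≤ Q / 128 := by
    refine mu2.trans ?_
    linarith
  have hP1 : 2 * (d : ℝ) ≤ P := by
    rw [hP, ← hQs]
    exact two_sq Q s hQ0 hs120
  have hen3 : 2 * e ≤ n3 := by
    have : ((2 * e : ℕ) : ℝ) ≤ n3 := by
      push_cast
      linarith
    exact_mod_cast this
  have hn1e : n1 + e ≤ n3 := by
    have : ((n1 + e : ℕ) : ℝ) ≤ n3 := by
      push_cast
      linarith
    exact_mod_cast this
  have hlogd : Real.log d = lam := hlog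
  have hloge : Real.log e ≤ lam := by
    rw [← hlogd]
    exact Real.log_le_log (by linarith) hed
  have hloge0 : 0 ≤ Real.log e := Real.log_natCast_nonneg e
  have hratio : 2 * (e : ℝ) * (e - 1 : ℕ) / n3 ≤ Q / 32 := by
    rw [div_le_iff₀ hn3pos]
    have h1 : 2 * (e : ℝ) * (e - 1 : ℕ) ≤ 2 * (Q * s) ^ 2 := by
      rw [hee, hQs, mul_assoc, sq]
      have h3 : (e : ℝ) * ((e : ℝ) - 1) ≤ d * d :=
        mul_le_mul hed (by linarith) (by linarith) hd0.le
      linarith
    refine h1.trans ?_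
    have h2 : Q / 32 * P ≤ Q / 32 * n3 := by gcongr
    refine le_trans (le_of_eq ?_) h2
    rw [hP]
    ring
  have hratio0 : 0 ≤ 2 * (e : ℝ) * (e - 1 : ℕ) / n3 := by positivity
  refine ⟨n1, n3, n3 - e, X, m, d, ?_, hn1pos, ?_, by omega, by omega, ?_, ?_, by omega, ?_, ?_,
    ?_, ?_⟩
  · have : (0 : ℝ) < m := lt_of_lt_of_le (div_pos hn3pos hX0) ml
    exact_mod_cast this
  · have : (m : ℝ) ≤ ((n1 + 1 : ℕ) : ℝ) := by
      push_cast
      linarith
    exact_mod_cast this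
  · have : ((2 * n3 : ℕ) : ℝ) ≤ ((d ^ 3 : ℕ) : ℝ) := by
      push_cast
      rw [← hQs]
      have h1 : 2 * (n3 : ℝ) ≤ 2 * (64 * Q * s ^ 2 + 1) := by linarith
      exact h1.trans (cube_bound Q s hQbig hs120)
    exact_mod_cast this
  · have : (n3 : ℝ) ≤ ((X * m : ℕ) : ℝ) := by
      push_cast
      rw [div_le_iff₀ hX0] at ml
      linarith
    exact_mod_cast this
  · have : (n3 : ℝ) ≤ ((2 * e * (e - 1) : ℕ) : ℝ) := by
      push_cast
      rw [hee]
      have h1 : Q * s / 2 ≤ e := by linarith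
      have h2 : Q * s / 4 ≤ (e : ℝ) - 1 := by
        have : Q ≤ Q * s := le_mul_of_one_le_right hQ0.le (by linarith)
        linarith
      have h3 : 2 * (Q * s / 2) * (Q * s / 4) ≤ 2 * (e : ℝ) * ((e : ℝ) - 1) := by
        have : 0 ≤ Q * s / 2 := by positivity
        have : 0 ≤ Q * s / 4 := by positivity
        gcongr
      exact n3u.trans ((prod_bound Q s hQbig hs120).trans h3)
    exact_mod_cast this
  · have h1 : Real.exp 1 ≤ Real.exp (Real.log d) := by
      refine Real.exp_le_exp.2 ?_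
      rw [hlogd]
      linarith
    rwa [Real.exp_log hd0] at h1
  · have h1 : n1 + (e - 1) ≤ d * n1 := by
      obtain ⟨b, rfl⟩ : ∃ b, e = b + 1 := ⟨e - 1, by omega⟩
      rw [Nat.add_sub_cancel, hd]
      have h2 : b ≤ b * n1 := Nat.le_mul_of_pos_right b hn1pos
      have h3 : (b + 1 + A) * n1 = b * n1 + n1 + A * n1 := by ring
      rw [h3]
      omega
    exact_mod_cast h1
  · -- the sum
    rw [hu2, hlogd, hee, sub_add_cancel]
    have b2 : (n1 : ℝ) * (1 + lam) ≤ Q * lam / 64 := by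
      have : (n1 : ℝ) * (1 + lam) ≤ (Q / 128) * (2 * lam) := by
        have : 1 + lam ≤ 2 * lam := by linarith
        gcongr
      linarith
    have hmpos : (0 : ℝ) < m := lt_of_lt_of_le (div_pos hn3pos hX0) ml
    have hlogm : Real.log m ≤ lam := by
      rw [← hlogd]
      exact Real.log_le_log hmpos (by linarith)
    have hlogm0 : 0 ≤ Real.log m := Real.log_natCast_nonneg m
    have b3 : 2 * (m : ℝ) * Real.log m * lam ≤ Q * lam / 10 ^ 5 := by
      have h1 : 2 * (m : ℝ) * Real.log m * lam ≤ 2 * (4161 * s ^ 2) * lam * lam := by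
        gcongr
      refine h1.trans ?_
      have h2 : 8322 * (lam * s ^ 2) ≤ Q / 10 ^ 5 := by
        rw [le_div_iff₀ (by positivity)]
        linarith
      have h3 := mul_le_mul_of_nonneg_right h2 hl0.le
      have e1 : 2 * (4161 * s ^ 2) * lam * lam = 8322 * (lam * s ^ 2) * lam := by ring
      have e2 : Q * lam / 10 ^ 5 = Q / 10 ^ 5 * lam := by ring
      rw [e1, e2]
      exact h3
    have b4 : (1 + 2 * (e : ℝ) * (e - 1 : ℕ) / n3) * Real.log e ≤ lam + Q * lam / 32 := by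
      have h1 : (1 + 2 * (e : ℝ) * (e - 1 : ℕ) / n3) * Real.log e ≤ (1 + Q / 32) * lam := by
        gcongr
      linarith
    have hXA : X + (e - 1) ≤ d := by
      have : (X : ℝ) ≤ A := by
        refine Xu.trans (le_trans ?_ hu)
        have : Q * 30 ≤ Q * lam := mul_le_mul_of_nonneg_left hlam hQ0.le
        linarith
      have : X ≤ A := by exact_mod_cast this
      omega
    have b5 : Real.log ((X + (e - 1)).choose (e - 1) : ℝ) ≤ Q * lam / 64 := by
      have h1 : (X + (e - 1)).choose (e - 1) ≤ d ^ X := by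
        rw [Nat.choose_symm_add.symm]
        exact (Nat.choose_le_pow (X + (e - 1)) X).trans (Nat.pow_le_pow_left hXA X)
      have h2 : ((X + (e - 1)).choose (e - 1) : ℝ) ≤ (d : ℝ) ^ X := by exact_mod_cast h1
      have h3 : (0 : ℝ) < ((X + (e - 1)).choose (e - 1) : ℝ) := by
        exact_mod_cast Nat.choose_pos (Nat.le_add_left _ _)
      have h4 := Real.log_le_log h3 h2
      rw [Real.log_pow, hlogd] at h4
      refine h4.trans ?_
      have : (X : ℝ) * lam ≤ Q / 64 * lam := by gcongr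
      linarith
    have b6 : 2 * (e : ℝ) * (e - 1 : ℕ) / n3 ≤ Q * lam / 960 := by
      refine hratio.trans ?_
      have : Q * 30 ≤ Q * lam := mul_le_mul_of_nonneg_left hlam hQ0.le
      linarith
    rw [hee] at b4 b6
    have b7 : 2 * lam ≤ Q * lam / 1000 := by
      rw [le_div_iff₀ (by norm_num)]
      have : (10 : ℝ) ^ 14 * lam ≤ Q * lam := mul_le_mul_of_nonneg_right hQbig hl0.le
      linarith
    have b8 : 0 < Q * lam := by positivity
    linarith

theorem specNUMC2 : SpecNUMC2 := by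
  intro d A e hlam hd hAe hA
  have hd0 : (0 : ℝ) < d := by
    rcases Nat.eq_zero_or_pos d with h | h
    · rw [h, Nat.cast_zero, Real.log_zero] at hlam
      norm_num at hlam
    · exact_mod_cast h
  set lam := Real.log d with hl
  have hl0 : 0 < lam := by linarith
  have hA0 : (0 : ℝ) < A := by
    rcases Nat.eq_zero_or_pos A with h | h
    · rw [h, Nat.cast_zero, zero_pow (by norm_num)] at hA
      have : 0 < 10 ^ 9 * lam ^ 4 * (d : ℝ) ^ 5 := by positivity
      linarith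
    · exact_mod_cast h
  have hdR : (d : ℝ) = e + A := by rw [hd]; push_cast; ring
  have hAeR : (A : ℝ) ≤ e := by exact_mod_cast hAe
  have h2A : 2 * (A : ℝ) ≤ d := by linarith
  have hw : 4 ≤ (d : ℝ) ^ 2 / (A : ℝ) ^ 2 := by
    rw [le_div_iff₀ (by positivity)]
    nlinarith
  have hls : 4 * lam ≤ lam * ((d : ℝ) ^ 2 / (A : ℝ) ^ 2) := by nlinarith
  refine core d A e lam ((A : ℝ) ^ 2 / (lam * d)) (lam * ((d : ℝ) ^ 2 / (A : ℝ) ^ 2)) hlam rfl hd
    hAe hls ?_ ?_ ?_ ?_
  · rw [le_div_iff₀ (by positivity)]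
    have e1 : 10 ^ 9 * lam * (lam * ((d : ℝ) ^ 2 / (A : ℝ) ^ 2)) ^ 2 * (lam * d) =
        10 ^ 9 * lam ^ 4 * (d : ℝ) ^ 5 / (A : ℝ) ^ 4 := by
      field_simp
    rw [e1, div_le_iff₀ (by positivity)]
    refine hA.trans (le_of_eq ?_)
    ring
  · field_simp
  · have e1 : (A : ℝ) ^ 2 / (lam * d) * lam = (A : ℝ) ^ 2 / d := by field_simp
    rw [e1, div_le_iff₀ hd0]
    nlinarith
  · field_simp

end FrI.NUMC2M
end

section
/-!
# FI4, module NUMC3
-/
set_option autoImplicit false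

namespace FrI

namespace NUMC3M

theorem choose_log {N D : ℕ} (h : D ≤ N) : Real.log (N.choose D : ℝ) ≤ D * Real.log N := by
  have h1 : (0 : ℝ) < (N.choose D : ℝ) := by exact_mod_cast Nat.choose_pos h
  have h2 : ((N.choose D : ℕ) : ℝ) ≤ (N : ℝ) ^ D := by
    exact_mod_cast Nat.choose_le_pow N D
  calc Real.log (N.choose D : ℝ) ≤ Real.log ((N : ℝ) ^ D) := Real.log_le_log h1 h2
    _ = D * Real.log N := Real.log_pow _ _

/-- **NUMC3.** -/
theorem specNUMC3 : SpecNUMC3 := by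
  intro n n' A e L hlam hAe hn hbig hL hn'
  set lam : ℝ := Real.log ((e : ℝ) + A) with hlamdef
  have he0 : 1 ≤ e := by
    rcases Nat.eq_zero_or_pos e with h | h
    · exfalso
      subst h
      have hA : A = 0 := by omega
      subst hA
      rw [hlamdef] at hlam
      norm_num at hlam
    · exact h
  have heR : (1 : ℝ) ≤ e := by exact_mod_cast he0
  have hAR : (A : ℝ) ≤ e := by exact_mod_cast hAe
  have hA0 : (0 : ℝ) ≤ A := Nat.cast_nonneg _
  set d : ℝ := (e : ℝ) + A with hd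
  have hd1 : 1 ≤ d := by linarith
  have hd0 : 0 < d := by linarith
  have hed : (e : ℝ) ≤ d := by linarith
  have hnR : d ^ 3 ≤ (n : ℝ) := by
    have : (((e + A) ^ 3 : ℕ) : ℝ) ≤ (n : ℝ) := by exact_mod_cast hn
    rw [hd]
    push_cast at this
    exact this
  -- X
  set X : ℝ := (A : ℝ) ^ 2 / d with hX
  have hX0 : 0 ≤ X := by positivity
  have hX1 : 1000 * lam ≤ X := by
    by_contra hcon
    push Not at hcon
    have h1 : X ^ 3 < (1000 * lam) ^ 3 := pow_lt_pow_left₀ hcon hX0 (by norm_num)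
    have h2 : X ^ 3 * d ^ 3 = (A : ℝ) ^ 6 := by
      rw [hX]
      field_simp
    have h3 : X ^ 3 * d ^ 3 < (1000 * lam) ^ 3 * d ^ 3 :=
      mul_lt_mul_of_pos_right h1 (by positivity)
    have h4 : (1000 * lam) ^ 3 * d ^ 3 ≤ 10 ^ 9 * lam ^ 4 * d ^ 5 := by
      have h5 : lam ^ 3 ≤ lam ^ 4 := pow_le_pow_right₀ (by linarith) (by norm_num)
      have h6 : d ^ 3 ≤ d ^ 5 := pow_le_pow_right₀ hd1 (by norm_num)
      calc (1000 * lam) ^ 3 * d ^ 3 = 10 ^ 9 * lam ^ 3 * d ^ 3 := by ring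
        _ ≤ 10 ^ 9 * lam ^ 4 * d ^ 5 := by
          apply mul_le_mul _ h6 (by positivity) (by positivity)
          exact mul_le_mul_of_nonneg_left h5 (by norm_num)
    linarith
  -- y
  set y : ℝ := (n : ℝ) / d ^ 3 with hy
  have hd3 : 0 < d ^ 3 := by positivity
  have hy1 : 1 ≤ y := by
    rw [hy, le_div_iff₀ hd3, one_mul]
    exact hnR
  have hyn : y * d ^ 3 = n := by
    rw [hy]
    field_simp
  have hlog : Real.log (2 * n) ≤ 4 * lam * y := by
    have h1 : (2 : ℝ) * n = 2 * (y * d ^ 3) := by rw [hyn]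
    rw [h1, Real.log_mul (by norm_num) (by positivity), Real.log_mul (by positivity) (by positivity),
      Real.log_pow]
    have h2 : Real.log 2 ≤ 2 - 1 := Real.log_le_sub_one_of_pos (by norm_num)
    have h3 : Real.log y ≤ y - 1 := Real.log_le_sub_one_of_pos (by linarith)
    have h4 : y + 3 * lam ≤ 4 * lam * y := by nlinarith
    push_cast
    linarith
  -- the choose
  have hC : Real.log ((n' + (e - 1)).choose (e - 1) : ℝ) ≤ 4 * lam * y * d := by
    have h1 := choose_log (N := n' + (e - 1)) (D := e - 1) (by omega)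
    have hnd : (((n' + (e - 1) : ℕ)) : ℝ) ≤ 2 * n := by
      have h2 : n' + (e - 1) ≤ n + e := by omega
      have h3 : (((n' + (e - 1) : ℕ)) : ℝ) ≤ ((n + e : ℕ) : ℝ) := by exact_mod_cast h2
      push_cast at h3 ⊢
      have h4 : d ≤ d ^ 3 := le_self_pow₀ hd1 (by norm_num)
      linarith
    have hlogpos : 0 ≤ Real.log (2 * n) := by
      apply Real.log_nonneg
      have : (1 : ℝ) ≤ d ^ 3 := one_le_pow₀ hd1
      linarith
    have h5 : Real.log (((n' + (e - 1) : ℕ)) : ℝ) ≤ Real.log (2 * n) := by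
      rcases Nat.eq_zero_or_pos (n' + (e - 1)) with h0 | h0
      · rw [h0]
        simpa using hlogpos
      · exact Real.log_le_log (by exact_mod_cast h0) hnd
    have h6 : ((e - 1 : ℕ) : ℝ) ≤ d := by
      have : ((e - 1 : ℕ) : ℝ) ≤ e := by exact_mod_cast Nat.sub_le e 1
      linarith
    calc Real.log ((n' + (e - 1)).choose (e - 1) : ℝ)
        ≤ ((e - 1 : ℕ) : ℝ) * Real.log (((n' + (e - 1) : ℕ)) : ℝ) := h1
      _ ≤ ((e - 1 : ℕ) : ℝ) * Real.log (2 * n) :=
          mul_le_mul_of_nonneg_left h5 (Nat.cast_nonneg _)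
      _ ≤ d * Real.log (2 * n) := mul_le_mul_of_nonneg_right h6 hlogpos
      _ ≤ d * (4 * lam * y) := mul_le_mul_of_nonneg_left hlog hd0.le
      _ = 4 * lam * y * d := by ring
  have hE : Real.log e ≤ lam := Real.log_le_log (by linarith) hed
  -- columns
  have hL2 : y * d < (L : ℝ) + 2 := by
    have hk : 0 < (e + A) * e := by positivity
    have h1 : n < (e + A) * e * (L + 2) := by
      have h2 := Nat.div_add_mod n ((e + A) * e)
      have h3 := Nat.mod_lt n hk
      rw [← hL] at h2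
      have h4 : (e + A) * e * (L + 2) = (e + A) * e * (L + 1) + (e + A) * e := by ring
      omega
    have h5 : (n : ℝ) < d * e * ((L : ℝ) + 2) := by
      have : (n : ℝ) < (((e + A) * e * (L + 2) : ℕ) : ℝ) := by exact_mod_cast h1
      rw [hd]
      push_cast at this
      exact this
    have h6 : d * e * ((L : ℝ) + 2) ≤ d * d * ((L : ℝ) + 2) := by
      apply mul_le_mul_of_nonneg_right _ (by positivity)
      exact mul_le_mul_of_nonneg_left hed hd0.le
    have h7 : (y * d) * (d * d) < ((L : ℝ) + 2) * (d * d) := by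
      calc (y * d) * (d * d) = y * d ^ 3 := by ring
        _ = n := hyn
        _ < d * e * ((L : ℝ) + 2) := h5
        _ ≤ d * d * ((L : ℝ) + 2) := h6
        _ = ((L : ℝ) + 2) * (d * d) := by ring
    exact lt_of_mul_lt_mul_right h7 (by positivity)
  have hyd : 1 ≤ y * d := by nlinarith
  have hlam0 : 0 < lam := by linarith
  have hS : 4 * lam * y * d + lam ≤ 5 * lam * (y * d) := by nlinarith
  have hT : 5 * lam * (y * d) < 5 * lam * ((L : ℝ) + 2) :=
    mul_lt_mul_of_pos_left hL2 (by linarith)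
  have hU : 5 * lam * ((L : ℝ) + 2) + ((L : ℝ) + 2) ≤ ((L : ℝ) + 2) * (X / 8) := by
    have h1 : 5 * lam + 1 ≤ X / 8 := by linarith
    have h2 : (0 : ℝ) ≤ (L : ℝ) + 2 := by positivity
    calc 5 * lam * ((L : ℝ) + 2) + ((L : ℝ) + 2) = ((L : ℝ) + 2) * (5 * lam + 1) := by ring
      _ ≤ ((L : ℝ) + 2) * (X / 8) := mul_le_mul_of_nonneg_left h1 h2
  linarith

end NUMC3M

end FrI
end

section
/-!
# MP_921642_ag, FI4: phase A of the game (module PA)
-/
set_option autoImplicit false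

namespace FrI.PAM

open FrI

theorem load_nonneg (h : SpecOM) (n D A : ℕ) (μ : ℕ → ℝ) (hμ : ∀ α, 0 ≤ μ α) :
    0 ≤ load n D A μ :=
  Finset.sum_nonneg fun α _ => mul_nonneg (hμ α) (h.nonneg n D α)

theorem load_zero (n A : ℕ) (μ : ℕ → ℝ) : load n 0 A μ = 0 := by
  unfold load
  refine Finset.sum_eq_zero fun α hα => ?_
  have h1 := (Finset.mem_Icc.1 hα).1
  rw [om, if_neg (by omega), mul_zero]

theorem load_le {r : ℕ} (h : SpecOM) (n D A : ℕ) (μ : Fin r → ℕ → ℝ) (γ g : ℝ) (hγ : 0 < γ)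
    (hμ : ∀ t α, 0 ≤ μ t α) (hg : ∑ t, (load n D A (μ t)) ^ γ ≤ g) (t : Fin r) :
    load n D A (μ t) ≤ g ^ (1 / γ) := by
  have h0 : ∀ t, 0 ≤ load n D A (μ t) := fun t => load_nonneg h n D A _ (hμ t)
  have h1 : (load n D A (μ t)) ^ γ ≤ g :=
    (Finset.single_le_sum (f := fun t => (load n D A (μ t)) ^ γ)
      (fun t _ => Real.rpow_nonneg (h0 t) _) (Finset.mem_univ t)).trans hg
  have h2 := Real.rpow_le_rpow (Real.rpow_nonneg (h0 t) _) h1 (z := 1 / γ) (by positivity)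
  rwa [← Real.rpow_mul (h0 t), mul_one_div_cancel hγ.ne', Real.rpow_one] at h2

theorem specPA (hOM : SpecOM) (hSTEP : SpecSTEP2) (hPB : SpecPB) (hNODE : SpecNODE)
    (hLEAF : SpecLEAF) : SpecPA := by
  intro r m n1 n3 n4 X A Dm γ R0 Sm RB h γA RA gA hr hm hn1 hmn hγ hγ1 hR0 hR02 hSm hRB hh
    hn14 hn3X hRBn hR0n hSmc hn43 hγA hγA1 hRA hRA2 hRAn hgA hbig
  -- constants
  have hc1 : (1 : ℝ) ≤ ((X + Dm).choose Dm : ℝ) := by
    exact_mod_cast Nat.choose_pos (Nat.le_add_left _ _)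
  have hRBr : (1 : ℝ) ≤ RB ^ r := one_le_pow₀ hRB
  have hr1 : (1 : ℝ) ≤ r := by exact_mod_cast hr
  have hm1 : (1 : ℝ) ≤ m := by exact_mod_cast hm
  have hgg : (0 : ℝ) ≤ gA ^ (1 / γA) := Real.rpow_nonneg hgA _
  have hgh : gA ^ (1 / γA) ≤ h := by
    refine le_trans ?_ hbig
    have e1 : gA ^ (1 / γA) ≤ r * gA ^ (1 / γA) := le_mul_of_one_le_left hgg hr1
    have e2 : r * gA ^ (1 / γA) ≤ r * gA ^ (1 / γA) * ((X + Dm).choose Dm : ℝ) :=
      le_mul_of_one_le_right (hgg.trans e1) hc1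
    have e3 : r * gA ^ (1 / γA) * ((X + Dm).choose Dm : ℝ) ≤
        r * gA ^ (1 / γA) * ((X + Dm).choose Dm : ℝ) * RB ^ r :=
      le_mul_of_one_le_right ((hgg.trans e1).trans e2) hRBr
    exact (e1.trans e2).trans e3
  set c : ℝ := (m * h ^ γ) ^ (1 / γ) with hc
  have hhc : h ≤ c := by
    have e1 : h ^ γ ≤ m * h ^ γ := le_mul_of_one_le_left (Real.rpow_nonneg hh _) hm1
    have e2 := Real.rpow_le_rpow (Real.rpow_nonneg hh _) e1 (z := 1 / γ) (by positivity)
    rwa [← Real.rpow_mul hh, mul_one_div_cancel hγ.ne', Real.rpow_one] at e2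
  have hc0 : 0 ≤ c := hh.trans hhc
  have hcS : 0 ≤ c * Sm := mul_nonneg hc0 (by linarith)
  -- induction
  suffices H : ∀ (k n D : ℕ) (μ : Fin r → ℕ → ℝ), n - n3 + D = k → D ≤ Dm → n3 ≤ n →
      (∀ t α, 0 ≤ μ t α) → (∀ t α, A < α → μ t α = 0) →
      ∑ t, (load n D A (μ t)) ^ γA ≤ gA →
      Win A n D Finset.univ μ ((n - n1 + D).choose D) (D * c + c * Sm) from
    fun n D μ hD hn hμ hA hg => H _ n D μ rfl hD hn hμ hA hg
  intro k
  induction k with
  | zero =>
    intro n D μ hk _ _ hμ _ _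
    have hD0 : D = 0 := by omega
    subst hD0
    refine hLEAF r A n 0 Finset.univ μ _ _ (Or.inl rfl)
      (Nat.choose_pos (Nat.le_add_left _ _)) hμ fun t => ?_
    rw [load_zero, zero_mul]
    push_cast
    linarith
  | succ k ih =>
    intro n D μ hk hD hn hμ hA hg
    rcases Nat.eq_zero_or_pos D with hD0 | hD1
    · subst hD0
      refine hLEAF r A n 0 Finset.univ μ _ _ (Or.inl rfl)
        (Nat.choose_pos (Nat.le_add_left _ _)) hμ fun t => ?_
      rw [load_zero, zero_mul]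
      push_cast
      linarith
    rcases Nat.eq_or_lt_of_le hn with hn' | hn'
    · -- phase B
      subst hn'
      refine hPB r m n1 n3 n4 X A Dm γ R0 Sm RB h hm hn1 hmn hγ hγ1 hR0 hR02 hSm hRB hh
        hn14 hn3X hRBn hR0n hSmc n3 D Finset.univ μ hD le_rfl (by simpa using hn43) hμ hA
        (fun t ht => absurd (Finset.mem_univ t) ht) ?_
      refine le_trans ?_ hbig
      have e1 : ∑ t, load n3 D A (μ t) ≤ r * gA ^ (1 / γA) := by
        refine (Finset.sum_le_sum fun t _ =>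
          load_le hOM n3 D A μ γA gA hγA hμ hg t).trans ?_
        rw [Finset.sum_const, Finset.card_univ, Fintype.card_fin, nsmul_eq_mul]
      have e2 : ((X + D).choose D : ℝ) ≤ ((X + Dm).choose Dm : ℝ) := by
        have a1 : (X + D).choose D = (X + D).choose X := by
          rw [Nat.choose_symm_add]
        have a2 : (X + Dm).choose Dm = (X + Dm).choose X := by
          rw [Nat.choose_symm_add]
        rw [a1, a2]
        exact_mod_cast Nat.choose_le_choose X (by omega : X + D ≤ X + Dm)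
      rw [Finset.card_univ, Fintype.card_fin]
      refine mul_le_mul_of_nonneg_right ?_ (by linarith)
      exact mul_le_mul e1 e2 (Nat.cast_nonneg _) (mul_nonneg (by linarith) hgg)
    · -- the step
      have hn1' : 1 ≤ n := by omega
      have hnR : ((n + D : ℕ) : ℝ) ≤ RA * n := by
        have h1 : (n3 : ℝ) ≤ n := by exact_mod_cast hn
        have h2 : (D : ℝ) ≤ Dm := by exact_mod_cast hD
        push_cast at hRAn ⊢
        nlinarith
      haveI : Nonempty (Fin r) := ⟨⟨0, by omega⟩⟩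
      obtain ⟨t0, _, p, hp0, hp, htr, hres, hmass⟩ := hSTEP r r Finset.univ γA RA
        Finset.univ_nonempty (by simp) hγA hγA1 hRA hRA2 A n D μ hn1' hD1 hnR hμ hA
      have hG0 : 0 ≤ ∑ t, (load n D A (μ t)) ^ γA :=
        Finset.sum_nonneg fun t _ => Real.rpow_nonneg (load_nonneg hOM n D A _ (hμ t)) _
      have hmass' : (1 - p 1) * μ t0 1 ≤ c :=
        ((hmass.trans (Real.rpow_le_rpow hG0 hg (by positivity))).trans hgh).trans hhc
      have w1 := ih (n - 1) D (trM t0 p μ) (by omega) hD (by omega)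
        (fun t α => by
          unfold trM
          split
          · exact mul_nonneg (hp α).1 (hμ t α)
          · exact hμ t α)
        (fun t α hα => by
          unfold trM
          rw [hA t α hα, mul_zero, ite_self])
        (htr.trans hg)
      have w2 := ih n (D - 1) (resM t0 p μ) (by omega) (by omega) hn
        (fun t α => by
          unfold resM
          split
          · exact add_nonneg (mul_nonneg (hp α).1 (hμ t α))
              (mul_nonneg (by linarith [(hp (α + 1)).2]) (hμ t (α + 1)))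
          · exact hμ t α)
        (fun t α hα => by
          unfold resM
          rw [hA t α hα, hA t (α + 1) (by omega), mul_zero, mul_zero, add_zero, ite_self])
        (hres.trans hg)
      obtain ⟨b, rfl⟩ : ∃ b, D = b + 1 := ⟨D - 1, by omega⟩
      obtain ⟨a, ha⟩ : ∃ a, n - n1 = a + 1 := ⟨n - n1 - 1, by omega⟩
      have ha' : n - 1 - n1 = a := by omega
      rw [ha'] at w1
      rw [ha, Nat.add_sub_cancel] at w2
      have ecap : (((b + 1 : ℕ) : ℝ)) * c + c * Sm = ((b : ℝ) * c + c * Sm) + c := by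
        push_cast
        ring
      rw [ecap] at w1 ⊢
      have hK : (n - n1 + (b + 1)).choose (b + 1) =
          (a + (b + 1)).choose (b + 1) + (a + 1 + b).choose b := by
        rw [ha]
        have e1 : a + (b + 1) = a + 1 + b := by ring
        have e2 : a + 1 + (b + 1) = a + 1 + b + 1 := by ring
        rw [e1, e2, Nat.choose_succ_succ']
        ring
      rw [hK]
      exact hNODE r A n (b + 1) Finset.univ Finset.univ μ t0 p _ _ _ c hn1' hD1 hp0 hp hμ hA
        (fun t ht ht' => absurd ht ht') hc0 hmass' w1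
        (by rw [Nat.add_sub_cancel]; exact w2)

end FrI.PAM
end

section
/-!
# MP_921642_ag, FI4: phase B of the fractional game (module PB)
-/
set_option autoImplicit false

namespace FrI.PBM

open FrI

theorem load_nonneg (h : SpecOM) (n D A : ℕ) (μ : ℕ → ℝ) (hμ : ∀ α, 0 ≤ μ α) :
    0 ≤ load n D A μ :=
  Finset.sum_nonneg fun α _ => mul_nonneg (hμ α) (h.nonneg n D α)

theorem load_zero (h : SpecOM) (n A : ℕ) (μ : ℕ → ℝ) : load n 0 A μ = 0 := by
  unfold load
  refine Finset.sum_eq_zero fun α hα => ?_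
  have h1 := (Finset.mem_Icc.1 hα).1
  rw [h.big n 0 α (by omega), mul_zero]

/-- `h ≤ (m h^γ)^(1/γ)`. -/
theorem h_le (m : ℕ) (γ h : ℝ) (hm : 1 ≤ m) (hγ : 0 < γ) (hh : 0 ≤ h) :
    h ≤ ((m : ℝ) * h ^ γ) ^ (1 / γ) := by
  have h0 : 0 ≤ h ^ γ := Real.rpow_nonneg hh _
  have h1 : h ^ γ ≤ (m : ℝ) * h ^ γ :=
    le_mul_of_one_le_left h0 (by exact_mod_cast hm)
  have h2 := Real.rpow_le_rpow h0 h1 (z := 1 / γ) (by positivity)
  rwa [← Real.rpow_mul hh, mul_one_div_cancel hγ.ne', Real.rpow_one] at h2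

/-- `choose (X+D) D = choose (X+D-1) (D-1) (X+D)/D`. -/
theorem choose_step (X D : ℕ) (hD : 1 ≤ D) :
    ((X + D).choose D : ℝ) = (1 + (X : ℝ) / D) * ((X + (D - 1)).choose (D - 1) : ℝ) := by
  obtain ⟨b, rfl⟩ : ∃ b, D = b + 1 := ⟨D - 1, by omega⟩
  have h1 := Nat.add_one_mul_choose_eq (X + b) b
  have h2 : ((X : ℝ) + b + 1) * ((X + b).choose b : ℝ) =
      ((X + (b + 1)).choose (b + 1) : ℝ) * ((b : ℝ) + 1) := by
    exact_mod_cast h1
  have hb : (0 : ℝ) < (b : ℝ) + 1 := by positivity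
  rw [Nat.add_sub_cancel]
  push_cast
  rw [← mul_right_inj' hb.ne']
  field_simp
  linarith

theorem choose_ge (X D : ℕ) (hD : 1 ≤ D) :
    1 + (X : ℝ) / D ≤ ((X + D).choose D : ℝ) := by
  rw [choose_step X D hD]
  have h1 : (1 : ℝ) ≤ ((X + (D - 1)).choose (D - 1) : ℝ) := by
    exact_mod_cast Nat.choose_pos (Nat.le_add_left _ _)
  have h2 : (0 : ℝ) ≤ 1 + (X : ℝ) / D := by positivity
  exact le_mul_of_one_le_right h2 h1

theorem pascal (n n1 D : ℕ) (hn : n1 + 1 ≤ n) (hD : 1 ≤ D) :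
    (n - 1 - n1 + D).choose D + (n - n1 + (D - 1)).choose (D - 1) = (n - n1 + D).choose D := by
  obtain ⟨b, rfl⟩ : ∃ b, D = b + 1 := ⟨D - 1, by omega⟩
  obtain ⟨a, ha⟩ : ∃ a, n - n1 = a + 1 := ⟨n - n1 - 1, by omega⟩
  have ha' : n - 1 - n1 = a := by omega
  rw [ha', ha, Nat.add_sub_cancel]
  have e1 : a + (b + 1) = a + 1 + b := by ring
  have e2 : a + 1 + (b + 1) = a + 1 + b + 1 := by ring
  rw [e1, e2, Nat.choose_succ_succ']
  omega

theorem trM_nonneg {r : ℕ} (t0 : Fin r) (p : ℕ → ℝ) (μ : Fin r → ℕ → ℝ)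
    (hp : ∀ α, 0 ≤ p α ∧ p α ≤ 1) (hμ : ∀ t α, 0 ≤ μ t α) (t : Fin r) (α : ℕ) :
    0 ≤ trM t0 p μ t α := by
  unfold trM
  split
  · exact mul_nonneg (hp α).1 (hμ t α)
  · exact hμ t α

theorem resM_nonneg {r : ℕ} (t0 : Fin r) (p : ℕ → ℝ) (μ : Fin r → ℕ → ℝ)
    (hp : ∀ α, 0 ≤ p α ∧ p α ≤ 1) (hμ : ∀ t α, 0 ≤ μ t α) (t : Fin r) (α : ℕ) :
    0 ≤ resM t0 p μ t α := by
  unfold resM
  split
  · exact add_nonneg (mul_nonneg (hp α).1 (hμ t α))
      (mul_nonneg (by linarith [(hp (α + 1)).2]) (hμ t (α + 1)))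
  · exact hμ t α

theorem trM_big {r : ℕ} (A : ℕ) (t0 : Fin r) (p : ℕ → ℝ) (μ : Fin r → ℕ → ℝ)
    (hA : ∀ t α, A < α → μ t α = 0) (t : Fin r) (α : ℕ) (hα : A < α) :
    trM t0 p μ t α = 0 := by
  unfold trM
  rw [hA t α hα, mul_zero, ite_self]

theorem resM_big {r : ℕ} (A : ℕ) (t0 : Fin r) (p : ℕ → ℝ) (μ : Fin r → ℕ → ℝ)
    (hA : ∀ t α, A < α → μ t α = 0) (t : Fin r) (α : ℕ) (hα : A < α) :
    resM t0 p μ t α = 0 := by
  unfold resM
  rw [hA t α hα, hA t (α + 1) (by omega), mul_zero, mul_zero, add_zero, ite_self]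

/-- The induction. -/
theorem phaseB (hOM : SpecOM) (hPC : SpecPC) (hPBS : SpecPBS) (hNODE : SpecNODE)
    (hLEAF : SpecLEAF) (r m n1 n3 n4 X A Dm : ℕ) (γ R0 Sm RB h : ℝ) (hm : 1 ≤ m) (hn1 : 1 ≤ n1)
    (hmn : m ≤ n1 + 1) (hγ : 0 < γ) (hγ1 : γ ≤ 1) (hR : 1 ≤ R0)
    (hR2 : ((m : ℝ) - 1) * (R0 ^ γ - 1) ≤ 1) (hSm : 1 ≤ Sm) (hRB : 1 ≤ RB) (hh : 0 ≤ h)
    (hn14 : n1 ≤ n4) (hn3 : n3 ≤ X * m) (hn4 : ((n4 + Dm : ℕ) : ℝ) ≤ RB * n4)
    (hn1D : ((n1 + Dm : ℕ) : ℝ) ≤ R0 * n1) (hch : ((n1 + Dm).choose n1 : ℝ) ≤ Sm) (k : ℕ) :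
    ∀ (n D : ℕ) (S : Finset (Fin r)) (μ : Fin r → ℕ → ℝ), S.card + D = k → D ≤ Dm → n ≤ n3 →
    n4 + S.card ≤ n → (∀ t α, 0 ≤ μ t α) → (∀ t α, A < α → μ t α = 0) →
    (∀ t, t ∉ S → ∀ α, 1 ≤ α → α ≤ D → μ t α = 0) →
    (∑ t ∈ S, load n D A (μ t)) * ((X + D).choose D : ℝ) * RB ^ S.card ≤ h →
    Win A n D S μ ((n - n1 + D).choose D)
      (D * ((m : ℝ) * h ^ γ) ^ (1 / γ) + ((m : ℝ) * h ^ γ) ^ (1 / γ) * Sm) := by
  have hc : h ≤ ((m : ℝ) * h ^ γ) ^ (1 / γ) := h_le m γ h hm hγ hh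
  generalize hcdef : ((m : ℝ) * h ^ γ) ^ (1 / γ) = c at hc ⊢
  have hc0 : 0 ≤ c := hh.trans hc
  induction k with
  | zero =>
    intro n D S μ hk hD hn hnS hμ hA hS hpot
    have hS0 : S.card = 0 := by omega
    have hD0 : D = 0 := by omega
    subst hD0
    refine hLEAF r A n 0 S μ _ _ (Or.inl rfl) (Nat.choose_pos (Nat.zero_le _)) hμ ?_
    intro t
    rw [load_zero hOM, zero_mul]
    have : 0 ≤ c * Sm := mul_nonneg hc0 (by linarith)
    push_cast
    linarith
  | succ k ih =>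
    intro n D S μ hk hD hn hnS hμ hA hS hpot
    have hld : ∀ t, 0 ≤ load n D A (μ t) := fun t => load_nonneg hOM n D A _ (hμ t)
    have hsum0 : 0 ≤ ∑ t ∈ S, load n D A (μ t) := Finset.sum_nonneg fun t _ => hld t
    have hch1 : (1 : ℝ) ≤ ((X + D).choose D : ℝ) := by
      exact_mod_cast Nat.choose_pos (Nat.le_add_left _ _)
    have hRB1 : 1 ≤ RB ^ S.card := one_le_pow₀ hRB
    have hsumh : ∑ t ∈ S, load n D A (μ t) ≤ h := by
      refine le_trans ?_ hpot
      have h1 : ∑ t ∈ S, load n D A (μ t) ≤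
          (∑ t ∈ S, load n D A (μ t)) * ((X + D).choose D : ℝ) :=
        le_mul_of_one_le_right hsum0 hch1
      exact h1.trans (le_mul_of_one_le_right (hsum0.trans h1) hRB1)
    by_cases hSm' : S.card ≤ m
    · -- phase C
      have hD' : ((n1 + D : ℕ) : ℝ) ≤ R0 * n1 := by
        refine le_trans ?_ hn1D
        exact_mod_cast (by omega : n1 + D ≤ n1 + Dm)
      have hch' : ((n1 + D).choose n1 : ℝ) ≤ Sm := by
        refine le_trans ?_ hch
        exact_mod_cast Nat.choose_le_choose n1 (by omega : n1 + D ≤ n1 + Dm)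
      have hg0 : 0 ≤ (m : ℝ) * h ^ γ := mul_nonneg (Nat.cast_nonneg _) (Real.rpow_nonneg hh _)
      have := hPC r m n1 A γ R0 Sm ((m : ℝ) * h ^ γ) hn1 hmn hγ hγ1 hR hR2 hSm hg0 n D S μ
        (by omega) hD' hch' hμ hA hSm' hS ?_
      · rw [hcdef] at this
        exact this
      · have h2 : ∀ t ∈ S, (load n D A (μ t)) ^ γ ≤ h ^ γ := by
          intro t ht
          refine Real.rpow_le_rpow (hld t) ?_ hγ.le
          exact (Finset.single_le_sum (f := fun t => load n D A (μ t)) (fun t _ => hld t)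
            ht).trans hsumh
        refine (Finset.sum_le_sum h2).trans ?_
        rw [Finset.sum_const, nsmul_eq_mul]
        exact mul_le_mul_of_nonneg_right (by exact_mod_cast hSm') (Real.rpow_nonneg hh _)
    push Not at hSm'
    by_cases hD0 : D = 0
    · subst hD0
      refine hLEAF r A n 0 S μ _ _ (Or.inl rfl) (Nat.choose_pos (Nat.zero_le _)) hμ ?_
      intro t
      rw [load_zero hOM, zero_mul]
      have : 0 ≤ c * Sm := mul_nonneg hc0 (by linarith)
      push_cast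
      linarith
    have hD1 : 1 ≤ D := by omega
    have hSne : S.Nonempty := Finset.card_pos.1 (by omega)
    have hnX : n ≤ X * S.card := by
      refine (hn.trans hn3).trans (Nat.mul_le_mul_left X hSm'.le)
    have hnRB : ((n + D : ℕ) : ℝ) ≤ RB * n := by
      have h1 : (n4 : ℝ) ≤ n := by exact_mod_cast (by omega : n4 ≤ n)
      have h2 : (D : ℝ) ≤ Dm := by exact_mod_cast hD
      push_cast at hn4 ⊢
      nlinarith
    obtain ⟨t0, ht0, p, hp0, hp, hpz, htr, hres, hmass⟩ := hPBS r A n D X S RB μ hSne (by omega)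
      hD1 hnX hnRB hμ hA
    -- the trace child
    have W1 := ih (n - 1) D (S.erase t0) (trM t0 p μ)
      (by rw [Finset.card_erase_of_mem ht0]; omega) hD (by omega)
      (by rw [Finset.card_erase_of_mem ht0]; omega)
      (trM_nonneg t0 p μ hp hμ) (trM_big A t0 p μ hA)
      (by
        intro t ht α h1 h2
        unfold trM
        by_cases htt : t = t0
        · rw [if_pos htt, hpz α h1 h2, zero_mul]
        · rw [if_neg htt]
          exact hS t (fun h => ht (Finset.mem_erase.2 ⟨htt, h⟩)) α h1 h2)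
      (by
        refine le_trans ?_ hpot
        have e : RB ^ S.card = RB * RB ^ (S.erase t0).card := by
          rw [← Finset.card_erase_add_one ht0, pow_succ]
          ring
        rw [e]
        have h1 : 0 ≤ ((X + D).choose D : ℝ) * RB ^ (S.erase t0).card := by positivity
        calc (∑ t ∈ S.erase t0, load (n - 1) D A (trM t0 p μ t)) * ((X + D).choose D : ℝ) *
              RB ^ (S.erase t0).card =
            (∑ t ∈ S.erase t0, load (n - 1) D A (trM t0 p μ t)) *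
              (((X + D).choose D : ℝ) * RB ^ (S.erase t0).card) := by ring
          _ ≤ (RB * ∑ t ∈ S, load n D A (μ t)) *
              (((X + D).choose D : ℝ) * RB ^ (S.erase t0).card) :=
            mul_le_mul_of_nonneg_right htr h1
          _ = _ := by ring)
    -- the residual child
    have W2 := ih n (D - 1) S (resM t0 p μ) (by omega) (by omega) hn hnS
      (resM_nonneg t0 p μ hp hμ) (resM_big A t0 p μ hA)
      (by
        intro t ht α h1 h2
        have hne : t ≠ t0 := by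
          rintro rfl
          exact ht ht0
        unfold resM
        rw [if_neg hne]
        exact hS t ht α h1 (by omega))
      (by
        refine le_trans ?_ hpot
        rw [choose_step X D hD1]
        have h1 : 0 ≤ ((X + (D - 1)).choose (D - 1) : ℝ) * RB ^ S.card := by positivity
        calc (∑ t ∈ S, load n (D - 1) A (resM t0 p μ t)) *
              ((X + (D - 1)).choose (D - 1) : ℝ) * RB ^ S.card =
            (∑ t ∈ S, load n (D - 1) A (resM t0 p μ t)) *
              (((X + (D - 1)).choose (D - 1) : ℝ) * RB ^ S.card) := by ring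
          _ ≤ ((1 + (X : ℝ) / D) * ∑ t ∈ S, load n D A (μ t)) *
              (((X + (D - 1)).choose (D - 1) : ℝ) * RB ^ S.card) :=
            mul_le_mul_of_nonneg_right hres h1
          _ = _ := by ring)
    have hmass' : (1 - p 1) * μ t0 1 ≤ c := by
      refine hmass.trans (le_trans ?_ hc)
      refine le_trans ?_ hpot
      have h1 := choose_ge X D hD1
      calc (1 + (X : ℝ) / D) * ∑ t ∈ S, load n D A (μ t) ≤
          ((X + D).choose D : ℝ) * ∑ t ∈ S, load n D A (μ t) :=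
            mul_le_mul_of_nonneg_right h1 hsum0
        _ = (∑ t ∈ S, load n D A (μ t)) * ((X + D).choose D : ℝ) := mul_comm _ _
        _ ≤ _ := le_mul_of_one_le_right (mul_nonneg hsum0 (by positivity)) hRB1
    have ecap : (D : ℝ) * c + c * Sm = (((D - 1 : ℕ) : ℝ) * c + c * Sm) + c := by
      obtain ⟨b, rfl⟩ : ∃ b, D = b + 1 := ⟨D - 1, by omega⟩
      rw [Nat.add_sub_cancel]
      push_cast
      ring
    rw [ecap] at W1 ⊢
    rw [← pascal n n1 D (by omega) hD1]
    exact hNODE r A n D S (S.erase t0) μ t0 p _ _ _ c (by omega) hD1 hp0 hp hμ hA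
      (by
        intro t ht ht'
        refine ⟨?_, hpz⟩
        by_contra hne
        exact ht' (Finset.mem_erase.2 ⟨hne, ht⟩))
      hc0 hmass' W1 W2

theorem specPB (hOM : SpecOM) (hPC : SpecPC) (hPBS : SpecPBS) (hNODE : SpecNODE)
    (hLEAF : SpecLEAF) : SpecPB := by
  intro r m n1 n3 n4 X A Dm γ R0 Sm RB h hm hn1 hmn hγ hγ1 hR hR2 hSm hRB hh hn14 hn3 hn4 hn1D
    hch n D S μ hD hn hnS hμ hA hS hpot
  exact phaseB hOM hPC hPBS hNODE hLEAF r m n1 n3 n4 X A Dm γ R0 Sm RB h hm hn1 hmn hγ hγ1 hR hR2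
    hSm hRB hh hn14 hn3 hn4 hn1D hch _ n D S μ rfl hD hn hnS hμ hA hS hpot

end FrI.PBM
end

section
/-!
# MP_921642_ag, FI4, module PBS: the move of phase B
-/
set_option autoImplicit false

namespace FrI.PBSM

open FrI Finset

theorem specPBS (hO : SpecOM) : SpecPBS := by
  intro r A n D X S RB μ hS hn hD hnX hnD hμ hμA
  have hn0 : (0 : ℝ) < n := by exact_mod_cast hn
  have hD0 : (0 : ℝ) < D := by exact_mod_cast hD
  have hc0 : (0 : ℝ) < S.card := by exact_mod_cast Finset.card_pos.2 hS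
  obtain ⟨κ, hκd⟩ : ∃ κ : ℝ, κ = (n : ℝ) / D := ⟨_, rfl⟩
  have hκ : 0 ≤ κ := by
    rw [hκd]
    positivity
  obtain ⟨ρ, hρd⟩ : ∃ ρ : ℕ → ℝ, ρ = fun α : ℕ => ((n : ℝ) + D) / ((n : ℝ) + D - (α : ℝ)) :=
    ⟨_, rfl⟩
  have o1 : ∀ α, om (n - 1) D α = ρ α * om n D α := by
    intro α
    rcases le_or_gt α D with h | h
    · rw [hρd]
      exact hO.tr n D α hn hD h
    · rw [hO.big _ _ _ h, hO.big _ _ _ h, mul_zero]
  have o2 : ∀ α, om n (D - 1) α = (1 - κ * (ρ α - 1)) * om n D α := by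
    intro α
    rcases le_or_gt α D with h | h
    · rw [hρd, hκd]
      exact hO.res n D α hn hD h
    · rw [hO.big _ _ _ (by omega : D - 1 < α), hO.big _ _ _ h, mul_zero]
  have o3 : ∀ α, om n (D - 1) α = (1 + κ) * om n D (α + 1) := by
    intro α
    rcases le_or_gt (α + 1) D with h | h
    · rw [hκd]
      have := hO.res1 n D (α + 1) hn hD (by omega) h
      rwa [Nat.add_sub_cancel] at this
    · rw [hO.big _ _ _ (by omega : D - 1 < α), hO.big _ _ _ h, mul_zero]
  have ρ1 : ∀ α ≤ D, 1 ≤ ρ α ∧ ρ α ≤ RB := by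
    intro α hα
    have hα' : (α : ℝ) ≤ D := by exact_mod_cast hα
    have hden : (0 : ℝ) < (n : ℝ) + D - α := by linarith
    have hRB : 0 ≤ RB := by
      push_cast at hnD
      by_contra hneg
      nlinarith
    rw [hρd]
    constructor
    · show 1 ≤ ((n : ℝ) + D) / ((n : ℝ) + D - α)
      rw [one_le_div hden]
      have : (0 : ℝ) ≤ α := by positivity
      linarith
    · show ((n : ℝ) + D) / ((n : ℝ) + D - α) ≤ RB
      rw [div_le_iff₀ hden]
      push_cast at hnD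
      have : RB * n ≤ RB * ((n : ℝ) + D - α) :=
        mul_le_mul_of_nonneg_left (by linarith) hRB
      linarith
  have hom0 : ∀ α, 0 ≤ om n D α := hO.nonneg n D
  have l0 : ∀ (k E : ℕ) (m : ℕ → ℝ), (∀ α, 0 ≤ m α) → 0 ≤ load k E A m := by
    intro k E m hm
    exact Finset.sum_nonneg fun α _ => mul_nonneg (hm α) (hO.nonneg k E α)
  have lT : ∀ m : ℕ → ℝ, (∀ α, 0 ≤ m α) → load (n - 1) D A m ≤ RB * load n D A m := by
    intro m hm
    unfold load
    rw [Finset.mul_sum]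
    refine Finset.sum_le_sum fun α _ => ?_
    rw [o1]
    rcases le_or_gt α D with h | h
    · have := mul_le_mul_of_nonneg_right (ρ1 α h).2 (hom0 α)
      have := mul_le_mul_of_nonneg_left this (hm α)
      linarith
    · rw [hO.big _ _ _ h]
      simp
  have lR : ∀ m : ℕ → ℝ, (∀ α, 0 ≤ m α) → load n (D - 1) A m ≤ load n D A m := by
    intro m hm
    unfold load
    refine Finset.sum_le_sum fun α _ => ?_
    rw [o2]
    rcases le_or_gt α D with h | h
    · refine mul_le_mul_of_nonneg_left ?_ (hm α)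
      have h1 : 0 ≤ κ * (ρ α - 1) := mul_nonneg hκ (by linarith [(ρ1 α h).1])
      nlinarith [hom0 α]
    · rw [hO.big _ _ _ h]
      simp
  obtain ⟨t0, ht0, hmin⟩ := Finset.exists_min_image S (fun t => load n D A (μ t)) hS
  set T0 : ℝ := ∑ t ∈ S, load n D A (μ t) with hTd
  have hT0 : 0 ≤ T0 := Finset.sum_nonneg fun t _ => l0 _ _ _ (hμ t)
  have hl0 : 0 ≤ load n D A (μ t0) := l0 _ _ _ (hμ t0)
  have hle : load n D A (μ t0) ≤ T0 :=
    Finset.single_le_sum (f := fun t => load n D A (μ t)) (fun t _ => l0 _ _ _ (hμ t)) ht0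
  have havg : (S.card : ℝ) * load n D A (μ t0) ≤ T0 := by
    have := Finset.card_nsmul_le_sum S (fun t => load n D A (μ t)) (load n D A (μ t0))
      (fun t ht => hmin t ht)
    rwa [nsmul_eq_mul] at this
  have hκl : κ * load n D A (μ t0) ≤ ((X : ℝ) / D) * T0 := by
    have h1 : (n : ℝ) ≤ X * S.card := by exact_mod_cast hnX
    have h2 : (n : ℝ) * load n D A (μ t0) ≤ X * T0 := by
      calc (n : ℝ) * load n D A (μ t0) ≤ (X * S.card) * load n D A (μ t0) :=
            mul_le_mul_of_nonneg_right h1 hl0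
        _ = X * ((S.card : ℝ) * load n D A (μ t0)) := by ring
        _ ≤ X * T0 := mul_le_mul_of_nonneg_left havg (Nat.cast_nonneg _)
    rw [hκd, div_mul_eq_mul_div, div_mul_eq_mul_div]
    exact div_le_div_of_nonneg_right h2 hD0.le
  refine ⟨t0, ht0, fun α => if 1 ≤ α ∧ α ≤ D then 0 else 1, ?_, ?_, ?_, ?_, ?_, ?_⟩
  · simp
  · intro α
    dsimp only
    split_ifs
    · exact ⟨le_rfl, zero_le_one⟩
    · exact ⟨zero_le_one, le_rfl⟩
  · intro α h1 h2
    exact if_pos ⟨h1, h2⟩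
  · have e1 : ∑ t ∈ S.erase t0, load (n - 1) D A
        (trM t0 (fun α => if 1 ≤ α ∧ α ≤ D then 0 else 1) μ t) =
        ∑ t ∈ S.erase t0, load (n - 1) D A (μ t) := by
      refine Finset.sum_congr rfl fun t ht => ?_
      congr 1
      funext α
      simp only [trM]
      rw [if_neg (Finset.ne_of_mem_erase ht)]
    rw [e1]
    have hRB : 0 ≤ RB := le_trans zero_le_one ((ρ1 0 (Nat.zero_le _)).1.trans (ρ1 0 (Nat.zero_le _)).2)
    calc ∑ t ∈ S.erase t0, load (n - 1) D A (μ t)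
        ≤ ∑ t ∈ S.erase t0, RB * load n D A (μ t) := Finset.sum_le_sum fun t _ => lT _ (hμ t)
      _ = RB * ∑ t ∈ S.erase t0, load n D A (μ t) := by rw [Finset.mul_sum]
      _ ≤ RB * T0 := by
          refine mul_le_mul_of_nonneg_left ?_ hRB
          exact Finset.sum_le_sum_of_subset_of_nonneg (Finset.erase_subset _ _)
            (fun t _ _ => l0 _ _ _ (hμ t))
  · rw [← Finset.add_sum_erase S _ ht0]
    have e1 : ∑ t ∈ S.erase t0, load n (D - 1) A
        (resM t0 (fun α => if 1 ≤ α ∧ α ≤ D then 0 else 1) μ t) ≤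
        ∑ t ∈ S.erase t0, load n D A (μ t) := by
      refine Finset.sum_le_sum fun t ht => ?_
      have e2 : resM t0 (fun α => if 1 ≤ α ∧ α ≤ D then 0 else 1) μ t = μ t := by
        funext α
        simp only [resM]
        rw [if_neg (Finset.ne_of_mem_erase ht)]
      rw [e2]
      exact lR _ (hμ t)
    have e3 : load n (D - 1) A (resM t0 (fun α => if 1 ≤ α ∧ α ≤ D then 0 else 1) μ t0) ≤
        (1 + κ) * load n D A (μ t0) := by
      unfold load
      have e4 : ∀ α ∈ Icc 1 A, resM t0 (fun α => if 1 ≤ α ∧ α ≤ D then 0 else 1) μ t0 α *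
          om n (D - 1) α ≤ (1 + κ) * (μ t0 (α + 1) * om n D (α + 1)) := by
        intro α hα
        have hα1 := (Finset.mem_Icc.1 hα).1
        simp only [resM, if_true]
        rcases le_or_gt α D with h | h
        · rw [if_pos ⟨hα1, h⟩, zero_mul, zero_add]
          rw [o3]
          split_ifs
          · exact le_of_eq (by ring)
          · rw [sub_self, zero_mul, zero_mul]
            exact mul_nonneg (by linarith) (mul_nonneg (hμ t0 _) (hom0 _))
        · rw [hO.big n (D - 1) α (by omega), mul_zero]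
          exact mul_nonneg (by linarith) (mul_nonneg (hμ t0 _) (hom0 _))
      refine (Finset.sum_le_sum e4).trans ?_
      rw [← Finset.mul_sum]
      refine mul_le_mul_of_nonneg_left ?_ (by linarith)
      have e5 : ∑ α ∈ Icc 1 A, μ t0 (α + 1) * om n D (α + 1) =
          ∑ β ∈ Icc 2 (A + 1), μ t0 β * om n D β := by
        rw [Finset.sum_bij (fun α _ => α + 1)]
        · intro α hα
          rw [Finset.mem_Icc] at hα ⊢
          omega
        · intro a _ b _ hab
          omega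
        · intro β hβ
          rw [Finset.mem_Icc] at hβ
          exact ⟨β - 1, Finset.mem_Icc.2 ⟨by omega, by omega⟩, by omega⟩
        · intro α _
          rfl
      rw [e5]
      have e6 : ∑ β ∈ Icc 2 (A + 1), μ t0 β * om n D β ≤ ∑ β ∈ Icc 1 (A + 1), μ t0 β * om n D β :=
        Finset.sum_le_sum_of_subset_of_nonneg (Finset.Icc_subset_Icc_left (by norm_num))
          (fun β _ _ => mul_nonneg (hμ t0 _) (hom0 _))
      refine e6.trans (le_of_eq ?_)
      rw [Finset.sum_Icc_succ_top (by omega), hμA t0 (A + 1) (by omega), zero_mul, add_zero]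
    have hsplit : T0 = load n D A (μ t0) + ∑ t ∈ S.erase t0, load n D A (μ t) :=
      (Finset.add_sum_erase S _ ht0).symm
    have e7 : (1 + κ) * load n D A (μ t0) = load n D A (μ t0) + κ * load n D A (μ t0) := by ring
    have e8 : (1 + (X : ℝ) / D) * T0 = T0 + ((X : ℝ) / D) * T0 := by ring
    rw [e8]
    linarith
  · dsimp only
    rw [if_pos ⟨le_rfl, hD⟩, sub_zero, one_mul]
    have e7 : (1 + κ) * load n D A (μ t0) = load n D A (μ t0) + κ * load n D A (μ t0) := by ring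
    have e8 : (1 + (X : ℝ) / D) * T0 = T0 + ((X : ℝ) / D) * T0 := by ring
    rw [e8]
    refine le_trans ?_ (show (1 + κ) * load n D A (μ t0) ≤ _ by linarith)
    rcases Nat.eq_zero_or_pos A with hA0 | hA0
    · rw [hμA t0 1 (by omega)]
      exact mul_nonneg (by linarith) hl0
    · have e10 : (1 : ℝ) = (1 + κ) * om n D 1 :=
        (hO.zero n (D - 1)).symm.trans (o3 0)
      have e11 : μ t0 1 * om n D 1 ≤ load n D A (μ t0) := by
        unfold load
        exact Finset.single_le_sum (f := fun α => μ t0 α * om n D α)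
          (fun α _ => mul_nonneg (hμ t0 _) (hom0 _)) (Finset.mem_Icc.2 ⟨le_rfl, hA0⟩)
      calc μ t0 1 = μ t0 1 * 1 := (mul_one _).symm
        _ = μ t0 1 * ((1 + κ) * om n D 1) := congrArg (fun z => μ t0 1 * z) e10
        _ = (1 + κ) * (μ t0 1 * om n D 1) := by ring
        _ ≤ (1 + κ) * load n D A (μ t0) := mul_le_mul_of_nonneg_left e11 (by linarith)

end FrI.PBSM
end

section
/-!
# MP_921642_ag, FI4: phase C of the fractional game (module PC)
-/
set_option autoImplicit false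

namespace FrI.PCM

open FrI

theorem load_nonneg (h : SpecOM) (n D A : ℕ) (μ : ℕ → ℝ) (hμ : ∀ α, 0 ≤ μ α) :
    0 ≤ load n D A μ :=
  Finset.sum_nonneg fun α _ => mul_nonneg (hμ α) (h.nonneg n D α)

/-- The load of a dead group. -/
theorem load_dead (h : SpecOM) (n D A : ℕ) (μ : ℕ → ℝ) (hμ : ∀ α, 1 ≤ α → α ≤ D → μ α = 0) :
    load n D A μ = 0 := by
  unfold load
  refine Finset.sum_eq_zero fun α hα => ?_
  have h1 := (Finset.mem_Icc.1 hα).1
  by_cases h2 : α ≤ D
  · rw [hμ α h1 h2, zero_mul]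
  · rw [h.big n D α (by omega), mul_zero]

theorem load_le {r : ℕ} (h : SpecOM) (n D A : ℕ) (S : Finset (Fin r)) (μ : Fin r → ℕ → ℝ)
    (γ g : ℝ) (hγ : 0 < γ) (hg0 : 0 ≤ g)
    (hμ : ∀ t α, 0 ≤ μ t α) (hS : ∀ t, t ∉ S → ∀ α, 1 ≤ α → α ≤ D → μ t α = 0)
    (hg : ∑ t ∈ S, (load n D A (μ t)) ^ γ ≤ g) (t : Fin r) :
    load n D A (μ t) ≤ g ^ (1 / γ) := by
  by_cases ht : t ∈ S
  · have h0 : ∀ t, 0 ≤ load n D A (μ t) := fun t => load_nonneg h n D A _ (hμ t)
    have h1 : (load n D A (μ t)) ^ γ ≤ g :=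
      (Finset.single_le_sum (f := fun t => (load n D A (μ t)) ^ γ)
        (fun t _ => Real.rpow_nonneg (h0 t) _) ht).trans hg
    have h2 := Real.rpow_le_rpow (Real.rpow_nonneg (h0 t) _) h1 (z := 1 / γ) (by positivity)
    rwa [← Real.rpow_mul (h0 t), mul_one_div_cancel hγ.ne', Real.rpow_one] at h2
  · rw [load_dead h n D A (μ t) (hS t ht)]
    exact Real.rpow_nonneg hg0 _

theorem pascal (n n1 D : ℕ) (hn : n1 + 1 ≤ n) (hD : 1 ≤ D) :
    (n - 1 - n1 + D).choose D + (n - n1 + (D - 1)).choose (D - 1) = (n - n1 + D).choose D := by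
  obtain ⟨b, rfl⟩ : ∃ b, D = b + 1 := ⟨D - 1, by omega⟩
  obtain ⟨a, ha⟩ : ∃ a, n - n1 = a + 1 := ⟨n - n1 - 1, by omega⟩
  have ha' : n - 1 - n1 = a := by omega
  rw [ha', ha, Nat.add_sub_cancel]
  have e1 : a + (b + 1) = a + 1 + b := by ring
  have e2 : a + 1 + (b + 1) = a + 1 + b + 1 := by ring
  rw [e1, e2, Nat.choose_succ_succ']
  omega

theorem trM_nonneg {r : ℕ} (t0 : Fin r) (p : ℕ → ℝ) (μ : Fin r → ℕ → ℝ)
    (hp : ∀ α, 0 ≤ p α ∧ p α ≤ 1) (hμ : ∀ t α, 0 ≤ μ t α) (t : Fin r) (α : ℕ) :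
    0 ≤ trM t0 p μ t α := by
  unfold trM
  split
  · exact mul_nonneg (hp α).1 (hμ t α)
  · exact hμ t α

theorem resM_nonneg {r : ℕ} (t0 : Fin r) (p : ℕ → ℝ) (μ : Fin r → ℕ → ℝ)
    (hp : ∀ α, 0 ≤ p α ∧ p α ≤ 1) (hμ : ∀ t α, 0 ≤ μ t α) (t : Fin r) (α : ℕ) :
    0 ≤ resM t0 p μ t α := by
  unfold resM
  split
  · exact add_nonneg (mul_nonneg (hp α).1 (hμ t α))
      (mul_nonneg (by linarith [(hp (α + 1)).2]) (hμ t (α + 1)))
  · exact hμ t α

theorem trM_big {r : ℕ} (A : ℕ) (t0 : Fin r) (p : ℕ → ℝ) (μ : Fin r → ℕ → ℝ)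
    (hA : ∀ t α, A < α → μ t α = 0) (t : Fin r) (α : ℕ) (hα : A < α) :
    trM t0 p μ t α = 0 := by
  unfold trM
  rw [hA t α hα, mul_zero, ite_self]

theorem resM_big {r : ℕ} (A : ℕ) (t0 : Fin r) (p : ℕ → ℝ) (μ : Fin r → ℕ → ℝ)
    (hA : ∀ t α, A < α → μ t α = 0) (t : Fin r) (α : ℕ) (hα : A < α) :
    resM t0 p μ t α = 0 := by
  unfold resM
  rw [hA t α hα, hA t (α + 1) (by omega), mul_zero, mul_zero, add_zero, ite_self]

/-- The leaf. -/
theorem leaf_case (hOM : SpecOM) (hLEAF : SpecLEAF) (r m n1 A : ℕ) (γ Sm g : ℝ)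
    (hmn : m ≤ n1 + 1) (hγ : 0 < γ) (hSm : 1 ≤ Sm) (hg0 : 0 ≤ g)
    (n D : ℕ) (S : Finset (Fin r)) (μ : Fin r → ℕ → ℝ) (hn : n1 ≤ n)
    (hc : ((n1 + D).choose n1 : ℝ) ≤ Sm) (hμ : ∀ t α, 0 ≤ μ t α) (hSc : S.card ≤ m)
    (hS : ∀ t, t ∉ S → ∀ α, 1 ≤ α → α ≤ D → μ t α = 0)
    (hg : ∑ t ∈ S, (load n D A (μ t)) ^ γ ≤ g) (hend : n = n1 ∨ D = 0 ∨ S = ∅) :
    Win A n D S μ ((n - n1 + D).choose D) (D * g ^ (1 / γ) + g ^ (1 / γ) * Sm) := by
  have hc0 : 0 ≤ g ^ (1 / γ) := Real.rpow_nonneg hg0 _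
  have hcS : 0 ≤ g ^ (1 / γ) * Sm := mul_nonneg hc0 (by linarith)
  have hDc : 0 ≤ (D : ℝ) * g ^ (1 / γ) := mul_nonneg (Nat.cast_nonneg _) hc0
  refine hLEAF r A n D S μ _ _ (Or.inr (by omega)) (Nat.choose_pos (Nat.le_add_left _ _)) hμ ?_
  intro t
  have h0 := load_nonneg hOM n D A (μ t) (hμ t)
  have h1 := load_le hOM n D A S μ γ g hγ hg0 hμ hS hg t
  rcases hend with rfl | rfl | rfl
  · have h4 : load n D A (μ t) * ((n + D).choose n : ℝ) ≤ g ^ (1 / γ) * Sm :=
      mul_le_mul h1 hc (Nat.cast_nonneg _) hc0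
    linarith
  · have h4 : load n 0 A (μ t) = 0 := load_dead hOM n 0 A (μ t) (fun α h2 h3 => by omega)
    rw [h4, zero_mul]
    linarith
  · have h4 : load n D A (μ t) = 0 :=
      load_dead hOM n D A (μ t) (hS t (Finset.notMem_empty t))
    rw [h4, zero_mul]
    linarith

/-- The induction. -/
theorem phaseC (hOM : SpecOM) (hSTEP2 : SpecSTEP2) (hNODE : SpecNODE)
    (hLEAF : SpecLEAF) (r m n1 A : ℕ) (γ R0 Sm g : ℝ) (hn1 : 1 ≤ n1)
    (hmn : m ≤ n1 + 1) (hγ : 0 < γ) (hγ1 : γ ≤ 1) (hR : 1 ≤ R0)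
    (hR2 : ((m : ℝ) - 1) * (R0 ^ γ - 1) ≤ 1) (hSm : 1 ≤ Sm) (hg0 : 0 ≤ g) (k : ℕ) :
    ∀ (n D : ℕ) (S : Finset (Fin r)) (μ : Fin r → ℕ → ℝ), n - n1 + D = k → n1 ≤ n →
    ((n1 + D : ℕ) : ℝ) ≤ R0 * n1 →
    ((n1 + D).choose n1 : ℝ) ≤ Sm → (∀ t α, 0 ≤ μ t α) → (∀ t α, A < α → μ t α = 0) →
    S.card ≤ m → (∀ t, t ∉ S → ∀ α, 1 ≤ α → α ≤ D → μ t α = 0) →
    ∑ t ∈ S, (load n D A (μ t)) ^ γ ≤ g →
    Win A n D S μ ((n - n1 + D).choose D) (D * g ^ (1 / γ) + g ^ (1 / γ) * Sm) := by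
  induction k with
  | zero =>
    intro n D S μ hk hn _ hc hμ _ hSc hS hg
    exact leaf_case hOM hLEAF r m n1 A γ Sm g hmn hγ hSm hg0 n D S μ hn hc hμ hSc hS hg
      (Or.inl (by omega))
  | succ k ih =>
    intro n D S μ hk hn hD hc hμ hA hSc hS hg
    by_cases hend : n = n1 ∨ D = 0 ∨ S = ∅
    · exact leaf_case hOM hLEAF r m n1 A γ Sm g hmn hγ hSm hg0 n D S μ hn hc hμ hSc hS hg hend
    push Not at hend
    obtain ⟨hnn, hD0, hSne⟩ := hend
    have hD1 : 1 ≤ D := by omega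
    have hnR : ((n + D : ℕ) : ℝ) ≤ R0 * n := by
      have h1 : (n1 : ℝ) ≤ n := by exact_mod_cast hn
      push_cast at hD ⊢
      nlinarith
    obtain ⟨t0, ht0, p, hp0, hp, htr, hres, hmass⟩ := hSTEP2 r m S γ R0 hSne hSc hγ hγ1 hR hR2 A
      n D μ (by omega) hD1 hnR hμ hA
    -- the trace child
    have W1 := ih (n - 1) D S (trM t0 p μ) (by omega) (by omega) hD hc
      (trM_nonneg t0 p μ hp hμ) (trM_big A t0 p μ hA) hSc
      (by
        intro t ht α h1 h2
        have hne : t ≠ t0 := by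
          rintro rfl
          exact ht ht0
        unfold trM
        rw [if_neg hne]
        exact hS t ht α h1 h2)
      (htr.trans hg)
    -- the residual child
    have hD' : ((n1 + (D - 1) : ℕ) : ℝ) ≤ R0 * n1 := by
      refine le_trans ?_ hD
      exact_mod_cast (by omega : n1 + (D - 1) ≤ n1 + D)
    have hc' : ((n1 + (D - 1)).choose n1 : ℝ) ≤ Sm := by
      refine le_trans ?_ hc
      exact_mod_cast Nat.choose_le_choose n1 (by omega : n1 + (D - 1) ≤ n1 + D)
    have W2 := ih n (D - 1) S (resM t0 p μ) (by omega) hn hD' hc'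
      (resM_nonneg t0 p μ hp hμ) (resM_big A t0 p μ hA) hSc
      (by
        intro t ht α h1 h2
        have hne : t ≠ t0 := by
          rintro rfl
          exact ht ht0
        unfold resM
        rw [if_neg hne]
        exact hS t ht α h1 (by omega))
      (hres.trans hg)
    have hc0 : 0 ≤ g ^ (1 / γ) := Real.rpow_nonneg hg0 _
    have hGpos : (0 : ℝ) ≤ ∑ t ∈ S, (load n D A (μ t)) ^ γ :=
      Finset.sum_nonneg fun t _ => Real.rpow_nonneg (load_nonneg hOM n D A _ (hμ t)) _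
    have hmass' : (1 - p 1) * μ t0 1 ≤ g ^ (1 / γ) :=
      hmass.trans (Real.rpow_le_rpow hGpos hg (by positivity))
    have ecap : (D : ℝ) * g ^ (1 / γ) + g ^ (1 / γ) * Sm =
        (((D - 1 : ℕ) : ℝ) * g ^ (1 / γ) + g ^ (1 / γ) * Sm) + g ^ (1 / γ) := by
      obtain ⟨b, rfl⟩ : ∃ b, D = b + 1 := ⟨D - 1, by omega⟩
      rw [Nat.add_sub_cancel]
      push_cast
      ring
    rw [ecap] at W1 ⊢
    rw [← pascal n n1 D (by omega) hD1]
    exact hNODE r A n D S S μ t0 p _ _ _ _ (by omega) hD1 hp0 hp hμ hA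
      (fun t ht ht' => absurd ht ht') hc0 hmass' W1 W2

theorem specPC (hOM : SpecOM) (hSTEP2 : SpecSTEP2) (hNODE : SpecNODE)
    (hLEAF : SpecLEAF) : SpecPC := by
  intro r m n1 A γ R0 Sm g hn1 hmn hγ hγ1 hR hR2 hSm hg0 n D S μ hn hD hc hμ hA hSc hS hg
  exact phaseC hOM hSTEP2 hNODE hLEAF r m n1 A γ R0 Sm g hn1 hmn hγ hγ1 hR hR2 hSm hg0 _ n D S μ
    rfl hn hD hc hμ hA hSc hS hg

end FrI.PCM
end

section
/-!
# MP_921642_ag, FI, module ROUND2: derandomised rounding over the tree of the game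
-/
set_option autoImplicit false

namespace FrI.ROUND2M

open Finset

/-- The sum over the groups. -/
noncomputable def E {r s : ℕ} (L : ℕ) (lam : ℝ) (B : Fin r → ℕ → ℝ) (a : Fin r → Fin s → ℕ)
    (I : Fin r → Finset (Fin s)) : ℝ :=
  ∑ t, (lam ^ (L + 2))⁻¹ * ∏ i ∈ I t, (1 + (lam - 1) * B t (a t i))

theorem E_nonneg {r s : ℕ} (L : ℕ) {lam : ℝ} (hlam : 1 ≤ lam) {B : Fin r → ℕ → ℝ}
    (hB : ∀ t α, 0 ≤ B t α) (a : Fin r → Fin s → ℕ) (I : Fin r → Finset (Fin s)) :
    0 ≤ E L lam B a I := by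
  refine Finset.sum_nonneg fun t _ => mul_nonneg (by positivity) ?_
  refine Finset.prod_nonneg fun i _ => ?_
  have h1 : 0 ≤ (lam - 1) * B t (a t i) := mul_nonneg (by linarith) (hB _ _)
  linarith

/-- The weight of a set of rows. -/
noncomputable def wt {s : ℕ} (q : Fin s → ℝ) (J T : Finset (Fin s)) : ℝ :=
  (∏ i ∈ T, (1 - q i)) * ∏ i ∈ J \ T, q i

theorem wt_sum {s : ℕ} (q x y : Fin s → ℝ) (J : Finset (Fin s)) :
    ∑ T ∈ J.powerset, wt q J T * ((∏ i ∈ T, x i) * ∏ i ∈ J \ T, y i)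
      = ∏ i ∈ J, ((1 - q i) * x i + q i * y i) := by
  rw [Finset.prod_add]
  refine Finset.sum_congr rfl fun T _ => ?_
  rw [wt, Finset.prod_mul_distrib, Finset.prod_mul_distrib]
  ring

theorem wt_sum_one {s : ℕ} (q : Fin s → ℝ) (J : Finset (Fin s)) :
    ∑ T ∈ J.powerset, wt q J T = 1 := by
  have h := wt_sum q (fun _ => 1) (fun _ => 1) J
  simp only [Finset.prod_const_one, mul_one] at h
  rw [h]
  simp

theorem wt_nonneg {s : ℕ} {q : Fin s → ℝ} (hq : ∀ i, 0 ≤ q i ∧ q i ≤ 1)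
    (J T : Finset (Fin s)) : 0 ≤ wt q J T :=
  mul_nonneg (Finset.prod_nonneg fun i _ => by linarith [(hq i).2])
    (Finset.prod_nonneg fun i _ => (hq i).1)

/-- The trace child. -/
theorem E_tr {r s : ℕ} (L : ℕ) (lam : ℝ) (B : Fin r → ℕ → ℝ) (a : Fin r → Fin s → ℕ)
    (I : Fin r → Finset (Fin s)) (t0 : Fin r) (p : ℕ → ℝ) :
    ∑ T ∈ (I t0).powerset, wt (fun i => p (a t0 i)) (I t0) T *
        E L lam B a (Function.update I t0 (I t0 \ T))
      = E L lam (fun t α => if t = t0 then p α * B t α else B t α) a I := by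
  unfold E
  simp only [Finset.mul_sum]
  rw [Finset.sum_comm]
  refine Finset.sum_congr rfl fun t _ => ?_
  by_cases ht : t = t0
  · subst ht
    have h := wt_sum (fun i => p (a t i)) (fun _ => 1)
      (fun i => 1 + (lam - 1) * B t (a t i)) (I t)
    simp only [Finset.prod_const_one, one_mul, mul_one] at h
    have e1 : ∀ T ∈ (I t).powerset, wt (fun i => p (a t i)) (I t) T * ((lam ^ (L + 2))⁻¹ *
        ∏ i ∈ Function.update I t (I t \ T) t, (1 + (lam - 1) * B t (a t i)))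
        = (lam ^ (L + 2))⁻¹ * (wt (fun i => p (a t i)) (I t) T *
          ∏ i ∈ I t \ T, (1 + (lam - 1) * B t (a t i))) := by
      intro T _
      rw [Function.update_self]
      ring
    rw [Finset.sum_congr rfl e1, ← Finset.mul_sum, h]
    congr 1
    refine Finset.prod_congr rfl fun i _ => ?_
    rw [if_pos rfl]
    ring
  · have e1 : ∀ T ∈ (I t0).powerset, wt (fun i => p (a t0 i)) (I t0) T * ((lam ^ (L + 2))⁻¹ *
        ∏ i ∈ Function.update I t0 (I t0 \ T) t, (1 + (lam - 1) * B t (a t i)))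
        = wt (fun i => p (a t0 i)) (I t0) T * ((lam ^ (L + 2))⁻¹ *
          ∏ i ∈ I t, (1 + (lam - 1) * B t (a t i))) := by
      intro T _
      rw [Function.update_of_ne ht]
    rw [Finset.sum_congr rfl e1, ← Finset.sum_mul, wt_sum_one, one_mul]
    congr 1
    refine Finset.prod_congr rfl fun i _ => ?_
    rw [if_neg ht]

/-- The residual child. -/
theorem E_res {r s : ℕ} (L : ℕ) (lam : ℝ) (B : Fin r → ℕ → ℝ) (a : Fin r → Fin s → ℕ)
    (I : Fin r → Finset (Fin s)) (t0 : Fin r) (p : ℕ → ℝ) :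
    ∑ T ∈ (I t0).powerset, wt (fun i => p (a t0 i)) (I t0) T *
        E L lam B (fun t i => if t = t0 ∧ i ∈ T then a t i - 1 else a t i) I
      = E L lam (fun t α => if t = t0 then p α * B t α + (1 - p α) * B t (α - 1) else B t α)
          a I := by
  unfold E
  simp only [Finset.mul_sum]
  rw [Finset.sum_comm]
  refine Finset.sum_congr rfl fun t _ => ?_
  by_cases ht : t = t0
  · subst ht
    have h := wt_sum (fun i => p (a t i)) (fun i => 1 + (lam - 1) * B t (a t i - 1))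
      (fun i => 1 + (lam - 1) * B t (a t i)) (I t)
    have e1 : ∀ T ∈ (I t).powerset, wt (fun i => p (a t i)) (I t) T * ((lam ^ (L + 2))⁻¹ *
        ∏ i ∈ I t, (1 + (lam - 1) * B t (if t = t ∧ i ∈ T then a t i - 1 else a t i)))
        = (lam ^ (L + 2))⁻¹ * (wt (fun i => p (a t i)) (I t) T *
          ((∏ i ∈ T, (1 + (lam - 1) * B t (a t i - 1))) *
            ∏ i ∈ I t \ T, (1 + (lam - 1) * B t (a t i)))) := by
      intro T hT
      rw [← Finset.prod_sdiff (Finset.mem_powerset.1 hT)]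
      have e2 : ∏ i ∈ I t \ T, (1 + (lam - 1) * B t (if t = t ∧ i ∈ T then a t i - 1 else a t i))
          = ∏ i ∈ I t \ T, (1 + (lam - 1) * B t (a t i)) := by
        refine Finset.prod_congr rfl fun i hi => ?_
        rw [if_neg (fun h => (Finset.mem_sdiff.1 hi).2 h.2)]
      have e3 : ∏ i ∈ T, (1 + (lam - 1) * B t (if t = t ∧ i ∈ T then a t i - 1 else a t i))
          = ∏ i ∈ T, (1 + (lam - 1) * B t (a t i - 1)) := by
        refine Finset.prod_congr rfl fun i hi => ?_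
        rw [if_pos ⟨rfl, hi⟩]
      rw [e2, e3]
      ring
    rw [Finset.sum_congr rfl e1, ← Finset.mul_sum, h]
    congr 1
    refine Finset.prod_congr rfl fun i _ => ?_
    rw [if_pos rfl]
    ring
  · have e1 : ∀ T ∈ (I t0).powerset, wt (fun i => p (a t0 i)) (I t0) T * ((lam ^ (L + 2))⁻¹ *
        ∏ i ∈ I t, (1 + (lam - 1) * B t (if t = t0 ∧ i ∈ T then a t i - 1 else a t i)))
        = wt (fun i => p (a t0 i)) (I t0) T * ((lam ^ (L + 2))⁻¹ *
          ∏ i ∈ I t, (1 + (lam - 1) * B t (a t i))) := by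
      intro T _
      simp only [ht, false_and, if_false]
    rw [Finset.sum_congr rfl e1, ← Finset.sum_mul, wt_sum_one, one_mul]
    congr 1
    refine Finset.prod_congr rfl fun i _ => ?_
    rw [if_neg ht]

theorem list_sum {β ι : Type} (l : List β) (S : Finset ι) (w : ι → ℝ) (F : ι → β → ℝ) :
    (l.map fun b => ∑ T ∈ S, w T * F T b).sum = ∑ T ∈ S, w T * (l.map (F T)).sum := by
  induction l with
  | nil => simp
  | cons b l ih =>
    simp only [List.map_cons, List.sum_cons, mul_add, Finset.sum_add_distrib]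
    rw [ih]

theorem list_nonneg {β : Type} (l : List β) (F : β → ℝ) (h : ∀ b ∈ l, 0 ≤ F b) :
    0 ≤ (l.map F).sum :=
  List.sum_nonneg fun x hx => by
    obtain ⟨b, hb, rfl⟩ := List.mem_map.1 hx
    exact h b hb

/-- nonnegativity of the leaf functions -/
theorem lv_nonneg2 {r : ℕ} (τ : FT r) : ∀ (N D : ℕ) (S : Finset (Fin r)), Val2 τ N D S →
    ∀ B ∈ lv τ D, ∀ t α, 0 ≤ B t α := by
  induction τ with
  | leaf =>
    intro N D S _ B hB t α
    rw [lv, List.mem_singleton] at hB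
    rw [hB]
    dsimp only
    split_ifs <;> norm_num
  | node t0 p tr res ih1 ih2 =>
    intro N D S hV B hB t α
    obtain ⟨_, _, _, hp, ⟨S', _, h1⟩, h2⟩ := hV
    rw [lv, List.mem_append] at hB
    rcases hB with hB | hB
    · obtain ⟨B', hB', rfl⟩ := List.mem_map.1 hB
      have h3 := ih1 _ _ _ h1 B' hB'
      dsimp only
      split_ifs
      · exact mul_nonneg (hp α).1 (h3 _ _)
      · exact h3 _ _
    · obtain ⟨B', hB', rfl⟩ := List.mem_map.1 hB
      have h3 := ih2 _ _ _ h2 B' hB'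
      dsimp only
      split_ifs
      · exact add_nonneg (mul_nonneg (hp α).1 (h3 _ _))
          (mul_nonneg (by linarith [(hp α).2]) (h3 _ _))
      · exact h3 _ _

/-- Module ROUND2. -/
theorem specROUND2 (hHOR : SpecHOR) (hBASE : SpecBASE2) : SpecROUND2 := by
  intro r L τ
  induction τ with
  | leaf =>
    intro N D s a I S lam hlam hV hS hsum
    obtain ⟨hN, hV⟩ := hV
    have hlive : (live a I D).card ≤ N := by
      rcases hV with rfl | hV
      · have : live a I 0 = ∅ := by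
          rw [Finset.eq_empty_iff_forall_notMem]
          intro t ht
          obtain ⟨-, i, -, h1, h2⟩ := Finset.mem_filter.1 ht
          omega
        rw [this]
        simp
      · refine le_trans (Finset.card_le_card ?_) hV
        intro t ht
        obtain ⟨-, i, hi, h1, h2⟩ := Finset.mem_filter.1 ht
        by_contra hcon
        rcases hS t hcon i hi with h | h <;> omega
    refine hBASE N L r s a I D hN hlive fun t => ?_
    rw [lv, List.map_cons, List.map_nil, List.sum_cons, List.sum_nil, add_zero] at hsum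
    have h0 : 0 < lam := by linarith
    have h1 : (lam ^ (L + 2))⁻¹ * ∏ i ∈ I t, (1 + (lam - 1) * (if a t i ≤ D then 1 else 0)) < 1 := by
      refine lt_of_le_of_lt ?_ hsum
      refine Finset.single_le_sum (f := fun t => (lam ^ (L + 2))⁻¹ *
        ∏ i ∈ I t, (1 + (lam - 1) * (if a t i ≤ D then (1 : ℝ) else 0))) ?_ (Finset.mem_univ t)
      intro t _
      refine mul_nonneg (by positivity) (Finset.prod_nonneg fun i _ => ?_)
      split_ifs <;> linarith
    have h2 : ∏ i ∈ I t, (1 + (lam - 1) * (if a t i ≤ D then (1 : ℝ) else 0))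
        = lam ^ ((I t).filter fun i => a t i ≤ D).card := by
      rw [← Finset.prod_const, Finset.prod_filter]
      refine Finset.prod_congr rfl fun i _ => ?_
      split_ifs <;> ring
    rw [h2] at h1
    by_contra hcon
    have h3 : L + 2 ≤ ((I t).filter fun i => a t i ≤ D).card := by omega
    have h4 : lam ^ (L + 2) ≤ lam ^ ((I t).filter fun i => a t i ≤ D).card :=
      pow_le_pow_right₀ hlam h3
    have h5 : 0 < lam ^ (L + 2) := by positivity
    have h6 : 1 ≤ (lam ^ (L + 2))⁻¹ * lam ^ ((I t).filter fun i => a t i ≤ D).card := by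
      rw [← inv_mul_cancel₀ h5.ne']
      exact mul_le_mul_of_nonneg_left h4 (by positivity)
    linarith
  | node t0 p tr res ih1 ih2 =>
    intro N D s a I S lam hlam hV hS hsum
    obtain ⟨hN, hD, hp0, hp, ⟨S', hS', hV1⟩, hV2⟩ := hV
    obtain ⟨N, rfl⟩ : ∃ N', N = N' + 1 := ⟨N - 1, by omega⟩
    obtain ⟨D, rfl⟩ : ∃ D', D = D' + 1 := ⟨D - 1, by omega⟩
    simp only [Nat.add_sub_cancel] at hV1 hV2
    have key : ∑ T ∈ (I t0).powerset, wt (fun i => p (a t0 i)) (I t0) T *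
        (((lv tr (D + 1)).map fun B => E L lam B a (Function.update I t0 (I t0 \ T))).sum +
         ((lv res D).map fun B =>
          E L lam B (fun t i => if t = t0 ∧ i ∈ T then a t i - 1 else a t i) I).sum) < 1 := by
      refine lt_of_eq_of_lt ?_ hsum
      simp only [mul_add, Finset.sum_add_distrib]
      rw [← list_sum, ← list_sum, lv, List.map_append, List.sum_append, List.map_map,
        List.map_map, Nat.add_sub_cancel]
      congr 2
      · refine List.map_congr_left fun B _ => ?_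
        rw [E_tr]
        rfl
      · refine List.map_congr_left fun B _ => ?_
        rw [E_res]
        rfl
    have hw := wt_sum_one (fun i => p (a t0 i)) (I t0)
    have hwn : ∀ T, 0 ≤ wt (fun i => p (a t0 i)) (I t0) T :=
      fun T => wt_nonneg (fun i => hp _) _ _
    obtain ⟨T, hT, hwT, hlt⟩ : ∃ T ∈ (I t0).powerset, 0 < wt (fun i => p (a t0 i)) (I t0) T ∧
        ((lv tr (D + 1)).map fun B => E L lam B a (Function.update I t0 (I t0 \ T))).sum +
         ((lv res D).map fun B =>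
          E L lam B (fun t i => if t = t0 ∧ i ∈ T then a t i - 1 else a t i) I).sum < 1 := by
      by_contra hcon
      push Not at hcon
      have h1 : ∑ T ∈ (I t0).powerset, wt (fun i => p (a t0 i)) (I t0) T * 1 ≤
        ∑ T ∈ (I t0).powerset, wt (fun i => p (a t0 i)) (I t0) T *
        (((lv tr (D + 1)).map fun B => E L lam B a (Function.update I t0 (I t0 \ T))).sum +
         ((lv res D).map fun B =>
          E L lam B (fun t i => if t = t0 ∧ i ∈ T then a t i - 1 else a t i) I).sum) := by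
        refine Finset.sum_le_sum fun T hT => ?_
        rcases (hwn T).lt_or_eq with h | h
        · exact mul_le_mul_of_nonneg_left (hcon T hT h) h.le
        · rw [← h, zero_mul, zero_mul]
      rw [Finset.sum_congr rfl fun T _ => mul_one _, hw] at h1
      linarith
    have n1 : 0 ≤ ((lv tr (D + 1)).map
        fun B => E L lam B a (Function.update I t0 (I t0 \ T))).sum :=
      list_nonneg _ _ fun B hB => E_nonneg L hlam (lv_nonneg2 tr _ _ _ hV1 B hB) _ _
    have n2 : 0 ≤ ((lv res D).map fun B =>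
          E L lam B (fun t i => if t = t0 ∧ i ∈ T then a t i - 1 else a t i) I).sum :=
      list_nonneg _ _ fun B hB => E_nonneg L hlam (lv_nonneg2 res _ _ _ hV2 B hB) _ _
    refine hHOR N L r s a I D t0 T (Finset.mem_powerset.1 hT) ?_ ?_ ?_
    · intro i hi
      by_contra hcon
      have h0 : a t0 i = 0 := by omega
      have : wt (fun i => p (a t0 i)) (I t0) T = 0 := by
        rw [wt, Finset.prod_eq_zero hi (by rw [h0, hp0, sub_self]), zero_mul]
      linarith
    · refine ih1 N (D + 1) s a (Function.update I t0 (I t0 \ T)) S' lam hlam hV1 ?_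
        (lt_of_le_of_lt (le_add_of_nonneg_right n2) hlt)
      intro t ht i hi
      by_cases htS : t ∈ S
      · obtain ⟨rfl, hp00⟩ := hS' t htS ht
        rw [Function.update_self, Finset.mem_sdiff] at hi
        by_contra hcon
        push Not at hcon
        have hz : p (a t i) = 0 := hp00 _ (by omega) (by omega)
        have : wt (fun i => p (a t i)) (I t) T = 0 := by
          rw [wt, Finset.prod_eq_zero (i := i) (s := I t \ T) (Finset.mem_sdiff.2 hi) hz, mul_zero]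
        linarith
      · refine hS t htS i ?_
        by_cases htt : t = t0
        · subst htt
          rw [Function.update_self] at hi
          exact (Finset.mem_sdiff.1 hi).1
        · rwa [Function.update_of_ne htt] at hi
    · refine ih2 (N + 1) D s _ I S lam hlam hV2 ?_
        (lt_of_le_of_lt (le_add_of_nonneg_left n1) hlt)
      intro t ht i hi
      have h1 := hS t ht i hi
      split_ifs
      · omega
      · omega

end FrI.ROUND2M
end

section
/-!
# MP_921642_ag, FI4, module STEP2: one move of the game for the living groups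
-/
set_option autoImplicit false

namespace FrI.STEP2M

open FrI

theorem specSTEP2 (hSTEP : SpecSTEP) : SpecSTEP2 := by
  intro r m S γ R0 hS hm hγ hγ1 hR hR2 A n D μ hn hD hnD hμ hA
  have hc : 1 ≤ S.card := Finset.card_pos.2 hS
  have hR1 : 0 ≤ R0 ^ γ - 1 := sub_nonneg.2 (Real.one_le_rpow hR hγ.le)
  have hR2' : ((S.card : ℝ) - 1) * (R0 ^ γ - 1) ≤ 1 := by
    refine le_trans (mul_le_mul_of_nonneg_right ?_ hR1) hR2
    have : (S.card : ℝ) ≤ m := by exact_mod_cast hm
    linarith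
  let e : Fin S.card ≃ S := S.equivFin.symm
  obtain ⟨t0', p, hp0, hp, h1, h2, h3⟩ := hSTEP S.card γ R0 hc hγ hγ1 hR hR2' A n D
    (fun t' α => μ (e t') α) hn hD hnD (fun t' α => hμ _ α) (fun t' α hα => hA _ α hα)
  have hsum : ∀ f : Fin r → ℝ, ∑ t ∈ S, f t = ∑ t' : Fin S.card, f (e t') := by
    intro f
    rw [← Finset.sum_coe_sort S f]
    exact (Equiv.sum_comp e (fun x : S => f x)).symm
  have hiff : ∀ t' : Fin S.card, ((e t' : Fin r) = (e t0' : Fin r)) ↔ t' = t0' := by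
    intro t'
    constructor
    · intro h
      exact e.injective (Subtype.ext h)
    · rintro rfl
      rfl
  refine ⟨e t0', (e t0').2, p, hp0, hp, ?_, ?_, ?_⟩
  · rw [hsum, hsum]
    refine le_trans (le_of_eq ?_) h1
    refine Finset.sum_congr rfl (fun t' _ => ?_)
    congr 2
    funext α
    simp only [trM, hiff]
  · rw [hsum, hsum]
    refine le_trans (le_of_eq ?_) h2
    refine Finset.sum_congr rfl (fun t' _ => ?_)
    congr 2
    funext α
    simp only [resM, hiff]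
  · rw [hsum]
    exact h3

end FrI.STEP2M
end
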