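import Pool.Agent.Lib.MP_921642_ag.FI.Spec4
import Pool.Agent.Lib.MP_921642_ag.FI.OM
import Pool.Agent.Lib.MP_921642_ag.FI.LEAF
import Pool.Agent.Lib.MP_921642_ag.FI.NODE
import Pool.Agent.Lib.MP_921642_ag.FI.CAPB
import Pool.Agent.Lib.MP_921642_ag.FI.HORW
import Pool.Agent.Lib.MP_921642_ag.FI.STEP2
import Pool.Agent.Lib.MP_921642_ag.FI.THAG4

section
/-!
# MP_921642_ag, FI4: assembly of the main theorem
-/
set_option autoImplicit false

namespace FrI.MAIN4M

open MvPolynomial Pool.Agent.Lib.MP_921642_ag FrI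

theorem specMAIN4 (hMAIN3 : SpecMAIN3) (hEX : SpecEX) (hNUMC : SpecNUMC) (hSEMI : SpecSEMI)
    (hNEGC : SpecNEGC) (hLV : SpecLV) (hFSR : SpecFSR) (hLAM : SpecLAM4) :
    SpecMAIN4 := by
  intro n d m s hn2 hm hmd hcond0 p
  rcases hcond0 with hcond | ⟨hnd3, hcond⟩
  · exact hMAIN3 n d m s hn2 hm hmd hcond p
  have hx : (0 : ℤ) ≤ Module.finrank ℂ (linSys n d s (fun _ => m) p) := by positivity
  obtain ⟨A, hA⟩ : ∃ A, A + m = d + 1 := ⟨d + 1 - m, by omega⟩
  obtain ⟨e, he⟩ : ∃ e, e + 1 = m := ⟨m - 1, by omega⟩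
  have hd : d = e + A := by omega
  have hA1 : 1 ≤ A := by omega
  have hAd : d + 1 - m = A := by omega
  rw [hAd] at hcond
  have hn1 : 1 ≤ n := by omega
  have hK := finrank_K_le (n := n) (s := s) hA p
  by_cases hcase : A ≤ e
  · -- the main case
    have hd2 : 2 * A ≤ d := by omega
    have hd2' : 2 ≤ d := by omega
    have hAr : (0 : ℝ) < A := by exact_mod_cast hA1
    have hdr : (0 : ℝ) < d := by
      have : 0 < d := by omega
      exact_mod_cast this
    have hAd2 : (A : ℝ) ≤ d / 2 := by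
      have : (2 : ℝ) * A ≤ d := by exact_mod_cast hd2
      linarith
    have hdn : d ≤ n := by
      have : d ≤ d ^ 3 := Nat.le_self_pow (by norm_num) d
      omega
    -- `64 · 10^9 (log d)^4 ≤ d`
    have hA6 : (A : ℝ) ^ 6 ≤ (d : ℝ) ^ 6 / 64 := by
      have h1 := pow_le_pow_left₀ hAr.le hAd2 6
      have h2 : ((d : ℝ) / 2) ^ 6 = (d : ℝ) ^ 6 / 64 := by ring
      linarith
    have hlam64 : 64 * 10 ^ 9 * (Real.log d) ^ 4 ≤ (d : ℝ) := by
      have h5 : (0 : ℝ) < (d : ℝ) ^ 5 := by positivity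
      have h1 : 10 ^ 9 * (Real.log d) ^ 4 * (d : ℝ) ^ 5 ≤ (d : ℝ) ^ 6 / 64 := hcond.trans hA6
      have h2 : (64 * 10 ^ 9 * (Real.log d) ^ 4) * (d : ℝ) ^ 5 ≤ (d : ℝ) * (d : ℝ) ^ 5 := by
        have h3 : (d : ℝ) * (d : ℝ) ^ 5 = (d : ℝ) ^ 6 := by ring
        rw [h3]
        linarith
      exact le_of_mul_le_mul_right h2 h5
    have hlam30 : 30 ≤ Real.log d := hLAM d hd2' hlam64
    -- `14 d^2 ≤ A^2 d` and `d < (n + 1) A`
    have hlam4 : (1 : ℝ) ≤ (Real.log d) ^ 4 := one_le_pow₀ (by linarith)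
    have hbig : 10 ^ 9 * (d : ℝ) ^ 5 ≤ (A : ℝ) ^ 6 := by
      refine le_trans ?_ hcond
      have h5 : (0 : ℝ) < (d : ℝ) ^ 5 := by positivity
      nlinarith
    have hA2d : (14 : ℝ) * (d : ℝ) ^ 2 ≤ (A : ℝ) ^ 2 * d := by
      have h1 : (A : ℝ) ^ 4 ≤ (d : ℝ) ^ 4 := by
        have : (A : ℝ) ≤ d := by linarith
        exact pow_le_pow_left₀ hAr.le this 4
      have h2 : 10 ^ 9 * (d : ℝ) ^ 5 ≤ (A : ℝ) ^ 2 * (d : ℝ) ^ 4 := by
        refine hbig.trans ?_
        have h3 : (A : ℝ) ^ 6 = (A : ℝ) ^ 2 * (A : ℝ) ^ 4 := by ring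
        rw [h3]
        exact mul_le_mul_of_nonneg_left h1 (by positivity)
      have h4 : (0 : ℝ) < (d : ℝ) ^ 4 := by positivity
      have h5 : (10 ^ 9 * (d : ℝ)) * (d : ℝ) ^ 4 ≤ (A : ℝ) ^ 2 * (d : ℝ) ^ 4 := by
        have h6 : (10 ^ 9 * (d : ℝ)) * (d : ℝ) ^ 4 = 10 ^ 9 * (d : ℝ) ^ 5 := by ring
        rw [h6]; exact h2
      have h7 : 10 ^ 9 * (d : ℝ) ≤ (A : ℝ) ^ 2 := le_of_mul_le_mul_right h5 h4
      nlinarith
    have hnA : d < (n + 1) * A := by
      have h1 : (n + 1) * 1 ≤ (n + 1) * A := Nat.mul_le_mul_left _ hA1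
      omega
    have hlv := hLV n d s m A hA hn1 hm hmd hnA
    by_cases hs : (s : ℝ) * ((n + e).choose n : ℝ) ≤ 2 * ((n + e + A).choose n : ℝ)
    · -- few points
      have hed : ((e : ℝ) + A) = d := by
        rw [hd]; push_cast; ring
      obtain ⟨n', L, hn', hgood⟩ := hNUMC n A e s (by rw [hed]; exact hlam30) hcase
        (by rw [← hd]; exact hnd3) (by rw [hed]; exact hcond) hs
      have hA2 : 2 ≤ A := by
        by_contra hcon
        have hAe : A = 1 := by omega
        rw [hAe] at hbig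
        have h1 : (1 : ℝ) ≤ (d : ℝ) ^ 5 := one_le_pow₀ (by exact_mod_cast (by omega : 1 ≤ d))
        norm_num at hbig
        linarith
      obtain ⟨f, hfV, hf⟩ := hEX n A e s 1 1 (A - 1) (e - 1) n' e L le_rfl le_rfl (by omega)
        (by omega) (by omega) hn' (by omega) (by omega) hgood
      have h1 := hSEMI n A e s f hA1 hfV hf (extPts p)
      rw [← hd] at h1
      apply ldim_le_of_le hx
      rw [hlv]
      exact le_trans h1 hK
    · -- many points: the expected dimension is zero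
      push Not at hs
      apply ldim_le_of_neg hx
      have hRe : 0 < (n + e).choose n := Nat.choose_pos (by omega)
      set s' : ℕ := (2 * (n + e + A).choose n + (n + e).choose n - 1) / (n + e).choose n with hs'
      have hsN : 2 * (n + e + A).choose n < s * (n + e).choose n := by exact_mod_cast hs
      have h1 : 2 * (n + e + A).choose n ≤ s' * (n + e).choose n := by
        have h2 := Nat.div_add_mod (2 * (n + e + A).choose n + (n + e).choose n - 1) ((n + e).choose n)
        have h3 := Nat.mod_lt (2 * (n + e + A).choose n + (n + e).choose n - 1) hRe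
        rw [← hs'] at h2
        rw [mul_comm] at h2
        omega
      have h2 : s' * (n + e).choose n ≤ 2 * (n + e + A).choose n + (n + e).choose n := by
        have h3 := Nat.div_mul_le_self (2 * (n + e + A).choose n + (n + e).choose n - 1) ((n + e).choose n)
        rw [← hs'] at h3
        omega
      have h3 : s' ≤ s := by
        by_contra hcon
        have h4 : s + 1 ≤ s' := by omega
        have h5 : (s + 1) * (n + e).choose n ≤ s' * (n + e).choose n := Nat.mul_le_mul_right _ h4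
        have h6 := Nat.div_mul_le_self (2 * (n + e + A).choose n + (n + e).choose n - 1) ((n + e).choose n)
        rw [← hs'] at h6
        have h7 : (s + 1) * (n + e).choose n = s * (n + e).choose n + (n + e).choose n := by ring
        omega
      have heps : 30 * ((n + e + A).choose n * (n + e - A).choose n) ≤ (n + e).choose n ^ 2 := by
        apply NEGUM.negU n A e hA1 hcase
        rw [← hd, min_eq_right hdn]
        exact_mod_cast hA2d
      have hneg := hNEGC n A e s' hn1 hA1 hcase heps h1 h2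
      have hlv' := hLV n d s' m A hA hn1 hm hmd hnA
      refine ⟨fun i => if h : (i : ℕ) < s' then (fun _ : Fin s' => m) ⟨i, h⟩ else 0, fun i => ?_, ?_⟩
      · simp only
        split_ifs <;> omega
      · rw [lvdim_extend n d s s' h3 (fun _ => m) (fun _ => hmd), hlv', hd]
        exact hneg
  · -- trivial case
    push Not at hcase
    have hnA : d < (n + 1) * A := by
      have h1 : 2 * A ≤ (n + 1) * A := Nat.mul_le_mul_right _ (by omega)
      omega
    have hlv := hLV n d s m A hA hn1 hm hmd hnA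
    have h1 := finrank_K_trivial (extPts p) A e s
    rw [← hd] at h1
    apply ldim_le_of_le hx
    rw [hlv]
    refine le_trans ?_ (le_trans h1 hK)
    rw [finrank_V', finrank_V']
    -- compute Fs
    have key : ∀ j : ℕ, Fs n A (e + A) j = ((n + (e + A)).choose n : ℤ) - j * ((n + e).choose n : ℤ) := by
      intro j
      induction j with
      | zero => rw [hFSR.1]; simp
      | succ j ih =>
        rw [hFSR.2.2 n A e j hA1, ih, hFSR.2.1 n A e j hA1 hcase]
        push_cast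
        ring
    have key2 := key s
    rw [← hd] at key2
    rw [key2]

end FrI.MAIN4M
end

section
/-!
# FI4: the whole chain
-/
set_option autoImplicit false

namespace FrI.ALL4M

open Pool.Agent.Lib.MP_921642_ag

theorem cST3 : SpecST3 :=
  ST3M.specST3 FBM.specFB (ST1M.specST1 FBM.specFB) (ST2M.specST2 FBM.specFB)

theorem cKOS : SpecKOS := KOSM.specKOS FBM.specFB cST3 (ST4M.specST4 FBM.specFB)

theorem cEX : SpecEX :=
  EXM.specEX (BRIGM.specBRIG BRKM.specBRK BRTM.specBRT) cKOS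
    (TRANGM.specTRANG ASMM.specASM ASFM.specASF) RENM.specFRV
    (HILBM.specHILB FSRM.specFSR) RENM.specREN

theorem cHOR : SpecHOR := HORGM.specHORG HORWM.specHORW HOREM.specHORE

theorem cROUND : SpecROUND := ROUNDM.specROUND cHOR (BASEM.specBASE CNTM.specCNT)

theorem cROUND2 : SpecROUND2 := ROUND2M.specROUND2 cHOR (BASE2M.specBASE2 CNTM.specCNT)

theorem cSEMI : SpecSEMI := SEMGM.specSEMG FSRM.specFSR SEMAM.specSEMA SEMBM.specSEMB

theorem cSTEP : SpecSTEP := STEPM.specSTEP OMM.specOM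

theorem cLEAF : SpecLEAF := LEAFM.specLEAF OMM.specOM

theorem cSTEP2 : SpecSTEP2 := STEP2M.specSTEP2 cSTEP

theorem cPC : SpecPC := PCM.specPC OMM.specOM cSTEP2 NODEM.specNODE cLEAF

theorem cPB : SpecPB :=
  PBM.specPB OMM.specOM cPC (PBSM.specPBS OMM.specOM) NODEM.specNODE cLEAF

theorem cPA : SpecPA := PAM.specPA OMM.specOM cSTEP2 cPB NODEM.specNODE cLEAF

theorem cTHAG : SpecTHAG := THAGM.specTHAG cROUND (POT2M.specPOT2 OMM.specOM cSTEP)

theorem cMAIN3 : SpecMAIN3 :=
  MAIN3M.specMAIN3 cTHAG cEX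
    (NUMAM.specNUMA CAPQM.specCAPQ NUMA1M.specNUMA1 NUMA2M.specNUMA2)
    (NUMBM.specNUMB CAPBM.specCAPB NUMB2M.specNUMB2) cSEMI NEGCM.specNEGC
    LVM.specLV FSRM.specFSR LAMM.specLAM

theorem cTHAG4 : SpecTHAG4 := THAG4M.specTHAG4 cROUND2 cPA

theorem cNUMC : SpecNUMC :=
  NUMCM.specNUMC cTHAG4 CAPCM.specCAPC NUMC2M.specNUMC2 NUMC3M.specNUMC3

theorem cMAIN4 : SpecMAIN4 :=
  MAIN4M.specMAIN4 cMAIN3 cEX cNUMC cSEMI NEGCM.specNEGC LVM.specLV
    FSRM.specFSR (LAM4M.specLAM4 LAMM.specLAM)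

end FrI.ALL4M
end
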