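import Pool.Agent.Lib.MP_921642_ag.TwoThirds

/-!
# MP_921642_ag, FI: the weak Froeberg-Iarrobino inequality in every cone away from `m = d`

THEOREM.  For every `ρ < 1` and every `C` there is `n₀` such that for all `n ≥ n₀`, all `d` with
`n ≤ C d`, all `1 ≤ m ≤ ρ d`, every number `s` of points and every configuration of points,
`dim L_{n,d}(m^s) ≥ ldim L_{n,d}(m^s)`.

Definitions and the statements of the modules; every `SpecXXX : Prop` has its proof in the docstring.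
Module `XXX` = file `FI/XXX.lean`, imports `FI.Spec` only, theorem
`specXXX (hypotheses named in the docstring, in that order) : SpecXXX` in the namespace `FrI.XXXM`
(auxiliary lemmas there too).

Overview.  `A = d - m + 1`, `e = d - A = m - 1`, `R_k = choose (n + k) n`.  By semicontinuity and
apolarity (SEMI) it is enough to have `s ≤ 2 R_d / R_e` forms of degree `A` in `n + 1` variables which form
a regular sequence up to degree `e` (HILB).  They are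
`f_i = ∑_{t < r} ∑_{l ≤ L} X_{t,i,l}(x^q) y_{t,l}^b` (TRANS), with `X_{t,i,l}` forms of degree `a` in `n' + 1`
variables, `q a + b = A`.  The family is exact if the `r` matrices `X_t` are Tor-independent in degrees
`≤ D` (KOS, ST1-ST4, pure algebra).  Tor-independence is proved by a Horace induction (HOR), which is
a chip game; the game is won by a potential argument for fractional chips (POT) and random rounding
with a union bound over all paths of the game (ROUND, THA).  The numbers fit (CAP, NEG, LV).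
-/

set_option autoImplicit false

namespace FrI

open MvPolynomial Pool.Agent.Lib.MP_921642_ag

/-! ### Forms -/

/-- the polynomial ring in `N` variables -/
abbrev Po (N : ℕ) : Type := MvPolynomial (Fin N) ℂ

/-- forms of degree `j : ℤ`, zero for negative `j` -/
noncomputable def HS (N : ℕ) (j : ℤ) : Submodule ℂ (Po N) :=
  if 0 ≤ j then V (Fin N) j.toNat else ⊥

/-- tensors of order `q` in `Fin (L+1)` with polynomial entries -/
abbrev Fn (N L q : ℕ) : Type := (Fin q → Fin (L + 1)) → Po N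

/-- tensors with entries forms of degree `j` -/
noncomputable def FH (N L q : ℕ) (j : ℤ) : Submodule ℂ (Fn N L q) :=
  Submodule.pi Set.univ (fun _ => HS N j)

/-- `r` groups of `s` rows with `L + 1` columns -/
abbrev Mat (N r s L : ℕ) : Type := Fin r → Fin s → Fin (L + 1) → Po N

/-- The relation map: the rows `i ∈ I (u p)` of the group `u p` act in the slot `p`.
(`Function.update ν p 0` forgets the coordinate `p`.) -/
noncomputable def Psi {N r s L q : ℕ} (X : Mat N r s L) (u : Fin q → Fin r)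
    (I : Fin r → Finset (Fin s)) : (Fin q → Fin s → Fn N L q) →ₗ[ℂ] Fn N L q where
  toFun g := fun ν => ∑ p, ∑ i ∈ I (u p), X (u p) i (ν p) * g p i (Function.update ν p 0)
  map_add' g h := by
    funext ν
    simp [mul_add, Finset.sum_add_distrib]
  map_smul' c g := by
    funext ν
    simp [Finset.smul_sum]

/-- coefficients of the right degree: `g p i` has degree `D - a (u p) i` -/
noncomputable def Dom (N L : ℕ) {r s q : ℕ} (a : Fin r → Fin s → ℕ) (u : Fin q → Fin r) (D : ℤ) :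
    Submodule ℂ (Fin q → Fin s → Fn N L q) :=
  Submodule.pi Set.univ (fun p => Submodule.pi Set.univ (fun i => FH N L q (D - a (u p) i)))

/-- the relations of degree `D` -/
noncomputable def WD {N r s L q : ℕ} (X : Mat N r s L) (a : Fin r → Fin s → ℕ) (u : Fin q → Fin r)
    (I : Fin r → Finset (Fin s)) (D : ℤ) : Submodule ℂ (Fn N L q) :=
  (Dom N L a u D).map (Psi X u I)

/-- expected dimension of tensors modulo relations in degree `D`: the coefficient of `z^D` in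
`∏_p (L + 1 - ∑_{i ∈ I (u p)} z^{a (u p) i}) / (1 - z)^N` -/
noncomputable def expc (N L : ℕ) {r s q : ℕ} (a : Fin r → Fin s → ℕ) (u : Fin q → Fin r)
    (I : Fin r → Finset (Fin s)) (D : ℕ) : ℤ :=
  PowerSeries.coeff D ((∏ p, (((L + 1 : ℕ) : PowerSeries ℤ) -
    ∑ i ∈ I (u p), (PowerSeries.X : PowerSeries ℤ) ^ (a (u p) i))) *
      (PowerSeries.invOneSubPow ℤ N).val)

/-- the matrices `X` are good for the rows `I` of degrees `a` up to degree `D` -/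
def GoodX {N r s L : ℕ} (a : Fin r → Fin s → ℕ) (I : Fin r → Finset (Fin s)) (D : ℕ)
    (X : Mat N r s L) : Prop :=
  ∀ (q : ℕ) (u : Fin q → Fin r), Function.Injective u →
    ∀ I' : Fin r → Finset (Fin s), (∀ t, I' t ⊆ I t) → ∀ D' : ℕ, D' ≤ D →
      (((L + 1) ^ q * Module.finrank ℂ (V (Fin N) D') : ℕ) : ℤ) -
        (Module.finrank ℂ (WD X a u I' D') : ℤ) ≤ expc N L a u I' D'

/-- there are good matrices -/
def Good (N L : ℕ) {r s : ℕ} (a : Fin r → Fin s → ℕ) (I : Fin r → Finset (Fin s)) (D : ℕ) : Prop :=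
  ∃ X : Mat N r s L, (∀ t i l, X t i l ∈ V (Fin N) (a t i)) ∧ GoodX a I D X

/-! ### The Horace step and its base -/

/-- HOR.  The Horace step with the hyperplane `x_0 = 0` (`w = x_0`), specialising the rows `T` of the
group `t0`.  `res` = residual, `tr` = trace.
(1) Let `X'` be matrices with the residual degrees, `X_{t,i} = w X'_{t,i}` for `t = t0, i ∈ T`, `X = X'`
otherwise, `X̄` = `X` with `x_0 = 0` (forms in `N` variables).  For `u, I'` as in GoodX, `D' ≤ D + 1`: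
`dim W_{D'}(X, I') ≥ dim W_{D'-1}(X', I') + dim W̄_{D'}(X̄, I' \ T)` (first term absent for `D' = 0`).
Indeed `w Psi_{X'}(g') = Psi_X(g)` with `g p i = g' p i` if `u p = t0, i ∈ T`, and `= w g' p i` otherwise,
so `w W'_{D'-1} ⊆ W_{D'}`; restriction to `x_0 = 0` maps `W_{D'}` ONTO `W̄_{D'}` (lift `ḡ` to polynomials
without `x_0`, coefficients `0` for `i ∈ T`) and kills `w W'`; multiplication by `w` is injective.
(2) `dim V_{D'}(N+1) = dim V_{D'-1}(N+1) + dim V_{D'}(N)` and `expc` is additive in the same way: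
with `P = L+1 - ∑_{I'} z^a`, `P'` (degrees `a - 1` on `T`), `P̄` (rows `I' \ T`):
`P = z P' + (1 - z) P̄` for the group `t0`, and the other factors are the same for all three; multiply by
`1/(1-z)^{N+1}` (if `t0` is not in the range of `u` use `P = z P + (1-z) P`); `u` injective: at most one slot.
(3) One choice for both: `X'⁰` good for the residual state, `X̄⁰` good for the trace.  For `τ ∈ ℂ` let
`X'(τ) = X'⁰ + τ (lift X̄⁰ - X'⁰)` in the rows outside `T`, `X'(τ) = X'⁰` in the rows `T`.  `Psi` is linear in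
`X`, so `rank_semicont` (with `N = 2`) says: for all but finitely many `τ`, all the (finitely many:
`q ≤ r` since `u` is injective) dimensions of `W'` at `X'(τ)` are `≥` those at `τ = 0`, and those of `W̄` at
`X̄(τ)` are `≥` those at `τ = 1`.  Take such a `τ`. -/
def SpecHOR : Prop := ∀ (N L r s : ℕ) (a : Fin r → Fin s → ℕ) (I : Fin r → Finset (Fin s)) (D : ℕ)
  (t0 : Fin r) (T : Finset (Fin s)), T ⊆ I t0 → (∀ i ∈ T, 1 ≤ a t0 i) →
  Good N L a (Function.update I t0 (I t0 \ T)) (D + 1) →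
  Good (N + 1) L (fun t i => if t = t0 ∧ i ∈ T then a t i - 1 else a t i) I D →
  Good (N + 1) L a I (D + 1)

/-- CNT.  The number of exponents `α ∈ ℕ^N`, `|α| = D`, with `α_{v p} < c p` for all `p` (`v` injective)
is the coefficient of `z^D` in `∏_p (1 - z^{c p}) / (1 - z)^N`.
Induction on `m` (remove the last one): those with `α_v ≥ c` correspond to exponents of degree
`D - c` by `α ↦ α - c e_v`, which does not change the other conditions.  `m = 0`: `choose (N-1+D) D`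
(`Finset.card_finsuppAntidiag_nat_eq_choose`, `PowerSeries.invOneSubPow`); `N = 0` separately. -/
def SpecCNT : Prop := ∀ (N m : ℕ) (v : Fin m → Fin N), Function.Injective v → ∀ (c : Fin m → ℕ) (D : ℕ),
  (((((Finset.univ : Finset (Fin N)).finsuppAntidiag D).filter
    (fun α => ∀ p, α (v p) < c p)).card : ℕ) : ℤ) =
    PowerSeries.coeff D ((∏ p, (1 - (PowerSeries.X : PowerSeries ℤ) ^ (c p))) *
      (PowerSeries.invOneSubPow ℤ N).val)

/-- BASE (hypothesis SpecCNT).  At most `L + 1` active rows (`a ≤ D`) in each group and at least `r`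
variables.  `J_t` = active rows of `I t`, `λ_t : J_t → Fin (L+1)` injective, `x_t` = variable number `t`;
`X_{t,i,l} = x_t^{a t i}` if `i ∈ J_t` and `l = λ_t i`, and `0` otherwise.  Fix `u` injective, `I' ⊆ I`,
`D' ≤ D`.  For `ν` let `c p = a (u p) i` if there is `i ∈ I' (u p) ∩ J` with `λ i = ν p` (then it is unique),
no condition for the other `p`.  `WD` contains every tensor with one entry (at `ν`) a monomial of degree
`D'` divisible by some `x_{u p}^{c p}`, and these are linearly independent; so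
`(L+1)^q dim V_{D'} - dim WD ≤ ∑_ν #{α : |α| = D', α_{u p} < c p}` (the `p` with a condition), by CNT the
coefficient of `z^{D'}` in `∑_ν ∏_p (1 - [condition] z^{c p}) / (1-z)^N =
∏_p ∑_l (1 - [..] z^{..}) / (1-z)^N = ∏_p (L + 1 - ∑_{i ∈ I'(u p) ∩ J} z^{a}) / (1-z)^N`
(`Finset.prod_univ_sum`); the inactive rows have `a > D ≥ D'` and do not change the coefficient. -/
def SpecBASE : Prop := ∀ (N L r s : ℕ) (a : Fin r → Fin s → ℕ) (I : Fin r → Finset (Fin s)) (D : ℕ),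
  r ≤ N → (∀ t, ((I t).filter (fun i => a t i ≤ D)).card ≤ L + 1) → Good N L a I D

/-! ### The game -/

/-- Fractional strategies.  At a node: the active group `t0`; a row of degree `α` of the group `t0` is
kept out of `T` with probability `p α`. -/
inductive FT (r : ℕ) : Type where
  | leaf : FT r
  | node (t0 : Fin r) (p : ℕ → ℝ) (tr res : FT r) : FT r

/-- For every leaf the function `B t α` = probability that a row of the group `t` which has degree `α` at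
the root is active at the leaf (in the branch leading to this leaf).  Second argument: `D` at the root. -/
noncomputable def lv {r : ℕ} : FT r → ℕ → List (Fin r → ℕ → ℝ)
  | .leaf, D => [fun _ α => if α ≤ D then 1 else 0]
  | .node t0 p tr res, D =>
      (lv tr D).map (fun B t α => if t = t0 then p α * B t α else B t α) ++
      (lv res (D - 1)).map
        (fun B t α => if t = t0 then p α * B t α + (1 - p α) * B t (α - 1) else B t α)

/-- validity of a strategy in `N` variables, degree `D` -/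
def Val {r : ℕ} : FT r → ℕ → ℕ → Prop
  | .leaf, N, _ => r ≤ N
  | .node _ p tr res, N, D => 1 ≤ N ∧ 1 ≤ D ∧ p 0 = 1 ∧ (∀ α, 0 ≤ p α ∧ p α ≤ 1) ∧
      Val tr (N - 1) D ∧ Val res N (D - 1)

/-- ROUND (hypotheses SpecHOR, SpecBASE).  Random rounding, derandomised.  Induction on `τ`, for all
`N, D, a, I`.  By induction all `B` in `lv` have values in `[0,1]` (when `Val`).
Leaf: the sum is `∑_t lam^{-(L+2)} lam^{#{i ∈ I t : a ≤ D}} < 1`, so each group has at most `L + 1` active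
rows: SpecBASE.
Node: for `T ⊆ I t0` put the weight `w(T) = ∏_{i ∈ T} (1 - p(a t0 i)) ∏_{i ∈ I t0 \ T} p(a t0 i)`, total weight 1
(`Finset.prod_add`).  Let `Φ_tr(T)`, `Φ_res(T)` be the sums of the Spec for the children with the states
(`I t0` replaced by `I t0 \ T`) resp. (degrees `a - 1` on `T`).  Since for any `x_i, y_i`
`∑_T w(T) ∏_{i∈T} x_i ∏_{i∉T} y_i = ∏_i ((1-p) x_i + p y_i)` we get for each leaf of `tr` (take `x_i = 1`,
`y_i = 1 + (lam-1) B`): `1 - p + p (1 + (lam-1) B) = 1 + (lam-1) p B`, and for each leaf of `res`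
(`x_i = 1 + (lam-1) B(a-1)`, `y_i = 1 + (lam-1) B(a)`): `1 + (lam-1)(p B(a) + (1-p) B(a-1))`.  So
`∑_T w(T) (Φ_tr(T) + Φ_res(T)) = Φ < 1`, hence there is `T` with `w(T) > 0` and `Φ_tr(T) + Φ_res(T) < 1`; both are
`≥ 0`, so both `< 1`: by induction the trace and the residual state are Good; `w(T) > 0` and `p 0 = 1` give
`a t0 i ≥ 1` on `T`; SpecHOR. -/
def SpecROUND : Prop := ∀ (r L : ℕ) (τ : FT r) (N D s : ℕ) (a : Fin r → Fin s → ℕ)
  (I : Fin r → Finset (Fin s)) (lam : ℝ), 1 ≤ lam → Val τ N D →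
  ((lv τ D).map (fun B => ∑ t, (lam ^ (L + 2))⁻¹ *
    ∏ i ∈ I t, (1 + (lam - 1) * B t (a t i)))).sum < 1 → Good N L a I D

/-- the weight of a row of degree `α` in `n + 1` variables and degree `D` -/
noncomputable def om (n D α : ℕ) : ℝ :=
  if α ≤ D then ((n + D - α).choose n : ℝ) / ((n + D).choose n : ℝ) else 0

/-- the load of a fractional family `μ` (rows of degree `0` are not counted) -/
noncomputable def load (n D A : ℕ) (μ : ℕ → ℝ) : ℝ := ∑ α ∈ Finset.Icc 1 A, μ α * om n D α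

/-- POT.  The fractional game.  Induction on `(n - n1) + D`.
`S_k = choose (n + k) n`, `κ = n / D`.  Identities (`n, D ≥ 1`, `α ≤ D`): with `ρ(α) = (n+D)/(n+D-α) ≥ 1`
`om (n-1) D α = ρ(α) om n D α`;  `om n (D-1) α = (1 - κ (ρ(α) - 1)) om n D α` (also for `α = D`, both sides 0);
`om n (D-1) (α-1) = (1 + κ) om n D α` for `1 ≤ α`.  For `α > D` everything is 0.  `ρ(α) ≤ (n+D)/n ≤ R0`.
STOP if `n = n1` or `D = 0`: leaf.  `∑ μ α B α = μ 0 + ∑_{1 ≤ α ≤ D} μ α ≤ μ 0 + load · choose (n+D) n`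
(since `om ≥ 1/choose (n+D) n`), `load ≤ g^{1/γ}`, `choose ≤ Sm` (if `D = 0` it is 1).
STEP.  `W_t` = load of the group `t`.  `t0` = a group with the largest `W`.  If `W_{t0} = 0` all loads are 0:
take `p = 1`, everything stays 0.  Otherwise `q_t = (W_t / W_{t0})^γ ≤ 1` and, for `t ≠ t0`, `r_t` with
`∑ μ_t ρ om = r_t W_t`, `1 ≤ r_t ≤ R0` (`r_t = 1` if `W_t = 0`); `σ = ∑_{t ≠ t0} q_t (r_t - 1)`,
`z = max (0, 1 - σ)`, `p α = z / ρ(α)` for `1 ≤ α ≤ D`, `p α = 1` for `α = 0` and `α > D`.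
Trace child (`n-1`, `D`): `μ'_{t0} α = p α μ_{t0} α`; new loads `z W_{t0}`, `r_t W_t`.  If `σ ≤ 1`:
`G' = z^γ W_{t0}^γ + ∑ r_t^γ W_t^γ ≤ W_{t0}^γ (1 - γ σ) + ∑ (1 + γ (r_t - 1)) W_t^γ = G` (Bernoulli,
`Real.rpow_one_add_le_one_add_mul_self`).  If `σ > 1`: `z = 0` and
`G' ≤ R0^γ ∑_{t≠t0} W_t^γ ≤ G` because `(R0^γ - 1) ∑_{t ≠ t0} W_t^γ ≤ (R0^γ - 1)(r - 1) W_{t0}^γ ≤ W_{t0}^γ`.
Residual child (`n`, `D-1`): `μ'_{t0} α = p α μ_{t0} α + (1 - p (α+1)) μ_{t0} (α+1)`.  The sum over the rows that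
come from `α ≥ 1` (including those that arrive at degree 0, for which `om = 1`) of `μ om` is
`∑_{α≥1} μ om (p (1 - κ(ρ-1)) + (1-p)(1+κ)) = W_{t0} (1 + κ (1 - z))` since `p ρ = z`; the other groups:
`W_t (1 - κ (r_t - 1)) ≥ 0`.  So with the rows arriving at 0 counted,
`G' ≤ W_{t0}^γ (1 + γ κ (1-z)) + ∑ W_t^γ (1 - γ κ (r_t - 1)) = G + γ κ W_{t0}^γ ((1-z) - σ) ≤ G ≤ g`;
in particular the mass arriving at degree 0 is `≤ g^{1/γ}` and the loads without it satisfy `G' ≤ g`.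
By induction there are trees for the two children; the new tree is the node.  For a leaf function `B'`
of a child and the corresponding `B` of the node, `∑ μ_t α B t α = ∑ μ'_t α B' t α` (definition of `lv`), and
`μ'_t 0 ≤ μ_t 0 + g^{1/γ}` (residual), `= μ_t 0` (trace).  Number of leaves: `2^{k-1} + 2^{k-1}`. -/
def SpecPOT : Prop := ∀ (r n1 : ℕ) (γ R0 Sm : ℝ), 1 ≤ r → 1 ≤ n1 → r ≤ n1 + 1 → 0 < γ → γ ≤ 1 →
  1 ≤ R0 → ((r : ℝ) - 1) * (R0 ^ γ - 1) ≤ 1 → 1 ≤ Sm →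
  ∀ (A n D : ℕ) (μ : Fin r → ℕ → ℝ) (g : ℝ), n1 ≤ n → ((n1 + D : ℕ) : ℝ) ≤ R0 * n1 →
    ((n1 + D).choose n1 : ℝ) ≤ Sm → (∀ t α, 0 ≤ μ t α) → (∀ t α, A < α → μ t α = 0) →
    ∑ t, (load n D A (μ t)) ^ γ ≤ g →
    ∃ τ : FT r, Val τ (n + 1) D ∧ (lv τ D).length ≤ 2 ^ (n - n1 + D) ∧
      ∀ B ∈ lv τ D, ∀ t, (∀ α, 0 ≤ B t α) ∧
        ∑ α ∈ Finset.range (A + 1), μ t α * B t α ≤
          μ t 0 + ((n - n1 + D + 1 : ℕ) : ℝ) * g ^ (1 / γ) * Sm

/-- THA (hypotheses SpecROUND, SpecPOT).  Existence of Tor-independent matrices, with exponential room.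
We may assume `C1 ≥ 1`.  Choose `0 < ν ≤ 1` with `ν (1 + log (1 + C1/ν)) ≤ δ/4`, `R0 = 1 + C1/ν`, `0 < γ ≤ 1` with
`(r - 1)(R0^γ - 1) ≤ 1`.  For given `n` (large) put `n1 = ⌈ν n⌉`, `Sm = choose (n1 + D) n1 ≤
(exp 1 (n1+D)/n1)^{n1} ≤ exp (n1 (1 + log (1 + C1/ν))) ≤ exp (δ n / 2)` (the bound increases in `D`; the Spec
POT is applied with this `D`; smaller `D` is handled inside POT).  `μ_t` = `s` at `α = a`, zero elsewhere,
`A = a`; load `W = s choose (n+D-a) n / choose (n+D) n ≤ exp (-δ n)`, `g = r W^γ`, `g^{1/γ} = r^{1/γ} W`.  POT gives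
`τ` with at most `2^{n+D}` leaves and `s B t a ≤ β` for all leaves,
`β := (n + D + 1) r^{1/γ} exp(-δ n / 2) ≤ exp (-δ n / 4) ≤ 1` for `n` large.
ROUND with `lam = 1/β ≥ 1`: the sum is at most
`2^{n+D} r β^{L+2} (1 + (lam-1) B)^s ≤ 2^{n+D} r β^{L+2} exp (lam s B) ≤ 2^{n+D} r β^{L+2} exp 1
≤ exp ((1+C1) n log 2 + log r + 1 - (L+2) δ n / 4) < 1` if `(L + 2) δ/4 ≥ (1 + C1) + log r + 2`, `n ≥ 1`. -/
def SpecTHA : Prop := ∀ (C1 δ : ℝ), 0 < δ → ∀ r : ℕ, 1 ≤ r → ∃ L n0 : ℕ, ∀ n ≥ n0, ∀ D a s : ℕ,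
  1 ≤ a → a ≤ D → (D : ℝ) ≤ C1 * n →
  (s : ℝ) * ((n + D - a).choose n : ℝ) ≤ Real.exp (-(δ * n)) * ((n + D).choose n : ℝ) →
  Good (n + 1) L (r := r) (s := s) (fun _ _ => a) (fun _ => Finset.univ) D

/-! ### Graded systems and Koszul exactness -/

/-- A graded vector space (given by the projections `π j`) with commuting operators `X t i l` of
degree `a`. -/
structure Sys (r k L : ℕ) (a : ℤ) where
  C : Type
  ag : AddCommGroup C
  mo : Module ℂ C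
  X : Fin r → Fin k → Fin (L + 1) → (C →ₗ[ℂ] C)
  comm : ∀ t i l t' i' l' c, X t i l (X t' i' l' c) = X t' i' l' (X t i l c)
  π : ℤ → (C →ₗ[ℂ] C)
  ππ : ∀ j c, π j (π j c) = π j c
  πX : ∀ j t i l c, π (j + a) (X t i l c) = X t i l (π j c)

attribute [instance] Sys.ag Sys.mo

variable {r k L : ℕ} {a : ℤ}

/-- the map `u ↦ (∑_i X t i l u_i)_l` -/
noncomputable def Sys.rel (𝒞 : Sys r k L a) (t : Fin r) :
    (Fin k → 𝒞.C) →ₗ[ℂ] (Fin (L + 1) → 𝒞.C) :=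
  LinearMap.pi (fun l => ∑ i, (𝒞.X t i l) ∘ₗ LinearMap.proj i)

lemma Sys.rel_apply (𝒞 : Sys r k L a) (t : Fin r) (u : Fin k → 𝒞.C) (l : Fin (L + 1)) :
    𝒞.rel t u l = ∑ i, 𝒞.X t i l (u i) := by
  simp [Sys.rel]

/-- an operator acting on every coordinate -/
noncomputable def coord {C : Type} [AddCommGroup C] [Module ℂ C] (m : ℕ) (φ : C →ₗ[ℂ] C) :
    (Fin m → C) →ₗ[ℂ] (Fin m → C) :=
  LinearMap.pi (fun i => φ ∘ₗ LinearMap.proj i)

@[simp] lemma coord_apply {C : Type} [AddCommGroup C] [Module ℂ C] (m : ℕ) (φ : C →ₗ[ℂ] C)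
    (c : Fin m → C) (i : Fin m) : coord m φ c i = φ (c i) := rfl

lemma Sys.coordX_mem (𝒞 : Sys r k L a) (t t' : Fin r) (i : Fin k) (l : Fin (L + 1)) :
    LinearMap.range (𝒞.rel t) ≤
      (LinearMap.range (𝒞.rel t)).comap (coord (L + 1) (𝒞.X t' i l)) := by
  rintro _ ⟨u, rfl⟩
  refine ⟨coord k (𝒞.X t' i l) u, ?_⟩
  funext m
  simp only [Sys.rel_apply, coord_apply, map_sum]
  exact Finset.sum_congr rfl (fun i' _ => 𝒞.comm _ _ _ _ _ _ _)

lemma Sys.coordπ_mem (𝒞 : Sys r k L a) (t : Fin r) (j : ℤ) :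
    LinearMap.range (𝒞.rel t) ≤
      (LinearMap.range (𝒞.rel t)).comap (coord (L + 1) (𝒞.π j)) := by
  rintro _ ⟨u, rfl⟩
  refine ⟨coord k (𝒞.π (j - a)) u, ?_⟩
  funext m
  simp only [Sys.rel_apply, coord_apply, map_sum]
  refine Finset.sum_congr rfl (fun i' _ => ?_)
  rw [← 𝒞.πX, sub_add_cancel]

/-- the cokernel of `rel t`, again a graded system -/
noncomputable def Sys.cok (𝒞 : Sys r k L a) (t : Fin r) : Sys r k L a where
  C := (Fin (L + 1) → 𝒞.C) ⧸ LinearMap.range (𝒞.rel t)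
  ag := inferInstance
  mo := inferInstance
  X t' i l := Submodule.mapQ _ _ (coord (L + 1) (𝒞.X t' i l)) (𝒞.coordX_mem t t' i l)
  comm := by
    intro t1 i1 l1 t2 i2 l2 c
    obtain ⟨c, rfl⟩ := Submodule.mkQ_surjective _ c
    simp only [Submodule.mkQ_apply, Submodule.mapQ_apply]
    congr 1
    funext m
    simp only [coord_apply]
    exact 𝒞.comm _ _ _ _ _ _ _
  π j := Submodule.mapQ _ _ (coord (L + 1) (𝒞.π j)) (𝒞.coordπ_mem t j)
  ππ := by
    intro j c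
    obtain ⟨c, rfl⟩ := Submodule.mkQ_surjective _ c
    simp only [Submodule.mkQ_apply, Submodule.mapQ_apply]
    congr 1
    funext m
    simp only [coord_apply]
    exact 𝒞.ππ _ _
  πX := by
    intro j t' i l c
    obtain ⟨c, rfl⟩ := Submodule.mkQ_surjective _ c
    simp only [Submodule.mkQ_apply, Submodule.mapQ_apply]
    congr 1
    funext m
    simp only [coord_apply]
    exact 𝒞.πX _ _ _ _ _

/-- the matrix of the group `t` is injective on the system, in degrees `≤ D` -/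
def Inj (𝒞 : Sys r k L a) (t : Fin r) (D : ℤ) : Prop :=
  ∀ j : ℤ, j + a ≤ D → ∀ u : Fin k → 𝒞.C, (∀ i, 𝒞.π j (u i) = u i) →
    (∀ l, ∑ i, 𝒞.X t i l (u i) = 0) → u = 0

/-- Tor-independence of the groups in the list `Vs`, on the system `𝒞`, in degrees `≤ D` -/
def AC : List (Fin r) → Sys r k L a → ℤ → Prop
  | [], _, _ => True
  | t :: Vs, 𝒞, D => Inj 𝒞 t D ∧ AC Vs 𝒞 D ∧ AC Vs (𝒞.cok t) D

/-- monomials in the variables `Y t l` -/
abbrev Mo (r L : ℕ) : Type := Fin r → Fin (L + 1) → ℕ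

/-- degree in the group `t` -/
def dg (t : Fin r) (κ : Mo r L) : ℕ := ∑ l, κ t l

/-- total degree -/
def tdeg (κ : Mo r L) : ℕ := ∑ t, dg t κ

/-- divide a monomial by `Y t l` -/
def dn (t : Fin r) (l : Fin (L + 1)) (κ : Mo r L) : Mo r L :=
  Function.update κ t (Function.update (κ t) l (κ t l - 1))

/-- multiply a monomial by `Y t l` -/
def up (t : Fin r) (l : Fin (L + 1)) (κ : Mo r L) : Mo r L :=
  Function.update κ t (Function.update (κ t) l (κ t l + 1))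

/-- `g = ∑_κ g(κ) Y^κ` has total `Y`-degree `μ`, involves only the groups in `Vs`, and its coefficients
are homogeneous of degree `j` -/
structure InE (𝒞 : Sys r k L a) (Vs : List (Fin r)) (μ j : ℤ) (g : Mo r L → 𝒞.C) : Prop where
  deg : ∀ κ, g κ ≠ 0 → (tdeg κ : ℤ) = μ
  sup : ∀ κ, g κ ≠ 0 → ∀ t, t ∉ Vs → ∀ l, κ t l = 0
  hom : ∀ κ, 𝒞.π j (g κ) = g κ

open Classical in
/-- multiplication by `f_i = ∑_{t ∈ Vs} ∑_l X t i l · Y t l` -/
noncomputable def F (𝒞 : Sys r k L a) (Vs : List (Fin r)) (i : Fin k) (g : Mo r L → 𝒞.C) :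
    Mo r L → 𝒞.C :=
  fun κ => ∑ t, ∑ l, if t ∈ Vs ∧ κ t l ≠ 0 then 𝒞.X t i l (g (dn t l κ)) else 0

/-- Koszul exactness: every syzygy with coefficients of `Y`-degree `μ` and degree `j` is Koszul -/
def Kos (𝒞 : Sys r k L a) (Vs : List (Fin r)) (μ j : ℤ) : Prop :=
  ∀ g : Fin k → (Mo r L → 𝒞.C), (∀ i, InE 𝒞 Vs μ j (g i)) → (∑ i, F 𝒞 Vs i (g i) = 0) →
    ∃ c : Fin k → Fin k → (Mo r L → 𝒞.C), (∀ i m, InE 𝒞 Vs (μ - 1) (j - a) (c i m)) ∧
      (∀ i m, c i m = - c m i) ∧ ∀ i, g i = ∑ m, F 𝒞 Vs m (c i m)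

/-- ST1.  `φ_m = F 𝒞 Vs m`.  Let `v̄_m κ` be the class of `(v l m κ)_l` in `𝒞.cok t`: it is in
`InE (cok) Vs (μ-1) j` and `∑ φ_m v̄_m = 0` (it is the class of `(∑_i X t i l (u_i κ))_l`).  So
`v̄_m = ∑_n φ_n c̄_{mn}` with `c̄` antisymmetric, in `InE Vs (μ-2) (j-a)`.  Lift: representatives `G` of `c̄`
(zero where `c̄` is zero), apply `π (j-a)`, antisymmetrise (`½(G_{mn} - G_{nm})`): `c^l_{mn}`.  Then
`(v l m - ∑_n φ_n c^l_{mn})(κ) = ∑_i X t i l (β_{mi} κ)` for all `l`; apply `π j`: we may replace `β` by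
`π (j-a) β` (πX), and take `β = 0` where the left side is zero for all `l`: `β_{mi} ∈ InE Vs (μ-1) (j-a)`.
The `φ`'s commute with each other and with the operators `X`, `c` is antisymmetric, so
`∑_m φ_m v_m^l = ∑_i X t i l (∑_m φ_m β_{mi})`; so `∑_i X t i l ((u_i - ∑_m φ_m β_{mi}) κ) = 0` for all `l, κ`;
the argument is homogeneous of degree `j`, `j + a ≤ D`, so it is zero (Inj).  `d i m = β_{mi}`. -/
def SpecST1 : Prop := ∀ (r k L : ℕ) (a : ℤ) (𝒞 : Sys r k L a) (t : Fin r) (Vs : List (Fin r)) (D : ℤ),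
  Inj 𝒞 t D →
  (∀ μ j : ℤ, μ + 1 ≤ Vs.length → j + a ≤ D → Kos (𝒞.cok t) Vs μ j) →
  ∀ μ j : ℤ, μ ≤ Vs.length → j + a ≤ D →
  ∀ (u : Fin k → (Mo r L → 𝒞.C)) (v : Fin (L + 1) → Fin k → (Mo r L → 𝒞.C)),
    (∀ i, InE 𝒞 Vs μ j (u i)) → (∀ l m, InE 𝒞 Vs (μ - 1) j (v l m)) →
    (∀ l κ, ∑ i, 𝒞.X t i l (u i κ) = (∑ m, F 𝒞 Vs m (v l m)) κ) →
    ∃ d : Fin k → Fin k → (Mo r L → 𝒞.C), (∀ i m, InE 𝒞 Vs (μ - 1) (j - a) (d i m)) ∧
      ∀ i, u i = ∑ m, F 𝒞 Vs m (d i m)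

/-- ST2.  `f = θ + φ`, `φ = F 𝒞 Vs`, `θ` = part of the group `t`.  Induction: let `v` have order `≥ κ'` in the group
`t` (zero at `κ` with `dg t κ < κ'`), `κ' < κ0`.  For `ρ : Fin (L+1) → ℕ` with `∑ ρ = κ'` put
`v_m^ρ κ = v_m (update κ t ρ)` if `κ t = 0`, else 0: in `InE Vs (μ-1-κ') (j-a)`, and `∑ φ_m v_m^ρ = 0`, because
it is the value of `∑ f_m v_m` at `update κ t ρ` (the `θ` part involves values of `v` of `t`-degree `κ' - 1`).
Kos gives `c^ρ` antisymmetric (`μ - 1 - κ' + 1 ≤ length`, `(j - a) + a ≤ D`).  Put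
`c_{mn} κ = c^{κ t}_{mn} (update κ t 0)` if `dg t κ = κ'`, else 0.  `v_m - ∑_n f_n c_{mn}` has order `≥ κ'+1` and
the same `∑ f_m v_m` (antisymmetry, the `f`'s commute). -/
def SpecST2 : Prop := ∀ (r k L : ℕ) (a : ℤ) (𝒞 : Sys r k L a) (t : Fin r) (Vs : List (Fin r)) (D : ℤ),
  t ∉ Vs → (∀ μ j : ℤ, μ + 1 ≤ Vs.length → j + a ≤ D → Kos 𝒞 Vs μ j) →
  ∀ μ j : ℤ, μ ≤ Vs.length → j ≤ D →
  ∀ (v : Fin k → (Mo r L → 𝒞.C)) (κ0 : ℕ), (∀ m, InE 𝒞 (t :: Vs) (μ - 1) (j - a) (v m)) →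
    (∀ κ : Mo r L, dg t κ < κ0 → (∑ m, F 𝒞 (t :: Vs) m (v m)) κ = 0) →
    ∃ v' : Fin k → (Mo r L → 𝒞.C), (∀ m, InE 𝒞 (t :: Vs) (μ - 1) (j - a) (v' m)) ∧
      (∀ m (κ : Mo r L), dg t κ < κ0 → v' m κ = 0) ∧
      ∑ m, F 𝒞 (t :: Vs) m (v' m) = ∑ m, F 𝒞 (t :: Vs) m (v m)

/-- ST3 (hypotheses SpecST1, SpecST2).  Induction on the order: let `u` have order `≥ κ'` in the group `t`
(start: 0).  By ST2 (with `j + a` for `j`) the `v l` may be taken of order `≥ κ'`.  For `ρ` with `∑ ρ = κ'`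
the values at `update κ t ρ` (`κ t = 0`) give: `∑_i X t i l (u_i^ρ κ) = (∑_m φ_m v^{l,ρ}_m) κ` (the `θ` part has
`t`-degree `κ'-1` arguments).  ST1 with `μ - κ' ≤ length`: `u_i^ρ = ∑ φ_m d^ρ_{im}`.  Assemble
`d_{im} κ = d^{κ t}_{im} (update κ t 0)` if `dg t κ = κ'`, else 0; `u_i - ∑_m f_m d_{im}` has order `≥ κ'+1`
and satisfies the hypothesis with `v_m^l - ∑_i X t i l d_{im}`.  When `κ' > μ`, `u = 0`. -/
def SpecST3 : Prop := ∀ (r k L : ℕ) (a : ℤ) (𝒞 : Sys r k L a) (t : Fin r) (Vs : List (Fin r)) (D : ℤ),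
  t ∉ Vs → Inj 𝒞 t D →
  (∀ μ j : ℤ, μ + 1 ≤ Vs.length → j + a ≤ D → Kos 𝒞 Vs μ j) →
  (∀ μ j : ℤ, μ + 1 ≤ Vs.length → j + a ≤ D → Kos (𝒞.cok t) Vs μ j) →
  ∀ μ j : ℤ, μ ≤ Vs.length → j + a ≤ D →
  ∀ (u : Fin k → (Mo r L → 𝒞.C)) (v : Fin (L + 1) → Fin k → (Mo r L → 𝒞.C)),
    (∀ i, InE 𝒞 (t :: Vs) μ j (u i)) → (∀ l m, InE 𝒞 (t :: Vs) (μ - 1) j (v l m)) →
    (∀ l κ, ∑ i, 𝒞.X t i l (u i κ) = (∑ m, F 𝒞 (t :: Vs) m (v l m)) κ) →
    ∃ d : Fin k → Fin k → (Mo r L → 𝒞.C), (∀ i m, InE 𝒞 (t :: Vs) (μ - 1) (j - a) (d i m)) ∧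
      ∀ i, u i = ∑ m, F 𝒞 (t :: Vs) m (d i m)

/-- ST4.  Euler argument.  Induction on `μ`; `μ < 0`: `g = 0`, `c = 0`.  `∂_{t,l} g κ = (κ t l + 1) g (up t l κ)`,
`(Y_{t,l} g) κ = g (dn t l κ)` if `κ t l ≠ 0`, else 0.  For `t ∈ Vs`: `∂_{tl} F_i g = F_i ∂_{tl} g + X t i l g`
(coefficientwise `X`), `F_i = ∑_{t ∈ Vs, l} X t i l Y_{tl}`, all `F`, `X`, `Y` commute, and
`∑_{t ∈ Vs, l} Y_{tl} ∂_{tl} g = μ g` on `InE Vs μ j`.
Let `∑ F_i g_i = 0`.  Apply `∂_{tl}`: `∑_i X t i l g_i = ∑_m F_m (- ∂_{tl} g_m)`: the hypothesis (one `t ∈ Vs` is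
enough, but we have it for all) gives `d` with `g_i = ∑_m F_m d_{im}`, `d_{im} ∈ InE Vs (μ-1) (j-a)`.
`h^{tl}_m = ∂_{tl} g_m + ∑_i X t i l d_{im} ∈ InE Vs (μ-1) j` and
`∑_m F_m h^{tl}_m = ∑_m F_m ∂_{tl} g_m + ∑_i X t i l g_i = ∂_{tl} (∑ F_m g_m) = 0`: by induction
`h^{tl}_m = ∑_n F_n e^{tl}_{mn}`, `e` antisymmetric.  Then `μ g_m = ∑ Y_{tl} ∂_{tl} g_m =
∑_n F_n (∑_{tl} Y_{tl} e^{tl}_{mn}) - ∑_i F_i d_{im}` and `g_m = ∑_n F_n d_{mn}`, so
`(μ+1) g_m = ∑_n F_n (∑_{tl} Y_{tl} e^{tl}_{mn} + d_{mn} - d_{nm})`: divide by `μ + 1 ≥ 1`. -/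
def SpecST4 : Prop := ∀ (r k L : ℕ) (a : ℤ) (𝒞 : Sys r k L a) (Vs : List (Fin r)) (D : ℤ),
  (∀ μ j : ℤ, μ + 1 ≤ Vs.length → j + a ≤ D → ∀ u : Fin k → (Mo r L → 𝒞.C),
    (∀ i, InE 𝒞 Vs μ j (u i)) →
    (∀ t ∈ Vs, ∀ l, ∃ v : Fin k → (Mo r L → 𝒞.C), (∀ m, InE 𝒞 Vs (μ - 1) j (v m)) ∧
      ∀ κ, ∑ i, 𝒞.X t i l (u i κ) = (∑ m, F 𝒞 Vs m (v m)) κ) →
    ∃ d : Fin k → Fin k → (Mo r L → 𝒞.C), (∀ i m, InE 𝒞 Vs (μ - 1) (j - a) (d i m)) ∧
      ∀ i, u i = ∑ m, F 𝒞 Vs m (d i m)) →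
  ∀ μ j : ℤ, μ + 1 ≤ Vs.length → j + a ≤ D → Kos 𝒞 Vs μ j

/-- KOS (hypotheses SpecST3, SpecST4).  Induction on `Vs` for all `𝒞`.  `[]`: `μ < 0`, so `g = 0`.  `t :: Vs`:
the induction hypothesis for `𝒞` and for `𝒞.cok t`, then ST3, ST4 (`μ + 1 ≤ length (t :: Vs)` means
`μ ≤ length Vs`; use the group `t ∈ t :: Vs` for the hypothesis of ST3, `choose` the `v`). -/
def SpecKOS : Prop := ∀ (r k L : ℕ) (a : ℤ) (𝒞 : Sys r k L a) (Vs : List (Fin r)) (D : ℤ),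
  Vs.Nodup → AC Vs 𝒞 D → ∀ μ j : ℤ, μ + 1 ≤ Vs.length → j + a ≤ D → Kos 𝒞 Vs μ j

/-! ### The polynomial system -/

/-- projection to degree `j : ℤ` -/
noncomputable def prj (N : ℕ) (j : ℤ) : Po N →ₗ[ℂ] Po N :=
  if 0 ≤ j then homogeneousComponent j.toNat else 0

lemma prj_idem (N : ℕ) (j : ℤ) (c : Po N) : prj N j (prj N j c) = prj N j c := by
  unfold prj
  split_ifs with h
  · exact homogeneousComponent_of_mem
      ((mem_homogeneousSubmodule _ _).2 (homogeneousComponent_isHomogeneous _ _)) |>.trans (by simp)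
  · simp

/-- homogeneous components of a product with a form -/
lemma hc_mul (N : ℕ) {a : ℕ} {f : Po N} (hf : f ∈ V (Fin N) a) (n : ℕ) (c : Po N) :
    homogeneousComponent n (f * c) = if a ≤ n then f * homogeneousComponent (n - a) c else 0 := by
  conv_lhs => rw [← sum_homogeneousComponent c, Finset.mul_sum, map_sum]
  have h1 : ∀ i ∈ Finset.range (c.totalDegree + 1),
      homogeneousComponent n (f * homogeneousComponent i c) =
        if n = a + i then f * homogeneousComponent i c else 0 := by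
    intro i _
    have h2 : f * homogeneousComponent i c ∈ homogeneousSubmodule (Fin N) ℂ (a + i) :=
      (mem_homogeneousSubmodule _ _).2
        (((mem_homogeneousSubmodule _ _).1 hf).mul (homogeneousComponent_isHomogeneous i c))
    rw [homogeneousComponent_of_mem h2]
  rw [Finset.sum_congr rfl h1]
  by_cases han : a ≤ n
  · rw [if_pos han]
    have h3 : ∀ i ∈ Finset.range (c.totalDegree + 1),
        (if n = a + i then f * homogeneousComponent i c else 0) =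
        if i = n - a then f * homogeneousComponent i c else 0 := by
      intro i _
      by_cases h : i = n - a
      · rw [if_pos h, if_pos (by omega)]
      · rw [if_neg h, if_neg (by omega)]
    rw [Finset.sum_congr rfl h3, Finset.sum_ite_eq']
    by_cases hm : n - a ∈ Finset.range (c.totalDegree + 1)
    · rw [if_pos hm]
    · rw [if_neg hm]
      rw [Finset.mem_range, not_lt] at hm
      rw [homogeneousComponent_eq_zero (n - a) c (by omega), mul_zero]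
  · rw [if_neg han]
    exact Finset.sum_eq_zero (fun i _ => if_neg (by omega))

lemma prj_mul (N : ℕ) (a : ℕ) (f : Po N) (hf : f ∈ V (Fin N) a) (j : ℤ) (c : Po N) :
    prj N (j + a) (f * c) = f * prj N j c := by
  unfold prj
  by_cases h : 0 ≤ j
  · have h2 : 0 ≤ j + a := by omega
    have h3 : (j + (a : ℤ)).toNat - a = j.toNat := by omega
    rw [if_pos h, if_pos h2, hc_mul N hf, if_pos (by omega), h3]
  · rw [if_neg h]
    by_cases h2 : 0 ≤ j + a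
    · rw [if_pos h2, hc_mul N hf, if_neg (by omega)]
      simp
    · rw [if_neg h2]
      simp

/-- the polynomial system: the operators are the multiplications by the entries of the matrices -/
noncomputable def PS (N r k L a : ℕ) (M : Mat N r k L) (hM : ∀ t i l, M t i l ∈ V (Fin N) a) :
    Sys r k L (a : ℤ) where
  C := Po N
  ag := inferInstance
  mo := inferInstance
  X t i l := LinearMap.mulLeft ℂ (M t i l)
  comm := by
    intro t i l t' i' l' c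
    simp only [LinearMap.mulLeft_apply]
    ring
  π := prj N
  ππ := prj_idem N
  πX := fun j t i l c => prj_mul N a _ (hM t i l) j c

/-- BRI.  Good matrices are Tor-independent.  Let `𝒞 = PS` with the first `k` rows.  For a list
`us = t_q :: … :: t_1` without repetitions let `𝒞_us` be the iterated cokernel (`𝒞_{t :: us} = 𝒞_us.cok t`) and
`mk_us : Fn N L q → 𝒞_us.C`, `mk_{t :: us} G = class of (λ ↦ mk_us (ν ↦ G (Fin.cons λ ν)))`.  By induction: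
`mk_us` is linear, surjective, commutes with the multiplications `X t i l` (all entries) and with the `π j`
(all entries), and its kernel is the range of `Psi X us.get I'` (`I' t` = the first `k` rows): if
`mk_{t :: us} G = 0`, there are `u_i = mk_us h_i` with `G (cons λ ·) - ∑_i X t i λ h_i ∈ ker mk_us`, so
`G = Psi g` with `g 0 i ν = h_i (tail ν)`, `g (p+1) i ν = g^{ν 0} p i (tail ν)`; the converse is similar.
Taking `π j`, the degree `j` part of the kernel is `WD X .. j` (entries of degree `j`), so the degree `j` part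
`(𝒞_us)_j = {c | π j c = c} = mk (FH j)` has dimension `c(us, j) = (L+1)^q dim V_j - dim WD` for `j ≥ 0` (and 0
for `j < 0`), and `c(us, j) ≤ expc(us, j)` for `j ≤ D` (GoodX with `I'`).
Claim: `c(us, j) = expc(us, j)` for `0 ≤ j ≤ D`, and Inj `𝒞_us` `t` `D` if `t :: us` has no repetitions.
`us = []`: `dim V_j` is the coefficient of `z^j` in `1/(1-z)^N`.  Step `t :: us`: the map
`Θ : (𝒞_us)_{j}^k → (𝒞_us)_{j+a}^{L+1}`, `u ↦ (∑_i X t i l u_i)_l` has cokernel `(𝒞_{t :: us})_{j+a}` (apply `π`), so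
`dim ker Θ = k c(us, j) - (L+1) c(us, j+a) + c(t :: us, j+a)
 ≤ k expc(us, j) - (L+1) expc(us, j+a) + expc(t :: us, j+a) = 0`
(product formula for `expc`; terms with `j < 0` are absent), so `Θ` is injective and there is equality.
Then `AC Vs 𝒞_us D` for all `Vs` such that `Vs ++ us` has no repetitions, by induction on `Vs`. -/
def SpecBRI : Prop := ∀ (N r s L a D : ℕ) (M : Mat N r s L) (hM : ∀ t i l, M t i l ∈ V (Fin N) a),
  GoodX (fun _ _ => a) (fun _ => Finset.univ) D M → ∀ (k : ℕ) (hk : k ≤ s) (Vs : List (Fin r)), Vs.Nodup →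
    AC Vs (PS N r k L a (fun t i l => M t (Fin.castLE hk i) l) (fun _ _ _ => hM _ _ _)) D

/-! ### The regular sequence -/

/-- The forms `f_i = ∑_{t,l} M_{t,i,l}(x^q) y_{t,l}^b` in the variables `x_v` (`v : Fin N`) and `y_{t,l}`. -/
noncomputable def fR {N r s L : ℕ} (M : Mat N r s L) (q b : ℕ) (i : ℕ) :
    MvPolynomial (Fin N ⊕ (Fin r × Fin (L + 1))) ℂ :=
  if h : i < s then
    ∑ t, ∑ l, rename Sum.inl (expand q (M t ⟨i, h⟩ l)) * (X (Sum.inr (t, l)) : MvPolynomial _ ℂ) ^ b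
  else 0

/-- the degree `e` part of the ideal generated by the forms `f 0, …, f (j - 1)` of degree `A` -/
noncomputable def Iq {σ : Type} (f : ℕ → MvPolynomial σ ℂ) (A e j : ℕ) :
    Submodule ℂ (MvPolynomial σ ℂ) :=
  if A ≤ e then ⨆ i : Fin j, (V σ (e - A)).map (LinearMap.mulLeft ℂ (f i)) else ⊥

/-- `f 0, …, f (s - 1)` is a regular sequence up to degree `e` -/
def Reg {σ : Type} (f : ℕ → MvPolynomial σ ℂ) (A e s : ℕ) : Prop :=
  ∀ k < s, ∀ e' ≤ e, A ≤ e' → ∀ g ∈ V σ (e' - A), f k * g ∈ Iq f A e' k → g ∈ Iq f A (e' - A) k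

/-- TRANS.  Let `k < s`, `f k * g = ∑_{i < k} f i * h_i`, so `∑_{i ≤ k} f_i g_i = 0` with `g_k = g`,
`g_i = - h_i` of degree `e' - A`.  Divide exponents with remainder: `x`-exponents `q γ + α` (`α_v < q`),
`y`-exponents `b κ + β` (`β < b`).  For fixed `(α, β)` and `μ : ℕ` let `G_i κ` (`κ : Mo r L`) be the
polynomial `∑_γ coeff_{(qγ+α, bκ+β)} (g_i) x^γ` if `tdeg κ = μ`, and `0` otherwise.  Since all exponents of
`f_i` are multiples of `q` resp. `b`, and `f_i` has degree 1 in the `y^b`, `∑_i F_i G_i = 0`.  The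
`G_i` are in `InE (all groups) μ j` where `q j + b μ + |α| + |β| = e' - A` (if there is no such `j : ℕ`, all `G_i = 0`).
`b μ ≤ e - A < b (r+1) - A ≤ b r`, so `μ + 1 ≤ r`; `q j ≤ e - A < b + q (D+1) - (q a + b)`, so `j + a ≤ D`.
Kos with the `k + 1` first rows: `G_k = ∑_m F_m c_{km}`, `c_{kk} = 0` (antisymmetric, over `ℂ`), so only `m < k` occur.
Hence `g = ∑_{α,β,μ} x^α y^β ∑_{m < k} f_m c̃_{km}`, with `c̃ = ∑_κ c(x^q) (y^b)^κ` (finitely many `κ`, as `tdeg κ = μ - 1`),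
of degree `q (j - a) + b (μ - 1) = q j + b μ - A`; if this is negative as `j < a` or `μ < 1` then `c = 0`. So `g ∈ Iq f A (e' - A) k`
(if `e' - A < A`, each `(j, μ)` has `j < a` or `μ < 1`, all `c = 0` and `g = 0`). -/
def SpecTRANS : Prop := ∀ (N r s L a D q b e : ℕ) (M : Mat N r s L)
  (hM : ∀ t i l, M t i l ∈ V (Fin N) a), 1 ≤ q → 1 ≤ b → 1 ≤ a →
  e < b * (r + 1) → e < b + q * (D + 1) →
  (∀ (k : ℕ) (hk : k ≤ s) (μ j : ℤ), μ + 1 ≤ r → j + a ≤ D →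
    Kos (PS N r k L a (fun t i l => M t (Fin.castLE hk i) l) (fun _ _ _ => hM _ _ _))
      (List.finRange r) μ j) →
  Reg (fR M q b) (q * a + b) e s

/-- FRV.  The forms `fR` have degree `q a + b`. -/
def SpecFRV : Prop := ∀ (N r s L a q b : ℕ) (M : Mat N r s L), (∀ t i l, M t i l ∈ V (Fin N) a) →
  ∀ i, fR M q b i ∈ V (Fin N ⊕ (Fin r × Fin (L + 1))) (q * a + b)

/-- REN.  Renaming of variables (file REN.lean also contains FRV). -/
def SpecREN : Prop := ∀ (σ τ : Type) [Fintype σ] [Fintype τ] (ε : σ ≃ τ) (f : ℕ → MvPolynomial σ ℂ)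
  (A e j : ℕ), Module.finrank ℂ (Iq (fun i => rename ε (f i)) A e j) = Module.finrank ℂ (Iq f A e j)

/-- `∑_i (-1)^i choose s i * choose (n + e - i A) n` over `i` with `i A ≤ e` -/
def Fs (n A e s : ℕ) : ℤ :=
  ∑ i ∈ (Finset.range (e + 1)).filter (fun i => i * A ≤ e),
    (-1) ^ i * (s.choose i : ℤ) * ((n + e - i * A).choose n : ℤ)

/-- HILB.  `H(e', j) = dim V_{e'} - dim Iq e' j`.  For `j < s`, `A ≤ e' ≤ e`: `Iq e' (j+1) = Iq e' j + f_j V_{e'-A}` and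
`{g ∈ V_{e'-A} | f_j g ∈ Iq e' j} = Iq (e'-A) j` (`⊆` is Reg; `⊇`: `f_j f_i h = f_i (f_j h)`), so
`H(e', j+1) = H(e', j) - H(e'-A, j)`; for `e' < A`: `H(e', j) = dim V_{e'}`.  `Fs` satisfies the same recursion
(Pascal) and `Fs n A e' 0 = choose (n+e') n = dim V_{e'}`. -/
def SpecHILB : Prop := ∀ (σ : Type) [Fintype σ] (n A e s : ℕ) (f : ℕ → MvPolynomial σ ℂ),
  Fintype.card σ = n + 1 → 1 ≤ A → (∀ i, f i ∈ V σ A) → Reg f A e s →
  ∀ j ≤ s, ∀ e' ≤ e, (Module.finrank ℂ (V σ e') : ℤ) - (Module.finrank ℂ (Iq f A e' j) : ℤ) = Fs n A e' j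

/-- SEMI.  `d = e + A`, `ℓ_i = ∑_v p_i(v) X_v`.
(1) `⟨G, F⟩ = ∑_α α! G_α F_α` is nondegenerate on `V_d` and `V_e`, `⟨X_v G, F⟩ = ⟨G, ∂_v F⟩`, so
`⟨ℓ_i^A G, F⟩ = ⟨G, D_{p_i}^A F⟩`.  If `F ∈ V_d` is orthogonal to `Iq (ℓ^A) A d s`, then `D_{p_i}^A F ∈ V_e` is
orthogonal to `V_e`, so it is 0: `F ∈ K p A d s`.  Therefore
`dim K p A d s ≥ dim V_d - dim Iq (ℓ^A) A d s`.
(2) `f^τ = ℓ^A + τ (f - ℓ^A)`.  `Iq f^τ A k j` (`k ≥ A`) is the range of the map
`(h_i) ↦ ∑_i f^τ_i h_i` on `V_{k-A}^j`, linear in `τ`.  By `rank_semicont` (`N = 2`, at `τ = 0` for `k = d, j = s`, at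
`τ = 1` for `k = e` and all `j ≤ s`) there is `τ` with `dim Iq f^τ A d s ≥ dim Iq ℓ^A A d s` and
`dim Iq f^τ A e j ≥ dim Iq f A e j` for all `j ≤ s` (if `e < A` both are 0).
(3) `dim Iq f^τ A d (j+1) ≤ dim Iq f^τ A d j + dim V_e - dim Iq f^τ A e j`, since `f_j Iq e j ⊆ Iq d j`; so
`dim V_d - dim Iq f^τ A d s ≥ dim V_d - ∑_{j<s} Fs n A e j = Fs n A d s` by the recursion
`Fs n A (e+A) (j+1) = Fs n A (e+A) j - Fs n A e j` (Pascal). -/
def SpecSEMI : Prop := ∀ (n A e s : ℕ) (f : ℕ → MvPolynomial (Fin (n + 1)) ℂ), 1 ≤ A →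
  (∀ i, f i ∈ V (Fin (n + 1)) A) →
  (∀ j ≤ s, (Module.finrank ℂ (V (Fin (n + 1)) e) : ℤ) - (Module.finrank ℂ (Iq f A e j) : ℤ) ≤
    Fs n A e j) →
  ∀ p : ℕ → Fin (n + 1) → ℂ, Fs n A (e + A) s ≤ (Module.finrank ℂ (K p A (e + A) s) : ℤ)

/-! ### Numbers -/

/-- CAP.  `p = η = 1/(4 C2)`, `q = ⌊A/(4n)⌋ + 1`, `a = ⌊(1 - p/2) A / q⌋`, `b = A - q a`, `D = ⌊(e - b)/q⌋`,
`r = ⌈8 C2^2⌉ + 1`, `n' = n - r (L+1)`, `C1 = 8 C2`, `δ = ½ log (1 + 1/(8 C2^2))`; `n` large (also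
`A ≥ (e + n)/C2 ≥ n/C2` is large).  `p A/2 ≤ b < p A/2 + q ≤ p A`, since `q ≤ A/(4n) + 1 ≤ p A/4 + p A/4`.
`D ≥ a` as `e - b ≥ A - b = q a`; `a ≥ 1`.  `b (r+1) ≥ A (r+1)/(8 C2) > C2 A ≥ e`.  `q (D+1) > e - b`.
`D ≤ e/q ≤ C2 A (4n)/A = 4 C2 n ≤ 8 C2 n'`.
Let `x_k = A/(e+k) ∈ [1/C2, 1]` for `1 ≤ k ≤ n` (`e ≥ A`, `e + n ≤ C2 A`).  For `1 ≤ k ≤ n'`:
`(D+k)/(D-a+k) = 1 + a/(D-a+k)`, `q (D - a) ≤ e - b - q a = e - A`, `q k ≤ A/4 + k`, so
`a/(D-a+k) ≥ (A-b)/(e - A + A/4 + k) = (A-b)/(e - 3A/4 + k) ≥ (1+η) x_k`, because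
`(A-b)(e+k) ≥ (1-p) A (e+k)`, and `(1-p)(e+k) ≥ (1+η)(e+k) - (1+η) (3/4) A` follows from
`(p+η)(e+k) ≤ (p+η) C2 A = A/2`.  And `(1 + (1+η) x)/(1+x) ≥ 1 + η/(C2+1) ≥ 1 + 1/(8 C2^2)` for `x ≥ 1/C2`.
So `choose (n'+D) n' / choose (n'+D-a) n' = ∏_{k ≤ n'} (D+k)/(D-a+k) ≥ exp(2 δ n') ∏_{k ≤ n'} (1+x_k)
≥ exp(2 δ n') 2^{-(n-n')} ∏_{k ≤ n} (1 + x_k)` and `∏_{k ≤ n} (1+x_k) = choose (n+e+A) n / choose (n+e) n ≥ s/2`.
Finally `2^{1 + r(L+1)} ≤ exp (δ n')` for `n` large. -/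
def SpecCAP : Prop := ∀ C2 : ℝ, 2 ≤ C2 → ∃ (δ C1 : ℝ) (r : ℕ), 0 < δ ∧ 1 ≤ r ∧
  ∀ L m0 : ℕ, ∃ n0 : ℕ, ∀ n ≥ n0, ∀ A e : ℕ, A ≤ e → ((e + n : ℕ) : ℝ) ≤ C2 * A →
    ∃ q b a D n' : ℕ, 1 ≤ q ∧ 1 ≤ b ∧ 1 ≤ a ∧ a ≤ D ∧ q * a + b = A ∧ n' + r * (L + 1) = n ∧
      m0 ≤ n' ∧ e < b * (r + 1) ∧ e < b + q * (D + 1) ∧ (D : ℝ) ≤ C1 * n' ∧
      ∀ s : ℕ, (s : ℝ) * ((n + e).choose n : ℝ) ≤ 2 * ((n + e + A).choose n : ℝ) →
        (s : ℝ) * ((n' + D - a).choose n' : ℝ) ≤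
          Real.exp (-(δ * n')) * ((n' + D).choose n' : ℝ)

/-- NEG.  `d = e + A`, `R_k = choose (n+k) n`, `ε = R_d R_{e-A} / R_e^2 = ∏_{k=1}^n (1 - A^2/(e+k)^2) ≤ (1 - 1/C2^2)^n`.
Log-concavity: `R_{d-(i+1)A} R_{d-(i-1)A} ≤ R_{d-iA}^2` with quotient `≤ ε` for `i ≥ 1` (each factor
`1 - A^2/(x+k)^2`, `x = d - i A ≤ e`), so `R_{d-iA} ≤ R_d (R_e/R_d)^i ε^{i-1}` for `i ≥ 1`, `i A ≤ d`.
`s ≤ 2 R_d/R_e + 1 ≤ 3 R_d/R_e`, so `choose s i * R_{d-iA} ≤ R_d (3^i / i!) ε^{i-1}` and the sum over `i ≥ 2` is in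
absolute value `≤ R_d ε exp 3 < R_d` for `n` large.  `Fs ≤ R_d - s R_e + (that) < R_d - 2 R_d + R_d = 0`. -/
def SpecNEG : Prop := ∀ C2 : ℝ, 2 ≤ C2 → ∃ n0 : ℕ, ∀ n ≥ n0, ∀ A e s : ℕ, A ≤ e →
  ((e + n : ℕ) : ℝ) ≤ C2 * A → 2 * (n + e + A).choose n ≤ s * (n + e).choose n →
  s * (n + e).choose n ≤ 2 * (n + e + A).choose n + (n + e).choose n →
  Fs n A (e + A) s < 0

/-- LV.  `k_I = max (d - |I| (A-1), 0)` for `|I| = i ≥ 1`, `n + k_I - i = n + d - i A` if `i A ≤ d`, and `k_I < i`, so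
that the binomial is 0, if `i A > d`; `choose s i` sets with `|I| = i`; `i ≤ n` if `i A ≤ d < (n+1) A`, and `choose s i = 0`
for `i > s`.  (Compare `lvdim_const`.) -/
def SpecLV : Prop := ∀ (n d s m A : ℕ), A + m = d + 1 → 1 ≤ n → 1 ≤ m → m ≤ d → d < (n + 1) * A →
  lvdim n d s (fun _ => m) = Fs n A d s

/-- MAIN (all the modules).  `A = d + 1 - m`, `e = m - 1`, `C2 = max 2 ((ρ + C)/(1 - ρ))`.  `e < A`: `finrank_K_trivial`.
`A ≤ e`, `s R_e ≥ 2 R_d`: NEG for `s' = ⌈2 R_d / R_e⌉ ≤ s`, `lvdim_extend`, `ldim_le_of_neg`.  Otherwise CAP, THA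
(in `n' + 1` variables), BRI, KOS, TRANS, HILB, REN, SEMI, `finrank_K_le`, LV, `ldim_le_of_le`. -/
def SpecMAIN : Prop := ∀ ρ C : ℝ, ρ < 1 → ∃ n0 : ℕ, ∀ n ≥ n0, ∀ d m s : ℕ, (n : ℝ) ≤ C * d → 1 ≤ m →
  (m : ℝ) ≤ ρ * d → ∀ p : Fin s → Fin (n + 1) → ℂ,
    ldim n d s (fun _ => m) ≤ (Module.finrank ℂ (linSys n d s (fun _ => m) p) : ℤ)

end FrI
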